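import Pool.Agent.KZ.AL.OkC

/-! # KZ4, ALPHA: finite check T334_1100_0 (generated) -/

set_option autoImplicit false
set_option maxRecDepth 100000

namespace Pool.Agent.KZ.AL.Ck.T334_1100_0

open Pool.Agent.KZ (Tri chk rwS)
open Finset (range)

/-- The positions of the T-points. -/
private def P1 : List ((ℕ × ℕ × ℕ) × List (ℕ × ℤ)) :=
  [((0, 1, 0), [(3, 1), (5, 1)]), ((0, 1, 1), [(0, 1), (6, 1)]),
   ((0, 1, 2), [(1, 1), (4, 1), (6, 1)])]

/-- The positions of the free items. -/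
private def P2 : List ((ℕ × ℕ × ℕ) × List (ℕ × ℤ)) :=
  [((0, 1, 0), [(0, 1), (1, 3), (2, 1), (4, 4), (6, 2), (7, 1)])]

private def T : List (ℕ × ℕ × ℕ) :=
  [(0, 1, 0), (0, 1, 1), (0, 1, 2)]

private def F : List (ℕ × ℕ × ℕ) :=
  [(0, 1, 0)]

private def L1 : List (List (ℕ × ℕ)) :=
  [[(3, 1), (5, 1)], [(0, 1), (6, 1)], [(1, 1), (4, 1), (6, 1)]]

private def L2 : List (List (ℕ × ℕ)) :=
  [[(0, 1), (1, 3), (2, 1), (4, 4), (6, 2), (7, 1)]]

private def t0 : Tri :=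
  (.node (.node (.node (.node .nil 4099 59 1 .nil) 4106 33 1 (.node .nil 4113 80 16 .nil)) 4120 73 0x200030000f (.node (.node .nil 4162 64 1 .nil) 4176 84 16 (.node .nil 4288 101 1 .nil))) 4610 68 1 (.node (.node (.node .nil 4617 82 16 .nil) 4624 86 16 (.node .nil 4673 104 22 .nil)) 4680 88 16 (.node (.node .nil 5121 43 1 .nil) 5128 48 16 .nil)))

private def t1 : Tri :=
  (.node (.node (.node (.node .nil 5632 56 1 .nil) 8194 35 1 (.node .nil 8208 73 0x3c001e0001 .nil)) 8257 81 1 (.node (.node .nil 8320 87 1 .nil) 9216 12 1 .nil)) 12289 89 1 (.node (.node (.node .nil 12296 73 0x600010000f .nil) 12352 94 1 (.node .nil 12800 97 1 .nil)) 32771 60 1 (.node (.node .nil 32778 62 1 .nil) 32785 90 1 .nil)))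

private def t2 : Tri :=
  (.node t0 5184 52 1 t1)

private def t3 : Tri :=
  (.node (.node (.node (.node .nil 32834 65 1 .nil) 32841 105 19 (.node .nil 32848 95 1 .nil)) 33282 1 16 (.node (.node .nil 33289 2 16 .nil) 33296 6 16 .nil)) 33345 3 16 (.node (.node (.node .nil 33352 7 16 .nil) 33408 9 16 (.node .nil 33793 4 16 .nil)) 33800 8 16 (.node (.node .nil 33856 10 16 .nil) 34304 11 0x60001e0008 .nil)))

private def t4 : Tri :=
  (.node (.node (.node (.node .nil 36880 74 1 .nil) 37384 49 16 (.node .nil 37888 13 1 .nil)) 65538 0 1 (.node (.node .nil 65552 5 1 .nil) 66560 11 0x3c0002000f .nil)) 98305 44 1 (.node (.node (.node .nil 98312 50 1 .nil) 98368 53 1 (.node .nil 98816 11 0x20001e0018 .nil)) 262147 21 0x60001e0008 (.node (.node .nil 262154 22 16 .nil) 262161 27 16 .nil)))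

private def t5 : Tri :=
  (.node t3 36866 37 1 t4)

private def t6 : Tri :=
  (.node t2 32792 92 1 t5)

private def t7 : Tri :=
  (.node (.node (.node (.node .nil 262210 23 16 .nil) 262217 28 16 (.node .nil 262224 83 1 .nil)) 262273 30 16 (.node (.node .nil 262336 102 1 .nil) 262658 24 16 (.node .nil 262665 29 16 .nil))) 262672 85 1 (.node (.node (.node .nil 262721 31 16 .nil) 263169 32 16 (.node .nil 263176 47 1 .nil)) 263232 54 1 (.node (.node .nil 263680 57 1 .nil) 266242 34 1 .nil)))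

private def t8 : Tri :=
  (.node (.node (.node (.node .nil 267264 14 1 .nil) 270337 36 16 (.node .nil 294914 39 1 .nil)) 294928 76 1 (.node (.node .nil 295425 45 16 .nil) 295936 16 1 .nil)) 524290 21 0x3c0002000f (.node (.node (.node .nil 524304 26 1 .nil) 525312 18 1 (.node .nil 786433 21 0x20001e0018 .nil)) 786440 25 1 (.node (.node .nil 786496 66 1 .nil) 786944 69 1 .nil)))

private def t9 : Tri :=
  (.node t7 266256 71 1 t8)

private def t10 : Tri :=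
  (.node (.node (.node (.node .nil 2097162 63 1 .nil) 2097169 91 1 (.node .nil 2097176 93 1 .nil)) 2097218 67 1 (.node (.node .nil 2097232 96 1 .nil) 2097344 103 0x20000f .nil)) 2097666 70 1 (.node (.node (.node .nil 2097680 98 1 .nil) 2098177 46 1 (.node .nil 2098184 51 1 .nil)) 2098240 55 1 (.node (.node .nil 2098688 58 1 .nil) 2101250 38 1 .nil)))

private def t11 : Tri :=
  (.node (.node (.node (.node .nil 2102272 15 1 .nil) 2129922 40 1 (.node .nil 2129936 77 1 .nil)) 2130944 17 1 (.node (.node .nil 2359298 41 1 .nil) 2359312 78 1 .nil)) 2360320 19 1 (.node (.node (.node .nil 4194306 42 1 .nil) 4194320 79 1 (.node .nil 4194432 103 0xa0010 .nil)) 4195328 20 1 (.node (.node .nil 6291457 99 1 .nil) 6291464 100 1 .nil)))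

private def t12 : Tri :=
  (.node t10 2101264 75 1 t11)

private def t13 : Tri :=
  (.node t9 2097155 61 1 t12)

private def t14 : Tri :=
  (.node t6 262168 72 1 t13)

private def N : Tri := t14

private def S : List (List (ℕ × ℕ × ℕ)) :=
  [[(1, 5, 5)], [(0, 0, 0)], [(0, 0, 1)], [(0, 0, 2)], [(0, 0, 3)], [(2, 5, 5)], [(0, 1, 1)], [(0, 1, 2)
  ], [(0, 1, 3)], [(0, 2, 2)], [(0, 2, 3)], [(0, 5, 5), (0, 3, 5), (0, 3, 3)], [(0, 4, 4)], [(0, 4, 5)
  ], [(0, 4, 6)], [(0, 4, 7)], [(0, 5, 6)], [(0, 5, 7)], [(0, 6, 6)], [(0, 6, 7)], [(0, 7, 7)], [(1, 6, 6)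
  , (1, 0, 6), (1, 0, 0)], [(1, 0, 1)], [(1, 0, 2)], [(1, 0, 3)], [(1, 1, 6)], [(2, 6, 6)], [(1, 1, 1)
  ], [(1, 1, 2)], [(1, 1, 3)], [(1, 2, 2)], [(1, 2, 3)], [(1, 3, 3)], [(1, 1, 4)], [(1, 4, 6)], [(2, 0, 0)
  ], [(1, 4, 4)], [(1, 4, 5)], [(1, 4, 7)], [(1, 5, 6)], [(1, 5, 7)], [(1, 6, 7)], [(1, 7, 7)], [(0, 0, 4)
  ], [(0, 0, 5)], [(0, 0, 6)], [(0, 0, 7)], [(0, 1, 6)], [(2, 3, 3)], [(0, 1, 4)], [(0, 1, 5)], [(0, 1, 7)
  ], [(0, 2, 4)], [(0, 2, 5)], [(0, 2, 6)], [(0, 2, 7)], [(0, 3, 4)], [(0, 3, 6)], [(0, 3, 7)], [(1, 0, 4)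
  ], [(1, 0, 5)], [(1, 0, 7)], [(1, 1, 5)], [(1, 1, 7)], [(1, 2, 4)], [(1, 2, 5)], [(1, 2, 6)], [(1, 2, 7)
  ], [(1, 3, 4)], [(1, 3, 6)], [(1, 3, 7)], [(2, 4, 6)], [(2, 1, 6)], [(2, 1, 4), (2, 1, 1), (2, 4, 4)
  ], [(2, 4, 5)], [(2, 4, 7)], [(2, 5, 6)], [(2, 5, 7)], [(2, 6, 7)], [(2, 7, 7)], [(2, 0, 1)], [(2, 0, 2)
  ], [(2, 0, 3)], [(2, 2, 6)], [(2, 1, 2)], [(2, 3, 6)], [(2, 1, 3)], [(2, 2, 2)], [(2, 2, 3)], [(2, 0, 4)
  ], [(2, 0, 5)], [(2, 0, 7)], [(2, 1, 5)], [(2, 1, 7)], [(2, 2, 4)], [(2, 2, 5)], [(2, 2, 7)], [(2, 3, 4)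
  ], [(2, 3, 7)], [(3, 0, 0)], [(3, 1, 0)], [(3, 4, 0)], [(3, 6, 0)], [(3, 7, 0), (3, 2, 0)], [(3, 3, 0)
  ], [(3, 5, 0)]]

private theorem h0 : chk 17 5 12 31 N (okM 8 2) (rwS L1 L2) S = true := by decide +kernel

theorem ok : (sm true 8 1 1 ∅ {(0, 1, 0)}).OK :=
  ok_of_chk _ 8 2 rfl rfl P1 P2 T F L1 L2 (r := 113) N S (by decide +kernel) (by decide +kernel)
    (by decide +kernel) (by decide +kernel) (by decide +kernel) h0 (by decide +kernel)
    (by decide +kernel) (by decide +kernel) (by decide +kernel) (by decide +kernel)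

end Pool.Agent.KZ.AL.Ck.T334_1100_0
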