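import Pool.Agent.KZ.AL.OkC

/-! # KZ4, ALPHA: finite check T334_1101_0 (generated) -/

set_option autoImplicit false
set_option maxRecDepth 100000

namespace Pool.Agent.KZ.AL.Ck.T334_1101_0

open Pool.Agent.KZ (Tri chk rwS)
open Finset (range)

/-- The positions of the T-points. -/
private def P1 : List ((ℕ × ℕ × ℕ) × List (ℕ × ℤ)) :=
  [((0, 1, 0), [(0, 1), (5, 1)]), ((0, 1, 1), [(0, 1), (1, 1), (3, 1), (4, 1)]),
   ((0, 1, 2), [(3, 1), (6, 1), (7, 1)])]

/-- The positions of the free items. -/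
private def P2 : List ((ℕ × ℕ × ℕ) × List (ℕ × ℤ)) :=
  [((0, 1, 0), [(1, 3), (4, 1), (5, 1)])]

private def T : List (ℕ × ℕ × ℕ) :=
  [(0, 1, 0), (0, 1, 1), (0, 1, 2)]

private def F : List (ℕ × ℕ × ℕ) :=
  [(0, 1, 0)]

private def L1 : List (List (ℕ × ℕ)) :=
  [[(0, 1), (5, 1)], [(0, 1), (1, 1), (3, 1), (4, 1)], [(3, 1), (6, 1), (7, 1)]]

private def L2 : List (List (ℕ × ℕ)) :=
  [[(1, 3), (4, 1), (5, 1)]]

private def t0 : Tri :=
  (.node (.node (.node (.node .nil 16781314 7 0x1400b .nil) 16781321 5 16 (.node .nil 16781377 17 16 .nil)) 16785409 7 0x1600a (.node (.node .nil 16785920 6 1 .nil) 16809986 1 0x1600a (.node .nil 16809993 2 16 .nil))) 16810000 21 23 (.node (.node (.node .nil 16810049 3 16 .nil) 16810504 22 16 (.node .nil 16814081 8 16 .nil)) 16842753 1 0x1400b (.node (.node .nil 16843264 4 1 .nil) 17039369 23 16 .nil)))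

private def t1 : Tri :=
  (.node (.node (.node (.node .nil 17040384 16 0x1400b .nil) 17043968 13 16 (.node .nil 17072129 9 16 .nil)) 17072640 14 16 (.node (.node .nil 17301505 18 1 .nil) 17301512 19 1 .nil)) 17302016 16 0x1600a (.node (.node (.node .nil 18874377 24 16 .nil) 18907137 10 16 (.node .nil 20972032 15 16 .nil)) 33558529 12 16 (.node (.node .nil 33587201 0 16 .nil) 33817088 11 16 .nil)))

private def t2 : Tri :=
  (.node t0 17039936 20 16 t1)

private def N : Tri := t2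

private def S : List (List (ℕ × ℕ × ℕ)) :=
  [[(0, 8, 8)], [(0, 5, 8), (0, 0, 8)], [(0, 1, 8)], [(0, 2, 8)], [(0, 3, 8)], [(1, 1, 8)], [(1, 3, 8)
  ], [(1, 0, 8), (1, 4, 8)], [(0, 4, 8)], [(0, 6, 8)], [(0, 7, 8)], [(2, 8, 8)], [(1, 8, 8)], [(2, 4, 8)
  ], [(2, 5, 8)], [(2, 7, 8)], [(2, 3, 8), (2, 6, 8)], [(1, 2, 8)], [(2, 0, 8)], [(2, 1, 8)], [(2, 2, 8)
  ], [(3, 8, 0)], [(1, 5, 8)], [(1, 6, 8)], [(1, 7, 8)]]

private theorem h0 : chk 13 5 8 31 N (okM 9 3) (rwS L1 L2) S = true := by decide +kernel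

theorem ok : (sm true 9 1 1 ∅ {(0, 1, 0)}).OK :=
  ok_of_chk _ 9 3 rfl rfl P1 P2 T F L1 L2 (r := 28) N S (by decide +kernel) (by decide +kernel)
    (by decide +kernel) (by decide +kernel) (by decide +kernel) h0 (by decide +kernel)
    (by decide +kernel) (by decide +kernel) (by decide +kernel) (by decide +kernel)

end Pool.Agent.KZ.AL.Ck.T334_1101_0
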