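import Pool.Agent.KZ.AL.OkC

/-! # KZ4, ALPHA: finite check T334_1102_0 (generated) -/

set_option autoImplicit false
set_option maxRecDepth 100000

namespace Pool.Agent.KZ.AL.Ck.T334_1102_0

open Pool.Agent.KZ (Tri chk rwS)
open Finset (range)

/-- The positions of the T-points. -/
private def P1 : List ((ℕ × ℕ × ℕ) × List (ℕ × ℤ)) :=
  [((0, 1, 0), [(1, 3), (4, 1)]), ((0, 1, 1), [(0, 1), (6, 2)]),
   ((0, 1, 2), [(2, 2), (4, 4), (5, 3), (6, 3)])]

/-- The positions of the free items. -/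
private def P2 : List ((ℕ × ℕ × ℕ) × List (ℕ × ℤ)) :=
  []

private def T : List (ℕ × ℕ × ℕ) :=
  [(0, 1, 0), (0, 1, 1), (0, 1, 2)]

private def F : List (ℕ × ℕ × ℕ) :=
  []

private def L1 : List (List (ℕ × ℕ)) :=
  [[(1, 3), (4, 1)], [(0, 1), (6, 2)], [(2, 2), (4, 4), (5, 3), (6, 3)]]

private def L2 : List (List (ℕ × ℕ)) :=
  []

private def t0 : Tri :=
  (.node (.node .nil 150999048 0 26 .nil) 150999104 2 2 (.node .nil 151257089 1 8 .nil))

private def N : Tri := t0

private def S : List (List (ℕ × ℕ × ℕ)) :=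
  [[(0, 8, 9)], [(1, 8, 9)], [(2, 8, 9)]]

private theorem h0 : chk 14 5 9 31 N (okM 10 4) (rwS L1 L2) S = true := by decide +kernel

theorem ok : (sm true 10 1 1 ∅ ∅).OK :=
  ok_of_chk _ 10 4 rfl rfl P1 P2 T F L1 L2 (r := 3) N S (by decide +kernel) (by decide +kernel)
    (by decide +kernel) (by decide +kernel) (by decide +kernel) h0 (by decide +kernel)
    (by decide +kernel) (by decide +kernel) (by decide +kernel) (by decide +kernel)

end Pool.Agent.KZ.AL.Ck.T334_1102_0
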