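import Pool.Agent.KZ.AL.OkC

/-! # KZ4, ALPHA: finite check T334_1111_0 (generated) -/

set_option autoImplicit false
set_option maxRecDepth 100000

namespace Pool.Agent.KZ.AL.Ck.T334_1111_0

open Pool.Agent.KZ (Tri chk rwS)
open Finset (range)

/-- The positions of the T-points. -/
private def P1 : List ((ℕ × ℕ × ℕ) × List (ℕ × ℤ)) :=
  [((0, 1, 0), [(0, 1), (3, 1), (5, 1)]), ((0, 1, 1), [(0, 1), (3, 1), (4, 3), (5, 1)]),
   ((0, 1, 2), [(2, 1), (3, 1), (4, 1), (5, 2)]), ((0, 2, 0), [(0, 1), (10, 1)]),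
   ((0, 2, 1), [(1, 1), (9, 3), (10, 1)]), ((0, 2, 2), [(3, 3), (8, 1)]),
   ((1, 2, 0), [(6, 4), (11, 1)]), ((1, 2, 1), [(6, 1), (7, 3), (9, 1), (11, 1)]),
   ((1, 2, 2), [(6, 1), (7, 1), (8, 2), (9, 1), (10, 1), (11, 1)]), ((1, 2, 3), [(5, 2), (6, 1), (8, 4), (9, 1), (10, 2), (11, 1)])]

/-- The positions of the free items. -/
private def P2 : List ((ℕ × ℕ × ℕ) × List (ℕ × ℤ)) :=
  []

private def T : List (ℕ × ℕ × ℕ) :=
  [(0, 1, 0), (0, 1, 1), (0, 1, 2), (0, 2, 0), (0, 2, 1), (0, 2, 2), (1, 2, 0), (1, 2, 1),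
   (1, 2, 2), (1, 2, 3)]

private def F : List (ℕ × ℕ × ℕ) :=
  []

private def L1 : List (List (ℕ × ℕ)) :=
  [[(0, 1), (3, 1), (5, 1)], [(0, 1), (3, 1), (4, 3), (5, 1)], [(2, 1), (3, 1), (4, 1), (5, 2)],
   [(0, 1), (10, 1)], [(1, 1), (9, 3), (10, 1)], [(3, 3), (8, 1)],
   [(6, 4), (11, 1)], [(6, 1), (7, 3), (9, 1), (11, 1)], [(6, 1), (7, 1), (8, 2), (9, 1), (10, 1), (11, 1)],
   [(5, 2), (6, 1), (8, 4), (9, 1), (10, 2), (11, 1)]]

private def L2 : List (List (ℕ × ℕ)) :=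
  []

private def t0 : Tri :=
  (.node (.node (.node (.node (.node .nil 68736258049 20 26 .nil) 68736258112 25 16 .nil) 68736258560 4 26 (.node (.node .nil 68736286721 12 16 .nil) 68736286728 39 2 .nil)) 68736286784 24 2 (.node (.node (.node .nil 68736287232 5 26 .nil) 68736516097 33 4 .nil) 68736516608 6 26 (.node .nil 68738351105 34 8 .nil))) 68738351112 35 8 (.node (.node (.node (.node .nil 68738351168 36 8 .nil) 68738351616 7 26 .nil) 68853698561 21 26 (.node .nil 68853698568 16 26 .nil)) 68853698624 26 16 (.node (.node (.node .nil 68853727233 13 16 .nil) 68853727240 17 26 .nil) 68855791617 29 26 (.node .nil 68855791680 31 26 .nil))))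

private def t1 : Tri :=
  (.node (.node (.node (.node (.node .nil 69793222657 0 16 .nil) 69793222720 27 16 .nil) 69793223168 22 26 (.node .nil 69793251329 1 16 .nil)) 69793251840 14 16 (.node (.node (.node .nil 69793480705 2 16 .nil) 69793480712 18 16 .nil) 69793481216 37 8 (.node .nil 69795315713 3 16 .nil))) 69795315720 19 16 (.node (.node (.node (.node .nil 69795316224 38 16 .nil) 77309415425 23 26 .nil) 77309415488 28 16 (.node .nil 77309444097 15 16 .nil)) 77309673473 8 4 (.node (.node (.node .nil 77309673480 9 4 .nil) 77309673536 10 4 .nil) 77309673984 11 4 (.node .nil 77311508488 30 26 .nil))))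

private def t2 : Tri :=
  (.node t0 68855792128 32 26 t1)

private def N : Tri := t2

private def S : List (List (ℕ × ℕ × ℕ)) :=
  [[(3, 4, 12)], [(3, 5, 12)], [(3, 6, 12)], [(3, 7, 12)], [(5, 4, 12)], [(5, 5, 12)], [(5, 6, 12)], [(5, 7, 12)
  ], [(6, 0, 12)], [(6, 1, 12)], [(6, 2, 12)], [(6, 3, 12)], [(0, 8, 12)], [(0, 9, 12)], [(0, 10, 12)], [(0, 11, 12)
  ], [(4, 4, 12)], [(4, 5, 12)], [(4, 6, 12)], [(4, 7, 12)], [(1, 8, 12)], [(1, 9, 12)], [(1, 10, 12)], [(1, 11, 12)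
  ], [(9, 2, 12)], [(2, 8, 12)], [(2, 9, 12)], [(2, 10, 12)], [(2, 11, 12)], [(7, 0, 12)], [(7, 1, 12)], [(7, 2, 12)
  ], [(7, 3, 12)], [(9, 0, 12)], [(8, 0, 12)], [(8, 1, 12)], [(8, 2, 12)], [(9, 3, 12)], [(8, 3, 12)], [(9, 1, 12)
  ]]

private theorem h0 : chk 13 5 8 31 N (okM 13 4) (rwS L1 L2) S = true := by decide +kernel

theorem ok : (sm true 13 1 1 ∅ ∅).OK :=
  ok_of_chk _ 13 4 rfl rfl P1 P2 T F L1 L2 (r := 40) N S (by decide +kernel) (by decide +kernel)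
    (by decide +kernel) (by decide +kernel) (by decide +kernel) h0 (by decide +kernel)
    (by decide +kernel) (by decide +kernel) (by decide +kernel) (by decide +kernel)

end Pool.Agent.KZ.AL.Ck.T334_1111_0
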