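import Pool.Agent.KZ.AL.OkC

/-! # KZ4, ALPHA: finite check T334_1120_0 (generated) -/

set_option autoImplicit false
set_option maxRecDepth 100000

namespace Pool.Agent.KZ.AL.Ck.T334_1120_0

open Pool.Agent.KZ (Tri chk rwS)
open Finset (range)

/-- The positions of the T-points. -/
private def P1 : List ((ℕ × ℕ × ℕ) × List (ℕ × ℤ)) :=
  [((0, 1, 0), [(1, 1), (6, 1), (7, 2)]), ((0, 1, 1), [(0, 1), (1, 1), (6, 1), (7, 1)]),
   ((0, 1, 2), [(1, 1), (3, 1), (7, 1)]), ((0, 2, 0), [(0, 1), (3, 1), (8, 1), (9, 1)]),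
   ((0, 2, 1), [(3, 1), (9, 1), (10, 1), (11, 1)]), ((0, 2, 2), [(3, 1), (8, 1)]),
   ((0, 3, 0), [(0, 1), (1, 2), (2, 1), (14, 1)]), ((0, 3, 1), [(2, 1), (14, 1), (15, 1)]),
   ((0, 3, 2), [(2, 1), (12, 1)]), ((1, 2, 0), [(4, 1), (7, 1), (10, 1)]),
   ((1, 2, 1), [(6, 1), (11, 1)]), ((1, 2, 2), [(4, 1), (8, 1), (11, 1)]),
   ((1, 2, 3), [(4, 1), (8, 1), (10, 1)]), ((1, 3, 0), [(4, 1), (5, 1), (6, 1), (13, 1)]),
   ((1, 3, 1), [(5, 1), (15, 1)]), ((1, 3, 2), [(4, 1), (5, 1), (7, 1), (12, 1), (13, 1)]),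
   ((1, 3, 3), [(5, 1), (6, 1), (13, 1), (14, 3), (15, 1)])]

/-- The positions of the free items. -/
private def P2 : List ((ℕ × ℕ × ℕ) × List (ℕ × ℤ)) :=
  []

private def T : List (ℕ × ℕ × ℕ) :=
  [(0, 1, 0), (0, 1, 1), (0, 1, 2), (0, 2, 0), (0, 2, 1), (0, 2, 2), (0, 3, 0), (0, 3, 1),
   (0, 3, 2), (1, 2, 0), (1, 2, 1), (1, 2, 2), (1, 2, 3), (1, 3, 0), (1, 3, 1), (1, 3, 2),
   (1, 3, 3)]

private def F : List (ℕ × ℕ × ℕ) :=
  []

private def L1 : List (List (ℕ × ℕ)) :=
  [[(1, 1), (6, 1), (7, 2)], [(0, 1), (1, 1), (6, 1), (7, 1)], [(1, 1), (3, 1), (7, 1)],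
   [(0, 1), (3, 1), (8, 1), (9, 1)], [(3, 1), (9, 1), (10, 1), (11, 1)], [(3, 1), (8, 1)],
   [(0, 1), (1, 2), (2, 1), (14, 1)], [(2, 1), (14, 1), (15, 1)], [(2, 1), (12, 1)],
   [(4, 1), (7, 1), (10, 1)], [(6, 1), (11, 1)], [(4, 1), (8, 1), (11, 1)],
   [(4, 1), (8, 1), (10, 1)], [(4, 1), (5, 1), (6, 1), (13, 1)], [(5, 1), (15, 1)],
   [(4, 1), (5, 1), (7, 1), (12, 1), (13, 1)], [(5, 1), (6, 1), (13, 1), (14, 3), (15, 1)]]

private def L2 : List (List (ℕ × ℕ)) :=
  []

private def t0 : Tri :=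
  (.node (.node (.node (.node .nil 68736258056 175 16 .nil) 68736258112 16 16 (.node .nil 68736258560 0 16 .nil)) 68736286721 193 16 (.node (.node .nil 68736286728 239 16 .nil) 68736286784 20 16 (.node .nil 68736287232 4 16 .nil))) 68736516097 221 16 (.node (.node (.node .nil 68736516104 63 16 .nil) 68736516160 24 16 (.node .nil 68736516608 8 16 .nil)) 68738351105 188 16 (.node (.node .nil 68738351112 62 16 .nil) 68738351168 28 16 (.node .nil 68738351616 12 16 .nil))))

private def t1 : Tri :=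
  (.node (.node (.node (.node .nil 68853698568 240 16 .nil) 68853698624 17 16 (.node .nil 68853699072 184 16 .nil)) 68853727233 197 16 (.node (.node .nil 68853727296 21 16 .nil) 68853727744 198 16 (.node .nil 68853956609 222 16 .nil))) 68853956616 76 16 (.node (.node (.node .nil 68853956672 25 16 .nil) 68853957120 223 16 (.node .nil 68855791624 75 16 .nil)) 68855791680 29 16 (.node (.node .nil 68855792128 74 16 .nil) 69793222657 148 16 (.node .nil 69793222664 169 16 .nil))))

private def t2 : Tri :=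
  (.node t0 68853698561 194 16 t1)

private def t3 : Tri :=
  (.node (.node (.node (.node .nil 69793223168 70 16 .nil) 69793251329 237 16 (.node .nil 69793251336 241 16 .nil)) 69793251392 22 16 (.node (.node .nil 69793251840 203 16 .nil) 69793480705 232 16 (.node .nil 69793480712 99 16 .nil))) 69793480768 26 16 (.node (.node (.node .nil 69793481216 224 16 .nil) 69795315713 149 16 (.node .nil 69795315720 98 16 .nil)) 69795315776 30 16 (.node (.node .nil 69795316224 71 16 .nil) 77309415425 171 16 (.node .nil 77309415432 176 16 .nil))))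

private def t4 : Tri :=
  (.node (.node (.node (.node .nil 77309415936 180 16 .nil) 77309444097 238 16 (.node .nil 77309444104 242 16 .nil)) 77309444160 23 16 (.node (.node .nil 77309444608 204 16 .nil) 77309673473 32 16 (.node .nil 77309673480 36 16 .nil))) 77309673536 27 16 (.node (.node (.node .nil 77309673984 43 16 .nil) 77311508481 233 16 (.node .nil 77311508488 72 8 .nil)) 77311508544 31 16 (.node (.node .nil 77311508992 73 16 .nil) 549772595201 158 16 .nil)))

private def t5 : Tri :=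
  (.node t3 77309415488 19 16 t4)

private def t6 : Tri :=
  (.node t2 69793222720 18 16 t5)

private def t7 : Tri :=
  (.node (.node (.node (.node .nil 549772595264 109 16 .nil) 549772595712 1 16 (.node .nil 549772623873 192 16 .nil)) 549772623880 206 16 (.node (.node .nil 549772624384 5 16 .nil) 549772853249 191 16 (.node .nil 549772853256 65 16 .nil))) 549772853312 131 16 (.node (.node (.node .nil 549772853760 9 16 .nil) 549774688257 190 16 (.node .nil 549774688264 64 16 .nil)) 549774688320 243 16 (.node (.node .nil 549774688768 13 16 .nil) 549890035713 195 16 (.node .nil 549890035720 229 16 .nil))))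

private def t8 : Tri :=
  (.node (.node (.node (.node .nil 549890036224 185 16 .nil) 549890064385 196 16 (.node .nil 549890064392 228 16 .nil)) 549890064896 199 16 (.node (.node .nil 549890293768 83 16 .nil) 549890293824 230 16 (.node .nil 549890294272 200 16 .nil))) 549892128769 189 16 (.node (.node (.node .nil 549892128776 82 16 .nil) 549892128832 244 16 (.node .nil 549892129280 81 16 .nil)) 550829559809 159 16 (.node (.node .nil 550829559816 150 16 .nil) 550829559872 110 16 .nil)))

private def t9 : Tri :=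
  (.node t7 549890035776 231 16 t8)

private def t10 : Tri :=
  (.node (.node (.node (.node .nil 550829588481 162 16 .nil) 550829588488 163 16 (.node .nil 550829588544 112 16 .nil)) 550829588992 202 16 (.node (.node .nil 550829817857 161 16 .nil) 550829817864 101 16 (.node .nil 550829817920 113 16 .nil))) 550829818368 201 16 (.node (.node (.node .nil 550831652865 160 16 .nil) 550831652872 100 16 (.node .nil 550831652928 111 16 .nil)) 550831653376 78 16 (.node (.node .nil 558345752577 157 16 .nil) 558345752584 152 16 (.node .nil 558345752640 108 16 .nil))))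

private def t11 : Tri :=
  (.node (.node (.node (.node .nil 558345781249 156 16 .nil) 558345781256 153 16 (.node .nil 558345781312 107 16 .nil)) 558345781760 205 16 (.node (.node .nil 558346010625 33 16 .nil) 558346010632 37 16 (.node .nil 558346010688 40 16 .nil))) 558346011136 44 16 (.node (.node (.node .nil 558347845633 234 16 .nil) 558347845640 79 8 (.node .nil 558347845696 245 16 .nil)) 558347846144 80 16 (.node (.node .nil 4398063292417 119 16 .nil) 4398063292424 121 16 .nil)))

private def t12 : Tri :=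
  (.node t10 558345753088 181 16 t11)

private def t13 : Tri :=
  (.node t9 550829560320 77 16 t12)

private def t14 : Tri :=
  (.node t6 549772595208 151 16 t13)

private def t15 : Tri :=
  (.node (.node (.node (.node .nil 4398063292928 2 16 .nil) 4398063321089 208 16 (.node .nil 4398063321096 207 26 .nil)) 4398063321152 129 16 (.node (.node .nil 4398063321600 6 16 .nil) 4398063550465 133 16 (.node .nil 4398063550472 67 16 .nil))) 4398063550528 132 0x17008 (.node (.node (.node .nil 4398063550976 10 16 .nil) 4398065385473 134 16 (.node .nil 4398065385480 66 16 .nil)) 4398065385536 139 16 (.node (.node .nil 4398065385984 14 16 .nil) 4398180732929 225 16 (.node .nil 4398180732936 226 8 .nil))))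

private def t16 : Tri :=
  (.node (.node (.node (.node .nil 4398180761601 213 26 .nil) 4398180761608 227 8 (.node .nil 4398180761664 130 16 .nil)) 4398180762112 214 16 (.node (.node .nil 4398180990977 136 16 .nil) 4398180990984 90 16 (.node .nil 4398180991040 137 16 .nil))) 4398180991488 215 16 (.node (.node (.node .nil 4398182825985 135 16 .nil) 4398182825992 89 16 (.node .nil 4398182826048 141 16 .nil)) 4398182826496 88 16 (.node (.node .nil 4399120257025 118 16 .nil) 4399120257032 120 16 .nil)))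

private def t17 : Tri :=
  (.node t15 4398180733440 186 16 t16)

private def t18 : Tri :=
  (.node (.node (.node (.node .nil 4399120257536 84 16 .nil) 4399120285697 165 16 (.node .nil 4399120285704 164 26 .nil)) 4399120285760 114 16 (.node (.node .nil 4399120286208 219 26 .nil) 4399120515073 116 16 (.node .nil 4399120515080 103 16 .nil))) 4399120515136 115 32791 (.node (.node (.node .nil 4399120515584 216 16 .nil) 4399122350081 117 16 (.node .nil 4399122350088 102 16 .nil)) 4399122350144 143 16 (.node (.node .nil 4399122350592 85 16 .nil) 4406636449793 172 16 (.node .nil 4406636449800 177 16 .nil))))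

private def t19 : Tri :=
  (.node (.node (.node (.node .nil 4406636450304 182 16 .nil) 4406636478465 155 16 (.node .nil 4406636478472 154 26 .nil)) 4406636478528 106 16 (.node (.node .nil 4406636478976 220 16 .nil) 4406636707841 34 16 (.node .nil 4406636707848 38 16 .nil))) 4406636707904 41 16 (.node (.node (.node .nil 4406636708352 45 16 .nil) 4406638542849 145 16 (.node .nil 4406638542856 86 8 .nil)) 4406638542912 146 16 (.node (.node .nil 4406638543360 87 16 .nil) 35184388870145 173 16 .nil)))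

private def t20 : Tri :=
  (.node t18 4406636449856 127 16 t19)

private def t21 : Tri :=
  (.node t17 4399120257088 125 16 t20)

private def t22 : Tri :=
  (.node (.node (.node (.node .nil 35184388870208 123 16 .nil) 35184388870656 3 16 (.node .nil 35184388898817 47 16 .nil)) 35184388898824 51 16 (.node (.node .nil 35184388898880 55 16 .nil) 35184388899328 7 16 (.node .nil 35184389128193 209 16 .nil))) 35184389128200 69 16 (.node (.node (.node .nil 35184389128256 132 0x18017 .nil) 35184389128704 11 16 (.node .nil 35184390963201 210 16 .nil)) 35184390963208 68 16 (.node (.node .nil 35184390963264 140 16 .nil) 35184390963712 15 16 (.node .nil 35184506310657 236 16 .nil))))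

private def t23 : Tri :=
  (.node (.node (.node (.node .nil 35184506311168 187 16 .nil) 35184506339329 48 16 (.node .nil 35184506339336 52 16 .nil)) 35184506339392 56 16 (.node (.node .nil 35184506339840 59 16 .nil) 35184506568705 212 16 (.node .nil 35184506568712 97 16 .nil))) 35184506568768 138 16 (.node (.node (.node .nil 35184506569216 217 16 .nil) 35184508403713 211 16 (.node .nil 35184508403720 96 16 .nil)) 35184508403776 142 16 (.node (.node .nil 35184508404224 95 16 .nil) 35185445834753 168 16 .nil)))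

private def t24 : Tri :=
  (.node t22 35184506310720 124 16 t23)

private def t25 : Tri :=
  (.node (.node (.node (.node .nil 35185445834816 126 16 .nil) 35185445835264 91 16 (.node .nil 35185445863425 49 16 .nil)) 35185445863432 53 16 (.node (.node .nil 35185445863488 57 16 .nil) 35185445863936 60 16 (.node .nil 35185446092801 166 16 .nil))) 35185446092808 105 16 (.node (.node (.node .nil 35185446092864 115 0x17018 .nil) 35185446093312 218 16 (.node .nil 35185447927809 167 16 .nil)) 35185447927816 104 16 (.node (.node .nil 35185447927872 144 16 .nil) 35185447928320 92 16 (.node .nil 35192962027521 174 16 .nil))))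

private def t26 : Tri :=
  (.node (.node (.node (.node .nil 35192962027584 128 16 .nil) 35192962028032 183 16 (.node .nil 35192962056193 50 16 .nil)) 35192962056200 54 16 (.node (.node .nil 35192962056256 58 16 .nil) 35192962056704 61 16 (.node .nil 35192962285569 35 16 .nil))) 35192962285576 39 16 (.node (.node (.node .nil 35192962285632 42 16 .nil) 35192962286080 46 16 (.node .nil 35192964120577 235 16 .nil)) 35192964120584 93 8 (.node (.node .nil 35192964120640 147 16 .nil) 35192964121088 94 16 .nil)))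

private def t27 : Tri :=
  (.node t25 35192962027528 179 16 t26)

private def t28 : Tri :=
  (.node t24 35185445834760 170 16 t27)

private def t29 : Tri :=
  (.node t21 35184388870152 178 16 t28)

private def t30 : Tri :=
  (.node t14 4398063292480 122 16 t29)

private def N : Tri := t30

private def S : List (List (ℕ × ℕ × ℕ)) :=
  [[(5, 4, 12)], [(5, 4, 13)], [(5, 4, 14)], [(5, 4, 15)], [(5, 5, 12)], [(5, 5, 13)], [(5, 5, 14)], [(5, 5, 15)
  ], [(5, 6, 12)], [(5, 6, 13)], [(5, 6, 14)], [(5, 6, 15)], [(5, 7, 12)], [(5, 7, 13)], [(5, 7, 14)], [(5, 7, 15)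
  ], [(8, 4, 8)], [(8, 4, 9)], [(8, 4, 10)], [(8, 4, 11)], [(8, 5, 8)], [(8, 5, 9)], [(8, 5, 10)], [(8, 5, 11)
  ], [(8, 6, 8)], [(8, 6, 9)], [(8, 6, 10)], [(8, 6, 11)], [(8, 7, 8)], [(8, 7, 9)], [(8, 7, 10)], [(8, 7, 11)
  ], [(10, 0, 12)], [(10, 0, 13)], [(10, 0, 14)], [(10, 0, 15)], [(10, 1, 12)], [(10, 1, 13)], [(10, 1, 14)], [(10, 1, 15)
  ], [(10, 2, 13)], [(10, 2, 14)], [(10, 2, 15)], [(10, 3, 12)], [(10, 3, 13)], [(10, 3, 14)], [(10, 3, 15)], [(14, 0, 8)
  ], [(14, 0, 9)], [(14, 0, 10)], [(14, 0, 11)], [(14, 1, 8)], [(14, 1, 9)], [(14, 1, 10)], [(14, 1, 11)], [(14, 2, 8)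
  ], [(14, 2, 9)], [(14, 2, 10)], [(14, 2, 11)], [(14, 3, 9)], [(14, 3, 10)], [(14, 3, 11)], [(2, 8, 12)], [(0, 8, 12)
  ], [(2, 8, 13)], [(0, 8, 13)], [(2, 8, 14)], [(0, 8, 14)], [(2, 8, 15)], [(0, 8, 15)], [(12, 3, 12)], [(9, 3, 12)
  ], [(0, 11, 12)], [(2, 11, 12)], [(4, 7, 12)], [(2, 9, 12)], [(0, 9, 12)], [(12, 3, 13)], [(9, 3, 13)], [(0, 11, 13)
  ], [(2, 11, 13)], [(4, 7, 13)], [(2, 9, 13)], [(0, 9, 13)], [(12, 3, 14)], [(9, 3, 14)], [(0, 11, 14)], [(2, 11, 14)
  ], [(4, 7, 14)], [(2, 9, 14)], [(0, 9, 14)], [(12, 3, 15)], [(9, 3, 15)], [(0, 11, 15)], [(2, 11, 15)], [(4, 7, 15)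
  ], [(2, 9, 15)], [(0, 9, 15)], [(2, 10, 12)], [(0, 10, 12)], [(2, 10, 13)], [(0, 10, 13)], [(2, 10, 14)], [(0, 10, 14)
  ], [(2, 10, 15)], [(0, 10, 15)], [(7, 5, 11)], [(16, 2, 11)], [(13, 2, 11)], [(11, 2, 13)], [(12, 2, 13)], [(9, 2, 13)
  ], [(15, 2, 10)], [(13, 2, 10)], [(7, 5, 10)], [(7, 6, 10), (16, 2, 10)], [(6, 6, 10)], [(1, 10, 14)], [(9, 0, 14)
  ], [(12, 0, 14)], [(9, 1, 14)], [(12, 1, 14)], [(6, 4, 8)], [(7, 4, 8)], [(7, 4, 9)], [(12, 2, 14)], [(7, 4, 10)
  ], [(11, 2, 14)], [(7, 4, 11)], [(7, 5, 8)], [(7, 5, 9)], [(13, 2, 8)], [(16, 2, 8), (7, 6, 8)], [(6, 6, 8)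
  ], [(1, 8, 14)], [(3, 7, 14)], [(1, 9, 14)], [(6, 6, 9)], [(7, 6, 9)], [(6, 7, 8)], [(7, 7, 8)], [(6, 7, 9)
  ], [(7, 7, 9)], [(9, 2, 14)], [(7, 7, 10)], [(1, 11, 14)], [(6, 7, 11)], [(7, 7, 11)], [(12, 0, 12)], [(9, 0, 12)
  ], [(9, 1, 13)], [(12, 1, 13)], [(11, 1, 13)], [(13, 1, 11)], [(16, 1, 11)], [(6, 5, 11)], [(16, 0, 11)], [(13, 0, 11)
  ], [(11, 0, 13)], [(12, 0, 13)], [(9, 0, 13)], [(1, 10, 13)], [(13, 0, 10)], [(13, 1, 10)], [(16, 1, 10)], [(6, 5, 10)
  ], [(16, 0, 10)], [(1, 10, 15)], [(9, 0, 15)], [(9, 1, 12)], [(9, 1, 15)], [(11, 0, 12)], [(11, 0, 14)], [(12, 0, 15)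
  ], [(11, 0, 15)], [(12, 1, 12)], [(11, 1, 12)], [(11, 1, 14)], [(12, 1, 15)], [(11, 1, 15)], [(11, 3, 12)], [(11, 3, 13)
  ], [(11, 3, 14)], [(11, 3, 15)], [(4, 4, 12)], [(4, 4, 13)], [(4, 4, 14)], [(4, 4, 15)], [(3, 7, 12)], [(1, 9, 13)
  ], [(3, 7, 13)], [(1, 8, 13)], [(13, 0, 8)], [(15, 0, 8)], [(3, 4, 12)], [(3, 4, 13)], [(13, 0, 9)], [(15, 0, 9)
  ], [(3, 5, 12)], [(3, 5, 13)], [(13, 3, 9)], [(4, 6, 13)], [(13, 3, 10)], [(15, 3, 10)], [(4, 5, 12)], [(4, 5, 13)
  ], [(13, 1, 8)], [(16, 1, 8)], [(6, 5, 8)], [(16, 0, 8)], [(1, 8, 15)], [(3, 7, 15)], [(1, 9, 15)], [(16, 0, 9)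
  ], [(3, 5, 14)], [(3, 6, 14)], [(4, 6, 14)], [(3, 6, 15)], [(4, 6, 15)], [(16, 3, 10)], [(4, 5, 14)], [(1, 8, 12)
  ], [(1, 9, 12)], [(3, 6, 12)], [(4, 6, 12)], [(3, 4, 14)], [(6, 4, 9)], [(6, 5, 9)], [(16, 1, 9)], [(13, 1, 9)
  ], [(16, 2, 9)], [(13, 2, 9)], [(1, 10, 12)], [(1, 11, 12)], [(1, 11, 13)], [(1, 11, 15)], [(3, 4, 15)], [(15, 0, 10)
  ], [(15, 0, 11)], [(15, 1, 8)], [(15, 1, 9)], [(15, 1, 10)], [(15, 1, 11)], [(15, 2, 8)], [(15, 2, 9)], [(15, 2, 11)
  ]]

private theorem h0 : chk 12 5 7 31 N (okM 16 4) (rwS L1 L2) S = true := by decide +kernel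

theorem ok : (sm true 16 1 1 ∅ ∅).OK :=
  ok_of_chk _ 16 4 rfl rfl P1 P2 T F L1 L2 (r := 248) N S (by decide +kernel) (by decide +kernel)
    (by decide +kernel) (by decide +kernel) (by decide +kernel) h0 (by decide +kernel)
    (by decide +kernel) (by decide +kernel) (by decide +kernel) (by decide +kernel)

end Pool.Agent.KZ.AL.Ck.T334_1120_0
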