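import Pool.Agent.KZ.AL.OkC

/-! # KZ4, ALPHA: finite check T334_1120_A (generated) -/

set_option autoImplicit false
set_option maxRecDepth 100000

namespace Pool.Agent.KZ.AL.Ck.T334_1120_A

open Pool.Agent.KZ (Tri chk rwS)
open Finset (range)

/-- The positions of the T-points. -/
private def P1 : List ((ℕ × ℕ × ℕ) × List (ℕ × ℤ)) :=
  [((0, 1, 0), [(1, 1), (2, 1), (7, 1)]), ((0, 1, 1), [(3, 2), (4, 1), (5, 1)]),
   ((0, 1, 2), [(3, 2), (4, 1), (7, 1)]), ((0, 2, 0), [(0, 1), (1, 1), (9, 1), (10, 1)]),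
   ((0, 2, 1), [(0, 1), (8, 1), (9, 1)]), ((0, 2, 2), [(0, 1), (10, 1), (11, 1)]),
   ((0, 3, 0), [(0, -1), (1, -1), (13, 1)]), ((0, 3, 1), [(2, 1), (3, 2), (12, 1)]),
   ((0, 3, 2), [(2, 1), (12, 1), (13, 1), (15, 1)]), ((1, 2, 0), [(5, 1), (8, 1), (11, 1)]),
   ((1, 2, 1), [(4, 1), (9, 1)]), ((1, 2, 2), [(4, 1), (8, 1), (10, 1)]),
   ((1, 2, 3), [(5, 1), (8, 1)]), ((1, 3, 0), [(5, 1), (6, 1), (12, 4), (14, 1), (15, 4)]),
   ((1, 3, 1), [(4, 1), (6, 1), (15, 1)]), ((1, 3, 2), [(6, 1), (7, 3), (13, 1), (14, 1), (15, 3)]),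
   ((1, 3, 3), [(4, 3), (5, 1), (6, 1), (7, 3), (12, 1), (15, 1)])]

/-- The positions of the free items. -/
private def P2 : List ((ℕ × ℕ × ℕ) × List (ℕ × ℤ)) :=
  []

private def T : List (ℕ × ℕ × ℕ) :=
  [(0, 1, 0), (0, 1, 1), (0, 1, 2), (0, 2, 0), (0, 2, 1), (0, 2, 2), (0, 3, 0), (0, 3, 1),
   (0, 3, 2), (1, 2, 0), (1, 2, 1), (1, 2, 2), (1, 2, 3), (1, 3, 0), (1, 3, 1), (1, 3, 2),
   (1, 3, 3)]

private def F : List (ℕ × ℕ × ℕ) :=
  []

private def L1 : List (List (ℕ × ℕ)) :=
  [[(1, 1), (2, 1), (7, 1)], [(3, 2), (4, 1), (5, 1)], [(3, 2), (4, 1), (7, 1)],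
   [(0, 1), (1, 1), (9, 1), (10, 1)], [(0, 1), (8, 1), (9, 1)], [(0, 1), (10, 1), (11, 1)],
   [(0, 30), (1, 30), (13, 1)], [(2, 1), (3, 2), (12, 1)], [(2, 1), (12, 1), (13, 1), (15, 1)],
   [(5, 1), (8, 1), (11, 1)], [(4, 1), (9, 1)], [(4, 1), (8, 1), (10, 1)],
   [(5, 1), (8, 1)], [(5, 1), (6, 1), (12, 4), (14, 1), (15, 4)], [(4, 1), (6, 1), (15, 1)],
   [(6, 1), (7, 3), (13, 1), (14, 1), (15, 3)], [(4, 3), (5, 1), (6, 1), (7, 3), (12, 1), (15, 1)]]

private def L2 : List (List (ℕ × ℕ)) :=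
  []

private def t0 : Tri :=
  (.node (.node (.node (.node .nil 68736258049 60 16 .nil) 68736258056 63 16 (.node .nil 68736258112 36 16 .nil)) 68736258560 32 8 (.node (.node .nil 68736286721 16 16 .nil) 68736286728 20 16 (.node .nil 68736286784 24 16 .nil))) 68736287232 28 16 (.node (.node (.node .nil 68736516097 117 16 .nil) 68736516104 69 16 (.node .nil 68736516160 41 16 .nil)) 68736516608 40 16 (.node (.node .nil 68738351105 88 16 .nil) 68738351112 35 16 (.node .nil 68738351168 34 16 .nil))))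

private def t1 : Tri :=
  (.node (.node (.node (.node .nil 68853698561 0 16 .nil) 68853698568 4 16 (.node .nil 68853698624 8 16 .nil)) 68853699072 12 16 (.node (.node .nil 68853727233 161 16 .nil) 68853727240 223 16 (.node .nil 68853727296 193 16 .nil))) 68853727744 134 8 (.node (.node (.node .nil 68853956609 165 16 .nil) 68853956616 221 16 (.node .nil 68853956672 197 16 .nil)) 68853957120 196 16 (.node (.node .nil 68855791617 87 16 .nil) 68855791624 55 16 .nil)))

private def t2 : Tri :=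
  (.node t0 68738351616 33 8 t1)

private def t3 : Tri :=
  (.node (.node (.node (.node .nil 68855792128 53 8 .nil) 69793222657 61 16 (.node .nil 69793222664 62 16 .nil)) 69793222720 82 16 (.node (.node .nil 69793223168 83 8 .nil) 69793251329 74 16 (.node .nil 69793251336 224 16 .nil))) 69793251392 194 16 (.node (.node (.node .nil 69793251840 138 8 .nil) 69793480705 80 4 (.node .nil 69793480768 200 16 .nil)) 69793481216 199 16 (.node (.node .nil 69795315713 81 26 .nil) 69795315720 86 16 (.node .nil 69795315776 85 16 .nil))))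

private def t4 : Tri :=
  (.node (.node (.node (.node .nil 77309415425 169 16 .nil) 77309415432 243 26 (.node .nil 77309415488 97 16 .nil)) 77309415936 94 8 (.node (.node .nil 77309444097 73 16 .nil) 77309444104 201 16 (.node .nil 77309444160 92 16 .nil))) 77309444608 93 8 (.node (.node (.node .nil 77309673473 177 16 .nil) 77309673480 230 4 (.node .nil 77309673536 103 16 .nil)) 77309673984 102 16 (.node (.node .nil 77311508481 181 16 .nil) 77311508488 125 16 .nil)))

private def t5 : Tri :=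
  (.node t3 69795316224 84 8 t4)

private def t6 : Tri :=
  (.node t2 68855791680 54 16 t5)

private def t7 : Tri :=
  (.node (.node (.node (.node .nil 77311508992 95 8 .nil) 549772595201 159 16 (.node .nil 549772595208 184 15 .nil)) 549772595264 207 16 (.node (.node .nil 549772595712 132 8 .nil) 549772623873 17 16 (.node .nil 549772623880 21 16 .nil))) 549772623936 25 16 (.node (.node (.node .nil 549772624384 29 16 .nil) 549772853249 72 15 (.node .nil 549772853256 71 16 .nil)) 549772853312 48 16 (.node (.node .nil 549772853760 239 16 .nil) 549774688257 56 15 (.node .nil 549774688264 47 16 .nil))))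

private def t8 : Tri :=
  (.node (.node (.node (.node .nil 549774688768 149 8 .nil) 549890035713 1 16 (.node .nil 549890035720 5 16 .nil)) 549890035776 9 16 (.node (.node .nil 549890036224 13 16 .nil) 549890064385 162 16 (.node .nil 549890064392 187 15 .nil))) 549890064448 216 16 (.node (.node (.node .nil 549890064896 135 8 .nil) 549890293761 166 16 (.node .nil 549890293768 190 15 .nil)) 549890293824 219 16 (.node (.node .nil 549890294272 240 16 .nil) 549892128769 57 16 .nil)))

private def t9 : Tri :=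
  (.node t7 549774688320 46 16 t8)

private def t10 : Tri :=
  (.node (.node (.node (.node .nil 549892128832 59 16 .nil) 549892129280 151 8 (.node .nil 550829559809 170 16 .nil)) 550829559816 185 15 (.node (.node .nil 550829559872 208 16 .nil) 550829560320 139 16 (.node .nil 550829588481 176 16 .nil))) 550829588488 188 15 (.node (.node (.node .nil 550829588544 218 16 .nil) 550829588992 140 8 (.node .nil 550829817864 191 15 .nil)) 550829817920 220 16 (.node (.node .nil 550829818368 241 16 .nil) 550831652865 110 16 .nil)))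

private def t11 : Tri :=
  (.node (.node (.node (.node .nil 550831652928 112 16 .nil) 550831653376 154 8 (.node .nil 558345752577 171 16 .nil)) 558345752584 186 15 (.node (.node .nil 558345752640 214 16 .nil) 558345753088 146 8 (.node .nil 558345781249 175 16 .nil))) 558345781256 189 15 (.node (.node (.node .nil 558345781312 204 16 .nil) 558345781760 145 16 (.node .nil 558346010625 178 16 .nil)) 558346010632 192 15 (.node (.node .nil 558346010688 126 16 .nil) 558346011136 242 16 .nil)))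

private def t12 : Tri :=
  (.node t10 550831652872 111 15 t11)

private def t13 : Tri :=
  (.node t9 549892128776 58 15 t12)

private def t14 : Tri :=
  (.node t6 77311508544 96 16 t13)

private def t15 : Tri :=
  (.node (.node (.node (.node .nil 558347845640 108 16 .nil) 558347845696 107 16 (.node .nil 558347846144 157 8 .nil)) 4398063292417 160 16 (.node (.node .nil 4398063292424 206 16 .nil) 4398063292480 209 16 (.node .nil 4398063292928 133 8 .nil))) 4398063321089 18 16 (.node (.node (.node .nil 4398063321096 22 16 .nil) 4398063321152 26 16 (.node .nil 4398063321600 30 16 .nil)) 4398063550465 118 16 (.node (.node .nil 4398063550472 70 16 .nil) 4398063550528 49 16 (.node .nil 4398063550976 235 16 .nil))))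

private def t16 : Tri :=
  (.node (.node (.node (.node .nil 4398065385480 51 16 .nil) 4398065385536 50 26 (.node .nil 4398065385984 150 8 .nil)) 4398180732929 2 16 (.node (.node .nil 4398180732936 6 16 .nil) 4398180732992 10 16 (.node .nil 4398180733440 14 16 .nil))) 4398180761601 163 16 (.node (.node (.node .nil 4398180761608 226 16 .nil) 4398180761664 232 16 (.node .nil 4398180762112 136 8 .nil)) 4398180990977 167 16 (.node (.node .nil 4398180990984 225 16 .nil) 4398180991040 231 16 .nil)))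

private def t17 : Tri :=
  (.node t15 4398065385473 119 26 t16)

private def t18 : Tri :=
  (.node (.node (.node (.node .nil 4398182825985 120 16 .nil) 4398182825992 122 16 (.node .nil 4398182826048 123 16 .nil)) 4398182826496 152 8 (.node (.node .nil 4399120257025 172 16 .nil) 4399120257032 205 16 (.node .nil 4399120257536 141 16 .nil))) 4399120285697 76 16 (.node (.node (.node .nil 4399120285704 227 16 .nil) 4399120285760 234 16 (.node .nil 4399120286208 142 8 .nil)) 4399120515080 228 16 (.node (.node .nil 4399120515136 233 16 .nil) 4399120515584 237 16 .nil)))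

private def t19 : Tri :=
  (.node (.node (.node (.node .nil 4399122350144 124 16 .nil) 4399122350592 155 8 (.node .nil 4406636449793 173 16 .nil)) 4406636450304 148 8 (.node (.node .nil 4406636478465 75 16 .nil) 4406636478472 202 16 (.node .nil 4406636478528 127 16 .nil))) 4406636478976 147 16 (.node (.node (.node .nil 4406636707841 179 16 .nil) 4406636707848 229 16 (.node .nil 4406636707904 128 16 .nil)) 4406636708352 238 16 (.node (.node .nil 4406638542849 182 16 .nil) 4406638542856 130 16 .nil)))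

private def t20 : Tri :=
  (.node t18 4399122350081 121 26 t19)

private def t21 : Tri :=
  (.node t17 4398180991488 236 16 t20)

private def t22 : Tri :=
  (.node (.node (.node (.node .nil 4406638543360 158 8 .nil) 35184388870145 64 16 (.node .nil 35184388870152 67 16 .nil)) 35184388870208 43 16 (.node (.node .nil 35184388870656 37 8 .nil) 35184388898817 19 16 (.node .nil 35184388898824 23 16 .nil))) 35184388898880 27 16 (.node (.node (.node .nil 35184388899328 31 16 .nil) 35184389128193 89 16 (.node .nil 35184389128200 68 16 .nil)) 35184389128256 44 16 (.node (.node .nil 35184389128704 38 16 .nil) 35184390963201 116 16 (.node .nil 35184390963208 52 16 .nil))))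

private def t23 : Tri :=
  (.node (.node (.node (.node .nil 35184390963712 39 8 .nil) 35184506310657 3 16 (.node .nil 35184506310664 7 16 .nil)) 35184506310720 11 16 (.node (.node .nil 35184506311168 15 16 .nil) 35184506339329 164 16 (.node .nil 35184506339336 222 16 .nil))) 35184506339392 215 16 (.node (.node (.node .nil 35184506339840 137 8 .nil) 35184506568705 168 16 (.node .nil 35184506568712 210 16 .nil)) 35184506568768 213 16 (.node (.node .nil 35184506569216 195 16 .nil) 35184508403713 115 16 .nil)))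

private def t24 : Tri :=
  (.node t22 35184390963264 45 26 t23)

private def t25 : Tri :=
  (.node (.node (.node (.node .nil 35184508403776 90 16 .nil) 35184508404224 153 8 (.node .nil 35185445834753 65 16 .nil)) 35185445834760 66 16 (.node (.node .nil 35185445834816 42 16 .nil) 35185445835264 143 16 (.node .nil 35185445863425 78 16 .nil))) 35185445863488 217 16 (.node (.node (.node .nil 35185445863936 144 8 .nil) 35185446092801 79 16 (.node .nil 35185446092808 211 16 .nil)) 35185446093312 198 16 (.node (.node .nil 35185447927816 114 16 .nil) 35185447927872 113 16 .nil)))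

private def t26 : Tri :=
  (.node (.node (.node (.node .nil 35192962027521 174 16 .nil) 35192962027528 212 16 (.node .nil 35192962027584 104 16 .nil)) 35192962028032 99 8 (.node (.node .nil 35192962056193 77 16 .nil) 35192962056200 203 16 (.node .nil 35192962056256 105 16 .nil))) 35192962056704 98 16 (.node (.node (.node .nil 35192962285569 180 16 .nil) 35192962286080 100 16 (.node .nil 35192964120577 183 16 .nil)) 35192964120584 131 16 (.node (.node .nil 35192964120640 106 26 .nil) 35192964121088 101 8 .nil)))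

private def t27 : Tri :=
  (.node t25 35185447928320 156 8 t26)

private def t28 : Tri :=
  (.node t24 35184508403720 91 16 t27)

private def t29 : Tri :=
  (.node t21 4406638542912 129 26 t28)

private def t30 : Tri :=
  (.node t14 558347845633 109 15 t29)

private def N : Tri := t30

private def S : List (List (ℕ × ℕ × ℕ)) :=
  [[(10, 0, 12)], [(10, 0, 13)], [(10, 0, 14)], [(10, 0, 15)], [(10, 1, 12)], [(10, 1, 13)], [(10, 1, 14)], [(10, 1, 15)
  ], [(10, 2, 12)], [(10, 2, 13)], [(10, 2, 14)], [(10, 2, 15)], [(10, 3, 12)], [(10, 3, 13)], [(10, 3, 14)], [(10, 3, 15)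
  ], [(12, 0, 12)], [(12, 0, 13)], [(12, 0, 14)], [(12, 0, 15)], [(12, 1, 12)], [(12, 1, 13)], [(12, 1, 14)], [(12, 1, 15)
  ], [(12, 2, 12)], [(12, 2, 13)], [(12, 2, 14)], [(12, 2, 15)], [(12, 3, 12)], [(12, 3, 13)], [(12, 3, 14)], [(12, 3, 15)
  ], [(1, 8, 12)], [(2, 8, 12)], [(7, 7, 8)], [(0, 8, 12)], [(7, 4, 8)], [(1, 8, 15)], [(14, 3, 8)], [(2, 8, 15)
  ], [(16, 3, 8)], [(7, 6, 8)], [(14, 2, 10)], [(11, 2, 15)], [(14, 2, 8)], [(16, 2, 8)], [(8, 7, 8)], [(0, 8, 13)
  ], [(8, 6, 8)], [(13, 2, 8)], [(15, 2, 8)], [(0, 8, 14)], [(0, 8, 15)], [(2, 9, 12)], [(7, 7, 9)], [(0, 9, 12)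
  ], [(6, 7, 8)], [(4, 7, 13)], [(6, 7, 9)], [(0, 9, 13)], [(4, 4, 12)], [(11, 0, 12)], [(3, 4, 12)], [(11, 1, 12)
  ], [(4, 4, 15)], [(11, 0, 15)], [(3, 4, 15)], [(11, 1, 15)], [(14, 1, 8)], [(16, 1, 8)], [(13, 1, 8)], [(15, 1, 8)
  ], [(6, 6, 8)], [(9, 0, 12)], [(5, 5, 12)], [(9, 0, 14)], [(5, 5, 14)], [(9, 0, 15)], [(5, 5, 15)], [(14, 0, 10)
  ], [(13, 0, 10)], [(16, 0, 10)], [(11, 2, 12)], [(7, 4, 10)], [(2, 10, 12)], [(7, 7, 10)], [(0, 10, 12)], [(3, 7, 12)
  ], [(4, 7, 12)], [(14, 0, 8)], [(8, 7, 9)], [(0, 9, 15)], [(9, 2, 12)], [(7, 5, 11)], [(1, 11, 12)], [(2, 11, 12)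
  ], [(7, 7, 11)], [(7, 4, 11)], [(9, 3, 15)], [(1, 11, 15)], [(14, 3, 11)], [(2, 11, 15)], [(16, 3, 11)], [(7, 6, 11)
  ], [(14, 2, 11)], [(9, 2, 15)], [(16, 2, 11)], [(8, 7, 11)], [(0, 11, 13)], [(6, 7, 11)], [(5, 7, 13)], [(6, 7, 10)
  ], [(0, 10, 13)], [(8, 7, 10)], [(0, 10, 15)], [(3, 7, 15)], [(4, 7, 15)], [(16, 0, 8)], [(13, 0, 8)], [(15, 0, 8)
  ], [(4, 7, 14)], [(15, 0, 10)], [(3, 7, 14)], [(0, 9, 14)], [(0, 10, 14)], [(0, 11, 12)], [(8, 6, 11)], [(9, 2, 14)
  ], [(13, 2, 11)], [(15, 2, 11)], [(0, 11, 14)], [(0, 11, 15)], [(1, 8, 13)], [(1, 8, 14)], [(1, 9, 12)], [(1, 9, 13)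
  ], [(1, 9, 14)], [(1, 9, 15)], [(1, 10, 12)], [(11, 3, 13)], [(1, 10, 13)], [(11, 3, 14)], [(1, 10, 14)], [(11, 3, 15)
  ], [(1, 10, 15)], [(9, 3, 13)], [(1, 11, 13)], [(9, 3, 14)], [(1, 11, 14)], [(2, 8, 13)], [(2, 8, 14)], [(2, 9, 13)
  ], [(2, 9, 14)], [(2, 9, 15)], [(2, 10, 13)], [(2, 10, 14)], [(2, 10, 15)], [(2, 11, 13)], [(2, 11, 14)], [(4, 4, 13)
  ], [(4, 4, 14)], [(4, 5, 12)], [(4, 5, 13)], [(4, 5, 14)], [(4, 5, 15)], [(4, 6, 12)], [(4, 6, 13)], [(4, 6, 14)
  ], [(4, 6, 15)], [(5, 4, 12)], [(11, 0, 13)], [(5, 4, 13)], [(11, 0, 14)], [(5, 4, 14)], [(5, 4, 15)], [(9, 0, 13)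
  ], [(5, 5, 13)], [(5, 6, 12)], [(5, 6, 13)], [(5, 6, 14)], [(5, 6, 15)], [(5, 7, 12)], [(5, 7, 14)], [(5, 7, 15)
  ], [(6, 4, 8)], [(6, 4, 10)], [(6, 4, 11)], [(6, 5, 9)], [(6, 5, 10)], [(6, 5, 11)], [(6, 6, 9)], [(6, 6, 10)
  ], [(6, 6, 11)], [(7, 5, 9)], [(7, 5, 10)], [(14, 3, 9)], [(16, 3, 9)], [(7, 6, 9)], [(14, 3, 10)], [(16, 3, 10)
  ], [(7, 6, 10)], [(9, 1, 12)], [(9, 1, 14)], [(9, 1, 15)], [(9, 2, 13)], [(3, 4, 14)], [(11, 1, 14)], [(8, 4, 8)
  ], [(11, 2, 13)], [(11, 2, 14)], [(14, 1, 9)], [(14, 1, 10)], [(14, 1, 11)], [(14, 2, 9)], [(8, 4, 11)], [(16, 2, 9)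
  ], [(8, 5, 9)], [(16, 2, 10)], [(8, 5, 10)], [(8, 6, 9)], [(8, 6, 10)], [(3, 6, 12)], [(3, 5, 15)], [(16, 1, 9)
  ], [(3, 5, 12)], [(15, 1, 9)], [(13, 1, 9)], [(3, 5, 14)], [(3, 6, 14)], [(15, 1, 11)], [(13, 1, 11)], [(15, 2, 9)
  ], [(13, 2, 9)], [(15, 2, 10)], [(13, 2, 10)], [(13, 3, 8)], [(13, 3, 9)], [(13, 3, 10)], [(13, 3, 11)], [(15, 3, 8)
  ], [(15, 3, 9)], [(15, 3, 10)], [(15, 3, 11)], [(16, 1, 11)]]

private theorem h0 : chk 18 5 13 31 N (okM 16 4) (rwS L1 L2) S = true := by decide +kernel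

theorem ok : (sm true 16 1 1 {(0, {2, 3}, 0)} ∅).OK :=
  ok_of_chk _ 16 4 rfl rfl P1 P2 T F L1 L2 (r := 244) N S (by decide +kernel) (by decide +kernel)
    (by decide +kernel) (by decide +kernel) (by decide +kernel) h0 (by decide +kernel)
    (by decide +kernel) (by decide +kernel) (by decide +kernel) (by decide +kernel)

end Pool.Agent.KZ.AL.Ck.T334_1120_A
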