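import Pool.Agent.KZ.AL.OkC

/-! # KZ4, ALPHA: finite check T334_1120_AB (generated) -/

set_option autoImplicit false
set_option maxRecDepth 100000

namespace Pool.Agent.KZ.AL.Ck.T334_1120_AB

open Pool.Agent.KZ (Tri chk rwS)
open Finset (range)

/-- The positions of the T-points. -/
private def P1 : List ((ℕ × ℕ × ℕ) × List (ℕ × ℤ)) :=
  [((0, 1, 0), [(0, 1), (2, 1), (4, 3), (5, 1), (6, 2)]), ((0, 1, 1), [(0, 1), (3, 1), (4, 1), (6, 1)]),
   ((0, 1, 2), [(0, 1), (4, 1)]), ((0, 2, 0), [(1, 1), (2, 1), (8, 1)]),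
   ((0, 2, 1), [(1, 1), (3, 1), (8, 1), (10, 1)]), ((0, 2, 2), [(1, 1), (3, 1), (9, 1), (10, 1)]),
   ((0, 3, 0), [(1, -1), (2, -1), (12, 1), (13, 4)]), ((0, 3, 1), [(2, 1), (12, 2), (13, 1)]),
   ((0, 3, 2), [(1, 1), (13, 1)]), ((1, 2, 0), [(6, 1), (9, 3), (11, 1)]),
   ((1, 2, 1), [(4, 1), (7, 1), (10, 1)]), ((1, 2, 2), [(7, 1), (8, 4), (9, 4), (11, 1)]),
   ((1, 2, 3), [(7, 1), (9, 1)]), ((1, 3, 0), [(6, -1), (14, 1), (15, 3)]),
   ((1, 3, 1), [(5, 1), (12, 3), (13, 1), (14, 1), (15, 1)]), ((1, 3, 2), [(4, 1), (5, 1), (13, 1), (15, 1)]),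
   ((1, 3, 3), [(5, 1), (15, 1)])]

/-- The positions of the free items. -/
private def P2 : List ((ℕ × ℕ × ℕ) × List (ℕ × ℤ)) :=
  []

private def T : List (ℕ × ℕ × ℕ) :=
  [(0, 1, 0), (0, 1, 1), (0, 1, 2), (0, 2, 0), (0, 2, 1), (0, 2, 2), (0, 3, 0), (0, 3, 1),
   (0, 3, 2), (1, 2, 0), (1, 2, 1), (1, 2, 2), (1, 2, 3), (1, 3, 0), (1, 3, 1), (1, 3, 2),
   (1, 3, 3)]

private def F : List (ℕ × ℕ × ℕ) :=
  []

private def L1 : List (List (ℕ × ℕ)) :=
  [[(0, 1), (2, 1), (4, 3), (5, 1), (6, 2)], [(0, 1), (3, 1), (4, 1), (6, 1)], [(0, 1), (4, 1)],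
   [(1, 1), (2, 1), (8, 1)], [(1, 1), (3, 1), (8, 1), (10, 1)], [(1, 1), (3, 1), (9, 1), (10, 1)],
   [(1, 30), (2, 30), (12, 1), (13, 4)], [(2, 1), (12, 2), (13, 1)], [(1, 1), (13, 1)],
   [(6, 1), (9, 3), (11, 1)], [(4, 1), (7, 1), (10, 1)], [(7, 1), (8, 4), (9, 4), (11, 1)],
   [(7, 1), (9, 1)], [(6, 30), (14, 1), (15, 3)], [(5, 1), (12, 3), (13, 1), (14, 1), (15, 1)],
   [(4, 1), (5, 1), (13, 1), (15, 1)], [(5, 1), (15, 1)]]

private def L2 : List (List (ℕ × ℕ)) :=
  []

private def t0 : Tri :=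
  (.node (.node (.node (.node .nil 68736258049 0 16 .nil) 68736258056 65 16 (.node .nil 68736258112 64 8 .nil)) 68736258560 148 16 (.node (.node .nil 68736286721 150 26 .nil) 68736286728 88 16 (.node .nil 68736286784 87 8 .nil))) 68736287232 216 26 (.node (.node (.node .nil 68736516097 151 8 .nil) 68736516104 93 16 (.node .nil 68736516160 92 8 .nil)) 68736516608 152 16 (.node (.node .nil 68738351105 190 4 .nil) 68738351112 100 16 (.node .nil 68738351168 99 8 .nil))))

private def t1 : Tri :=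
  (.node (.node (.node (.node .nil 68853698561 4 16 .nil) 68853698568 140 15 (.node .nil 68853698624 126 8 .nil)) 68853699072 145 16 (.node (.node .nil 68853727233 227 16 .nil) 68853727240 220 15 (.node .nil 68853727296 129 8 .nil))) 68853727744 221 16 (.node (.node (.node .nil 68853956609 155 16 .nil) 68853956616 146 15 (.node .nil 68853956672 123 26 .nil)) 68853957120 154 16 (.node (.node .nil 68855791617 32 16 .nil) 68855791624 36 16 .nil)))

private def t2 : Tri :=
  (.node t0 68738351616 199 16 t1)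

private def t3 : Tri :=
  (.node (.node (.node (.node .nil 68855792128 43 16 .nil) 69793222657 8 16 (.node .nil 69793222664 141 15 .nil)) 69793222720 127 8 (.node (.node .nil 69793223168 144 16 .nil) 69793251329 180 16 (.node .nil 69793251336 213 15 .nil))) 69793251392 130 8 (.node (.node (.node .nil 69793251840 217 16 .nil) 69793480705 179 16 (.node .nil 69793480712 147 15 .nil)) 69793480768 135 8 (.node (.node .nil 69793481216 153 16 .nil) 69795315713 175 16 .nil)))

private def t4 : Tri :=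
  (.node (.node (.node (.node .nil 69795315776 136 16 .nil) 69795316224 143 16 (.node .nil 77309415425 12 16 .nil)) 77309415432 225 15 (.node (.node .nil 77309415488 128 8 .nil) 77309415936 208 16 (.node .nil 77309444097 229 16 .nil))) 77309444104 226 15 (.node (.node (.node .nil 77309444160 131 8 .nil) 77309444608 235 26 (.node .nil 77309673473 156 16 .nil)) 77309673480 159 16 (.node (.node .nil 77309673536 122 8 .nil) 77309673984 171 16 .nil)))

private def t5 : Tri :=
  (.node t3 69795315720 142 16 t4)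

private def t6 : Tri :=
  (.node t2 68855791680 39 16 t5)

private def t7 : Tri :=
  (.node (.node (.node (.node .nil 77311508544 138 16 .nil) 77311508992 200 16 (.node .nil 549772595201 1 16 .nil)) 549772595208 16 16 (.node (.node .nil 549772595264 63 16 .nil) 549772595712 109 16 (.node .nil 549772623873 110 16 .nil))) 549772623880 20 16 (.node (.node (.node .nil 549772623936 86 16 .nil) 549772624384 212 16 (.node .nil 549772853249 111 8 .nil)) 549772853256 24 16 (.node (.node .nil 549772853312 91 16 .nil) 549772853760 112 16 .nil)))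

private def t8 : Tri :=
  (.node (.node (.node (.node .nil 549774688264 28 16 .nil) 549774688320 98 16 (.node .nil 549774688768 201 16 .nil)) 549890035713 5 16 (.node (.node .nil 549890035720 17 16 .nil) 549890035776 125 0x400017 (.node .nil 549890036224 108 16 .nil))) 549890064385 103 16 (.node (.node (.node .nil 549890064392 21 16 .nil) 549890064448 125 0xb80018 (.node .nil 549890064896 222 16 .nil)) 549890293761 115 16 (.node (.node .nil 549890293768 25 16 .nil) 549890293824 124 16 .nil)))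

private def t9 : Tri :=
  (.node t7 549774688257 191 4 t8)

private def t10 : Tri :=
  (.node (.node (.node (.node .nil 549892128769 33 16 .nil) 549892128776 29 16 (.node .nil 549892128832 40 16 .nil)) 549892129280 44 16 (.node (.node .nil 550829559809 9 16 .nil) 550829559816 18 16 (.node .nil 550829560320 107 16 .nil))) 550829588481 132 16 (.node (.node (.node .nil 550829588488 22 16 .nil) 550829588992 218 16 (.node .nil 550829817857 133 16 .nil)) 550829817864 26 16 (.node (.node .nil 550829817920 134 8 .nil) 550829818368 113 16 .nil)))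

private def t11 : Tri :=
  (.node (.node (.node (.node .nil 550831652872 30 16 .nil) 550831652928 137 16 (.node .nil 550831653376 106 16 .nil)) 558345752577 13 16 (.node (.node .nil 558345752584 19 16 .nil) 558345752640 117 26 (.node .nil 558345753088 209 16 .nil))) 558345781249 105 16 (.node (.node (.node .nil 558345781256 23 16 .nil) 558345781760 234 16 (.node .nil 558346010625 116 16 .nil)) 558346010632 27 16 (.node (.node .nil 558346011136 172 16 .nil) 558347845640 31 16 .nil)))

private def t12 : Tri :=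
  (.node t10 550831652865 176 16 t11)

private def t13 : Tri :=
  (.node t9 549890294272 114 16 t12)

private def t14 : Tri :=
  (.node t6 77311508488 194 16 t13)

private def t15 : Tri :=
  (.node (.node (.node (.node .nil 558347846144 202 16 .nil) 4398063292417 2 16 (.node .nil 4398063292424 83 16 .nil)) 4398063292480 84 16 (.node (.node .nil 4398063292928 75 16 .nil) 4398063321089 149 16 (.node .nil 4398063321096 89 16 .nil))) 4398063321152 90 16 (.node (.node (.node .nil 4398063321600 215 16 .nil) 4398063550465 73 15 (.node .nil 4398063550472 96 15 .nil)) 4398063550528 97 16 (.node (.node .nil 4398063550976 74 15 .nil) 4398065385473 192 4 .nil)))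

private def t16 : Tri :=
  (.node (.node (.node (.node .nil 4398065385984 203 16 .nil) 4398180732929 6 16 (.node .nil 4398180732936 219 16 .nil)) 4398180732992 237 26 (.node (.node .nil 4398180733440 207 16 .nil) 4398180761601 228 16 (.node .nil 4398180761608 223 16 .nil))) 4398180761664 232 16 (.node (.node (.node .nil 4398180762112 224 16 .nil) 4398180990977 157 15 (.node .nil 4398180990984 165 16 .nil)) 4398180991040 169 15 (.node (.node .nil 4398180991488 163 15 .nil) 4398182825985 34 16 .nil)))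

private def t17 : Tri :=
  (.node t15 4398065385536 101 16 t16)

private def t18 : Tri :=
  (.node (.node (.node (.node .nil 4398182826048 41 16 .nil) 4398182826496 45 16 (.node .nil 4399120257025 10 16 .nil)) 4399120257032 82 16 (.node (.node .nil 4399120257088 186 26 .nil) 4399120257536 79 16 (.node .nil 4399120285697 181 16 .nil))) 4399120285704 214 16 (.node (.node (.node .nil 4399120285760 182 16 .nil) 4399120515073 77 15 (.node .nil 4399120515080 164 16 .nil)) 4399120515136 185 15 (.node (.node .nil 4399120515584 78 15 .nil) 4399122350081 177 16 .nil)))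

private def t19 : Tri :=
  (.node (.node (.node (.node .nil 4399122350144 187 16 .nil) 4399122350592 80 16 (.node .nil 4406636449793 14 16 .nil)) 4406636449856 238 26 (.node (.node .nil 4406636450304 210 16 .nil) 4406636478465 230 16 (.node .nil 4406636478472 231 16 .nil))) 4406636478528 233 16 (.node (.node (.node .nil 4406636707841 158 16 .nil) 4406636707848 166 16 (.node .nil 4406636707904 170 16 .nil)) 4406636708352 173 16 (.node (.node .nil 4406638542856 195 16 .nil) 4406638542912 197 16 .nil)))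

private def t20 : Tri :=
  (.node t18 4399122350088 81 16 t19)

private def t21 : Tri :=
  (.node t17 4398182825992 37 16 t20)

private def t22 : Tri :=
  (.node (.node (.node (.node .nil 35184388870145 3 16 .nil) 35184388870152 66 16 (.node .nil 35184388870208 85 16 .nil)) 35184388870656 71 16 (.node (.node .nil 35184388898817 47 16 .nil) 35184388898824 51 16 (.node .nil 35184388898880 55 16 .nil))) 35184388899328 59 16 (.node (.node (.node .nil 35184389128193 72 16 .nil) 35184389128200 95 16 (.node .nil 35184389128256 94 8 .nil)) 35184390963201 193 4 (.node (.node .nil 35184390963264 102 16 .nil) 35184390963712 205 16 .nil)))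

private def t23 : Tri :=
  (.node (.node (.node (.node .nil 35184506310664 160 16 .nil) 35184506310720 121 26 (.node .nil 35184506311168 161 16 .nil)) 35184506339329 48 16 (.node (.node .nil 35184506339336 52 16 .nil) 35184506339392 56 16 (.node .nil 35184506339840 60 16 .nil))) 35184506568705 104 26 (.node (.node (.node .nil 35184506568712 167 5 .nil) 35184506568768 120 26 (.node .nil 35184506569216 162 16 .nil)) 35184508403713 35 16 (.node (.node .nil 35184508403720 38 16 .nil) 35184508403776 42 16 .nil)))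

private def t24 : Tri :=
  (.node t22 35184506310657 7 16 t23)

private def t25 : Tri :=
  (.node (.node (.node (.node .nil 35185445834753 11 16 .nil) 35185445834760 67 16 (.node .nil 35185445834816 183 16 .nil)) 35185445835264 70 16 (.node (.node .nil 35185445863425 49 16 .nil) 35185445863432 53 16 (.node .nil 35185445863488 57 16 .nil))) 35185445863936 61 16 (.node (.node (.node .nil 35185446092801 76 16 .nil) 35185446092808 189 5 (.node .nil 35185446092864 184 8 .nil)) 35185447927809 178 16 (.node (.node .nil 35185447927816 68 16 .nil) 35185447927872 188 16 .nil)))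

private def t26 : Tri :=
  (.node (.node (.node (.node .nil 35192962027521 15 16 .nil) 35192962027528 236 16 (.node .nil 35192962027584 118 16 .nil)) 35192962028032 211 16 (.node (.node .nil 35192962056193 50 16 .nil) 35192962056200 54 16 (.node .nil 35192962056256 58 16 .nil))) 35192962056704 62 16 (.node (.node (.node .nil 35192962285576 168 16 .nil) 35192962285632 119 8 (.node .nil 35192962286080 174 16 .nil)) 35192964120584 196 16 (.node (.node .nil 35192964120640 198 16 .nil) 35192964121088 206 16 .nil)))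

private def t27 : Tri :=
  (.node t25 35185447928320 69 16 t26)

private def t28 : Tri :=
  (.node t24 35184508404224 46 16 t27)

private def t29 : Tri :=
  (.node t21 4406638543360 204 16 t28)

private def t30 : Tri :=
  (.node t14 558347845696 139 16 t29)

private def N : Tri := t30

private def S : List (List (ℕ × ℕ × ℕ)) :=
  [[(2, 8, 12)], [(2, 8, 13)], [(2, 8, 14)], [(2, 8, 15)], [(2, 9, 12)], [(2, 9, 13)], [(2, 9, 14)], [(2, 9, 15)
  ], [(2, 10, 12)], [(2, 10, 13)], [(2, 10, 14)], [(2, 10, 15)], [(2, 11, 12)], [(2, 11, 13)], [(2, 11, 14)], [(2, 11, 15)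
  ], [(8, 4, 8)], [(8, 4, 9)], [(8, 4, 10)], [(8, 4, 11)], [(8, 5, 8)], [(8, 5, 9)], [(8, 5, 10)], [(8, 5, 11)
  ], [(8, 6, 8)], [(8, 6, 9)], [(8, 6, 10)], [(8, 6, 11)], [(8, 7, 8)], [(8, 7, 9)], [(8, 7, 10)], [(8, 7, 11)
  ], [(12, 0, 12)], [(12, 0, 13)], [(12, 0, 14)], [(12, 0, 15)], [(12, 1, 12)], [(12, 1, 14)], [(12, 1, 15)], [(12, 2, 12)
  ], [(12, 2, 13)], [(12, 2, 14)], [(12, 2, 15)], [(12, 3, 12)], [(12, 3, 13)], [(12, 3, 14)], [(12, 3, 15)], [(16, 0, 8)
  ], [(16, 0, 9)], [(16, 0, 10)], [(16, 0, 11)], [(16, 1, 8)], [(16, 1, 9)], [(16, 1, 10)], [(16, 1, 11)], [(16, 2, 8)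
  ], [(16, 2, 9)], [(16, 2, 10)], [(16, 2, 11)], [(16, 3, 8)], [(16, 3, 9)], [(16, 3, 10)], [(16, 3, 11)], [(3, 4, 13)
  ], [(7, 4, 8)], [(3, 4, 12)], [(15, 1, 8)], [(15, 1, 10)], [(10, 1, 15)], [(5, 7, 15)], [(10, 3, 15)], [(4, 4, 15)
  ], [(1, 8, 15)], [(13, 0, 8)], [(13, 3, 8)], [(1, 8, 14)], [(1, 10, 15)], [(13, 0, 10)], [(13, 3, 10)], [(1, 10, 14)
  ], [(10, 3, 14)], [(5, 7, 14)], [(10, 1, 14)], [(4, 4, 14)], [(3, 4, 14)], [(3, 4, 15)], [(3, 5, 13)], [(7, 5, 8)
  ], [(3, 5, 12)], [(14, 1, 8)], [(3, 5, 14)], [(3, 6, 13)], [(7, 6, 8)], [(3, 6, 12)], [(0, 8, 15)], [(3, 6, 15)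
  ], [(13, 1, 8)], [(3, 6, 14)], [(3, 7, 13)], [(7, 7, 8)], [(3, 7, 12)], [(3, 7, 14)], [(3, 7, 15)], [(15, 0, 9)
  ], [(9, 0, 15)], [(15, 0, 11)], [(5, 7, 13)], [(10, 3, 13)], [(5, 4, 13)], [(4, 4, 13)], [(15, 0, 8)], [(0, 8, 13)
  ], [(1, 8, 13)], [(4, 6, 13)], [(5, 6, 13)], [(1, 9, 13)], [(9, 0, 13)], [(0, 11, 13)], [(15, 2, 11)], [(0, 11, 15)
  ], [(9, 2, 15)], [(0, 9, 15)], [(7, 6, 11)], [(9, 2, 12)], [(7, 6, 9)], [(15, 2, 9), (0, 9, 13)], [(7, 4, 9)
  ], [(7, 4, 10)], [(7, 4, 11)], [(7, 5, 9)], [(7, 5, 10)], [(7, 5, 11)], [(15, 0, 10)], [(1, 10, 13)], [(0, 10, 13)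
  ], [(7, 6, 10)], [(10, 2, 12)], [(7, 7, 10)], [(11, 2, 12)], [(7, 7, 11)], [(6, 4, 9)], [(6, 4, 10)], [(10, 1, 12)
  ], [(5, 7, 12)], [(10, 3, 12)], [(5, 4, 12)], [(6, 6, 9)], [(6, 6, 10)], [(4, 4, 12)], [(0, 8, 14)], [(14, 0, 8)
  ], [(0, 8, 12)], [(1, 8, 12)], [(4, 6, 12)], [(5, 6, 12)], [(1, 9, 12)], [(9, 0, 12)], [(13, 0, 9)], [(9, 0, 14)
  ], [(9, 1, 12)], [(15, 1, 9)], [(5, 4, 15)], [(1, 9, 15)], [(13, 3, 9)], [(4, 6, 14)], [(5, 6, 14)], [(9, 1, 14)
  ], [(13, 1, 9)], [(9, 1, 15)], [(13, 2, 9)], [(9, 2, 14)], [(9, 3, 12)], [(9, 3, 13)], [(9, 3, 14)], [(9, 3, 15)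
  ], [(10, 0, 12)], [(10, 0, 13)], [(10, 0, 14)], [(10, 0, 15)], [(1, 10, 12)], [(0, 10, 12)], [(14, 0, 10)], [(14, 2, 10)
  ], [(15, 2, 10)], [(0, 10, 15)], [(13, 2, 10)], [(0, 10, 14)], [(10, 2, 14)], [(10, 2, 15)], [(13, 1, 10)], [(11, 0, 12)
  ], [(11, 0, 13)], [(11, 0, 14)], [(11, 0, 15)], [(11, 1, 12)], [(11, 1, 14)], [(11, 1, 15)], [(11, 2, 14)], [(11, 2, 15)
  ], [(4, 7, 12)], [(11, 3, 12)], [(4, 7, 13)], [(11, 3, 13)], [(4, 7, 14)], [(11, 3, 14)], [(4, 7, 15)], [(11, 3, 15)
  ], [(1, 9, 14)], [(1, 11, 12)], [(1, 11, 13)], [(1, 11, 14)], [(1, 11, 15)], [(15, 3, 8)], [(6, 5, 10)], [(14, 1, 10)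
  ], [(4, 5, 14)], [(14, 3, 8)], [(4, 5, 12)], [(4, 5, 13)], [(5, 4, 14)], [(6, 5, 9)], [(5, 5, 12)], [(5, 5, 13)
  ], [(14, 1, 9)], [(5, 5, 14)], [(6, 4, 11)], [(6, 5, 11)], [(0, 9, 12)], [(14, 0, 9)], [(0, 11, 12)], [(14, 0, 11)
  ], [(14, 1, 11)], [(14, 2, 9)], [(14, 2, 11)], [(15, 3, 11)], [(14, 3, 11)], [(15, 1, 11)], [(0, 9, 14)], [(0, 11, 14)
  ]]

private theorem h0 : chk 19 5 14 31 N (okM 16 4) (rwS L1 L2) S = true := by decide +kernel

theorem ok : (sm true 16 1 1 {(0, {2, 3}, 0), (1, {2, 3}, 0)} ∅).OK :=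
  ok_of_chk _ 16 4 rfl rfl P1 P2 T F L1 L2 (r := 240) N S (by decide +kernel) (by decide +kernel)
    (by decide +kernel) (by decide +kernel) (by decide +kernel) h0 (by decide +kernel)
    (by decide +kernel) (by decide +kernel) (by decide +kernel) (by decide +kernel)

end Pool.Agent.KZ.AL.Ck.T334_1120_AB
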