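import Pool.Agent.KZ.AL.OkC

/-! # KZ4, ALPHA: finite check T334_1120_B (generated) -/

set_option autoImplicit false
set_option maxRecDepth 100000

namespace Pool.Agent.KZ.AL.Ck.T334_1120_B

open Pool.Agent.KZ (Tri chk rwS)
open Finset (range)

/-- The positions of the T-points. -/
private def P1 : List ((ℕ × ℕ × ℕ) × List (ℕ × ℤ)) :=
  [((0, 1, 0), [(3, 1), (4, 1), (5, 1)]), ((0, 1, 1), [(0, 1), (2, 1), (4, 1), (6, 1)]),
   ((0, 1, 2), [(1, 1), (3, 1), (4, 1)]), ((0, 2, 0), [(0, 1), (8, 1), (11, 1)]),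
   ((0, 2, 1), [(2, 1), (9, 1)]), ((0, 2, 2), [(0, 1), (3, 1), (11, 1)]),
   ((0, 3, 0), [(0, 1), (1, 1), (12, 1)]), ((0, 3, 1), [(1, 1), (2, 1), (13, 1), (14, 1), (15, 1)]),
   ((0, 3, 2), [(1, 1), (2, 1), (13, 1)]), ((1, 2, 0), [(5, 1), (8, 1), (10, 1)]),
   ((1, 2, 1), [(6, 1), (8, 1), (9, 1)]), ((1, 2, 2), [(4, 1), (6, 4), (10, 1)]),
   ((1, 2, 3), [(7, 1), (9, 1), (11, 1)]), ((1, 3, 0), [(5, -1), (12, 1), (13, 1)]),
   ((1, 3, 1), [(4, 2), (6, 1), (7, 1), (13, 1), (15, 1)]), ((1, 3, 2), [(5, 1), (6, 1), (7, 1), (12, 1), (14, 1), (15, 1)]),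
   ((1, 3, 3), [(5, 1), (6, 1), (14, 1)])]

/-- The positions of the free items. -/
private def P2 : List ((ℕ × ℕ × ℕ) × List (ℕ × ℤ)) :=
  []

private def T : List (ℕ × ℕ × ℕ) :=
  [(0, 1, 0), (0, 1, 1), (0, 1, 2), (0, 2, 0), (0, 2, 1), (0, 2, 2), (0, 3, 0), (0, 3, 1),
   (0, 3, 2), (1, 2, 0), (1, 2, 1), (1, 2, 2), (1, 2, 3), (1, 3, 0), (1, 3, 1), (1, 3, 2),
   (1, 3, 3)]

private def F : List (ℕ × ℕ × ℕ) :=
  []

private def L1 : List (List (ℕ × ℕ)) :=
  [[(3, 1), (4, 1), (5, 1)], [(0, 1), (2, 1), (4, 1), (6, 1)], [(1, 1), (3, 1), (4, 1)],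
   [(0, 1), (8, 1), (11, 1)], [(2, 1), (9, 1)], [(0, 1), (3, 1), (11, 1)],
   [(0, 1), (1, 1), (12, 1)], [(1, 1), (2, 1), (13, 1), (14, 1), (15, 1)], [(1, 1), (2, 1), (13, 1)],
   [(5, 1), (8, 1), (10, 1)], [(6, 1), (8, 1), (9, 1)], [(4, 1), (6, 4), (10, 1)],
   [(7, 1), (9, 1), (11, 1)], [(5, 30), (12, 1), (13, 1)], [(4, 2), (6, 1), (7, 1), (13, 1), (15, 1)],
   [(5, 1), (6, 1), (7, 1), (12, 1), (14, 1), (15, 1)], [(5, 1), (6, 1), (14, 1)]]

private def L2 : List (List (ℕ × ℕ)) :=
  []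

private def t0 : Tri :=
  (.node (.node (.node (.node .nil 68736258049 17 16 .nil) 68736258056 18 16 (.node .nil 68736258112 217 16 .nil)) 68736258560 19 16 (.node (.node .nil 68736286721 46 16 .nil) 68736286728 141 16 (.node .nil 68736286784 182 15 .nil))) 68736287232 20 16 (.node (.node (.node .nil 68736516097 107 16 .nil) 68736516104 146 16 (.node .nil 68736516160 185 16 .nil)) 68736516608 190 16 (.node (.node .nil 68738351105 129 16 .nil) 68738351112 150 16 (.node .nil 68738351168 231 16 .nil))))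

private def t1 : Tri :=
  (.node (.node (.node (.node .nil 68853698561 105 16 .nil) 68853698568 95 16 (.node .nil 68853698624 0 16 .nil)) 68853699072 77 16 (.node (.node .nil 68853727233 142 16 .nil) 68853727240 112 15 (.node .nil 68853727296 4 16 .nil))) 68853727744 76 15 (.node (.node (.node .nil 68853956609 106 16 .nil) 68853956616 113 16 (.node .nil 68853956672 8 16 .nil)) 68853957120 189 16 (.node (.node .nil 68855791617 127 16 .nil) 68855791624 126 16 .nil)))

private def t2 : Tri :=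
  (.node t0 68738351616 233 16 t1)

private def t3 : Tri :=
  (.node (.node (.node (.node .nil 68855792128 186 16 .nil) 69793222657 140 16 (.node .nil 69793222664 96 16 .nil)) 69793222720 197 0x5000b (.node (.node .nil 69793223168 87 16 .nil) 69793251329 143 16 (.node .nil 69793251336 144 16 .nil))) 69793251392 183 16 (.node (.node (.node .nil 69793251840 86 16 .nil) 69793480705 147 4 (.node .nil 69793480712 148 16 .nil)) 69793480768 197 0x1a0005 (.node (.node .nil 69793481216 198 4 .nil) 69795315713 167 16 (.node .nil 69795315720 166 16 .nil))))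

private def t4 : Tri :=
  (.node (.node (.node (.node .nil 69795316224 234 16 .nil) 77309415425 16 0x800170008 (.node .nil 77309415432 16 0x800080017 .nil)) 77309415488 222 16 (.node (.node .nil 77309415936 16 0x1700080008 .nil) 77309444097 45 16 (.node .nil 77309444104 145 16 .nil))) 77309444160 208 15 (.node (.node (.node .nil 77309444608 44 16 .nil) 77309673473 108 16 (.node .nil 77309673480 149 16 .nil)) 77309673536 221 16 (.node (.node .nil 77309673984 132 16 .nil) 77311508481 128 16 .nil)))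

private def t5 : Tri :=
  (.node t3 69795315776 232 16 t4)

private def t6 : Tri :=
  (.node t2 68855791680 12 16 t5)

private def t7 : Tri :=
  (.node (.node (.node (.node .nil 77311508544 204 16 .nil) 77311508992 136 16 (.node .nil 549772595201 52 16 .nil)) 549772595208 26 16 (.node (.node .nil 549772595264 27 16 .nil) 549772595712 22 16 (.node .nil 549772623873 47 15 .nil))) 549772623880 161 15 (.node (.node (.node .nil 549772623936 162 16 .nil) 549772624384 21 15 (.node .nil 549772853249 56 16 .nil)) 549772853256 54 16 (.node (.node .nil 549772853312 55 16 .nil) 549772853760 193 16 (.node .nil 549774688257 65 16 .nil))))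

private def t8 : Tri :=
  (.node (.node (.node (.node .nil 549774688320 176 16 .nil) 549774688768 227 16 (.node .nil 549890035713 58 16 .nil)) 549890035720 73 16 (.node (.node .nil 549890035776 1 16 .nil) 549890036224 74 16 (.node .nil 549890064385 207 15 .nil))) 549890064392 111 16 (.node (.node (.node .nil 549890064448 5 16 .nil) 549890064896 75 16 (.node .nil 549890293761 57 16 .nil)) 549890293768 53 16 (.node (.node .nil 549890293824 9 16 .nil) 549890294272 192 16 .nil)))

private def t9 : Tri :=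
  (.node t7 549774688264 177 16 t8)

private def t10 : Tri :=
  (.node (.node (.node (.node .nil 549892128776 120 16 .nil) 549892128832 13 16 (.node .nil 549892129280 191 16 .nil)) 550829559809 195 0x5000b (.node (.node .nil 550829559816 97 16 .nil) 550829559872 151 16 (.node .nil 550829560320 89 16 .nil))) 550829588481 180 16 (.node (.node (.node .nil 550829588488 170 16 .nil) 550829588544 171 16 (.node .nil 550829588992 88 16 .nil)) 550829817857 195 0x1a0005 (.node (.node .nil 550829817864 152 4 .nil) 550829817920 153 16 .nil)))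

private def t11 : Tri :=
  (.node (.node (.node (.node .nil 550831652865 226 16 .nil) 550831652872 157 16 (.node .nil 550831652928 156 16 .nil)) 550831653376 228 16 (.node (.node .nil 558345752577 51 16 .nil) 558345752584 100 16 (.node .nil 558345752640 169 16 .nil))) 558345753088 50 16 (.node (.node (.node .nil 558345781249 48 16 .nil) 558345781256 172 15 (.node .nil 558345781312 173 16 .nil)) 558345781760 49 16 (.node (.node .nil 558346010625 109 16 .nil) 558346010632 175 16 .nil)))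

private def t12 : Tri :=
  (.node t10 550829818368 199 4 t11)

private def t13 : Tri :=
  (.node t9 549892128769 63 16 t12)

private def t14 : Tri :=
  (.node t6 77311508488 168 16 t13)

private def t15 : Tri :=
  (.node (.node (.node (.node .nil 558346011136 133 16 .nil) 558347845633 64 16 (.node .nil 558347845640 178 16 .nil)) 558347845696 179 16 (.node (.node .nil 558347846144 137 16 .nil) 4398063292417 41 16 (.node .nil 4398063292424 28 16 .nil))) 4398063292480 43 16 (.node (.node (.node .nil 4398063292928 25 16 .nil) 4398063321089 36 16 (.node .nil 4398063321096 116 16 .nil)) 4398063321152 30 16 (.node (.node .nil 4398063321600 24 16 .nil) 4398063550465 42 16 (.node .nil 4398063550472 117 16 .nil))))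

private def t16 : Tri :=
  (.node (.node (.node (.node .nil 4398063550976 78 16 .nil) 4398065385473 130 16 (.node .nil 4398065385480 224 16 .nil)) 4398065385536 225 16 (.node (.node .nil 4398180732929 218 16 .nil) 4398180732936 82 16 (.node .nil 4398180732992 2 16 .nil))) 4398180733440 81 16 (.node (.node (.node .nil 4398180761601 209 16 .nil) 4398180761608 119 16 (.node .nil 4398180761664 6 16 .nil)) 4398180762112 80 16 (.node (.node .nil 4398180990977 184 16 .nil) 4398180990984 118 16 .nil)))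

private def t17 : Tri :=
  (.node t15 4398063550528 29 16 t16)

private def t18 : Tri :=
  (.node (.node (.node (.node .nil 4398180991488 79 16 .nil) 4398182825985 201 16 (.node .nil 4398182825992 124 16 .nil)) 4398182826048 14 16 (.node (.node .nil 4398182826496 187 16 .nil) 4399120257025 34 0x5000b (.node .nil 4399120257032 98 16 .nil))) 4399120257088 33 16 (.node (.node (.node .nil 4399120257536 23 0xc001c0013 .nil) 4399120285697 35 16 (.node .nil 4399120285704 115 16 .nil)) 4399120285760 31 16 (.node (.node .nil 4399120286208 23 0x130003001c .nil) 4399120515073 34 0x1a0005 .nil)))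

private def t19 : Tri :=
  (.node (.node (.node (.node .nil 4399120515136 32 16 .nil) 4399120515584 23 0x1c001c0003 (.node .nil 4399122350081 230 16 .nil)) 4399122350088 160 16 (.node (.node .nil 4406636449793 40 16 .nil) 4406636449800 101 16 (.node .nil 4406636449856 211 16 .nil))) 4406636450304 39 16 (.node (.node (.node .nil 4406636478465 37 16 .nil) 4406636478472 215 16 (.node .nil 4406636478528 216 16 .nil)) 4406636478976 38 16 (.node (.node .nil 4406636707841 110 16 .nil) 4406636707848 214 16 .nil)))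

private def t20 : Tri :=
  (.node t18 4399120515080 114 4 t19)

private def t21 : Tri :=
  (.node t17 4398180991040 10 16 t20)

private def t22 : Tri :=
  (.node (.node (.node (.node .nil 4406636708352 134 16 .nil) 4406638542849 131 16 (.node .nil 4406638542856 202 16 .nil)) 4406638542912 205 16 (.node (.node .nil 4406638543360 138 16 .nil) 35184388870145 67 8 (.node .nil 35184388870152 70 16 .nil))) 35184388870208 69 16 (.node (.node (.node .nil 35184388870656 71 16 .nil) 35184388898817 104 16 (.node .nil 35184388898824 164 16 .nil)) 35184388898880 163 16 (.node (.node .nil 35184388899328 72 16 .nil) 35184389128193 59 16 (.node .nil 35184389128200 121 16 .nil))))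

private def t23 : Tri :=
  (.node (.node (.node (.node .nil 35184389128704 194 16 .nil) 35184390963201 66 16 (.node .nil 35184390963208 223 16 .nil)) 35184506310657 61 16 (.node (.node .nil 35184506310664 83 16 .nil) 35184506310720 3 16 (.node .nil 35184506311168 84 16 .nil))) 35184506339329 229 16 (.node (.node (.node .nil 35184506339336 125 16 .nil) 35184506339392 7 16 (.node .nil 35184506339840 85 16 .nil)) 35184506568705 60 16 (.node (.node .nil 35184506568712 122 16 .nil) 35184506568768 11 16 .nil)))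

private def t24 : Tri :=
  (.node t22 35184389128256 68 16 t23)

private def t25 : Tri :=
  (.node (.node (.node (.node .nil 35184508403720 123 16 .nil) 35184508403776 15 16 (.node .nil 35184508404224 188 16 .nil)) 35185445834753 196 0x5000b (.node (.node .nil 35185445834760 99 16 .nil) 35185445834816 154 16 (.node .nil 35185445835264 91 16 .nil))) 35185445863425 181 16 (.node (.node (.node .nil 35185445863432 165 16 .nil) 35185445863936 90 16 (.node .nil 35185446092801 196 0x1a0005 .nil)) 35185446092808 158 4 (.node (.node .nil 35185446092864 155 4 .nil) 35185446093312 200 4 .nil)))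

private def t26 : Tri :=
  (.node (.node (.node (.node .nil 35192962027521 92 16 .nil) 35192962027528 102 16 (.node .nil 35192962027584 210 0x10000f .nil)) 35192962028032 93 16 (.node (.node .nil 35192962056193 103 16 .nil) 35192962056200 219 16 (.node .nil 35192962056256 220 16 .nil))) 35192962056704 94 16 (.node (.node (.node .nil 35192962285576 213 16 .nil) 35192962285632 210 0xf0001 (.node .nil 35192962286080 135 16 .nil)) 35192964120584 203 16 (.node (.node .nil 35192964120640 206 16 .nil) 35192964121088 139 16 .nil)))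

private def t27 : Tri :=
  (.node t25 35185447927816 159 16 t26)

private def t28 : Tri :=
  (.node t24 35184508403713 62 16 t27)

private def t29 : Tri :=
  (.node t21 4406636707904 212 16 t28)

private def t30 : Tri :=
  (.node t14 558346010688 174 16 t29)

private def N : Tri := t30

private def S : List (List (ℕ × ℕ × ℕ)) :=
  [[(4, 4, 12)], [(4, 4, 13)], [(4, 4, 14)], [(4, 4, 15)], [(4, 5, 12)], [(4, 5, 13)], [(4, 5, 14)], [(4, 5, 15)
  ], [(4, 6, 12)], [(4, 6, 13)], [(4, 6, 14)], [(4, 6, 15)], [(4, 7, 12)], [(4, 7, 13)], [(4, 7, 14)], [(4, 7, 15)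
  ], [(5, 4, 12), (2, 11, 12), (6, 4, 11)], [(3, 4, 12)], [(6, 4, 8)], [(2, 8, 12)], [(0, 8, 12)], [(13, 3, 8)
  ], [(0, 8, 13)], [(0, 10, 14), (11, 3, 14), (16, 3, 10)], [(9, 3, 14)], [(0, 8, 14)], [(2, 8, 13)], [(8, 4, 8)
  ], [(2, 8, 14)], [(10, 2, 14)], [(16, 2, 8)], [(9, 2, 14)], [(16, 2, 10)], [(11, 2, 14)], [(1, 10, 14), (11, 0, 14)
  ], [(16, 0, 10)], [(9, 0, 14)], [(3, 5, 14)], [(5, 5, 14)], [(0, 11, 14)], [(5, 4, 14)], [(3, 4, 14)], [(16, 0, 8)
  ], [(1, 8, 14)], [(0, 11, 12)], [(5, 5, 12)], [(3, 5, 12)], [(13, 0, 8)], [(3, 5, 13)], [(5, 5, 13)], [(0, 11, 13)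
  ], [(5, 4, 13)], [(3, 4, 13)], [(8, 6, 9)], [(10, 1, 13)], [(8, 6, 8)], [(1, 8, 13)], [(10, 0, 13)], [(1, 9, 13)
  ], [(3, 6, 15)], [(10, 0, 15)], [(1, 9, 15)], [(12, 0, 15)], [(14, 0, 9)], [(12, 0, 13)], [(3, 7, 13)], [(3, 7, 15)
  ], [(14, 0, 8)], [(10, 2, 15)], [(1, 8, 15)], [(7, 4, 8)], [(2, 8, 15)], [(0, 8, 15)], [(8, 4, 9)], [(2, 9, 13)
  ], [(0, 9, 13)], [(13, 3, 9)], [(0, 9, 12)], [(16, 3, 8)], [(10, 3, 14)], [(16, 3, 9)], [(0, 9, 14)], [(2, 9, 14)
  ], [(7, 4, 9)], [(2, 9, 15)], [(0, 9, 15)], [(9, 3, 12)], [(0, 10, 12)], [(9, 3, 13)], [(0, 10, 13)], [(9, 3, 15)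
  ], [(0, 10, 15)], [(3, 4, 15)], [(5, 4, 15)], [(0, 11, 15)], [(2, 9, 12)], [(2, 10, 12)], [(2, 10, 13)], [(2, 10, 14)
  ], [(2, 10, 15)], [(2, 11, 13)], [(2, 11, 14)], [(2, 11, 15)], [(5, 5, 15)], [(3, 5, 15)], [(6, 4, 9)], [(1, 9, 12)
  ], [(10, 0, 12)], [(3, 6, 12)], [(3, 6, 13)], [(3, 6, 14)], [(8, 5, 9)], [(13, 1, 9)], [(6, 6, 9)], [(11, 1, 14)
  ], [(16, 1, 10)], [(9, 1, 14)], [(16, 1, 8)], [(10, 1, 14)], [(16, 1, 9)], [(8, 7, 9)], [(7, 6, 8)], [(10, 1, 15)
  ], [(14, 1, 9)], [(7, 7, 9)], [(7, 5, 9)], [(15, 1, 9)], [(6, 7, 9)], [(12, 0, 12)], [(3, 7, 12)], [(15, 0, 8)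
  ], [(3, 7, 14)], [(5, 6, 12)], [(5, 6, 13)], [(5, 6, 14)], [(5, 6, 15)], [(5, 7, 12)], [(5, 7, 13)], [(5, 7, 14)
  ], [(5, 7, 15)], [(6, 4, 10)], [(6, 5, 8)], [(6, 5, 9)], [(9, 0, 12)], [(6, 5, 10)], [(6, 5, 11)], [(6, 6, 8)
  ], [(11, 0, 12)], [(6, 6, 10)], [(6, 6, 11)], [(6, 7, 8)], [(8, 4, 10)], [(11, 1, 13)], [(8, 6, 10)], [(7, 4, 10)
  ], [(11, 2, 15)], [(14, 2, 10)], [(8, 7, 10)], [(11, 1, 15)], [(14, 1, 10)], [(7, 7, 10)], [(13, 1, 8)], [(8, 5, 8)
  ], [(9, 2, 15)], [(7, 5, 8)], [(9, 1, 15)], [(15, 1, 10)], [(6, 7, 10)], [(6, 7, 11)], [(8, 4, 11)], [(9, 1, 13)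
  ], [(8, 5, 10)], [(13, 1, 11)], [(8, 5, 11)], [(1, 11, 13)], [(8, 6, 11)], [(14, 2, 8)], [(8, 7, 8)], [(12, 1, 13)
  ], [(8, 7, 11)], [(9, 0, 13)], [(9, 0, 15)], [(13, 2, 8)], [(9, 2, 12)], [(10, 0, 14)], [(10, 2, 12)], [(12, 3, 12)
  ], [(12, 3, 14)], [(12, 3, 15)], [(15, 3, 9)], [(10, 3, 12)], [(12, 3, 13)], [(14, 3, 9)], [(10, 3, 13)], [(10, 3, 15)
  ], [(1, 10, 13), (11, 0, 13)], [(1, 10, 15), (11, 0, 15)], [(1, 10, 12), (11, 2, 12)], [(11, 3, 12)], [(11, 3, 13)
  ], [(11, 3, 15)], [(12, 0, 14)], [(12, 1, 14)], [(12, 1, 15)], [(12, 2, 12)], [(12, 2, 14)], [(12, 2, 15)], [(13, 0, 9)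
  ], [(13, 2, 11)], [(16, 0, 9)], [(1, 11, 15), (14, 2, 11)], [(7, 4, 11)], [(1, 11, 14)], [(14, 1, 11)], [(7, 6, 11)
  ], [(16, 1, 11)], [(16, 2, 11)], [(1, 8, 12)], [(1, 9, 14)], [(15, 1, 11)], [(7, 5, 11)], [(15, 2, 11)], [(1, 11, 12)
  ], [(14, 1, 8)], [(15, 1, 8)], [(7, 7, 8)], [(14, 0, 10)], [(14, 3, 8)], [(14, 3, 10)], [(15, 0, 9)], [(15, 0, 10)
  ], [(15, 2, 8)], [(15, 2, 10)], [(15, 3, 8)], [(15, 3, 10)]]

private theorem h0 : chk 16 5 11 31 N (okM 16 4) (rwS L1 L2) S = true := by decide +kernel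

theorem ok : (sm true 16 1 1 {(1, {2, 3}, 0)} ∅).OK :=
  ok_of_chk _ 16 4 rfl rfl P1 P2 T F L1 L2 (r := 244) N S (by decide +kernel) (by decide +kernel)
    (by decide +kernel) (by decide +kernel) (by decide +kernel) h0 (by decide +kernel)
    (by decide +kernel) (by decide +kernel) (by decide +kernel) (by decide +kernel)

end Pool.Agent.KZ.AL.Ck.T334_1120_B
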