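import Pool.Agent.KZ.AL.OkC

/-! # KZ4, ALPHA: finite check T334_1200_0 (generated) -/

set_option autoImplicit false
set_option maxRecDepth 100000

namespace Pool.Agent.KZ.AL.Ck.T334_1200_0

open Pool.Agent.KZ (Tri chk rwS)
open Finset (range)

/-- The positions of the T-points. -/
private def P1 : List ((ℕ × ℕ × ℕ) × List (ℕ × ℤ)) :=
  [((0, 1, 0), [(1, 1), (2, 1), (3, 1), (5, 1)]), ((0, 1, 1), [(1, 1), (6, 1)]),
   ((0, 1, 2), [(0, 1), (2, 1), (3, 1), (5, 1), (7, 1)]), ((0, 2, 0), [(2, 1), (9, 1), (11, 1)]),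
   ((0, 2, 1), [(3, 1), (11, 1)]), ((0, 2, 2), [(0, 1), (8, 1)])]

/-- The positions of the free items. -/
private def P2 : List ((ℕ × ℕ × ℕ) × List (ℕ × ℤ)) :=
  [((0, 1, 0), [(0, 3), (2, 1), (6, 3)]), ((0, 2, 0), [(2, 3), (11, 1)]),
   ((1, 2, 0), [(4, 1), (8, 1), (10, 4)]), ((1, 2, 1), [(6, 1), (7, 1), (10, 1)]),
   ((1, 2, 2), [(7, 1), (9, 1)]), ((1, 2, 3), [(4, 1), (7, 1), (8, 1), (11, 3)])]

private def T : List (ℕ × ℕ × ℕ) :=
  [(0, 1, 0), (0, 1, 1), (0, 1, 2), (0, 2, 0), (0, 2, 1), (0, 2, 2)]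

private def F : List (ℕ × ℕ × ℕ) :=
  [(0, 1, 0), (0, 2, 0), (1, 2, 0), (1, 2, 1), (1, 2, 2), (1, 2, 3)]

private def L1 : List (List (ℕ × ℕ)) :=
  [[(1, 1), (2, 1), (3, 1), (5, 1)], [(1, 1), (6, 1)], [(0, 1), (2, 1), (3, 1), (5, 1), (7, 1)],
   [(2, 1), (9, 1), (11, 1)], [(3, 1), (11, 1)], [(0, 1), (8, 1)]]

private def L2 : List (List (ℕ × ℕ)) :=
  [[(0, 3), (2, 1), (6, 3)], [(2, 3), (11, 1)], [(4, 1), (8, 1), (10, 4)],
   [(6, 1), (7, 1), (10, 1)], [(7, 1), (9, 1)], [(4, 1), (7, 1), (8, 1), (11, 3)]]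

private def t0 : Tri :=
  (.node (.node (.node (.node (.node .nil 16781314 142 0x5800a .nil) 16781321 143 16 .nil) 16781377 144 16 (.node .nil 16781384 225 16 .nil)) 16781825 146 16 (.node (.node .nil 16781888 224 16 .nil) 16785409 20 16 (.node .nil 16785472 211 21 .nil))) 16785920 213 21 (.node (.node (.node .nil 16809986 50 0x5000b .nil) 16809993 92 16 (.node .nil 16810000 54 0x5800a .nil)) 16810056 52 16 (.node (.node .nil 16810504 53 16 .nil) 16814081 21 16 (.node .nil 16842753 24 16 .nil))))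

private def t1 : Tri :=
  (.node (.node (.node (.node (.node .nil 16842816 51 16 .nil) 17039362 44 0x5000b .nil) 17039369 30 16 (.node .nil 17039376 40 0x5800a .nil)) 17039432 46 16 (.node (.node .nil 17039880 56 16 .nil) 17043457 22 16 (.node .nil 17043464 81 16 .nil))) 17072129 25 16 (.node (.node (.node .nil 17072136 55 16 .nil) 17301505 27 16 (.node .nil 17301512 40 0x5000b .nil)) 17301568 45 23 (.node (.node .nil 17302016 57 1 .nil) 18874370 95 0x5000b (.node .nil 18874377 93 16 .nil))))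

private def t2 : Tri :=
  (.node t0 16842760 54 0x5000b t1)

private def t3 : Tri :=
  (.node (.node (.node (.node (.node .nil 18874433 98 16 .nil) 18874440 94 16 .nil) 18874496 100 0x5000b (.node .nil 18878465 23 16 .nil)) 18878472 242 26 (.node (.node .nil 18907137 26 16 .nil) 19136513 28 16 (.node .nil 19136520 102 16 .nil))) 19136576 237 16 (.node (.node (.node .nil 20971521 29 16 .nil) 20971584 100 0x5800a (.node .nil 20972032 99 1 .nil)) 33558529 142 0x5000b (.node (.node .nil 33587201 50 0x5800a .nil) 33587208 91 16 (.node .nil 33587264 89 1 .nil))))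

private def t4 : Tri :=
  (.node (.node (.node (.node .nil 33816577 44 0x5800a .nil) 33816584 0 16 (.node .nil 33816640 145 1 .nil)) 33817088 147 1 (.node (.node .nil 35651585 95 0x5800a .nil) 35651648 97 16 (.node .nil 35652096 96 1 .nil))) 134221952 193 0x5000b (.node (.node (.node .nil 134222337 234 16 .nil) 134222344 226 16 (.node .nil 134225984 115 16 .nil)) 134250498 157 0x5800a (.node (.node .nil 134250505 199 16 .nil) 134250512 65 0x5000b (.node .nil 134250568 63 16 .nil))))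

private def t5 : Tri :=
  (.node t3 33587712 90 1 t4)

private def t6 : Tri :=
  (.node t2 18874384 101 1 t5)

private def t7 : Tri :=
  (.node (.node (.node (.node (.node .nil 134251016 64 16 .nil) 134254656 116 16 .nil) 134283265 157 0x5000b (.node .nil 134283272 65 0x5800a .nil)) 134283328 62 16 (.node (.node .nil 134479881 36 16 .nil) 134479888 41 0x5800a (.node .nil 134479944 47 16 .nil))) 134480000 33 0x5800a (.node (.node (.node .nil 134480385 238 16 .nil) 134480392 78 16 (.node .nil 134483976 82 16 .nil)) 134484032 117 16 (.node (.node .nil 134512648 66 16 .nil) 134512704 77 16 (.node .nil 134742017 35 18 .nil))))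

private def t8 : Tri :=
  (.node (.node (.node (.node (.node .nil 134742080 34 16 .nil) 134742528 79 1 .nil) 136314882 156 1 (.node .nil 136314889 231 16 .nil)) 136314896 107 1 (.node (.node .nil 136314945 151 16 .nil) 136315008 105 0x5800a (.node .nil 136315393 154 16 .nil))) 136319040 118 16 (.node (.node (.node .nil 136347712 106 16 .nil) 136577032 108 16 (.node .nil 136577088 119 16 .nil)) 138412033 155 21 (.node (.node .nil 138412040 181 21 .nil) 138412096 120 21 (.node .nil 138412544 153 21 .nil))))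

private def t9 : Tri :=
  (.node t7 134742024 41 0x5000b t8)

private def t10 : Tri :=
  (.node (.node (.node (.node (.node .nil 150999104 191 16 .nil) 151027713 158 16 .nil) 151027720 184 16 (.node .nil 151027776 183 16 .nil)) 151257089 175 16 (.node (.node .nil 151257096 1 16 .nil) 151257152 195 16 (.node .nil 153092097 178 16 .nil))) 153092160 197 16 (.node (.node (.node .nil 153092608 219 16 .nil) 268439553 202 1 (.node .nil 268439560 204 1 .nil)) 268439616 193 0x5800a (.node (.node .nil 268440064 206 1 .nil) 268468225 168 16 (.node .nil 268468232 166 1 .nil))))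

private def t11 : Tri :=
  (.node (.node (.node (.node .nil 268468736 167 16 .nil) 268697601 203 1 (.node .nil 268697608 4 16 .nil)) 268697664 33 0x5000b (.node (.node .nil 268698112 207 1 .nil) 270532672 105 0x5000b (.node .nil 270533120 152 1 .nil))) 1073745922 149 1 (.node (.node (.node .nil 1073745985 235 16 .nil) 1073745992 227 16 (.node .nil 1073750017 209 13 .nil)) 1073750024 210 13 (.node (.node .nil 1073750080 212 13 .nil) 1073750528 214 13 (.node .nil 1073774594 162 0x5000b .nil))))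

private def t12 : Tri :=
  (.node t10 268468288 61 0x5000b t11)

private def t13 : Tri :=
  (.node t9 150999041 148 16 t12)

private def t14 : Tri :=
  (.node t6 134250624 61 0x5800a t13)

private def t15 : Tri :=
  (.node (.node (.node (.node (.node .nil 1073774608 87 0x5000b .nil) 1073774664 85 16 .nil) 1073775112 86 16 (.node .nil 1073807361 162 0x5800a .nil)) 1073807368 87 0x5800a (.node (.node .nil 1074003977 37 16 .nil) 1074003984 42 0x5800a (.node .nil 1074004033 208 27 .nil))) 1074004040 48 16 (.node (.node (.node .nil 1074004481 239 16 .nil) 1074004488 80 16 (.node .nil 1074004544 229 16 .nil)) 1074008072 83 16 (.node (.node .nil 1074036744 88 16 .nil) 1074266120 42 0x5000b (.node .nil 1075838978 161 1 .nil))))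

private def t16 : Tri :=
  (.node (.node (.node (.node (.node .nil 1075838992 109 1 .nil) 1075839041 159 16 .nil) 1075839048 230 16 (.node .nil 1075839489 160 16 .nil)) 1090551809 163 16 (.node (.node .nil 1090551816 185 16 .nil) 1090781185 176 16 (.node .nil 1090781192 2 16 .nil))) 1092616193 179 16 (.node (.node (.node .nil 1092616256 220 16 .nil) 1207963712 194 16 (.node .nil 1207992321 221 16 .nil)) 1207992328 188 16 (.node (.node .nil 1207992384 187 16 .nil) 1208221704 5 16 (.node .nil 1208221760 196 16 .nil))))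

private def t17 : Tri :=
  (.node t15 1075838985 232 16 t16)

private def t18 : Tri :=
  (.node (.node (.node (.node (.node .nil 2147516417 222 16 .nil) 2147516424 189 16 .nil) 2147745793 215 21 (.node .nil 2147745800 7 16 .nil)) 2147745856 217 21 (.node (.node .nil 2147746304 218 21 .nil) 2149580808 216 21 (.node .nil 8589938690 150 1 .nil))) 8589938816 180 23 (.node (.node (.node .nil 8589939201 122 16 .nil) 8589939208 127 16 (.node .nil 8589939264 128 16 .nil)) 8589939712 129 0x5800a (.node (.node .nil 8589942785 241 7 .nil) 8589943296 10 16 (.node .nil 8589967362 173 0x5800a .nil))))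

private def t19 : Tri :=
  (.node (.node (.node (.node .nil 8589967376 74 0x5000b .nil) 8589967432 70 16 (.node .nil 8589967488 59 23 .nil)) 8589967880 73 16 (.node (.node .nil 8589968384 71 0x5800a .nil) 8589971457 236 16 (.node .nil 8589971464 228 16 .nil))) 8589971968 11 16 (.node (.node (.node .nil 8590000129 173 0x5000b .nil) 8590000136 74 0x5800a (.node .nil 8590000640 14 16 .nil)) 8590196745 39 16 (.node (.node .nil 8590196752 43 0x5800a .nil) 8590196808 49 16 (.node .nil 8590197249 124 16 .nil))))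

private def t20 : Tri :=
  (.node t18 8589967369 201 16 t19)

private def t21 : Tri :=
  (.node t17 1210056768 198 16 t20)

private def t22 : Tri :=
  (.node (.node (.node (.node (.node .nil 8590197312 68 16 .nil) 8590197760 69 0x5000b .nil) 8590200840 84 16 (.node .nil 8590201344 12 16 .nil)) 8590229505 240 16 (.node (.node .nil 8590229512 75 16 .nil) 8590229568 76 16 (.node .nil 8590230016 15 16 .nil))) 8590458881 38 18 (.node (.node (.node .nil 8590458888 43 0x5000b .nil) 8590459392 17 16 (.node .nil 8592031746 164 1 .nil)) 8592031753 233 16 (.node (.node .nil 8592031760 113 1 .nil) 8592031809 171 16 (.node .nil 8592031872 103 23 .nil))))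

private def t23 : Tri :=
  (.node (.node (.node (.node (.node .nil 8592032264 110 16 .nil) 8592032320 111 16 .nil) 8592032768 112 0x5000b (.node .nil 8592036352 13 16 .nil)) 8592064513 172 16 (.node (.node .nil 8592065024 16 16 .nil) 8592293896 114 16 (.node .nil 8592294400 18 16 .nil))) 8594128960 121 16 (.node (.node (.node .nil 8594129408 19 16 .nil) 8606716416 130 16 (.node .nil 8606744577 174 16 .nil)) 8606744584 186 16 (.node (.node .nil 8606744640 182 16 .nil) 8606745088 133 16 (.node .nil 8606973953 177 16 .nil))))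

private def t24 : Tri :=
  (.node t22 8592032257 126 16 t23)

private def t25 : Tri :=
  (.node (.node (.node (.node (.node .nil 8606974464 136 16 .nil) 8608809472 139 16 .nil) 8724156480 192 16 (.node .nil 8724156928 131 16 .nil)) 8724185089 169 16 (.node (.node .nil 8724185096 165 16 .nil) 8724185152 60 16 (.node .nil 8724185600 134 16 .nil))) 8724414472 6 16 (.node (.node (.node .nil 8724414528 32 16 .nil) 8724414976 137 16 (.node .nil 8726249473 170 16 .nil)) 8726249480 205 16 (.node (.node .nil 8726249536 104 16 .nil) 8726249984 140 16 (.node .nil 9663681024 132 16 .nil))))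

private def t26 : Tri :=
  (.node (.node (.node (.node .nil 9663709192 190 16 .nil) 9663709696 135 16 (.node .nil 9663938568 8 16 .nil)) 9663939072 138 16 (.node (.node .nil 9665774080 141 16 .nil) 17179873792 129 0x5000b (.node .nil 17179901953 123 1 .nil))) 17179901960 72 16 (.node (.node (.node .nil 17179902016 58 1 .nil) 17179902464 71 0x5000b (.node .nil 17180131336 9 16 .nil)) 17180131392 31 7 (.node (.node .nil 17180131840 69 0x5800a .nil) 17181966337 125 16 (.node .nil 17181966848 112 0x5800a .nil))))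

private def t27 : Tri :=
  (.node t25 9663709185 223 16 t26)

private def t28 : Tri :=
  (.node t24 8606973960 3 16 t27)

private def t29 : Tri :=
  (.node t21 8590197256 67 16 t28)

private def t30 : Tri :=
  (.node t14 1073774601 200 16 t29)

private def N : Tri := t30

private def S : List (List (ℕ × ℕ × ℕ)) :=
  [[(1, 8, 8)], [(1, 8, 9)], [(1, 8, 10)], [(1, 8, 11)], [(1, 9, 9)], [(1, 9, 10)], [(1, 9, 11)], [(1, 10, 10)
  ], [(1, 10, 11)], [(1, 11, 11)], [(4, 4, 4)], [(4, 4, 5)], [(4, 4, 6)], [(4, 4, 7)], [(4, 5, 5)], [(4, 5, 6)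
  ], [(4, 5, 7)], [(4, 6, 6)], [(4, 6, 7)], [(4, 7, 7)], [(5, 4, 4)], [(5, 4, 5)], [(5, 4, 6)], [(5, 4, 7)
  ], [(5, 5, 5)], [(5, 5, 6)], [(5, 5, 7)], [(5, 6, 6)], [(5, 6, 7)], [(5, 7, 7)], [(1, 0, 8)], [(7, 6, 0)
  ], [(3, 6, 11)], [(3, 6, 9), (3, 2, 6)], [(3, 6, 6)], [(6, 9, 0)], [(1, 0, 9)], [(1, 0, 10)], [(6, 11, 0)
  ], [(1, 0, 11)], [(1, 6, 8), (1, 1, 8)], [(1, 6, 9), (1, 1, 9)], [(1, 6, 10), (1, 1, 10)], [(1, 6, 11)
  , (1, 1, 11)], [(5, 0, 6), (5, 6, 8)], [(6, 8, 0)], [(1, 2, 8)], [(1, 2, 9)], [(1, 2, 10)], [(1, 2, 11)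
  ], [(5, 0, 5), (5, 5, 8)], [(2, 5, 8)], [(0, 2, 8)], [(0, 3, 8)], [(0, 5, 8), (0, 1, 8)], [(1, 5, 8)
  ], [(0, 6, 8)], [(1, 3, 8)], [(4, 2, 5)], [(7, 5, 0)], [(3, 5, 11)], [(3, 5, 9), (3, 2, 5)], [(3, 5, 5)
  ], [(0, 2, 9)], [(0, 3, 9)], [(0, 1, 9), (0, 5, 9)], [(1, 5, 9)], [(1, 3, 11)], [(4, 2, 6)], [(4, 3, 6)
  , (4, 6, 11)], [(0, 2, 11)], [(4, 5, 11), (4, 3, 5)], [(0, 11, 11)], [(4, 1, 5)], [(0, 1, 11), (0, 5, 11)
  ], [(1, 5, 11)], [(0, 6, 11)], [(3, 5, 6)], [(0, 6, 9)], [(1, 3, 9)], [(1, 3, 10)], [(1, 4, 8)], [(1, 4, 9)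
  ], [(1, 4, 10)], [(1, 4, 11)], [(0, 2, 10)], [(0, 3, 10)], [(0, 1, 10), (0, 5, 10)], [(1, 5, 10)], [(5, 2, 5)
  ], [(5, 3, 5)], [(0, 8, 8)], [(5, 1, 5)], [(5, 1, 7)], [(2, 1, 8)], [(5, 0, 7), (5, 7, 8)], [(5, 3, 7)
  ], [(2, 8, 8)], [(5, 2, 7)], [(2, 3, 8)], [(2, 2, 8), (2, 7, 8)], [(0, 7, 8)], [(1, 7, 8)], [(7, 7, 0)
  ], [(3, 7, 11)], [(3, 7, 9), (3, 2, 7)], [(3, 5, 7)], [(0, 7, 9)], [(1, 7, 9)], [(1, 7, 10)], [(4, 1, 7)
  ], [(4, 2, 7)], [(4, 3, 7), (4, 7, 11)], [(0, 7, 11)], [(1, 7, 11)], [(3, 4, 4)], [(3, 4, 5)], [(3, 4, 6)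
  ], [(3, 4, 7)], [(3, 6, 7)], [(10, 2, 0)], [(3, 7, 7)], [(4, 0, 4)], [(4, 0, 5)], [(4, 0, 6)], [(2, 11, 11)
  ], [(4, 0, 7)], [(4, 1, 4)], [(4, 2, 4)], [(4, 4, 11), (4, 3, 4)], [(4, 4, 8)], [(4, 4, 9)], [(4, 4, 10)
  ], [(4, 5, 8)], [(4, 5, 9)], [(4, 5, 10)], [(4, 6, 8)], [(4, 6, 9)], [(4, 6, 10)], [(4, 7, 8)], [(4, 7, 9)
  ], [(4, 7, 10)], [(5, 4, 8), (5, 0, 4)], [(5, 1, 4)], [(5, 2, 4)], [(5, 2, 6)], [(5, 3, 4)], [(5, 3, 6)
  ], [(5, 4, 9)], [(5, 4, 10)], [(5, 4, 11)], [(2, 2, 9)], [(3, 3, 7)], [(10, 3, 0)], [(2, 3, 9)], [(10, 0, 0)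
  ], [(2, 7, 9)], [(2, 5, 9), (2, 0, 9)], [(5, 5, 9)], [(2, 2, 10)], [(2, 3, 10)], [(2, 7, 10)], [(2, 0, 10)
  , (2, 5, 10)], [(5, 5, 10)], [(5, 7, 11)], [(0, 9, 11)], [(3, 1, 5)], [(0, 9, 9)], [(2, 9, 9)], [(3, 0, 5)
  ], [(2, 9, 11)], [(3, 0, 7)], [(2, 7, 11)], [(2, 5, 11), (2, 0, 11)], [(5, 5, 11)], [(5, 6, 9)], [(5, 6, 10)
  ], [(5, 6, 11)], [(5, 7, 9)], [(5, 7, 10)], [(7, 4, 0)], [(10, 1, 0)], [(2, 8, 11)], [(3, 5, 8)], [(0, 8, 9)
  ], [(0, 8, 10)], [(0, 8, 11)], [(3, 5, 10)], [(0, 9, 10)], [(0, 10, 10)], [(0, 10, 11)], [(3, 4, 8)], [(3, 4, 11)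
  ], [(3, 2, 4), (3, 4, 9)], [(3, 4, 10)], [(3, 6, 8)], [(3, 6, 10)], [(3, 7, 8)], [(3, 7, 10)], [(0, 0, 9)
  ], [(0, 0, 10)], [(0, 0, 11)], [(3, 0, 4)], [(3, 0, 6)], [(3, 1, 4)], [(3, 1, 7)], [(3, 3, 4)], [(3, 3, 6)
  ], [(6, 10, 0)], [(8, 0, 0)], [(8, 1, 0)], [(11, 2, 0)], [(8, 2, 0)], [(11, 3, 0)], [(8, 3, 0)], [(9, 0, 0)
  ], [(9, 1, 0)], [(9, 2, 0)], [(9, 3, 0)], [(2, 8, 9)], [(2, 8, 10)], [(2, 9, 10)], [(2, 10, 10)], [(2, 10, 11)
  ], [(2, 4, 8)], [(0, 4, 8)], [(0, 4, 9)], [(0, 4, 10)], [(0, 4, 11)], [(0, 6, 10)], [(0, 7, 10)], [(2, 1, 9)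
  ], [(2, 1, 10)], [(2, 1, 11)], [(2, 4, 9)], [(2, 4, 10)], [(2, 4, 11)], [(2, 6, 8)], [(2, 6, 9)], [(2, 6, 10)
  ], [(2, 6, 11)], [(11, 0, 0)], [(11, 1, 0)]]

private theorem h0 : chk 15 5 10 31 N (okM 12 3) (rwS L1 L2) S = true := by decide +kernel

theorem ok : (sm true 12 1 2 ∅ {(0, 1, 0), (0, 2, 0), (1, 2, 0), (1, 2, 1), (1, 2, 2), (1, 2, 3)}).OK :=
  ok_of_chk _ 12 3 rfl rfl P1 P2 T F L1 L2 (r := 267) N S (by decide +kernel) (by decide +kernel)
    (by decide +kernel) (by decide +kernel) (by decide +kernel) h0 (by decide +kernel)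
    (by decide +kernel) (by decide +kernel) (by decide +kernel) (by decide +kernel)

end Pool.Agent.KZ.AL.Ck.T334_1200_0
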