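import Pool.Agent.KZ.AL.OkC

/-! # KZ4, ALPHA: finite check T334_1200_P (generated) -/

set_option autoImplicit false
set_option maxRecDepth 100000

namespace Pool.Agent.KZ.AL.Ck.T334_1200_P

open Pool.Agent.KZ (Tri chk rwS)
open Finset (range)

/-- The positions of the T-points. -/
private def P1 : List ((ℕ × ℕ × ℕ) × List (ℕ × ℤ)) :=
  [((0, 1, 0), [(3, 1), (5, 1), (7, 1)]), ((0, 1, 1), [(2, 1), (5, 1)]),
   ((0, 1, 2), [(1, 4), (2, 4), (3, 1), (4, 1), (6, 1)]), ((0, 2, 0), [(3, -1), (8, 1), (11, 1)]),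
   ((0, 2, 1), [(0, 1), (9, 1)]), ((0, 2, 2), [(0, 4), (2, 1), (3, 1), (11, 1)])]

/-- The positions of the free items. -/
private def P2 : List ((ℕ × ℕ × ℕ) × List (ℕ × ℤ)) :=
  [((0, 1, 0), [(1, 1), (3, 1), (5, 1)]), ((0, 2, 0), [(0, 1), (1, 3), (8, 1)]),
   ((1, 2, 0), [(4, 1), (5, 1), (8, 1)]), ((1, 2, 1), [(4, 1), (5, 3), (9, 1), (10, 1), (11, 4)]),
   ((1, 2, 2), [(6, 1), (8, 1)]), ((1, 2, 3), [(4, 1), (6, 4), (7, 1), (10, 1)])]

private def T : List (ℕ × ℕ × ℕ) :=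
  [(0, 1, 0), (0, 1, 1), (0, 1, 2), (0, 2, 0), (0, 2, 1), (0, 2, 2)]

private def F : List (ℕ × ℕ × ℕ) :=
  [(0, 1, 0), (0, 2, 0), (1, 2, 0), (1, 2, 1), (1, 2, 2), (1, 2, 3)]

private def L1 : List (List (ℕ × ℕ)) :=
  [[(3, 1), (5, 1), (7, 1)], [(2, 1), (5, 1)], [(1, 4), (2, 4), (3, 1), (4, 1), (6, 1)],
   [(3, 30), (8, 1), (11, 1)], [(0, 1), (9, 1)], [(0, 4), (2, 1), (3, 1), (11, 1)]]

private def L2 : List (List (ℕ × ℕ)) :=
  [[(1, 1), (3, 1), (5, 1)], [(0, 1), (1, 3), (8, 1)], [(4, 1), (5, 1), (8, 1)],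
   [(4, 1), (5, 3), (9, 1), (10, 1), (11, 4)], [(6, 1), (8, 1)], [(4, 1), (6, 4), (7, 1), (10, 1)]]

private def t0 : Tri :=
  (.node (.node (.node (.node (.node .nil 16781321 195 19 .nil) 16781328 194 0x1a0014 .nil) 16781377 211 4 (.node .nil 16781384 192 4 .nil)) 16781832 183 15 (.node (.node .nil 16782336 76 1 .nil) 16785416 194 0xa001a (.node .nil 16785472 191 21 .nil))) 16785920 79 21 (.node (.node (.node .nil 16809986 115 2 .nil) 16809993 196 19 (.node .nil 16810000 187 21 .nil)) 16810049 51 16 (.node (.node .nil 16810056 53 16 .nil) 16810112 57 0xb000a (.node .nil 16810560 59 16 .nil))))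

private def t1 : Tri :=
  (.node (.node (.node (.node .nil 16814081 199 26 .nil) 16814088 200 26 (.node .nil 16814144 61 16 .nil)) 16814592 73 15 (.node (.node .nil 16842816 57 0xa000b .nil) 16843264 20 15 (.node .nil 17039369 197 19 .nil))) 17039376 193 2 (.node (.node (.node .nil 17039425 212 4 .nil) 17040384 85 1 (.node .nil 17043457 213 16 .nil)) 17043968 81 15 (.node (.node .nil 17072136 233 4 .nil) 17072192 65 16 (.node .nil 17072640 83 15 .nil))))

private def t2 : Tri :=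
  (.node t0 16811008 23 1 t1)

private def t3 : Tri :=
  (.node (.node (.node (.node .nil 17301512 132 21 .nil) 17301568 134 21 (.node .nil 17302016 88 21 .nil)) 18874377 198 19 (.node (.node .nil 18874433 227 4 .nil) 18874440 237 1 (.node .nil 18875392 90 1 .nil))) 18878976 75 15 (.node (.node (.node .nil 18907137 166 16 .nil) 18907144 169 16 (.node .nil 18907200 69 16 .nil)) 18907648 22 15 (.node (.node .nil 19137024 84 15 .nil) 20971584 173 1 (.node .nil 20972032 91 16 .nil))))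

private def t4 : Tri :=
  (.node (.node (.node (.node .nil 33559040 78 15 .nil) 33587264 0 16 (.node .nil 33587712 25 15 .nil)) 33816640 133 1 (.node (.node .nil 33817088 87 15 .nil) 35651585 178 1 (.node .nil 35651648 186 1 .nil))) 35652096 26 16 (.node (.node (.node .nil 134221826 93 0xb000a .nil) 134221833 96 16 (.node .nil 134221840 216 2 .nil)) 134221889 103 4 (.node (.node .nil 134222337 98 16 .nil) 134225921 10 16 (.node .nil 134250498 32 0xa000b .nil))))

private def t5 : Tri :=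
  (.node t3 33558592 179 4 t4)

private def t6 : Tri :=
  (.node t2 17301505 131 21 t5)

private def t7 : Tri :=
  (.node (.node (.node (.node (.node .nil 134250512 188 21 .nil) 134250561 33 16 .nil) 134250568 54 16 (.node .nil 134250624 34 0xa000b .nil)) 134251009 43 4 (.node (.node .nil 134251072 35 16 .nil) 134254593 11 16 (.node .nil 134254656 62 16 .nil))) 134283265 14 16 (.node (.node (.node .nil 134283328 34 0xb000a .nil) 134479874 94 0xb000a (.node .nil 134479881 108 16 .nil)) 134479888 219 0x1a0014 (.node (.node .nil 134483969 12 16 .nil) 134512641 15 16 (.node .nil 134512648 234 4 .nil))))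

private def t8 : Tri :=
  (.node (.node (.node (.node .nil 134513152 139 16 .nil) 134742017 17 16 (.node .nil 134742024 219 0xa001a .nil)) 134742080 217 1 (.node (.node .nil 134742528 218 1 .nil) 136314882 95 0xb000a (.node .nil 136314889 109 16 .nil))) 136314896 238 2 (.node (.node (.node .nil 136315393 111 16 .nil) 136315904 141 1 (.node .nil 136318977 13 16 .nil)) 136319488 135 16 (.node (.node .nil 136347649 16 16 .nil) 136347656 170 16 (.node .nil 136347712 70 16 .nil))))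

private def t9 : Tri :=
  (.node t7 134512704 66 16 t8)

private def t10 : Tri :=
  (.node (.node (.node (.node .nil 136577025 18 16 .nil) 138412033 19 16 (.node .nil 138412096 174 1 .nil)) 138412544 142 16 (.node (.node .nil 150999041 112 16 .nil) 150999048 201 4 (.node .nil 150999552 145 15 .nil))) 151027713 116 16 (.node (.node (.node .nil 151027776 1 16 .nil) 151028224 27 15 (.node .nil 151257089 118 16 .nil)) 151257600 147 15 (.node (.node .nil 153092097 124 16 .nil) 153092608 28 16 (.node .nil 268439553 93 0xa000b .nil))))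

private def t11 : Tri :=
  (.node (.node (.node (.node .nil 268468225 32 0xb000a .nil) 268468288 4 16 (.node .nil 268468736 44 1 .nil)) 268697601 94 0xa000b (.node (.node .nil 268697608 107 4 .nil) 268697664 105 1 (.node .nil 268698112 106 1 .nil))) 270532609 95 0xa000b (.node (.node (.node .nil 270532672 110 1 .nil) 270533120 45 16 (.node .nil 1073745922 113 1 .nil)) 1073745929 215 4 (.node (.node .nil 1073745936 222 2 .nil) 1073745985 214 4 (.node .nil 1073745992 220 4 .nil))))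

private def t12 : Tri :=
  (.node t10 268439616 104 1 t11)

private def t13 : Tri :=
  (.node t9 136348160 137 16 t12)

private def t14 : Tri :=
  (.node t6 134250505 97 16 t13)

private def t15 : Tri :=
  (.node (.node (.node (.node (.node .nil 1073774594 117 1 .nil) 1073774608 189 21 .nil) 1073774657 52 16 (.node .nil 1073774664 55 16 .nil)) 1073774720 58 0xb000a (.node (.node .nil 1073775105 167 4 .nil) 1073775168 60 16 (.node .nil 1073778689 241 19 .nil))) 1073778752 63 16 (.node (.node (.node .nil 1073779200 136 16 .nil) 1073807424 58 0xa000b (.node .nil 1074003984 223 0x1a0014 .nil)) 1074036744 235 4 (.node (.node .nil 1074036800 67 16 .nil) 1074037248 140 16 (.node .nil 1074266120 223 0xa001a .nil))))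

private def t16 : Tri :=
  (.node (.node (.node (.node .nil 1075839041 229 4 .nil) 1075840000 143 1 (.node .nil 1075843073 230 26 .nil)) 1075871745 168 16 (.node (.node .nil 1075871752 171 16 .nil) 1075871808 71 16 (.node .nil 1075872256 138 16 .nil))) 1077936192 175 1 (.node (.node (.node .nil 1077936640 144 16 .nil) 1090523144 202 4 (.node .nil 1090523648 146 15 .nil)) 1090551872 2 16 (.node (.node .nil 1090552320 29 15 .nil) 1090781696 148 15 (.node .nil 1092616704 30 16 .nil))))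

private def t17 : Tri :=
  (.node t15 1075838992 239 2 t16)

private def t18 : Tri :=
  (.node (.node (.node (.node .nil 1207964160 204 26 .nil) 1207992328 242 19 (.node .nil 1207992384 5 16 .nil)) 1208221697 119 16 (.node (.node .nil 1208221704 205 4 .nil) 1210056705 125 16 (.node .nil 1210057216 46 16 .nil))) 2147516480 7 16 (.node (.node (.node .nil 2147516928 48 16 .nil) 2147745800 209 4 (.node .nil 2147746304 208 13 .nil)) 2149580808 231 21 (.node (.node .nil 2149580864 232 21 .nil) 8589938690 101 0x14001a (.node .nil 8589938697 162 4 .nil))))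

private def t19 : Tri :=
  (.node (.node (.node (.node .nil 8589938753 99 4 .nil) 8589939201 100 4 (.node .nil 8589939208 163 16 .nil)) 8589942785 149 4 (.node (.node .nil 8589943296 80 15 .nil) 8589967362 41 0x14001a (.node .nil 8589967369 164 4 .nil))) 8589967376 190 21 (.node (.node (.node .nil 8589967425 38 16 .nil) 8589967432 56 16 (.node .nil 8589967488 36 0xb000a .nil)) 8589967873 40 4 (.node (.node .nil 8589967936 39 16 .nil) 8589971457 150 4 (.node .nil 8589971520 64 16 .nil))))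

private def t20 : Tri :=
  (.node t18 8589938704 224 2 t19)

private def t21 : Tri :=
  (.node t17 1207963712 203 26 t20)

private def t22 : Tri :=
  (.node (.node (.node (.node (.node .nil 8590000192 36 0xa000b .nil) 8590196738 122 0x14001a .nil) 8590196745 161 4 (.node .nil 8590196752 225 0x1a0014 .nil)) 8590196801 120 4 (.node (.node .nil 8590197249 121 4 .nil) 8590200833 151 4 (.node .nil 8590229505 153 4 .nil))) 8590229512 236 4 (.node (.node (.node .nil 8590229568 68 16 .nil) 8590230016 82 16 (.node .nil 8590458881 156 4 .nil)) 8590458888 225 0xa001a (.node (.node .nil 8590458944 155 1 .nil) 8590459392 89 15 (.node .nil 8592031746 129 0x14001a .nil))))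

private def t23 : Tri :=
  (.node (.node (.node (.node .nil 8592031760 240 2 .nil) 8592031809 126 4 (.node .nil 8592032257 128 4 .nil)) 8592032768 127 1 (.node (.node .nil 8592035841 152 4 .nil) 8592036352 74 16 (.node .nil 8592064513 154 4 .nil))) 8592064520 172 16 (.node (.node (.node .nil 8592064576 72 16 .nil) 8592065024 21 16 (.node .nil 8592293889 157 4 .nil)) 8594128897 158 1 (.node (.node .nil 8594128960 159 16 .nil) 8594129408 92 15 (.node .nil 8606715905 176 16 .nil))))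

private def t24 : Tri :=
  (.node t22 8592031753 165 4 t23)

private def t25 : Tri :=
  (.node (.node (.node (.node .nil 8606715968 180 16 .nil) 8606716416 77 15 (.node .nil 8606744577 114 16 .nil)) 8606744584 184 16 (.node (.node .nil 8606744640 3 16 .nil) 8606745088 24 15 (.node .nil 8606973953 177 16 .nil))) 8606973960 181 16 (.node (.node (.node .nil 8606974464 86 15 .nil) 8608808968 185 16 (.node .nil 8608809472 31 16 .nil)) 8724156417 102 16 (.node (.node .nil 8724185089 42 16 .nil) 8724185152 6 16 (.node .nil 8724414465 123 16 .nil))))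

private def t26 : Tri :=
  (.node (.node (.node (.node .nil 8724414528 206 16 .nil) 8726249473 130 16 (.node .nil 8726249536 228 16 .nil)) 8726249984 47 16 (.node (.node .nil 9663709248 8 16 .nil) 9663938561 226 4 (.node .nil 9663938568 210 4 .nil))) 9665774080 49 16 (.node (.node (.node .nil 17179873281 101 0x1a000a .nil) 17179901953 41 0x1a000a (.node .nil 17179902016 9 16 .nil)) 17180131329 122 0x1a000a (.node (.node .nil 17180131336 160 4 .nil) 17181966337 129 0x1a000a (.node .nil 17181966848 50 16 .nil))))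

private def t27 : Tri :=
  (.node t25 8724414472 207 4 t26)

private def t28 : Tri :=
  (.node t24 8606715912 182 4 t27)

private def t29 : Tri :=
  (.node t21 8590000129 37 4 t28)

private def t30 : Tri :=
  (.node t14 1073746440 221 4 t29)

private def N : Tri := t30

private def S : List (List (ℕ × ℕ × ℕ)) :=
  [[(1, 8, 8)], [(1, 8, 9)], [(1, 8, 10)], [(1, 8, 11)], [(1, 9, 9)], [(1, 9, 10)], [(1, 9, 11)], [(1, 10, 10)
  ], [(1, 10, 11)], [(1, 11, 11)], [(4, 4, 4)], [(4, 4, 5)], [(4, 4, 6)], [(4, 4, 7)], [(4, 5, 5)], [(4, 5, 6)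
  ], [(4, 5, 7)], [(4, 6, 6)], [(4, 6, 7)], [(4, 7, 7)], [(3, 5, 5)], [(0, 5, 11)], [(3, 5, 7)], [(0, 5, 8)
  ], [(3, 5, 11)], [(3, 5, 8)], [(0, 8, 8)], [(3, 5, 9)], [(0, 8, 9)], [(3, 5, 10)], [(0, 8, 10)], [(0, 8, 11)
  ], [(4, 0, 5), (4, 5, 9)], [(1, 0, 9)], [(1, 2, 9), (1, 5, 9)], [(1, 3, 9)], [(1, 5, 11), (1, 2, 11)
  ], [(5, 5, 5)], [(1, 0, 11)], [(1, 3, 11)], [(5, 3, 5)], [(5, 0, 5), (5, 5, 11)], [(4, 5, 11)], [(5, 5, 9)
  ], [(4, 3, 5)], [(0, 9, 9)], [(0, 9, 10)], [(0, 9, 11)], [(0, 10, 10)], [(0, 10, 11)], [(0, 11, 11)], [(1, 0, 8)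
  ], [(1, 0, 10)], [(1, 1, 8)], [(1, 1, 9)], [(1, 1, 10)], [(1, 1, 11)], [(1, 5, 8), (1, 2, 8)], [(1, 5, 10)
  , (1, 2, 10)], [(1, 3, 8)], [(1, 3, 10)], [(1, 4, 8)], [(1, 4, 9)], [(1, 4, 10)], [(1, 4, 11)], [(1, 6, 8)
  ], [(1, 6, 9)], [(1, 6, 10)], [(1, 6, 11)], [(1, 7, 8)], [(1, 7, 9)], [(1, 7, 10)], [(1, 7, 11)], [(3, 4, 5)
  ], [(0, 4, 11)], [(3, 4, 7)], [(0, 4, 8)], [(3, 4, 11)], [(3, 4, 8)], [(8, 3, 0)], [(3, 4, 4)], [(3, 4, 6)
  ], [(0, 6, 11)], [(3, 5, 6)], [(3, 6, 7)], [(0, 6, 8)], [(3, 6, 11)], [(3, 6, 8)], [(10, 3, 0)], [(3, 6, 6)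
  ], [(3, 7, 8)], [(0, 7, 8)], [(3, 7, 7)], [(4, 4, 9), (4, 0, 4)], [(4, 6, 9), (4, 0, 6)], [(4, 7, 9)
  , (4, 0, 7)], [(4, 1, 4)], [(4, 1, 5)], [(4, 3, 4)], [(5, 2, 4)], [(5, 3, 4)], [(5, 0, 4), (5, 4, 11)
  ], [(4, 4, 11)], [(5, 4, 9)], [(4, 2, 4)], [(4, 2, 6)], [(4, 3, 6)], [(2, 9, 9)], [(4, 1, 6)], [(4, 1, 7)
  ], [(4, 2, 7)], [(4, 3, 7)], [(4, 4, 8)], [(4, 4, 10)], [(3, 0, 5)], [(5, 5, 8)], [(4, 5, 8)], [(4, 5, 10)
  ], [(4, 6, 8)], [(4, 6, 10)], [(5, 2, 6)], [(5, 3, 6)], [(5, 0, 6), (5, 6, 11)], [(4, 6, 11)], [(4, 7, 8)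
  ], [(4, 7, 10)], [(5, 2, 7)], [(0, 7, 11)], [(5, 3, 7)], [(5, 0, 7), (5, 7, 11)], [(4, 7, 11)], [(10, 0, 0)
  ], [(10, 1, 0)], [(3, 2, 6)], [(10, 2, 0)], [(0, 4, 9)], [(0, 4, 10)], [(0, 5, 9)], [(0, 5, 10)], [(0, 6, 9)
  ], [(0, 6, 10)], [(3, 7, 9)], [(0, 7, 9)], [(3, 7, 10)], [(0, 7, 10)], [(3, 4, 9)], [(3, 4, 10)], [(3, 6, 9)
  ], [(3, 6, 10)], [(5, 4, 4)], [(5, 4, 5)], [(5, 4, 6)], [(5, 4, 7)], [(5, 5, 6)], [(5, 5, 7)], [(2, 2, 11)
  ], [(5, 6, 6)], [(5, 6, 7)], [(0, 0, 11)], [(5, 7, 7)], [(2, 11, 11)], [(5, 1, 6)], [(2, 0, 11)], [(5, 1, 4)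
  ], [(5, 1, 5)], [(5, 1, 7)], [(0, 0, 8)], [(5, 5, 10)], [(0, 0, 10)], [(0, 1, 8)], [(0, 1, 9)], [(0, 1, 10)
  ], [(0, 1, 11)], [(0, 2, 8)], [(0, 2, 9)], [(0, 2, 10)], [(3, 0, 4)], [(3, 0, 6)], [(3, 0, 7)], [(2, 8, 8)
  ], [(3, 2, 4)], [(3, 1, 6)], [(2, 8, 11)], [(3, 1, 4)], [(3, 1, 5)], [(3, 1, 7)], [(3, 2, 7)], [(6, 8, 0)
  ], [(6, 9, 0)], [(6, 10, 0)], [(6, 11, 0)], [(8, 2, 0)], [(2, 2, 8)], [(2, 6, 8)], [(2, 4, 8), (2, 1, 8)
  ], [(7, 4, 0)], [(7, 5, 0)], [(7, 6, 0)], [(7, 7, 0)], [(8, 0, 0)], [(8, 1, 0)], [(2, 8, 9)], [(2, 8, 10)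
  ], [(9, 2, 0)], [(9, 3, 0)], [(2, 9, 10)], [(5, 6, 9)], [(2, 9, 11)], [(11, 3, 0)], [(2, 10, 10)], [(2, 10, 11)
  ], [(5, 4, 8)], [(5, 6, 8)], [(2, 0, 8)], [(5, 4, 10)], [(2, 0, 10)], [(2, 4, 9)], [(2, 2, 9)], [(2, 3, 9)
  ], [(2, 6, 9), (2, 1, 9)], [(2, 2, 10)], [(2, 3, 10)], [(2, 4, 10)], [(2, 6, 10), (2, 1, 10)], [(2, 4, 11)
  ], [(2, 6, 11), (2, 1, 11)], [(5, 6, 10)], [(5, 7, 8)], [(5, 7, 9)], [(5, 7, 10)], [(11, 0, 0)], [(11, 1, 0)
  ], [(11, 2, 0)], [(2, 5, 8)], [(2, 5, 9)], [(2, 5, 10)], [(2, 5, 11)], [(2, 7, 8)], [(2, 7, 9)], [(2, 7, 10)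
  ], [(2, 7, 11)], [(9, 0, 0)], [(9, 1, 0)]]

private theorem h0 : chk 16 5 11 31 N (okM 12 3) (rwS L1 L2) S = true := by decide +kernel

theorem ok : (sm true 12 1 2 {(0, {1, 2}, 0)} {(0, 1, 0), (0, 2, 0), (1, 2, 0), (1, 2, 1), (1, 2, 2), (1, 2, 3)}).OK :=
  ok_of_chk _ 12 3 rfl rfl P1 P2 T F L1 L2 (r := 259) N S (by decide +kernel) (by decide +kernel)
    (by decide +kernel) (by decide +kernel) (by decide +kernel) h0 (by decide +kernel)
    (by decide +kernel) (by decide +kernel) (by decide +kernel) (by decide +kernel)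

end Pool.Agent.KZ.AL.Ck.T334_1200_P
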