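import Pool.Agent.KZ.AL.OkC

/-! # KZ4, ALPHA: finite check T334_1201_0 (generated) -/

set_option autoImplicit false
set_option maxRecDepth 100000

namespace Pool.Agent.KZ.AL.Ck.T334_1201_0

open Pool.Agent.KZ (Tri chk rwS)
open Finset (range)

/-- The positions of the T-points. -/
private def P1 : List ((ℕ × ℕ × ℕ) × List (ℕ × ℤ)) :=
  [((0, 1, 0), [(1, 1), (6, 1)]), ((0, 1, 1), [(0, 2), (1, 1), (2, 1), (5, 1)]),
   ((0, 1, 2), [(2, 1), (5, 1)]), ((0, 2, 0), [(3, 1), (9, 1)]),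
   ((0, 2, 1), [(3, 1), (11, 1)]), ((0, 2, 2), [(3, 3), (8, 1), (9, 1), (10, 3)])]

/-- The positions of the free items. -/
private def P2 : List ((ℕ × ℕ × ℕ) × List (ℕ × ℤ)) :=
  []

private def T : List (ℕ × ℕ × ℕ) :=
  [(0, 1, 0), (0, 1, 1), (0, 1, 2), (0, 2, 0), (0, 2, 1), (0, 2, 2)]

private def F : List (ℕ × ℕ × ℕ) :=
  []

private def L1 : List (List (ℕ × ℕ)) :=
  [[(1, 1), (6, 1)], [(0, 2), (1, 1), (2, 1), (5, 1)], [(2, 1), (5, 1)],
   [(3, 1), (9, 1)], [(3, 1), (11, 1)], [(3, 3), (8, 1), (9, 1), (10, 3)]]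

private def L2 : List (List (ℕ × ℕ)) :=
  []

private def t0 : Tri :=
  (.node (.node (.node (.node .nil 68736258560 20 26 .nil) 68736286721 16 8 (.node .nil 68736286784 4 16 .nil)) 68736287232 21 26 (.node (.node .nil 68736516104 0 16 .nil) 68736516608 22 26 .nil)) 68738351616 23 26 (.node (.node (.node .nil 68853699072 8 16 .nil) 68853727233 17 8 .nil) 68853727296 5 16 (.node (.node .nil 68853727744 9 16 .nil) 68853956616 1 16 .nil)))

private def t1 : Tri :=
  (.node t0 68853957120 10 16 (.node (.node (.node (.node .nil 68855792128 11 16 .nil) 69793251329 18 8 .nil) 69793251392 6 16 (.node (.node .nil 69793480712 2 16 .nil) 77309415936 12 16 .nil)) 77309444097 19 8 (.node (.node (.node .nil 77309444160 7 16 .nil) 77309444608 13 16 .nil) 77309673480 3 16 (.node (.node .nil 77309673984 14 16 .nil) 77311508992 15 16 .nil))))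

private def N : Tri := t1

private def S : List (List (ℕ × ℕ × ℕ)) :=
  [[(0, 8, 12)], [(0, 9, 12)], [(0, 10, 12)], [(0, 11, 12)], [(2, 8, 12)], [(2, 9, 12)], [(2, 10, 12)], [(2, 11, 12)
  ], [(3, 4, 12)], [(3, 5, 12)], [(3, 6, 12)], [(3, 7, 12)], [(4, 4, 12)], [(4, 5, 12)], [(4, 6, 12)], [(4, 7, 12)
  ], [(1, 8, 12)], [(1, 9, 12)], [(1, 10, 12)], [(1, 11, 12)], [(5, 4, 12)], [(5, 5, 12)], [(5, 6, 12)], [(5, 7, 12)
  ]]

private theorem h0 : chk 12 5 7 31 N (okM 13 4) (rwS L1 L2) S = true := by decide +kernel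

theorem ok : (sm true 13 1 2 ∅ ∅).OK :=
  ok_of_chk _ 13 4 rfl rfl P1 P2 T F L1 L2 (r := 24) N S (by decide +kernel) (by decide +kernel)
    (by decide +kernel) (by decide +kernel) (by decide +kernel) h0 (by decide +kernel)
    (by decide +kernel) (by decide +kernel) (by decide +kernel) (by decide +kernel)

end Pool.Agent.KZ.AL.Ck.T334_1201_0
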