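import Pool.Agent.KZ.AL.OkC

/-! # KZ4, ALPHA: finite check T334_1201_P (generated) -/

set_option autoImplicit false
set_option maxRecDepth 100000

namespace Pool.Agent.KZ.AL.Ck.T334_1201_P

open Pool.Agent.KZ (Tri chk rwS)
open Finset (range)

/-- The positions of the T-points. -/
private def P1 : List ((ℕ × ℕ × ℕ) × List (ℕ × ℤ)) :=
  [((0, 1, 0), [(3, 1), (4, 4), (7, 3)]), ((0, 1, 1), [(1, 1), (3, 3), (6, 1), (7, 2)]),
   ((0, 1, 2), [(0, 3), (1, 1), (3, 1), (5, 1)]), ((0, 2, 0), [(3, -1), (10, 1)]),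
   ((0, 2, 1), [(1, 1), (2, 4), (8, 4), (10, 4)]), ((0, 2, 2), [(1, 1), (2, 2), (10, 4), (11, 2)])]

/-- The positions of the free items. -/
private def P2 : List ((ℕ × ℕ × ℕ) × List (ℕ × ℤ)) :=
  []

private def T : List (ℕ × ℕ × ℕ) :=
  [(0, 1, 0), (0, 1, 1), (0, 1, 2), (0, 2, 0), (0, 2, 1), (0, 2, 2)]

private def F : List (ℕ × ℕ × ℕ) :=
  []

private def L1 : List (List (ℕ × ℕ)) :=
  [[(3, 1), (4, 4), (7, 3)], [(1, 1), (3, 3), (6, 1), (7, 2)], [(0, 3), (1, 1), (3, 1), (5, 1)],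
   [(3, 30), (10, 1)], [(1, 1), (2, 4), (8, 4), (10, 4)], [(1, 1), (2, 2), (10, 4), (11, 2)]]

private def L2 : List (List (ℕ × ℕ)) :=
  []

private def t0 : Tri :=
  (.node (.node (.node (.node (.node .nil 68736258056 15 4 .nil) 68736258560 4 4 .nil) 68736286721 7 26 (.node (.node .nil 68736286784 16 1 .nil) 68736516160 17 1 .nil)) 68736516608 11 26 (.node (.node (.node .nil 68738351168 18 1 .nil) 68853699072 5 4 .nil) 68853727233 8 26 (.node (.node .nil 68853956616 12 16 .nil) 69793223168 0 15 .nil))) 69793251329 9 26 (.node (.node (.node (.node .nil 69793251840 1 15 .nil) 69793480712 13 16 .nil) 69793481216 2 15 (.node (.node .nil 69795316224 3 15 .nil) 77309415432 19 8 .nil)) 77309415936 6 4 (.node (.node (.node .nil 77309444097 10 26 .nil) 77309444160 20 4 .nil) 77309673536 21 4 (.node (.node .nil 77309673984 14 26 .nil) 77311508544 22 4 .nil))))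

private def N : Tri := t0

private def S : List (List (ℕ × ℕ × ℕ)) :=
  [[(3, 4, 12)], [(3, 5, 12)], [(3, 6, 12)], [(3, 7, 12)], [(0, 8, 12)], [(0, 9, 12)], [(0, 11, 12)], [(2, 8, 12)
  ], [(2, 9, 12)], [(2, 10, 12)], [(2, 11, 12)], [(1, 8, 12)], [(1, 9, 12)], [(1, 10, 12)], [(1, 11, 12)], [(4, 4, 12)
  ], [(4, 5, 12)], [(4, 6, 12)], [(4, 7, 12)], [(5, 4, 12)], [(5, 5, 12)], [(5, 6, 12)], [(5, 7, 12)]]

private theorem h0 : chk 16 5 11 31 N (okM 13 4) (rwS L1 L2) S = true := by decide +kernel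

theorem ok : (sm true 13 1 2 {(0, {1, 2}, 0)} ∅).OK :=
  ok_of_chk _ 13 4 rfl rfl P1 P2 T F L1 L2 (r := 23) N S (by decide +kernel) (by decide +kernel)
    (by decide +kernel) (by decide +kernel) (by decide +kernel) h0 (by decide +kernel)
    (by decide +kernel) (by decide +kernel) (by decide +kernel) (by decide +kernel)

end Pool.Agent.KZ.AL.Ck.T334_1201_P
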