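import Pool.Agent.KZ.AL.OkC

/-! # KZ4, ALPHA: finite check T334_1210_0 (generated) -/

set_option autoImplicit false
set_option maxRecDepth 100000

namespace Pool.Agent.KZ.AL.Ck.T334_1210_0

open Pool.Agent.KZ (Tri chk rwS)
open Finset (range)

/-- The positions of the T-points. -/
private def P1 : List ((ℕ × ℕ × ℕ) × List (ℕ × ℤ)) :=
  [((0, 1, 0), [(0, 1), (2, 1), (4, 3), (5, 1), (6, 2)]), ((0, 1, 1), [(1, 1), (4, 1), (5, 1), (6, 4), (7, 1)]),
   ((0, 1, 2), [(1, 1), (6, 1)]), ((0, 2, 0), [(0, 1), (3, 1), (9, 1), (11, 1)]),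
   ((0, 2, 1), [(1, 1), (3, 1), (9, 1)]), ((0, 2, 2), [(3, 1), (9, 1), (10, 2)]),
   ((0, 3, 0), [(0, 1), (12, 1), (13, 1)]), ((0, 3, 1), [(2, 1), (15, 1)]),
   ((0, 3, 2), [(1, 1), (2, 1), (13, 1), (14, 1)]), ((1, 3, 0), [(7, 1), (12, 1), (14, 2)]),
   ((1, 3, 1), [(6, 1), (7, 1), (12, 1), (14, 1)]), ((1, 3, 2), [(4, 1), (7, 1), (12, 1), (14, 1)]),
   ((1, 3, 3), [(4, 1), (12, 1), (13, 1), (15, 1)]), ((2, 3, 0), [(8, 1), (9, 1), (10, 2), (11, 1), (12, 1), (15, 1)]),
   ((2, 3, 1), [(11, 1), (14, 1), (15, 1)]), ((2, 3, 2), [(8, 1), (9, 1), (13, 1), (15, 1)]),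
   ((2, 3, 3), [(8, 1), (13, 1)])]

/-- The positions of the free items. -/
private def P2 : List ((ℕ × ℕ × ℕ) × List (ℕ × ℤ)) :=
  []

private def T : List (ℕ × ℕ × ℕ) :=
  [(0, 1, 0), (0, 1, 1), (0, 1, 2), (0, 2, 0), (0, 2, 1), (0, 2, 2), (0, 3, 0), (0, 3, 1),
   (0, 3, 2), (1, 3, 0), (1, 3, 1), (1, 3, 2), (1, 3, 3), (2, 3, 0), (2, 3, 1), (2, 3, 2),
   (2, 3, 3)]

private def F : List (ℕ × ℕ × ℕ) :=
  []

private def L1 : List (List (ℕ × ℕ)) :=
  [[(0, 1), (2, 1), (4, 3), (5, 1), (6, 2)], [(1, 1), (4, 1), (5, 1), (6, 4), (7, 1)], [(1, 1), (6, 1)],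
   [(0, 1), (3, 1), (9, 1), (11, 1)], [(1, 1), (3, 1), (9, 1)], [(3, 1), (9, 1), (10, 2)],
   [(0, 1), (12, 1), (13, 1)], [(2, 1), (15, 1)], [(1, 1), (2, 1), (13, 1), (14, 1)],
   [(7, 1), (12, 1), (14, 2)], [(6, 1), (7, 1), (12, 1), (14, 1)], [(4, 1), (7, 1), (12, 1), (14, 1)],
   [(4, 1), (12, 1), (13, 1), (15, 1)], [(8, 1), (9, 1), (10, 2), (11, 1), (12, 1), (15, 1)], [(11, 1), (14, 1), (15, 1)],
   [(8, 1), (9, 1), (13, 1), (15, 1)], [(8, 1), (13, 1)]]

private def L2 : List (List (ℕ × ℕ)) :=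
  []

private def t0 : Tri :=
  (.node (.node (.node (.node .nil 68736258049 75 16 .nil) 68736258056 53 16 (.node .nil 68736258112 48 16 .nil)) 68736258560 84 16 (.node (.node .nil 68736286721 138 16 .nil) 68736286728 177 16 (.node .nil 68736286784 184 16 .nil))) 68736287232 226 16 (.node (.node (.node .nil 68736516097 140 16 .nil) 68736516104 0 16 (.node .nil 68736516160 183 16 .nil)) 68736516608 216 16 (.node (.node .nil 68738351105 148 16 .nil) 68738351112 47 4111 (.node .nil 68738351168 50 16 .nil))))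

private def t1 : Tri :=
  (.node (.node (.node (.node .nil 68853698561 77 0xf010000 .nil) 68853698568 57 16 (.node .nil 68853698624 67 16 .nil)) 68853699072 58 16 (.node (.node .nil 68853727233 139 16 .nil) 68853727240 63 16 (.node .nil 68853727296 186 16 .nil))) 68853727744 64 16 (.node (.node (.node .nil 68853956616 4 16 .nil) 68853956672 185 16 (.node .nil 68853957120 116 16 .nil)) 68855791617 95 4111 (.node (.node .nil 68855791624 60 4111 .nil) 68855791680 69 61441 (.node .nil 68855792128 118 16 .nil))))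

private def t2 : Tri :=
  (.node t0 68738351616 164 16 t1)

private def t3 : Tri :=
  (.node (.node (.node (.node .nil 69793222664 176 0x1000f010017 .nil) 69793222720 173 8 (.node .nil 69793223168 85 8 .nil)) 69793251329 143 8 (.node (.node .nil 69793251336 181 16 .nil) 69793251392 189 8 (.node .nil 69793251840 125 8 .nil))) 69793480712 8 16 (.node (.node (.node .nil 69793480768 190 8 .nil) 69793481216 129 8 (.node .nil 69795315720 154 61441 .nil)) 69795315776 158 8 (.node (.node .nil 69795316224 133 8 .nil) 77309415425 87 0xf01000f010 (.node .nil 77309415432 169 0x501501a005 .nil))))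

private def t4 : Tri :=
  (.node (.node (.node (.node .nil 77309415936 87 0x1001000f01000f .nil) 77309444104 197 16 (.node .nil 77309444160 188 16 .nil)) 77309444608 204 16 (.node (.node .nil 77309673480 12 16 .nil) 77309673536 187 16 (.node .nil 77309673984 206 16 .nil))) 77311508481 90 4111 (.node (.node (.node .nil 77311508488 155 61441 .nil) 77311508544 157 16 (.node .nil 77311508992 160 16 .nil)) 549772595201 32 16 (.node (.node .nil 549772595208 36 16 .nil) 549772595264 39 16 .nil)))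

private def t5 : Tri :=
  (.node t3 77309415488 167 16 t4)

private def t6 : Tri :=
  (.node t2 69793222657 137 0x1000800f t5)

private def t7 : Tri :=
  (.node (.node (.node (.node .nil 549772623873 33 16 .nil) 549772623880 37 16 (.node .nil 549772623936 40 16 .nil)) 549772624384 44 16 (.node (.node .nil 549772853249 34 16 .nil) 549772853256 1 16 (.node .nil 549772853312 41 16 .nil))) 549772853760 45 16 (.node (.node (.node .nil 549774688257 35 16 .nil) 549774688264 38 16 (.node .nil 549774688320 42 16 .nil)) 549774688768 46 16 (.node (.node .nil 549890035713 77 0x1000f010 .nil) 549890035720 56 16 (.node .nil 549890035776 66 16 .nil))))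

private def t8 : Tri :=
  (.node (.node (.node (.node .nil 549890064385 81 16 .nil) 549890064392 71 16 (.node .nil 549890064448 78 16 .nil)) 549890064896 72 16 (.node (.node .nil 549890293761 79 16 .nil) 549890293768 5 16 (.node .nil 549890293824 80 16 .nil))) 549890294272 117 16 (.node (.node (.node .nil 549892128769 149 16 .nil) 549892128776 70 16 (.node .nil 549892128832 65 16 .nil)) 549892129280 119 16 (.node (.node .nil 550829559809 137 0x17010 .nil) 550829559816 176 0x10000000017 .nil)))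

private def t9 : Tri :=
  (.node t7 549890036224 59 16 t8)

private def t10 : Tri :=
  (.node (.node (.node (.node .nil 550829560320 123 8 .nil) 550829588481 144 16 (.node .nil 550829588488 195 16 .nil)) 550829588544 193 16 (.node (.node .nil 550829588992 126 8 .nil) 550829817857 146 16 (.node .nil 550829817864 9 16 .nil))) 550829817920 192 16 (.node (.node (.node .nil 550829818368 130 8 .nil) 550831652865 150 16 (.node .nil 550831652872 196 16 .nil)) 550831652928 211 16 (.node (.node .nil 550831653376 134 8 .nil) 558345752577 87 0x1000f010000 (.node .nil 558345752584 169 0x500501a015 .nil))))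

private def t11 : Tri :=
  (.node (.node (.node (.node .nil 558345753088 87 0xf010000000 .nil) 558345781249 145 16 (.node .nil 558345781256 202 16 .nil)) 558345781312 201 16 (.node (.node .nil 558345781760 205 16 .nil) 558346010625 147 16 (.node .nil 558346010632 13 16 .nil))) 558346010688 200 16 (.node (.node (.node .nil 558346011136 207 16 .nil) 558347845633 151 16 (.node .nil 558347845640 203 16 .nil)) 558347845696 212 16 (.node (.node .nil 558347846144 208 16 .nil) 4398063292417 218 16 .nil)))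

private def t12 : Tri :=
  (.node t10 558345752640 168 16 t11)

private def t13 : Tri :=
  (.node t9 550829559872 174 16 t12)

private def t14 : Tri :=
  (.node t6 549772595712 43 16 t13)

private def t15 : Tri :=
  (.node (.node (.node (.node .nil 4398063292480 51 16 .nil) 4398063292928 220 16 (.node .nil 4398063321089 223 16 .nil)) 4398063321096 178 16 (.node (.node .nil 4398063321152 210 16 .nil) 4398063550465 213 16 (.node .nil 4398063550472 2 16 .nil))) 4398063550528 182 16 (.node (.node (.node .nil 4398063550976 217 16 .nil) 4398065385473 152 8 (.node .nil 4398065385480 47 61456 .nil)) 4398065385536 49 16 (.node (.node .nil 4398065385984 165 8 .nil) 4398180732929 94 16 (.node .nil 4398180732936 61 16 .nil))))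

private def t16 : Tri :=
  (.node (.node (.node (.node .nil 4398180733440 62 16 .nil) 4398180761601 111 16 (.node .nil 4398180761608 73 16 .nil)) 4398180761664 109 16 (.node (.node .nil 4398180762112 74 16 .nil) 4398180990977 96 16 (.node .nil 4398180990984 6 16 .nil))) 4398180991040 110 16 (.node (.node (.node .nil 4398180991488 97 16 .nil) 4398182825985 95 61456 (.node .nil 4398182825992 60 61456 .nil)) 4398182826048 69 0x1000f (.node (.node .nil 4398182826496 120 16 .nil) 4399120257025 219 16 .nil)))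

private def t17 : Tri :=
  (.node t15 4398180732992 68 16 t16)

private def t18 : Tri :=
  (.node (.node (.node (.node .nil 4399120257088 175 16 .nil) 4399120257536 124 8 (.node .nil 4399120285697 224 16 .nil)) 4399120285704 194 16 (.node (.node .nil 4399120286208 127 8 .nil) 4399120515073 214 16 (.node .nil 4399120515080 10 16 .nil))) 4399120515136 191 16 (.node (.node (.node .nil 4399120515584 131 8 .nil) 4399122350081 153 8 (.node .nil 4399122350088 154 0x1000f .nil)) 4399122350144 159 8 (.node (.node .nil 4399122350592 135 8 .nil) 4406636449793 89 16 (.node .nil 4406636449800 169 0x1a01a00501a .nil))))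

private def t19 : Tri :=
  (.node (.node (.node (.node .nil 4406636450304 93 16 .nil) 4406636478465 107 16 (.node .nil 4406636478472 170 16 .nil)) 4406636478528 105 16 (.node (.node .nil 4406636478976 112 16 .nil) 4406636707841 91 16 (.node .nil 4406636707848 14 16 .nil))) 4406636707904 106 16 (.node (.node (.node .nil 4406636708352 98 16 .nil) 4406638542849 90 61456 (.node .nil 4406638542856 155 0x1000f .nil)) 4406638542912 156 16 (.node (.node .nil 4406638543360 162 8 .nil) 35184388870145 76 16 .nil)))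

private def t20 : Tri :=
  (.node t18 4406636449856 104 16 t19)

private def t21 : Tri :=
  (.node t17 4399120257032 176 0xf010000008 t20)

private def t22 : Tri :=
  (.node (.node (.node (.node .nil 35184388870208 16 16 .nil) 35184388870656 83 16 (.node .nil 35184388898817 102 16 .nil)) 35184388898824 179 16 (.node (.node .nil 35184388898880 20 16 .nil) 35184388899328 222 16 (.node .nil 35184389128193 101 16 .nil))) 35184389128200 3 16 (.node (.node (.node .nil 35184389128256 24 16 .nil) 35184389128704 215 16 (.node .nil 35184390963201 221 16 .nil)) 35184390963208 180 16 (.node (.node .nil 35184390963264 28 16 .nil) 35184390963712 161 16 (.node .nil 35184506310657 77 0x1000f .nil))))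

private def t23 : Tri :=
  (.node (.node (.node (.node .nil 35184506310720 17 16 .nil) 35184506339329 103 16 (.node .nil 35184506339336 115 16 .nil)) 35184506339392 21 16 (.node (.node .nil 35184506339840 114 16 .nil) 35184506568705 100 16 (.node .nil 35184506568712 7 16 .nil))) 35184506568768 25 16 (.node (.node (.node .nil 35184506569216 82 16 .nil) 35184508403713 209 16 (.node .nil 35184508403720 121 16 .nil)) 35184508403776 29 16 (.node (.node .nil 35184508404224 122 16 .nil) 35185445834753 137 0xf000010 .nil)))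

private def t24 : Tri :=
  (.node t22 35184506310664 55 16 t23)

private def t25 : Tri :=
  (.node (.node (.node (.node .nil 35185445834816 18 16 .nil) 35185445835264 86 8 (.node .nil 35185445863425 142 16 .nil)) 35185445863432 198 8 (.node (.node .nil 35185445863488 22 16 .nil) 35185445863936 128 8 (.node .nil 35185446092801 141 8 .nil))) 35185446092808 11 16 (.node (.node (.node .nil 35185446092864 26 16 .nil) 35185446093312 132 8 (.node .nil 35185447927809 225 8 .nil)) 35185447927816 199 16 (.node (.node .nil 35185447927872 30 16 .nil) 35185447928320 136 8 (.node .nil 35192962027521 88 16 .nil))))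

private def t26 : Tri :=
  (.node (.node (.node (.node .nil 35192962027584 19 16 .nil) 35192962028032 87 0xf00001000f010 (.node .nil 35192962056193 108 16 .nil)) 35192962056200 171 16 (.node (.node .nil 35192962056256 23 16 .nil) 35192962056704 113 16 (.node .nil 35192962285569 92 16 .nil))) 35192962285576 15 16 (.node (.node (.node .nil 35192962285632 27 16 .nil) 35192962286080 99 16 (.node .nil 35192964120577 166 16 .nil)) 35192964120584 172 16 (.node (.node .nil 35192964120640 31 16 .nil) 35192964121088 163 16 .nil)))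

private def t27 : Tri :=
  (.node t25 35192962027528 169 0x1500501a005 t26)

private def t28 : Tri :=
  (.node t24 35185445834760 176 0xf01000f010 t27)

private def t29 : Tri :=
  (.node t21 35184388870152 54 16 t28)

private def t30 : Tri :=
  (.node t14 4398063292424 52 16 t29)

private def N : Tri := t30

private def S : List (List (ℕ × ℕ × ℕ)) :=
  [[(2, 8, 12)], [(2, 8, 13)], [(2, 8, 14)], [(2, 8, 15)], [(2, 9, 12)], [(2, 9, 13)], [(2, 9, 14)], [(2, 9, 15)
  ], [(2, 10, 12)], [(2, 10, 13)], [(2, 10, 14)], [(2, 10, 15)], [(2, 11, 12)], [(2, 11, 13)], [(2, 11, 14)], [(2, 11, 15)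
  ], [(7, 4, 8)], [(7, 4, 9)], [(7, 4, 10)], [(7, 4, 11)], [(7, 5, 8)], [(7, 5, 9)], [(7, 5, 10)], [(7, 5, 11)
  ], [(7, 6, 8)], [(7, 6, 9)], [(7, 6, 10)], [(7, 6, 11)], [(7, 7, 8)], [(7, 7, 9)], [(7, 7, 10)], [(7, 7, 11)
  ], [(16, 0, 4)], [(16, 0, 5)], [(16, 0, 6)], [(16, 0, 7)], [(16, 1, 4)], [(16, 1, 5)], [(16, 1, 7)], [(16, 2, 4)
  ], [(16, 2, 5)], [(16, 2, 6)], [(16, 2, 7)], [(16, 3, 4)], [(16, 3, 5)], [(16, 3, 6)], [(16, 3, 7)], [(9, 1, 8)
  , (10, 1, 8)], [(12, 2, 8)], [(8, 7, 8)], [(9, 2, 8)], [(11, 2, 8)], [(8, 4, 8)], [(11, 1, 8)], [(12, 1, 8)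
  ], [(4, 4, 15)], [(15, 1, 4)], [(12, 1, 9)], [(4, 4, 12)], [(4, 4, 13)], [(9, 1, 9), (10, 1, 9)], [(11, 1, 9)
  ], [(4, 4, 14)], [(1, 9, 12)], [(4, 5, 12)], [(15, 2, 7)], [(15, 2, 4)], [(12, 2, 9)], [(8, 4, 9)], [(11, 2, 9)
  , (9, 2, 9)], [(8, 7, 9)], [(1, 9, 13)], [(4, 5, 13)], [(1, 9, 14)], [(4, 5, 14)], [(6, 4, 8)], [(12, 0, 8)
  ], [(6, 4, 9), (12, 0, 9), (15, 0, 4)], [(15, 2, 5)], [(6, 6, 9)], [(15, 2, 6)], [(0, 9, 13)], [(4, 6, 15)
  ], [(15, 3, 4)], [(12, 3, 8)], [(5, 4, 12)], [(5, 4, 15)], [(6, 4, 11), (3, 4, 13), (12, 3, 11), (13, 3, 4)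
  , (3, 4, 12)], [(12, 0, 11)], [(14, 0, 4)], [(9, 0, 11), (11, 0, 11)], [(10, 0, 11)], [(14, 0, 6)], [(14, 3, 4)
  ], [(3, 4, 14)], [(9, 0, 9), (11, 0, 9)], [(10, 0, 9)], [(4, 6, 14)], [(3, 6, 14)], [(14, 3, 6)], [(3, 6, 15)
  ], [(15, 0, 6)], [(0, 8, 15)], [(15, 0, 5)], [(14, 2, 4)], [(14, 2, 5)], [(14, 2, 6)], [(0, 11, 14)], [(14, 0, 5)
  ], [(8, 5, 9)], [(8, 6, 9)], [(0, 9, 14)], [(3, 5, 14)], [(14, 3, 5)], [(3, 5, 15)], [(4, 5, 15)], [(4, 6, 12)
  ], [(4, 6, 13)], [(4, 7, 12)], [(4, 7, 13)], [(4, 7, 14)], [(1, 9, 15)], [(4, 7, 15)], [(5, 4, 13)], [(5, 4, 14)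
  ], [(5, 5, 12)], [(5, 5, 13)], [(5, 5, 14)], [(5, 5, 15)], [(5, 6, 12)], [(5, 6, 13)], [(5, 6, 14)], [(5, 6, 15)
  ], [(5, 7, 12)], [(5, 7, 13)], [(5, 7, 14)], [(5, 7, 15)], [(12, 0, 10), (13, 0, 4), (6, 4, 10)], [(6, 5, 8)
  ], [(6, 5, 9)], [(6, 6, 8)], [(13, 0, 6)], [(0, 10, 15)], [(13, 0, 5)], [(6, 5, 10)], [(6, 5, 11)], [(6, 6, 10)
  ], [(6, 6, 11)], [(6, 7, 8)], [(6, 7, 9)], [(6, 7, 10)], [(6, 7, 11)], [(9, 0, 8)], [(9, 0, 10)], [(10, 1, 10)
  , (9, 1, 10)], [(10, 1, 11), (9, 1, 11)], [(14, 2, 7)], [(9, 2, 11)], [(13, 2, 7)], [(9, 2, 10)], [(3, 7, 12)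
  ], [(15, 3, 7)], [(9, 3, 11)], [(14, 3, 7)], [(13, 3, 7)], [(9, 3, 8)], [(14, 0, 7)], [(11, 2, 11)], [(12, 2, 11)
  ], [(8, 4, 11), (12, 1, 11), (11, 1, 11), (14, 1, 4)], [(1, 11, 14)], [(14, 1, 5)], [(14, 1, 7)], [(13, 2, 4)
  ], [(12, 2, 10)], [(11, 2, 10)], [(13, 1, 4), (11, 1, 10), (8, 4, 10), (12, 1, 10)], [(1, 8, 12)], [(1, 8, 14)
  ], [(15, 1, 5)], [(1, 8, 15)], [(1, 10, 12)], [(8, 6, 8)], [(10, 2, 8)], [(0, 8, 12)], [(10, 2, 9)], [(0, 9, 12)
  ], [(10, 2, 11)], [(0, 11, 12)], [(13, 2, 5)], [(0, 10, 12)], [(10, 2, 10)], [(8, 6, 10)], [(0, 10, 13)], [(1, 10, 14)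
  ], [(8, 5, 10)], [(1, 10, 13)], [(1, 11, 12)], [(13, 1, 5)], [(1, 10, 15)], [(8, 6, 11)], [(0, 11, 13)], [(8, 5, 11)
  ], [(1, 11, 13)], [(3, 5, 12)], [(3, 5, 13)], [(3, 6, 12)], [(3, 6, 13)], [(3, 7, 13)], [(3, 7, 15)], [(8, 5, 8)
  ], [(8, 7, 10)], [(8, 7, 11)], [(10, 0, 8)], [(10, 0, 10)], [(15, 3, 6)], [(13, 3, 6)], [(10, 3, 8)], [(11, 0, 8)
  ], [(11, 0, 10)], [(11, 3, 8)], [(15, 0, 7)], [(15, 3, 5)], [(0, 8, 14)], [(0, 10, 14)], [(13, 0, 7)], [(13, 3, 5)
  ]]

private theorem h0 : chk 12 5 7 31 N (okM 16 4) (rwS L1 L2) S = true := by decide +kernel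

theorem ok : (sm true 16 1 2 ∅ ∅).OK :=
  ok_of_chk _ 16 4 rfl rfl P1 P2 T F L1 L2 (r := 248) N S (by decide +kernel) (by decide +kernel)
    (by decide +kernel) (by decide +kernel) (by decide +kernel) h0 (by decide +kernel)
    (by decide +kernel) (by decide +kernel) (by decide +kernel) (by decide +kernel)

end Pool.Agent.KZ.AL.Ck.T334_1210_0
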