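import Pool.Agent.KZ.AL.OkC

/-! # KZ4, ALPHA: finite check T334_1210_P (generated) -/

set_option autoImplicit false
set_option maxRecDepth 100000

namespace Pool.Agent.KZ.AL.Ck.T334_1210_P

open Pool.Agent.KZ (Tri chk rwS)
open Finset (range)

/-- The positions of the T-points. -/
private def P1 : List ((ℕ × ℕ × ℕ) × List (ℕ × ℤ)) :=
  [((0, 1, 0), [(1, 1), (2, 1), (5, 1)]), ((0, 1, 1), [(3, 1), (7, 1)]),
   ((0, 1, 2), [(3, 1), (4, 1), (6, 1)]), ((0, 2, 0), [(1, -1), (2, -1), (8, 4), (9, 1), (10, 2)]),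
   ((0, 2, 1), [(1, 1), (8, 1), (9, 3), (11, 1)]), ((0, 2, 2), [(1, 4), (10, 1)]),
   ((0, 3, 0), [(0, 1), (14, 1), (15, 1)]), ((0, 3, 1), [(0, 1), (1, 4), (3, 1), (12, 1), (13, 1)]),
   ((0, 3, 2), [(2, 1), (3, 1), (13, 3), (15, 4)]), ((1, 3, 0), [(5, 1), (6, 2), (15, 1)]),
   ((1, 3, 1), [(6, 1), (7, 3), (14, 1)]), ((1, 3, 2), [(4, 1), (5, 1), (14, 1)]),
   ((1, 3, 3), [(4, 1), (15, 1)]), ((2, 3, 0), [(11, 1), (13, 1), (14, 1)]),
   ((2, 3, 1), [(8, 1), (13, 1), (14, 1)]), ((2, 3, 2), [(9, 1), (10, 1), (12, 1), (15, 1)]),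
   ((2, 3, 3), [(9, 1), (11, 1), (12, 1)])]

/-- The positions of the free items. -/
private def P2 : List ((ℕ × ℕ × ℕ) × List (ℕ × ℤ)) :=
  []

private def T : List (ℕ × ℕ × ℕ) :=
  [(0, 1, 0), (0, 1, 1), (0, 1, 2), (0, 2, 0), (0, 2, 1), (0, 2, 2), (0, 3, 0), (0, 3, 1),
   (0, 3, 2), (1, 3, 0), (1, 3, 1), (1, 3, 2), (1, 3, 3), (2, 3, 0), (2, 3, 1), (2, 3, 2),
   (2, 3, 3)]

private def F : List (ℕ × ℕ × ℕ) :=
  []

private def L1 : List (List (ℕ × ℕ)) :=
  [[(1, 1), (2, 1), (5, 1)], [(3, 1), (7, 1)], [(3, 1), (4, 1), (6, 1)],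
   [(1, 30), (2, 30), (8, 4), (9, 1), (10, 2)], [(1, 1), (8, 1), (9, 3), (11, 1)], [(1, 4), (10, 1)],
   [(0, 1), (14, 1), (15, 1)], [(0, 1), (1, 4), (3, 1), (12, 1), (13, 1)], [(2, 1), (3, 1), (13, 3), (15, 4)],
   [(5, 1), (6, 2), (15, 1)], [(6, 1), (7, 3), (14, 1)], [(4, 1), (5, 1), (14, 1)],
   [(4, 1), (15, 1)], [(11, 1), (13, 1), (14, 1)], [(8, 1), (13, 1), (14, 1)],
   [(9, 1), (10, 1), (12, 1), (15, 1)], [(9, 1), (11, 1), (12, 1)]]

private def L2 : List (List (ℕ × ℕ)) :=
  []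

private def t0 : Tri :=
  (.node (.node (.node (.node .nil 68736258049 232 16 .nil) 68736258056 207 16 (.node .nil 68736258112 229 27 .nil)) 68736258560 96 16 (.node (.node .nil 68736286721 235 16 .nil) 68736286728 80 16 (.node .nil 68736286784 81 16 .nil))) 68736516097 238 16 (.node (.node (.node .nil 68736516104 208 16 .nil) 68736516160 230 27 (.node .nil 68738351105 241 16 .nil)) 68738351112 209 16 (.node (.node .nil 68738351168 231 27 .nil) 68738351616 0 16 (.node .nil 68853698561 193 16 .nil))))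

private def t1 : Tri :=
  (.node (.node (.node (.node .nil 68853699072 98 16 .nil) 68853727233 196 16 (.node .nil 68853727240 78 16 .nil)) 68853727296 82 16 (.node (.node .nil 68853956609 200 16 .nil) 68853956616 197 16 (.node .nil 68855791617 203 16 .nil))) 68855792128 4 16 (.node (.node (.node .nil 69793222657 221 16 .nil) 69793222664 16 4 (.node .nil 69793222720 225 16 .nil)) 69793223168 110 16 (.node (.node .nil 69793251329 222 16 .nil) 69793251336 20 4 .nil)))

private def t2 : Tri :=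
  (.node t0 68853698568 190 16 t1)

private def t3 : Tri :=
  (.node (.node (.node (.node .nil 69793251840 228 16 .nil) 69793480705 223 16 (.node .nil 69793480712 24 4 .nil)) 69793480768 226 16 (.node (.node .nil 69793481216 111 16 .nil) 69795315713 224 16 (.node .nil 69795315720 28 4 .nil))) 69795315776 227 16 (.node (.node (.node .nil 69795316224 8 16 .nil) 77309415425 192 16 (.node .nil 77309415432 191 16 .nil)) 77309415488 204 16 (.node (.node .nil 77309415936 115 16 .nil) 77309444097 195 16 (.node .nil 77309444104 79 16 .nil))))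

private def t4 : Tri :=
  (.node (.node (.node (.node .nil 77309444608 194 16 .nil) 77309673473 199 16 (.node .nil 77309673480 198 16 .nil)) 77309673536 205 16 (.node (.node .nil 77309673984 116 16 .nil) 77311508481 202 16 (.node .nil 77311508488 201 16 .nil))) 77311508544 206 16 (.node (.node (.node .nil 77311508992 12 16 .nil) 549772595201 184 16 (.node .nil 549772595208 99 16 .nil)) 549772595264 50 26 (.node (.node .nil 549772595712 49 16 .nil) 549772623873 185 16 .nil)))

private def t5 : Tri :=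
  (.node t3 77309444160 95 16 t4)

private def t6 : Tri :=
  (.node t2 69793251392 91 16 t5)

private def t7 : Tri :=
  (.node (.node (.node (.node .nil 549772623936 55 16 .nil) 549772624384 57 16 (.node .nil 549772853249 186 16 .nil)) 549772853256 156 16 (.node (.node .nil 549772853312 157 26 .nil) 549772853760 97 16 (.node .nil 549774688257 187 16 .nil))) 549774688264 188 16 (.node (.node (.node .nil 549774688320 189 16 .nil) 549774688768 1 16 (.node .nil 549890035713 233 16 .nil)) 549890035720 101 26 (.node (.node .nil 549890035776 104 15 .nil) 549890036224 105 26 (.node .nil 549890064385 236 16 .nil))))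

private def t8 : Tri :=
  (.node (.node (.node (.node .nil 549890064448 84 16 .nil) 549890064896 218 26 (.node .nil 549890293761 239 16 .nil)) 549890293768 160 15 (.node (.node .nil 549890293824 158 26 .nil) 549890294272 106 16 (.node .nil 549892128769 242 16 .nil))) 549892128776 210 26 (.node (.node (.node .nil 549892128832 214 15 .nil) 549892129280 5 16 (.node .nil 550829559809 234 16 .nil)) 550829559816 17 4 (.node (.node .nil 550829559872 103 26 .nil) 550829560320 102 16 .nil)))

private def t9 : Tri :=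
  (.node t7 549890064392 83 26 t8)

private def t10 : Tri :=
  (.node (.node (.node (.node .nil 550829588488 21 4 .nil) 550829588544 92 16 (.node .nil 550829588992 219 26 .nil)) 550829817857 240 16 (.node (.node .nil 550829817864 25 4 .nil) 550829817920 159 26 (.node .nil 550831652865 243 16 .nil))) 550831652872 29 4 (.node (.node (.node .nil 550831652928 213 26 .nil) 550831653376 9 16 (.node .nil 558345752577 178 16 .nil)) 558345752584 100 16 (.node (.node .nil 558345752640 65 26 .nil) 558345753088 64 16 .nil)))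

private def t11 : Tri :=
  (.node (.node (.node (.node .nil 558345781256 69 16 .nil) 558345781312 70 16 (.node .nil 558345781760 72 16 .nil)) 558346010625 180 16 (.node (.node .nil 558346010632 161 16 .nil) 558346010688 171 26 (.node .nil 558346011136 117 16 .nil))) 558347845633 181 16 (.node (.node (.node .nil 558347845640 182 16 .nil) 558347845696 183 16 (.node .nil 558347846144 13 16 .nil)) 4398063292417 118 16 (.node (.node .nil 4398063292424 85 16 .nil) 4398063292480 51 16 .nil)))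

private def t12 : Tri :=
  (.node t10 558345781249 179 16 t11)

private def t13 : Tri :=
  (.node t9 550829588481 237 16 t12)

private def t14 : Tri :=
  (.node t6 549772623880 54 16 t13)

private def t15 : Tri :=
  (.node (.node (.node (.node .nil 4398063321089 122 16 .nil) 4398063321096 53 16 (.node .nil 4398063321152 52 16 .nil)) 4398063321600 56 16 (.node (.node .nil 4398063550465 131 16 .nil) 4398063550472 155 16 (.node .nil 4398063550528 166 16 .nil))) 4398063550976 47 16 (.node (.node (.node .nil 4398065385473 138 26 .nil) 4398065385536 167 26 (.node .nil 4398065385984 2 16 .nil)) 4398180732929 119 16 (.node (.node .nil 4398180732936 87 26 .nil) 4398180732992 174 16 (.node .nil 4398180733440 108 16 .nil))))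

private def t16 : Tri :=
  (.node (.node (.node (.node .nil 4398180761608 88 16 .nil) 4398180761664 89 16 (.node .nil 4398180762112 176 16 .nil)) 4398180990977 133 16 (.node (.node .nil 4398180990984 163 26 .nil) 4398180991040 169 15 (.node .nil 4398180991488 107 16 .nil))) 4398182825985 140 26 (.node (.node (.node .nil 4398182825992 164 26 .nil) 4398182826048 170 26 (.node .nil 4398182826496 6 16 .nil)) 4399120257025 120 16 (.node (.node .nil 4399120257032 18 4 .nil) 4399120257088 175 16 .nil)))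

private def t17 : Tri :=
  (.node t15 4398180761601 124 16 t16)

private def t18 : Tri :=
  (.node (.node (.node (.node .nil 4399120285697 126 16 .nil) 4399120285704 22 4 (.node .nil 4399120285760 93 16 .nil)) 4399120286208 177 16 (.node (.node .nil 4399120515073 135 16 .nil) 4399120515080 26 4 (.node .nil 4399120515136 168 16 .nil))) 4399120515584 112 16 (.node (.node (.node .nil 4399122350081 142 26 .nil) 4399122350088 30 4 (.node .nil 4399122350592 10 16 .nil)) 4406636449793 121 16 (.node (.node .nil 4406636449800 86 16 .nil) 4406636449856 66 16 .nil)))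

private def t19 : Tri :=
  (.node (.node (.node (.node .nil 4406636478465 128 16 .nil) 4406636478472 68 16 (.node .nil 4406636478528 67 16 .nil)) 4406636478976 71 16 (.node (.node .nil 4406636707841 137 16 .nil) 4406636707848 162 16 (.node .nil 4406636707904 172 16 .nil))) 4406636708352 62 16 (.node (.node (.node .nil 4406638542849 144 26 .nil) 4406638542856 165 26 (.node .nil 4406638542912 173 26 .nil)) 4406638543360 14 16 (.node (.node .nil 35184388870145 32 16 .nil) 35184388870152 36 16 .nil)))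

private def t20 : Tri :=
  (.node t18 4406636450304 63 16 t19)

private def t21 : Tri :=
  (.node t17 4399120257536 113 16 t20)

private def t22 : Tri :=
  (.node (.node (.node (.node .nil 35184388870656 43 16 .nil) 35184388898817 123 16 (.node .nil 35184388898824 61 16 .nil)) 35184388898880 60 4 (.node (.node .nil 35184388899328 59 16 .nil) 35184389128193 130 8 (.node .nil 35184389128200 146 8 .nil))) 35184389128256 149 8 (.node (.node (.node .nil 35184389128704 58 16 .nil) 35184390963201 139 16 (.node .nil 35184390963208 216 27 .nil)) 35184390963264 211 4 (.node (.node .nil 35184390963712 3 16 .nil) 35184506310657 33 16 (.node .nil 35184506310664 37 16 .nil))))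

private def t23 : Tri :=
  (.node (.node (.node (.node .nil 35184506311168 44 16 .nil) 35184506339329 125 16 (.node .nil 35184506339336 77 26 .nil)) 35184506339392 90 16 (.node (.node .nil 35184506339840 153 16 .nil) 35184506568705 132 8 (.node .nil 35184506568712 147 8 .nil))) 35184506568768 150 8 (.node (.node (.node .nil 35184506569216 109 16 .nil) 35184508403713 141 16 (.node .nil 35184508403720 212 16 .nil)) 35184508403776 215 4 (.node (.node .nil 35184508404224 7 16 .nil) 35185445834753 34 16 .nil)))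

private def t24 : Tri :=
  (.node t22 35184506310720 40 16 t23)

private def t25 : Tri :=
  (.node (.node (.node (.node .nil 35185445834816 41 16 .nil) 35185445835264 45 16 (.node .nil 35185445863425 127 16 .nil)) 35185445863432 23 4 (.node (.node .nil 35185445863488 94 16 .nil) 35185445863936 154 16 (.node .nil 35185446092801 134 8 .nil))) 35185446092808 27 4 (.node (.node (.node .nil 35185446092864 151 8 .nil) 35185446093312 114 16 (.node .nil 35185447927809 143 16 .nil)) 35185447927816 31 4 (.node (.node .nil 35185447928320 11 16 .nil) 35192962027521 35 16 .nil)))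

private def t26 : Tri :=
  (.node (.node (.node (.node .nil 35192962027584 42 16 .nil) 35192962028032 46 16 (.node .nil 35192962056193 129 16 .nil)) 35192962056200 76 16 (.node (.node .nil 35192962056256 75 4 .nil) 35192962056704 74 16 (.node .nil 35192962285569 136 8 .nil))) 35192962285576 148 8 (.node (.node (.node .nil 35192962285632 152 8 .nil) 35192962286080 73 16 (.node .nil 35192964120577 145 16 .nil)) 35192964120584 217 16 (.node (.node .nil 35192964120640 220 4 .nil) 35192964121088 15 16 .nil)))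

private def t27 : Tri :=
  (.node t25 35192962027528 38 16 t26)

private def t28 : Tri :=
  (.node t24 35185445834760 19 4 t27)

private def t29 : Tri :=
  (.node t21 35184388870208 39 16 t28)

private def t30 : Tri :=
  (.node t14 4398063292928 48 16 t29)

private def N : Tri := t30

private def S : List (List (ℕ × ℕ × ℕ)) :=
  [[(1, 8, 12)], [(1, 8, 13)], [(1, 8, 14)], [(1, 8, 15)], [(1, 9, 12)], [(1, 9, 13)], [(1, 9, 14)], [(1, 9, 15)
  ], [(1, 10, 12)], [(1, 10, 13)], [(1, 10, 14)], [(1, 10, 15)], [(1, 11, 12)], [(1, 11, 13)], [(1, 11, 14)], [(1, 11, 15)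
  ], [(5, 4, 12)], [(5, 4, 13)], [(5, 4, 14)], [(5, 4, 15)], [(5, 5, 12)], [(5, 5, 13)], [(5, 5, 14)], [(5, 5, 15)
  ], [(5, 6, 12)], [(5, 6, 13)], [(5, 6, 14)], [(5, 6, 15)], [(5, 7, 12)], [(5, 7, 13)], [(5, 7, 14)], [(5, 7, 15)
  ], [(12, 0, 8)], [(12, 0, 9)], [(12, 0, 10)], [(12, 0, 11)], [(12, 1, 8)], [(12, 1, 9)], [(12, 1, 11)], [(12, 2, 8)
  ], [(12, 2, 9)], [(12, 2, 10)], [(12, 2, 11)], [(12, 3, 8)], [(12, 3, 9)], [(12, 3, 10)], [(12, 3, 11)], [(10, 3, 8)
  ], [(2, 8, 14)], [(14, 3, 4)], [(8, 4, 8)], [(14, 2, 4)], [(11, 2, 8)], [(0, 8, 14)], [(14, 1, 5)], [(0, 8, 13)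
  ], [(11, 3, 8)], [(14, 3, 5)], [(2, 8, 15)], [(9, 3, 8)], [(8, 5, 8)], [(0, 8, 15)], [(10, 3, 11)], [(2, 11, 14)
  ], [(13, 3, 4)], [(8, 4, 11)], [(13, 2, 4)], [(11, 2, 11)], [(0, 11, 14)], [(13, 1, 5)], [(0, 11, 13)], [(11, 3, 11)
  ], [(13, 3, 5)], [(2, 11, 15)], [(9, 3, 11)], [(8, 5, 11)], [(0, 11, 15)], [(4, 5, 15)], [(15, 1, 5)], [(16, 1, 5)
  ], [(4, 5, 12)], [(0, 8, 12)], [(0, 9, 12)], [(4, 5, 13)], [(0, 9, 13)], [(11, 1, 8)], [(11, 1, 11)], [(4, 4, 14)
  ], [(11, 1, 9)], [(0, 9, 14)], [(0, 9, 15)], [(0, 10, 12)], [(0, 10, 13)], [(0, 10, 14)], [(0, 10, 15)], [(0, 11, 12)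
  ], [(2, 8, 12)], [(2, 8, 13)], [(2, 9, 12)], [(14, 1, 4)], [(13, 1, 4)], [(4, 4, 13)], [(2, 10, 13)], [(8, 4, 10)
  ], [(3, 4, 13)], [(8, 4, 9)], [(2, 9, 13)], [(10, 3, 9)], [(2, 9, 14)], [(2, 9, 15)], [(15, 3, 4)], [(2, 10, 12)
  ], [(10, 3, 10)], [(2, 10, 14)], [(2, 10, 15)], [(16, 3, 4)], [(2, 11, 12)], [(2, 11, 13)], [(6, 4, 8)], [(6, 4, 9)
  ], [(6, 4, 10)], [(6, 4, 11)], [(11, 0, 8)], [(6, 5, 8)], [(11, 0, 9)], [(6, 5, 9)], [(11, 0, 10)], [(6, 5, 10)
  ], [(11, 0, 11)], [(6, 5, 11)], [(9, 0, 8)], [(6, 6, 8)], [(9, 0, 9)], [(6, 6, 9)], [(9, 0, 10)], [(6, 6, 10)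
  ], [(9, 0, 11)], [(6, 6, 11)], [(10, 0, 8)], [(6, 7, 8)], [(10, 0, 9)], [(6, 7, 9)], [(10, 0, 10)], [(6, 7, 10)
  ], [(10, 0, 11)], [(6, 7, 11)], [(9, 1, 8)], [(9, 1, 9)], [(9, 1, 11)], [(9, 2, 8)], [(9, 2, 9)], [(9, 2, 10)
  ], [(9, 2, 11)], [(9, 3, 9)], [(9, 3, 10)], [(10, 1, 8)], [(14, 1, 6)], [(8, 6, 8)], [(8, 6, 9)], [(8, 6, 10)
  ], [(3, 6, 13)], [(4, 6, 13)], [(13, 1, 6)], [(4, 6, 14)], [(10, 1, 9)], [(10, 1, 11)], [(14, 2, 6)], [(10, 2, 8)
  ], [(10, 2, 10)], [(3, 6, 14)], [(10, 2, 9)], [(8, 6, 11)], [(13, 2, 6)], [(10, 2, 11)], [(11, 2, 9)], [(11, 2, 10)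
  ], [(11, 3, 9)], [(11, 3, 10)], [(13, 0, 4)], [(13, 0, 5)], [(13, 0, 6)], [(13, 0, 7)], [(13, 1, 7)], [(13, 2, 7)
  ], [(14, 0, 4)], [(14, 0, 5)], [(14, 0, 6)], [(14, 0, 7)], [(14, 1, 7)], [(14, 2, 7)], [(15, 1, 4)], [(16, 1, 4)
  ], [(7, 4, 11)], [(16, 0, 4)], [(16, 3, 5)], [(7, 5, 11)], [(16, 0, 5)], [(15, 1, 6)], [(16, 1, 6)], [(7, 6, 11)
  ], [(16, 0, 6)], [(16, 1, 7)], [(7, 7, 11)], [(16, 0, 7)], [(16, 2, 4)], [(16, 2, 6)], [(16, 2, 7)], [(4, 4, 12)
  ], [(4, 6, 12)], [(4, 7, 12)], [(4, 7, 13)], [(8, 7, 8)], [(15, 1, 7)], [(8, 7, 10)], [(3, 7, 13)], [(8, 7, 9)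
  ], [(3, 7, 15)], [(4, 7, 15)], [(8, 5, 9)], [(8, 5, 10)], [(8, 7, 11)], [(15, 0, 4)], [(15, 0, 5)], [(15, 0, 6)
  ], [(15, 0, 7)], [(15, 2, 4)], [(15, 2, 6)], [(15, 2, 7)], [(15, 3, 5)], [(3, 4, 12)], [(3, 6, 12)], [(3, 7, 12)
  ], [(7, 4, 8)], [(7, 4, 9)], [(7, 4, 10)], [(7, 5, 8)], [(7, 5, 9)], [(7, 5, 10)], [(7, 6, 8)], [(7, 6, 9)
  ], [(7, 6, 10)], [(7, 7, 8)], [(7, 7, 9)], [(7, 7, 10)]]

private theorem h0 : chk 19 5 14 31 N (okM 16 4) (rwS L1 L2) S = true := by decide +kernel

theorem ok : (sm true 16 1 2 {(0, {1, 2}, 0)} ∅).OK :=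
  ok_of_chk _ 16 4 rfl rfl P1 P2 T F L1 L2 (r := 244) N S (by decide +kernel) (by decide +kernel)
    (by decide +kernel) (by decide +kernel) (by decide +kernel) h0 (by decide +kernel)
    (by decide +kernel) (by decide +kernel) (by decide +kernel) (by decide +kernel)

end Pool.Agent.KZ.AL.Ck.T334_1210_P
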