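import Pool.Agent.KZ.AL.OkC

/-! # KZ4, ALPHA: finite check T334_1300_0 (generated) -/

set_option autoImplicit false
set_option maxRecDepth 100000

namespace Pool.Agent.KZ.AL.Ck.T334_1300_0

open Pool.Agent.KZ (Tri chk rwS)
open Finset (range)

/-- The positions of the T-points. -/
private def P1 : List ((ℕ × ℕ × ℕ) × List (ℕ × ℤ)) :=
  [((0, 1, 0), [(0, 1), (4, 4), (7, 4)]), ((0, 1, 1), [(0, 1), (1, 1), (4, 1), (6, 4)]),
   ((0, 1, 2), [(0, 1), (1, 2), (3, 1), (5, 1), (6, 1)]), ((0, 2, 0), [(0, 4), (2, 1), (9, 2), (10, 1)]),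
   ((0, 2, 1), [(1, 1), (2, 1), (8, 1), (11, 2)]), ((0, 2, 2), [(0, 1), (2, 1), (8, 1)]),
   ((0, 3, 0), [(3, 1), (12, 1), (13, 1)]), ((0, 3, 1), [(3, 1), (14, 2), (15, 1)]),
   ((0, 3, 2), [(3, 1), (13, 1)])]

/-- The positions of the free items. -/
private def P2 : List ((ℕ × ℕ × ℕ) × List (ℕ × ℤ)) :=
  []

private def T : List (ℕ × ℕ × ℕ) :=
  [(0, 1, 0), (0, 1, 1), (0, 1, 2), (0, 2, 0), (0, 2, 1), (0, 2, 2), (0, 3, 0), (0, 3, 1),
   (0, 3, 2)]

private def F : List (ℕ × ℕ × ℕ) :=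
  []

private def L1 : List (List (ℕ × ℕ)) :=
  [[(0, 1), (4, 4), (7, 4)], [(0, 1), (1, 1), (4, 1), (6, 4)], [(0, 1), (1, 2), (3, 1), (5, 1), (6, 1)],
   [(0, 4), (2, 1), (9, 2), (10, 1)], [(1, 1), (2, 1), (8, 1), (11, 2)], [(0, 1), (2, 1), (8, 1)],
   [(3, 1), (12, 1), (13, 1)], [(3, 1), (14, 2), (15, 1)], [(3, 1), (13, 1)]]

private def L2 : List (List (ℕ × ℕ)) :=
  []

private def t0 : Tri :=
  (.node (.node (.node (.node (.node .nil 68736258056 84 16 .nil) 68736258112 36 16 .nil) 68736258560 52 16 (.node .nil 68736286721 40 16 .nil)) 68736286728 116 8 (.node (.node (.node .nil 68736287232 56 16 .nil) 68736516160 44 16 .nil) 68736516608 60 16 (.node .nil 68738351105 16 4 .nil))) 68738351112 128 16 (.node (.node (.node (.node .nil 68738351168 48 16 .nil) 68738351616 64 16 .nil) 68853698568 88 16 (.node .nil 68853698624 96 8 .nil)) 68853699072 53 16 (.node (.node .nil 68853727240 132 8 .nil) 68853727296 100 8 (.node .nil 68853727744 57 16 .nil))))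

private def t1 : Tri :=
  (.node (.node (.node (.node (.node .nil 68853957120 61 16 .nil) 68855791617 20 4 .nil) 68855791680 108 8 (.node .nil 68855792128 65 16 .nil)) 69793222664 92 16 (.node (.node .nil 69793223168 54 16 .nil) 69793251336 136 8 (.node .nil 69793251840 58 16 .nil))) 69793481216 62 16 (.node (.node (.node (.node .nil 69795315713 24 4 .nil) 69795316224 66 16 .nil) 77309415425 28 16 (.node .nil 77309415488 112 8 .nil)) 77309415936 55 16 (.node (.node .nil 77309444097 140 16 .nil) 77309444160 117 8 (.node .nil 77309444608 59 16 .nil))))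

private def t2 : Tri :=
  (.node t0 68853956672 104 8 t1)

private def t3 : Tri :=
  (.node (.node (.node (.node (.node .nil 77309673984 63 16 .nil) 77311508481 29 4 .nil) 77311508992 67 16 (.node .nil 549772595208 85 16 .nil)) 549772595264 37 16 (.node (.node .nil 549772595712 0 16 .nil) 549772623873 41 16 (.node .nil 549772623880 118 8 .nil))) 549772624384 4 16 (.node (.node (.node (.node .nil 549772853312 45 16 .nil) 549772853760 8 16 .nil) 549774688257 17 4 (.node .nil 549774688264 129 16 .nil)) 549774688320 49 16 (.node (.node .nil 549774688768 12 16 .nil) 549890035720 89 16 (.node .nil 549890035776 97 8 .nil))))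

private def t4 : Tri :=
  (.node (.node (.node (.node (.node .nil 549890064392 133 8 .nil) 549890064448 101 8 .nil) 549890064896 5 16 (.node .nil 549890293824 105 8 .nil)) 549890294272 9 16 (.node (.node .nil 549892128769 21 4 .nil) 549892128832 109 8 (.node .nil 549892129280 13 16 .nil))) 550829559816 93 16 (.node (.node (.node (.node .nil 550829560320 2 16 .nil) 550829588488 137 8 .nil) 550829588992 6 16 (.node .nil 550829818368 10 16 .nil)) 550831652865 25 4 (.node (.node .nil 550831653376 14 16 .nil) 558345752577 30 16 (.node .nil 558345752640 113 8 .nil))))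

private def t5 : Tri :=
  (.node t3 549890036224 1 16 t4)

private def t6 : Tri :=
  (.node t2 77309673536 124 8 t5)

private def t7 : Tri :=
  (.node (.node (.node (.node (.node .nil 558345781249 141 16 .nil) 558345781312 119 8 .nil) 558345781760 7 16 (.node .nil 558346010688 125 8 .nil)) 558346011136 11 16 (.node (.node .nil 558347845633 31 4 .nil) 558347846144 15 16 (.node .nil 4398063292424 86 16 .nil))) 4398063292480 38 16 (.node (.node (.node (.node .nil 4398063292928 68 8 .nil) 4398063321089 42 16 .nil) 4398063321096 120 8 (.node .nil 4398063321600 72 8 .nil)) 4398063550528 46 16 (.node (.node .nil 4398063550976 76 8 .nil) 4398065385473 18 4 (.node .nil 4398065385480 130 16 .nil))))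

private def t8 : Tri :=
  (.node (.node (.node (.node (.node .nil 4398065385984 80 8 .nil) 4398180732936 90 16 .nil) 4398180732992 98 8 (.node .nil 4398180733440 69 8 .nil)) 4398180761608 134 8 (.node (.node .nil 4398180761664 102 8 .nil) 4398180762112 73 8 (.node .nil 4398180991040 106 8 .nil))) 4398180991488 77 8 (.node (.node (.node (.node .nil 4398182825985 22 4 .nil) 4398182826048 110 8 .nil) 4398182826496 81 8 (.node .nil 4399120257032 94 16 .nil)) 4399120257536 70 8 (.node (.node .nil 4399120285704 138 8 .nil) 4399120286208 74 8 (.node .nil 4399120515584 78 8 .nil))))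

private def t9 : Tri :=
  (.node t7 4398065385536 50 16 t8)

private def t10 : Tri :=
  (.node (.node (.node (.node (.node .nil 4399122350592 82 8 .nil) 4406636449793 32 16 .nil) 4406636449856 114 8 (.node .nil 4406636450304 71 8 .nil)) 4406636478465 142 16 (.node (.node .nil 4406636478528 121 8 .nil) 4406636478976 75 8 (.node .nil 4406636707904 126 8 .nil))) 4406636708352 79 8 (.node (.node (.node (.node .nil 4406638542849 33 4 .nil) 4406638543360 83 8 .nil) 35184388870152 87 16 (.node .nil 35184388870208 39 16 .nil)) 35184388898817 43 16 (.node (.node .nil 35184388898824 122 8 .nil) 35184389128256 47 16 (.node .nil 35184390963201 19 4 .nil))))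

private def t11 : Tri :=
  (.node (.node (.node (.node (.node .nil 35184390963264 51 16 .nil) 35184506310664 91 16 .nil) 35184506310720 99 8 (.node .nil 35184506339336 135 8 .nil)) 35184506339392 103 8 (.node (.node .nil 35184506568768 107 8 .nil) 35184508403713 23 4 (.node .nil 35184508403776 111 8 .nil))) 35185445834760 95 16 (.node (.node (.node (.node .nil 35185445863432 139 8 .nil) 35185447927809 27 4 .nil) 35192962027521 34 16 (.node .nil 35192962027584 115 8 .nil)) 35192962056193 143 16 (.node (.node .nil 35192962056256 123 8 .nil) 35192962285632 127 8 (.node .nil 35192964120577 35 4 .nil))))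

private def t12 : Tri :=
  (.node t10 35184390963208 131 16 t11)

private def t13 : Tri :=
  (.node t9 4399122350081 26 4 t12)

private def t14 : Tri :=
  (.node t6 558345753088 3 16 t13)

private def N : Tri := t14

private def S : List (List (ℕ × ℕ × ℕ)) :=
  [[(8, 4, 8)], [(8, 4, 9)], [(8, 4, 10)], [(8, 4, 11)], [(8, 5, 8)], [(8, 5, 9)], [(8, 5, 10)], [(8, 5, 11)
  ], [(8, 6, 8)], [(8, 6, 9)], [(8, 6, 10)], [(8, 6, 11)], [(8, 7, 8)], [(8, 7, 9)], [(8, 7, 10)], [(8, 7, 11)
  ], [(0, 8, 12)], [(0, 8, 13)], [(0, 8, 14)], [(0, 8, 15)], [(0, 9, 12)], [(0, 9, 13)], [(0, 9, 14)], [(0, 9, 15)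
  ], [(0, 10, 12)], [(0, 10, 13)], [(0, 10, 14)], [(0, 10, 15)], [(1, 11, 12)], [(0, 11, 12)], [(1, 11, 13)], [(0, 11, 13)
  ], [(1, 11, 14)], [(0, 11, 14)], [(1, 11, 15)], [(0, 11, 15)], [(5, 4, 12)], [(5, 4, 13)], [(5, 4, 14)], [(5, 4, 15)
  ], [(5, 5, 12)], [(5, 5, 13)], [(5, 5, 14)], [(5, 5, 15)], [(5, 6, 12)], [(5, 6, 13)], [(5, 6, 14)], [(5, 6, 15)
  ], [(5, 7, 12)], [(5, 7, 13)], [(5, 7, 14)], [(5, 7, 15)], [(6, 4, 8)], [(6, 4, 9)], [(6, 4, 10)], [(6, 4, 11)
  ], [(6, 5, 8)], [(6, 5, 9)], [(6, 5, 10)], [(6, 5, 11)], [(6, 6, 8)], [(6, 6, 9)], [(6, 6, 10)], [(6, 6, 11)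
  ], [(6, 7, 8)], [(6, 7, 9)], [(6, 7, 10)], [(6, 7, 11)], [(7, 4, 8)], [(7, 4, 9)], [(7, 4, 10)], [(7, 4, 11)
  ], [(7, 5, 8)], [(7, 5, 9)], [(7, 5, 10)], [(7, 5, 11)], [(7, 6, 8)], [(7, 6, 9)], [(7, 6, 10)], [(7, 6, 11)
  ], [(7, 7, 8)], [(7, 7, 9)], [(7, 7, 10)], [(7, 7, 11)], [(1, 8, 12)], [(1, 8, 13)], [(1, 8, 14)], [(1, 8, 15)
  ], [(1, 9, 12)], [(1, 9, 13)], [(1, 9, 14)], [(1, 9, 15)], [(1, 10, 12)], [(1, 10, 13)], [(1, 10, 14)], [(1, 10, 15)
  ], [(3, 4, 12)], [(3, 4, 13)], [(3, 4, 14)], [(3, 4, 15)], [(3, 5, 12)], [(3, 5, 13)], [(3, 5, 14)], [(3, 5, 15)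
  ], [(3, 6, 12)], [(3, 6, 13)], [(3, 6, 14)], [(3, 6, 15)], [(3, 7, 12)], [(3, 7, 13)], [(3, 7, 14)], [(3, 7, 15)
  ], [(4, 4, 12)], [(4, 4, 13)], [(4, 4, 14)], [(4, 4, 15)], [(2, 8, 12)], [(4, 5, 12)], [(2, 8, 13)], [(4, 5, 13)
  ], [(2, 8, 14)], [(4, 5, 14)], [(2, 8, 15)], [(4, 5, 15)], [(4, 6, 12)], [(4, 6, 13)], [(4, 6, 14)], [(4, 6, 15)
  ], [(4, 7, 12)], [(4, 7, 13)], [(4, 7, 14)], [(4, 7, 15)], [(2, 9, 12)], [(2, 9, 13)], [(2, 9, 14)], [(2, 9, 15)
  ], [(2, 10, 12)], [(2, 10, 13)], [(2, 10, 14)], [(2, 10, 15)], [(2, 11, 12)], [(2, 11, 13)], [(2, 11, 14)], [(2, 11, 15)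
  ]]

private theorem h0 : chk 13 5 8 31 N (okM 16 4) (rwS L1 L2) S = true := by decide +kernel

theorem ok : (sm true 16 1 3 ∅ ∅).OK :=
  ok_of_chk _ 16 4 rfl rfl P1 P2 T F L1 L2 (r := 144) N S (by decide +kernel) (by decide +kernel)
    (by decide +kernel) (by decide +kernel) (by decide +kernel) h0 (by decide +kernel)
    (by decide +kernel) (by decide +kernel) (by decide +kernel) (by decide +kernel)

end Pool.Agent.KZ.AL.Ck.T334_1300_0
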