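import Pool.Agent.KZ.AL.OkC

/-! # KZ4, ALPHA: finite check T334_1300_P12 (generated) -/

set_option autoImplicit false
set_option maxRecDepth 100000

namespace Pool.Agent.KZ.AL.Ck.T334_1300_P12

open Pool.Agent.KZ (Tri chk rwS)
open Finset (range)

/-- The positions of the T-points. -/
private def P1 : List ((ℕ × ℕ × ℕ) × List (ℕ × ℤ)) :=
  [((0, 1, 0), [(0, 1), (5, 2), (6, 2)]), ((0, 1, 1), [(2, 1), (3, 2), (6, 4)]),
   ((0, 1, 2), [(2, 2), (5, 1), (6, 2)]), ((0, 2, 0), [(0, -1), (9, 4), (10, 1)]),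
   ((0, 2, 1), [(1, 1), (9, 1)]), ((0, 2, 2), [(1, 1), (10, 1), (11, 2)]),
   ((0, 3, 0), [(1, 1), (3, 1), (12, 1), (13, 1), (14, 1)]), ((0, 3, 1), [(1, 3), (3, 4), (12, 1)]),
   ((0, 3, 2), [(3, 1), (14, 1), (15, 1)])]

/-- The positions of the free items. -/
private def P2 : List ((ℕ × ℕ × ℕ) × List (ℕ × ℤ)) :=
  []

private def T : List (ℕ × ℕ × ℕ) :=
  [(0, 1, 0), (0, 1, 1), (0, 1, 2), (0, 2, 0), (0, 2, 1), (0, 2, 2), (0, 3, 0), (0, 3, 1),
   (0, 3, 2)]

private def F : List (ℕ × ℕ × ℕ) :=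
  []

private def L1 : List (List (ℕ × ℕ)) :=
  [[(0, 1), (5, 2), (6, 2)], [(2, 1), (3, 2), (6, 4)], [(2, 2), (5, 1), (6, 2)],
   [(0, 30), (9, 4), (10, 1)], [(1, 1), (9, 1)], [(1, 1), (10, 1), (11, 2)],
   [(1, 1), (3, 1), (12, 1), (13, 1), (14, 1)], [(1, 3), (3, 4), (12, 1)], [(3, 1), (14, 1), (15, 1)]]

private def L2 : List (List (ℕ × ℕ)) :=
  []

private def t0 : Tri :=
  (.node (.node (.node (.node (.node .nil 68736258056 102 26 .nil) 68736286721 16 8 .nil) 68736286728 106 26 (.node .nil 68736286784 65 8 .nil)) 68736516104 110 26 (.node (.node .nil 68736516160 36 4 .nil) 68738351112 111 26 (.node .nil 68853698561 81 27 .nil))) 68853698568 0 16 (.node (.node (.node (.node .nil 68853699072 103 4 .nil) 68853727233 21 27 .nil) 68853727240 4 16 (.node .nil 68853727296 69 8 .nil)) 68853727744 107 4 (.node (.node .nil 68853956609 22 8 .nil) 68853956616 8 16 (.node .nil 68853956672 42 4 .nil))))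

private def t1 : Tri :=
  (.node (.node (.node (.node (.node .nil 68855791617 85 27 .nil) 68855791624 12 16 .nil) 68855792128 112 4 (.node .nil 69793222664 89 16 .nil)) 69793223168 104 4 (.node (.node .nil 69793251329 20 8 .nil) 69793251336 93 16 (.node .nil 69793251392 73 8 .nil))) 69793251840 108 4 (.node (.node (.node (.node .nil 69793480712 49 16 .nil) 69793480768 51 4 .nil) 69793481216 50 4 (.node .nil 69795315720 98 16 .nil)) 69795316224 113 4 (.node (.node .nil 77309415936 105 4 .nil) 77309444097 32 8 (.node .nil 77309444160 77 8 .nil))))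

private def t2 : Tri :=
  (.node t0 68853957120 41 4 t1)

private def t3 : Tri :=
  (.node (.node (.node (.node (.node .nil 77309673480 48 26 .nil) 77309673536 60 4 .nil) 77311508992 114 4 (.node .nil 549772595208 127 16 .nil)) 549772623873 17 8 (.node (.node .nil 549772623880 131 16 .nil) 549772623936 66 8 (.node .nil 549772853256 135 16 .nil))) 549772853312 37 4 (.node (.node (.node (.node .nil 549774688264 136 16 .nil) 549890035713 82 27 .nil) 549890035720 1 16 (.node .nil 549890036224 128 16 .nil)) 549890064385 24 27 (.node (.node .nil 549890064392 5 16 .nil) 549890064448 70 8 (.node .nil 549890064896 132 16 .nil))))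

private def t4 : Tri :=
  (.node (.node (.node (.node (.node .nil 549890293768 9 16 .nil) 549890293824 44 4 .nil) 549890294272 43 16 (.node .nil 549892128769 86 27 .nil)) 549892128776 13 16 (.node (.node .nil 549892129280 137 16 .nil) 550829559816 90 16 (.node .nil 550829560320 129 16 .nil))) 550829588481 23 8 (.node (.node (.node .nil 550829588488 94 16 .nil) 550829588544 74 8 (.node .nil 550829588992 133 16 .nil)) 550829817864 53 16 (.node (.node .nil 550829817920 56 4 .nil) 550829818368 55 16 (.node .nil 550831652872 99 16 .nil))))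

private def t5 : Tri :=
  (.node t3 549890293761 25 8 t4)

private def t6 : Tri :=
  (.node t2 77309444608 109 4 t5)

private def t7 : Tri :=
  (.node (.node (.node (.node (.node .nil 558345753088 130 16 .nil) 558345781249 33 8 .nil) 558345781312 78 8 (.node .nil 558345781760 134 16 .nil)) 558346010632 52 16 (.node (.node .nil 558346010688 61 4 .nil) 558347846144 139 16 (.node .nil 4398063321089 18 8 .nil))) 4398063321152 67 8 (.node (.node (.node (.node .nil 4398063550528 38 4 .nil) 4398180732929 83 27 .nil) 4398180732936 2 16 (.node .nil 4398180761601 27 27 .nil)) 4398180761608 6 16 (.node (.node .nil 4398180761664 71 8 .nil) 4398180990977 28 8 (.node .nil 4398180990984 10 16 .nil))))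

private def t8 : Tri :=
  (.node (.node (.node (.node (.node .nil 4398182825985 87 27 .nil) 4398182825992 14 16 .nil) 4399120257032 91 16 (.node .nil 4399120285697 26 8 .nil)) 4399120285704 95 16 (.node (.node .nil 4399120285760 75 8 .nil) 4399120515080 54 16 (.node .nil 4399120515136 57 4 .nil))) 4399122350088 100 16 (.node (.node (.node .nil 4406636478465 34 8 .nil) 4406636478528 79 8 (.node .nil 4406636707904 62 4 .nil)) 35184388870656 115 16 (.node (.node .nil 35184388898817 19 8 .nil) 35184388898880 68 8 (.node .nil 35184388899328 119 16 .nil))))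

private def t9 : Tri :=
  (.node t7 4398180991040 45 4 t8)

private def t10 : Tri :=
  (.node (.node (.node (.node (.node .nil 35184389128704 39 16 .nil) 35184390963712 123 16 .nil) 35184506310657 84 27 (.node .nil 35184506310664 3 16 .nil)) 35184506311168 116 16 (.node (.node .nil 35184506339329 30 27 .nil) 35184506339336 7 16 (.node .nil 35184506339392 72 8 .nil))) 35184506339840 120 16 (.node (.node (.node (.node .nil 35184506568705 31 8 .nil) 35184506568712 11 16 .nil) 35184506568768 47 4 (.node .nil 35184506569216 46 16 .nil)) 35184508403713 88 27 (.node (.node .nil 35184508403720 15 16 .nil) 35184508404224 124 16 (.node .nil 35185445834760 92 16 .nil))))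

private def t11 : Tri :=
  (.node (.node (.node (.node (.node .nil 35185445863425 29 8 .nil) 35185445863432 96 16 .nil) 35185445863488 76 8 (.node .nil 35185445863936 121 16 .nil)) 35185446092808 97 16 (.node (.node .nil 35185446092864 59 4 .nil) 35185446093312 58 16 (.node .nil 35185447927816 101 16 .nil))) 35185447928320 125 16 (.node (.node (.node .nil 35192962028032 118 16 .nil) 35192962056193 35 8 (.node .nil 35192962056256 80 8 .nil)) 35192962056704 122 16 (.node (.node .nil 35192962285632 64 4 .nil) 35192962286080 63 16 (.node .nil 35192964121088 126 16 .nil))))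

private def t12 : Tri :=
  (.node t10 35185445835264 117 16 t11)

private def t13 : Tri :=
  (.node t9 35184389128256 40 4 t12)

private def t14 : Tri :=
  (.node t6 550831653376 138 16 t13)

private def N : Tri := t14

private def S : List (List (ℕ × ℕ × ℕ)) :=
  [[(4, 4, 12)], [(4, 4, 13)], [(4, 4, 14)], [(4, 4, 15)], [(4, 5, 12)], [(4, 5, 13)], [(4, 5, 14)], [(4, 5, 15)
  ], [(4, 6, 12)], [(4, 6, 13)], [(4, 6, 14)], [(4, 6, 15)], [(4, 7, 12)], [(4, 7, 13)], [(4, 7, 14)], [(4, 7, 15)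
  ], [(0, 8, 12)], [(0, 8, 13)], [(0, 8, 14)], [(0, 8, 15)], [(0, 10, 12)], [(3, 5, 12)], [(0, 9, 12)], [(0, 10, 13)
  ], [(3, 5, 13)], [(0, 9, 13)], [(0, 10, 14)], [(3, 5, 14)], [(0, 9, 14)], [(0, 10, 15)], [(3, 5, 15)], [(0, 9, 15)
  ], [(0, 11, 12)], [(0, 11, 13)], [(0, 11, 14)], [(0, 11, 15)], [(1, 8, 12)], [(1, 8, 13)], [(1, 8, 14)], [(8, 6, 8)
  ], [(1, 8, 15)], [(7, 6, 9)], [(1, 9, 12)], [(6, 6, 9)], [(1, 9, 13)], [(1, 9, 14)], [(8, 6, 9)], [(1, 9, 15)
  ], [(7, 6, 11)], [(5, 6, 12)], [(7, 6, 10)], [(1, 10, 12)], [(6, 6, 11)], [(5, 6, 13)], [(5, 6, 14)], [(6, 6, 10)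
  ], [(1, 10, 13)], [(1, 10, 14)], [(8, 6, 10)], [(1, 10, 15)], [(1, 11, 12)], [(1, 11, 13)], [(1, 11, 14)], [(8, 6, 11)
  ], [(1, 11, 15)], [(2, 8, 12)], [(2, 8, 13)], [(2, 8, 14)], [(2, 8, 15)], [(2, 9, 12)], [(2, 9, 13)], [(2, 9, 14)
  ], [(2, 9, 15)], [(2, 10, 12)], [(2, 10, 13)], [(2, 10, 14)], [(2, 10, 15)], [(2, 11, 12)], [(2, 11, 13)], [(2, 11, 14)
  ], [(2, 11, 15)], [(3, 4, 12)], [(3, 4, 13)], [(3, 4, 14)], [(3, 4, 15)], [(3, 7, 12)], [(3, 7, 13)], [(3, 7, 14)
  ], [(3, 7, 15)], [(5, 4, 12)], [(5, 4, 13)], [(5, 4, 14)], [(5, 4, 15)], [(5, 5, 12)], [(5, 5, 13)], [(5, 5, 14)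
  ], [(5, 5, 15)], [(5, 6, 15)], [(5, 7, 12)], [(5, 7, 13)], [(5, 7, 14)], [(5, 7, 15)], [(7, 4, 8)], [(7, 4, 9)
  ], [(7, 4, 10)], [(7, 4, 11)], [(7, 5, 8)], [(7, 5, 9)], [(7, 5, 10)], [(7, 5, 11)], [(7, 6, 8)], [(7, 7, 8)
  ], [(7, 7, 9)], [(7, 7, 10)], [(7, 7, 11)], [(8, 4, 8)], [(8, 4, 9)], [(8, 4, 10)], [(8, 4, 11)], [(8, 5, 8)
  ], [(8, 5, 9)], [(8, 5, 10)], [(8, 5, 11)], [(8, 7, 8)], [(8, 7, 9)], [(8, 7, 10)], [(8, 7, 11)], [(6, 4, 8)
  ], [(6, 4, 9)], [(6, 4, 10)], [(6, 4, 11)], [(6, 5, 8)], [(6, 5, 9)], [(6, 5, 10)], [(6, 5, 11)], [(6, 6, 8)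
  ], [(6, 7, 8)], [(6, 7, 9)], [(6, 7, 10)], [(6, 7, 11)]]

private theorem h0 : chk 17 5 12 31 N (okM 16 4) (rwS L1 L2) S = true := by decide +kernel

theorem ok : (sm true 16 1 3 {(0, {1, 2}, 0)} ∅).OK :=
  ok_of_chk _ 16 4 rfl rfl P1 P2 T F L1 L2 (r := 140) N S (by decide +kernel) (by decide +kernel)
    (by decide +kernel) (by decide +kernel) (by decide +kernel) h0 (by decide +kernel)
    (by decide +kernel) (by decide +kernel) (by decide +kernel) (by decide +kernel)

end Pool.Agent.KZ.AL.Ck.T334_1300_P12
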