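import Pool.Agent.KZ.AL.OkC

/-! # KZ4, ALPHA: finite check T334_1300_P23 (generated) -/

set_option autoImplicit false
set_option maxRecDepth 100000

namespace Pool.Agent.KZ.AL.Ck.T334_1300_P23

open Pool.Agent.KZ (Tri chk rwS)
open Finset (range)

/-- The positions of the T-points. -/
private def P1 : List ((ℕ × ℕ × ℕ) × List (ℕ × ℤ)) :=
  [((0, 1, 0), [(0, 1), (4, 2), (5, 1)]), ((0, 1, 1), [(0, 1), (6, 1)]),
   ((0, 1, 2), [(2, 1), (4, 3), (6, 1)]), ((0, 2, 0), [(3, 1), (8, 4)]),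
   ((0, 2, 1), [(1, 1), (8, 4), (9, 1)]), ((0, 2, 2), [(1, 1), (8, 3), (10, 4)]),
   ((0, 3, 0), [(3, -1), (13, 1), (14, 2)]), ((0, 3, 1), [(0, 1), (2, 4), (3, 4), (13, 1), (14, 1)]),
   ((0, 3, 2), [(1, 1), (3, 1), (13, 1)])]

/-- The positions of the free items. -/
private def P2 : List ((ℕ × ℕ × ℕ) × List (ℕ × ℤ)) :=
  []

private def T : List (ℕ × ℕ × ℕ) :=
  [(0, 1, 0), (0, 1, 1), (0, 1, 2), (0, 2, 0), (0, 2, 1), (0, 2, 2), (0, 3, 0), (0, 3, 1),
   (0, 3, 2)]

private def F : List (ℕ × ℕ × ℕ) :=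
  []

private def L1 : List (List (ℕ × ℕ)) :=
  [[(0, 1), (4, 2), (5, 1)], [(0, 1), (6, 1)], [(2, 1), (4, 3), (6, 1)],
   [(3, 1), (8, 4)], [(1, 1), (8, 4), (9, 1)], [(1, 1), (8, 3), (10, 4)],
   [(3, 30), (13, 1), (14, 2)], [(0, 1), (2, 4), (3, 4), (13, 1), (14, 1)], [(1, 1), (3, 1), (13, 1)]]

private def L2 : List (List (ℕ × ℕ)) :=
  []

private def t0 : Tri :=
  (.node (.node (.node (.node (.node .nil 68736258049 32 8 .nil) 68736258112 80 26 .nil) 68736258560 16 4 (.node .nil 68736287232 20 4 .nil)) 68736516097 0 16 (.node (.node .nil 68736516608 24 4 .nil) 68738351616 28 4 (.node .nil 68853698561 40 8 .nil))) 68853698568 88 16 (.node (.node (.node (.node .nil 68853698624 82 26 .nil) 68853727240 91 16 .nil) 68853956609 4 16 (.node .nil 68853956616 96 16 .nil)) 68855791624 99 16 (.node (.node .nil 69793222657 56 8 .nil) 69793222664 104 4 (.node .nil 69793222720 84 26 .nil))))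

private def t1 : Tri :=
  (.node (.node (.node (.node (.node .nil 69793480705 8 16 .nil) 69793480712 111 4 .nil) 69795315720 114 4 (.node .nil 77309415425 70 8 .nil)) 77309415488 86 26 (.node (.node .nil 77309673473 12 16 .nil) 549772595201 37 16 (.node .nil 549772595208 47 16 .nil))) 549772595264 34 26 (.node (.node (.node (.node .nil 549772595712 17 4 .nil) 549772623873 38 16 .nil) 549772623880 92 16 (.node .nil 549772623936 132 4 .nil)) 549772624384 21 4 (.node (.node .nil 549772853249 1 16 .nil) 549772853256 41 16 (.node .nil 549772853312 33 4 .nil))))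

private def t2 : Tri :=
  (.node t0 69793251336 107 4 t1)

private def t3 : Tri :=
  (.node (.node (.node (.node (.node .nil 549774688257 136 16 .nil) 549774688264 100 16 .nil) 549774688768 29 4 (.node .nil 549890035713 53 16 .nil)) 549890035720 48 16 (.node (.node .nil 549890035776 46 26 .nil) 549890036224 49 16 (.node .nil 549890064385 54 16 .nil))) 549890064392 93 16 (.node (.node (.node (.node .nil 549890064448 133 4 .nil) 549890064896 118 16 .nil) 549890293761 5 16 (.node .nil 549890293768 42 16 .nil)) 549890293824 45 4 (.node (.node .nil 549890294272 43 16 .nil) 549892128769 137 16 (.node .nil 549892128776 101 16 .nil))))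

private def t4 : Tri :=
  (.node (.node (.node (.node (.node .nil 550829559809 67 16 .nil) 550829559816 62 4 .nil) 550829559872 61 26 (.node .nil 550829560320 63 16 .nil)) 550829588481 68 16 (.node (.node .nil 550829588488 108 4 .nil) 550829588544 134 4 (.node .nil 550829588992 120 16 .nil))) 550829817857 9 16 (.node (.node (.node .nil 550829817864 57 4 .nil) 550829817920 60 4 (.node .nil 550829818368 58 16 .nil)) 550831652865 138 16 (.node (.node .nil 550831652872 115 4 .nil) 550831653376 125 16 (.node .nil 558345752577 77 16 .nil))))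

private def t5 : Tri :=
  (.node t3 549892129280 123 16 t4)

private def t6 : Tri :=
  (.node t2 549772853760 25 4 t5)

private def t7 : Tri :=
  (.node (.node (.node (.node (.node .nil 558345752640 73 26 .nil) 558345781249 78 16 .nil) 558345781256 129 16 (.node .nil 558345781312 135 4 .nil)) 558346010625 13 16 (.node (.node .nil 558346010632 130 16 .nil) 558346010688 72 4 (.node .nil 558347845633 139 16 .nil))) 558347845640 131 16 (.node (.node (.node (.node .nil 4398063292417 35 8 .nil) 4398063292480 36 26 .nil) 4398063292928 18 4 (.node .nil 4398063321600 22 4 .nil)) 4398063550465 2 16 (.node (.node .nil 4398063550976 26 4 .nil) 4398065385984 30 4 (.node .nil 4398180732929 50 8 .nil))))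

private def t8 : Tri :=
  (.node (.node (.node (.node (.node .nil 4398180732992 51 26 .nil) 4398180733440 52 23 .nil) 4398180761608 94 16 (.node .nil 4398180762112 119 23 .nil)) 4398180990977 6 16 (.node (.node .nil 4398180990984 97 16 .nil) 4398180991488 44 23 (.node .nil 4398182825992 102 16 .nil))) 4398182826496 124 23 (.node (.node (.node .nil 4399120257025 64 8 .nil) 4399120257032 105 4 (.node .nil 4399120257088 65 26 .nil)) 4399120257536 66 23 (.node (.node .nil 4399120285704 109 4 .nil) 4399120286208 121 23 (.node .nil 4399120515073 10 16 .nil))))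

private def t9 : Tri :=
  (.node t7 4398180732936 89 16 t8)

private def t10 : Tri :=
  (.node (.node (.node (.node (.node .nil 4399120515584 59 23 .nil) 4399122350088 116 4 .nil) 4399122350592 126 23 (.node .nil 4406636449793 74 8 .nil)) 4406636449856 75 26 (.node (.node .nil 4406636450304 76 23 .nil) 4406636478976 122 23 (.node .nil 4406636707841 14 16 .nil))) 4406636708352 71 23 (.node (.node (.node (.node .nil 4406638543360 127 23 .nil) 35184388870145 39 8 .nil) 35184388870208 81 26 (.node .nil 35184388870656 19 4 .nil)) 35184388899328 23 4 (.node (.node .nil 35184389128193 3 16 .nil) 35184389128704 27 4 (.node .nil 35184390963712 31 4 .nil))))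

private def t11 : Tri :=
  (.node (.node (.node (.node (.node .nil 35184506310664 90 16 .nil) 35184506310720 83 26 .nil) 35184506339336 95 16 (.node .nil 35184506568705 7 16 .nil)) 35184506568712 98 16 (.node (.node .nil 35184508403720 103 16 .nil) 35185445834753 69 8 (.node .nil 35185445834760 106 4 .nil))) 35185445834816 85 26 (.node (.node (.node .nil 35185445863432 110 4 .nil) 35185446092801 11 16 (.node .nil 35185446092808 113 4 .nil)) 35185447927816 117 4 (.node (.node .nil 35192962027521 79 8 .nil) 35192962027584 87 26 (.node .nil 35192962285569 15 16 .nil))))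

private def t12 : Tri :=
  (.node t10 35184506310657 55 8 t11)

private def t13 : Tri :=
  (.node t9 4399120515080 112 4 t12)

private def t14 : Tri :=
  (.node t6 558345752584 128 16 t13)

private def N : Tri := t14

private def S : List (List (ℕ × ℕ × ℕ)) :=
  [[(1, 8, 12)], [(1, 8, 13)], [(1, 8, 14)], [(1, 8, 15)], [(1, 9, 12)], [(1, 9, 13)], [(1, 9, 14)], [(1, 9, 15)
  ], [(1, 10, 12)], [(1, 10, 13)], [(1, 10, 14)], [(1, 10, 15)], [(1, 11, 12)], [(1, 11, 13)], [(1, 11, 14)], [(1, 11, 15)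
  ], [(3, 4, 12)], [(3, 4, 13)], [(3, 4, 14)], [(3, 4, 15)], [(3, 5, 12)], [(3, 5, 13)], [(3, 5, 14)], [(3, 5, 15)
  ], [(3, 6, 12)], [(3, 6, 13)], [(3, 6, 14)], [(3, 6, 15)], [(3, 7, 12)], [(3, 7, 13)], [(3, 7, 14)], [(3, 7, 15)
  ], [(0, 8, 12)], [(7, 6, 8)], [(2, 8, 13)], [(0, 8, 14)], [(2, 8, 14)], [(7, 4, 8)], [(0, 8, 13)], [(0, 8, 15)
  ], [(0, 9, 12)], [(8, 6, 8)], [(4, 6, 13)], [(8, 6, 9)], [(6, 6, 9)], [(7, 6, 9)], [(2, 9, 13)], [(8, 4, 8)
  ], [(4, 4, 13)], [(8, 4, 9)], [(0, 9, 14)], [(2, 9, 14)], [(6, 4, 9)], [(7, 4, 9)], [(0, 9, 13)], [(0, 9, 15)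
  ], [(0, 10, 12)], [(5, 6, 13)], [(8, 6, 10)], [(6, 6, 10)], [(7, 6, 10)], [(2, 10, 13)], [(5, 4, 13)], [(8, 4, 10)
  ], [(0, 10, 14)], [(2, 10, 14)], [(6, 4, 10)], [(7, 4, 10)], [(0, 10, 13)], [(0, 10, 15)], [(0, 11, 12)], [(6, 6, 11)
  ], [(7, 6, 11)], [(2, 11, 13)], [(0, 11, 14)], [(2, 11, 14)], [(6, 4, 11)], [(7, 4, 11)], [(0, 11, 13)], [(0, 11, 15)
  ], [(2, 8, 12)], [(2, 8, 15)], [(2, 9, 12)], [(2, 9, 15)], [(2, 10, 12)], [(2, 10, 15)], [(2, 11, 12)], [(2, 11, 15)
  ], [(4, 4, 12)], [(4, 4, 14)], [(4, 4, 15)], [(4, 5, 12)], [(8, 5, 8)], [(4, 5, 13)], [(4, 5, 14)], [(4, 5, 15)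
  ], [(4, 6, 12)], [(4, 6, 14)], [(4, 6, 15)], [(4, 7, 12)], [(8, 7, 8)], [(4, 7, 13)], [(4, 7, 14)], [(4, 7, 15)
  ], [(5, 4, 12)], [(5, 4, 14)], [(5, 4, 15)], [(5, 5, 12)], [(5, 5, 13)], [(5, 5, 14)], [(5, 5, 15)], [(5, 6, 12)
  ], [(5, 6, 14)], [(5, 6, 15)], [(5, 7, 12)], [(5, 7, 13)], [(5, 7, 14)], [(5, 7, 15)], [(8, 5, 9)], [(6, 5, 9)
  ], [(8, 5, 10)], [(6, 5, 10)], [(6, 5, 11)], [(8, 7, 9)], [(6, 7, 9)], [(8, 7, 10)], [(6, 7, 10)], [(6, 7, 11)
  ], [(8, 4, 11)], [(8, 5, 11)], [(8, 6, 11)], [(8, 7, 11)], [(7, 5, 8)], [(7, 5, 9)], [(7, 5, 10)], [(7, 5, 11)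
  ], [(7, 7, 8)], [(7, 7, 9)], [(7, 7, 10)], [(7, 7, 11)]]

private theorem h0 : chk 17 5 12 31 N (okM 16 4) (rwS L1 L2) S = true := by decide +kernel

theorem ok : (sm true 16 1 3 {(0, {2, 3}, 0)} ∅).OK :=
  ok_of_chk _ 16 4 rfl rfl P1 P2 T F L1 L2 (r := 140) N S (by decide +kernel) (by decide +kernel)
    (by decide +kernel) (by decide +kernel) (by decide +kernel) h0 (by decide +kernel)
    (by decide +kernel) (by decide +kernel) (by decide +kernel) (by decide +kernel)

end Pool.Agent.KZ.AL.Ck.T334_1300_P23
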