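import Pool.Agent.KZ.AL.OkC

/-! # KZ4, ALPHA: finite check T334_1300_Q (generated) -/

set_option autoImplicit false
set_option maxRecDepth 100000

namespace Pool.Agent.KZ.AL.Ck.T334_1300_Q

open Pool.Agent.KZ (Tri chk rwS)
open Finset (range)

/-- The positions of the T-points. -/
private def P1 : List ((ℕ × ℕ × ℕ) × List (ℕ × ℤ)) :=
  [((0, 1, 0), [(2, 1), (4, 1), (6, 2)]), ((0, 1, 1), [(0, 3), (2, 1), (5, 1), (6, 1)]),
   ((0, 1, 2), [(2, 1), (6, 3)]), ((0, 2, 0), [(0, 3), (3, 1), (10, 4), (11, 1)]),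
   ((0, 2, 1), [(1, 1), (11, 3)]), ((0, 2, 2), [(2, 1), (3, 1), (10, 3)]),
   ((0, 3, 0), [(0, 1), (1, 1), (13, 1), (15, 1)]), ((0, 3, 1), [(0, -3), (1, -1), (2, -1), (13, 1), (14, 1), (15, 2)]),
   ((0, 3, 2), [(0, 1), (13, 1)])]

/-- The positions of the free items. -/
private def P2 : List ((ℕ × ℕ × ℕ) × List (ℕ × ℤ)) :=
  []

private def T : List (ℕ × ℕ × ℕ) :=
  [(0, 1, 0), (0, 1, 1), (0, 1, 2), (0, 2, 0), (0, 2, 1), (0, 2, 2), (0, 3, 0), (0, 3, 1),
   (0, 3, 2)]

private def F : List (ℕ × ℕ × ℕ) :=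
  []

private def L1 : List (List (ℕ × ℕ)) :=
  [[(2, 1), (4, 1), (6, 2)], [(0, 3), (2, 1), (5, 1), (6, 1)], [(2, 1), (6, 3)],
   [(0, 3), (3, 1), (10, 4), (11, 1)], [(1, 1), (11, 3)], [(2, 1), (3, 1), (10, 3)],
   [(0, 1), (1, 1), (13, 1), (15, 1)], [(0, 28), (1, 30), (2, 30), (13, 1), (14, 1), (15, 2)], [(0, 1), (13, 1)]]

private def L2 : List (List (ℕ × ℕ)) :=
  []

private def t0 : Tri :=
  (.node (.node (.node (.node (.node .nil 68736258112 48 16 .nil) 68736286721 82 26 .nil) 68736516160 0 26 (.node .nil 68853698624 52 16 .nil)) 68853727233 86 26 (.node (.node .nil 68853956672 4 26 .nil) 69793222657 99 22 (.node .nil 69793222720 56 16 .nil))) 69793223168 64 26 (.node (.node (.node (.node .nil 69793251329 90 26 .nil) 69793251392 68 26 .nil) 69793480768 8 26 (.node .nil 69793481216 74 26 .nil)) 69795315713 113 22 (.node (.node .nil 69795315776 78 26 .nil) 77309415432 16 26 (.node .nil 77309415488 60 16 .nil))))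

private def t1 : Tri :=
  (.node (.node (.node (.node (.node .nil 77309444160 92 16 .nil) 77309444608 105 16 .nil) 77309673480 24 26 (.node .nil 77309673536 12 26 .nil)) 77309673984 109 16 (.node (.node .nil 77311508488 28 26 .nil) 549772595201 32 16 (.node .nil 549772595208 118 16 .nil))) 549772595264 49 16 (.node (.node (.node (.node .nil 549772623873 36 16 .nil) 549772623880 121 16 .nil) 549772623936 83 16 (.node .nil 549772853249 40 16 .nil)) 549772853256 124 16 (.node (.node .nil 549772853312 1 26 .nil) 549774688257 44 16 (.node .nil 549774688264 127 16 .nil))))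

private def t2 : Tri :=
  (.node t0 77309444104 20 26 t1)

private def t3 : Tri :=
  (.node (.node (.node (.node (.node .nil 549890035713 33 16 .nil) 549890035720 119 16 .nil) 549890035776 53 16 (.node .nil 549890064385 37 16 .nil)) 549890064392 122 16 (.node (.node .nil 549890064448 87 16 .nil) 549890293761 41 16 (.node .nil 549890293768 125 16 .nil))) 549890293824 5 26 (.node (.node (.node (.node .nil 549892128769 45 16 .nil) 549892128776 128 16 .nil) 549892128832 140 15 (.node .nil 550829559809 34 16 .nil)) 550829559816 120 16 (.node (.node .nil 550829559872 57 16 .nil) 550829560320 65 26 (.node .nil 550829588481 38 16 .nil))))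

private def t4 : Tri :=
  (.node (.node (.node (.node (.node .nil 550829588544 69 16 .nil) 550829588992 70 26 .nil) 550829817857 42 16 (.node .nil 550829817864 126 16 .nil)) 550829817920 9 26 (.node (.node .nil 550829818368 75 26 .nil) 550831652865 46 16 (.node .nil 550831652872 129 16 .nil))) 550831652928 79 26 (.node (.node (.node (.node .nil 558345752577 35 16 .nil) 558345752584 17 26 .nil) 558345752640 61 16 (.node .nil 558345753088 100 16 .nil)) 558345781249 39 16 (.node (.node .nil 558345781256 21 26 .nil) 558345781312 93 16 (.node .nil 558345781760 106 16 .nil))))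

private def t5 : Tri :=
  (.node t3 550829588488 123 16 t4)

private def t6 : Tri :=
  (.node t2 549774688320 139 15 t5)

private def t7 : Tri :=
  (.node (.node (.node (.node (.node .nil 558346010632 25 26 .nil) 558346010688 13 26 .nil) 558346011136 110 16 (.node .nil 558347845633 47 16 .nil)) 558347845640 29 26 (.node (.node .nil 558347845696 142 15 .nil) 558347846144 114 16 (.node .nil 4398063292417 130 5 .nil))) 4398063292480 50 16 (.node (.node (.node (.node .nil 4398063321089 84 26 .nil) 4398063321096 133 15 .nil) 4398063550472 136 15 (.node .nil 4398063550528 2 26 .nil)) 4398180732929 131 5 (.node (.node .nil 4398180732992 54 16 .nil) 4398180761601 88 26 (.node .nil 4398180761608 134 15 .nil))))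

private def t8 : Tri :=
  (.node (.node (.node (.node (.node .nil 4398180991040 6 26 .nil) 4399120257032 132 15 .nil) 4399120257088 58 16 (.node .nil 4399120257536 66 26 .nil)) 4399120285697 91 26 (.node (.node .nil 4399120285704 135 15 .nil) 4399120286208 71 26 (.node .nil 4399120515080 138 15 .nil))) 4399120515136 10 26 (.node (.node (.node (.node .nil 4399120515584 76 26 .nil) 4399122350088 141 15 .nil) 4399122350144 80 26 (.node .nil 4406636449793 102 5 .nil)) 4406636449800 18 26 (.node (.node .nil 4406636449856 62 16 .nil) 4406636450304 103 16 (.node .nil 4406636478472 22 26 .nil))))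

private def t9 : Tri :=
  (.node t7 4398180990984 137 15 t8)

private def t10 : Tri :=
  (.node (.node (.node (.node (.node .nil 4406636478976 107 16 .nil) 4406636707841 98 26 .nil) 4406636707848 26 26 (.node .nil 4406636707904 14 26 .nil)) 4406636708352 111 16 (.node (.node .nil 4406638542856 30 26 .nil) 4406638543360 115 16 (.node .nil 35184388870208 51 16 .nil))) 35184388898880 85 16 (.node (.node (.node (.node .nil 35184389128256 3 26 .nil) 35184506310720 55 16 .nil) 35184506339392 89 16 (.node .nil 35184506568768 7 26 .nil)) 35185445834816 59 16 (.node (.node .nil 35185445835264 67 26 .nil) 35185445863488 72 16 (.node .nil 35185445863936 73 26 .nil))))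

private def t11 : Tri :=
  (.node (.node (.node (.node (.node .nil 35185446093312 77 26 .nil) 35185447927872 81 26 .nil) 35192962027521 101 16 (.node .nil 35192962027528 19 26 .nil)) 35192962027584 63 16 (.node (.node .nil 35192962028032 104 16 .nil) 35192962056193 94 16 (.node .nil 35192962056200 23 26 .nil))) 35192962056256 96 16 (.node (.node (.node (.node .nil 35192962056704 108 16 .nil) 35192962285569 95 16 .nil) 35192962285576 27 26 (.node .nil 35192962285632 15 26 .nil)) 35192962286080 112 16 (.node (.node .nil 35192964120577 116 16 .nil) 35192964120584 31 26 (.node .nil 35192964121088 117 16 .nil))))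

private def t12 : Tri :=
  (.node t10 35185446092864 11 26 t11)

private def t13 : Tri :=
  (.node t9 4406636478528 97 15 t12)

private def t14 : Tri :=
  (.node t6 558346010625 43 16 t13)

private def N : Tri := t14

private def S : List (List (ℕ × ℕ × ℕ)) :=
  [[(2, 8, 12)], [(2, 8, 13)], [(2, 8, 14)], [(2, 8, 15)], [(2, 9, 12)], [(2, 9, 13)], [(2, 9, 14)], [(2, 9, 15)
  ], [(2, 10, 12)], [(2, 10, 13)], [(2, 10, 14)], [(2, 10, 15)], [(2, 11, 12)], [(2, 11, 13)], [(2, 11, 14)], [(2, 11, 15)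
  ], [(4, 4, 12)], [(4, 4, 13)], [(4, 4, 14)], [(4, 4, 15)], [(4, 5, 12)], [(4, 5, 13)], [(4, 5, 14)], [(4, 5, 15)
  ], [(4, 6, 12)], [(4, 6, 13)], [(4, 6, 14)], [(4, 6, 15)], [(4, 7, 12)], [(4, 7, 13)], [(4, 7, 14)], [(4, 7, 15)
  ], [(8, 4, 8)], [(8, 4, 9)], [(8, 4, 10)], [(8, 4, 11)], [(8, 5, 8)], [(8, 5, 9)], [(8, 5, 10)], [(8, 5, 11)
  ], [(8, 6, 8)], [(8, 6, 9)], [(8, 6, 10)], [(8, 6, 11)], [(8, 7, 8)], [(8, 7, 9)], [(8, 7, 10)], [(8, 7, 11)
  ], [(0, 8, 12)], [(0, 8, 13)], [(0, 8, 14)], [(0, 8, 15)], [(0, 9, 12)], [(0, 9, 13)], [(0, 9, 14)], [(0, 9, 15)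
  ], [(0, 10, 12)], [(0, 10, 13)], [(0, 10, 14)], [(0, 10, 15)], [(0, 11, 12)], [(0, 11, 13)], [(0, 11, 14)], [(0, 11, 15)
  ], [(5, 4, 12)], [(5, 4, 13)], [(5, 4, 14)], [(5, 4, 15)], [(5, 5, 12)], [(1, 10, 13)], [(5, 5, 13)], [(5, 5, 14)
  ], [(1, 10, 15)], [(5, 5, 15)], [(5, 6, 12)], [(5, 6, 13)], [(5, 6, 14)], [(5, 6, 15)], [(5, 7, 12)], [(5, 7, 13)
  ], [(5, 7, 14)], [(5, 7, 15)], [(1, 8, 12)], [(1, 8, 13)], [(1, 8, 14)], [(1, 8, 15)], [(1, 9, 12)], [(1, 9, 13)
  ], [(1, 9, 14)], [(1, 9, 15)], [(1, 10, 12)], [(1, 10, 14)], [(1, 11, 12)], [(1, 11, 13)], [(6, 5, 11)], [(6, 6, 11)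
  ], [(1, 11, 15)], [(7, 5, 11)], [(1, 11, 14)], [(3, 4, 12)], [(3, 4, 13)], [(6, 4, 11)], [(7, 4, 11)], [(3, 4, 14)
  ], [(3, 4, 15)], [(3, 5, 12)], [(3, 5, 13)], [(3, 5, 14)], [(3, 5, 15)], [(3, 6, 12)], [(3, 6, 13)], [(3, 6, 14)
  ], [(3, 6, 15)], [(3, 7, 12)], [(3, 7, 13)], [(3, 7, 14)], [(6, 7, 11)], [(3, 7, 15)], [(6, 4, 8)], [(6, 4, 9)
  ], [(6, 4, 10)], [(6, 5, 8)], [(6, 5, 9)], [(6, 5, 10)], [(6, 6, 8)], [(6, 6, 9)], [(6, 6, 10)], [(6, 7, 8)
  ], [(6, 7, 9)], [(6, 7, 10)], [(7, 4, 8)], [(7, 4, 9)], [(7, 4, 10)], [(7, 5, 8)], [(7, 5, 9)], [(7, 5, 10)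
  ], [(7, 6, 8)], [(7, 6, 9)], [(7, 6, 10)], [(7, 7, 8)], [(7, 7, 9)], [(7, 7, 10)], [(7, 7, 11)]]

private theorem h0 : chk 20 5 15 31 N (okM 16 4) (rwS L1 L2) S = true := by decide +kernel

theorem ok : (sm true 16 1 3 {(0, {1, 2, 3}, 1)} ∅).OK :=
  ok_of_chk _ 16 4 rfl rfl P1 P2 T F L1 L2 (r := 143) N S (by decide +kernel) (by decide +kernel)
    (by decide +kernel) (by decide +kernel) (by decide +kernel) h0 (by decide +kernel)
    (by decide +kernel) (by decide +kernel) (by decide +kernel) (by decide +kernel)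

end Pool.Agent.KZ.AL.Ck.T334_1300_Q
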