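import Pool.Agent.KZ.AL.OkC

/-! # KZ4, ALPHA: finite check T334_2100_0 (generated) -/

set_option autoImplicit false
set_option maxRecDepth 100000

namespace Pool.Agent.KZ.AL.Ck.T334_2100_0

open Pool.Agent.KZ (Tri chk rwS)
open Finset (range)

/-- The positions of the T-points. -/
private def P1 : List ((ℕ × ℕ × ℕ) × List (ℕ × ℤ)) :=
  [((0, 2, 0), [(0, 1), (3, 1), (8, 1), (10, 1)]), ((0, 2, 1), [(1, 1), (2, 3), (10, 1)]),
   ((0, 2, 2), [(2, 1), (3, 2), (8, 1), (9, 4)]), ((1, 2, 0), [(5, 2), (6, 1), (10, 4), (11, 1)]),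
   ((1, 2, 1), [(6, 1), (9, 1), (10, 1), (11, 1)]), ((1, 2, 2), [(4, 2), (9, 1)])]

/-- The positions of the free items. -/
private def P2 : List ((ℕ × ℕ × ℕ) × List (ℕ × ℤ)) :=
  [((0, 2, 0), [(1, 1), (8, 1), (9, 2), (11, 3)]), ((1, 2, 0), [(6, 1), (7, 3), (11, 1)])]

private def T : List (ℕ × ℕ × ℕ) :=
  [(0, 2, 0), (0, 2, 1), (0, 2, 2), (1, 2, 0), (1, 2, 1), (1, 2, 2)]

private def F : List (ℕ × ℕ × ℕ) :=
  [(0, 2, 0), (1, 2, 0)]

private def L1 : List (List (ℕ × ℕ)) :=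
  [[(0, 1), (3, 1), (8, 1), (10, 1)], [(1, 1), (2, 3), (10, 1)], [(2, 1), (3, 2), (8, 1), (9, 4)],
   [(5, 2), (6, 1), (10, 4), (11, 1)], [(6, 1), (9, 1), (10, 1), (11, 1)], [(4, 2), (9, 1)]]

private def L2 : List (List (ℕ × ℕ)) :=
  [[(1, 1), (8, 1), (9, 2), (11, 3)], [(6, 1), (7, 3), (11, 1)]]

private def t0 : Tri :=
  (.node (.node (.node (.node .nil 16781314 79 0x5800a .nil) 16781321 187 16 (.node .nil 16781328 160 1 .nil)) 16781377 80 16 (.node (.node .nil 16781384 159 16 .nil) 16781440 82 0x5800a (.node .nil 16781888 81 16 .nil))) 16785409 48 16 (.node (.node (.node .nil 16785416 57 8 .nil) 16785472 67 16 (.node .nil 16785920 45 8 .nil)) 16809986 183 0x5800a (.node (.node .nil 16809993 188 16 .nil) 16810000 167 21 (.node .nil 16810049 192 16 .nil))))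

private def t1 : Tri :=
  (.node (.node (.node (.node .nil 16810112 168 0x5000b .nil) 16810497 182 16 (.node .nil 16814081 117 16 .nil)) 16814144 133 16 (.node (.node .nil 16842753 126 8 .nil) 16842760 214 8 (.node .nil 16842816 147 8 .nil))) 16843264 127 8 (.node (.node (.node .nil 17039362 112 0x5800a .nil) 17039369 190 16 (.node .nil 17039376 170 21 .nil)) 17039425 110 16 (.node (.node .nil 17039432 171 26 .nil) 17039488 109 0x5000b (.node .nil 17039873 111 16 .nil))))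

private def t2 : Tri :=
  (.node t0 16810056 169 26 t1)

private def t3 : Tri :=
  (.node (.node (.node (.node .nil 17039936 108 16 .nil) 17043457 118 16 (.node .nil 17043520 134 16 .nil)) 17072129 120 16 (.node (.node .nil 17072192 142 16 .nil) 17301505 101 16 (.node .nil 17301512 158 1 .nil))) 17301568 143 16 (.node (.node (.node .nil 17302016 100 1 .nil) 18874370 186 0x5800a (.node .nil 18874377 191 16 .nil)) 18874384 175 1 (.node (.node .nil 18874433 193 16 .nil) 18874496 174 0x5000b (.node .nil 18878465 119 16 .nil))))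

private def t4 : Tri :=
  (.node (.node (.node (.node .nil 18907137 130 16 .nil) 18907200 150 16 (.node .nil 19136513 131 16 .nil)) 19136576 153 16 (.node (.node .nil 20971521 132 16 .nil) 20971584 154 16 (.node .nil 33558529 79 0x5000b .nil))) 33558592 82 0x5000b (.node (.node (.node .nil 33587201 183 0x5000b .nil) 33587264 168 0x5800a (.node .nil 33816577 112 0x5000b .nil)) 33816640 109 0x5800a (.node (.node .nil 35651585 186 0x5000b .nil) 35651648 174 0x5800a .nil)))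

private def t5 : Tri :=
  (.node t3 18878528 135 16 t4)

private def t6 : Tri :=
  (.node t2 17039880 189 8 t5)

private def t7 : Tri :=
  (.node (.node (.node (.node .nil 134221833 1 8 .nil) 134221840 4 8 (.node .nil 134221889 2 8 .nil)) 134221896 5 8 (.node (.node .nil 134221952 7 8 .nil) 134222337 3 8 (.node .nil 134222344 6 8 .nil))) 134222400 8 8 (.node (.node (.node .nil 134222848 9 8 .nil) 134225921 38 0xa8012 (.node .nil 134225928 51 0xa8012 .nil)) 134225984 60 0xa8012 (.node (.node .nil 134226432 66 0x90015 .nil) 134250498 195 1 (.node .nil 134250512 164 1 .nil))))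

private def t8 : Tri :=
  (.node (.node (.node (.node .nil 134250624 163 1 .nil) 134251016 200 2 (.node .nil 134251072 162 4 .nil)) 134254593 39 8 (.node (.node .nil 134254600 52 8 .nil) 134254656 61 8 (.node .nil 134255104 70 8 .nil))) 134283265 210 8 (.node (.node (.node .nil 134283272 216 8 .nil) 134283328 148 8 (.node .nil 134283776 149 2 .nil)) 134479874 103 1 (.node (.node .nil 134479881 106 16 .nil) 134479888 25 16 (.node .nil 134479937 113 4 .nil))))

private def t9 : Tri :=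
  (.node t7 134250561 198 4 t8)

private def t10 : Tri :=
  (.node (.node (.node (.node .nil 134480000 26 16 .nil) 134480385 98 16 (.node .nil 134480392 115 16 .nil)) 134480448 107 8 (.node (.node .nil 134480896 99 16 .nil) 134483969 43 8 (.node .nil 134483976 55 8 .nil))) 134484032 64 8 (.node (.node (.node .nil 134484480 74 8 .nil) 134512641 209 16 (.node .nil 134512648 215 16 .nil)) 134512704 138 16 (.node (.node .nil 134513152 141 16 .nil) 134742017 42 0x5000b (.node .nil 134742024 54 0x5000b .nil))))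

private def t11 : Tri :=
  (.node (.node (.node (.node .nil 134742528 73 0x5000b .nil) 136314882 196 1 (.node .nil 136314896 176 1 .nil)) 136314945 199 4 (.node (.node .nil 136315008 173 1 .nil) 136315400 201 2 (.node .nil 136315456 172 4 .nil))) 136318977 44 8 (.node (.node (.node .nil 136318984 56 8 .nil) 136319040 65 8 (.node .nil 136319488 75 8 .nil)) 136577025 223 16 (.node (.node .nil 136577032 224 16 .nil) 136577088 151 16 .nil)))

private def t12 : Tri :=
  (.node t10 134742080 63 0x5000b t11)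

private def t13 : Tri :=
  (.node t9 134479944 28 26 t12)

private def t14 : Tri :=
  (.node t6 134221826 0 8 t13)

private def t15 : Tri :=
  (.node (.node (.node (.node .nil 150999041 49 8 .nil) 150999104 68 8 (.node .nil 151257089 102 16 .nil)) 268439553 38 0x50015 (.node (.node .nil 268439560 51 0x50015 .nil) 268439616 60 0x50015 (.node .nil 268440064 66 0xa800a .nil))) 268697601 42 0x5800a (.node (.node (.node .nil 268697608 54 0x5800a .nil) 268697664 63 0x5800a (.node .nil 268698112 73 0x5800a .nil)) 1073745922 78 1 (.node (.node .nil 1073745929 84 16 .nil) 1073745936 90 0x5800a (.node .nil 1073745985 83 16 .nil))))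

private def t16 : Tri :=
  (.node (.node (.node (.node .nil 1073746048 88 1 .nil) 1073746433 77 16 (.node .nil 1073746440 94 16 .nil)) 1073750017 46 8 (.node (.node .nil 1073750024 11 16 .nil) 1073750080 10 8 (.node .nil 1073750528 47 8 .nil))) 1073774594 121 1 (.node (.node (.node .nil 1073774601 85 16 .nil) 1073774608 20 0x5800a (.node .nil 1073774664 19 16 .nil)) 1073774720 18 1 (.node (.node .nil 1073775112 95 16 .nil) 1073778696 12 16 (.node .nil 1073807361 128 8 .nil))))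

private def t17 : Tri :=
  (.node t15 1073745992 89 16 t16)

private def t18 : Tri :=
  (.node (.node (.node (.node .nil 1073807424 34 26 .nil) 1073807872 129 16 (.node .nil 1074003970 104 1 .nil)) 1074003977 86 16 (.node (.node .nil 1074003984 23 0x5800a .nil) 1074004040 22 16 (.node .nil 1074004096 21 1 .nil))) 1074004488 96 16 (.node (.node (.node .nil 1074008072 13 16 .nil) 1074036744 15 16 (.node .nil 1074266113 40 1 .nil)) 1074266120 17 16 (.node (.node .nil 1074266176 16 1 .nil) 1074266624 71 1 (.node .nil 1075838978 185 1 .nil))))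

private def t19 : Tri :=
  (.node (.node (.node (.node .nil 1075838992 93 0x5800a .nil) 1075839048 92 16 (.node .nil 1075839104 91 1 .nil)) 1075839489 184 16 (.node (.node .nil 1075839496 97 16 .nil) 1075843080 14 16 (.node .nil 1075871752 35 16 .nil))) 1076101128 36 16 (.node (.node (.node .nil 1077936136 37 16 .nil) 1207963656 58 8 (.node .nil 1208221704 27 16 .nil)) 2147487752 90 0x5000b (.node (.node .nil 2147516424 20 0x5000b .nil) 2147745800 23 0x5000b .nil)))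

private def t20 : Tri :=
  (.node t18 1075838985 87 16 t19)

private def t21 : Tri :=
  (.node t17 1073807368 33 8 t20)

private def t22 : Tri :=
  (.node (.node (.node (.node .nil 8589938690 194 1 .nil) 8589938760 161 26 (.node .nil 8589939264 202 8 .nil)) 8589942785 50 8 (.node (.node .nil 8589942792 59 8 .nil) 8589942848 69 8 (.node .nil 8589943296 76 8 .nil))) 8589967362 122 8 (.node (.node (.node .nil 8589967369 155 8 .nil) 8589967376 24 8 (.node .nil 8589967425 156 8 .nil)) 8589967432 30 8 (.node (.node .nil 8589967488 31 8 .nil) 8589967873 123 8 (.node .nil 8589967880 157 8 .nil))))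

private def t23 : Tri :=
  (.node (.node (.node (.node .nil 8589968384 124 8 .nil) 8589971457 205 8 (.node .nil 8589971464 212 8 .nil)) 8589971520 218 8 (.node (.node .nil 8589971968 221 8 .nil) 8590000129 207 0xa8012 (.node .nil 8590000136 166 0xa8012 .nil))) 8590000192 137 0xa8012 (.node (.node (.node .nil 8590000640 140 0xa8012 .nil) 8590196738 105 16 (.node .nil 8590196801 114 16 .nil)) 8590196808 29 16 (.node (.node .nil 8590197312 116 16 .nil) 8590200833 204 16 (.node .nil 8590200840 211 16 .nil))))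

private def t24 : Tri :=
  (.node t22 8589967936 144 8 t23)

private def t25 : Tri :=
  (.node (.node (.node (.node .nil 8590201344 220 16 .nil) 8590229505 206 8 (.node .nil 8590229512 165 8 .nil)) 8590229568 136 8 (.node (.node .nil 8590230016 139 8 .nil) 8590458888 53 1 (.node .nil 8590458944 62 1 .nil))) 8590459392 72 1 (.node (.node (.node .nil 8592031746 197 1 .nil) 8592031816 177 26 (.node .nil 8592032320 203 8 .nil)) 8592064513 208 8 (.node (.node .nil 8592064520 213 8 .nil) 8592064576 219 8 (.node .nil 8592065024 222 8 .nil))))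

private def t26 : Tri :=
  (.node (.node (.node (.node .nil 8594128904 179 23 .nil) 8594128960 180 23 (.node .nil 8594129408 181 23 .nil)) 8606715912 225 19 (.node (.node .nil 8606744577 125 16 .nil) 8606744640 145 16 (.node .nil 8606974016 146 16 .nil))) 8608808968 226 19 (.node (.node (.node .nil 8724414465 41 16 .nil) 9663709192 32 16 (.node .nil 17179901953 207 0x50015 .nil)) 17179901960 166 0x50015 (.node (.node .nil 17179902016 137 0x50015 .nil) 17179902464 140 0x50015 .nil)))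

private def t27 : Tri :=
  (.node t25 8594128897 178 23 t26)

private def t28 : Tri :=
  (.node t24 8590200896 217 16 t27)

private def t29 : Tri :=
  (.node t21 2149580808 93 0x5000b t28)

private def t30 : Tri :=
  (.node t14 136577536 152 16 t29)

private def N : Tri := t30

private def S : List (List (ℕ × ℕ × ℕ)) :=
  [[(5, 0, 0)], [(5, 0, 1)], [(5, 0, 2)], [(5, 0, 3)], [(5, 1, 1)], [(5, 1, 2)], [(5, 1, 3)], [(5, 2, 2)
  ], [(5, 2, 3)], [(5, 3, 3)], [(5, 2, 10)], [(1, 4, 4)], [(1, 4, 5)], [(1, 4, 6)], [(1, 4, 7)], [(1, 5, 6)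
  ], [(4, 2, 10)], [(1, 6, 6)], [(2, 5, 10)], [(1, 2, 5)], [(1, 5, 10), (1, 1, 5)], [(2, 6, 10)], [(1, 2, 6)
  ], [(1, 6, 10), (1, 1, 6)], [(3, 1, 1)], [(4, 1, 1)], [(4, 2, 2)], [(4, 1, 10)], [(1, 6, 9)], [(4, 1, 2)
  ], [(3, 1, 2)], [(3, 2, 2)], [(1, 5, 11)], [(3, 1, 10)], [(1, 5, 5)], [(1, 5, 7)], [(1, 6, 7)], [(1, 7, 7)
  ], [(5, 0, 9), (5, 0, 4)], [(5, 0, 5)], [(4, 0, 10)], [(4, 0, 11)], [(4, 0, 6), (4, 0, 9)], [(5, 0, 6)
  ], [(5, 0, 7)], [(5, 3, 8)], [(5, 0, 10)], [(5, 3, 10)], [(0, 4, 4)], [(5, 0, 8)], [(5, 0, 11)], [(5, 1, 9)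
  , (5, 1, 4)], [(5, 1, 5)], [(4, 1, 11)], [(4, 1, 6), (4, 1, 9)], [(5, 1, 6)], [(5, 1, 7)], [(5, 1, 8)
  ], [(5, 1, 10)], [(5, 1, 11)], [(5, 2, 9), (5, 2, 4)], [(5, 2, 5)], [(4, 2, 11)], [(4, 2, 6), (4, 2, 9)
  ], [(5, 2, 6)], [(5, 2, 7)], [(5, 3, 4), (5, 3, 9)], [(2, 4, 4)], [(5, 2, 8)], [(5, 2, 11)], [(5, 3, 5)
  ], [(4, 3, 10)], [(4, 3, 11)], [(4, 3, 6), (4, 3, 9)], [(5, 3, 6)], [(5, 3, 7)], [(5, 3, 11)], [(0, 3, 4)
  ], [(0, 4, 10)], [(0, 4, 8), (0, 0, 4)], [(2, 0, 4)], [(2, 3, 4)], [(2, 4, 8), (2, 2, 4)], [(0, 2, 4)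
  ], [(1, 0, 4)], [(1, 0, 5)], [(1, 0, 6)], [(1, 0, 7)], [(2, 4, 10)], [(1, 2, 4)], [(1, 4, 10), (1, 1, 4)
  ], [(2, 7, 10)], [(1, 2, 7)], [(1, 7, 10), (1, 1, 7)], [(1, 3, 4)], [(1, 3, 5)], [(1, 3, 6)], [(1, 3, 7)
  ], [(4, 0, 3)], [(4, 3, 3)], [(4, 3, 8)], [(0, 6, 6)], [(4, 0, 8)], [(0, 6, 9)], [(0, 6, 10)], [(4, 0, 0)
  ], [(4, 0, 1)], [(2, 6, 9)], [(2, 3, 6)], [(2, 2, 6), (2, 6, 8)], [(0, 2, 6)], [(0, 3, 6)], [(0, 6, 8)
  , (0, 0, 6)], [(2, 0, 6)], [(4, 0, 2)], [(4, 1, 3)], [(4, 2, 3)], [(0, 4, 5)], [(0, 4, 6)], [(0, 4, 7)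
  ], [(0, 5, 6)], [(0, 5, 10)], [(3, 0, 0)], [(3, 0, 3)], [(3, 3, 3)], [(0, 5, 11)], [(3, 0, 8)], [(3, 3, 8)
  ], [(3, 0, 10)], [(0, 5, 5)], [(0, 5, 7)], [(0, 6, 7)], [(0, 7, 7)], [(2, 4, 5)], [(2, 4, 6)], [(2, 4, 7)
  ], [(3, 2, 6)], [(3, 2, 11), (3, 2, 5)], [(4, 2, 5)], [(3, 3, 6)], [(3, 3, 11), (3, 3, 5)], [(4, 3, 5)
  ], [(2, 5, 6)], [(2, 6, 6)], [(3, 2, 3)], [(2, 5, 11)], [(4, 2, 8)], [(3, 2, 8)], [(3, 2, 9)], [(2, 5, 5)
  ], [(2, 5, 7)], [(4, 2, 7)], [(4, 3, 7)], [(2, 6, 7)], [(2, 7, 7)], [(3, 0, 1)], [(3, 0, 2)], [(3, 1, 3)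
  ], [(4, 1, 8)], [(2, 1, 4)], [(1, 4, 8)], [(1, 4, 11)], [(2, 3, 5)], [(2, 5, 9)], [(1, 5, 9)], [(3, 1, 6)
  ], [(3, 1, 11), (3, 1, 5)], [(6, 5, 0)], [(2, 2, 5), (2, 5, 8)], [(1, 5, 8)], [(6, 6, 0)], [(1, 6, 8)
  ], [(2, 3, 7)], [(2, 7, 9)], [(2, 2, 7), (2, 7, 8)], [(1, 7, 8)], [(1, 7, 9)], [(1, 7, 11)], [(7, 0, 0)
  ], [(7, 1, 0)], [(7, 2, 0)], [(7, 3, 0)], [(0, 3, 5)], [(0, 5, 8), (0, 0, 5)], [(0, 3, 7)], [(0, 7, 10)
  ], [(0, 7, 8), (0, 0, 7)], [(0, 1, 4)], [(0, 1, 5)], [(2, 1, 6)], [(0, 1, 6)], [(0, 1, 7)], [(0, 2, 5)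
  ], [(0, 2, 7)], [(0, 4, 11)], [(0, 5, 9)], [(0, 7, 9)], [(0, 7, 11)], [(2, 0, 5)], [(2, 0, 7)], [(2, 1, 5)
  ], [(2, 1, 7)], [(2, 4, 11)], [(2, 7, 11)], [(4, 0, 4)], [(3, 0, 4)], [(3, 0, 6)], [(3, 0, 11), (3, 0, 5)
  ], [(3, 0, 7)], [(4, 0, 5)], [(3, 0, 9)], [(4, 1, 4)], [(3, 1, 4)], [(3, 1, 7)], [(3, 1, 8)], [(4, 1, 5)
  ], [(3, 1, 9)], [(4, 2, 4)], [(3, 2, 4)], [(3, 2, 7)], [(4, 3, 4)], [(3, 3, 4)], [(3, 3, 7)], [(4, 0, 7)
  ], [(4, 1, 7)], [(6, 4, 0)], [(6, 7, 0)]]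

private theorem h0 : chk 15 5 10 31 N (okM 12 3) (rwS L1 L2) S = true := by decide +kernel

theorem ok : (sm true 12 2 1 ∅ {(0, 2, 0), (1, 2, 0)}).OK :=
  ok_of_chk _ 12 3 rfl rfl P1 P2 T F L1 L2 (r := 251) N S (by decide +kernel) (by decide +kernel)
    (by decide +kernel) (by decide +kernel) (by decide +kernel) h0 (by decide +kernel)
    (by decide +kernel) (by decide +kernel) (by decide +kernel) (by decide +kernel)

end Pool.Agent.KZ.AL.Ck.T334_2100_0
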