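import Pool.Agent.KZ.AL.OkC

/-! # KZ4, ALPHA: finite check T334_2101_0 (generated) -/

set_option autoImplicit false
set_option maxRecDepth 100000

namespace Pool.Agent.KZ.AL.Ck.T334_2101_0

open Pool.Agent.KZ (Tri chk rwS)
open Finset (range)

/-- The positions of the T-points. -/
private def P1 : List ((ℕ × ℕ × ℕ) × List (ℕ × ℤ)) :=
  [((0, 2, 0), [(0, 1), (1, 1), (2, 2), (11, 1)]), ((0, 2, 1), [(0, 1), (3, 1), (8, 1)]),
   ((0, 2, 2), [(1, 1), (2, 4), (9, 2), (10, 2), (11, 3)]), ((1, 2, 0), [(6, 1), (8, 1), (11, 1)]),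
   ((1, 2, 1), [(5, 1), (9, 1)]), ((1, 2, 2), [(4, 1), (9, 1)])]

/-- The positions of the free items. -/
private def P2 : List ((ℕ × ℕ × ℕ) × List (ℕ × ℤ)) :=
  []

private def T : List (ℕ × ℕ × ℕ) :=
  [(0, 2, 0), (0, 2, 1), (0, 2, 2), (1, 2, 0), (1, 2, 1), (1, 2, 2)]

private def F : List (ℕ × ℕ × ℕ) :=
  []

private def L1 : List (List (ℕ × ℕ)) :=
  [[(0, 1), (1, 1), (2, 2), (11, 1)], [(0, 1), (3, 1), (8, 1)], [(1, 1), (2, 4), (9, 2), (10, 2), (11, 3)],
   [(6, 1), (8, 1), (11, 1)], [(5, 1), (9, 1)], [(4, 1), (9, 1)]]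

private def L2 : List (List (ℕ × ℕ)) :=
  []

private def t0 : Tri :=
  (.node (.node (.node (.node .nil 68736258049 8 16 .nil) 68736286721 9 16 (.node .nil 68736516097 11 16 .nil)) 68736516104 14 16 (.node (.node .nil 68736516160 15 16 .nil) 68736516608 12 16 .nil)) 68738351105 13 16 (.node (.node (.node .nil 68853698561 4 16 .nil) 68853698568 5 16 .nil) 68853698624 6 16 (.node (.node .nil 68853699072 7 16 .nil) 68853727233 0 16 .nil)))

private def t1 : Tri :=
  (.node t0 68853727240 1 16 (.node (.node (.node (.node .nil 68853727296 2 16 .nil) 68853727744 3 16 .nil) 68853956616 22 8 (.node (.node .nil 68855791624 23 8 .nil) 69793222664 20 8 .nil)) 69793251336 21 8 (.node (.node (.node .nil 77309415425 17 16 .nil) 77309444097 18 16 .nil) 77309673473 10 16 (.node (.node .nil 77309673984 16 16 .nil) 77311508481 19 16 .nil))))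

private def N : Tri := t1

private def S : List (List (ℕ × ℕ × ℕ)) :=
  [[(4, 0, 12)], [(4, 1, 12)], [(4, 2, 12)], [(4, 3, 12)], [(5, 0, 12)], [(5, 1, 12)], [(5, 2, 12)], [(5, 3, 12)
  ], [(1, 4, 12)], [(1, 5, 12)], [(0, 6, 12)], [(3, 0, 12)], [(1, 6, 12)], [(1, 7, 12)], [(3, 1, 12)], [(3, 2, 12)
  ], [(3, 3, 12)], [(0, 4, 12)], [(0, 5, 12)], [(0, 7, 12)], [(2, 4, 12)], [(2, 5, 12)], [(2, 6, 12)], [(2, 7, 12)
  ]]

private theorem h0 : chk 14 5 9 31 N (okM 13 4) (rwS L1 L2) S = true := by decide +kernel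

theorem ok : (sm true 13 2 1 ∅ ∅).OK :=
  ok_of_chk _ 13 4 rfl rfl P1 P2 T F L1 L2 (r := 24) N S (by decide +kernel) (by decide +kernel)
    (by decide +kernel) (by decide +kernel) (by decide +kernel) h0 (by decide +kernel)
    (by decide +kernel) (by decide +kernel) (by decide +kernel) (by decide +kernel)

end Pool.Agent.KZ.AL.Ck.T334_2101_0
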