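import Pool.Agent.KZ.AL.OkC

/-! # KZ4, ALPHA: finite check T334_2110_0 (generated) -/

set_option autoImplicit false
set_option maxRecDepth 100000

namespace Pool.Agent.KZ.AL.Ck.T334_2110_0

open Pool.Agent.KZ (Tri chk rwS)
open Finset (range)

/-- The positions of the T-points. -/
private def P1 : List ((ℕ × ℕ × ℕ) × List (ℕ × ℤ)) :=
  [((0, 2, 0), [(0, 1), (2, 1), (11, 1)]), ((0, 2, 1), [(1, 1), (9, 1), (10, 1), (11, 1)]),
   ((0, 2, 2), [(0, 1), (10, 1), (11, 1)]), ((0, 3, 0), [(2, 1), (14, 1)]),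
   ((0, 3, 1), [(3, 1), (13, 1)]), ((0, 3, 2), [(0, 1), (1, 1), (3, 1), (14, 1)]),
   ((1, 2, 0), [(4, 2), (7, 1), (9, 1)]), ((1, 2, 1), [(5, 1), (9, 1), (10, 1)]),
   ((1, 2, 2), [(4, 1), (9, 1)]), ((1, 3, 0), [(6, 1), (7, 1), (13, 1), (14, 1)]),
   ((1, 3, 1), [(4, 3), (6, 1), (12, 1)]), ((1, 3, 2), [(5, 1), (6, 1), (12, 1)]),
   ((2, 3, 0), [(10, 1), (12, 1), (13, 1), (15, 1)]), ((2, 3, 1), [(8, 1), (11, 1), (15, 1)]),
   ((2, 3, 2), [(8, 1), (12, 1), (14, 1), (15, 1)]), ((2, 3, 3), [(8, 1), (13, 2), (15, 1)])]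

/-- The positions of the free items. -/
private def P2 : List ((ℕ × ℕ × ℕ) × List (ℕ × ℤ)) :=
  []

private def T : List (ℕ × ℕ × ℕ) :=
  [(0, 2, 0), (0, 2, 1), (0, 2, 2), (0, 3, 0), (0, 3, 1), (0, 3, 2), (1, 2, 0), (1, 2, 1),
   (1, 2, 2), (1, 3, 0), (1, 3, 1), (1, 3, 2), (2, 3, 0), (2, 3, 1), (2, 3, 2), (2, 3, 3)]

private def F : List (ℕ × ℕ × ℕ) :=
  []

private def L1 : List (List (ℕ × ℕ)) :=
  [[(0, 1), (2, 1), (11, 1)], [(1, 1), (9, 1), (10, 1), (11, 1)], [(0, 1), (10, 1), (11, 1)],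
   [(2, 1), (14, 1)], [(3, 1), (13, 1)], [(0, 1), (1, 1), (3, 1), (14, 1)],
   [(4, 2), (7, 1), (9, 1)], [(5, 1), (9, 1), (10, 1)], [(4, 1), (9, 1)],
   [(6, 1), (7, 1), (13, 1), (14, 1)], [(4, 3), (6, 1), (12, 1)], [(5, 1), (6, 1), (12, 1)],
   [(10, 1), (12, 1), (13, 1), (15, 1)], [(8, 1), (11, 1), (15, 1)], [(8, 1), (12, 1), (14, 1), (15, 1)],
   [(8, 1), (13, 2), (15, 1)]]

private def L2 : List (List (ℕ × ℕ)) :=
  []

private def t0 : Tri :=
  (.node (.node (.node (.node .nil 68736258049 144 26 .nil) 68736258056 159 26 (.node .nil 68736258112 59 26 .nil)) 68736258560 166 26 (.node (.node .nil 68736286721 145 16 .nil) 68736286728 157 16 (.node .nil 68736286784 70 16 .nil))) 68736287232 151 16 (.node (.node (.node .nil 68736516097 143 16 .nil) 68736516104 158 16 (.node .nil 68736516160 58 16 .nil)) 68736516608 150 16 (.node (.node .nil 68738351105 232 16 .nil) 68738351112 233 16 .nil)))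

private def t1 : Tri :=
  (.node (.node (.node (.node .nil 68738351616 235 16 .nil) 68853698561 32 16 (.node .nil 68853698568 36 16 .nil)) 68853698624 40 16 (.node (.node .nil 68853699072 43 16 .nil) 68853727233 47 16 (.node .nil 68853727240 118 16 .nil))) 68853727296 125 16 (.node (.node (.node .nil 68853727744 131 16 .nil) 68853956609 46 16 (.node .nil 68853956616 117 16 .nil)) 68853956672 124 16 (.node (.node .nil 68853957120 130 16 .nil) 68855791617 100 16 .nil)))

private def t2 : Tri :=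
  (.node t0 68738351168 234 16 t1)

private def t3 : Tri :=
  (.node (.node (.node (.node .nil 68855791680 108 16 .nil) 68855792128 111 16 (.node .nil 69793222657 50 26 .nil)) 69793222664 161 26 (.node (.node .nil 69793222720 165 26 .nil) 69793223168 168 26 (.node .nil 69793251329 48 16 .nil))) 69793251336 119 16 (.node (.node (.node .nil 69793251392 126 16 .nil) 69793251840 132 16 (.node .nil 69793480705 49 16 .nil)) 69793480712 160 16 (.node (.node .nil 69793480768 164 16 .nil) 69793481216 167 16 .nil)))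

private def t4 : Tri :=
  (.node (.node (.node (.node .nil 69795315720 217 16 .nil) 69795315776 228 16 (.node .nil 69795316224 231 16 .nil)) 77309415425 51 16 (.node (.node .nil 77309415432 162 16 .nil) 77309415488 52 16 (.node .nil 77309415936 169 26 .nil))) 77309444097 68 16 (.node (.node (.node .nil 77309444104 170 16 .nil) 77309444160 69 16 (.node .nil 77309444608 171 16 .nil)) 77309673473 79 16 (.node (.node .nil 77309673480 163 16 .nil) 77309673536 80 16 .nil)))

private def t5 : Tri :=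
  (.node t3 69795315713 93 16 t4)

private def t6 : Tri :=
  (.node t2 68855791624 104 16 t5)

private def t7 : Tri :=
  (.node (.node (.node (.node .nil 77311508488 218 16 .nil) 77311508544 95 16 (.node .nil 549772595201 191 8 .nil)) 549772595208 193 8 (.node (.node .nil 549772595264 195 8 .nil) 549772595712 16 16 (.node .nil 549772623873 192 8 .nil))) 549772623880 194 8 (.node (.node (.node .nil 549772623936 196 8 .nil) 549772624384 20 16 (.node .nil 549772853249 138 8 .nil)) 549772853256 182 8 (.node (.node .nil 549772853312 56 16 .nil) 549772853760 24 16 .nil)))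

private def t8 : Tri :=
  (.node (.node (.node (.node .nil 549774688264 183 16 .nil) 549774688320 55 8 (.node .nil 549774688768 28 16 .nil)) 549890035713 33 16 (.node (.node .nil 549890035720 37 16 .nil) 549890035776 41 16 (.node .nil 549890036224 17 16 .nil))) 549890064385 114 16 (.node (.node (.node .nil 549890064392 121 16 .nil) 549890064448 128 16 (.node .nil 549890064896 21 16 .nil)) 549890293761 236 16 (.node (.node .nil 549890293768 211 16 .nil) 549890293824 237 16 .nil)))

private def t9 : Tri :=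
  (.node t7 549774688257 140 8 t8)

private def t10 : Tri :=
  (.node (.node (.node (.node .nil 549892128769 101 16 .nil) 549892128776 105 16 (.node .nil 549892128832 109 16 .nil)) 549892129280 29 16 (.node (.node .nil 550829559809 64 16 .nil) 550829559816 198 16 (.node .nil 550829559872 225 16 .nil))) 550829560320 18 16 (.node (.node (.node .nil 550829588481 75 16 .nil) 550829588488 120 16 (.node .nil 550829588544 127 16 .nil)) 550829588992 22 16 (.node (.node .nil 550829817857 84 16 .nil) 550829817864 212 16 .nil)))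

private def t11 : Tri :=
  (.node (.node (.node (.node .nil 550829818368 26 16 .nil) 550831652865 91 16 (.node .nil 550831653376 30 16 .nil)) 558345752577 65 16 (.node (.node .nil 558345752584 199 16 .nil) 558345752640 66 16 (.node .nil 558345753088 19 16 .nil))) 558345781249 76 16 (.node (.node (.node .nil 558345781256 201 16 .nil) 558345781312 77 16 (.node .nil 558345781760 23 16 .nil)) 558346010625 85 16 (.node (.node .nil 558346010632 213 16 .nil) 558346010688 86 16 .nil)))

private def t12 : Tri :=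
  (.node t10 550829817920 226 16 t11)

private def t13 : Tri :=
  (.node t9 549890294272 25 16 t12)

private def t14 : Tri :=
  (.node t6 77311508481 94 16 t13)

private def t15 : Tri :=
  (.node (.node (.node (.node .nil 558347845633 96 16 .nil) 558347845640 219 16 (.node .nil 558347845696 97 16 .nil)) 558347846144 31 16 (.node (.node .nil 4398063292417 173 16 .nil) 4398063292424 176 16 (.node .nil 4398063292480 0 16 .nil))) 4398063292928 175 16 (.node (.node (.node .nil 4398063321089 147 16 .nil) 4398063321096 154 16 (.node .nil 4398063321152 4 16 .nil)) 4398063321600 153 16 (.node (.node .nil 4398063550465 142 16 .nil) 4398063550472 179 16 .nil)))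

private def t16 : Tri :=
  (.node (.node (.node (.node .nil 4398063550976 148 16 .nil) 4398065385473 141 16 (.node .nil 4398065385536 12 16 .nil)) 4398180732929 34 16 (.node (.node .nil 4398180732936 38 16 .nil) 4398180732992 1 16 (.node .nil 4398180733440 44 16 .nil))) 4398180761601 115 16 (.node (.node (.node .nil 4398180761608 122 16 .nil) 4398180761664 5 16 (.node .nil 4398180762112 133 16 .nil)) 4398180990977 224 16 (.node (.node .nil 4398180990984 210 16 .nil) 4398180991040 9 16 .nil)))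

private def t17 : Tri :=
  (.node t15 4398063550528 8 16 t16)

private def t18 : Tri :=
  (.node (.node (.node (.node .nil 4398182825985 102 16 .nil) 4398182825992 106 16 (.node .nil 4398182826048 13 16 .nil)) 4398182826496 112 16 (.node (.node .nil 4399120257025 98 16 .nil) 4399120257032 200 16 (.node .nil 4399120257088 2 16 .nil))) 4399120257536 220 16 (.node (.node (.node .nil 4399120285697 99 16 .nil) 4399120285760 6 16 (.node .nil 4399120286208 134 16 .nil)) 4399120515073 88 16 (.node (.node .nil 4399120515080 206 16 .nil) 4399120515136 10 16 .nil)))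

private def t19 : Tri :=
  (.node (.node (.node (.node .nil 4399122350081 90 16 .nil) 4399122350088 203 16 (.node .nil 4399122350144 14 16 .nil)) 4399122350592 204 16 (.node (.node .nil 4406636449793 67 16 .nil) 4406636449856 3 16 (.node .nil 4406636450304 221 16 .nil))) 4406636478465 78 16 (.node (.node (.node .nil 4406636478472 202 16 .nil) 4406636478528 7 16 (.node .nil 4406636478976 222 16 .nil)) 4406636707841 87 16 (.node (.node .nil 4406636707848 209 16 .nil) 4406636707904 11 16 .nil)))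

private def t20 : Tri :=
  (.node t18 4399120515584 205 16 t19)

private def t21 : Tri :=
  (.node t17 4398180991488 223 16 t20)

private def t22 : Tri :=
  (.node (.node (.node (.node .nil 4406638542849 89 16 .nil) 4406638542912 15 16 (.node .nil 4406638543360 207 16 .nil)) 35184388870145 172 16 (.node (.node .nil 35184388870152 177 16 .nil) 35184388870208 60 16 (.node .nil 35184388870656 174 16 .nil))) 35184388898817 146 16 (.node (.node (.node .nil 35184388898824 156 16 .nil) 35184388898880 71 16 (.node .nil 35184388899328 152 16 .nil)) 35184389128193 137 16 (.node (.node .nil 35184389128200 180 16 .nil) 35184389128256 57 16 .nil)))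

private def t23 : Tri :=
  (.node (.node (.node (.node .nil 35184390963201 139 16 .nil) 35184390963208 184 16 (.node .nil 35184390963264 54 16 .nil)) 35184390963712 189 16 (.node (.node .nil 35184506310657 35 16 .nil) 35184506310664 39 16 (.node .nil 35184506310720 42 16 .nil))) 35184506311168 45 16 (.node (.node (.node .nil 35184506339329 116 16 .nil) 35184506339336 123 16 (.node .nil 35184506339392 129 16 .nil)) 35184506339840 136 16 (.node (.node .nil 35184506568712 215 16 .nil) 35184508403713 103 16 .nil)))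

private def t24 : Tri :=
  (.node t22 35184389128704 149 16 t23)

private def t25 : Tri :=
  (.node (.node (.node (.node .nil 35184508403776 110 16 .nil) 35184508404224 113 16 (.node .nil 35185445834753 63 16 .nil)) 35185445834760 197 16 (.node (.node .nil 35185445835264 229 16 .nil) 35185445863425 74 16 (.node .nil 35185445863936 135 16 .nil))) 35185446092801 83 16 (.node (.node (.node .nil 35185446092808 214 16 .nil) 35185446092864 227 16 (.node .nil 35185446093312 230 16 .nil)) 35185447927809 92 16 (.node (.node .nil 35185447927816 216 16 .nil) 35192962027521 62 16 .nil)))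

private def t26 : Tri :=
  (.node (.node (.node (.node .nil 35192962027584 61 16 .nil) 35192962028032 186 16 (.node .nil 35192962056193 73 16 .nil)) 35192962056200 155 16 (.node (.node .nil 35192962056256 72 16 .nil) 35192962056704 187 16 .nil)) 35192962285569 82 16 (.node (.node (.node .nil 35192962285576 181 16 .nil) 35192962285632 81 16 (.node .nil 35192962286080 188 16 .nil)) 35192964120584 185 16 (.node (.node .nil 35192964120640 53 16 .nil) 35192964121088 190 16 .nil)))

private def t27 : Tri :=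
  (.node t25 35192962027528 178 16 t26)

private def t28 : Tri :=
  (.node t24 35184508403720 107 16 t27)

private def t29 : Tri :=
  (.node t21 4406636708352 208 16 t28)

private def t30 : Tri :=
  (.node t14 558346011136 27 16 t29)

private def N : Tri := t30

private def S : List (List (ℕ × ℕ × ℕ)) :=
  [[(3, 4, 8)], [(3, 4, 9)], [(3, 4, 10)], [(3, 4, 11)], [(3, 5, 8)], [(3, 5, 9)], [(3, 5, 10)], [(3, 5, 11)
  ], [(3, 6, 8)], [(3, 6, 9)], [(3, 6, 10)], [(3, 6, 11)], [(3, 7, 8)], [(3, 7, 9)], [(3, 7, 10)], [(3, 7, 11)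
  ], [(4, 4, 8)], [(4, 4, 9)], [(4, 4, 10)], [(4, 4, 11)], [(4, 5, 8)], [(4, 5, 9)], [(4, 5, 10)], [(4, 5, 11)
  ], [(4, 6, 8)], [(4, 6, 9)], [(4, 6, 10)], [(4, 6, 11)], [(4, 7, 8)], [(4, 7, 9)], [(4, 7, 10)], [(4, 7, 11)
  ], [(8, 0, 12)], [(8, 0, 13)], [(8, 0, 14)], [(8, 0, 15)], [(8, 1, 12)], [(8, 1, 13)], [(8, 1, 14)], [(8, 1, 15)
  ], [(8, 2, 12)], [(8, 2, 13)], [(8, 2, 15)], [(8, 3, 12)], [(8, 3, 14)], [(8, 3, 15)], [(10, 0, 9)], [(11, 0, 9)
  ], [(7, 0, 12)], [(11, 0, 10)], [(10, 0, 10)], [(2, 4, 12)], [(0, 4, 12)], [(0, 7, 15)], [(13, 2, 7)], [(15, 2, 7)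
  ], [(9, 2, 8)], [(15, 2, 6)], [(14, 2, 6)], [(10, 2, 8)], [(14, 2, 4)], [(13, 2, 4)], [(0, 4, 15)], [(2, 4, 15)
  ], [(12, 0, 4)], [(2, 4, 13)], [(0, 4, 13)], [(0, 4, 14)], [(2, 5, 12)], [(0, 5, 12)], [(11, 2, 8)], [(14, 2, 5)
  ], [(13, 2, 5)], [(0, 5, 15)], [(2, 5, 15)], [(12, 0, 5)], [(2, 5, 13)], [(0, 5, 13)], [(0, 5, 14)], [(2, 6, 12)
  ], [(0, 6, 12)], [(13, 2, 6)], [(0, 6, 15)], [(2, 6, 15)], [(12, 0, 6)], [(2, 6, 13)], [(0, 6, 13)], [(0, 6, 14)
  ], [(2, 6, 14)], [(0, 7, 14)], [(2, 7, 14)], [(9, 0, 10)], [(2, 7, 15)], [(12, 0, 7)], [(2, 7, 12)], [(0, 7, 12)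
  ], [(2, 7, 13)], [(0, 7, 13)], [(2, 4, 14)], [(2, 5, 14)], [(6, 0, 12)], [(6, 0, 13)], [(6, 0, 14)], [(6, 0, 15)
  ], [(6, 1, 12)], [(6, 1, 13)], [(6, 1, 14)], [(6, 1, 15)], [(6, 2, 12)], [(6, 2, 13)], [(6, 2, 15)], [(6, 3, 12)
  ], [(6, 3, 14)], [(6, 3, 15)], [(7, 0, 13)], [(7, 0, 14)], [(7, 0, 15)], [(10, 1, 9)], [(11, 1, 9)], [(7, 1, 12)
  ], [(12, 1, 5)], [(7, 1, 13)], [(7, 1, 14)], [(7, 1, 15)], [(10, 2, 9)], [(11, 2, 9)], [(7, 2, 12)], [(12, 2, 5)
  ], [(7, 2, 13)], [(7, 2, 15)], [(10, 3, 9)], [(11, 3, 9)], [(7, 3, 12)], [(5, 5, 9)], [(7, 3, 14)], [(12, 3, 5)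
  ], [(7, 3, 15)], [(13, 0, 6)], [(15, 0, 6)], [(13, 0, 7)], [(15, 0, 7)], [(5, 7, 8)], [(9, 0, 8)], [(14, 0, 6)
  ], [(10, 0, 8)], [(11, 0, 8)], [(13, 0, 5)], [(14, 0, 5)], [(9, 3, 8)], [(15, 3, 6)], [(14, 3, 6)], [(11, 3, 8)
  ], [(15, 3, 5)], [(14, 3, 5)], [(5, 5, 8)], [(1, 5, 15)], [(13, 1, 5)], [(14, 1, 5)], [(11, 1, 8)], [(10, 1, 8)
  ], [(11, 1, 10)], [(10, 1, 10)], [(1, 4, 12)], [(10, 1, 11)], [(11, 2, 10)], [(10, 2, 10)], [(10, 3, 8)], [(11, 3, 10)
  ], [(10, 3, 10)], [(10, 3, 11)], [(11, 1, 11)], [(11, 3, 11)], [(13, 0, 4)], [(14, 0, 4)], [(15, 3, 4)], [(14, 3, 4)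
  ], [(5, 4, 8)], [(14, 1, 4)], [(13, 1, 4)], [(5, 6, 8)], [(14, 1, 6)], [(13, 1, 6)], [(15, 1, 6)], [(9, 1, 8)
  ], [(15, 1, 7)], [(13, 1, 7)], [(13, 3, 4)], [(13, 3, 5)], [(13, 3, 6)], [(15, 3, 7)], [(13, 3, 7)], [(15, 0, 4)
  ], [(15, 0, 5)], [(15, 1, 4)], [(15, 1, 5)], [(15, 2, 4)], [(15, 2, 5)], [(1, 4, 15)], [(12, 1, 4)], [(1, 4, 13)
  ], [(1, 4, 14)], [(1, 5, 13)], [(1, 5, 14)], [(1, 7, 14)], [(5, 7, 10)], [(9, 3, 10)], [(5, 6, 10)], [(5, 7, 11)
  ], [(9, 3, 11)], [(5, 6, 11)], [(1, 6, 14)], [(9, 1, 9)], [(9, 1, 10)], [(1, 6, 13)], [(12, 1, 6)], [(1, 6, 15)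
  ], [(1, 7, 15)], [(12, 1, 7)], [(1, 7, 12)], [(1, 7, 13)], [(5, 4, 10)], [(5, 4, 11)], [(5, 5, 11)], [(9, 3, 9)
  ], [(5, 6, 9)], [(12, 2, 4)], [(9, 2, 10)], [(12, 2, 6)], [(12, 2, 7)], [(12, 3, 4)], [(12, 3, 6)], [(12, 3, 7)
  ], [(14, 0, 7)], [(14, 1, 7)], [(14, 2, 7)], [(14, 3, 7)], [(9, 0, 9)], [(9, 2, 9)]]

private theorem h0 : chk 11 5 6 31 N (okM 16 4) (rwS L1 L2) S = true := by decide +kernel

theorem ok : (sm true 16 2 1 ∅ ∅).OK :=
  ok_of_chk _ 16 4 rfl rfl P1 P2 T F L1 L2 (r := 238) N S (by decide +kernel) (by decide +kernel)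
    (by decide +kernel) (by decide +kernel) (by decide +kernel) h0 (by decide +kernel)
    (by decide +kernel) (by decide +kernel) (by decide +kernel) (by decide +kernel)

end Pool.Agent.KZ.AL.Ck.T334_2110_0
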