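import Pool.Agent.KZ.AL.OkC

/-! # KZ4, ALPHA: finite check T334_2200_0 (generated) -/

set_option autoImplicit false
set_option maxRecDepth 100000

namespace Pool.Agent.KZ.AL.Ck.T334_2200_0

open Pool.Agent.KZ (Tri chk rwS)
open Finset (range)

/-- The positions of the T-points. -/
private def P1 : List ((ℕ × ℕ × ℕ) × List (ℕ × ℤ)) :=
  [((0, 2, 0), [(2, 1), (8, 1), (10, 2), (11, 3)]), ((0, 2, 1), [(0, 1), (3, 1), (10, 1)]),
   ((0, 2, 2), [(0, 2), (2, 1), (9, 1)]), ((0, 3, 0), [(0, 2), (14, 1)]),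
   ((0, 3, 1), [(3, 1), (12, 2), (13, 1), (14, 1), (15, 1)]), ((0, 3, 2), [(1, 1), (14, 1)]),
   ((1, 2, 0), [(5, 2), (9, 1), (10, 1)]), ((1, 2, 1), [(5, 1), (8, 2)]),
   ((1, 2, 2), [(6, 3), (7, 1), (11, 1)]), ((1, 3, 0), [(6, 1), (14, 2), (15, 1)]),
   ((1, 3, 1), [(4, 1), (12, 1), (14, 1)]), ((1, 3, 2), [(6, 1), (12, 1)])]

/-- The positions of the free items. -/
private def P2 : List ((ℕ × ℕ × ℕ) × List (ℕ × ℤ)) :=
  []

private def T : List (ℕ × ℕ × ℕ) :=
  [(0, 2, 0), (0, 2, 1), (0, 2, 2), (0, 3, 0), (0, 3, 1), (0, 3, 2), (1, 2, 0), (1, 2, 1),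
   (1, 2, 2), (1, 3, 0), (1, 3, 1), (1, 3, 2)]

private def F : List (ℕ × ℕ × ℕ) :=
  []

private def L1 : List (List (ℕ × ℕ)) :=
  [[(2, 1), (8, 1), (10, 2), (11, 3)], [(0, 1), (3, 1), (10, 1)], [(0, 2), (2, 1), (9, 1)],
   [(0, 2), (14, 1)], [(3, 1), (12, 2), (13, 1), (14, 1), (15, 1)], [(1, 1), (14, 1)],
   [(5, 2), (9, 1), (10, 1)], [(5, 1), (8, 2)], [(6, 3), (7, 1), (11, 1)],
   [(6, 1), (14, 2), (15, 1)], [(4, 1), (12, 1), (14, 1)], [(6, 1), (12, 1)]]

private def L2 : List (List (ℕ × ℕ)) :=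
  []

private def t0 : Tri :=
  (.node (.node (.node (.node (.node .nil 68736258049 142 16 .nil) 68736258056 144 16 .nil) 68736258112 150 16 (.node (.node .nil 68736258560 152 16 .nil) 68736286721 32 8 .nil)) 68736286728 35 8 (.node (.node (.node .nil 68736286784 38 8 .nil) 68736287232 42 8 .nil) 68736516097 46 16 (.node .nil 68736516104 50 16 .nil))) 68736516160 54 16 (.node (.node (.node (.node .nil 68736516608 58 16 .nil) 68738351168 162 16 .nil) 68738351616 172 8 (.node (.node .nil 68853698561 87 16 .nil) 68853698568 145 16 .nil)) 68853698624 88 16 (.node (.node (.node .nil 68853699072 153 16 .nil) 68853727233 92 8 .nil) 68853727240 107 8 (.node .nil 68853727296 93 16 .nil))))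

private def t1 : Tri :=
  (.node (.node (.node (.node (.node .nil 68853956609 47 16 .nil) 68853956616 51 16 .nil) 68853956672 55 16 (.node (.node .nil 68853957120 59 16 .nil) 68855791617 103 8 .nil)) 68855792128 173 8 (.node (.node (.node .nil 69793222657 62 16 .nil) 69793222664 146 16 .nil) 69793222720 148 16 (.node .nil 69793223168 63 16 .nil))) 69793251329 74 16 (.node (.node (.node (.node .nil 69793251392 110 8 .nil) 69793251840 73 8 .nil) 69793480705 48 16 (.node (.node .nil 69793480712 52 16 .nil) 69793480768 56 16 .nil)) 69793481216 60 16 (.node (.node (.node .nil 69795315713 84 16 .nil) 69795316224 83 8 .nil) 77309415425 143 16 (.node .nil 77309415432 147 16 .nil))))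

private def t2 : Tri :=
  (.node t0 68853727744 72 8 t1)

private def t3 : Tri :=
  (.node (.node (.node (.node (.node .nil 77309415936 154 16 .nil) 77309444160 157 26 .nil) 77309444608 169 8 (.node (.node .nil 77309673473 49 16 .nil) 77309673480 53 16 .nil)) 77309673536 57 16 (.node (.node (.node .nil 77309673984 61 16 .nil) 77311508481 114 16 .nil) 77311508488 118 16 (.node .nil 77311508544 122 16 .nil))) 77311508992 127 16 (.node (.node (.node (.node .nil 549772595264 155 16 .nil) 549772595712 166 16 .nil) 549772623873 33 8 (.node (.node .nil 549772623880 36 8 .nil) 549772623936 39 8 .nil)) 549772624384 43 8 (.node (.node (.node .nil 549772853312 161 16 .nil) 549772853760 170 16 .nil) 549774688320 163 16 (.node .nil 549890035713 89 8 .nil))))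

private def t4 : Tri :=
  (.node (.node (.node (.node (.node .nil 549890064385 94 8 .nil) 549890064392 108 8 .nil) 549890064448 95 16 (.node (.node .nil 549890064896 68 8 .nil) 549890293761 99 8 .nil)) 549890294272 171 16 (.node (.node (.node .nil 549892128769 104 8 .nil) 550829559809 66 16 .nil) 550829560320 65 16 (.node .nil 550829588481 75 16 .nil))) 550829588544 111 8 (.node (.node (.node (.node .nil 550829817857 81 16 .nil) 550829818368 80 16 .nil) 550831652865 85 16 (.node (.node .nil 558345753088 168 16 .nil) 558345781312 158 26 .nil)) 558346010625 115 26 (.node (.node (.node .nil 558346010632 119 26 .nil) 558346010688 123 26 .nil) 558346011136 129 16 (.node .nil 558347846144 130 16 .nil))))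

private def t5 : Tri :=
  (.node t3 549890036224 167 16 t4)

private def t6 : Tri :=
  (.node t2 77309415488 149 16 t5)

private def t7 : Tri :=
  (.node (.node (.node (.node (.node .nil 4398063292424 16 16 .nil) 4398063292480 151 16 .nil) 4398063321089 4 8 (.node (.node .nil 4398063321096 20 16 .nil) 4398063321152 40 8 .nil)) 4398063321600 44 8 (.node (.node (.node .nil 4398063550465 8 8 .nil) 4398063550472 24 16 .nil) 4398063550528 138 16 (.node .nil 4398063550976 140 8 .nil))) 4398065385473 12 8 (.node (.node (.node (.node .nil 4398065385480 28 16 .nil) 4398065385536 164 16 .nil) 4398180732929 1 8 (.node (.node .nil 4398180732936 17 16 .nil) 4398180732992 90 16 .nil)) 4398180761601 5 8 (.node (.node (.node .nil 4398180761608 21 16 .nil) 4398180761664 96 16 .nil) 4398180762112 70 8 (.node .nil 4398180990977 9 8 .nil))))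

private def t8 : Tri :=
  (.node (.node (.node (.node (.node .nil 4398180991040 100 16 .nil) 4398180991488 141 8 .nil) 4398182825985 13 8 (.node (.node .nil 4398182825992 29 16 .nil) 4398182826048 105 16 .nil)) 4399120257025 2 8 (.node (.node (.node .nil 4399120257032 18 16 .nil) 4399120257536 64 16 .nil) 4399120285697 6 8 (.node .nil 4399120285704 22 16 .nil))) 4399120285760 112 8 (.node (.node (.node (.node .nil 4399120286208 69 16 .nil) 4399120515073 10 8 .nil) 4399120515080 26 16 (.node (.node .nil 4399120515136 137 8 .nil) 4399120515584 77 16 .nil)) 4399122350081 14 8 (.node (.node (.node .nil 4399122350088 30 16 .nil) 4399122350592 82 16 .nil) 4406636449793 3 8 (.node .nil 4406636449800 19 16 .nil))))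

private def t9 : Tri :=
  (.node t7 4398180990984 25 16 t8)

private def t10 : Tri :=
  (.node (.node (.node (.node (.node .nil 4406636478472 23 16 .nil) 4406636478528 159 26 .nil) 4406636707841 11 8 (.node (.node .nil 4406636707848 27 16 .nil) 4406636707904 124 8 .nil)) 4406636708352 128 8 (.node (.node (.node .nil 4406638542849 15 8 .nil) 4406638542856 31 16 .nil) 4406638542912 125 16 (.node .nil 4406638543360 131 16 .nil))) 35184388870208 156 16 (.node (.node (.node (.node .nil 35184388898817 34 8 .nil) 35184388898824 37 8 .nil) 35184388898880 41 8 (.node (.node .nil 35184388899328 45 8 .nil) 35184389128193 133 16 .nil)) 35184389128200 134 16 (.node (.node (.node .nil 35184389128256 139 16 .nil) 35184390963264 165 16 .nil) 35184506310657 91 8 (.node .nil 35184506339329 97 8 .nil))))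

private def t11 : Tri :=
  (.node (.node (.node (.node (.node .nil 35184506339392 98 16 .nil) 35184506339840 71 8 .nil) 35184506568705 101 16 (.node (.node .nil 35184506568712 135 16 .nil) 35184506568768 102 16 .nil)) 35184508403713 106 8 (.node (.node (.node .nil 35185445834753 67 16 .nil) 35185445863425 76 16 .nil) 35185445863488 113 8 (.node .nil 35185446092801 78 16 .nil))) 35185446092808 136 16 (.node (.node (.node (.node .nil 35185446093312 79 16 .nil) 35185447927809 86 16 .nil) 35192962056256 160 26 (.node .nil 35192962285569 116 16 .nil)) 35192962285576 120 16 (.node (.node (.node .nil 35192964120577 117 16 .nil) 35192964120584 121 16 .nil) 35192964120640 126 16 (.node .nil 35192964121088 132 16 .nil))))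

private def t12 : Tri :=
  (.node t10 35184506339336 109 8 t11)

private def t13 : Tri :=
  (.node t9 4406636478465 7 8 t12)

private def t14 : Tri :=
  (.node t6 4398063292417 0 8 t13)

private def N : Tri := t14

private def S : List (List (ℕ × ℕ × ℕ)) :=
  [[(3, 4, 8)], [(3, 4, 9)], [(3, 4, 10)], [(3, 4, 11)], [(3, 5, 8)], [(3, 5, 9)], [(3, 5, 10)], [(3, 5, 11)
  ], [(3, 6, 8)], [(3, 6, 9)], [(3, 6, 10)], [(3, 6, 11)], [(3, 7, 8)], [(3, 7, 9)], [(3, 7, 10)], [(3, 7, 11)
  ], [(5, 4, 8)], [(5, 4, 9)], [(5, 4, 10)], [(5, 4, 11)], [(5, 5, 8)], [(5, 5, 9)], [(5, 5, 10)], [(5, 5, 11)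
  ], [(5, 6, 8)], [(5, 6, 9)], [(5, 6, 10)], [(5, 6, 11)], [(5, 7, 8)], [(5, 7, 9)], [(5, 7, 10)], [(5, 7, 11)
  ], [(7, 0, 12)], [(7, 0, 13)], [(7, 0, 15)], [(7, 1, 12)], [(7, 1, 13)], [(7, 1, 15)], [(7, 2, 12)], [(7, 2, 13)
  ], [(7, 2, 14)], [(7, 2, 15)], [(7, 3, 12)], [(7, 3, 13)], [(7, 3, 14)], [(7, 3, 15)], [(11, 0, 8)], [(11, 0, 9)
  ], [(11, 0, 10)], [(11, 0, 11)], [(11, 1, 8)], [(11, 1, 9)], [(11, 1, 10)], [(11, 1, 11)], [(11, 2, 8)], [(11, 2, 9)
  ], [(11, 2, 10)], [(11, 2, 11)], [(11, 3, 8)], [(11, 3, 9)], [(11, 3, 10)], [(11, 3, 11)], [(10, 0, 10)], [(1, 4, 12)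
  ], [(1, 4, 14)], [(4, 4, 10)], [(1, 4, 13)], [(1, 4, 15)], [(6, 3, 13)], [(1, 5, 14)], [(6, 3, 14)], [(6, 3, 15)
  ], [(4, 5, 9)], [(6, 3, 12)], [(1, 5, 12)], [(1, 5, 13)], [(1, 5, 15)], [(1, 6, 14)], [(9, 0, 10)], [(1, 6, 15)
  ], [(4, 6, 10)], [(1, 6, 13)], [(1, 7, 14)], [(4, 7, 10)], [(1, 7, 12)], [(1, 7, 13)], [(1, 7, 15)], [(10, 0, 9)
  ], [(2, 4, 12)], [(2, 4, 13)], [(2, 4, 14)], [(2, 4, 15)], [(6, 0, 12)], [(2, 5, 12)], [(6, 0, 13)], [(2, 5, 13)
  ], [(2, 5, 14)], [(6, 0, 15)], [(2, 5, 15)], [(2, 6, 13)], [(2, 6, 14)], [(9, 0, 9)], [(2, 6, 15)], [(2, 7, 12)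
  ], [(2, 7, 13)], [(2, 7, 14)], [(2, 7, 15)], [(6, 1, 12)], [(6, 1, 13)], [(6, 1, 15)], [(6, 2, 12)], [(6, 2, 13)
  ], [(6, 2, 14)], [(6, 2, 15)], [(8, 0, 12)], [(8, 0, 13)], [(9, 0, 11)], [(8, 0, 15)], [(8, 1, 12)], [(8, 1, 13)
  ], [(9, 1, 11)], [(8, 1, 15)], [(8, 2, 12)], [(8, 2, 13)], [(9, 2, 11)], [(8, 2, 14)], [(8, 2, 15)], [(8, 3, 12)
  ], [(9, 3, 11)], [(4, 6, 11)], [(8, 3, 13)], [(8, 3, 14)], [(8, 3, 15)], [(9, 0, 8)], [(9, 1, 8)], [(9, 1, 9)
  ], [(9, 1, 10)], [(9, 2, 10)], [(0, 6, 14)], [(9, 2, 8)], [(9, 3, 8)], [(9, 3, 9)], [(10, 0, 8)], [(10, 0, 11)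
  ], [(10, 1, 8)], [(10, 1, 9)], [(10, 1, 10)], [(10, 1, 11)], [(10, 2, 10)], [(10, 2, 11)], [(0, 4, 12)], [(10, 2, 8)
  ], [(10, 3, 8)], [(10, 3, 9)], [(10, 3, 11)], [(0, 4, 13)], [(0, 4, 15)], [(0, 5, 12)], [(0, 5, 13)], [(0, 5, 14)
  ], [(0, 5, 15)], [(0, 6, 13)], [(0, 7, 12)], [(0, 7, 13)], [(0, 7, 14)], [(0, 7, 15)], [(4, 4, 8)], [(4, 4, 9)
  ], [(4, 4, 11)], [(4, 5, 11)], [(4, 6, 8)], [(4, 6, 9)], [(4, 7, 8)], [(4, 7, 9)]]

private theorem h0 : chk 12 5 7 31 N (okM 16 4) (rwS L1 L2) S = true := by decide +kernel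

theorem ok : (sm true 16 2 2 ∅ ∅).OK :=
  ok_of_chk _ 16 4 rfl rfl P1 P2 T F L1 L2 (r := 174) N S (by decide +kernel) (by decide +kernel)
    (by decide +kernel) (by decide +kernel) (by decide +kernel) h0 (by decide +kernel)
    (by decide +kernel) (by decide +kernel) (by decide +kernel) (by decide +kernel)

end Pool.Agent.KZ.AL.Ck.T334_2200_0
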