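import Pool.Agent.KZ.AL.OkC

/-! # KZ4, ALPHA: finite check T334_2200_A (generated) -/

set_option autoImplicit false
set_option maxRecDepth 100000

namespace Pool.Agent.KZ.AL.Ck.T334_2200_A

open Pool.Agent.KZ (Tri chk rwS)
open Finset (range)

/-- The positions of the T-points. -/
private def P1 : List ((ℕ × ℕ × ℕ) × List (ℕ × ℤ)) :=
  [((0, 2, 0), [(3, 1), (11, 3)]), ((0, 2, 1), [(1, 1), (10, 3)]),
   ((0, 2, 2), [(0, 1), (8, 2), (9, 1), (10, 1), (11, 4)]), ((0, 3, 0), [(3, -1), (13, 4)]),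
   ((0, 3, 1), [(2, 1), (14, 1), (15, 2)]), ((0, 3, 2), [(1, 1), (3, 1), (12, 1), (14, 1)]),
   ((1, 2, 0), [(4, 1), (6, 1), (8, 1), (9, 1), (10, 4)]), ((1, 2, 1), [(4, 1), (5, 1), (6, 3), (8, 1)]),
   ((1, 2, 2), [(5, 1), (8, 1), (10, 1)]), ((1, 3, 0), [(7, 1), (14, 1)]),
   ((1, 3, 1), [(6, 1), (15, 1)]), ((1, 3, 2), [(6, 1), (12, 1)])]

/-- The positions of the free items. -/
private def P2 : List ((ℕ × ℕ × ℕ) × List (ℕ × ℤ)) :=
  []

private def T : List (ℕ × ℕ × ℕ) :=
  [(0, 2, 0), (0, 2, 1), (0, 2, 2), (0, 3, 0), (0, 3, 1), (0, 3, 2), (1, 2, 0), (1, 2, 1),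
   (1, 2, 2), (1, 3, 0), (1, 3, 1), (1, 3, 2)]

private def F : List (ℕ × ℕ × ℕ) :=
  []

private def L1 : List (List (ℕ × ℕ)) :=
  [[(3, 1), (11, 3)], [(1, 1), (10, 3)], [(0, 1), (8, 2), (9, 1), (10, 1), (11, 4)],
   [(3, 30), (13, 4)], [(2, 1), (14, 1), (15, 2)], [(1, 1), (3, 1), (12, 1), (14, 1)],
   [(4, 1), (6, 1), (8, 1), (9, 1), (10, 4)], [(4, 1), (5, 1), (6, 3), (8, 1)], [(5, 1), (8, 1), (10, 1)],
   [(7, 1), (14, 1)], [(6, 1), (15, 1)], [(6, 1), (12, 1)]]

private def L2 : List (List (ℕ × ℕ)) :=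
  []

private def t0 : Tri :=
  (.node (.node (.node (.node (.node .nil 68736258049 119 16 .nil) 68736258056 123 16 .nil) 68736258112 130 16 (.node (.node .nil 68736258560 125 16 .nil) 68736286728 109 16 .nil)) 68736287232 115 16 (.node (.node (.node .nil 68736516097 72 16 .nil) 68736516104 76 16 .nil) 68736516160 79 16 (.node .nil 68736516608 83 16 .nil))) 68738351105 147 8 (.node (.node (.node (.node .nil 68738351112 161 16 .nil) 68853698561 133 16 .nil) 68853698568 150 16 (.node (.node .nil 68853698624 167 16 .nil) 68853699072 152 16 .nil)) 68853727233 141 16 (.node (.node (.node .nil 68853727240 157 16 .nil) 68853956609 73 16 .nil) 68853956616 77 16 (.node .nil 68853956672 80 16 .nil))))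

private def t1 : Tri :=
  (.node (.node (.node (.node (.node .nil 68855791624 162 16 .nil) 69793222664 16 26 .nil) 69793223168 151 16 (.node (.node .nil 69793251329 105 16 .nil) 69793251336 20 26 .nil)) 69793251392 113 16 (.node (.node (.node .nil 69793251840 116 16 .nil) 69793480705 74 16 .nil) 69793480712 24 26 (.node .nil 69793480768 81 16 .nil))) 69793481216 85 16 (.node (.node (.node (.node .nil 69795315720 28 26 .nil) 69795316224 163 16 .nil) 77309415425 134 4 (.node .nil 77309415432 156 16 .nil)) 77309415936 0 26 (.node (.node (.node .nil 77309444104 158 16 .nil) 77309444608 4 26 .nil) 77309673473 75 16 (.node .nil 77309673480 78 16 .nil))))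

private def t2 : Tri :=
  (.node t0 68853957120 84 16 t1)

private def t3 : Tri :=
  (.node (.node (.node (.node (.node .nil 77309673984 8 26 .nil) 77311508488 164 16 .nil) 77311508992 12 26 (.node (.node .nil 549772595201 120 16 .nil) 549772595208 124 16 .nil)) 549772595264 131 16 (.node (.node (.node .nil 549772595712 32 27 .nil) 549772623880 110 16 .nil) 549772624384 35 27 (.node .nil 549772853760 38 27 .nil))) 549774688257 148 8 (.node (.node (.node (.node .nil 549774688768 41 27 .nil) 549890035713 135 16 .nil) 549890035720 165 16 (.node (.node .nil 549890035776 168 16 .nil) 549890036224 33 27 .nil)) 549890064385 142 16 (.node (.node (.node .nil 549890064896 36 27 .nil) 549890294272 39 27 .nil) 549892129280 42 27 (.node .nil 550829559816 17 26 .nil))))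

private def t4 : Tri :=
  (.node (.node (.node (.node (.node .nil 550829588481 106 16 .nil) 550829588488 21 26 .nil) 550829588544 114 16 (.node (.node .nil 550829588992 37 27 .nil) 550829817864 25 26 .nil)) 550829818368 40 27 (.node (.node (.node .nil 550831652872 29 26 .nil) 550831653376 43 27 .nil) 558345752577 136 4 (.node .nil 558345753088 1 26 .nil))) 558345781760 5 26 (.node (.node (.node (.node .nil 558346010625 145 4 .nil) 558346011136 9 26 .nil) 558347846144 13 26 (.node .nil 4398063292417 121 16 .nil)) 4398063292424 127 16 (.node (.node (.node .nil 4398063292480 88 16 .nil) 4398063292928 126 16 .nil) 4398063321096 111 16 (.node .nil 4398063321152 86 16 .nil))))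

private def t5 : Tri :=
  (.node t3 550829560320 34 27 t4)

private def t6 : Tri :=
  (.node t2 77309673536 82 16 t5)

private def t7 : Tri :=
  (.node (.node (.node (.node (.node .nil 4398063550528 87 16 .nil) 4398065385473 44 16 .nil) 4398065385480 48 16 (.node (.node .nil 4398065385536 51 16 .nil) 4398065385984 55 16 .nil)) 4398180732929 137 16 (.node (.node (.node .nil 4398180732936 154 16 .nil) 4398180732992 93 16 .nil) 4398180733440 155 16 (.node .nil 4398180761601 143 16 .nil))) 4398180761664 96 16 (.node (.node (.node (.node .nil 4398180990984 153 16 .nil) 4398180991040 90 16 .nil) 4398182825985 45 16 (.node (.node .nil 4398182825992 49 16 .nil) 4398182826048 52 16 .nil)) 4398182826496 56 16 (.node (.node (.node .nil 4399120257032 18 26 .nil) 4399120257088 91 16 .nil) 4399120285697 107 16 (.node .nil 4399120285704 22 26 .nil))))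

private def t8 : Tri :=
  (.node (.node (.node (.node (.node .nil 4399120286208 117 16 .nil) 4399120515080 26 26 .nil) 4399120515136 92 16 (.node (.node .nil 4399120515584 159 16 .nil) 4399122350081 46 16 .nil)) 4399122350088 30 26 (.node (.node (.node .nil 4399122350144 53 16 .nil) 4399122350592 57 16 .nil) 4406636449793 138 4 (.node .nil 4406636449856 95 16 .nil))) 4406636450304 2 26 (.node (.node (.node (.node .nil 4406636478528 99 16 .nil) 4406636478976 6 26 .nil) 4406636707841 146 4 (.node .nil 4406636707848 160 16 .nil)) 4406636707904 100 16 (.node (.node (.node .nil 4406636708352 10 26 .nil) 4406638542849 47 16 .nil) 4406638542856 50 16 (.node .nil 4406638542912 54 16 .nil))))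

private def t9 : Tri :=
  (.node t7 4399120285760 97 16 t8)

private def t10 : Tri :=
  (.node (.node (.node (.node (.node .nil 35184388870145 122 16 .nil) 35184388870152 129 16 .nil) 35184388870208 89 8 (.node (.node .nil 35184388870656 132 16 .nil) 35184388898824 112 16 .nil)) 35184389128193 58 16 (.node (.node (.node .nil 35184389128200 62 16 .nil) 35184389128256 65 16 .nil) 35184389128704 69 16 (.node .nil 35184390963201 149 8 .nil))) 35184390963264 101 8 (.node (.node (.node (.node .nil 35184506310657 139 16 .nil) 35184506310664 166 16 .nil) 35184506310720 94 8 (.node .nil 35184506311168 169 16 .nil)) 35184506339329 144 16 (.node (.node (.node .nil 35184506568705 59 16 .nil) 35184506568712 63 16 .nil) 35184506568768 66 16 (.node .nil 35184506569216 70 16 .nil))))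

private def t11 : Tri :=
  (.node (.node (.node (.node (.node .nil 35185445834760 19 26 .nil) 35185445863425 108 16 .nil) 35185445863432 23 26 (.node (.node .nil 35185445863488 98 8 .nil) 35185445863936 118 16 .nil)) 35185446092801 60 16 (.node (.node (.node .nil 35185446092808 27 26 .nil) 35185446092864 67 16 .nil) 35185446093312 71 16 (.node .nil 35185447927816 31 26 .nil))) 35185447927872 103 8 (.node (.node (.node (.node .nil 35192962027521 140 4 .nil) 35192962028032 3 26 .nil) 35192962056704 7 26 (.node .nil 35192962285569 61 16 .nil)) 35192962285576 64 16 (.node (.node (.node .nil 35192962285632 68 16 .nil) 35192962286080 11 26 .nil) 35192964120640 104 8 (.node .nil 35192964121088 15 26 .nil))))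

private def t12 : Tri :=
  (.node t10 35184508403776 102 8 t11)

private def t13 : Tri :=
  (.node t9 4406638543360 14 26 t12)

private def t14 : Tri :=
  (.node t6 4398063550472 128 26 t13)

private def N : Tri := t14

private def S : List (List (ℕ × ℕ × ℕ)) :=
  [[(0, 4, 12)], [(0, 4, 13)], [(0, 4, 14)], [(0, 4, 15)], [(0, 5, 12)], [(0, 5, 13)], [(0, 5, 14)], [(0, 5, 15)
  ], [(0, 6, 12)], [(0, 6, 13)], [(0, 6, 14)], [(0, 6, 15)], [(0, 7, 12)], [(0, 7, 13)], [(0, 7, 14)], [(0, 7, 15)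
  ], [(1, 4, 12)], [(1, 4, 13)], [(1, 4, 14)], [(1, 4, 15)], [(1, 5, 12)], [(1, 5, 13)], [(1, 5, 14)], [(1, 5, 15)
  ], [(1, 6, 12)], [(1, 6, 13)], [(1, 6, 14)], [(1, 6, 15)], [(1, 7, 12)], [(1, 7, 13)], [(1, 7, 14)], [(1, 7, 15)
  ], [(3, 4, 8)], [(3, 4, 9)], [(3, 4, 10)], [(3, 5, 8)], [(3, 5, 9)], [(3, 5, 10)], [(3, 6, 8)], [(3, 6, 9)
  ], [(3, 6, 10)], [(3, 7, 8)], [(3, 7, 9)], [(3, 7, 10)], [(9, 0, 8)], [(9, 0, 9)], [(9, 0, 10)], [(9, 0, 11)
  ], [(9, 1, 8)], [(9, 1, 9)], [(9, 1, 11)], [(9, 2, 8)], [(9, 2, 9)], [(9, 2, 10)], [(9, 2, 11)], [(9, 3, 8)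
  ], [(9, 3, 9)], [(9, 3, 10)], [(10, 0, 8)], [(10, 0, 9)], [(10, 0, 10)], [(10, 0, 11)], [(10, 1, 8)], [(10, 1, 9)
  ], [(10, 1, 11)], [(10, 2, 8)], [(10, 2, 9)], [(10, 2, 10)], [(10, 2, 11)], [(10, 3, 8)], [(10, 3, 9)], [(10, 3, 10)
  ], [(11, 0, 8)], [(11, 0, 9)], [(11, 0, 10)], [(11, 0, 11)], [(11, 1, 8)], [(11, 1, 9)], [(11, 1, 11)], [(11, 2, 8)
  ], [(11, 2, 9)], [(11, 2, 10)], [(11, 2, 11)], [(11, 3, 8)], [(11, 3, 9)], [(11, 3, 10)], [(4, 5, 8)], [(4, 6, 8)
  ], [(7, 2, 14)], [(4, 4, 8)], [(4, 6, 9)], [(4, 4, 10)], [(4, 6, 10)], [(6, 2, 14)], [(4, 4, 9)], [(4, 4, 11)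
  ], [(4, 5, 9)], [(8, 2, 14)], [(4, 5, 10)], [(4, 5, 11)], [(4, 6, 11)], [(4, 7, 8)], [(4, 7, 9)], [(4, 7, 10)
  ], [(4, 7, 11)], [(8, 0, 12)], [(8, 0, 13)], [(8, 0, 14)], [(8, 0, 15)], [(8, 1, 12)], [(8, 1, 13)], [(8, 1, 14)
  ], [(8, 1, 15)], [(8, 2, 12)], [(8, 2, 13)], [(5, 5, 8)], [(8, 3, 12)], [(8, 3, 14)], [(8, 3, 15)], [(7, 0, 12)
  ], [(7, 0, 13)], [(7, 0, 14)], [(7, 0, 15)], [(7, 1, 12)], [(7, 1, 13)], [(7, 3, 12)], [(7, 3, 14)], [(5, 4, 8)
  ], [(7, 1, 14)], [(7, 1, 15)], [(7, 2, 12)], [(7, 2, 13)], [(7, 3, 15)], [(6, 0, 12)], [(2, 4, 12)], [(6, 0, 13)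
  ], [(2, 4, 13)], [(6, 0, 14)], [(2, 4, 14)], [(6, 0, 15)], [(2, 4, 15)], [(2, 5, 12)], [(2, 5, 13)], [(2, 5, 14)
  ], [(2, 5, 15)], [(2, 6, 13)], [(2, 6, 14)], [(2, 7, 12)], [(2, 7, 13)], [(2, 7, 15)], [(6, 1, 12)], [(5, 4, 10)
  ], [(6, 3, 12)], [(5, 6, 9)], [(6, 1, 14)], [(5, 4, 9)], [(5, 4, 11)], [(5, 5, 9)], [(5, 5, 11)], [(5, 6, 10)
  ], [(5, 6, 11)], [(5, 7, 8)], [(5, 7, 9)], [(5, 7, 10)], [(5, 7, 11)], [(6, 1, 13)], [(6, 1, 15)], [(6, 2, 12)
  ], [(6, 2, 13)], [(6, 3, 15)]]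

private theorem h0 : chk 17 5 12 31 N (okM 16 4) (rwS L1 L2) S = true := by decide +kernel

theorem ok : (sm true 16 2 2 {(0, {2, 3}, 0)} ∅).OK :=
  ok_of_chk _ 16 4 rfl rfl P1 P2 T F L1 L2 (r := 170) N S (by decide +kernel) (by decide +kernel)
    (by decide +kernel) (by decide +kernel) (by decide +kernel) h0 (by decide +kernel)
    (by decide +kernel) (by decide +kernel) (by decide +kernel) (by decide +kernel)

end Pool.Agent.KZ.AL.Ck.T334_2200_A
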