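import Pool.Agent.KZ.AL.OkC

/-! # KZ4, ALPHA: finite check T334_2200_AB (generated) -/

set_option autoImplicit false
set_option maxRecDepth 100000

namespace Pool.Agent.KZ.AL.Ck.T334_2200_AB

open Pool.Agent.KZ (Tri chk rwS)
open Finset (range)

/-- The positions of the T-points. -/
private def P1 : List ((ℕ × ℕ × ℕ) × List (ℕ × ℤ)) :=
  [((0, 2, 0), [(0, 1), (10, 1), (11, 1)]), ((0, 2, 1), [(3, 1), (10, 1), (11, 1)]),
   ((0, 2, 2), [(0, 2), (3, 1), (9, 1), (10, 1)]), ((0, 3, 0), [(0, -1), (13, 1)]),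
   ((0, 3, 1), [(2, 1), (3, 3), (15, 1)]), ((0, 3, 2), [(2, 1), (13, 4)]),
   ((1, 2, 0), [(5, 1), (11, 1)]), ((1, 2, 1), [(4, 1), (8, 1)]),
   ((1, 2, 2), [(4, 1), (11, 1)]), ((1, 3, 0), [(5, -1), (14, 1)]),
   ((1, 3, 1), [(7, 1), (12, 1), (13, 1), (14, 2)]), ((1, 3, 2), [(6, 1), (14, 4)])]

/-- The positions of the free items. -/
private def P2 : List ((ℕ × ℕ × ℕ) × List (ℕ × ℤ)) :=
  []

private def T : List (ℕ × ℕ × ℕ) :=
  [(0, 2, 0), (0, 2, 1), (0, 2, 2), (0, 3, 0), (0, 3, 1), (0, 3, 2), (1, 2, 0), (1, 2, 1),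
   (1, 2, 2), (1, 3, 0), (1, 3, 1), (1, 3, 2)]

private def F : List (ℕ × ℕ × ℕ) :=
  []

private def L1 : List (List (ℕ × ℕ)) :=
  [[(0, 1), (10, 1), (11, 1)], [(3, 1), (10, 1), (11, 1)], [(0, 2), (3, 1), (9, 1), (10, 1)],
   [(0, 30), (13, 1)], [(2, 1), (3, 3), (15, 1)], [(2, 1), (13, 4)],
   [(5, 1), (11, 1)], [(4, 1), (8, 1)], [(4, 1), (11, 1)],
   [(5, 30), (14, 1)], [(7, 1), (12, 1), (13, 1), (14, 2)], [(6, 1), (14, 4)]]

private def L2 : List (List (ℕ × ℕ)) :=
  []

private def t0 : Tri :=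
  (.node (.node (.node (.node (.node .nil 68736258049 46 16 .nil) 68736258056 49 16 .nil) 68736258112 53 16 (.node (.node .nil 68736258560 56 16 .nil) 68738351105 141 16 .nil)) 68738351112 146 16 (.node (.node (.node .nil 68738351168 150 16 .nil) 68738351616 154 16 .nil) 68853698561 155 8 (.node .nil 68853727233 159 8 .nil))) 68853956609 162 8 (.node (.node (.node (.node .nil 68855791617 144 8 .nil) 68855791624 147 16 .nil) 68855791680 151 16 (.node .nil 68855792128 143 16 .nil)) 69793222657 102 16 (.node (.node (.node .nil 69793223168 113 16 .nil) 69793251329 105 16 .nil) 69793251840 117 16 (.node .nil 69795315713 109 16 .nil))))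

private def t1 : Tri :=
  (.node (.node (.node (.node (.node .nil 69795315776 152 16 .nil) 69795316224 123 16 .nil) 77309415425 60 16 (.node (.node .nil 77309415432 63 16 .nil) 77309415488 67 16 .nil)) 77309415936 70 16 (.node (.node (.node .nil 77309444097 32 16 .nil) 77309444104 35 16 .nil) 77309444160 39 16 (.node .nil 77309444608 42 16 .nil))) 77309673473 107 16 (.node (.node (.node (.node .nil 77309673984 120 16 .nil) 77311508481 110 16 .nil) 77311508488 149 16 (.node .nil 77311508544 153 16 .nil)) 77311508992 124 16 (.node (.node (.node .nil 549772595201 0 15 .nil) 549772595208 50 16 .nil) 549772595264 16 4 (.node .nil 549772595712 57 16 .nil))))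

private def t2 : Tri :=
  (.node t0 69795315720 148 16 t1)

private def t3 : Tri :=
  (.node (.node (.node (.node (.node .nil 549772623936 20 4 .nil) 549772853249 8 15 .nil) 549772853312 24 4 (.node (.node .nil 549774688257 12 15 .nil) 549774688320 28 4 .nil)) 549890035713 1 15 (.node (.node (.node .nil 549890035776 17 4 .nil) 549890036224 156 16 .nil) 549890064385 5 15 (.node .nil 549890064448 21 4 .nil))) 549890064896 160 16 (.node (.node (.node (.node .nil 549890293761 9 15 .nil) 549890293824 25 4 .nil) 549890294272 163 16 (.node .nil 549892128769 13 15 .nil)) 549892128832 29 4 (.node (.node (.node .nil 549892129280 142 16 .nil) 550829559809 2 15 .nil) 550829559872 18 4 (.node .nil 550829560320 114 16 .nil))))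

private def t4 : Tri :=
  (.node (.node (.node (.node (.node .nil 550829588544 22 4 .nil) 550829588992 118 16 .nil) 550829817857 10 15 (.node (.node .nil 550829817920 26 4 .nil) 550831652865 14 15 .nil)) 550831652928 30 4 (.node (.node (.node .nil 558345752577 3 15 .nil) 558345752584 64 16 .nil) 558345752640 19 4 (.node .nil 558345753088 71 16 .nil))) 558345781249 7 15 (.node (.node (.node (.node .nil 558345781256 36 16 .nil) 558345781312 23 4 .nil) 558345781760 43 16 (.node .nil 558346010625 11 15 .nil)) 558346010688 27 4 (.node (.node (.node .nil 558346011136 121 16 .nil) 558347845633 15 15 .nil) 558347845696 31 4 (.node .nil 558347846144 125 16 .nil))))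

private def t5 : Tri :=
  (.node t3 550829588481 6 15 t4)

private def t6 : Tri :=
  (.node t2 549772623873 4 15 t5)

private def t7 : Tri :=
  (.node (.node (.node (.node (.node .nil 4398063292424 51 16 .nil) 4398063292480 54 16 .nil) 4398063292928 58 16 (.node (.node .nil 4398063321089 74 15 .nil) 4398063321096 77 15 .nil)) 4398063321152 80 15 (.node (.node (.node .nil 4398063321600 83 15 .nil) 4398063550465 86 4 .nil) 4398063550472 90 4 (.node .nil 4398063550528 94 4 .nil))) 4398063550976 98 4 (.node (.node (.node (.node .nil 4398180732929 157 8 .nil) 4398180761601 75 15 .nil) 4398180761608 78 15 (.node .nil 4398180761664 81 15 .nil)) 4398180762112 84 15 (.node (.node (.node .nil 4398180990977 87 4 .nil) 4398180990984 91 4 .nil) 4398180991040 95 4 (.node .nil 4398180991488 99 4 .nil))))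

private def t8 : Tri :=
  (.node (.node (.node (.node (.node .nil 4399120257025 103 16 .nil) 4399120257536 115 16 .nil) 4399120285697 76 15 (.node (.node .nil 4399120285704 79 15 .nil) 4399120285760 82 15 .nil)) 4399120286208 85 15 (.node (.node (.node .nil 4399120515073 88 4 .nil) 4399120515080 92 4 .nil) 4399120515136 96 4 (.node .nil 4399120515584 100 4 .nil))) 4406636449793 61 16 (.node (.node (.node (.node .nil 4406636449800 65 16 .nil) 4406636449856 68 16 .nil) 4406636450304 72 16 (.node .nil 4406636478465 33 16 .nil)) 4406636478472 37 16 (.node (.node (.node .nil 4406636478528 40 16 .nil) 4406636478976 44 16 .nil) 4406636707841 89 4 (.node .nil 4406636707848 93 4 .nil))))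

private def t9 : Tri :=
  (.node t7 4398182825985 145 8 t8)

private def t10 : Tri :=
  (.node (.node (.node (.node (.node .nil 4406636708352 101 4 .nil) 4406638542849 111 16 .nil) 4406638543360 126 16 (.node (.node .nil 35184388870145 48 16 .nil) 35184388870152 52 16 .nil)) 35184388870208 55 16 (.node (.node (.node .nil 35184388870656 59 16 .nil) 35184388898880 130 16 .nil) 35184389128256 133 16 (.node .nil 35184390963264 137 16 .nil))) 35184506310657 158 8 (.node (.node (.node (.node .nil 35184506310720 128 16 .nil) 35184506339329 161 8 .nil) 35184506339392 131 16 (.node .nil 35184506568705 164 8 .nil)) 35184506568768 134 16 (.node (.node (.node .nil 35184508403713 165 8 .nil) 35184508403776 138 16 .nil) 35185445834753 104 16 (.node .nil 35185445834816 129 16 .nil))))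

private def t11 : Tri :=
  (.node (.node (.node (.node (.node .nil 35185445863425 106 16 .nil) 35185445863488 132 16 .nil) 35185445863936 119 16 (.node .nil 35185446092864 135 16 .nil)) 35185447927872 139 16 (.node (.node (.node .nil 35192962027521 62 16 .nil) 35192962027528 66 16 .nil) 35192962027584 69 16 (.node .nil 35192962028032 73 16 .nil))) 35192962056193 34 16 (.node (.node (.node (.node .nil 35192962056200 38 16 .nil) 35192962056256 41 16 .nil) 35192962056704 45 16 (.node .nil 35192962285569 108 16 .nil)) 35192962285632 136 16 (.node (.node (.node .nil 35192962286080 122 16 .nil) 35192964120577 112 16 .nil) 35192964120640 140 16 (.node .nil 35192964121088 127 16 .nil))))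

private def t12 : Tri :=
  (.node t10 35185445835264 116 16 t11)

private def t13 : Tri :=
  (.node t9 4406636707904 97 4 t12)

private def t14 : Tri :=
  (.node t6 4398063292417 47 16 t13)

private def N : Tri := t14

private def S : List (List (ℕ × ℕ × ℕ)) :=
  [[(3, 4, 8)], [(3, 4, 9)], [(3, 4, 10)], [(3, 4, 11)], [(3, 5, 8)], [(3, 5, 9)], [(3, 5, 10)], [(3, 5, 11)
  ], [(3, 6, 8)], [(3, 6, 9)], [(3, 6, 10)], [(3, 6, 11)], [(3, 7, 8)], [(3, 7, 9)], [(3, 7, 10)], [(3, 7, 11)
  ], [(5, 4, 8)], [(5, 4, 9)], [(5, 4, 10)], [(5, 4, 11)], [(5, 5, 8)], [(5, 5, 9)], [(5, 5, 10)], [(5, 5, 11)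
  ], [(5, 6, 8)], [(5, 6, 9)], [(5, 6, 10)], [(5, 6, 11)], [(5, 7, 8)], [(5, 7, 9)], [(5, 7, 10)], [(5, 7, 11)
  ], [(6, 0, 12)], [(6, 0, 14)], [(6, 0, 15)], [(6, 1, 12)], [(6, 1, 13)], [(6, 1, 14)], [(6, 1, 15)], [(6, 2, 12)
  ], [(6, 2, 14)], [(6, 2, 15)], [(6, 3, 12)], [(6, 3, 13)], [(6, 3, 14)], [(6, 3, 15)], [(7, 0, 12)], [(7, 0, 14)
  ], [(7, 0, 15)], [(7, 1, 12)], [(7, 1, 13)], [(7, 1, 14)], [(7, 1, 15)], [(7, 2, 12)], [(7, 2, 14)], [(7, 2, 15)
  ], [(7, 3, 12)], [(7, 3, 13)], [(7, 3, 14)], [(7, 3, 15)], [(8, 0, 12)], [(8, 0, 14)], [(8, 0, 15)], [(8, 1, 12)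
  ], [(8, 1, 13)], [(8, 1, 14)], [(8, 1, 15)], [(8, 2, 12)], [(8, 2, 14)], [(8, 2, 15)], [(8, 3, 12)], [(8, 3, 13)
  ], [(8, 3, 14)], [(8, 3, 15)], [(9, 0, 8)], [(9, 0, 9)], [(9, 0, 10)], [(9, 1, 8)], [(9, 1, 9)], [(9, 1, 10)
  ], [(9, 2, 8)], [(9, 2, 9)], [(9, 2, 10)], [(9, 3, 8)], [(9, 3, 9)], [(9, 3, 10)], [(11, 0, 8)], [(11, 0, 9)
  ], [(11, 0, 10)], [(11, 0, 11)], [(11, 1, 8)], [(11, 1, 9)], [(11, 1, 10)], [(11, 1, 11)], [(11, 2, 8)], [(11, 2, 9)
  ], [(11, 2, 10)], [(11, 2, 11)], [(11, 3, 8)], [(11, 3, 9)], [(11, 3, 10)], [(11, 3, 11)], [(0, 4, 12)], [(0, 4, 14)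
  ], [(0, 4, 15)], [(0, 5, 12)], [(0, 5, 15)], [(0, 6, 12)], [(0, 6, 15)], [(10, 0, 10)], [(0, 7, 12)], [(0, 7, 14)
  ], [(0, 7, 15)], [(1, 4, 12)], [(1, 4, 13)], [(1, 4, 14)], [(1, 4, 15)], [(1, 5, 12)], [(1, 5, 13)], [(1, 5, 15)
  ], [(1, 6, 12)], [(1, 6, 13)], [(1, 6, 15)], [(10, 3, 10)], [(1, 7, 12)], [(1, 7, 13)], [(1, 7, 14)], [(1, 7, 15)
  ], [(4, 4, 9)], [(4, 4, 10)], [(4, 5, 8)], [(4, 5, 9)], [(4, 5, 10)], [(4, 6, 8)], [(4, 6, 9)], [(4, 6, 10)
  ], [(4, 6, 11)], [(4, 7, 8)], [(4, 7, 9)], [(4, 7, 10)], [(4, 7, 11)], [(10, 0, 8)], [(2, 7, 13)], [(10, 3, 9)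
  ], [(2, 7, 12)], [(10, 0, 9)], [(10, 1, 8)], [(10, 1, 9)], [(10, 1, 10)], [(10, 1, 11)], [(10, 2, 8)], [(10, 2, 9)
  ], [(10, 2, 10)], [(10, 2, 11)], [(10, 3, 8)], [(2, 4, 12)], [(2, 4, 13)], [(2, 4, 14)], [(2, 4, 15)], [(2, 5, 12)
  ], [(2, 5, 13)], [(2, 5, 15)], [(2, 6, 12)], [(2, 6, 13)], [(2, 6, 15)], [(2, 7, 15)]]

private theorem h0 : chk 16 5 11 31 N (okM 16 4) (rwS L1 L2) S = true := by decide +kernel

theorem ok : (sm true 16 2 2 {(0, {2, 3}, 0), (1, {2, 3}, 0)} ∅).OK :=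
  ok_of_chk _ 16 4 rfl rfl P1 P2 T F L1 L2 (r := 166) N S (by decide +kernel) (by decide +kernel)
    (by decide +kernel) (by decide +kernel) (by decide +kernel) h0 (by decide +kernel)
    (by decide +kernel) (by decide +kernel) (by decide +kernel) (by decide +kernel)

end Pool.Agent.KZ.AL.Ck.T334_2200_AB
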