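import Pool.Agent.KZ.AL.OkC

/-! # KZ4, ALPHA: finite check T334_2200_B (generated) -/

set_option autoImplicit false
set_option maxRecDepth 100000

namespace Pool.Agent.KZ.AL.Ck.T334_2200_B

open Pool.Agent.KZ (Tri chk rwS)
open Finset (range)

/-- The positions of the T-points. -/
private def P1 : List ((ℕ × ℕ × ℕ) × List (ℕ × ℤ)) :=
  [((0, 2, 0), [(0, 1), (3, 3), (8, 1), (9, 3)]), ((0, 2, 1), [(0, 2), (3, 4), (8, 3), (11, 1)]),
   ((0, 2, 2), [(1, 2), (3, 2), (11, 1)]), ((0, 3, 0), [(3, 1), (13, 1), (14, 4)]),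
   ((0, 3, 1), [(0, 1), (12, 1)]), ((0, 3, 2), [(1, 1), (2, 4), (3, 2), (12, 1), (14, 1), (15, 4)]),
   ((1, 2, 0), [(5, 1), (9, 1)]), ((1, 2, 1), [(5, 1), (7, 1), (9, 1)]),
   ((1, 2, 2), [(4, 1), (5, 1), (8, 1), (10, 1)]), ((1, 3, 0), [(5, -1), (14, 1)]),
   ((1, 3, 1), [(5, 4), (6, 1), (14, 2)]), ((1, 3, 2), [(4, 2), (5, 4), (7, 1), (13, 1)])]

/-- The positions of the free items. -/
private def P2 : List ((ℕ × ℕ × ℕ) × List (ℕ × ℤ)) :=
  []

private def T : List (ℕ × ℕ × ℕ) :=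
  [(0, 2, 0), (0, 2, 1), (0, 2, 2), (0, 3, 0), (0, 3, 1), (0, 3, 2), (1, 2, 0), (1, 2, 1),
   (1, 2, 2), (1, 3, 0), (1, 3, 1), (1, 3, 2)]

private def F : List (ℕ × ℕ × ℕ) :=
  []

private def L1 : List (List (ℕ × ℕ)) :=
  [[(0, 1), (3, 3), (8, 1), (9, 3)], [(0, 2), (3, 4), (8, 3), (11, 1)], [(1, 2), (3, 2), (11, 1)],
   [(3, 1), (13, 1), (14, 4)], [(0, 1), (12, 1)], [(1, 1), (2, 4), (3, 2), (12, 1), (14, 1), (15, 4)],
   [(5, 1), (9, 1)], [(5, 1), (7, 1), (9, 1)], [(4, 1), (5, 1), (8, 1), (10, 1)],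
   [(5, 30), (14, 1)], [(5, 4), (6, 1), (14, 2)], [(4, 2), (5, 4), (7, 1), (13, 1)]]

private def L2 : List (List (ℕ × ℕ)) :=
  []

private def t0 : Tri :=
  (.node (.node (.node (.node (.node .nil 68736258049 0 16 .nil) 68736258056 154 16 .nil) 68736258112 149 16 (.node (.node .nil 68736286721 4 16 .nil) 68736286728 155 16 .nil)) 68736287232 54 26 (.node (.node (.node .nil 68736516097 8 16 .nil) 68736516104 163 16 .nil) 68736516608 134 22 (.node .nil 68738351105 12 16 .nil))) 68738351112 167 16 (.node (.node (.node (.node .nil 68738351616 65 26 .nil) 68853698561 1 16 .nil) 68853698568 160 16 (.node (.node .nil 68853699072 130 19 .nil) 68853727233 5 16 .nil)) 68853727240 19 16 (.node (.node (.node .nil 68853727296 23 16 .nil) 68853727744 27 16 .nil) 68853956609 9 16 (.node .nil 68853956616 164 16 .nil))))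

private def t1 : Tri :=
  (.node (.node (.node (.node (.node .nil 68855791617 13 16 .nil) 68855791624 92 16 .nil) 68855791680 96 16 (.node (.node .nil 68855792128 64 16 .nil) 69793222657 2 16 .nil)) 69793222664 158 16 (.node (.node (.node .nil 69793223168 156 16 .nil) 69793251329 6 16 .nil) 69793251336 159 16 (.node .nil 69793480705 10 16 .nil))) 69793480712 165 16 (.node (.node (.node (.node .nil 69795315713 14 16 .nil) 69795315720 168 16 .nil) 77309415425 3 16 (.node .nil 77309415432 44 8 .nil)) 77309415488 161 4 (.node (.node (.node .nil 77309415936 43 4 .nil) 77309444097 7 16 .nil) 77309444104 56 8 (.node .nil 77309444160 162 4 .nil))))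

private def t2 : Tri :=
  (.node t0 68853957120 135 19 t1)

private def t3 : Tri :=
  (.node (.node (.node (.node (.node .nil 77309673473 11 16 .nil) 77309673480 58 8 .nil) 77309673536 166 4 (.node (.node .nil 77311508481 15 16 .nil) 77311508488 67 8 .nil)) 77311508544 169 4 (.node (.node (.node .nil 77311508992 66 4 .nil) 549772595201 113 16 .nil) 549772595208 121 16 (.node .nil 549772595264 125 16 .nil))) 549772595712 70 16 (.node (.node (.node (.node .nil 549772623873 114 16 .nil) 549772624384 74 16 .nil) 549772853760 79 16 (.node (.node .nil 549774688257 115 16 .nil) 549774688264 122 16 .nil)) 549774688320 126 16 (.node (.node (.node .nil 549774688768 84 16 .nil) 549890035713 112 8 .nil) 549890035720 123 8 (.node .nil 549890035776 127 8 .nil))))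

private def t4 : Tri :=
  (.node (.node (.node (.node (.node .nil 549890064385 16 16 .nil) 549890064392 20 16 .nil) 549890064448 24 16 (.node (.node .nil 549890064896 28 16 .nil) 549890293761 136 26 .nil)) 549890294272 81 16 (.node (.node (.node .nil 549892128769 89 16 .nil) 549892128776 93 16 .nil) 549892128832 97 16 (.node .nil 549892129280 71 16 .nil))) 550829559809 116 16 (.node (.node (.node (.node .nil 550829560320 76 16 .nil) 550829588992 75 16 .nil) 550829818368 83 16 (.node .nil 550831652865 117 16 .nil)) 550831652872 124 16 (.node (.node (.node .nil 550831652928 128 16 .nil) 550831653376 87 16 .nil) 558345752577 118 8 (.node .nil 558345752584 49 8 .nil))))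

private def t5 : Tri :=
  (.node t3 549890036224 72 8 t4)

private def t6 : Tri :=
  (.node t2 77309444608 55 4 t5)

private def t7 : Tri :=
  (.node (.node (.node (.node (.node .nil 558345753088 50 8 .nil) 558345781249 119 8 .nil) 558345781256 46 8 (.node (.node .nil 558345781760 45 16 .nil) 558346010625 143 8 .nil)) 558346010632 62 8 (.node (.node (.node .nil 558346011136 61 16 .nil) 558347845633 120 16 .nil) 558347845640 48 8 (.node .nil 558347846144 47 16 .nil))) 4398063292424 150 16 (.node (.node (.node (.node .nil 4398063292480 151 16 .nil) 4398063321089 31 15 .nil) 4398063321096 34 15 (.node (.node .nil 4398063321152 37 15 .nil) 4398063321600 40 15 .nil)) 4398063550465 101 8 (.node (.node (.node .nil 4398063550472 105 8 .nil) 4398063550528 108 8 .nil) 4398063550976 78 8 (.node .nil 4398065385473 138 16 .nil))))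

private def t8 : Tri :=
  (.node (.node (.node (.node (.node .nil 4398180732929 131 26 .nil) 4398180733440 73 4 .nil) 4398180761601 17 16 (.node (.node .nil 4398180761608 21 16 .nil) 4398180761664 25 16 .nil)) 4398180762112 29 16 (.node (.node (.node .nil 4398180990977 102 8 .nil) 4398180990984 106 8 .nil) 4398180991040 109 8 (.node .nil 4398180991488 80 8 .nil))) 4398182825985 90 16 (.node (.node (.node (.node .nil 4398182825992 94 16 .nil) 4398182826048 98 16 .nil) 4398182826496 86 4 (.node .nil 4399120257025 147 16 .nil)) 4399120257536 77 4 (.node (.node (.node .nil 4399120285697 32 15 .nil) 4399120285704 35 15 .nil) 4399120285760 38 15 (.node .nil 4399120286208 41 15 .nil))))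

private def t9 : Tri :=
  (.node t7 4398065385984 85 4 t8)

private def t10 : Tri :=
  (.node (.node (.node (.node (.node .nil 4399120515080 107 8 .nil) 4399120515136 110 8 .nil) 4399120515584 82 8 (.node (.node .nil 4399122350592 88 4 .nil) 4406636449793 140 8 .nil)) 4406636449800 52 8 (.node (.node (.node .nil 4406636450304 51 4 .nil) 4406636478465 33 15 .nil) 4406636478472 36 15 (.node .nil 4406636478528 39 15 .nil))) 4406636478976 42 15 (.node (.node (.node (.node .nil 4406636707841 104 8 .nil) 4406636707848 59 8 .nil) 4406636707904 111 8 (.node .nil 4406636708352 60 8 .nil)) 4406638542849 145 8 (.node (.node (.node .nil 4406638542856 68 8 .nil) 35184388870152 152 16 .nil) 35184388870208 153 16 (.node .nil 35184388898817 133 16 .nil))))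

private def t11 : Tri :=
  (.node (.node (.node (.node (.node .nil 35184506310657 132 26 .nil) 35184506339329 18 16 .nil) 35184506339336 22 16 (.node (.node .nil 35184506339392 26 16 .nil) 35184506339840 30 16 .nil)) 35184506568705 137 26 (.node (.node (.node .nil 35184508403713 91 16 .nil) 35184508403720 95 16 .nil) 35184508403776 99 16 (.node .nil 35184508404224 100 16 .nil))) 35185445834753 148 16 (.node (.node (.node (.node .nil 35185445835264 157 16 .nil) 35192962027521 141 8 .nil) 35192962027528 53 8 (.node .nil 35192962056193 142 8 .nil)) 35192962056200 57 8 (.node (.node (.node .nil 35192962285569 144 8 .nil) 35192962285576 63 8 .nil) 35192964120577 146 8 (.node .nil 35192964120584 69 8 .nil))))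

private def t12 : Tri :=
  (.node t10 35184390963201 139 16 t11)

private def t13 : Tri :=
  (.node t9 4399120515073 103 8 t12)

private def t14 : Tri :=
  (.node t6 558345752640 129 8 t13)

private def N : Tri := t14

private def S : List (List (ℕ × ℕ × ℕ)) :=
  [[(4, 4, 8)], [(4, 4, 9)], [(4, 4, 10)], [(4, 4, 11)], [(4, 5, 8)], [(4, 5, 9)], [(4, 5, 10)], [(4, 5, 11)
  ], [(4, 6, 8)], [(4, 6, 9)], [(4, 6, 10)], [(4, 6, 11)], [(4, 7, 8)], [(4, 7, 9)], [(4, 7, 10)], [(4, 7, 11)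
  ], [(6, 0, 13)], [(6, 0, 14)], [(6, 0, 15)], [(6, 1, 12)], [(6, 1, 13)], [(6, 1, 14)], [(6, 1, 15)], [(6, 2, 12)
  ], [(6, 2, 13)], [(6, 2, 14)], [(6, 2, 15)], [(6, 3, 12)], [(6, 3, 13)], [(6, 3, 14)], [(6, 3, 15)], [(9, 0, 8)
  ], [(9, 0, 10)], [(9, 0, 11)], [(9, 1, 8)], [(9, 1, 10)], [(9, 1, 11)], [(9, 2, 8)], [(9, 2, 10)], [(9, 2, 11)
  ], [(9, 3, 8)], [(9, 3, 10)], [(9, 3, 11)], [(1, 4, 12)], [(2, 4, 12)], [(3, 5, 11)], [(2, 5, 13)], [(3, 7, 11)
  ], [(2, 7, 13)], [(11, 1, 11)], [(2, 4, 13)], [(3, 4, 11)], [(2, 4, 14)], [(2, 4, 15)], [(0, 5, 12)], [(1, 5, 12)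
  ], [(2, 5, 12)], [(2, 5, 15)], [(2, 6, 12)], [(10, 1, 11)], [(2, 6, 14)], [(3, 6, 11)], [(2, 6, 13)], [(2, 6, 15)
  ], [(7, 3, 12)], [(0, 7, 12)], [(1, 7, 12)], [(2, 7, 12)], [(2, 7, 14)], [(2, 7, 15)], [(3, 4, 8)], [(7, 3, 13)
  ], [(11, 3, 9)], [(3, 4, 9)], [(3, 5, 8)], [(3, 5, 10)], [(8, 3, 13)], [(3, 4, 10)], [(10, 3, 8)], [(3, 6, 8)
  ], [(10, 3, 9)], [(3, 6, 9)], [(10, 3, 10)], [(3, 6, 10)], [(11, 3, 8)], [(3, 7, 8)], [(3, 7, 9)], [(11, 3, 10)
  ], [(3, 7, 10)], [(7, 0, 13)], [(7, 0, 14)], [(7, 0, 15)], [(7, 1, 12)], [(7, 1, 13)], [(7, 1, 14)], [(7, 1, 15)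
  ], [(7, 2, 12)], [(7, 2, 13)], [(7, 2, 14)], [(7, 2, 15)], [(7, 3, 15)], [(10, 0, 8)], [(10, 0, 9)], [(10, 0, 10)
  ], [(10, 0, 11)], [(10, 1, 8)], [(10, 1, 9)], [(10, 1, 10)], [(10, 2, 8)], [(10, 2, 9)], [(10, 2, 10)], [(10, 2, 11)
  ], [(11, 0, 9)], [(0, 4, 13)], [(0, 5, 13)], [(11, 0, 8)], [(8, 0, 13)], [(11, 0, 10)], [(1, 4, 13)], [(1, 5, 13)
  ], [(11, 0, 11)], [(8, 1, 13)], [(11, 1, 8)], [(11, 1, 9)], [(11, 1, 10)], [(8, 2, 13)], [(11, 2, 8)], [(11, 2, 9)
  ], [(11, 2, 10)], [(11, 2, 11)], [(0, 4, 12)], [(0, 4, 14)], [(0, 4, 15)], [(0, 5, 15)], [(1, 6, 12)], [(0, 6, 12)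
  ], [(0, 6, 13)], [(0, 6, 15)], [(0, 7, 14)], [(0, 7, 15)], [(1, 4, 14)], [(1, 4, 15)], [(1, 5, 15)], [(1, 6, 13)
  ], [(1, 6, 15)], [(1, 7, 14)], [(1, 7, 15)], [(8, 0, 14)], [(8, 0, 15)], [(8, 2, 12)], [(8, 1, 14)], [(8, 2, 14)
  ], [(8, 1, 15)], [(8, 2, 15)], [(5, 4, 8)], [(5, 5, 8)], [(8, 3, 12)], [(8, 3, 15)], [(5, 4, 10)], [(8, 1, 12)
  ], [(5, 4, 9)], [(5, 4, 11)], [(5, 5, 11)], [(5, 6, 8)], [(5, 6, 9)], [(5, 6, 10)], [(5, 6, 11)], [(5, 7, 8)
  ], [(5, 7, 10)], [(5, 7, 11)]]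

private theorem h0 : chk 16 5 11 31 N (okM 16 4) (rwS L1 L2) S = true := by decide +kernel

theorem ok : (sm true 16 2 2 {(1, {2, 3}, 0)} ∅).OK :=
  ok_of_chk _ 16 4 rfl rfl P1 P2 T F L1 L2 (r := 170) N S (by decide +kernel) (by decide +kernel)
    (by decide +kernel) (by decide +kernel) (by decide +kernel) h0 (by decide +kernel)
    (by decide +kernel) (by decide +kernel) (by decide +kernel) (by decide +kernel)

end Pool.Agent.KZ.AL.Ck.T334_2200_B
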