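import Pool.Agent.KZ.AL.OkC

/-! # KZ4, ALPHA: finite check T334_3100_0 (generated) -/

set_option autoImplicit false
set_option maxRecDepth 100000

namespace Pool.Agent.KZ.AL.Ck.T334_3100_0

open Pool.Agent.KZ (Tri chk rwS)
open Finset (range)

/-- The positions of the T-points. -/
private def P1 : List ((ℕ × ℕ × ℕ) × List (ℕ × ℤ)) :=
  [((0, 3, 0), [(3, 1), (13, 1), (15, 4)]), ((0, 3, 1), [(0, 1), (2, 1), (13, 1), (14, 1)]),
   ((0, 3, 2), [(2, 1), (3, 1), (13, 1), (14, 1)]), ((1, 3, 0), [(5, 1), (6, 3), (7, 3), (12, 1), (15, 2)]),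
   ((1, 3, 1), [(6, 3), (14, 1)]), ((1, 3, 2), [(7, 1), (15, 1)]),
   ((2, 3, 0), [(10, 2), (12, 1)]), ((2, 3, 1), [(8, 2), (11, 2), (14, 1), (15, 1)]),
   ((2, 3, 2), [(8, 2), (12, 1)])]

/-- The positions of the free items. -/
private def P2 : List ((ℕ × ℕ × ℕ) × List (ℕ × ℤ)) :=
  []

private def T : List (ℕ × ℕ × ℕ) :=
  [(0, 3, 0), (0, 3, 1), (0, 3, 2), (1, 3, 0), (1, 3, 1), (1, 3, 2), (2, 3, 0), (2, 3, 1),
   (2, 3, 2)]

private def F : List (ℕ × ℕ × ℕ) :=
  []

private def L1 : List (List (ℕ × ℕ)) :=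
  [[(3, 1), (13, 1), (15, 4)], [(0, 1), (2, 1), (13, 1), (14, 1)], [(2, 1), (3, 1), (13, 1), (14, 1)],
   [(5, 1), (6, 3), (7, 3), (12, 1), (15, 2)], [(6, 3), (14, 1)], [(7, 1), (15, 1)],
   [(10, 2), (12, 1)], [(8, 2), (11, 2), (14, 1), (15, 1)], [(8, 2), (12, 1)]]

private def L2 : List (List (ℕ × ℕ)) :=
  []

private def t0 : Tri :=
  (.node (.node (.node (.node (.node .nil 68736258049 48 8 .nil) 68736258056 52 8 .nil) 68736258112 56 8 (.node .nil 68736258560 60 8 .nil)) 68736286721 49 8 (.node (.node (.node .nil 68736286728 53 8 .nil) 68736286784 57 8 .nil) 68736287232 61 8 (.node .nil 68736516097 50 8 .nil))) 68736516104 54 8 (.node (.node (.node (.node .nil 68736516160 58 8 .nil) 68736516608 62 8 .nil) 68738351105 51 8 (.node .nil 68738351112 55 8 .nil)) 68738351168 59 8 (.node (.node .nil 68738351616 63 8 .nil) 68853727233 133 16 (.node .nil 68853727240 136 16 .nil))))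

private def t1 : Tri :=
  (.node (.node (.node (.node (.node .nil 68853727744 142 16 .nil) 69793222657 32 8 .nil) 69793222664 36 8 (.node .nil 69793222720 40 8 .nil)) 69793223168 44 8 (.node (.node .nil 69793251329 33 8 .nil) 69793251336 37 8 (.node .nil 69793251392 41 8 .nil))) 69793251840 45 8 (.node (.node (.node (.node .nil 69793480705 34 8 .nil) 69793480712 38 8 .nil) 69793480768 42 8 (.node .nil 69793481216 46 8 .nil)) 69795315713 35 8 (.node (.node .nil 69795315720 39 8 .nil) 69795315776 43 8 (.node .nil 69795316224 47 8 .nil))))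

private def t2 : Tri :=
  (.node t0 68853727296 139 16 t1)

private def t3 : Tri :=
  (.node (.node (.node (.node (.node .nil 77309444104 138 16 .nil) 77309444160 141 16 .nil) 77309444608 143 16 (.node .nil 549772595201 85 16 .nil)) 549772595264 84 16 (.node (.node .nil 549772595712 64 16 .nil) 549772623873 95 16 (.node .nil 549772623936 91 16 .nil))) 549772624384 70 16 (.node (.node (.node (.node .nil 549772853249 101 16 .nil) 549772853312 100 16 .nil) 549772853760 75 16 (.node .nil 549774688257 112 16 .nil)) 549774688320 110 16 (.node (.node .nil 549774688768 79 16 .nil) 549890035713 86 16 (.node .nil 549890064385 96 16 .nil))))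

private def t4 : Tri :=
  (.node (.node (.node (.node (.node .nil 549890293761 103 16 .nil) 549890293824 102 16 .nil) 549890294272 76 16 (.node .nil 549892128769 113 16 .nil)) 549892129280 80 16 (.node (.node .nil 550829559809 87 16 .nil) 550829588481 97 16 (.node .nil 550829588992 73 16 .nil))) 550829817857 105 16 (.node (.node (.node (.node .nil 550829817920 104 16 .nil) 550829818368 77 16 .nil) 550831652865 114 16 (.node .nil 550831653376 81 16 .nil)) 558345752577 89 16 (.node (.node .nil 558345752640 88 16 .nil) 558345753088 67 16 (.node .nil 558345781249 99 16 .nil))))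

private def t5 : Tri :=
  (.node t3 549890064896 71 16 t4)

private def t6 : Tri :=
  (.node t2 77309444097 135 16 t5)

private def t7 : Tri :=
  (.node (.node (.node (.node (.node .nil 558345781760 74 16 .nil) 558346010625 107 16 .nil) 558346010688 106 16 (.node .nil 558346011136 78 16 .nil)) 558347845633 116 16 (.node (.node .nil 558347845696 115 16 .nil) 558347846144 82 16 (.node .nil 4398063292424 124 8 .nil))) 4398063292928 83 8 (.node (.node (.node (.node .nil 4398063321089 94 8 .nil) 4398063321096 127 8 .nil) 4398063321600 90 8 (.node .nil 4398063550465 0 26 .nil)) 4398063550472 4 26 (.node (.node .nil 4398063550528 8 26 .nil) 4398063550976 12 26 (.node .nil 4398065385473 111 8 .nil))))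

private def t8 : Tri :=
  (.node (.node (.node (.node (.node .nil 4398065385536 108 8 .nil) 4398065385984 109 8 .nil) 4398180733440 117 16 (.node .nil 4398180762112 119 16 .nil)) 4398180990977 1 26 (.node (.node .nil 4398180990984 5 26 .nil) 4398180991040 9 26 (.node .nil 4398180991488 13 26 .nil))) 4398182826496 121 16 (.node (.node (.node (.node .nil 4399120257536 118 16 .nil) 4399120286208 120 16 .nil) 4399120515073 2 26 (.node .nil 4399120515080 6 26 .nil)) 4399120515136 10 26 (.node (.node .nil 4399120515584 14 26 .nil) 4399122350592 122 16 (.node .nil 4406636707841 3 26 .nil))))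

private def t9 : Tri :=
  (.node t7 4398065385480 128 8 t8)

private def t10 : Tri :=
  (.node (.node (.node (.node (.node .nil 4406636707904 11 26 .nil) 4406636708352 15 26 .nil) 35184388870145 123 8 (.node .nil 35184388870208 129 8 .nil)) 35184388898817 93 8 (.node (.node .nil 35184388898824 126 8 .nil) 35184388898880 131 8 (.node .nil 35184388899328 69 8 .nil))) 35184389128193 92 8 (.node (.node (.node (.node .nil 35184389128200 125 8 .nil) 35184389128256 130 8 .nil) 35184389128704 68 8 (.node .nil 35184390963201 16 16 .nil)) 35184390963208 20 16 (.node (.node .nil 35184390963264 24 16 .nil) 35184390963712 28 16 (.node .nil 35184506311168 65 4 .nil))))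

private def t11 : Tri :=
  (.node (.node (.node (.node (.node .nil 35184508403720 21 16 .nil) 35184508403776 25 16 .nil) 35184508404224 29 16 (.node .nil 35185445835264 66 4 .nil)) 35185445863425 134 8 (.node (.node .nil 35185445863432 137 8 .nil) 35185445863488 140 8 (.node .nil 35185445863936 72 8 .nil))) 35185447927809 18 16 (.node (.node (.node (.node .nil 35185447927816 22 16 .nil) 35185447927872 26 16 .nil) 35185447928320 30 16 (.node .nil 35192962056256 132 8 .nil)) 35192964120577 19 16 (.node (.node .nil 35192964120584 23 16 .nil) 35192964120640 27 16 (.node .nil 35192964121088 31 16 .nil))))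

private def t12 : Tri :=
  (.node t10 35184508403713 17 16 t11)

private def t13 : Tri :=
  (.node t9 4406636707848 7 26 t12)

private def t14 : Tri :=
  (.node t6 558345781312 98 16 t13)

private def N : Tri := t14

private def S : List (List (ℕ × ℕ × ℕ)) :=
  [[(4, 0, 8)], [(4, 0, 9)], [(4, 0, 10)], [(4, 0, 11)], [(4, 1, 8)], [(4, 1, 9)], [(4, 1, 10)], [(4, 1, 11)
  ], [(4, 2, 8)], [(4, 2, 9)], [(4, 2, 10)], [(4, 2, 11)], [(4, 3, 8)], [(4, 3, 9)], [(4, 3, 10)], [(4, 3, 11)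
  ], [(5, 0, 8)], [(5, 0, 9)], [(5, 0, 10)], [(5, 0, 11)], [(5, 1, 8)], [(5, 1, 9)], [(5, 1, 10)], [(5, 1, 11)
  ], [(5, 2, 8)], [(5, 2, 9)], [(5, 2, 10)], [(5, 2, 11)], [(5, 3, 8)], [(5, 3, 9)], [(5, 3, 10)], [(5, 3, 11)
  ], [(6, 0, 4)], [(6, 0, 5)], [(6, 0, 6)], [(6, 0, 7)], [(6, 1, 4)], [(6, 1, 5)], [(6, 1, 6)], [(6, 1, 7)
  ], [(6, 2, 4)], [(6, 2, 5)], [(6, 2, 6)], [(6, 2, 7)], [(6, 3, 4)], [(6, 3, 5)], [(6, 3, 6)], [(6, 3, 7)
  ], [(8, 0, 4)], [(8, 0, 5)], [(8, 0, 6)], [(8, 0, 7)], [(8, 1, 4)], [(8, 1, 5)], [(8, 1, 6)], [(8, 1, 7)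
  ], [(8, 2, 4)], [(8, 2, 5)], [(8, 2, 6)], [(8, 2, 7)], [(8, 3, 4)], [(8, 3, 5)], [(8, 3, 6)], [(8, 3, 7)
  ], [(0, 4, 8)], [(0, 4, 9)], [(0, 4, 10)], [(0, 4, 11)], [(7, 3, 6)], [(3, 3, 8)], [(0, 5, 8)], [(0, 5, 9)
  ], [(3, 3, 10)], [(0, 5, 10)], [(0, 5, 11)], [(0, 6, 8)], [(0, 6, 9)], [(0, 6, 10)], [(0, 6, 11)], [(0, 7, 8)
  ], [(0, 7, 9)], [(0, 7, 10)], [(0, 7, 11)], [(7, 3, 4)], [(2, 4, 8)], [(1, 4, 8)], [(1, 4, 9)], [(1, 4, 10)
  ], [(2, 4, 11)], [(1, 4, 11)], [(7, 3, 5)], [(2, 5, 8)], [(7, 0, 6)], [(3, 0, 8)], [(7, 0, 5)], [(1, 5, 8)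
  ], [(1, 5, 9)], [(1, 5, 10)], [(2, 5, 11)], [(1, 5, 11)], [(2, 6, 8)], [(1, 6, 8)], [(2, 6, 9)], [(1, 6, 9)
  ], [(2, 6, 10)], [(1, 6, 10)], [(2, 6, 11)], [(1, 6, 11)], [(7, 2, 7)], [(7, 3, 7)], [(2, 7, 8)], [(7, 0, 7)
  ], [(1, 7, 8)], [(1, 7, 9)], [(1, 7, 10)], [(2, 7, 11)], [(1, 7, 11)], [(2, 4, 9)], [(2, 4, 10)], [(2, 5, 9)
  ], [(2, 5, 10)], [(2, 7, 9)], [(2, 7, 10)], [(7, 0, 4)], [(7, 1, 4)], [(7, 1, 6)], [(3, 1, 8)], [(7, 1, 5)
  ], [(7, 1, 7)], [(7, 2, 4)], [(7, 2, 6)], [(3, 2, 8)], [(7, 2, 5)], [(3, 0, 9)], [(3, 0, 10)], [(3, 0, 11)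
  ], [(3, 1, 9)], [(3, 1, 10)], [(3, 1, 11)], [(3, 2, 9)], [(3, 2, 10)], [(3, 2, 11)], [(3, 3, 9)], [(3, 3, 11)
  ]]

private theorem h0 : chk 13 5 8 31 N (okM 16 4) (rwS L1 L2) S = true := by decide +kernel

theorem ok : (sm true 16 3 1 ∅ ∅).OK :=
  ok_of_chk _ 16 4 rfl rfl P1 P2 T F L1 L2 (r := 144) N S (by decide +kernel) (by decide +kernel)
    (by decide +kernel) (by decide +kernel) (by decide +kernel) h0 (by decide +kernel)
    (by decide +kernel) (by decide +kernel) (by decide +kernel) (by decide +kernel)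

end Pool.Agent.KZ.AL.Ck.T334_3100_0
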