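import Pool.Agent.KZ.AL.OkC

/-! # KZ4, ALPHA: finite check T334_3100_R (generated) -/

set_option autoImplicit false
set_option maxRecDepth 100000

namespace Pool.Agent.KZ.AL.Ck.T334_3100_R

open Pool.Agent.KZ (Tri chk rwS)
open Finset (range)

/-- The positions of the T-points. -/
private def P1 : List ((ℕ × ℕ × ℕ) × List (ℕ × ℤ)) :=
  [((0, 3, 0), [(1, 4), (13, 2)]), ((0, 3, 1), [(1, 1), (3, 1), (12, 1), (13, 1)]),
   ((0, 3, 2), [(2, 1), (3, 1), (15, 1)]), ((1, 3, 0), [(4, 1), (5, 4), (12, 1)]),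
   ((1, 3, 1), [(4, 1), (12, 4), (13, 2), (15, 1)]), ((1, 3, 2), [(6, 1), (12, 1), (14, 1)]),
   ((2, 3, 0), [(8, 3), (10, 1), (11, 1), (14, 1), (15, 3)]), ((2, 3, 1), [(11, 2), (14, 1)]),
   ((2, 3, 2), [(8, 1), (12, -1), (14, -1), (15, -1)])]

/-- The positions of the free items. -/
private def P2 : List ((ℕ × ℕ × ℕ) × List (ℕ × ℤ)) :=
  []

private def T : List (ℕ × ℕ × ℕ) :=
  [(0, 3, 0), (0, 3, 1), (0, 3, 2), (1, 3, 0), (1, 3, 1), (1, 3, 2), (2, 3, 0), (2, 3, 1),
   (2, 3, 2)]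

private def F : List (ℕ × ℕ × ℕ) :=
  []

private def L1 : List (List (ℕ × ℕ)) :=
  [[(1, 4), (13, 2)], [(1, 1), (3, 1), (12, 1), (13, 1)], [(2, 1), (3, 1), (15, 1)],
   [(4, 1), (5, 4), (12, 1)], [(4, 1), (12, 4), (13, 2), (15, 1)], [(6, 1), (12, 1), (14, 1)],
   [(8, 3), (10, 1), (11, 1), (14, 1), (15, 3)], [(11, 2), (14, 1)], [(8, 1), (12, 30), (14, 30), (15, 30)]]

private def L2 : List (List (ℕ × ℕ)) :=
  []

private def t0 : Tri :=
  (.node (.node (.node (.node (.node .nil 68736258056 57 16 .nil) 68736286721 52 4 .nil) 68736286728 58 4 (.node .nil 68736286784 66 4 .nil)) 68736287232 70 4 (.node (.node .nil 68736516097 74 16 .nil) 68736516104 78 16 (.node .nil 68736516160 42 16 .nil))) 68736516608 86 16 (.node (.node (.node (.node .nil 68738351105 106 15 .nil) 68738351112 110 15 .nil) 68738351168 113 15 (.node .nil 68738351616 116 15 .nil)) 68853727233 53 4 (.node (.node .nil 68853727240 59 4 .nil) 68853727296 67 4 (.node .nil 68853727744 71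 4 .nil))))

private def t1 : Tri :=
  (.node (.node (.node (.node (.node .nil 68853956672 82 16 .nil) 68855791624 126 16 .nil) 69793222664 61 16 (.node .nil 69793251329 54 4 .nil)) 69793251336 62 4 (.node (.node .nil 69793251392 68 4 .nil) 69793251840 72 4 (.node .nil 69793480705 76 16 .nil))) 69793480712 80 16 (.node (.node (.node (.node .nil 69793480768 84 16 .nil) 69793481216 89 16 .nil) 69795315720 127 16 (.node .nil 77309415432 64 16 .nil)) 77309444097 55 4 (.node (.node .nil 77309444104 65 4 .nil) 77309444160 69 4 (.node .nil 77309444608 73 4 .nil))))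

private def t2 : Tri :=
  (.node t0 68853956609 75 16 t1)

private def t3 : Tri :=
  (.node (.node (.node (.node (.node .nil 77309673480 81 16 .nil) 77309673536 85 16 .nil) 77309673984 90 16 (.node .nil 77311508488 128 16 .nil)) 549772595201 91 8 (.node (.node .nil 549772595208 0 2 .nil) 549772595264 99 8 (.node .nil 549772595712 56 8 .nil))) 549772623880 4 2 (.node (.node (.node (.node .nil 549772624384 117 16 .nil) 549772853256 8 2 .nil) 549772853760 121 16 (.node .nil 549774688264 12 2 .nil)) 549774688768 125 16 (.node (.node .nil 549890035713 92 8 .nil) 549890035720 1 2 (.node .nil 549890035776 100 8 .nil))))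

private def t4 : Tri :=
  (.node (.node (.node (.node (.node .nil 549890064392 5 2 .nil) 549890064896 118 16 .nil) 549890293768 9 2 (.node .nil 549890294272 122 16 .nil)) 549892128776 13 2 (.node (.node .nil 550829559809 93 8 .nil) 550829559816 2 2 (.node .nil 550829559872 101 8 .nil))) 550829560320 60 8 (.node (.node (.node (.node .nil 550829588488 6 2 .nil) 550829588992 119 16 .nil) 550829817864 10 2 (.node .nil 550829818368 123 16 .nil)) 550831652872 14 2 (.node (.node .nil 558345752577 94 8 .nil) 558345752584 3 2 (.node .nil 558345752640 102 8 .nil))))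

private def t5 : Tri :=
  (.node t3 549890036224 33 16 t4)

private def t6 : Tri :=
  (.node t2 77309673473 77 16 t5)

private def t7 : Tri :=
  (.node (.node (.node (.node (.node .nil 558345781256 7 2 .nil) 558345781760 120 16 .nil) 558346010632 11 2 (.node .nil 558346011136 124 16 .nil)) 558347845640 15 2 (.node (.node .nil 4398063292417 103 15 .nil) 4398063292424 107 15 (.node .nil 4398063292480 111 15 .nil))) 4398063292928 114 15 (.node (.node (.node (.node .nil 4398063321089 104 15 .nil) 4398063321096 108 15 .nil) 4398063321152 112 15 (.node .nil 4398063321600 115 15 .nil)) 4398180990984 79 16 (.node (.node .nil 4398180991488 87 16 .nil) 4399120257025 129 16 (.node .nil 4399120257032 133 16 .nil))))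

private def t8 : Tri :=
  (.node (.node (.node (.node (.node .nil 4399120257536 140 16 .nil) 4399120285697 130 16 .nil) 4399120285704 134 16 (.node .nil 4399120285760 138 16 .nil)) 4399120286208 141 16 (.node (.node .nil 4399120515136 83 16 .nil) 4399120515584 88 16 (.node .nil 4399122350081 132 16 .nil))) 4399122350088 136 16 (.node (.node (.node (.node .nil 4399122350144 139 16 .nil) 4399122350592 142 16 .nil) 4406636449793 16 8 (.node .nil 4406636449800 20 8 .nil)) 4406636449856 24 8 (.node (.node .nil 4406636450304 28 8 .nil) 4406636478465 17 8 (.node .nil 4406636478472 21 8 .nil))))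

private def t9 : Tri :=
  (.node t7 4399120257088 137 16 t8)

private def t10 : Tri :=
  (.node (.node (.node (.node (.node .nil 4406636478976 29 8 .nil) 4406636707841 18 8 .nil) 4406636707848 22 8 (.node .nil 4406636707904 26 8 .nil)) 4406636708352 30 8 (.node (.node .nil 4406638542849 19 8 .nil) 4406638542856 23 8 (.node .nil 4406638542912 27 8 .nil))) 4406638543360 31 8 (.node (.node (.node (.node .nil 35184388870152 95 16 .nil) 35184388870208 32 16 .nil) 35184388898880 38 16 (.node .nil 35184389128193 105 15 .nil)) 35184389128200 109 15 (.node (.node .nil 35184389128256 43 15 .nil) 35184389128704 44 16 (.node .nil 35184390963264 48 16 .nil))))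

private def t11 : Tri :=
  (.node (.node (.node (.node (.node .nil 35184506310720 35 16 .nil) 35184506311168 34 16 .nil) 35184506339392 39 16 (.node .nil 35184506568768 45 16 .nil)) 35184508403776 49 16 (.node (.node .nil 35185445834760 97 16 .nil) 35185445834816 36 16 (.node .nil 35185445863488 40 16 .nil))) 35185446092801 131 26 (.node (.node (.node (.node .nil 35185446092808 135 26 .nil) 35185446092864 46 16 .nil) 35185447927872 50 16 (.node .nil 35192962027528 98 16 .nil)) 35192962027584 37 16 (.node (.node .nil 35192962056256 41 16 .nil) 35192962285632 47 16 (.node .nil 35192964120640 51 16 .nil))))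

private def t12 : Tri :=
  (.node t10 35184506310664 96 16 t11)

private def t13 : Tri :=
  (.node t9 4406636478528 25 8 t12)

private def t14 : Tri :=
  (.node t6 558345753088 63 8 t13)

private def N : Tri := t14

private def S : List (List (ℕ × ℕ × ℕ)) :=
  [[(0, 4, 8)], [(0, 4, 9)], [(0, 4, 10)], [(0, 4, 11)], [(0, 5, 8)], [(0, 5, 9)], [(0, 5, 10)], [(0, 5, 11)
  ], [(0, 6, 8)], [(0, 6, 9)], [(0, 6, 10)], [(0, 6, 11)], [(0, 7, 8)], [(0, 7, 9)], [(0, 7, 10)], [(0, 7, 11)
  ], [(7, 0, 4)], [(7, 0, 5)], [(7, 0, 6)], [(7, 0, 7)], [(7, 1, 4)], [(7, 1, 5)], [(7, 1, 6)], [(7, 1, 7)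
  ], [(7, 2, 4)], [(7, 2, 5)], [(7, 2, 6)], [(7, 2, 7)], [(7, 3, 4)], [(7, 3, 5)], [(7, 3, 6)], [(7, 3, 7)
  ], [(2, 4, 8)], [(1, 4, 9)], [(4, 3, 9)], [(2, 4, 9)], [(2, 4, 10)], [(2, 4, 11)], [(2, 5, 8)], [(2, 5, 9)
  ], [(2, 5, 10)], [(2, 5, 11)], [(5, 2, 8)], [(8, 2, 6)], [(2, 6, 8)], [(2, 6, 9)], [(2, 6, 10)], [(2, 6, 11)
  ], [(2, 7, 8)], [(2, 7, 9)], [(2, 7, 10)], [(2, 7, 11)], [(3, 0, 8)], [(3, 0, 9)], [(3, 0, 10)], [(3, 0, 11)
  ], [(4, 3, 8)], [(1, 4, 8)], [(3, 1, 8)], [(3, 1, 9)], [(4, 3, 10)], [(1, 4, 10)], [(3, 1, 10)], [(4, 3, 11)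
  ], [(1, 4, 11)], [(3, 1, 11)], [(3, 2, 8)], [(3, 2, 9)], [(3, 2, 10)], [(3, 2, 11)], [(3, 3, 8)], [(3, 3, 9)
  ], [(3, 3, 10)], [(3, 3, 11)], [(5, 0, 8)], [(5, 0, 9)], [(5, 0, 10)], [(5, 0, 11)], [(5, 1, 8)], [(5, 1, 9)
  ], [(5, 1, 10)], [(5, 1, 11)], [(5, 2, 9)], [(6, 2, 6)], [(5, 2, 10)], [(5, 2, 11)], [(5, 3, 8)], [(5, 3, 9)
  ], [(6, 3, 6)], [(5, 3, 10)], [(5, 3, 11)], [(4, 0, 8)], [(4, 0, 9)], [(4, 0, 10)], [(4, 0, 11)], [(4, 1, 8)
  ], [(4, 1, 9)], [(4, 1, 10)], [(4, 1, 11)], [(4, 2, 8)], [(4, 2, 9)], [(4, 2, 10)], [(4, 2, 11)], [(8, 0, 4)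
  ], [(8, 0, 5)], [(8, 0, 6)], [(8, 0, 7)], [(8, 1, 4)], [(8, 1, 5)], [(8, 1, 6)], [(8, 1, 7)], [(8, 2, 4)
  ], [(8, 2, 5)], [(8, 2, 7)], [(8, 3, 4)], [(8, 3, 5)], [(8, 3, 7)], [(1, 5, 8)], [(1, 5, 9)], [(1, 5, 10)
  ], [(1, 5, 11)], [(1, 6, 8)], [(1, 6, 9)], [(1, 6, 10)], [(1, 6, 11)], [(1, 7, 8)], [(1, 7, 9)], [(1, 7, 10)
  ], [(1, 7, 11)], [(6, 0, 4)], [(6, 0, 5)], [(6, 0, 6)], [(6, 0, 7)], [(6, 1, 4)], [(6, 1, 5)], [(6, 1, 6)
  ], [(6, 1, 7)], [(6, 2, 4)], [(6, 2, 5)], [(6, 2, 7)], [(6, 3, 4)], [(6, 3, 5)], [(6, 3, 7)]]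

private theorem h0 : chk 20 5 15 31 N (okM 16 4) (rwS L1 L2) S = true := by decide +kernel

theorem ok : (sm true 16 3 1 {(3, {0, 1, 2}, 2)} ∅).OK :=
  ok_of_chk _ 16 4 rfl rfl P1 P2 T F L1 L2 (r := 143) N S (by decide +kernel) (by decide +kernel)
    (by decide +kernel) (by decide +kernel) (by decide +kernel) h0 (by decide +kernel)
    (by decide +kernel) (by decide +kernel) (by decide +kernel) (by decide +kernel)

end Pool.Agent.KZ.AL.Ck.T334_3100_R
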