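import Pool.Agent.KZ.AL.OkC

/-! # KZ4, ALPHA: finite check T433_1100_0 (generated) -/

set_option autoImplicit false
set_option maxRecDepth 100000

namespace Pool.Agent.KZ.AL.Ck.T433_1100_0

open Pool.Agent.KZ (Tri chk rwS)
open Finset (range)

/-- The positions of the T-points. -/
private def P1 : List ((ℕ × ℕ × ℕ) × List (ℕ × ℤ)) :=
  [((0, 1, 0), [(2, 1), (5, 1), (6, 1)]), ((0, 1, 1), [(1, 1), (3, 1), (4, 1), (5, 1), (6, 1)]),
   ((0, 1, 2), [(3, 1), (5, 1)]), ((0, 1, 3), [(0, 1), (3, 1), (4, 1), (5, 1), (6, 1), (7, 1)])]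

/-- The positions of the free items. -/
private def P2 : List ((ℕ × ℕ × ℕ) × List (ℕ × ℤ)) :=
  [((0, 1, 0), [(0, 1), (1, 1), (2, 1), (3, 4), (6, 1)])]

private def T : List (ℕ × ℕ × ℕ) :=
  [(0, 1, 0), (0, 1, 1), (0, 1, 2), (0, 1, 3)]

private def F : List (ℕ × ℕ × ℕ) :=
  [(0, 1, 0)]

private def L1 : List (List (ℕ × ℕ)) :=
  [[(2, 1), (5, 1), (6, 1)], [(1, 1), (3, 1), (4, 1), (5, 1), (6, 1)], [(3, 1), (5, 1)],
   [(0, 1), (3, 1), (4, 1), (5, 1), (6, 1), (7, 1)]]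

private def L2 : List (List (ℕ × ℕ)) :=
  [[(0, 1), (1, 1), (2, 1), (3, 4), (6, 1)]]

private def t0 : Tri :=
  (.node (.node (.node (.node (.node .nil 4099 117 1 .nil) 4106 109 16 .nil) 4113 96 16 (.node .nil 4120 91 0x200078018 .nil)) 4162 128 21 (.node (.node (.node .nil 4169 121 16 .nil) 4176 122 16 .nil) 4225 60 1 (.node .nil 4232 48 1 .nil))) 4288 85 1 (.node (.node (.node (.node .nil 4624 87 16 .nil) 4736 49 1 .nil) 5121 34 1 (.node .nil 5128 17 16 .nil)) 5184 81 1 (.node (.node .nil 5632 10 1 .nil) 8194 103 1 (.node .nil 8208 91 0x3c000800f .nil))))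

private def t1 : Tri :=
  (.node (.node (.node (.node (.node .nil 8705 101 1 .nil) 8768 123 1 .nil) 9216 11 1 (.node .nil 12289 102 1 .nil)) 12296 91 0x600078008 (.node (.node .nil 12352 125 1 .nil) 12800 90 1 (.node .nil 32771 106 1 .nil))) 32778 107 21 (.node (.node (.node (.node .nil 32785 95 1 .nil) 32792 89 1 .nil) 32834 77 16 (.node .nil 32841 83 16 .nil)) 32848 46 16 (.node (.node .nil 32897 61 1 .nil) 32904 40 1 (.node .nil 32960 53 1 .nil))))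

private def t2 : Tri :=
  (.node t0 8320 55 1 t1)

private def t3 : Tri :=
  (.node (.node (.node (.node (.node .nil 33296 22 16 .nil) 33345 7 16 .nil) 33352 23 16 (.node .nil 33408 30 16 .nil)) 33793 1 16 (.node (.node (.node .nil 33800 12 16 .nil) 33856 26 16 .nil) 34304 0 0x600078008 (.node .nil 36866 104 1 .nil))) 36880 88 1 (.node (.node (.node (.node .nil 36936 47 16 .nil) 36992 50 1 .nil) 37888 9 1 (.node .nil 65538 4 1 .nil)) 65545 6 1 (.node (.node .nil 65552 21 1 .nil) 65601 8 1 (.node .nil 65608 24 1 .nil))))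

private def t4 : Tri :=
  (.node (.node (.node (.node (.node .nil 66112 27 1 .nil) 66560 0 0x3c000800f .nil) 69640 18 1 (.node .nil 98305 2 1 .nil)) 98312 19 1 (.node (.node .nil 98368 28 1 .nil) 98816 0 0x200078018 (.node .nil 262147 71 0x8000f .nil))) 262154 68 21 (.node (.node (.node (.node .nil 262161 64 1 .nil) 262168 67 1 .nil) 262210 69 21 (.node .nil 262273 62 16 .nil)) 262280 41 16 (.node (.node .nil 262336 54 0x600078008 .nil) 262658 70 21 (.node .nil 262672 65 1 .nil))))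

private def t5 : Tri :=
  (.node t3 65664 29 1 t4)

private def t6 : Tri :=
  (.node t2 33282 5 16 t5)

private def t7 : Tri :=
  (.node (.node (.node (.node (.node .nil 263232 25 1 .nil) 263680 14 1 .nil) 266242 108 1 (.node .nil 266256 66 1 .nil)) 266368 51 1 (.node (.node (.node .nil 267264 15 1 .nil) 270400 56 16 .nil) 294914 76 1 (.node .nil 294928 39 1 .nil))) 295040 52 1 (.node (.node (.node (.node .nil 295936 13 1 .nil) 327681 3 1 .nil) 327688 20 1 (.node .nil 524290 71 0x28010 .nil)) 524304 45 1 (.node (.node .nil 524416 54 0x3c000800f .nil) 525312 16 1 (.node .nil 786433 63 1 .nil))))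

private def t8 : Tri :=
  (.node (.node (.node (.node (.node .nil 786496 54 0x200078018 .nil) 786944 44 1 .nil) 2097155 120 0x2000c000f (.node .nil 2097169 97 1 .nil)) 2097176 124 1 (.node (.node .nil 2097225 130 26 .nil) 2097232 126 1 (.node .nil 2097281 73 1 .nil))) 2097288 84 1 (.node (.node (.node (.node .nil 2097344 86 1 .nil) 2097680 98 1 .nil) 2097792 74 1 (.node .nil 2098177 35 1 .nil)) 2098184 80 1 (.node (.node .nil 2098240 82 1 .nil) 2098688 36 1 (.node .nil 2101250 115 1 .nil))))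

private def t9 : Tri :=
  (.node t7 786440 42 1 t8)

private def t10 : Tri :=
  (.node (.node (.node (.node (.node .nil 2101376 57 1 .nil) 2102272 31 1 .nil) 2129922 105 1 (.node .nil 2129936 93 1 .nil)) 2130048 58 1 (.node (.node .nil 2130944 32 1 .nil) 2359298 116 0x5000b (.node .nil 2359312 94 1 .nil))) 2359424 59 1 (.node (.node (.node (.node .nil 2360320 33 1 .nil) 2621441 72 16 .nil) 4194306 120 0x3c0078001 (.node .nil 4194313 127 1 .nil)) 4194320 99 1 (.node (.node .nil 4194369 129 1 .nil) 4194376 131 1 (.node .nil 4194432 75 1 .nil))))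

private def t11 : Tri :=
  (.node (.node (.node (.node (.node .nil 4194824 100 1 .nil) 4194880 132 1 .nil) 4195328 37 1 (.node .nil 4198408 110 1 .nil)) 4198464 134 1 (.node (.node .nil 4198912 111 1 .nil) 4227080 112 1 (.node .nil 4227136 78 1 .nil))) 4227584 38 16 (.node (.node (.node (.node .nil 4456449 116 0x5800a .nil) 4456456 113 1 .nil) 4456512 79 16 (.node .nil 4456960 114 16 .nil)) 6291457 120 0x60004000f (.node (.node .nil 6291464 133 1 .nil) 6291520 135 1 (.node .nil 6291968 119 1 .nil))))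

private def t12 : Tri :=
  (.node t10 4194817 118 1 t11)

private def t13 : Tri :=
  (.node t9 2101264 92 1 t12)

private def t14 : Tri :=
  (.node t6 262784 43 16 t13)

private def N : Tri := t14

private def S : List (List (ℕ × ℕ × ℕ)) :=
  [[(2, 5, 5), (2, 3, 5), (2, 3, 3)], [(2, 0, 3)], [(2, 0, 5)], [(2, 0, 6)], [(3, 5, 5)], [(2, 0, 0)
  ], [(2, 0, 1)], [(0, 0, 3)], [(2, 0, 2)], [(2, 4, 5)], [(2, 3, 4)], [(2, 4, 4)], [(2, 1, 3)], [(2, 5, 6)
  ], [(2, 3, 6)], [(2, 4, 6)], [(2, 6, 6)], [(1, 3, 3)], [(2, 1, 4)], [(2, 1, 5)], [(2, 1, 6)], [(1, 5, 5)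
  ], [(2, 1, 1)], [(0, 1, 3)], [(2, 1, 2)], [(2, 2, 6)], [(0, 3, 3)], [(2, 2, 3)], [(2, 2, 5)], [(0, 5, 5)
  ], [(2, 2, 2)], [(2, 4, 7)], [(2, 5, 7)], [(2, 6, 7)], [(2, 0, 4)], [(2, 0, 7)], [(2, 3, 7)], [(3, 3, 3)
  ], [(2, 7, 7)], [(1, 5, 6)], [(0, 1, 5)], [(0, 1, 2)], [(0, 1, 6)], [(0, 2, 3)], [(0, 3, 6)], [(1, 6, 6)
  ], [(0, 1, 1)], [(1, 2, 5)], [(0, 1, 4)], [(0, 3, 4)], [(0, 4, 5)], [(0, 4, 6)], [(0, 5, 6)], [(0, 2, 5)
  ], [(0, 6, 6), (0, 2, 6), (0, 2, 2)], [(1, 2, 2)], [(0, 4, 4)], [(0, 4, 7)], [(0, 5, 7)], [(0, 6, 7)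
  ], [(0, 0, 4)], [(0, 0, 5)], [(0, 0, 2)], [(0, 0, 6)], [(1, 0, 6)], [(1, 3, 6)], [(1, 4, 6)], [(1, 1, 6)
  ], [(4, 1, 0)], [(4, 2, 0)], [(4, 3, 0)], [(4, 6, 0), (4, 0, 0)], [(3, 6, 6)], [(0, 0, 7)], [(0, 3, 7)
  ], [(3, 2, 2)], [(3, 5, 6)], [(0, 0, 0)], [(3, 2, 5)], [(0, 7, 7)], [(2, 1, 7)], [(2, 2, 4)], [(2, 2, 7)
  ], [(0, 0, 1)], [(0, 1, 7)], [(0, 2, 4)], [(0, 2, 7)], [(1, 1, 3)], [(1, 4, 5)], [(1, 1, 5)], [(1, 3, 4)
  ], [(1, 1, 1), (1, 1, 4), (1, 4, 4)], [(1, 4, 7)], [(1, 5, 7)], [(1, 6, 7)], [(1, 0, 5)], [(1, 0, 1)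
  ], [(1, 0, 7)], [(1, 3, 7)], [(3, 1, 1)], [(3, 1, 3)], [(1, 0, 3)], [(1, 0, 4)], [(3, 4, 4)], [(3, 4, 5)
  ], [(3, 5, 7)], [(3, 0, 5)], [(4, 5, 0)], [(3, 4, 6)], [(1, 0, 0)], [(3, 1, 4)], [(3, 3, 4)], [(3, 1, 5)
  ], [(3, 1, 6)], [(1, 7, 7)], [(3, 4, 7)], [(3, 0, 6), (3, 6, 7)], [(3, 0, 4)], [(3, 0, 3)], [(3, 3, 7)
  ], [(3, 0, 7), (3, 0, 0), (3, 7, 7)], [(1, 0, 2)], [(1, 1, 2)], [(1, 2, 3)], [(1, 1, 7)], [(1, 2, 4)
  ], [(1, 2, 7)], [(3, 0, 1)], [(4, 4, 0)], [(3, 0, 2)], [(4, 7, 0)], [(3, 1, 2)], [(3, 2, 3)], [(3, 1, 7)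
  ], [(3, 2, 4)], [(3, 2, 7)]]

private theorem h0 : chk 15 5 10 31 N (okM 8 2) (rwS L1 L2) S = true := by decide +kernel

theorem ok : (sm false 8 1 1 ∅ {(0, 1, 0)}).OK :=
  ok_of_chk _ 8 2 rfl rfl P1 P2 T F L1 L2 (r := 146) N S (by decide +kernel) (by decide +kernel)
    (by decide +kernel) (by decide +kernel) (by decide +kernel) h0 (by decide +kernel)
    (by decide +kernel) (by decide +kernel) (by decide +kernel) (by decide +kernel)

end Pool.Agent.KZ.AL.Ck.T433_1100_0
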