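import Pool.Agent.KZ.AL.OkC

/-! # KZ4, ALPHA: finite check T433_1101_0 (generated) -/

set_option autoImplicit false
set_option maxRecDepth 100000

namespace Pool.Agent.KZ.AL.Ck.T433_1101_0

open Pool.Agent.KZ (Tri chk rwS)
open Finset (range)

/-- The positions of the T-points. -/
private def P1 : List ((ℕ × ℕ × ℕ) × List (ℕ × ℤ)) :=
  [((0, 1, 0), [(3, 1), (4, 1)]), ((0, 1, 1), [(0, 1), (3, 4), (7, 2)]),
   ((0, 1, 2), [(1, 2), (2, 4), (5, 1)]), ((0, 1, 3), [(0, 2), (2, 3), (4, 1), (6, 1)])]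

/-- The positions of the free items. -/
private def P2 : List ((ℕ × ℕ × ℕ) × List (ℕ × ℤ)) :=
  [((0, 1, 0), [(1, 1), (4, 1), (7, 1)])]

private def T : List (ℕ × ℕ × ℕ) :=
  [(0, 1, 0), (0, 1, 1), (0, 1, 2), (0, 1, 3)]

private def F : List (ℕ × ℕ × ℕ) :=
  [(0, 1, 0)]

private def L1 : List (List (ℕ × ℕ)) :=
  [[(3, 1), (4, 1)], [(0, 1), (3, 4), (7, 2)], [(1, 2), (2, 4), (5, 1)],
   [(0, 2), (2, 3), (4, 1), (6, 1)]]

private def L2 : List (List (ℕ × ℕ)) :=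
  [[(1, 1), (4, 1), (7, 1)]]

private def t0 : Tri :=
  (.node (.node (.node (.node (.node .nil 16781314 3 0x12015 .nil) 16781321 29 8 .nil) 16781825 4 16 (.node .nil 16781832 5 16 .nil)) 16781888 6 16 (.node (.node (.node .nil 16782336 7 45066 .nil) 16785409 3 0x1500a .nil) 16785920 7 40971 (.node .nil 16809993 17 8 .nil))) 16810000 19 0x15012 (.node (.node (.node (.node .nil 16810497 23 4 .nil) 16810504 20 8 .nil) 16814081 31 8 (.node .nil 16814088 25 8 .nil)) 16814592 8 16 (.node (.node .nil 16842760 19 40981 .nil) 16842816 18 1 (.node .nil 17039376 26 8 .nil))))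

private def t1 : Tri :=
  (.node (.node (.node (.node (.node .nil 17040384 9 1 .nil) 17301505 2 8 .nil) 17301568 1 1 (.node .nil 18874370 14 0x1500a .nil)) 18874377 15 8 (.node (.node (.node .nil 18874440 27 2 .nil) 18874944 16 2 .nil) 18878465 22 8 (.node .nil 18878472 28 26 .nil))) 18878528 32 26 (.node (.node (.node (.node .nil 18878976 10 16 .nil) 19137024 24 2 .nil) 20971521 14 0x12015 (.node .nil 20972032 13 8 .nil)) 33558529 21 8 (.node (.node .nil 33559040 0 16 .nil) 33587208 12 8 (.node .nil 35651585 11 8 .nil))))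

private def t2 : Tri :=
  (.node t0 17039936 30 26 t1)

private def N : Tri := t2

private def S : List (List (ℕ × ℕ × ℕ)) :=
  [[(0, 8, 8)], [(3, 2, 8)], [(3, 6, 8)], [(3, 0, 8), (3, 4, 8)], [(0, 0, 8)], [(0, 1, 8)], [(0, 2, 8)
  ], [(0, 4, 8), (0, 3, 8)], [(0, 5, 8)], [(0, 6, 8)], [(0, 7, 8)], [(1, 8, 8)], [(2, 8, 8)], [(1, 3, 8)
  ], [(1, 7, 8), (1, 0, 8)], [(1, 1, 8)], [(1, 2, 8)], [(2, 0, 8)], [(2, 2, 8)], [(2, 5, 8), (2, 1, 8)
  ], [(2, 3, 8)], [(3, 8, 8)], [(1, 4, 8)], [(1, 5, 8)], [(1, 6, 8)], [(2, 4, 8)], [(2, 6, 8)], [(2, 7, 8)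
  ], [(4, 8, 0)], [(3, 1, 8)], [(3, 3, 8)], [(3, 5, 8)], [(3, 7, 8)]]

private theorem h0 : chk 12 5 7 31 N (okM 9 3) (rwS L1 L2) S = true := by decide +kernel

theorem ok : (sm false 9 1 1 ∅ {(0, 1, 0)}).OK :=
  ok_of_chk _ 9 3 rfl rfl P1 P2 T F L1 L2 (r := 37) N S (by decide +kernel) (by decide +kernel)
    (by decide +kernel) (by decide +kernel) (by decide +kernel) h0 (by decide +kernel)
    (by decide +kernel) (by decide +kernel) (by decide +kernel) (by decide +kernel)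

end Pool.Agent.KZ.AL.Ck.T433_1101_0
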