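import Pool.Agent.KZ.AL.OkC

/-! # KZ4, ALPHA: finite check T433_1102_0 (generated) -/

set_option autoImplicit false
set_option maxRecDepth 100000

namespace Pool.Agent.KZ.AL.Ck.T433_1102_0

open Pool.Agent.KZ (Tri chk rwS)
open Finset (range)

/-- The positions of the T-points. -/
private def P1 : List ((ℕ × ℕ × ℕ) × List (ℕ × ℤ)) :=
  [((0, 1, 0), [(0, 1), (5, 2)]), ((0, 1, 1), [(2, 1), (4, 1), (5, 1)]),
   ((0, 1, 2), [(1, 2), (5, 1), (7, 4)]), ((0, 1, 3), [(0, 1), (1, 2), (5, 4), (6, 1)])]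

/-- The positions of the free items. -/
private def P2 : List ((ℕ × ℕ × ℕ) × List (ℕ × ℤ)) :=
  []

private def T : List (ℕ × ℕ × ℕ) :=
  [(0, 1, 0), (0, 1, 1), (0, 1, 2), (0, 1, 3)]

private def F : List (ℕ × ℕ × ℕ) :=
  []

private def L1 : List (List (ℕ × ℕ)) :=
  [[(0, 1), (5, 2)], [(2, 1), (4, 1), (5, 1)], [(1, 2), (5, 1), (7, 4)],
   [(0, 1), (1, 2), (5, 4), (6, 1)]]

private def L2 : List (List (ℕ × ℕ)) :=
  []

private def t0 : Tri :=
  (.node (.node (.node .nil 150999104 1 16 .nil) 151027713 0 8 .nil) 151257089 3 16 (.node .nil 153092104 2 2 .nil))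

private def N : Tri := t0

private def S : List (List (ℕ × ℕ × ℕ)) :=
  [[(0, 8, 9)], [(1, 8, 9)], [(2, 8, 9)], [(3, 8, 9)]]

private theorem h0 : chk 12 5 7 31 N (okM 10 4) (rwS L1 L2) S = true := by decide +kernel

theorem ok : (sm false 10 1 1 ∅ ∅).OK :=
  ok_of_chk _ 10 4 rfl rfl P1 P2 T F L1 L2 (r := 4) N S (by decide +kernel) (by decide +kernel)
    (by decide +kernel) (by decide +kernel) (by decide +kernel) h0 (by decide +kernel)
    (by decide +kernel) (by decide +kernel) (by decide +kernel) (by decide +kernel)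

end Pool.Agent.KZ.AL.Ck.T433_1102_0
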