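import Pool.Agent.KZ.AL.OkC

/-! # KZ4, ALPHA: finite check T433_1111_0 (generated) -/

set_option autoImplicit false
set_option maxRecDepth 100000

namespace Pool.Agent.KZ.AL.Ck.T433_1111_0

open Pool.Agent.KZ (Tri chk rwS)
open Finset (range)

/-- The positions of the T-points. -/
private def P1 : List ((ℕ × ℕ × ℕ) × List (ℕ × ℤ)) :=
  [((0, 1, 0), [(1, 1), (6, 1)]), ((0, 1, 1), [(3, 1), (5, 1)]),
   ((0, 1, 2), [(3, 1), (6, 2)]), ((0, 1, 3), [(2, 3), (3, 1), (4, 1), (7, 1)]),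
   ((0, 2, 0), [(0, 1), (1, 1), (2, 1), (10, 1), (11, 2)]), ((0, 2, 1), [(0, 2), (11, 1)]),
   ((0, 2, 2), [(0, 1), (1, 4), (8, 1), (9, 3), (11, 1)]), ((1, 2, 0), [(6, 1), (7, 1), (9, 1), (10, 4)]),
   ((1, 2, 1), [(4, 1), (5, 1), (7, 1), (9, 1), (11, 3)]), ((1, 2, 2), [(7, 3), (10, 1)])]

/-- The positions of the free items. -/
private def P2 : List ((ℕ × ℕ × ℕ) × List (ℕ × ℤ)) :=
  []

private def T : List (ℕ × ℕ × ℕ) :=
  [(0, 1, 0), (0, 1, 1), (0, 1, 2), (0, 1, 3), (0, 2, 0), (0, 2, 1), (0, 2, 2), (1, 2, 0),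
   (1, 2, 1), (1, 2, 2)]

private def F : List (ℕ × ℕ × ℕ) :=
  []

private def L1 : List (List (ℕ × ℕ)) :=
  [[(1, 1), (6, 1)], [(3, 1), (5, 1)], [(3, 1), (6, 2)],
   [(2, 3), (3, 1), (4, 1), (7, 1)], [(0, 1), (1, 1), (2, 1), (10, 1), (11, 2)], [(0, 2), (11, 1)],
   [(0, 1), (1, 4), (8, 1), (9, 3), (11, 1)], [(6, 1), (7, 1), (9, 1), (10, 4)], [(4, 1), (5, 1), (7, 1), (9, 1), (11, 3)],
   [(7, 3), (10, 1)]]

private def L2 : List (List (ℕ × ℕ)) :=
  []

private def t0 : Tri :=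
  (.node (.node (.node (.node (.node .nil 68736258049 35 16 .nil) 68736258112 20 26 .nil) 68736286721 36 16 (.node (.node .nil 68736287232 4 16 .nil) 68736516097 37 16 .nil)) 68736516104 0 16 (.node (.node (.node .nil 68736516608 8 8 .nil) 68738351105 38 16 .nil) 68853698561 33 16 (.node .nil 68853698568 34 16 .nil))) 68853698624 24 26 (.node (.node (.node (.node .nil 68853699072 23 16 .nil) 68853727296 39 16 .nil) 68853727744 5 16 (.node .nil 68853956609 26 16 .nil)) 68853956616 1 16 (.node (.node (.node .nil 68853956672 28 16 .nil) 68853957120 9 8 .nil) 68855791624 27 16 (.node .nil 68855792128 21 16 .nil))))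

private def t1 : Tri :=
  (.node (.node (.node (.node (.node .nil 69793223168 25 16 .nil) 69793251329 30 16 .nil) 69793251840 6 16 (.node .nil 69793480712 2 16 .nil)) 69793481216 10 8 (.node (.node (.node .nil 69795315713 16 26 .nil) 69795315720 17 26 .nil) 69795315776 18 26 (.node .nil 69795316224 19 26 .nil))) 77309415425 12 8 (.node (.node (.node (.node .nil 77309415936 22 16 .nil) 77309444097 13 8 .nil) 77309444608 7 16 (.node .nil 77309673473 14 8 .nil)) 77309673480 3 16 (.node (.node (.node .nil 77309673536 31 8 .nil) 77309673984 11 8 .nil) 77311508481 15 8 (.node .nil 77311508488 32 8 .nil))))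

private def t2 : Tri :=
  (.node t0 69793222657 29 16 t1)

private def N : Tri := t2

private def S : List (List (ℕ × ℕ × ℕ)) :=
  [[(0, 8, 12)], [(0, 9, 12)], [(0, 10, 12)], [(0, 11, 12)], [(1, 8, 12)], [(1, 9, 12)], [(1, 10, 12)], [(1, 11, 12)
  ], [(2, 8, 12)], [(2, 9, 12)], [(2, 10, 12)], [(2, 11, 12)], [(5, 4, 12)], [(5, 5, 12)], [(5, 6, 12)], [(5, 7, 12)
  ], [(9, 0, 12)], [(9, 1, 12)], [(9, 2, 12)], [(9, 3, 12)], [(3, 8, 12)], [(7, 3, 12)], [(3, 11, 12)], [(8, 3, 12)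
  ], [(3, 9, 12)], [(3, 10, 12)], [(7, 0, 12)], [(7, 1, 12)], [(7, 2, 12)], [(4, 4, 12)], [(4, 5, 12)], [(4, 6, 12)
  ], [(4, 7, 12)], [(8, 0, 12)], [(8, 1, 12)], [(6, 4, 12)], [(6, 5, 12)], [(6, 6, 12)], [(6, 7, 12)], [(8, 2, 12)
  ]]

private theorem h0 : chk 13 5 8 31 N (okM 13 4) (rwS L1 L2) S = true := by decide +kernel

theorem ok : (sm false 13 1 1 ∅ ∅).OK :=
  ok_of_chk _ 13 4 rfl rfl P1 P2 T F L1 L2 (r := 40) N S (by decide +kernel) (by decide +kernel)
    (by decide +kernel) (by decide +kernel) (by decide +kernel) h0 (by decide +kernel)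
    (by decide +kernel) (by decide +kernel) (by decide +kernel) (by decide +kernel)

end Pool.Agent.KZ.AL.Ck.T433_1111_0
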