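import Pool.Agent.KZ.AL.OkC

/-! # KZ4, ALPHA: finite check T433_1120_0 (generated) -/

set_option autoImplicit false
set_option maxRecDepth 100000

namespace Pool.Agent.KZ.AL.Ck.T433_1120_0

open Pool.Agent.KZ (Tri chk rwS)
open Finset (range)

/-- The positions of the T-points. -/
private def P1 : List ((ℕ × ℕ × ℕ) × List (ℕ × ℤ)) :=
  [((0, 1, 0), [(0, 2), (1, 4), (2, 1), (3, 1), (6, 1)]), ((0, 1, 1), [(1, 3), (2, 1), (4, 4), (5, 1), (7, 1)]),
   ((0, 1, 2), [(0, 1), (3, 1), (5, 1), (7, 1)]), ((0, 1, 3), [(1, 1), (2, 1), (6, 1)]),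
   ((0, 2, 0), [(0, 1), (10, 2), (11, 1)]), ((0, 2, 1), [(0, 1), (8, 1)]),
   ((0, 2, 2), [(3, 1), (8, 1), (11, 1)]), ((0, 3, 0), [(1, 1), (13, 1)]),
   ((0, 3, 1), [(2, 1), (14, 1), (15, 1)]), ((0, 3, 2), [(2, 1), (14, 1)]),
   ((1, 2, 0), [(6, 1), (7, 1), (11, 1)]), ((1, 2, 1), [(7, 1), (9, 1), (11, 1)]),
   ((1, 2, 2), [(4, 1), (5, 1), (9, 1), (10, 1)]), ((1, 3, 0), [(4, 1), (12, 1), (13, 1), (15, 3)]),
   ((1, 3, 1), [(4, 1), (6, 1), (12, 1)]), ((1, 3, 2), [(4, 1), (13, 1), (14, 1)])]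

/-- The positions of the free items. -/
private def P2 : List ((ℕ × ℕ × ℕ) × List (ℕ × ℤ)) :=
  []

private def T : List (ℕ × ℕ × ℕ) :=
  [(0, 1, 0), (0, 1, 1), (0, 1, 2), (0, 1, 3), (0, 2, 0), (0, 2, 1), (0, 2, 2), (0, 3, 0),
   (0, 3, 1), (0, 3, 2), (1, 2, 0), (1, 2, 1), (1, 2, 2), (1, 3, 0), (1, 3, 1), (1, 3, 2)]

private def F : List (ℕ × ℕ × ℕ) :=
  []

private def L1 : List (List (ℕ × ℕ)) :=
  [[(0, 2), (1, 4), (2, 1), (3, 1), (6, 1)], [(1, 3), (2, 1), (4, 4), (5, 1), (7, 1)], [(0, 1), (3, 1), (5, 1), (7, 1)],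
   [(1, 1), (2, 1), (6, 1)], [(0, 1), (10, 2), (11, 1)], [(0, 1), (8, 1)],
   [(3, 1), (8, 1), (11, 1)], [(1, 1), (13, 1)], [(2, 1), (14, 1), (15, 1)],
   [(2, 1), (14, 1)], [(6, 1), (7, 1), (11, 1)], [(7, 1), (9, 1), (11, 1)],
   [(4, 1), (5, 1), (9, 1), (10, 1)], [(4, 1), (12, 1), (13, 1), (15, 3)], [(4, 1), (6, 1), (12, 1)],
   [(4, 1), (13, 1), (14, 1)]]

private def L2 : List (List (ℕ × ℕ)) :=
  []

private def t0 : Tri :=
  (.node (.node (.node (.node .nil 68736258049 0 16 .nil) 68736258056 175 16 (.node .nil 68736258112 50 16 .nil)) 68736258560 139 16 (.node (.node .nil 68736286721 4 16 .nil) 68736286728 226 26 (.node .nil 68736287232 97 16 .nil))) 68736516097 8 16 (.node (.node (.node .nil 68736516104 52 16 .nil) 68736516160 51 16 (.node .nil 68736516608 84 16 .nil)) 68738351105 12 16 (.node (.node .nil 68738351616 96 16 .nil) 68853698561 174 16 .nil)))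

private def t1 : Tri :=
  (.node (.node (.node (.node .nil 68853698624 59 16 .nil) 68853727233 201 16 (.node .nil 68853727240 218 26 .nil)) 68853727296 217 16 (.node (.node .nil 68853727744 202 16 .nil) 68853956609 173 8 (.node .nil 68853956616 61 16 .nil))) 68853956672 60 16 (.node (.node (.node .nil 68853957120 172 16 .nil) 68855791617 159 16 (.node .nil 68855791624 163 16 .nil)) 68855791680 166 16 (.node (.node .nil 68855792128 168 16 .nil) 69793222657 88 16 .nil)))

private def t2 : Tri :=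
  (.node t0 68853698568 176 16 t1)

private def t3 : Tri :=
  (.node (.node (.node (.node .nil 69793222720 68 16 .nil) 69793223168 180 16 (.node .nil 69793251329 101 8 .nil)) 69793251336 219 16 (.node (.node .nil 69793251840 209 16 .nil) 69793480705 87 8 (.node .nil 69793480712 70 16 .nil))) 69793480768 69 16 (.node (.node (.node .nil 69793481216 179 16 .nil) 69795315713 135 8 (.node .nil 69795315720 230 26 .nil)) 69795316224 210 16 (.node (.node .nil 77309415425 89 16 .nil) 77309415432 178 16 .nil)))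

private def t4 : Tri :=
  (.node (.node (.node (.node .nil 77309415936 140 16 .nil) 77309444097 100 16 (.node .nil 77309444104 234 26 .nil)) 77309444608 98 16 (.node (.node .nil 77309673473 86 8 .nil) 77309673480 79 16 (.node .nil 77309673536 78 16 .nil))) 77309673984 85 16 (.node (.node (.node .nil 77311508481 99 16 .nil) 77311508488 154 16 (.node .nil 77311508544 157 16 .nil)) 77311508992 95 16 (.node (.node .nil 549772595201 1 16 .nil) 549772595208 16 16 .nil)))

private def t5 : Tri :=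
  (.node t3 77309415488 77 16 t4)

private def t6 : Tri :=
  (.node t2 69793222664 177 16 t5)

private def t7 : Tri :=
  (.node (.node (.node (.node .nil 549772595712 141 16 .nil) 549772623873 5 16 (.node .nil 549772623880 20 16 .nil)) 549772623936 227 16 (.node (.node .nil 549772624384 106 16 .nil) 549772853249 9 16 (.node .nil 549772853256 24 16 .nil))) 549772853312 53 16 (.node (.node (.node .nil 549772853760 102 16 .nil) 549774688257 13 16 (.node .nil 549774688264 28 16 .nil)) 549774688768 105 16 (.node (.node .nil 549890035720 17 16 .nil) 549890035776 57 16 .nil)))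

private def t8 : Tri :=
  (.node (.node (.node (.node .nil 549890064392 21 16 .nil) 549890064448 224 16 (.node .nil 549890064896 204 16 .nil)) 549890293761 195 8 (.node (.node .nil 549890293768 25 16 .nil) 549890293824 62 16 (.node .nil 549892128769 160 16 .nil))) 549892128776 29 16 (.node (.node (.node .nil 549892128832 167 16 .nil) 549892129280 169 16 (.node .nil 550829559816 18 16 .nil)) 550829559872 66 16 (.node (.node .nil 550829588481 111 8 .nil) 550829588488 22 16 .nil)))

private def t9 : Tri :=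
  (.node t7 549890064385 203 16 t8)

private def t10 : Tri :=
  (.node (.node (.node (.node .nil 550829588992 211 16 .nil) 550829817857 132 8 (.node .nil 550829817864 26 16 .nil)) 550829817920 71 16 (.node (.node .nil 550829818368 198 16 .nil) 550831652865 136 8 (.node .nil 550831652872 30 16 .nil))) 550831652928 231 16 (.node (.node (.node .nil 550831653376 212 16 .nil) 558345752577 90 16 (.node .nil 558345752584 19 16 .nil)) 558345752640 75 16 (.node (.node .nil 558345781249 110 16 .nil) 558345781256 23 16 .nil)))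

private def t11 : Tri :=
  (.node (.node (.node (.node .nil 558345781760 107 16 .nil) 558346010625 108 8 (.node .nil 558346010632 27 16 .nil)) 558346010688 80 16 (.node (.node .nil 558346011136 103 16 .nil) 558347845633 109 16 (.node .nil 558347845640 31 16 .nil))) 558347845696 158 16 (.node (.node (.node .nil 558347846144 104 16 .nil) 4398063292417 2 16 (.node .nil 4398063292424 182 16 .nil)) 4398063292480 32 16 (.node (.node .nil 4398063292928 142 16 .nil) 4398063321089 6 16 .nil)))

private def t12 : Tri :=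
  (.node t10 558345781312 235 16 t11)

private def t13 : Tri :=
  (.node t9 550829588544 225 16 t12)

private def t14 : Tri :=
  (.node t6 549772595264 48 16 t13)

private def t15 : Tri :=
  (.node (.node (.node (.node .nil 4398063321152 36 16 .nil) 4398063321600 116 16 (.node .nil 4398063550465 10 16 .nil)) 4398063550472 54 16 (.node (.node .nil 4398063550528 40 16 .nil) 4398063550976 112 16 (.node .nil 4398065385473 14 16 .nil))) 4398065385536 44 16 (.node (.node (.node .nil 4398065385984 115 16 .nil) 4398180732929 181 16 (.node .nil 4398180732936 183 16 .nil)) 4398180732992 33 16 (.node (.node .nil 4398180733440 186 16 .nil) 4398180761601 205 16 .nil)))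

private def t16 : Tri :=
  (.node (.node (.node (.node .nil 4398180761664 37 16 .nil) 4398180762112 206 16 (.node .nil 4398180990977 196 8 .nil)) 4398180990984 63 16 (.node (.node .nil 4398180991040 41 16 .nil) 4398182825985 161 16 (.node .nil 4398182825992 164 16 .nil))) 4398182826048 45 16 (.node (.node (.node .nil 4398182826496 170 16 .nil) 4399120257025 91 16 (.node .nil 4399120257032 184 16 .nil)) 4399120257088 34 16 (.node (.node .nil 4399120257536 187 16 .nil) 4399120285697 121 8 .nil)))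

private def t17 : Tri :=
  (.node t15 4398180761608 220 26 t16)

private def t18 : Tri :=
  (.node (.node (.node (.node .nil 4399120285760 38 16 .nil) 4399120286208 213 16 (.node .nil 4399120515073 133 8 .nil)) 4399120515080 72 16 (.node (.node .nil 4399120515136 42 16 .nil) 4399120515584 199 16 (.node .nil 4399122350081 137 8 .nil))) 4399122350088 232 26 (.node (.node (.node .nil 4399122350144 46 16 .nil) 4399122350592 214 16 (.node .nil 4406636449793 92 16 .nil)) 4406636449800 185 16 (.node (.node .nil 4406636449856 35 16 .nil) 4406636450304 143 16 .nil)))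

private def t19 : Tri :=
  (.node (.node (.node (.node .nil 4406636478472 236 26 .nil) 4406636478528 39 16 (.node .nil 4406636478976 117 16 .nil)) 4406636707841 118 8 (.node (.node .nil 4406636707848 81 16 .nil) 4406636707904 43 16 (.node .nil 4406636708352 113 16 .nil))) 4406638542849 119 16 (.node (.node (.node .nil 4406638542856 155 16 .nil) 4406638542912 47 16 (.node .nil 4406638543360 114 16 .nil)) 35184388870145 3 16 (.node (.node .nil 35184388870152 189 26 .nil) 35184388870208 49 16 .nil)))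

private def t20 : Tri :=
  (.node t18 4406636478465 120 16 t19)

private def t21 : Tri :=
  (.node t17 4399120285704 221 16 t20)

private def t22 : Tri :=
  (.node (.node (.node (.node .nil 35184388898817 7 16 .nil) 35184388898824 229 26 (.node .nil 35184388898880 146 16 .nil)) 35184388899328 126 16 (.node (.node .nil 35184389128193 11 16 .nil) 35184389128200 56 16 (.node .nil 35184389128256 55 16 .nil))) 35184389128704 122 16 (.node (.node (.node .nil 35184390963201 15 16 .nil) 35184390963264 150 16 (.node .nil 35184390963712 125 16 .nil)) 35184506310657 188 26 (.node (.node .nil 35184506310664 190 26 .nil) 35184506310720 58 16 .nil)))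

private def t23 : Tri :=
  (.node (.node (.node (.node .nil 35184506339329 207 16 .nil) 35184506339336 222 26 (.node .nil 35184506339392 147 16 .nil)) 35184506339840 208 16 (.node (.node .nil 35184506568705 197 8 .nil) 35184506568712 65 16 (.node .nil 35184506568768 64 16 .nil))) 35184508403713 162 16 (.node (.node (.node .nil 35184508403720 165 16 .nil) 35184508403776 151 16 (.node .nil 35184508404224 171 16 .nil)) 35185445834753 93 26 (.node (.node .nil 35185445834760 191 26 .nil) 35185445834816 67 16 .nil)))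

private def t24 : Tri :=
  (.node t22 35184506311168 193 26 t23)

private def t25 : Tri :=
  (.node (.node (.node (.node .nil 35185445863425 131 8 .nil) 35185445863432 223 16 (.node .nil 35185445863488 148 16 .nil)) 35185445863936 215 16 (.node (.node .nil 35185446092801 134 8 .nil) 35185446092808 74 16 (.node .nil 35185446092864 73 16 .nil))) 35185446093312 200 16 (.node (.node (.node .nil 35185447927809 138 8 .nil) 35185447927816 233 26 (.node .nil 35185447927872 152 16 .nil)) 35185447928320 216 16 (.node (.node .nil 35192962027521 94 16 .nil) 35192962027528 192 26 .nil)))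

private def t26 : Tri :=
  (.node (.node (.node (.node .nil 35192962028032 145 16 .nil) 35192962056193 130 16 (.node .nil 35192962056200 237 26 .nil)) 35192962056256 149 16 (.node (.node .nil 35192962056704 127 16 .nil) 35192962285569 128 8 .nil)) 35192962285576 83 16 (.node (.node (.node .nil 35192962285632 82 16 .nil) 35192962286080 123 16 (.node .nil 35192964120577 129 16 .nil)) 35192964120584 156 16 (.node (.node .nil 35192964120640 153 16 .nil) 35192964121088 124 16 .nil)))

private def t27 : Tri :=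
  (.node t25 35192962027584 76 16 t26)

private def t28 : Tri :=
  (.node t24 35185445835264 194 26 t27)

private def t29 : Tri :=
  (.node t21 35184388870656 144 26 t28)

private def t30 : Tri :=
  (.node t14 4398063321096 228 26 t29)

private def N : Tri := t30

private def S : List (List (ℕ × ℕ × ℕ)) :=
  [[(5, 4, 12)], [(5, 4, 13)], [(5, 4, 14)], [(5, 4, 15)], [(5, 5, 12)], [(5, 5, 13)], [(5, 5, 14)], [(5, 5, 15)
  ], [(5, 6, 12)], [(5, 6, 13)], [(5, 6, 14)], [(5, 6, 15)], [(5, 7, 12)], [(5, 7, 13)], [(5, 7, 14)], [(5, 7, 15)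
  ], [(7, 4, 8)], [(7, 4, 9)], [(7, 4, 10)], [(7, 4, 11)], [(7, 5, 8)], [(7, 5, 9)], [(7, 5, 10)], [(7, 5, 11)
  ], [(7, 6, 8)], [(7, 6, 9)], [(7, 6, 10)], [(7, 6, 11)], [(7, 7, 8)], [(7, 7, 9)], [(7, 7, 10)], [(7, 7, 11)
  ], [(9, 4, 8)], [(9, 4, 9)], [(9, 4, 10)], [(9, 4, 11)], [(9, 5, 8)], [(9, 5, 9)], [(9, 5, 10)], [(9, 5, 11)
  ], [(9, 6, 8)], [(9, 6, 9)], [(9, 6, 10)], [(9, 6, 11)], [(9, 7, 8)], [(9, 7, 9)], [(9, 7, 10)], [(9, 7, 11)
  ], [(15, 2, 8)], [(8, 4, 8)], [(13, 2, 8)], [(14, 2, 8)], [(3, 8, 12)], [(3, 8, 13)], [(3, 8, 14)], [(8, 6, 8)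
  ], [(3, 8, 15)], [(15, 2, 9)], [(8, 4, 9)], [(13, 2, 9)], [(14, 2, 9)], [(3, 9, 12)], [(3, 9, 13)], [(3, 9, 14)
  ], [(8, 6, 9)], [(3, 9, 15)], [(15, 2, 10)], [(8, 4, 10)], [(13, 2, 10)], [(14, 2, 10)], [(3, 10, 12)], [(3, 10, 13)
  ], [(3, 10, 14)], [(8, 6, 10)], [(3, 10, 15)], [(15, 2, 11)], [(8, 4, 11)], [(13, 2, 11)], [(14, 2, 11)], [(3, 11, 12)
  ], [(3, 11, 13)], [(3, 11, 14)], [(8, 6, 11)], [(3, 11, 15)], [(0, 8, 12)], [(6, 6, 12)], [(0, 11, 12)], [(4, 6, 12)
  ], [(14, 0, 10)], [(4, 4, 12)], [(4, 4, 13)], [(15, 0, 10)], [(4, 4, 14)], [(13, 0, 10)], [(4, 4, 15)], [(10, 3, 12)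
  ], [(6, 7, 12)], [(2, 8, 12)], [(6, 5, 12)], [(10, 0, 12)], [(2, 11, 12)], [(4, 5, 12)], [(0, 8, 13)], [(6, 6, 13)
  ], [(10, 3, 13)], [(6, 7, 13)], [(2, 8, 13)], [(6, 5, 13)], [(0, 11, 13)], [(10, 0, 13)], [(2, 11, 13)], [(4, 5, 13)
  ], [(0, 8, 14)], [(6, 6, 14)], [(10, 3, 14)], [(6, 7, 14)], [(2, 8, 14)], [(6, 5, 14)], [(0, 11, 14)], [(10, 0, 14)
  ], [(2, 11, 14)], [(4, 5, 14)], [(0, 8, 15)], [(6, 6, 15)], [(10, 3, 15)], [(6, 7, 15)], [(2, 8, 15)], [(6, 5, 15)
  ], [(0, 11, 15)], [(10, 0, 15)], [(2, 11, 15)], [(4, 5, 15)], [(4, 6, 13)], [(4, 6, 14)], [(4, 6, 15)], [(4, 7, 12)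
  ], [(4, 7, 13)], [(4, 7, 14)], [(4, 7, 15)], [(14, 3, 8)], [(6, 4, 12)], [(6, 4, 13)], [(15, 3, 8)], [(6, 4, 14)
  ], [(13, 3, 8)], [(6, 4, 15)], [(8, 5, 8)], [(8, 5, 9)], [(8, 5, 10)], [(8, 5, 11)], [(8, 7, 8)], [(8, 7, 9)
  ], [(8, 7, 10)], [(8, 7, 11)], [(10, 1, 12)], [(10, 1, 14)], [(10, 1, 15)], [(10, 2, 12)], [(10, 2, 13)], [(11, 0, 12)
  ], [(11, 0, 13)], [(11, 0, 14)], [(11, 0, 15)], [(11, 1, 12)], [(11, 1, 14)], [(11, 1, 15)], [(11, 2, 12)], [(11, 2, 13)
  ], [(11, 3, 12)], [(11, 3, 13)], [(11, 3, 14)], [(11, 3, 15)], [(14, 3, 9)], [(0, 9, 12)], [(14, 0, 9)], [(14, 1, 8)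
  ], [(14, 1, 9)], [(14, 1, 10)], [(14, 1, 11)], [(0, 10, 12)], [(14, 3, 10)], [(15, 0, 9)], [(15, 1, 8)], [(15, 1, 9)
  ], [(15, 1, 10)], [(15, 1, 11)], [(15, 3, 9)], [(15, 3, 10)], [(13, 0, 9)], [(13, 1, 8)], [(13, 1, 9)], [(13, 1, 10)
  ], [(13, 1, 11)], [(13, 3, 9)], [(13, 3, 10)], [(0, 9, 13)], [(0, 9, 14)], [(0, 9, 15)], [(0, 10, 13)], [(0, 10, 14)
  ], [(0, 10, 15)], [(12, 0, 12)], [(2, 9, 12)], [(12, 0, 13)], [(2, 9, 13)], [(12, 0, 14)], [(2, 9, 14)], [(12, 0, 15)
  ], [(2, 9, 15)], [(12, 3, 12)], [(2, 10, 12)], [(12, 3, 13)], [(2, 10, 13)], [(12, 3, 14)], [(2, 10, 14)], [(12, 3, 15)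
  ], [(2, 10, 15)], [(12, 2, 12)], [(1, 9, 12)], [(12, 1, 12)], [(1, 9, 14)], [(12, 1, 14)], [(1, 9, 15)], [(12, 1, 15)
  ], [(1, 9, 13)], [(12, 2, 13)], [(1, 8, 12)], [(1, 8, 13)], [(1, 8, 14)], [(1, 8, 15)], [(1, 10, 12)], [(1, 10, 13)
  ], [(1, 10, 14)], [(1, 10, 15)], [(1, 11, 12)], [(1, 11, 13)], [(1, 11, 14)], [(1, 11, 15)]]

private theorem h0 : chk 13 5 8 31 N (okM 16 4) (rwS L1 L2) S = true := by decide +kernel

theorem ok : (sm false 16 1 1 ∅ ∅).OK :=
  ok_of_chk _ 16 4 rfl rfl P1 P2 T F L1 L2 (r := 238) N S (by decide +kernel) (by decide +kernel)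
    (by decide +kernel) (by decide +kernel) (by decide +kernel) h0 (by decide +kernel)
    (by decide +kernel) (by decide +kernel) (by decide +kernel) (by decide +kernel)

end Pool.Agent.KZ.AL.Ck.T433_1120_0
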