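import Pool.Agent.KZ.AL.OkC

/-! # KZ4, ALPHA: finite check T433_1120_A (generated) -/

set_option autoImplicit false
set_option maxRecDepth 100000

namespace Pool.Agent.KZ.AL.Ck.T433_1120_A

open Pool.Agent.KZ (Tri chk rwS)
open Finset (range)

/-- The positions of the T-points. -/
private def P1 : List ((ℕ × ℕ × ℕ) × List (ℕ × ℤ)) :=
  [((0, 1, 0), [(1, 1), (4, 1), (6, 1)]), ((0, 1, 1), [(0, 1), (2, 1), (4, 1)]),
   ((0, 1, 2), [(1, 1), (4, 1), (7, 4)]), ((0, 1, 3), [(0, 1), (2, 1), (6, 1), (7, 1)]),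
   ((0, 2, 0), [(0, 1), (3, 1), (8, 1), (11, 1)]), ((0, 2, 1), [(0, 1), (1, 3), (8, 3), (9, 1), (11, 1)]),
   ((0, 2, 2), [(2, 1), (8, 1)]), ((0, 3, 0), [(0, -1), (3, -1), (13, 1)]),
   ((0, 3, 1), [(3, 1), (14, 1)]), ((0, 3, 2), [(3, 1), (12, 4), (14, 2), (15, 1)]),
   ((1, 2, 0), [(6, 1), (10, 1)]), ((1, 2, 1), [(7, 1), (8, 1), (10, 4)]),
   ((1, 2, 2), [(7, 1), (9, 1), (10, 2)]), ((1, 3, 0), [(5, 1), (12, 1)]),
   ((1, 3, 1), [(4, 1), (5, 1), (13, 1), (15, 1)]), ((1, 3, 2), [(5, 1), (6, 2), (13, 1), (14, 1)])]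

/-- The positions of the free items. -/
private def P2 : List ((ℕ × ℕ × ℕ) × List (ℕ × ℤ)) :=
  []

private def T : List (ℕ × ℕ × ℕ) :=
  [(0, 1, 0), (0, 1, 1), (0, 1, 2), (0, 1, 3), (0, 2, 0), (0, 2, 1), (0, 2, 2), (0, 3, 0),
   (0, 3, 1), (0, 3, 2), (1, 2, 0), (1, 2, 1), (1, 2, 2), (1, 3, 0), (1, 3, 1), (1, 3, 2)]

private def F : List (ℕ × ℕ × ℕ) :=
  []

private def L1 : List (List (ℕ × ℕ)) :=
  [[(1, 1), (4, 1), (6, 1)], [(0, 1), (2, 1), (4, 1)], [(1, 1), (4, 1), (7, 4)],
   [(0, 1), (2, 1), (6, 1), (7, 1)], [(0, 1), (3, 1), (8, 1), (11, 1)], [(0, 1), (1, 3), (8, 3), (9, 1), (11, 1)],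
   [(2, 1), (8, 1)], [(0, 30), (3, 30), (13, 1)], [(3, 1), (14, 1)],
   [(3, 1), (12, 4), (14, 2), (15, 1)], [(6, 1), (10, 1)], [(7, 1), (8, 1), (10, 4)],
   [(7, 1), (9, 1), (10, 2)], [(5, 1), (12, 1)], [(4, 1), (5, 1), (13, 1), (15, 1)],
   [(5, 1), (6, 2), (13, 1), (14, 1)]]

private def L2 : List (List (ℕ × ℕ)) :=
  []

private def t0 : Tri :=
  (.node (.node (.node (.node .nil 68736258049 128 16 .nil) 68736258056 65 16 (.node .nil 68736258112 0 16 .nil)) 68736258560 138 4 (.node (.node .nil 68736286721 47 16 .nil) 68736286728 51 16 (.node .nil 68736286784 4 16 .nil))) 68736287232 58 16 (.node (.node (.node .nil 68736516097 202 16 .nil) 68736516104 66 16 (.node .nil 68736516160 8 16 .nil)) 68736516608 199 4 (.node (.node .nil 68738351105 96 16 .nil) 68738351112 64 16 .nil)))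

private def t1 : Tri :=
  (.node (.node (.node (.node .nil 68738351616 99 4 .nil) 68853698561 152 16 (.node .nil 68853698568 83 16 .nil)) 68853698624 153 16 (.node (.node .nil 68853699072 193 4 .nil) 68853727233 48 16 (.node .nil 68853727240 52 16 .nil))) 68853727296 55 16 (.node (.node (.node .nil 68853727744 59 16 .nil) 68853956609 204 16 (.node .nil 68853956616 84 16 .nil)) 68853956672 205 16 (.node (.node .nil 68853957120 200 4 .nil) 68855791617 97 16 .nil)))

private def t2 : Tri :=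
  (.node t0 68738351168 12 16 t1)

private def t3 : Tri :=
  (.node (.node (.node (.node .nil 68855791680 185 16 .nil) 68855792128 189 16 (.node .nil 69793222657 161 16 .nil)) 69793222664 62 16 (.node (.node .nil 69793223168 196 4 .nil) 69793251329 49 16 (.node .nil 69793251336 53 16 .nil))) 69793251392 56 16 (.node (.node (.node .nil 69793251840 60 16 .nil) 69793480705 32 16 (.node .nil 69793480712 36 16 .nil)) 69793480768 40 16 (.node (.node .nil 69793481216 44 16 .nil) 69795315713 95 16 .nil)))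

private def t4 : Tri :=
  (.node (.node (.node (.node .nil 69795315776 94 4 .nil) 69795316224 184 4 (.node .nil 77309415425 151 16 .nil)) 77309415432 110 16 (.node (.node .nil 77309415488 165 16 .nil) 77309415936 150 4 .nil)) 77309444097 50 16 (.node (.node (.node .nil 77309444104 54 16 .nil) 77309444160 57 16 (.node .nil 77309444608 61 16 .nil)) 77309673473 203 16 (.node (.node .nil 77309673480 111 16 .nil) 77309673536 216 16 .nil)))

private def t5 : Tri :=
  (.node t3 69795315720 63 4 t4)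

private def t6 : Tri :=
  (.node t2 68855791624 82 16 t5)

private def t7 : Tri :=
  (.node (.node (.node (.node .nil 77311508481 108 16 .nil) 77311508488 109 26 (.node .nil 77311508992 107 4 .nil)) 549772595201 129 16 (.node (.node .nil 549772595208 70 16 .nil) 549772595264 1 16 (.node .nil 549772595712 132 15 .nil))) 549772623873 139 15 (.node (.node (.node .nil 549772623880 207 19 .nil) 549772623936 5 16 (.node .nil 549772624384 135 16 .nil)) 549772853249 133 16 (.node (.node .nil 549772853256 71 16 .nil) 549772853312 9 16 .nil)))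

private def t8 : Tri :=
  (.node (.node (.node (.node .nil 549774688257 114 16 .nil) 549774688264 69 16 (.node .nil 549774688320 13 16 .nil)) 549774688768 180 15 (.node (.node .nil 549890035713 154 16 .nil) 549890035720 86 16 (.node .nil 549890035776 155 16 .nil))) 549890036224 169 15 (.node (.node (.node .nil 549890064385 175 15 .nil) 549890064896 174 16 (.node .nil 549890293761 172 16 .nil)) 549890293768 87 16 (.node (.node .nil 549890293824 206 16 .nil) 549890294272 173 15 .nil)))

private def t9 : Tri :=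
  (.node t7 549772853760 134 15 t8)

private def t10 : Tri :=
  (.node (.node (.node (.node .nil 549892128776 85 16 .nil) 549892128832 186 16 (.node .nil 549892129280 181 15 .nil)) 550829559816 67 16 (.node (.node .nil 550829559872 162 16 .nil) 550829560320 170 15 (.node .nil 550829588481 177 15 .nil))) 550829588992 176 16 (.node (.node (.node .nil 550829817857 33 16 .nil) 550829817864 37 16 (.node .nil 550829817920 41 16 .nil)) 550829818368 45 16 (.node (.node .nil 550831652865 113 16 .nil) 550831652872 68 4 .nil)))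

private def t11 : Tri :=
  (.node (.node (.node (.node .nil 550831653376 182 15 .nil) 558345752584 117 16 (.node .nil 558345752640 166 16 .nil)) 558345753088 171 15 (.node (.node .nil 558345781249 144 16 .nil) 558345781760 178 15 .nil)) 558346010632 118 16 (.node (.node (.node .nil 558346011136 179 15 .nil) 558347845640 116 26 (.node .nil 558347845696 217 16 .nil)) 558347846144 183 15 (.node (.node .nil 4398063292417 130 16 .nil) 4398063292424 75 16 .nil)))

private def t12 : Tri :=
  (.node t10 550831652928 112 4 t11)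

private def t13 : Tri :=
  (.node t9 549892128769 115 16 t12)

private def t14 : Tri :=
  (.node t6 77309673984 201 4 t13)

private def t15 : Tri :=
  (.node (.node (.node (.node .nil 4398063292928 16 16 .nil) 4398063321089 141 16 (.node .nil 4398063321096 208 16 .nil)) 4398063321152 6 16 (.node (.node .nil 4398063321600 20 16 .nil) 4398063550465 140 16 (.node .nil 4398063550472 76 16 .nil))) 4398063550528 10 16 (.node (.node (.node .nil 4398063550976 24 16 .nil) 4398065385473 121 16 (.node .nil 4398065385480 74 16 .nil)) 4398065385536 14 16 (.node (.node .nil 4398065385984 28 16 .nil) 4398180732929 157 16 .nil)))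

private def t16 : Tri :=
  (.node (.node (.node (.node .nil 4398180732992 158 16 .nil) 4398180733440 17 16 (.node .nil 4398180761601 211 16 .nil)) 4398180761608 209 16 (.node (.node .nil 4398180761664 231 16 .nil) 4398180762112 21 16 (.node .nil 4398180990977 212 8 .nil))) 4398180990984 90 16 (.node (.node (.node .nil 4398180991040 213 16 .nil) 4398180991488 25 16 (.node .nil 4398182825985 122 16 .nil)) 4398182825992 88 16 (.node (.node .nil 4398182826048 187 16 .nil) 4398182826496 29 16 .nil)))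

private def t17 : Tri :=
  (.node t15 4398180732936 89 16 t16)

private def t18 : Tri :=
  (.node (.node (.node (.node .nil 4399120257032 72 16 .nil) 4399120257536 18 16 (.node .nil 4399120285697 229 16 .nil)) 4399120285704 230 16 (.node (.node .nil 4399120285760 232 16 .nil) 4399120286208 22 16 (.node .nil 4399120515073 34 16 .nil))) 4399120515080 38 16 (.node (.node (.node .nil 4399120515136 42 16 .nil) 4399120515584 26 16 (.node .nil 4399122350081 120 16 .nil)) 4399122350088 73 4 (.node (.node .nil 4399122350144 119 4 .nil) 4399122350592 30 16 .nil)))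

private def t19 : Tri :=
  (.node (.node (.node (.node .nil 4406636449800 125 16 .nil) 4406636449856 167 16 (.node .nil 4406636450304 19 16 .nil)) 4406636478465 142 16 (.node (.node .nil 4406636478472 210 16 .nil) 4406636478528 233 16 .nil)) 4406636478976 23 16 (.node (.node (.node .nil 4406636707841 143 16 .nil) 4406636707848 126 16 (.node .nil 4406636708352 27 16 .nil)) 4406638542849 123 16 (.node (.node .nil 4406638542856 124 26 .nil) 4406638542912 218 16 .nil)))

private def t20 : Tri :=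
  (.node t18 4406636449793 156 16 t19)

private def t21 : Tri :=
  (.node t17 4399120257025 163 16 t20)

private def t22 : Tri :=
  (.node (.node (.node (.node .nil 35184388870145 131 16 .nil) 35184388870152 80 16 (.node .nil 35184388870208 3 16 .nil)) 35184388870656 137 16 (.node (.node .nil 35184388898817 145 16 .nil) 35184388898824 222 16 (.node .nil 35184388898880 7 16 .nil))) 35184388899328 136 16 (.node (.node (.node .nil 35184389128193 197 16 .nil) 35184389128200 81 16 (.node .nil 35184389128256 11 16 .nil)) 35184389128704 198 16 (.node (.node .nil 35184390963201 102 16 .nil) 35184390963208 79 16 .nil)))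

private def t23 : Tri :=
  (.node (.node (.node (.node .nil 35184390963712 98 16 .nil) 35184506310657 159 16 (.node .nil 35184506310664 92 16 .nil)) 35184506310720 160 16 (.node (.node .nil 35184506311168 192 16 .nil) 35184506339329 220 16 .nil)) 35184506339336 223 16 (.node (.node (.node .nil 35184506339392 226 16 .nil) 35184506339840 191 16 (.node .nil 35184506568705 214 16 .nil)) 35184506568712 93 16 (.node (.node .nil 35184506568768 215 16 .nil) 35184508403713 103 16 .nil)))

private def t24 : Tri :=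
  (.node t22 35184390963264 15 16 t23)

private def t25 : Tri :=
  (.node (.node (.node (.node .nil 35184508403776 188 16 .nil) 35184508404224 190 16 (.node .nil 35185445834753 164 16 .nil)) 35185445834760 77 16 (.node (.node .nil 35185445835264 195 16 .nil) 35185445863425 221 16 (.node .nil 35185445863432 224 16 .nil))) 35185445863488 227 16 (.node (.node (.node .nil 35185445863936 194 16 .nil) 35185446092801 35 16 (.node .nil 35185446092808 39 16 .nil)) 35185446092864 43 16 (.node (.node .nil 35185446093312 46 16 .nil) 35185447927809 101 16 .nil)))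

private def t26 : Tri :=
  (.node (.node (.node (.node .nil 35185447927872 100 4 .nil) 35192962027521 148 16 (.node .nil 35192962027584 168 16 .nil)) 35192962028032 149 16 (.node (.node .nil 35192962056193 147 16 .nil) 35192962056200 225 16 .nil)) 35192962056256 228 16 (.node (.node (.node .nil 35192962056704 146 16 .nil) 35192962285576 127 16 (.node .nil 35192962285632 219 16 .nil)) 35192964120577 105 16 (.node (.node .nil 35192964120584 104 4 .nil) 35192964121088 106 16 .nil)))

private def t27 : Tri :=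
  (.node t25 35185447927816 78 4 t26)

private def t28 : Tri :=
  (.node t24 35184508403720 91 16 t27)

private def t29 : Tri :=
  (.node t21 4406638543360 31 16 t28)

private def t30 : Tri :=
  (.node t14 4398063292480 2 16 t29)

private def N : Tri := t30

private def S : List (List (ℕ × ℕ × ℕ)) :=
  [[(6, 4, 12)], [(6, 4, 13)], [(6, 4, 14)], [(6, 4, 15)], [(6, 5, 12)], [(6, 5, 13)], [(6, 5, 14)], [(6, 5, 15)
  ], [(6, 6, 12)], [(6, 6, 13)], [(6, 6, 14)], [(6, 6, 15)], [(6, 7, 12)], [(6, 7, 13)], [(6, 7, 14)], [(6, 7, 15)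
  ], [(8, 4, 8)], [(8, 4, 9)], [(8, 4, 10)], [(8, 4, 11)], [(8, 5, 8)], [(8, 5, 9)], [(8, 5, 10)], [(8, 5, 11)
  ], [(8, 6, 8)], [(8, 6, 9)], [(8, 6, 10)], [(8, 6, 11)], [(8, 7, 8)], [(8, 7, 9)], [(8, 7, 10)], [(8, 7, 11)
  ], [(10, 0, 12)], [(10, 0, 13)], [(10, 0, 14)], [(10, 0, 15)], [(10, 1, 12)], [(10, 1, 13)], [(10, 1, 14)], [(10, 1, 15)
  ], [(10, 2, 12)], [(10, 2, 13)], [(10, 2, 14)], [(10, 2, 15)], [(10, 3, 12)], [(10, 3, 13)], [(10, 3, 15)], [(13, 0, 8)
  ], [(13, 0, 9)], [(13, 0, 10)], [(13, 0, 11)], [(13, 1, 8)], [(13, 1, 9)], [(13, 1, 10)], [(13, 1, 11)], [(13, 2, 9)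
  ], [(13, 2, 10)], [(13, 2, 11)], [(13, 3, 8)], [(13, 3, 9)], [(13, 3, 10)], [(13, 3, 11)], [(0, 10, 12)], [(2, 10, 12)
  ], [(11, 1, 12)], [(2, 8, 12)], [(0, 8, 12)], [(0, 10, 13)], [(2, 10, 13)], [(11, 1, 13)], [(2, 8, 13)], [(0, 8, 13)
  ], [(0, 10, 14)], [(2, 10, 14)], [(11, 1, 14)], [(2, 8, 14)], [(0, 8, 14)], [(0, 10, 15)], [(2, 10, 15)], [(11, 1, 15)
  ], [(2, 8, 15)], [(0, 8, 15)], [(12, 1, 12)], [(2, 9, 12)], [(0, 9, 12)], [(12, 1, 13)], [(2, 9, 13)], [(0, 9, 13)
  ], [(12, 1, 14)], [(2, 9, 14)], [(0, 9, 14)], [(12, 1, 15)], [(2, 9, 15)], [(0, 9, 15)], [(11, 2, 12)], [(3, 10, 12)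
  ], [(11, 0, 12)], [(12, 0, 12)], [(11, 3, 15)], [(9, 7, 8)], [(11, 2, 15)], [(3, 10, 15)], [(11, 0, 15)], [(12, 0, 15)
  ], [(2, 11, 15)], [(5, 7, 15)], [(4, 7, 15)], [(9, 7, 11)], [(4, 7, 12)], [(5, 7, 12)], [(2, 11, 12)], [(0, 11, 12)
  ], [(11, 2, 13)], [(3, 10, 13)], [(11, 0, 13)], [(12, 0, 13)], [(5, 7, 13)], [(2, 11, 13)], [(0, 11, 13)], [(11, 2, 14)
  ], [(3, 10, 14)], [(11, 0, 14)], [(12, 0, 14)], [(4, 7, 14)], [(5, 7, 14)], [(2, 11, 14)], [(0, 11, 14)], [(0, 11, 15)
  ], [(1, 8, 12)], [(1, 8, 13)], [(1, 8, 14)], [(1, 8, 15)], [(7, 4, 8)], [(3, 8, 13)], [(7, 6, 8)], [(15, 3, 8)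
  ], [(9, 5, 8)], [(14, 3, 8)], [(9, 4, 8)], [(7, 5, 8)], [(3, 8, 14)], [(15, 0, 8)], [(4, 5, 14)], [(4, 6, 14)
  ], [(15, 0, 11)], [(14, 0, 8)], [(9, 5, 11)], [(4, 5, 15)], [(14, 0, 11)], [(4, 4, 15)], [(9, 4, 11)], [(4, 4, 12)
  ], [(5, 4, 12)], [(1, 9, 12)], [(5, 4, 13)], [(1, 9, 13)], [(4, 4, 14)], [(5, 4, 14)], [(1, 9, 14)], [(5, 4, 15)
  ], [(1, 9, 15)], [(1, 10, 12)], [(1, 10, 13)], [(1, 10, 14)], [(1, 10, 15)], [(1, 11, 12)], [(1, 11, 13)], [(1, 11, 14)
  ], [(1, 11, 15)], [(7, 4, 9)], [(7, 4, 10)], [(7, 4, 11)], [(5, 6, 13)], [(7, 6, 9)], [(15, 3, 9)], [(7, 5, 9)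
  ], [(15, 3, 10)], [(7, 5, 10)], [(7, 5, 11)], [(7, 6, 11)], [(7, 7, 8)], [(7, 7, 9)], [(7, 7, 10)], [(7, 7, 11)
  ], [(11, 3, 12)], [(12, 2, 12)], [(12, 2, 13)], [(12, 2, 14)], [(12, 2, 15)], [(12, 3, 12)], [(12, 3, 15)], [(9, 5, 9)
  ], [(14, 3, 9)], [(9, 4, 9)], [(9, 5, 10)], [(14, 3, 10)], [(9, 4, 10)], [(3, 8, 15)], [(4, 6, 15)], [(9, 6, 8)
  ], [(9, 6, 9)], [(9, 6, 11)], [(3, 8, 12)], [(4, 6, 12)], [(5, 6, 12)], [(3, 9, 12)], [(3, 9, 13)], [(5, 5, 13)
  ], [(15, 1, 8)], [(15, 1, 9)], [(15, 1, 11)], [(5, 5, 14)], [(15, 0, 9)], [(3, 9, 14)], [(5, 6, 15)], [(3, 9, 15)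
  ], [(3, 11, 12)], [(3, 11, 13)], [(3, 11, 14)], [(3, 11, 15)], [(14, 0, 9)], [(14, 0, 10)], [(14, 1, 8)], [(14, 1, 9)
  ], [(14, 1, 10)], [(14, 1, 11)], [(14, 2, 9)], [(14, 2, 10)], [(14, 2, 11)], [(15, 0, 10)], [(15, 1, 10)], [(15, 2, 9)
  ], [(15, 2, 10)], [(15, 2, 11)]]

private theorem h0 : chk 18 5 13 31 N (okM 16 4) (rwS L1 L2) S = true := by decide +kernel

theorem ok : (sm false 16 1 1 {(0, {2, 3}, 0)} ∅).OK :=
  ok_of_chk _ 16 4 rfl rfl P1 P2 T F L1 L2 (r := 234) N S (by decide +kernel) (by decide +kernel)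
    (by decide +kernel) (by decide +kernel) (by decide +kernel) h0 (by decide +kernel)
    (by decide +kernel) (by decide +kernel) (by decide +kernel) (by decide +kernel)

end Pool.Agent.KZ.AL.Ck.T433_1120_A
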