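import Pool.Agent.KZ.AL.OkC

/-! # KZ4, ALPHA: finite check T433_1120_AB (generated) -/

set_option autoImplicit false
set_option maxRecDepth 100000

namespace Pool.Agent.KZ.AL.Ck.T433_1120_AB

open Pool.Agent.KZ (Tri chk rwS)
open Finset (range)

/-- The positions of the T-points. -/
private def P1 : List ((ℕ × ℕ × ℕ) × List (ℕ × ℤ)) :=
  [((0, 1, 0), [(1, 1), (3, 1), (4, 1), (6, 1)]), ((0, 1, 1), [(0, 1), (3, 1), (5, 1), (7, 1)]),
   ((0, 1, 2), [(2, 1), (3, 1), (4, 1), (5, 1), (6, 1)]), ((0, 1, 3), [(0, 1), (2, 1), (3, 1), (4, 1), (6, 1)]),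
   ((0, 2, 0), [(2, 1), (8, 1)]), ((0, 2, 1), [(0, 1), (11, 1)]),
   ((0, 2, 2), [(0, 1), (10, 2), (11, 1)]), ((0, 3, 0), [(2, -1), (12, 1), (15, 1)]),
   ((0, 3, 1), [(1, 1), (13, 1)]), ((0, 3, 2), [(1, 1), (12, 3), (13, 3), (14, 1), (15, 1)]),
   ((1, 2, 0), [(6, 1), (7, 1), (9, 1), (11, 1)]), ((1, 2, 1), [(5, 1), (9, 1)]),
   ((1, 2, 2), [(7, 1), (8, 1), (11, 1)]), ((1, 3, 0), [(6, -1), (7, -1), (14, 1)]),
   ((1, 3, 1), [(4, 1), (15, 1)]), ((1, 3, 2), [(6, 1), (12, 1), (13, 1), (14, 2)])]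

/-- The positions of the free items. -/
private def P2 : List ((ℕ × ℕ × ℕ) × List (ℕ × ℤ)) :=
  []

private def T : List (ℕ × ℕ × ℕ) :=
  [(0, 1, 0), (0, 1, 1), (0, 1, 2), (0, 1, 3), (0, 2, 0), (0, 2, 1), (0, 2, 2), (0, 3, 0),
   (0, 3, 1), (0, 3, 2), (1, 2, 0), (1, 2, 1), (1, 2, 2), (1, 3, 0), (1, 3, 1), (1, 3, 2)]

private def F : List (ℕ × ℕ × ℕ) :=
  []

private def L1 : List (List (ℕ × ℕ)) :=
  [[(1, 1), (3, 1), (4, 1), (6, 1)], [(0, 1), (3, 1), (5, 1), (7, 1)], [(2, 1), (3, 1), (4, 1), (5, 1), (6, 1)],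
   [(0, 1), (2, 1), (3, 1), (4, 1), (6, 1)], [(2, 1), (8, 1)], [(0, 1), (11, 1)],
   [(0, 1), (10, 2), (11, 1)], [(2, 30), (12, 1), (15, 1)], [(1, 1), (13, 1)],
   [(1, 1), (12, 3), (13, 3), (14, 1), (15, 1)], [(6, 1), (7, 1), (9, 1), (11, 1)], [(5, 1), (9, 1)],
   [(7, 1), (8, 1), (11, 1)], [(6, 30), (7, 30), (14, 1)], [(4, 1), (15, 1)],
   [(6, 1), (12, 1), (13, 1), (14, 2)]]

private def L2 : List (List (ℕ × ℕ)) :=
  []

private def t0 : Tri :=
  (.node (.node (.node (.node .nil 68736258049 223 16 .nil) 68736258056 172 26 (.node .nil 68736258112 0 16 .nil)) 68736258560 173 16 (.node (.node .nil 68736286721 192 16 .nil) 68736286728 206 26 (.node .nil 68736286784 4 16 .nil))) 68736287232 191 16 (.node (.node (.node .nil 68736516097 164 16 .nil) 68736516104 165 16 (.node .nil 68736516160 8 16 .nil)) 68736516608 169 16 (.node (.node .nil 68738351105 124 16 .nil) 68738351112 131 26 .nil)))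

private def t1 : Tri :=
  (.node (.node (.node (.node .nil 68738351616 139 16 .nil) 68853698561 227 16 (.node .nil 68853698568 178 16 .nil)) 68853698624 92 15 (.node (.node .nil 68853699072 177 16 .nil) 68853727233 48 16 .nil)) 68853727240 52 16 (.node (.node (.node .nil 68853727296 55 16 .nil) 68853727744 59 16 (.node .nil 68853956609 143 16 .nil)) 68853956616 101 16 (.node (.node .nil 68853956672 116 15 .nil) 68853957120 140 16 .nil)))

private def t2 : Tri :=
  (.node t0 68738351168 12 16 t1)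

private def t3 : Tri :=
  (.node (.node (.node (.node .nil 68855791624 209 16 .nil) 68855791680 120 16 (.node .nil 68855792128 141 16 .nil)) 69793222657 77 8 (.node (.node .nil 69793222664 183 16 .nil) 69793222720 93 15 (.node .nil 69793223168 182 16 .nil))) 69793251329 80 8 (.node (.node (.node .nil 69793251336 207 26 .nil) 69793251392 100 15 (.node .nil 69793251840 199 16 .nil)) 69793480705 84 8 (.node (.node .nil 69793480712 95 16 .nil) 69793480768 117 15 .nil)))

private def t4 : Tri :=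
  (.node (.node (.node (.node .nil 69795315713 88 8 .nil) 69795315720 211 26 (.node .nil 69795315776 122 15 .nil)) 69795316224 200 16 (.node (.node .nil 77309415425 16 16 .nil) 77309415432 187 16 .nil)) 77309415488 94 15 (.node (.node (.node .nil 77309415936 136 16 .nil) 77309444097 20 16 (.node .nil 77309444104 208 26 .nil)) 77309444160 115 15 (.node (.node .nil 77309444608 137 16 .nil) 77309673473 24 16 .nil)))

private def t5 : Tri :=
  (.node t3 69793481216 170 16 t4)

private def t6 : Tri :=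
  (.node t2 68855791617 142 16 t5)

private def t7 : Tri :=
  (.node (.node (.node (.node .nil 77309673536 118 15 .nil) 77309673984 135 16 (.node .nil 77311508481 28 16 .nil)) 77311508488 132 16 (.node (.node .nil 77311508544 119 16 .nil) 77311508992 138 16 (.node .nil 549772595201 224 16 .nil))) 549772595208 32 16 (.node (.node (.node .nil 549772595264 1 16 .nil) 549772595712 174 16 (.node .nil 549772623873 194 16 .nil)) 549772623880 36 16 (.node (.node .nil 549772623936 5 16 .nil) 549772624384 193 16 .nil)))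

private def t8 : Tri :=
  (.node (.node (.node (.node .nil 549772853312 9 16 .nil) 549774688257 125 16 (.node .nil 549774688264 44 16 .nil)) 549774688320 13 16 (.node (.node .nil 549774688768 151 16 .nil) 549890035713 228 16 .nil)) 549890035720 33 16 (.node (.node (.node .nil 549890035776 213 16 .nil) 549890036224 179 16 (.node .nil 549890064385 49 16 .nil)) 549890064392 37 16 (.node (.node .nil 549890064448 56 16 .nil) 549890064896 60 16 .nil)))

private def t9 : Tri :=
  (.node t7 549772853256 40 16 t8)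

private def t10 : Tri :=
  (.node (.node (.node (.node .nil 549890293768 41 16 .nil) 549890293824 166 16 (.node .nil 549892128769 148 16 .nil)) 549892128776 45 16 (.node (.node .nil 549892128832 212 16 .nil) 549892129280 149 16 (.node .nil 550829559809 78 8 .nil))) 550829559816 34 16 (.node (.node (.node .nil 550829559872 215 16 .nil) 550829560320 184 16 (.node .nil 550829588481 81 8 .nil)) 550829588488 38 16 (.node (.node .nil 550829588544 216 16 .nil) 550829817857 85 8 .nil)))

private def t11 : Tri :=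
  (.node (.node (.node (.node .nil 550829817920 167 16 .nil) 550831652865 89 8 (.node .nil 550831652872 46 16 .nil)) 550831653376 201 16 (.node (.node .nil 558345752577 17 16 .nil) 558345752584 35 16 .nil)) 558345752640 219 16 (.node (.node (.node .nil 558345753088 188 16 .nil) 558345781249 21 16 (.node .nil 558345781256 39 16 .nil)) 558345781312 220 16 (.node (.node .nil 558345781760 204 16 .nil) 558346010625 25 16 .nil)))

private def t12 : Tri :=
  (.node t10 550829817864 42 16 t11)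

private def t13 : Tri :=
  (.node t9 549890293761 147 16 t12)

private def t14 : Tri :=
  (.node t6 77309673480 108 16 t13)

private def t15 : Tri :=
  (.node (.node (.node (.node .nil 558346010688 168 16 .nil) 558347845633 29 16 (.node .nil 558347845640 47 16 .nil)) 558347845696 133 16 (.node (.node .nil 558347846144 150 16 .nil) 4398063292417 225 16 (.node .nil 4398063292424 171 16 .nil))) 4398063292480 2 16 (.node (.node (.node .nil 4398063321089 196 16 .nil) 4398063321152 6 16 (.node .nil 4398063321600 195 16 .nil)) 4398063550465 155 15 (.node (.node .nil 4398063550472 156 15 .nil) 4398063550528 10 16 .nil)))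

private def t16 : Tri :=
  (.node (.node (.node (.node .nil 4398065385473 126 16 .nil) 4398065385480 129 16 (.node .nil 4398065385536 14 16 .nil)) 4398065385984 153 16 (.node (.node .nil 4398180732929 229 16 .nil) 4398180732936 180 16 .nil)) 4398180732992 214 16 (.node (.node (.node .nil 4398180733440 181 16 .nil) 4398180761601 50 16 (.node .nil 4398180761608 53 16 .nil)) 4398180761664 57 16 (.node (.node .nil 4398180762112 61 16 .nil) 4398180990977 146 15 .nil)))

private def t17 : Tri :=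
  (.node t15 4398063550976 162 15 t16)

private def t18 : Tri :=
  (.node (.node (.node (.node .nil 4398182825992 157 15 .nil) 4398182826048 159 15 (.node .nil 4398182826496 144 15 .nil)) 4399120257025 79 8 (.node (.node .nil 4399120257032 185 16 .nil) 4399120257088 217 16 (.node .nil 4399120257536 186 16 .nil))) 4399120285697 82 8 (.node (.node (.node .nil 4399120285760 218 16 .nil) 4399120286208 202 16 (.node .nil 4399120515073 86 8 .nil)) 4399122350081 90 8 (.node (.node .nil 4399122350088 158 15 .nil) 4399122350144 160 15 .nil)))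

private def t19 : Tri :=
  (.node (.node (.node (.node .nil 4406636449793 18 16 .nil) 4406636449800 189 16 (.node .nil 4406636449856 221 16 .nil)) 4406636450304 190 16 (.node (.node .nil 4406636478465 22 16 .nil) 4406636478528 222 16 .nil)) 4406636478976 205 16 (.node (.node (.node .nil 4406636707841 26 16 .nil) 4406636707904 161 15 (.node .nil 4406638542849 30 16 .nil)) 4406638542856 128 15 (.node (.node .nil 4406638542912 134 16 .nil) 4406638543360 152 15 .nil)))

private def t20 : Tri :=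
  (.node t18 4399122350592 163 15 t19)

private def t21 : Tri :=
  (.node t17 4398182825985 145 16 t20)

private def t22 : Tri :=
  (.node (.node (.node (.node .nil 35184388870152 66 16 .nil) 35184388870208 3 16 (.node .nil 35184388870656 73 16 .nil)) 35184388898817 198 16 (.node (.node .nil 35184388898880 7 16 .nil) 35184388899328 197 16 (.node .nil 35184389128193 226 16 .nil))) 35184389128200 175 16 (.node (.node (.node .nil 35184389128256 11 16 .nil) 35184389128704 176 16 (.node .nil 35184390963201 127 16 .nil)) 35184390963208 130 16 (.node (.node .nil 35184390963264 15 16 .nil) 35184390963712 154 16 .nil)))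

private def t23 : Tri :=
  (.node (.node (.node (.node .nil 35184506310664 67 16 .nil) 35184506310720 70 16 (.node .nil 35184506311168 74 16 .nil)) 35184506339329 51 16 (.node (.node .nil 35184506339336 54 16 .nil) 35184506339392 58 16 .nil)) 35184506339840 62 16 (.node (.node (.node .nil 35184506568705 105 16 .nil) 35184506568712 102 16 (.node .nil 35184506568768 104 16 .nil)) 35184506569216 103 16 (.node (.node .nil 35184508403713 106 16 .nil) 35184508403720 210 16 .nil)))

private def t24 : Tri :=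
  (.node t22 35184506310657 64 16 t23)

private def t25 : Tri :=
  (.node (.node (.node (.node .nil 35184508404224 107 16 .nil) 35185445834753 65 16 (.node .nil 35185445834760 68 16 .nil)) 35185445834816 71 16 (.node (.node .nil 35185445835264 75 16 .nil) 35185445863425 83 8 .nil)) 35185445863488 99 16 (.node (.node (.node .nil 35185446092801 87 8 .nil) 35185446092808 96 16 (.node .nil 35185446092864 98 16 .nil)) 35185446093312 97 16 (.node (.node .nil 35185447927809 91 8 .nil) 35185447928320 203 16 .nil)))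

private def t26 : Tri :=
  (.node (.node (.node (.node .nil 35192962027528 69 16 .nil) 35192962027584 72 16 (.node .nil 35192962028032 76 16 .nil)) 35192962056193 23 16 (.node (.node .nil 35192962056256 114 16 .nil) 35192962056704 112 16 .nil)) 35192962285569 27 16 (.node (.node (.node .nil 35192962285576 109 16 .nil) 35192962285632 113 16 (.node .nil 35192962286080 110 16 .nil)) 35192964120577 31 16 (.node (.node .nil 35192964120640 123 15 .nil) 35192964121088 111 16 .nil)))

private def t27 : Tri :=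
  (.node t25 35192962027521 19 16 t26)

private def t28 : Tri :=
  (.node t24 35184508403776 121 15 t27)

private def t29 : Tri :=
  (.node t21 35184388870145 63 16 t28)

private def t30 : Tri :=
  (.node t14 558346010632 43 16 t29)

private def N : Tri := t30

private def S : List (List (ℕ × ℕ × ℕ)) :=
  [[(4, 4, 12)], [(4, 4, 13)], [(4, 4, 14)], [(4, 4, 15)], [(4, 5, 12)], [(4, 5, 13)], [(4, 5, 14)], [(4, 5, 15)
  ], [(4, 6, 12)], [(4, 6, 13)], [(4, 6, 14)], [(4, 6, 15)], [(4, 7, 12)], [(4, 7, 13)], [(4, 7, 14)], [(4, 7, 15)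
  ], [(5, 4, 12)], [(5, 4, 13)], [(5, 4, 14)], [(5, 4, 15)], [(5, 5, 12)], [(5, 5, 13)], [(5, 5, 14)], [(5, 5, 15)
  ], [(5, 6, 12)], [(5, 6, 13)], [(5, 6, 14)], [(5, 6, 15)], [(5, 7, 12)], [(5, 7, 13)], [(5, 7, 14)], [(5, 7, 15)
  ], [(8, 4, 8)], [(8, 4, 9)], [(8, 4, 10)], [(8, 4, 11)], [(8, 5, 8)], [(8, 5, 9)], [(8, 5, 10)], [(8, 5, 11)
  ], [(8, 6, 8)], [(8, 6, 9)], [(8, 6, 10)], [(8, 6, 11)], [(8, 7, 8)], [(8, 7, 9)], [(8, 7, 10)], [(8, 7, 11)
  ], [(11, 0, 12)], [(11, 0, 13)], [(11, 0, 14)], [(11, 0, 15)], [(11, 1, 12)], [(11, 1, 14)], [(11, 1, 15)], [(11, 2, 12)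
  ], [(11, 2, 13)], [(11, 2, 14)], [(11, 2, 15)], [(11, 3, 12)], [(11, 3, 13)], [(11, 3, 14)], [(11, 3, 15)], [(14, 0, 8)
  ], [(14, 0, 9)], [(14, 0, 10)], [(14, 1, 8)], [(14, 1, 9)], [(14, 1, 10)], [(14, 1, 11)], [(14, 2, 9)], [(14, 2, 10)
  ], [(14, 2, 11)], [(14, 3, 8)], [(14, 3, 9)], [(14, 3, 10)], [(14, 3, 11)], [(6, 4, 12)], [(6, 4, 13)], [(6, 4, 14)
  ], [(6, 5, 12)], [(6, 5, 13)], [(6, 5, 14)], [(6, 5, 15)], [(6, 6, 12)], [(6, 6, 13)], [(6, 6, 14)], [(6, 6, 15)
  ], [(6, 7, 12)], [(6, 7, 13)], [(6, 7, 14)], [(6, 7, 15)], [(7, 4, 9)], [(7, 4, 10)], [(7, 4, 11)], [(15, 1, 10)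
  ], [(9, 6, 10)], [(0, 10, 15)], [(3, 10, 15)], [(2, 10, 15)], [(7, 5, 10)], [(15, 1, 9)], [(9, 6, 9)], [(0, 9, 15)
  ], [(2, 9, 15)], [(3, 9, 15)], [(10, 0, 15)], [(1, 9, 15)], [(15, 1, 11)], [(9, 6, 11)], [(0, 11, 15)], [(10, 3, 15)
  ], [(1, 11, 15)], [(3, 11, 15)], [(2, 11, 15)], [(7, 5, 11)], [(7, 6, 9)], [(7, 6, 10)], [(7, 6, 11)], [(12, 2, 12)
  ], [(10, 2, 12)], [(7, 7, 9)], [(7, 7, 10)], [(7, 7, 11)], [(12, 0, 12)], [(12, 0, 13)], [(12, 0, 14)], [(12, 0, 15)
  ], [(13, 1, 11)], [(12, 1, 14)], [(12, 1, 15)], [(9, 7, 8)], [(12, 1, 12)], [(12, 2, 13)], [(12, 2, 14)], [(15, 3, 11)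
  ], [(3, 11, 12)], [(2, 11, 12)], [(1, 11, 12)], [(12, 3, 12)], [(15, 3, 9)], [(10, 3, 12)], [(1, 9, 12)], [(10, 0, 12)
  ], [(13, 3, 9)], [(1, 9, 14)], [(13, 0, 9)], [(15, 0, 9)], [(10, 0, 13)], [(1, 9, 13)], [(10, 3, 13)], [(12, 3, 13)
  ], [(13, 3, 11)], [(12, 3, 14)], [(12, 3, 15)], [(13, 0, 8)], [(13, 1, 8)], [(13, 1, 9)], [(13, 1, 10)], [(13, 2, 9)
  ], [(13, 2, 10)], [(13, 2, 11)], [(13, 3, 8)], [(13, 3, 10)], [(15, 0, 8)], [(15, 1, 8)], [(15, 2, 9)], [(15, 2, 10)
  ], [(15, 2, 11)], [(15, 3, 8)], [(15, 3, 10)], [(0, 8, 14)], [(9, 4, 8)], [(0, 8, 12)], [(0, 8, 13)], [(9, 6, 8)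
  ], [(0, 8, 15)], [(2, 9, 12)], [(0, 9, 12)], [(0, 9, 13)], [(9, 4, 9)], [(0, 9, 14)], [(3, 10, 12)], [(0, 10, 12)
  ], [(0, 10, 13)], [(9, 4, 10)], [(0, 10, 14)], [(0, 11, 12)], [(0, 11, 13)], [(9, 4, 11)], [(0, 11, 14)], [(2, 8, 12)
  ], [(1, 8, 12)], [(2, 8, 13)], [(1, 8, 13)], [(2, 8, 14)], [(1, 8, 14)], [(2, 8, 15)], [(1, 8, 15)], [(2, 10, 12)
  ], [(1, 10, 12)], [(1, 10, 13)], [(1, 10, 14)], [(1, 10, 15)], [(1, 11, 13)], [(1, 11, 14)], [(9, 5, 8)], [(9, 5, 10)
  ], [(9, 5, 11)], [(10, 1, 12)], [(9, 7, 9)], [(9, 7, 10)], [(10, 2, 13)], [(2, 9, 13)], [(2, 9, 14)], [(3, 10, 13)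
  ], [(2, 10, 13)], [(3, 10, 14)], [(2, 10, 14)], [(3, 11, 13)], [(2, 11, 13)], [(3, 11, 14)], [(2, 11, 14)], [(3, 8, 12)
  ], [(3, 8, 13)], [(3, 8, 14)], [(3, 8, 15)], [(3, 9, 12)], [(3, 9, 13)], [(3, 9, 14)]]

private theorem h0 : chk 18 5 13 31 N (okM 16 4) (rwS L1 L2) S = true := by decide +kernel

theorem ok : (sm false 16 1 1 {(0, {2, 3}, 0), (1, {2, 3}, 0)} ∅).OK :=
  ok_of_chk _ 16 4 rfl rfl P1 P2 T F L1 L2 (r := 230) N S (by decide +kernel) (by decide +kernel)
    (by decide +kernel) (by decide +kernel) (by decide +kernel) h0 (by decide +kernel)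
    (by decide +kernel) (by decide +kernel) (by decide +kernel) (by decide +kernel)

end Pool.Agent.KZ.AL.Ck.T433_1120_AB
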