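import Pool.Agent.KZ.AL.OkC

/-! # KZ4, ALPHA: finite check T433_1120_B (generated) -/

set_option autoImplicit false
set_option maxRecDepth 100000

namespace Pool.Agent.KZ.AL.Ck.T433_1120_B

open Pool.Agent.KZ (Tri chk rwS)
open Finset (range)

/-- The positions of the T-points. -/
private def P1 : List ((ℕ × ℕ × ℕ) × List (ℕ × ℤ)) :=
  [((0, 1, 0), [(3, 1), (6, 1), (7, 1)]), ((0, 1, 1), [(0, 1), (2, 1), (3, 3), (4, 4), (6, 1), (7, 1)]),
   ((0, 1, 2), [(3, 1), (4, 1)]), ((0, 1, 3), [(0, 1), (2, 1), (4, 1)]),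
   ((0, 2, 0), [(2, 1), (3, 2), (10, 1)]), ((0, 2, 1), [(2, 1), (3, 4), (8, 1), (11, 4)]),
   ((0, 2, 2), [(0, 1), (3, 4), (8, 1), (9, 1)]), ((0, 3, 0), [(0, 1), (1, 1), (2, 3), (13, 1), (14, 1)]),
   ((0, 3, 1), [(1, 1), (2, 1), (12, 1), (15, 1)]), ((0, 3, 2), [(0, 1), (1, 1), (14, 1)]),
   ((1, 2, 0), [(4, 1), (5, 1), (6, 1), (11, 1)]), ((1, 2, 1), [(5, 1), (10, 4), (11, 1)]),
   ((1, 2, 2), [(5, 1), (9, 1)]), ((1, 3, 0), [(4, -1), (5, -1), (6, -1), (12, 1), (13, 2)]),
   ((1, 3, 1), [(6, 1), (12, 1), (14, 3)]), ((1, 3, 2), [(7, 1), (15, 1)])]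

/-- The positions of the free items. -/
private def P2 : List ((ℕ × ℕ × ℕ) × List (ℕ × ℤ)) :=
  []

private def T : List (ℕ × ℕ × ℕ) :=
  [(0, 1, 0), (0, 1, 1), (0, 1, 2), (0, 1, 3), (0, 2, 0), (0, 2, 1), (0, 2, 2), (0, 3, 0),
   (0, 3, 1), (0, 3, 2), (1, 2, 0), (1, 2, 1), (1, 2, 2), (1, 3, 0), (1, 3, 1), (1, 3, 2)]

private def F : List (ℕ × ℕ × ℕ) :=
  []

private def L1 : List (List (ℕ × ℕ)) :=
  [[(3, 1), (6, 1), (7, 1)], [(0, 1), (2, 1), (3, 3), (4, 4), (6, 1), (7, 1)], [(3, 1), (4, 1)],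
   [(0, 1), (2, 1), (4, 1)], [(2, 1), (3, 2), (10, 1)], [(2, 1), (3, 4), (8, 1), (11, 4)],
   [(0, 1), (3, 4), (8, 1), (9, 1)], [(0, 1), (1, 1), (2, 3), (13, 1), (14, 1)], [(1, 1), (2, 1), (12, 1), (15, 1)],
   [(0, 1), (1, 1), (14, 1)], [(4, 1), (5, 1), (6, 1), (11, 1)], [(5, 1), (10, 4), (11, 1)],
   [(5, 1), (9, 1)], [(4, 30), (5, 30), (6, 30), (12, 1), (13, 2)], [(6, 1), (12, 1), (14, 3)],
   [(7, 1), (15, 1)]]

private def L2 : List (List (ℕ × ℕ)) :=
  []

private def t0 : Tri :=
  (.node (.node (.node (.node .nil 68736258049 63 16 .nil) 68736258056 201 15 (.node .nil 68736258112 62 16 .nil)) 68736258560 0 16 (.node (.node .nil 68736286721 75 16 .nil) 68736286784 73 15 (.node .nil 68736287232 74 4 .nil))) 68736516097 53 16 (.node (.node (.node .nil 68736516104 175 16 .nil) 68736516160 64 16 (.node .nil 68738351105 194 16 .nil)) 68738351112 218 16 (.node (.node .nil 68738351168 189 16 .nil) 68738351616 48 16 .nil)))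

private def t1 : Tri :=
  (.node (.node (.node (.node .nil 68853698568 206 15 .nil) 68853698624 113 16 (.node .nil 68853699072 4 16 .nil)) 68853727233 16 16 (.node (.node .nil 68853727240 20 16 .nil) 68853727296 24 16 (.node .nil 68853727744 28 16 .nil))) 68853956609 54 16 (.node (.node (.node .nil 68853956616 176 16 .nil) 68853957120 55 4 (.node .nil 68855791617 195 16 .nil)) 68855791624 220 16 (.node (.node .nil 68855791680 219 16 .nil) 68855792128 56 16 .nil)))

private def t2 : Tri :=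
  (.node t0 68853698561 79 16 t1)

private def t3 : Tri :=
  (.node (.node (.node (.node .nil 69793222664 211 15 .nil) 69793222720 88 16 (.node .nil 69793223168 8 16 .nil)) 69793251329 161 4 (.node (.node .nil 69793251336 169 4 .nil) 69793251392 59 16 (.node .nil 69793251840 58 4 .nil))) 69793480705 174 16 (.node (.node (.node .nil 69793480712 177 16 .nil) 69793480768 89 16 (.node .nil 69795315713 231 16 .nil)) 69795315720 221 16 (.node (.node .nil 69795315776 133 16 .nil) 69795316224 87 16 .nil)))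

private def t4 : Tri :=
  (.node (.node (.node (.node .nil 77309415432 180 16 .nil) 77309415488 61 16 (.node .nil 77309415936 12 16 .nil)) 77309444097 160 16 (.node (.node .nil 77309444160 60 16 .nil) 77309444608 57 16 .nil)) 77309673473 159 16 (.node (.node (.node .nil 77309673480 178 16 .nil) 77311508481 233 16 (.node .nil 77311508488 222 16 .nil)) 77311508992 98 16 (.node (.node .nil 549772595201 76 16 .nil) 549772595208 198 16 .nil)))

private def t5 : Tri :=
  (.node t3 77309415425 125 16 t4)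

private def t6 : Tri :=
  (.node t2 69793222657 119 16 t5)

private def t7 : Tri :=
  (.node (.node (.node (.node .nil 549772595712 1 16 .nil) 549772623873 77 16 (.node .nil 549772623880 199 16 .nil)) 549772623936 70 16 (.node (.node .nil 549772853249 78 23 .nil) 549772853256 200 16 (.node .nil 549772853312 72 16 .nil))) 549774688257 196 16 (.node (.node (.node .nil 549774688264 223 16 .nil) 549774688320 190 16 (.node .nil 549774688768 49 16 .nil)) 549890035713 80 16 (.node (.node .nil 549890035720 203 16 .nil) 549890035776 114 16 .nil)))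

private def t8 : Tri :=
  (.node (.node (.node (.node .nil 549890064385 17 16 .nil) 549890064392 21 16 (.node .nil 549890064448 25 16 .nil)) 549890064896 29 16 (.node (.node .nil 549890293761 81 23 .nil) 549890293768 205 16 (.node .nil 549890293824 204 23 .nil))) 549890294272 82 4 (.node (.node (.node .nil 549892128769 197 16 .nil) 549892128776 226 16 (.node .nil 549892128832 224 16 .nil)) 549892129280 83 16 (.node (.node .nil 550829559809 120 16 .nil) 550829559816 208 16 .nil)))

private def t9 : Tri :=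
  (.node t7 549890036224 5 16 t8)

private def t10 : Tri :=
  (.node (.node (.node (.node .nil 550829560320 9 16 .nil) 550829588481 163 4 (.node .nil 550829588488 170 16 .nil)) 550829588544 68 16 (.node (.node .nil 550829588992 67 4 .nil) 550829817857 209 23 (.node .nil 550829817864 210 16 .nil))) 550829817920 91 23 (.node (.node (.node .nil 550829818368 92 8 .nil) 550831652865 227 16 (.node .nil 550831652872 228 16 .nil)) 550831652928 134 16 (.node (.node .nil 550831653376 93 16 .nil) 558345752577 126 16 .nil)))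

private def t11 : Tri :=
  (.node (.node (.node (.node .nil 558345753088 13 16 .nil) 558345781249 162 16 (.node .nil 558345781256 171 16 .nil)) 558345781312 69 16 (.node (.node .nil 558345781760 66 16 .nil) 558346010632 182 16 .nil)) 558346010688 71 16 (.node (.node (.node .nil 558347845633 229 16 .nil) 558347845640 230 16 (.node .nil 558347846144 99 16 .nil)) 4398063292417 110 16 (.node (.node .nil 4398063292424 136 16 .nil) 4398063292480 109 16 .nil)))

private def t12 : Tri :=
  (.node t10 558345752584 181 16 t11)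

private def t13 : Tri :=
  (.node t9 550829559872 90 16 t12)

private def t14 : Tri :=
  (.node t6 549772595264 65 16 t13)

private def t15 : Tri :=
  (.node (.node (.node (.node .nil 4398063321096 140 16 .nil) 4398063321152 186 16 (.node .nil 4398063321600 185 4 .nil)) 4398063550472 145 16 (.node (.node .nil 4398063550528 154 26 .nil) 4398063550976 50 26 (.node .nil 4398065385473 149 16 .nil))) 4398065385480 150 16 (.node (.node (.node .nil 4398065385536 155 16 .nil) 4398065385984 51 16 (.node .nil 4398180732929 115 16 .nil)) 4398180732936 137 16 (.node (.node .nil 4398180732992 116 16 .nil) 4398180733440 6 16 .nil)))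

private def t16 : Tri :=
  (.node (.node (.node (.node .nil 4398180761608 22 16 .nil) 4398180761664 26 16 (.node .nil 4398180762112 30 16 .nil)) 4398180990984 146 16 (.node (.node .nil 4398180991040 179 26 .nil) 4398180991488 84 26 (.node .nil 4398182825992 151 16 .nil))) 4398182826048 225 16 (.node (.node (.node .nil 4398182826496 85 16 .nil) 4399120257025 122 16 (.node .nil 4399120257032 138 16 .nil)) 4399120257088 121 16 (.node (.node .nil 4399120257536 10 16 .nil) 4399120285697 142 4 .nil)))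

private def t17 : Tri :=
  (.node t15 4398180761601 18 16 t16)

private def t18 : Tri :=
  (.node (.node (.node (.node .nil 4399120285760 105 16 .nil) 4399120286208 104 4 (.node .nil 4399120515080 147 16 .nil)) 4399120515136 94 26 (.node (.node .nil 4399120515584 95 8 .nil) 4399122350081 152 16 (.node .nil 4399122350088 153 16 .nil))) 4399122350144 135 16 (.node (.node (.node .nil 4399122350592 96 16 .nil) 4406636449793 127 16 (.node .nil 4406636449800 139 16 .nil)) 4406636449856 108 16 (.node (.node .nil 4406636450304 14 16 .nil) 4406636478465 141 16 .nil)))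

private def t19 : Tri :=
  (.node (.node (.node (.node .nil 4406636478528 106 16 .nil) 4406636478976 103 16 (.node .nil 4406636707848 148 16 .nil)) 4406636707904 107 26 (.node (.node .nil 4406636708352 100 26 .nil) 4406638542849 157 16 .nil)) 4406638542856 158 16 (.node (.node (.node .nil 4406638542912 156 4 .nil) 4406638543360 101 16 (.node .nil 35184388870145 112 16 .nil)) 35184388870152 202 16 (.node (.node .nil 35184388870208 111 16 .nil) 35184388870656 3 16 .nil)))

private def t20 : Tri :=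
  (.node t18 4406636478472 144 16 t19)

private def t21 : Tri :=
  (.node t17 4399120285704 143 16 t20)

private def t22 : Tri :=
  (.node (.node (.node (.node .nil 35184388898824 213 16 .nil) 35184388898880 187 16 (.node .nil 35184389128193 192 16 .nil)) 35184389128200 214 16 (.node (.node .nil 35184389128256 188 16 .nil) 35184389128704 52 16 (.node .nil 35184390963201 32 16 .nil))) 35184390963208 36 16 (.node (.node (.node .nil 35184390963264 40 16 .nil) 35184390963712 44 16 (.node .nil 35184506310657 117 16 .nil)) 35184506310664 207 16 (.node (.node .nil 35184506310720 118 16 .nil) 35184506311168 7 16 .nil)))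

private def t23 : Tri :=
  (.node (.node (.node (.node .nil 35184506339336 23 16 .nil) 35184506339392 27 16 (.node .nil 35184506339840 31 16 .nil)) 35184506568705 193 16 (.node (.node .nil 35184506568712 216 16 .nil) 35184506568768 215 16 .nil)) 35184506569216 86 16 (.node (.node (.node .nil 35184508403713 33 16 .nil) 35184508403720 37 16 (.node .nil 35184508403776 41 16 .nil)) 35184508404224 45 16 (.node (.node .nil 35185445834753 124 16 .nil) 35185445834760 212 16 .nil)))

private def t24 : Tri :=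
  (.node t22 35184506339329 19 16 t23)

private def t25 : Tri :=
  (.node (.node (.node (.node .nil 35185445835264 11 16 .nil) 35185445863425 168 4 (.node .nil 35185445863432 172 16 .nil)) 35185445863488 131 16 (.node (.node .nil 35185445863936 130 4 .nil) 35185446092801 232 16 (.node .nil 35185446092808 217 16 .nil))) 35185446092864 132 16 (.node (.node (.node .nil 35185446093312 97 16 .nil) 35185447927809 34 16 (.node .nil 35185447927816 38 16 .nil)) 35185447927872 42 16 (.node (.node .nil 35185447928320 46 16 .nil) 35192962027521 128 16 .nil)))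

private def t26 : Tri :=
  (.node (.node (.node (.node .nil 35192962028032 15 16 .nil) 35192962056193 167 16 (.node .nil 35192962056200 173 16 .nil)) 35192962056256 164 16 (.node (.node .nil 35192962056704 129 16 .nil) 35192962285569 166 16 .nil)) 35192962285576 184 16 (.node (.node (.node .nil 35192962285632 165 16 .nil) 35192962286080 102 16 (.node .nil 35192964120577 35 16 .nil)) 35192964120584 39 16 (.node (.node .nil 35192964120640 43 16 .nil) 35192964121088 47 16 .nil)))

private def t27 : Tri :=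
  (.node t25 35192962027528 183 16 t26)

private def t28 : Tri :=
  (.node t24 35185445834816 123 16 t27)

private def t29 : Tri :=
  (.node t21 35184388898817 191 16 t28)

private def t30 : Tri :=
  (.node t14 4398063292928 2 16 t29)

private def N : Tri := t30

private def S : List (List (ℕ × ℕ × ℕ)) :=
  [[(2, 8, 12)], [(2, 8, 13)], [(2, 8, 14)], [(2, 8, 15)], [(2, 9, 12)], [(2, 9, 13)], [(2, 9, 14)], [(2, 9, 15)
  ], [(2, 10, 12)], [(2, 10, 13)], [(2, 10, 14)], [(2, 10, 15)], [(2, 11, 12)], [(2, 11, 13)], [(2, 11, 14)], [(2, 11, 15)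
  ], [(12, 0, 12)], [(12, 0, 13)], [(12, 0, 14)], [(12, 0, 15)], [(12, 1, 12)], [(12, 1, 13)], [(12, 1, 14)], [(12, 1, 15)
  ], [(12, 2, 12)], [(12, 2, 13)], [(12, 2, 14)], [(12, 2, 15)], [(12, 3, 12)], [(12, 3, 13)], [(12, 3, 14)], [(12, 3, 15)
  ], [(15, 0, 8)], [(15, 0, 9)], [(15, 0, 10)], [(15, 0, 11)], [(15, 1, 8)], [(15, 1, 9)], [(15, 1, 10)], [(15, 1, 11)
  ], [(15, 2, 8)], [(15, 2, 9)], [(15, 2, 10)], [(15, 2, 11)], [(15, 3, 8)], [(15, 3, 9)], [(15, 3, 10)], [(15, 3, 11)
  ], [(0, 8, 12)], [(0, 8, 13)], [(14, 3, 8)], [(0, 8, 14)], [(0, 8, 15)], [(14, 0, 8)], [(14, 0, 9)], [(6, 6, 12)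
  ], [(0, 9, 12)], [(10, 3, 12)], [(11, 3, 12)], [(4, 5, 12)], [(11, 2, 12)], [(10, 2, 12)], [(5, 4, 12)], [(3, 8, 12)
  ], [(5, 6, 12)], [(5, 4, 13)], [(10, 3, 13)], [(11, 3, 13)], [(4, 5, 13)], [(11, 2, 13)], [(5, 5, 13)], [(10, 2, 13)
  ], [(5, 6, 13)], [(13, 2, 8)], [(5, 5, 12)], [(6, 5, 12)], [(3, 8, 13)], [(6, 5, 13)], [(13, 0, 8)], [(6, 4, 12)
  ], [(6, 4, 13)], [(13, 0, 9)], [(6, 6, 13)], [(0, 9, 13)], [(14, 3, 9)], [(0, 9, 14)], [(0, 9, 15)], [(0, 10, 12)
  ], [(4, 4, 12)], [(4, 6, 12)], [(4, 4, 13)], [(13, 2, 10)], [(4, 6, 13)], [(0, 10, 13)], [(14, 2, 10)], [(4, 6, 14)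
  ], [(0, 10, 14)], [(0, 10, 15)], [(0, 11, 12)], [(0, 11, 13)], [(14, 3, 11)], [(0, 11, 14)], [(0, 11, 15)], [(10, 3, 14)
  ], [(11, 3, 14)], [(4, 5, 14)], [(11, 2, 14)], [(14, 2, 11)], [(10, 2, 14)], [(5, 4, 14)], [(3, 8, 14)], [(5, 4, 15)
  ], [(3, 8, 15)], [(3, 9, 12)], [(3, 9, 13)], [(6, 4, 14)], [(3, 9, 14)], [(6, 4, 15)], [(3, 9, 15)], [(3, 10, 12)
  ], [(3, 10, 13)], [(4, 4, 14)], [(3, 10, 14)], [(4, 4, 15)], [(3, 10, 15)], [(3, 11, 12)], [(3, 11, 13)], [(3, 11, 14)
  ], [(3, 11, 15)], [(10, 3, 15)], [(11, 3, 15)], [(4, 5, 15)], [(4, 6, 15)], [(4, 7, 12)], [(4, 7, 13)], [(4, 7, 14)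
  ], [(9, 4, 8)], [(9, 4, 9)], [(9, 4, 10)], [(9, 4, 11)], [(9, 5, 8)], [(10, 0, 14)], [(11, 0, 14)], [(9, 5, 10)
  ], [(9, 5, 11)], [(9, 6, 8)], [(9, 6, 9)], [(9, 6, 10)], [(9, 6, 11)], [(6, 7, 14)], [(9, 7, 8)], [(9, 7, 9)
  ], [(1, 10, 14)], [(9, 7, 10)], [(14, 2, 8)], [(1, 8, 14)], [(5, 7, 14)], [(1, 11, 14)], [(9, 7, 11)], [(14, 0, 11)
  ], [(10, 0, 12)], [(11, 0, 12)], [(10, 0, 13)], [(11, 0, 13)], [(11, 2, 15)], [(10, 2, 15)], [(1, 11, 15)], [(10, 0, 15)
  ], [(11, 0, 15)], [(11, 1, 12)], [(7, 5, 10)], [(11, 1, 13)], [(8, 5, 10)], [(11, 1, 15)], [(14, 0, 10)], [(14, 1, 8)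
  ], [(14, 1, 9)], [(14, 1, 10)], [(14, 1, 11)], [(14, 2, 9)], [(10, 1, 12)], [(7, 4, 11)], [(10, 1, 13)], [(8, 4, 11)
  ], [(10, 1, 15)], [(6, 5, 14)], [(5, 5, 14)], [(5, 5, 15)], [(5, 6, 15)], [(5, 7, 12)], [(5, 7, 13)], [(6, 5, 15)
  ], [(1, 8, 15)], [(6, 6, 15)], [(1, 8, 12)], [(6, 7, 12)], [(1, 8, 13)], [(6, 7, 13)], [(7, 4, 8)], [(7, 5, 8)
  ], [(7, 6, 8)], [(13, 1, 8)], [(8, 4, 8)], [(7, 4, 9)], [(13, 2, 9)], [(7, 6, 9)], [(13, 1, 9)], [(8, 4, 9)
  ], [(7, 4, 10)], [(13, 0, 10)], [(7, 6, 10)], [(13, 1, 10)], [(8, 4, 10)], [(8, 5, 8)], [(8, 6, 8)], [(1, 9, 15)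
  ], [(8, 6, 9)], [(8, 6, 10)], [(8, 7, 8)], [(1, 9, 12)], [(8, 7, 9)], [(8, 7, 10)], [(8, 7, 11)], [(7, 7, 8)
  ], [(1, 9, 13)], [(1, 9, 14)], [(7, 7, 9)], [(1, 10, 13)], [(7, 7, 10)], [(1, 11, 13)], [(7, 7, 11)], [(1, 10, 12)
  ], [(1, 10, 15)], [(1, 11, 12)]]

private theorem h0 : chk 20 5 15 31 N (okM 16 4) (rwS L1 L2) S = true := by decide +kernel

theorem ok : (sm false 16 1 1 {(1, {2, 3}, 0)} ∅).OK :=
  ok_of_chk _ 16 4 rfl rfl P1 P2 T F L1 L2 (r := 234) N S (by decide +kernel) (by decide +kernel)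
    (by decide +kernel) (by decide +kernel) (by decide +kernel) h0 (by decide +kernel)
    (by decide +kernel) (by decide +kernel) (by decide +kernel) (by decide +kernel)

end Pool.Agent.KZ.AL.Ck.T433_1120_B
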