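import Pool.Agent.KZ.AL.OkC

/-! # KZ4, ALPHA: finite check T433_1200_0 (generated) -/

set_option autoImplicit false
set_option maxRecDepth 100000

namespace Pool.Agent.KZ.AL.Ck.T433_1200_0

open Pool.Agent.KZ (Tri chk rwS)
open Finset (range)

/-- The positions of the T-points. -/
private def P1 : List ((ℕ × ℕ × ℕ) × List (ℕ × ℤ)) :=
  [((0, 1, 0), [(1, 1), (2, 1), (6, 1)]), ((0, 1, 1), [(3, 1), (7, 1)]),
   ((0, 1, 2), [(2, 1), (3, 1), (5, 1)]), ((0, 1, 3), [(0, 1), (4, 1)]),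
   ((0, 2, 0), [(0, 1), (2, 1), (10, 1), (11, 1)]), ((0, 2, 1), [(0, 1), (1, 1), (2, 1), (3, 1), (8, 1), (10, 1)]),
   ((0, 2, 2), [(1, 1), (10, 1)]), ((0, 2, 3), [(0, 1), (1, 1), (2, 4), (8, 1), (9, 1)])]

/-- The positions of the free items. -/
private def P2 : List ((ℕ × ℕ × ℕ) × List (ℕ × ℤ)) :=
  [((0, 1, 0), [(1, 1), (2, 1), (5, 1)]), ((0, 2, 0), [(2, 1), (9, 3)]),
   ((1, 2, 0), [(5, 1), (6, 1), (11, 1)]), ((1, 2, 1), [(4, 4), (6, 3), (7, 1), (11, 1)]),
   ((1, 2, 2), [(4, 1), (6, 1), (8, 1)]), ((1, 2, 3), [(4, 1), (5, 1), (7, 3), (11, 1)])]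

private def T : List (ℕ × ℕ × ℕ) :=
  [(0, 1, 0), (0, 1, 1), (0, 1, 2), (0, 1, 3), (0, 2, 0), (0, 2, 1), (0, 2, 2), (0, 2, 3)]

private def F : List (ℕ × ℕ × ℕ) :=
  [(0, 1, 0), (0, 2, 0), (1, 2, 0), (1, 2, 1), (1, 2, 2), (1, 2, 3)]

private def L1 : List (List (ℕ × ℕ)) :=
  [[(1, 1), (2, 1), (6, 1)], [(3, 1), (7, 1)], [(2, 1), (3, 1), (5, 1)],
   [(0, 1), (4, 1)], [(0, 1), (2, 1), (10, 1), (11, 1)], [(0, 1), (1, 1), (2, 1), (3, 1), (8, 1), (10, 1)],
   [(1, 1), (10, 1)], [(0, 1), (1, 1), (2, 4), (8, 1), (9, 1)]]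

private def L2 : List (List (ℕ × ℕ)) :=
  [[(1, 1), (2, 1), (5, 1)], [(2, 1), (9, 3)], [(5, 1), (6, 1), (11, 1)],
   [(4, 4), (6, 3), (7, 1), (11, 1)], [(4, 1), (6, 1), (8, 1)], [(4, 1), (5, 1), (7, 3), (11, 1)]]

private def t0 : Tri :=
  (.node (.node (.node (.node (.node .nil 16781314 47 0xb000a .nil) 16781825 101 16 .nil) 16781832 109 16 (.node (.node .nil 16781888 111 16 .nil) 16782336 113 0xa000b .nil)) 16785409 47 0xa000b (.node (.node (.node .nil 16785416 95 1 .nil) 16785472 96 1 .nil) 16785920 100 16 (.node .nil 16809986 168 0xa000b .nil))) 16810497 165 16 (.node (.node (.node (.node .nil 16810504 166 16 .nil) 16811008 119 0xa000b .nil) 16814081 190 16 (.node (.node .nil 16814088 263 16 .nil) 16814592 251 16 .nil)) 16842753 164 16 (.node (.node (.node .nil 16842760 158 21 .nil) 16842816 118 1 .nil) 16843264 119 0xb000a (.node .nil 17039376 32 0xa000b .nil))))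

private def t1 : Tri :=
  (.node (.node (.node (.node (.node .nil 17039880 133 16 .nil) 17039936 136 16 .nil) 17040384 139 0xa000b (.node (.node .nil 17043457 48 16 .nil) 17043464 103 16 .nil)) 17043520 102 26 (.node (.node (.node .nil 17043968 262 26 .nil) 17072129 267 16 .nil) 17072136 245 16 (.node .nil 17072640 256 16 .nil))) 17301505 33 1 (.node (.node (.node (.node .nil 17301512 32 0xb000a .nil) 17301568 31 1 .nil) 17302016 135 16 (.node (.node .nil 18874370 201 0xa000b .nil) 18874881 84 16 .nil)) 18875392 73 0xb000a (.node (.node (.node .nil 18878465 202 16 .nil) 18878472 265 16 .nil) 18878976 114 16 (.node .nil 18907137 269 16 .nil))))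

private def t2 : Tri :=
  (.node t0 17039873 132 16 t1)

private def t3 : Tri :=
  (.node (.node (.node (.node (.node .nil 18907648 120 16 .nil) 19136513 271 16 .nil) 19136520 248 16 (.node (.node .nil 19137024 140 16 .nil) 20971521 83 16 .nil)) 20971528 71 1 (.node (.node (.node .nil 20971584 72 1 .nil) 20972032 73 0xa000b .nil) 33558529 10 16 (.node .nil 33558536 104 21 .nil))) 33559040 113 0xb000a (.node (.node (.node (.node .nil 33587201 168 0xb000a .nil) 33587208 167 1 .nil) 33587264 149 1 (.node (.node .nil 33587712 150 16 .nil) 33816577 49 21 .nil)) 33816584 30 16 (.node (.node (.node .nil 33817088 139 0xb000a .nil) 35651585 201 0xb000a .nil) 35651592 199 1 (.node .nil 35651648 200 1 .nil))))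

private def t4 : Tri :=
  (.node (.node (.node (.node (.node .nil 134221826 180 0xb000a .nil) 134221833 184 16 .nil) 134221840 212 0xa000b (.node (.node .nil 134225921 180 0xa000b .nil) 134225928 183 16 .nil)) 134225984 182 1 (.node (.node (.node .nil 134226432 188 1 .nil) 134250505 170 0x1500050015 .nil) 134251009 173 16 (.node .nil 134251016 174 16 .nil))) 134251520 122 0xa000b (.node (.node (.node (.node .nil 134254593 191 16 .nil) 134254600 264 16 .nil) 134255104 252 16 (.node .nil 134283265 172 16 .nil)) 134283272 171 21 (.node (.node (.node .nil 134283328 121 1 .nil) 134283776 122 0xb000a .nil) 134479874 51 0xa000b (.node .nil 134479881 37 16 .nil))))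

private def t5 : Tri :=
  (.node t3 35652096 0 16 t4)

private def t6 : Tri :=
  (.node t2 18907200 259 16 t5)

private def t7 : Tri :=
  (.node (.node (.node (.node (.node .nil 134483969 196 16 .nil) 134483976 243 0xb0005 .nil) 134484032 243 0x5001a (.node (.node .nil 134512641 268 16 .nil) 134512648 246 16 .nil)) 134513152 257 16 (.node (.node (.node .nil 134742017 36 16 .nil) 134742024 35 0xa000b .nil) 134742080 34 1 (.node .nil 134742528 219 1 .nil))) 136314889 286 0x1500050015 (.node (.node (.node (.node .nil 136315393 88 16 .nil) 136315904 93 0xb000a .nil) 136318977 203 16 (.node (.node .nil 136318984 266 16 .nil) 136319488 115 16 .nil)) 136347649 270 16 (.node (.node (.node .nil 136347712 260 16 .nil) 136348160 123 16 .nil) 136577025 272 16 (.node .nil 136577032 249 16 .nil))))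

private def t8 : Tri :=
  (.node (.node (.node (.node (.node .nil 138412033 87 16 .nil) 138412040 85 1 .nil) 138412096 86 1 (.node (.node .nil 138412544 93 0xa000b .nil) 150999041 11 16 .nil)) 150999048 211 16 (.node (.node (.node .nil 150999104 210 16 .nil) 151027713 169 16 .nil) 151027776 152 16 (.node .nil 151028224 153 16 .nil))) 151257089 50 16 (.node (.node (.node (.node .nil 151257096 40 16 .nil) 151257152 41 16 .nil) 153092097 285 16 (.node .nil 153092160 284 16 .nil)) 153092608 1 16 (.node (.node (.node .nil 268439553 14 16 .nil) 268439560 212 0xb000a .nil) 268439616 209 23 (.node .nil 268440064 290 1 .nil))))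

private def t9 : Tri :=
  (.node t7 136577536 141 16 t8)

private def t10 : Tri :=
  (.node (.node (.node (.node (.node .nil 268468232 170 0x1400150015 .nil) 268468288 151 23 .nil) 268468736 156 16 (.node (.node .nil 268697601 51 0xb000a .nil) 268697608 39 16 .nil)) 268697664 38 23 (.node (.node (.node .nil 268698112 291 1 .nil) 270532609 286 0x1500150014 .nil) 270532616 286 0x1400150015 (.node .nil 270532672 218 23 .nil))) 270533120 4 16 (.node (.node (.node (.node .nil 1073745922 97 0xb000a .nil) 1073745929 105 16 .nil) 1073745936 106 0xa000b (.node (.node .nil 1073746440 107 16 .nil) 1073750017 97 0xa000b .nil)) 1073750024 20 16 (.node (.node (.node .nil 1073750080 98 1 .nil) 1073750528 99 1 .nil) 1073774608 124 0xa000b (.node .nil 1073775105 162 16 .nil))))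

private def t11 : Tri :=
  (.node (.node (.node (.node (.node .nil 1073775168 126 16 .nil) 1073775616 127 0xa000b .nil) 1073778689 192 16 (.node (.node .nil 1073778696 21 16 .nil) 1073778752 232 16 .nil)) 1073779200 253 16 (.node (.node (.node .nil 1073807361 163 1 .nil) 1073807368 24 16 .nil) 1073807424 125 21 (.node .nil 1073807872 127 0xb000a .nil))) 1074003984 52 0xa000b (.node (.node (.node (.node .nil 1074004040 54 16 .nil) 1074004096 55 0xa000b .nil) 1074008065 197 16 (.node .nil 1074008072 22 16 .nil)) 1074008128 225 16 (.node (.node (.node .nil 1074008576 289 16 .nil) 1074036737 236 16 .nil) 1074036744 25 16 (.node .nil 1074036800 234 16 .nil))))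

private def t12 : Tri :=
  (.node t10 1073775112 160 16 t11)

private def t13 : Tri :=
  (.node t9 268468225 170 0x1500150014 t12)

private def t14 : Tri :=
  (.node t6 134479888 35 0xb000a t13)

private def t15 : Tri :=
  (.node (.node (.node (.node (.node .nil 1074266113 63 1 .nil) 1074266120 27 16 .nil) 1074266176 55 0xb000a (.node (.node .nil 1074266624 134 1 .nil) 1075838992 74 0xa000b .nil)) 1075839489 80 16 (.node (.node (.node .nil 1075839496 75 16 .nil) 1075840000 76 0xa000b .nil) 1075843073 204 16 (.node .nil 1075843080 23 16 .nil))) 1075843136 233 16 (.node (.node (.node (.node .nil 1075843584 116 16 .nil) 1075871745 239 16 .nil) 1075871752 26 16 (.node (.node .nil 1075871808 237 16 .nil) 1075872256 128 16 .nil)) 1076101121 242 16 (.node (.node (.node .nil 1076101128 28 16 .nil) 1076101184 240 16 .nil) 1076101632 142 16 (.node .nil 1077936129 81 1 .nil))))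

private def t16 : Tri :=
  (.node (.node (.node (.node (.node .nil 1077936192 82 1 .nil) 1077936640 76 0xb000a .nil) 1090523137 12 16 (.node (.node .nil 1090523144 108 16 .nil) 1090523648 112 16 .nil)) 1090551816 157 16 (.node (.node (.node .nil 1090552320 154 16 .nil) 1090781192 42 16 .nil) 1090781248 43 16 (.node .nil 1090781696 138 16 .nil))) 1092616200 77 16 (.node (.node (.node (.node .nil 1092616704 2 16 .nil) 1207963649 15 16 .nil) 1207963656 213 16 (.node .nil 1207963712 279 4 .nil)) 1207964160 300 16 (.node (.node (.node .nil 1207992321 176 0xf00000010 .nil) 1207992328 175 16 .nil) 1207992384 176 0x40004001b (.node .nil 1207992832 176 0xc001b0004 .nil))))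

private def t17 : Tri :=
  (.node t15 1077936136 29 16 t16)

private def t18 : Tri :=
  (.node (.node (.node (.node (.node .nil 1208221704 45 16 .nil) 1208221760 46 16 .nil) 1208222208 302 16 (.node (.node .nil 1210056705 287 0xb0005 .nil) 1210056712 216 16 .nil)) 1210056768 287 0x5001a (.node (.node (.node .nil 1210057216 5 16 .nil) 2147487745 17 16 .nil) 2147487752 106 0xb000a (.node .nil 2147487808 110 1 .nil))) 2147516417 161 1 (.node (.node (.node (.node .nil 2147516424 124 0xb000a .nil) 2147516480 148 1 .nil) 2147516928 159 16 (.node (.node .nil 2147745793 57 1 .nil) 2147745800 52 0xb000a .nil)) 2147745856 53 16 (.node (.node (.node .nil 2147746304 137 1 .nil) 2149580801 78 1 .nil) 2149580808 74 0xb000a (.node .nil 2149580864 79 1 .nil))))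

private def t19 : Tri :=
  (.node (.node (.node (.node (.node .nil 8589938690 181 0xb000a .nil) 8589938753 187 16 .nil) 8589938816 228 0xb000a (.node (.node .nil 8589939201 189 16 .nil) 8589939208 301 16 .nil)) 8589939264 255 16 (.node (.node (.node .nil 8589939712 117 1 .nil) 8589942785 181 0xa000b .nil) 8589942792 185 1 (.node .nil 8589942848 186 16 .nil))) 8589967362 194 0xa000b (.node (.node (.node (.node .nil 8589967369 274 16 .nil) 8589967873 222 16 .nil) 8589967880 224 16 (.node .nil 8589967936 129 16 .nil)) 8589968384 130 0xa000b (.node (.node (.node .nil 8589971457 195 16 .nil) 8589971464 294 26 .nil) 8589971520 231 26 (.node .nil 8589971968 254 26 .nil))))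

private def t20 : Tri :=
  (.node t18 2149581312 7 16 t19)

private def t21 : Tri :=
  (.node t17 1208221697 56 16 t20)

private def t22 : Tri :=
  (.node (.node (.node (.node (.node .nil 8590000136 223 21 .nil) 8590000640 130 0xb000a .nil) 8590196738 68 0xa000b (.node (.node .nil 8590196745 65 16 .nil) 8590196752 59 0xa000b .nil)) 8590197249 277 16 (.node (.node (.node .nil 8590197256 220 16 .nil) 8590197760 146 1 .nil) 8590200833 198 16 (.node .nil 8590200840 244 16 .nil))) 8590200896 226 16 (.node (.node (.node (.node .nil 8590201344 293 28 .nil) 8590229505 235 26 .nil) 8590229512 247 16 (.node (.node .nil 8590229568 143 26 .nil) 8590230016 145 26 .nil)) 8590458881 64 16 (.node (.node (.node .nil 8590458888 59 0xb000a .nil) 8590458944 58 1 .nil) 8592031746 207 0xa000b (.node .nil 8592031753 275 16 .nil))))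

private def t23 : Tri :=
  (.node (.node (.node (.node (.node .nil 8592032264 91 16 .nil) 8592032320 92 16 .nil) 8592032768 94 0xb000a (.node (.node .nil 8592035841 208 16 .nil) 8592035848 292 22 .nil)) 8592035904 229 22 (.node (.node (.node .nil 8592064513 238 19 .nil) 8592064576 230 16 .nil) 8592065024 131 16 (.node .nil 8592293889 241 19 .nil))) 8592293896 250 16 (.node (.node (.node (.node .nil 8592294400 147 16 .nil) 8594128897 89 16 .nil) 8594129408 94 0xa000b (.node .nil 8606715905 13 16 .nil)) 8606715968 278 16 (.node (.node (.node .nil 8606744577 281 16 .nil) 8606744584 296 16 .nil) 8606745088 155 16 (.node .nil 8606973953 69 16 .nil))))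

private def t24 : Tri :=
  (.node t22 8592032257 90 16 t23)

private def t25 : Tri :=
  (.node (.node (.node (.node (.node .nil 8606974464 303 16 .nil) 8608808961 283 16 .nil) 8608808968 298 16 (.node (.node .nil 8608809472 3 16 .nil) 8724156417 16 16 .nil)) 8724156424 295 16 (.node (.node (.node .nil 8724156480 280 16 .nil) 8724185089 282 16 .nil) 8724185096 297 16 (.node .nil 8724185600 177 16 .nil))) 8724414465 70 0x800180017 (.node (.node (.node (.node .nil 8724414472 70 0x1800080017 .nil) 8724414528 70 0x1700170008 .nil) 8726249473 288 16 (.node (.node .nil 8726249480 299 16 .nil) 8726249984 6 16 .nil)) 9663680513 18 16 (.node (.node (.node .nil 9663680520 214 16 .nil) 9663680576 227 16 .nil) 9663681024 276 16 (.node .nil 9663709185 193 16 .nil))))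

private def t26 : Tri :=
  (.node (.node (.node (.node (.node .nil 9663709248 178 16 .nil) 9663709696 179 16 .nil) 9663938561 62 16 (.node (.node .nil 9663938568 60 16 .nil) 9663938624 61 16 .nil)) 9665773569 206 16 (.node (.node (.node .nil 9665773576 217 16 .nil) 9665773632 205 16 .nil) 9665774080 8 16 (.node .nil 17179873281 19 16 .nil))) 17179873288 273 1 (.node (.node (.node (.node .nil 17179873344 228 0xa000b .nil) 17179901953 194 0xb000a .nil) 17179901960 261 21 (.node .nil 17179902464 144 16 .nil)) 17180131329 68 0xb000a (.node (.node (.node .nil 17180131336 66 1 .nil) 17180131392 67 16 .nil) 17181966337 207 0xb000a (.node .nil 17181966848 9 16 .nil))))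

private def t27 : Tri :=
  (.node t25 9663709192 215 16 t26)

private def t28 : Tri :=
  (.node t24 8606973960 44 16 t27)

private def t29 : Tri :=
  (.node t21 8590000129 221 16 t28)

private def t30 : Tri :=
  (.node t14 1074037248 258 16 t29)

private def N : Tri := t30

private def S : List (List (ℕ × ℕ × ℕ)) :=
  [[(1, 8, 8)], [(1, 8, 9)], [(1, 8, 10)], [(1, 8, 11)], [(1, 9, 9)], [(1, 9, 10)], [(1, 9, 11)], [(1, 10, 10)
  ], [(1, 10, 11)], [(1, 11, 11)], [(3, 8, 8)], [(3, 8, 9)], [(3, 8, 10)], [(3, 8, 11)], [(3, 9, 9)], [(3, 9, 10)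
  ], [(3, 9, 11)], [(3, 10, 10)], [(3, 10, 11)], [(3, 11, 11)], [(6, 4, 4)], [(6, 4, 5)], [(6, 4, 6)], [(6, 4, 7)
  ], [(6, 5, 5)], [(6, 5, 6)], [(6, 5, 7)], [(6, 6, 6)], [(6, 6, 7)], [(6, 7, 7)], [(0, 8, 8)], [(0, 2, 8)
  ], [(0, 1, 8), (0, 6, 8)], [(0, 0, 8)], [(0, 2, 9)], [(0, 6, 9), (0, 1, 9)], [(7, 6, 6)], [(0, 0, 9)
  ], [(9, 6, 0)], [(0, 9, 9)], [(7, 1, 6)], [(0, 8, 9)], [(6, 6, 8)], [(0, 8, 10)], [(0, 8, 11)], [(6, 6, 9)
  ], [(0, 9, 10)], [(3, 4, 8), (3, 0, 8)], [(3, 6, 8)], [(12, 0, 0)], [(7, 6, 8)], [(7, 0, 6), (7, 6, 9)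
  ], [(6, 1, 6), (6, 6, 10)], [(0, 10, 10)], [(6, 2, 6)], [(0, 2, 10), (0, 6, 10)], [(7, 6, 10)], [(6, 0, 6)
  ], [(0, 2, 11)], [(0, 1, 11), (0, 6, 11)], [(6, 6, 11)], [(0, 10, 11)], [(4, 6, 10)], [(0, 0, 10)], [(4, 6, 6)
  ], [(0, 0, 11)], [(4, 1, 6)], [(0, 11, 11)], [(4, 0, 6), (4, 6, 11)], [(4, 6, 8)], [(7, 6, 11), (4, 6, 9)
  , (0, 9, 11)], [(1, 1, 8)], [(1, 2, 8)], [(1, 7, 8), (1, 3, 8)], [(6, 1, 7), (6, 7, 10)], [(1, 1, 10)
  ], [(1, 3, 10), (1, 7, 10)], [(6, 7, 8)], [(6, 0, 7)], [(6, 2, 7)], [(5, 7, 10)], [(1, 0, 10)], [(1, 2, 10)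
  ], [(5, 7, 7)], [(1, 0, 8)], [(1, 1, 9)], [(1, 2, 9)], [(7, 7, 7)], [(1, 0, 9)], [(4, 7, 7)], [(1, 0, 11)
  ], [(1, 1, 11)], [(1, 2, 11)], [(1, 7, 9), (1, 3, 9)], [(1, 7, 11), (1, 3, 11)], [(3, 1, 8)], [(3, 2, 8)
  ], [(3, 4, 10), (3, 0, 10)], [(3, 2, 10)], [(3, 3, 10)], [(5, 4, 4)], [(3, 3, 8)], [(12, 2, 0)], [(0, 4, 8)
  ], [(12, 1, 0)], [(3, 1, 10)], [(6, 1, 4), (6, 4, 10)], [(6, 3, 4)], [(6, 4, 8)], [(5, 1, 4)], [(6, 2, 4)
  ], [(5, 2, 4)], [(5, 4, 10)], [(5, 3, 4), (5, 4, 8)], [(1, 4, 8)], [(1, 4, 9)], [(1, 4, 10)], [(1, 4, 11)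
  ], [(2, 2, 8)], [(2, 3, 8), (2, 5, 8)], [(1, 5, 8)], [(2, 2, 9)], [(2, 3, 9), (2, 5, 9)], [(1, 5, 9)
  ], [(6, 1, 5), (6, 5, 10)], [(8, 10, 0)], [(2, 2, 10)], [(2, 3, 10), (2, 5, 10)], [(1, 5, 10)], [(2, 2, 11)
  ], [(2, 3, 11), (2, 5, 11)], [(1, 5, 11)], [(5, 0, 6)], [(5, 1, 6)], [(0, 3, 10)], [(5, 6, 6)], [(0, 3, 8)
  ], [(6, 3, 6)], [(5, 6, 10)], [(5, 3, 6), (5, 6, 8)], [(1, 6, 8)], [(1, 6, 9)], [(1, 6, 10)], [(10, 2, 0)
  ], [(2, 11, 11)], [(10, 3, 0)], [(2, 6, 11)], [(1, 6, 11)], [(6, 2, 5)], [(5, 2, 5)], [(2, 8, 8)], [(9, 5, 0)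
  ], [(7, 2, 5)], [(2, 8, 9)], [(2, 8, 10)], [(2, 8, 11)], [(2, 9, 9)], [(6, 5, 8)], [(8, 8, 0)], [(2, 10, 10)
  ], [(6, 3, 5)], [(6, 0, 5)], [(5, 5, 10)], [(2, 0, 10)], [(5, 5, 5)], [(2, 0, 8)], [(2, 1, 8)], [(5, 1, 5)
  ], [(5, 0, 5), (5, 5, 8)], [(7, 5, 8)], [(7, 1, 5), (7, 5, 9), (7, 0, 5)], [(8, 9, 0)], [(7, 5, 5)
  ], [(2, 0, 9)], [(2, 1, 9)], [(6, 5, 9)], [(5, 5, 9), (7, 5, 10), (2, 9, 10)], [(2, 9, 11)], [(4, 2, 5)
  ], [(2, 10, 11)], [(3, 4, 9), (3, 0, 9)], [(3, 4, 11), (3, 0, 11)], [(3, 2, 9)], [(7, 4, 4)], [(3, 1, 9)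
  ], [(3, 1, 11)], [(4, 4, 4)], [(3, 2, 11)], [(3, 3, 9)], [(3, 3, 11)], [(3, 5, 8)], [(3, 5, 9)], [(3, 5, 10)
  ], [(4, 5, 10)], [(4, 0, 5), (4, 5, 11)], [(3, 5, 11)], [(3, 6, 9)], [(3, 6, 10)], [(3, 6, 11)], [(5, 1, 7)
  ], [(5, 2, 7)], [(5, 0, 7), (5, 7, 8)], [(3, 7, 8)], [(3, 7, 9)], [(3, 7, 10)], [(4, 2, 7)], [(4, 7, 10)
  ], [(4, 0, 7), (4, 7, 11)], [(3, 7, 11)], [(9, 4, 0)], [(7, 2, 4)], [(7, 4, 8)], [(7, 1, 4), (7, 4, 9)
  ], [(6, 4, 9)], [(6, 4, 11)], [(6, 5, 11)], [(6, 7, 9)], [(6, 7, 11)], [(9, 7, 0)], [(0, 3, 9)], [(0, 3, 11)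
  ], [(4, 5, 5)], [(2, 0, 11)], [(8, 11, 0)], [(2, 1, 11)], [(0, 4, 10)], [(4, 4, 6)], [(4, 4, 10)], [(4, 4, 11)
  , (4, 2, 4)], [(11, 2, 0)], [(2, 7, 11)], [(13, 2, 0)], [(4, 4, 5)], [(4, 4, 7)], [(0, 5, 10)], [(10, 0, 0)
  ], [(4, 5, 6)], [(2, 7, 10)], [(13, 0, 0)], [(4, 5, 7)], [(0, 7, 10)], [(11, 0, 0)], [(4, 6, 7)], [(7, 4, 6)
  , (0, 4, 9)], [(0, 4, 11)], [(0, 5, 8)], [(0, 5, 9)], [(0, 5, 11)], [(0, 7, 8)], [(0, 7, 9)], [(0, 7, 11)
  ], [(2, 4, 8)], [(2, 4, 9)], [(2, 4, 10)], [(13, 3, 0)], [(2, 4, 11)], [(2, 6, 8)], [(2, 6, 9)], [(2, 6, 10)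
  ], [(2, 7, 8)], [(2, 7, 9)], [(10, 1, 0)], [(12, 3, 0)], [(5, 4, 5)], [(7, 4, 5)], [(5, 4, 7)], [(7, 4, 7)
  ], [(5, 5, 6)], [(7, 5, 6)], [(5, 5, 7)], [(7, 5, 7)], [(5, 6, 7)], [(7, 6, 7)], [(4, 1, 4)], [(4, 1, 5)
  ], [(4, 1, 7)], [(4, 3, 4)], [(4, 3, 6)], [(4, 4, 8)], [(7, 4, 10)], [(4, 4, 9)], [(4, 5, 8)], [(4, 5, 9)
  ], [(4, 7, 8)], [(7, 2, 7)], [(7, 7, 8)], [(7, 1, 7), (7, 7, 9), (7, 0, 7)], [(7, 7, 10), (5, 7, 9)
  ], [(4, 7, 9)], [(5, 4, 6)], [(7, 3, 4)], [(7, 3, 6)], [(11, 1, 0)], [(11, 3, 0)], [(13, 1, 0)], [(7, 4, 11)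
  ], [(5, 5, 11)], [(7, 5, 11)], [(5, 7, 11)], [(7, 7, 11)], [(5, 4, 9)], [(5, 4, 11)], [(5, 6, 9)], [(5, 6, 11)
  ]]

private theorem h0 : chk 16 5 11 31 N (okM 12 3) (rwS L1 L2) S = true := by decide +kernel

theorem ok : (sm false 12 1 2 ∅ {(0, 1, 0), (0, 2, 0), (1, 2, 0), (1, 2, 1), (1, 2, 2), (1, 2, 3)}).OK :=
  ok_of_chk _ 12 3 rfl rfl P1 P2 T F L1 L2 (r := 344) N S (by decide +kernel) (by decide +kernel)
    (by decide +kernel) (by decide +kernel) (by decide +kernel) h0 (by decide +kernel)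
    (by decide +kernel) (by decide +kernel) (by decide +kernel) (by decide +kernel)

end Pool.Agent.KZ.AL.Ck.T433_1200_0
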