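import Pool.Agent.KZ.AL.OkC

/-! # KZ4, ALPHA: finite check T433_1200_P (generated) -/

set_option autoImplicit false
set_option maxRecDepth 100000

namespace Pool.Agent.KZ.AL.Ck.T433_1200_P

open Pool.Agent.KZ (Tri chk rwS)
open Finset (range)

/-- The positions of the T-points. -/
private def P1 : List ((ℕ × ℕ × ℕ) × List (ℕ × ℤ)) :=
  [((0, 1, 0), [(3, 1), (4, 1), (6, 1)]), ((0, 1, 1), [(2, 1), (3, 1), (5, 1)]),
   ((0, 1, 2), [(0, 1), (2, 1), (5, 1), (7, 1)]), ((0, 1, 3), [(0, 1), (5, 1), (6, 1)]),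
   ((0, 2, 0), [(3, -1), (9, 1), (11, 1)]), ((0, 2, 1), [(1, 1), (9, 1), (10, 1)]),
   ((0, 2, 2), [(1, 1), (2, 1), (8, 1)]), ((0, 2, 3), [(1, 1), (2, 3), (11, 1)])]

/-- The positions of the free items. -/
private def P2 : List ((ℕ × ℕ × ℕ) × List (ℕ × ℤ)) :=
  [((0, 1, 0), [(0, 1), (1, 1), (2, 1), (4, 4), (5, 1)]), ((0, 2, 0), [(0, 3), (1, 1), (3, 1), (9, 1)]),
   ((1, 2, 0), [(4, 1), (9, 1)]), ((1, 2, 1), [(7, 1), (9, 1), (10, 4), (11, 1)]),
   ((1, 2, 2), [(7, 1), (10, 1)]), ((1, 2, 3), [(4, 1), (8, 1), (10, 1)])]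

private def T : List (ℕ × ℕ × ℕ) :=
  [(0, 1, 0), (0, 1, 1), (0, 1, 2), (0, 1, 3), (0, 2, 0), (0, 2, 1), (0, 2, 2), (0, 2, 3)]

private def F : List (ℕ × ℕ × ℕ) :=
  [(0, 1, 0), (0, 2, 0), (1, 2, 0), (1, 2, 1), (1, 2, 2), (1, 2, 3)]

private def L1 : List (List (ℕ × ℕ)) :=
  [[(3, 1), (4, 1), (6, 1)], [(2, 1), (3, 1), (5, 1)], [(0, 1), (2, 1), (5, 1), (7, 1)],
   [(0, 1), (5, 1), (6, 1)], [(3, 30), (9, 1), (11, 1)], [(1, 1), (9, 1), (10, 1)],
   [(1, 1), (2, 1), (8, 1)], [(1, 1), (2, 3), (11, 1)]]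

private def L2 : List (List (ℕ × ℕ)) :=
  [[(0, 1), (1, 1), (2, 1), (4, 4), (5, 1)], [(0, 3), (1, 1), (3, 1), (9, 1)], [(4, 1), (9, 1)],
   [(7, 1), (9, 1), (10, 4), (11, 1)], [(7, 1), (10, 1)], [(4, 1), (8, 1), (10, 1)]]

private def t0 : Tri :=
  (.node (.node (.node (.node (.node .nil 16781321 246 22 .nil) 16781328 225 0xa000b .nil) 16781825 256 16 (.node (.node .nil 16781832 160 16 .nil) 16781888 159 16 .nil)) 16782336 4 1 (.node (.node (.node .nil 16785416 156 16 .nil) 16785920 6 16 .nil) 16810000 31 0xa000b (.node .nil 16810497 211 16 .nil))) 16810504 213 16 (.node (.node (.node (.node .nil 16810560 29 16 .nil) 16811008 30 0xa000b .nil) 16814088 157 16 (.node (.node .nil 16814592 158 16 .nil) 16842760 167 16 .nil)) 16843264 30 0xb000a (.node (.node (.node .nil 17039362 171 0xb000a .nil) 17039369 172 16 .nil) 17039376 235 0xa000b (.node .nil 17039425 173 16 .nil))))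

private def t1 : Tri :=
  (.node (.node (.node (.node (.node .nil 17039880 162 16 .nil) 17039936 161 16 .nil) 17043457 215 16 (.node (.node .nil 17043464 164 16 .nil) 17043520 165 16 .nil)) 17043968 5 16 (.node (.node (.node .nil 17072129 170 16 .nil) 17072136 168 16 .nil) 17301505 171 0xa000b (.node .nil 17301512 163 16 .nil))) 18874370 180 0xa000b (.node (.node (.node (.node .nil 18874377 177 16 .nil) 18874384 243 0xa000b .nil) 18874881 299 16 (.node .nil 18874888 248 16 .nil)) 18878465 301 16 (.node (.node (.node .nil 18878472 166 16 .nil) 18878976 207 16 .nil) 18907137 174 16 (.node .nil 18907144 169 16 .nil))))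

private def t2 : Tri :=
  (.node t0 17039873 255 16 t1)

private def t3 : Tri :=
  (.node (.node (.node (.node (.node .nil 19136513 181 16 .nil) 19136520 183 16 .nil) 19136576 182 16 (.node (.node .nil 20971521 180 0xb000a .nil) 20971528 178 1 .nil)) 20971584 179 16 (.node (.node (.node .nil 33558529 247 1 .nil) 33558536 225 0xb000a .nil) 33558592 224 1 (.node .nil 33587201 73 1 .nil))) 33587208 31 0xb000a (.node (.node (.node (.node .nil 33587264 27 1 .nil) 33587712 28 16 .nil) 33816577 74 16 (.node .nil 33816584 235 0xb000a .nil)) 33816640 234 1 (.node (.node (.node .nil 33817088 0 16 .nil) 35651585 176 16 .nil) 35651592 243 0xb000a (.node .nil 35651648 175 1 .nil))))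

private def t4 : Tri :=
  (.node (.node (.node (.node (.node .nil 134221889 302 22 .nil) 134222337 257 16 .nil) 134222400 266 15 (.node (.node .nil 134222848 21 1 .nil) 134225921 203 21 .nil)) 134225928 134 21 (.node (.node (.node .nil 134225984 204 21 .nil) 134226432 19 21 .nil) 134250505 80 19 (.node .nil 134250624 50 0xb000a .nil))) 134251009 79 16 (.node (.node (.node (.node .nil 134251016 39 16 .nil) 134251072 49 16 .nil) 134251520 47 1 (.node .nil 134254600 136 16 .nil)) 134254656 272 16 (.node (.node (.node .nil 134255104 45 15 .nil) 134283272 38 16 .nil) 134283328 50 0xa000b (.node .nil 134283776 48 15 .nil))))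

private def t5 : Tri :=
  (.node t3 134221833 282 19 t4)

private def t6 : Tri :=
  (.node t2 18907648 273 16 t5)

private def t7 : Tri :=
  (.node (.node (.node (.node (.node .nil 134479881 144 19 .nil) 134479937 276 16 .nil) 134480385 143 16 (.node (.node .nil 134480448 267 16 .nil) 134483969 216 16 .nil)) 134483976 138 16 (.node (.node (.node .nil 134484032 268 16 .nil) 134484480 22 16 .nil) 134512641 141 16 (.node .nil 134512648 145 16 .nil))) 134513152 46 15 (.node (.node (.node (.node .nil 134742017 142 0xa000b .nil) 134742024 137 16 .nil) 134742528 131 16 (.node .nil 136314882 118 0xb000a .nil)) 136314889 152 19 (.node (.node (.node .nil 136314945 116 16 .nil) 136314952 103 26 .nil) 136315393 147 16 (.node .nil 136315400 151 15 .nil))))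

private def t8 : Tri :=
  (.node (.node (.node (.node (.node .nil 136318977 303 16 .nil) 136318984 140 16 .nil) 136319488 97 16 (.node (.node .nil 136347649 117 16 .nil) 136347656 153 16 .nil)) 136347712 102 16 (.node (.node (.node .nil 136348160 101 15 .nil) 136577025 221 16 .nil) 136577032 155 16 (.node .nil 136577088 306 16 .nil))) 136577536 96 15 (.node (.node (.node (.node .nil 138412033 118 0xa000b .nil) 138412040 108 16 .nil) 138412096 115 21 (.node .nil 138412544 133 15 .nil)) 150999048 229 16 (.node (.node (.node .nil 150999104 291 16 .nil) 150999552 2 16 .nil) 151027720 58 16 (.node .nil 151027776 37 16 .nil))))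

private def t9 : Tri :=
  (.node t7 136315456 95 15 t8)

private def t10 : Tri :=
  (.node (.node (.node (.node (.node .nil 151257089 75 16 .nil) 151257096 236 16 .nil) 151257152 293 16 (.node (.node .nil 151257600 1 15 .nil) 153092097 251 16 .nil)) 153092104 245 16 (.node (.node (.node .nil 153092160 250 16 .nil) 153092608 223 15 .nil) 268468232 55 1 (.node .nil 268468288 63 16 .nil))) 268468736 62 15 (.node (.node (.node (.node .nil 268697601 78 16 .nil) 268697664 281 1 .nil) 268698112 15 16 (.node .nil 270532672 94 16 .nil)) 1073745929 283 22 (.node (.node (.node .nil 1073745936 227 0xa000b .nil) 1073746433 259 16 .nil) 1073746440 263 16 (.node .nil 1073746496 269 16 .nil))))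

private def t11 : Tri :=
  (.node (.node (.node (.node (.node .nil 1073750024 135 16 .nil) 1073750528 12 16 .nil) 1073774608 57 0xa000b (.node (.node .nil 1073775105 212 16 .nil) 1073775112 214 16 .nil)) 1073775168 64 16 (.node (.node (.node .nil 1073775616 65 0xa000b .nil) 1073779200 206 16 .nil) 1073807872 65 0xb000a (.node .nil 1074003970 220 0xa000b .nil))) 1074003977 275 16 (.node (.node (.node (.node .nil 1074003984 238 0xa000b .nil) 1074004033 277 16 .nil) 1074004481 258 16 (.node .nil 1074004488 264 16 .nil)) 1074004544 270 16 (.node (.node (.node .nil 1074008065 217 16 .nil) 1074008072 139 16 .nil) 1074008128 271 16 (.node .nil 1074008576 11 16 .nil))))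

private def t12 : Tri :=
  (.node t10 1073746944 10 1 t11)

private def t13 : Tri :=
  (.node t9 151028224 36 15 t12)

private def t14 : Tri :=
  (.node t6 134479874 142 0xb000a t13)

private def t15 : Tri :=
  (.node (.node (.node (.node (.node .nil 1074036744 146 16 .nil) 1074266113 220 0xb000a .nil) 1075838978 84 0xb000a (.node (.node .nil 1075838985 285 16 .nil) 1075838992 106 0xa000b .nil)) 1075839041 82 16 (.node (.node (.node .nil 1075839489 300 16 .nil) 1075839496 290 16 .nil) 1075839552 274 16 (.node .nil 1075840000 209 1 .nil))) 1075843073 304 16 (.node (.node (.node (.node .nil 1075843584 210 16 .nil) 1075871745 83 16 .nil) 1075871752 154 16 (.node .nil 1076101121 222 16 .nil)) 1076101184 307 16 (.node (.node (.node .nil 1077936129 84 0xa000b .nil) 1077936136 107 21 .nil) 1077936192 81 21 (.node .nil 1077936640 205 21 .nil))))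

private def t16 : Tri :=
  (.node (.node (.node (.node (.node .nil 1090523144 228 26 .nil) 1090523200 286 16 .nil) 1090523648 13 26 (.node (.node .nil 1090551816 59 16 .nil) 1090551872 60 16 .nil)) 1090552320 61 16 (.node (.node (.node .nil 1090781185 76 16 .nil) 1090781248 294 16 .nil) 1090781696 14 16 (.node .nil 1092616193 252 16 .nil))) 1092616200 244 16 (.node (.node (.node (.node .nil 1207963649 284 16 .nil) 1207963656 226 16 .nil) 1207963712 288 16 (.node .nil 1207964160 7 16 .nil)) 1207992321 87 16 (.node (.node (.node .nil 1207992328 56 16 .nil) 1207992384 70 16 .nil) 1207992832 69 15 (.node .nil 1208221697 88 16 .nil))))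

private def t17 : Tri :=
  (.node t15 1090523137 298 26 t16)

private def t18 : Tri :=
  (.node (.node (.node (.node (.node .nil 1208221760 289 16 .nil) 1210056705 119 16 .nil) 1210056712 105 16 (.node (.node .nil 1210056768 104 16 .nil) 2147487752 227 0xb000a .nil)) 2147487808 287 21 (.node (.node (.node .nil 2147516417 86 16 .nil) 2147516424 57 0xb000a .nil) 2147516480 71 1 (.node .nil 2147516928 72 16 .nil))) 2147745793 93 16 (.node (.node (.node (.node .nil 2147745800 238 0xb000a .nil) 2147746304 18 16 .nil) 2149580801 85 21 (.node .nil 2149580808 106 0xb000a .nil)) 8589938697 249 16 (.node (.node (.node .nil 8589938704 231 0xa000b .nil) 8589939201 262 16 .nil) 8589939208 187 16 (.node .nil 8589939264 186 16 .nil))))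

private def t19 : Tri :=
  (.node (.node (.node (.node (.node .nil 8589942785 260 11 .nil) 8589942792 184 16 .nil) 8589943296 20 15 (.node (.node .nil 8589967369 120 16 .nil) 8589967376 33 0xa000b .nil)) 8589967873 89 16 (.node (.node (.node .nil 8589967880 41 16 .nil) 8589967936 42 16 .nil) 8589968384 43 0xa000b (.node .nil 8589971464 185 16 .nil))) 8589971968 44 16 (.node (.node (.node (.node .nil 8590000136 40 16 .nil) 8590000640 43 0xb000a .nil) 8590196738 197 0xb000a (.node .nil 8590196745 198 16 .nil)) 8590196752 240 0xa000b (.node (.node (.node .nil 8590196801 199 26 .nil) 8590197249 261 16 .nil) 8590197256 190 16 (.node .nil 8590197312 189 16 .nil))))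

private def t20 : Tri :=
  (.node t18 8589939712 24 1 t19)

private def t21 : Tri :=
  (.node t17 1208221704 237 16 t20)

private def t22 : Tri :=
  (.node (.node (.node (.node (.node .nil 8590200833 218 16 .nil) 8590200840 192 16 .nil) 8590200896 193 26 (.node (.node .nil 8590201344 23 15 .nil) 8590229505 196 16 .nil)) 8590229512 195 16 (.node (.node (.node .nil 8590458881 197 0xa000b .nil) 8590458888 191 16 .nil) 8590459392 132 15 (.node .nil 8592031746 125 0xa000b .nil))) 8592031753 122 16 (.node (.node (.node (.node .nil 8592031760 110 0xa000b .nil) 8592031809 123 26 .nil) 8592031816 109 16 (.node .nil 8592032257 279 15 .nil)) 8592032264 150 16 (.node (.node (.node .nil 8592032768 99 1 .nil) 8592035841 305 16 .nil) 8592035848 194 16 (.node .nil 8592036352 98 15 .nil))))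

private def t23 : Tri :=
  (.node (.node (.node (.node (.node .nil 8592064520 121 16 .nil) 8592065024 100 16 .nil) 8592293889 200 16 (.node (.node .nil 8592293896 202 16 .nil) 8592293952 201 16 .nil)) 8594128897 125 0xb000a (.node (.node (.node .nil 8594128904 112 21 .nil) 8594128960 113 26 .nil) 8606715912 292 0x180017 (.node .nil 8606715968 292 0x170008 .nil))) 8606716416 3 16 (.node (.node (.node (.node .nil 8606744584 34 0x170018 .nil) 8606744640 34 0x80017 .nil) 8606745088 35 16 (.node .nil 8606973953 77 16 .nil)) 8606973960 295 0x180017 (.node (.node (.node .nil 8606974016 295 0x170008 .nil) 8608808961 254 16 .nil) 8608808968 253 0x170018 (.node .nil 8608809024 253 0x80017 .nil))))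

private def t24 : Tri :=
  (.node t22 8592064513 124 16 t23)

private def t25 : Tri :=
  (.node (.node (.node (.node (.node .nil 8724156424 232 16 .nil) 8724156480 265 26 .nil) 8724156928 17 16 (.node (.node .nil 8724185089 91 16 .nil) 8724185096 54 16 .nil)) 8724185152 53 16 (.node (.node (.node .nil 8724185600 52 15 .nil) 8724414465 92 16 .nil) 8724414472 241 16 (.node .nil 8724414528 280 26 .nil))) 8724414976 16 15 (.node (.node (.node (.node .nil 8726249473 126 16 .nil) 8726249984 148 15 .nil) 9663680520 233 16 (.node .nil 9663680576 296 26 .nil)) 9663681024 9 16 (.node (.node (.node .nil 9663709185 128 16 .nil) 9663709192 66 16 .nil) 9663709248 67 26 (.node .nil 9663709696 68 16 .nil))))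

private def t26 : Tri :=
  (.node (.node (.node (.node (.node .nil 9663938568 242 16 .nil) 9663938624 297 26 .nil) 9663939072 8 15 (.node (.node .nil 9665773569 127 22 .nil) 9665773576 111 16 .nil)) 9665773632 114 26 (.node (.node (.node .nil 9665774080 208 22 .nil) 17179873288 231 0xb000a .nil) 17179873344 230 1 (.node .nil 17179873792 25 15 .nil))) 17179901953 90 16 (.node (.node (.node (.node .nil 17179901960 33 0xb000a .nil) 17179902016 32 1 .nil) 17179902464 51 16 (.node .nil 17180131329 130 16 .nil)) 17180131336 240 0xb000a (.node (.node (.node .nil 17180131392 239 1 .nil) 17180131840 26 16 .nil) 17181966344 110 0xb000a (.node .nil 17181966848 149 15 .nil))))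

private def t27 : Tri :=
  (.node t25 9663938561 129 16 t26)

private def t28 : Tri :=
  (.node t24 8724156417 278 16 t27)

private def t29 : Tri :=
  (.node t21 8590197760 188 1 t28)

private def t30 : Tri :=
  (.node t14 1074036737 219 16 t29)

private def N : Tri := t30

private def S : List (List (ℕ × ℕ × ℕ)) :=
  [[(0, 8, 8)], [(4, 6, 8)], [(0, 8, 9)], [(0, 8, 11)], [(4, 4, 8)], [(0, 6, 8)], [(0, 4, 8)], [(0, 9, 10)
  ], [(4, 6, 10)], [(0, 10, 11)], [(4, 4, 10)], [(0, 6, 10)], [(0, 4, 10)], [(13, 3, 0)], [(0, 8, 10)], [(0, 9, 9)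
  ], [(4, 6, 9)], [(0, 9, 11)], [(0, 10, 10)], [(10, 3, 0)], [(4, 4, 4)], [(4, 4, 9)], [(0, 4, 9)], [(4, 4, 6)
  ], [(0, 4, 11)], [(4, 4, 11)], [(0, 11, 11)], [(6, 2, 5)], [(1, 8, 8)], [(1, 2, 8)], [(1, 3, 8), (1, 5, 8)
  ], [(6, 1, 5), (6, 5, 8)], [(7, 2, 5)], [(7, 1, 5), (7, 5, 11)], [(6, 5, 11), (7, 5, 8)], [(1, 8, 11)
  ], [(4, 5, 8)], [(1, 8, 9)], [(5, 5, 5)], [(1, 1, 9)], [(7, 5, 5)], [(1, 1, 11)], [(1, 2, 11)], [(1, 3, 11)
  , (1, 5, 11)], [(0, 5, 11)], [(4, 4, 5)], [(4, 5, 6)], [(0, 5, 9)], [(4, 5, 5)], [(1, 3, 9)], [(1, 5, 9)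
  , (1, 2, 9)], [(1, 11, 11)], [(4, 5, 11)], [(1, 9, 11)], [(7, 5, 9)], [(4, 1, 5)], [(5, 5, 9)], [(5, 1, 5)
  , (5, 5, 10)], [(6, 5, 9)], [(5, 5, 8)], [(6, 5, 10)], [(1, 8, 10)], [(4, 5, 9)], [(1, 9, 9)], [(1, 2, 10)
  ], [(1, 3, 10), (1, 5, 10)], [(5, 5, 11)], [(7, 5, 10)], [(1, 10, 11)], [(4, 5, 10)], [(1, 9, 10)], [(5, 2, 5)
  ], [(1, 10, 10)], [(6, 0, 5)], [(3, 8, 8)], [(3, 8, 9)], [(3, 8, 10)], [(3, 8, 11)], [(3, 9, 9)], [(1, 0, 9)
  ], [(9, 5, 0)], [(12, 2, 0)], [(2, 2, 10)], [(2, 5, 10)], [(2, 7, 10), (2, 0, 10)], [(12, 0, 0)], [(2, 10, 10)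
  ], [(5, 0, 5)], [(3, 9, 10)], [(1, 0, 11)], [(2, 11, 11)], [(4, 0, 5)], [(3, 9, 11)], [(3, 10, 10)], [(2, 9, 9)
  ], [(4, 2, 7)], [(4, 6, 7)], [(0, 7, 9)], [(4, 4, 7)], [(0, 7, 11)], [(1, 7, 11)], [(4, 5, 7)], [(1, 7, 9)
  ], [(7, 7, 9)], [(5, 2, 7)], [(5, 7, 9)], [(5, 1, 7), (5, 7, 10)], [(12, 1, 0)], [(5, 7, 7)], [(7, 2, 7)
  ], [(7, 1, 7), (7, 7, 11)], [(5, 7, 11)], [(11, 1, 0)], [(7, 7, 7)], [(7, 7, 10)], [(11, 2, 0)], [(2, 2, 9)
  ], [(2, 5, 9)], [(2, 7, 9), (2, 0, 9)], [(2, 9, 10)], [(7, 0, 5)], [(7, 5, 7)], [(2, 1, 11)], [(7, 0, 7)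
  ], [(2, 5, 11)], [(2, 0, 11), (2, 7, 11)], [(2, 9, 11)], [(11, 0, 0)], [(2, 10, 11)], [(3, 10, 11)], [(3, 11, 11)
  ], [(0, 6, 9)], [(4, 6, 6)], [(4, 7, 7)], [(10, 1, 0)], [(5, 4, 4)], [(5, 4, 5)], [(5, 6, 6)], [(0, 1, 9)
  ], [(5, 4, 6)], [(5, 4, 7)], [(3, 5, 9)], [(3, 6, 9), (3, 0, 9)], [(3, 3, 9)], [(9, 6, 0)], [(3, 1, 9)
  ], [(5, 5, 6)], [(2, 3, 9)], [(4, 7, 9)], [(4, 7, 11)], [(7, 3, 7)], [(4, 1, 7)], [(9, 7, 0)], [(2, 1, 9)
  ], [(5, 5, 7)], [(5, 6, 7)], [(6, 4, 4)], [(6, 4, 5)], [(0, 5, 8)], [(1, 4, 8)], [(6, 3, 4)], [(1, 6, 8)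
  ], [(6, 3, 6)], [(6, 6, 6)], [(0, 1, 8)], [(6, 4, 6)], [(6, 4, 7)], [(6, 5, 5)], [(6, 5, 6)], [(6, 5, 7)
  ], [(3, 5, 8)], [(3, 6, 8), (3, 0, 8)], [(3, 1, 8)], [(6, 0, 6)], [(2, 5, 8)], [(6, 2, 7)], [(2, 8, 8)
  ], [(6, 0, 7)], [(2, 1, 8)], [(6, 7, 7)], [(2, 0, 8), (2, 7, 8)], [(3, 7, 8)], [(2, 6, 8)], [(6, 6, 7)
  ], [(7, 4, 4)], [(7, 4, 5)], [(1, 4, 11)], [(7, 3, 4)], [(0, 6, 11)], [(1, 6, 11)], [(7, 3, 6)], [(7, 6, 6)
  ], [(0, 1, 11)], [(7, 4, 6)], [(7, 4, 7)], [(7, 5, 6)], [(3, 5, 11)], [(3, 6, 11), (3, 0, 11)], [(3, 1, 11)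
  ], [(7, 0, 6)], [(3, 7, 11)], [(2, 6, 11)], [(7, 6, 7)], [(10, 0, 0)], [(10, 2, 0)], [(12, 3, 0)], [(0, 5, 10)
  ], [(0, 7, 8)], [(11, 3, 0)], [(4, 7, 10)], [(0, 7, 10)], [(1, 0, 8)], [(1, 0, 10)], [(1, 1, 8)], [(1, 1, 10)
  ], [(3, 4, 8)], [(3, 4, 9)], [(3, 4, 10)], [(3, 4, 11)], [(3, 5, 10)], [(3, 0, 10), (3, 6, 10)], [(3, 7, 9)
  ], [(3, 7, 10)], [(4, 7, 8)], [(6, 2, 4)], [(6, 1, 4), (6, 4, 8)], [(5, 4, 9)], [(5, 1, 4), (5, 4, 10)
  ], [(13, 1, 0)], [(5, 4, 8)], [(7, 2, 4)], [(7, 1, 4), (7, 4, 11)], [(4, 1, 4)], [(5, 4, 11)], [(6, 2, 6)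
  ], [(6, 1, 6), (6, 6, 8)], [(5, 6, 8)], [(5, 6, 9)], [(5, 1, 6), (5, 6, 10)], [(7, 2, 6)], [(7, 1, 6)
  , (7, 6, 11)], [(4, 1, 6)], [(5, 6, 11)], [(6, 1, 7), (6, 7, 8)], [(6, 7, 10)], [(5, 7, 8)], [(8, 8, 0)
  ], [(6, 0, 4)], [(6, 3, 7)], [(7, 0, 4)], [(6, 7, 9)], [(2, 8, 9)], [(2, 8, 10)], [(6, 7, 11), (7, 7, 8)
  ], [(2, 8, 11)], [(3, 3, 8)], [(0, 0, 8)], [(0, 0, 9)], [(3, 3, 10)], [(0, 0, 10)], [(8, 11, 0)], [(3, 3, 11)
  ], [(0, 0, 11)], [(5, 3, 4)], [(0, 1, 10)], [(7, 4, 9)], [(4, 2, 4)], [(1, 6, 9)], [(0, 2, 9)], [(1, 4, 10)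
  ], [(1, 6, 10)], [(0, 2, 10)], [(1, 4, 9)], [(1, 7, 8)], [(1, 7, 10)], [(3, 1, 10)], [(3, 2, 9)], [(3, 2, 10)
  ], [(4, 0, 4)], [(4, 0, 7)], [(7, 6, 9)], [(4, 2, 6)], [(9, 4, 0)], [(8, 10, 0)], [(5, 0, 4)], [(5, 0, 7)
  ], [(6, 4, 10)], [(13, 2, 0)], [(5, 2, 4)], [(5, 2, 6)], [(5, 3, 7)], [(6, 4, 9)], [(7, 4, 8), (6, 4, 11)
  ], [(6, 6, 9)], [(6, 6, 10)], [(7, 6, 8), (6, 6, 11)], [(7, 4, 10)], [(7, 6, 10)], [(13, 0, 0)], [(2, 3, 8)
  ], [(2, 3, 10)], [(2, 4, 8)], [(8, 9, 0)], [(2, 4, 9)], [(2, 4, 10)], [(2, 4, 11)], [(2, 6, 9)], [(2, 6, 10)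
  ]]

private theorem h0 : chk 16 5 11 31 N (okM 12 3) (rwS L1 L2) S = true := by decide +kernel

theorem ok : (sm false 12 1 2 {(0, {1, 2}, 0)} {(0, 1, 0), (0, 2, 0), (1, 2, 0), (1, 2, 1), (1, 2, 2), (1, 2, 3)}).OK :=
  ok_of_chk _ 12 3 rfl rfl P1 P2 T F L1 L2 (r := 336) N S (by decide +kernel) (by decide +kernel)
    (by decide +kernel) (by decide +kernel) (by decide +kernel) h0 (by decide +kernel)
    (by decide +kernel) (by decide +kernel) (by decide +kernel) (by decide +kernel)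

end Pool.Agent.KZ.AL.Ck.T433_1200_P
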