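import Pool.Agent.KZ.AL.OkC

/-! # KZ4, ALPHA: finite check T433_1201_0 (generated) -/

set_option autoImplicit false
set_option maxRecDepth 100000

namespace Pool.Agent.KZ.AL.Ck.T433_1201_0

open Pool.Agent.KZ (Tri chk rwS)
open Finset (range)

/-- The positions of the T-points. -/
private def P1 : List ((ℕ × ℕ × ℕ) × List (ℕ × ℤ)) :=
  [((0, 1, 0), [(1, 1), (5, 4), (7, 2)]), ((0, 1, 1), [(0, 1), (1, 1), (2, 4), (5, 1), (6, 1), (7, 1)]),
   ((0, 1, 2), [(3, 1), (5, 1), (6, 3)]), ((0, 1, 3), [(3, 1), (7, 4)]),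
   ((0, 2, 0), [(0, 1), (8, 1), (10, 1)]), ((0, 2, 1), [(0, 1), (9, 4)]),
   ((0, 2, 2), [(2, 4), (10, 1), (11, 2)]), ((0, 2, 3), [(2, 2), (3, 2), (10, 1)])]

/-- The positions of the free items. -/
private def P2 : List ((ℕ × ℕ × ℕ) × List (ℕ × ℤ)) :=
  []

private def T : List (ℕ × ℕ × ℕ) :=
  [(0, 1, 0), (0, 1, 1), (0, 1, 2), (0, 1, 3), (0, 2, 0), (0, 2, 1), (0, 2, 2), (0, 2, 3)]

private def F : List (ℕ × ℕ × ℕ) :=
  []

private def L1 : List (List (ℕ × ℕ)) :=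
  [[(1, 1), (5, 4), (7, 2)], [(0, 1), (1, 1), (2, 4), (5, 1), (6, 1), (7, 1)], [(3, 1), (5, 1), (6, 3)],
   [(3, 1), (7, 4)], [(0, 1), (8, 1), (10, 1)], [(0, 1), (9, 4)],
   [(2, 4), (10, 1), (11, 2)], [(2, 2), (3, 2), (10, 1)]]

private def L2 : List (List (ℕ × ℕ)) :=
  []

private def t0 : Tri :=
  (.node (.node (.node (.node (.node .nil 68736258049 17 16 .nil) 68736286721 18 16 .nil) 68736286728 8 4 (.node .nil 68736286784 28 4 .nil)) 68736287232 12 16 (.node (.node .nil 68736516097 19 16 .nil) 68738351105 20 16 (.node .nil 68738351616 0 4 .nil))) 68853698561 4 4 (.node (.node (.node .nil 68853727233 5 4 .nil) 68853727240 9 4 (.node .nil 68853727296 29 4 .nil)) 68853727744 13 16 (.node (.node .nil 68853956609 6 4 .nil) 68855791617 7 4 (.node .nil 68855792128 1 4 .nil))))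

private def t1 : Tri :=
  (.node (.node (.node (.node .nil 69793251336 10 4 .nil) 69793251392 22 8 (.node .nil 69793251840 15 16 .nil)) 69793480712 30 16 (.node (.node .nil 69793481216 14 8 .nil) 69795315776 25 8 (.node .nil 69795316224 2 4 .nil))) 77309415488 21 2 (.node (.node (.node .nil 77309444097 31 16 .nil) 77309444104 11 4 (.node .nil 77309444160 23 2 .nil)) 77309444608 16 16 (.node (.node .nil 77309673536 24 2 .nil) 77311508544 26 2 (.node .nil 77311508992 3 4 .nil))))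

private def t2 : Tri :=
  (.node t0 69793223168 27 8 t1)

private def N : Tri := t2

private def S : List (List (ℕ × ℕ × ℕ)) :=
  [[(3, 8, 12)], [(3, 9, 12)], [(3, 10, 12)], [(3, 11, 12)], [(5, 4, 12)], [(5, 5, 12)], [(5, 6, 12)], [(5, 7, 12)
  ], [(0, 8, 12)], [(0, 9, 12)], [(0, 10, 12)], [(0, 11, 12)], [(2, 8, 12)], [(2, 9, 12)], [(7, 6, 12)], [(2, 10, 12)
  ], [(2, 11, 12)], [(4, 4, 12)], [(4, 5, 12)], [(4, 6, 12)], [(4, 7, 12)], [(6, 4, 12)], [(7, 5, 12)], [(6, 5, 12)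
  ], [(6, 6, 12)], [(7, 7, 12)], [(6, 7, 12)], [(7, 4, 12)], [(1, 8, 12)], [(1, 9, 12)], [(1, 10, 12)], [(1, 11, 12)
  ]]

private theorem h0 : chk 13 5 8 31 N (okM 13 4) (rwS L1 L2) S = true := by decide +kernel

theorem ok : (sm false 13 1 2 ∅ ∅).OK :=
  ok_of_chk _ 13 4 rfl rfl P1 P2 T F L1 L2 (r := 32) N S (by decide +kernel) (by decide +kernel)
    (by decide +kernel) (by decide +kernel) (by decide +kernel) h0 (by decide +kernel)
    (by decide +kernel) (by decide +kernel) (by decide +kernel) (by decide +kernel)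

end Pool.Agent.KZ.AL.Ck.T433_1201_0
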