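import Pool.Agent.KZ.AL.OkC

/-! # KZ4, ALPHA: finite check T433_1210_0 (generated) -/

set_option autoImplicit false
set_option maxRecDepth 100000

namespace Pool.Agent.KZ.AL.Ck.T433_1210_0

open Pool.Agent.KZ (Tri chk rwS)
open Finset (range)

/-- The positions of the T-points. -/
private def P1 : List ((ℕ × ℕ × ℕ) × List (ℕ × ℤ)) :=
  [((0, 1, 0), [(2, 1), (7, 1)]), ((0, 1, 1), [(2, 1), (4, 1), (7, 1)]),
   ((0, 1, 2), [(1, 1), (3, 1), (4, 1), (5, 1)]), ((0, 1, 3), [(1, 1), (3, 1), (6, 1), (7, 1)]),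
   ((0, 2, 0), [(3, 1), (9, 1)]), ((0, 2, 1), [(3, 1), (8, 1), (9, 3), (10, 1)]),
   ((0, 2, 2), [(0, 1), (10, 1), (11, 1)]), ((0, 2, 3), [(0, 1), (2, 1), (9, 1), (11, 1)]),
   ((0, 3, 0), [(0, 3), (3, 1), (14, 1)]), ((0, 3, 1), [(1, 1), (2, 1), (12, 1)]),
   ((0, 3, 2), [(0, 1), (1, 1), (2, 1), (3, 4), (13, 1)]), ((1, 3, 0), [(6, 1), (12, 1), (13, 4), (14, 1)]),
   ((1, 3, 1), [(5, 1), (12, 1), (13, 1)]), ((1, 3, 2), [(5, 1), (7, 1), (13, 1), (14, 1)]),
   ((2, 3, 0), [(10, 1), (11, 4), (13, 3), (15, 1)]), ((2, 3, 1), [(8, 1), (9, 1), (15, 1)]),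
   ((2, 3, 2), [(8, 1), (12, 1), (15, 1)])]

/-- The positions of the free items. -/
private def P2 : List ((ℕ × ℕ × ℕ) × List (ℕ × ℤ)) :=
  []

private def T : List (ℕ × ℕ × ℕ) :=
  [(0, 1, 0), (0, 1, 1), (0, 1, 2), (0, 1, 3), (0, 2, 0), (0, 2, 1), (0, 2, 2), (0, 2, 3),
   (0, 3, 0), (0, 3, 1), (0, 3, 2), (1, 3, 0), (1, 3, 1), (1, 3, 2), (2, 3, 0), (2, 3, 1),
   (2, 3, 2)]

private def F : List (ℕ × ℕ × ℕ) :=
  []

private def L1 : List (List (ℕ × ℕ)) :=
  [[(2, 1), (7, 1)], [(2, 1), (4, 1), (7, 1)], [(1, 1), (3, 1), (4, 1), (5, 1)],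
   [(1, 1), (3, 1), (6, 1), (7, 1)], [(3, 1), (9, 1)], [(3, 1), (8, 1), (9, 3), (10, 1)],
   [(0, 1), (10, 1), (11, 1)], [(0, 1), (2, 1), (9, 1), (11, 1)], [(0, 3), (3, 1), (14, 1)],
   [(1, 1), (2, 1), (12, 1)], [(0, 1), (1, 1), (2, 1), (3, 4), (13, 1)], [(6, 1), (12, 1), (13, 4), (14, 1)],
   [(5, 1), (12, 1), (13, 1)], [(5, 1), (7, 1), (13, 1), (14, 1)], [(10, 1), (11, 4), (13, 3), (15, 1)],
   [(8, 1), (9, 1), (15, 1)], [(8, 1), (12, 1), (15, 1)]]

private def L2 : List (List (ℕ × ℕ)) :=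
  []

private def t0 : Tri :=
  (.node (.node (.node (.node .nil 68736258049 173 16 .nil) 68736258056 117 16 (.node .nil 68736258112 32 16 .nil)) 68736258560 62 16 (.node (.node .nil 68736286721 148 16 .nil) 68736286728 119 16 (.node .nil 68736286784 120 16 .nil))) 68736287232 65 16 (.node (.node (.node .nil 68736516097 174 16 .nil) 68736516104 127 16 (.node .nil 68736516160 128 16 .nil)) 68736516608 91 16 (.node (.node .nil 68738351105 175 16 .nil) 68738351112 124 16 (.node .nil 68738351168 0 16 .nil))))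

private def t1 : Tri :=
  (.node (.node (.node (.node .nil 68853698561 231 16 .nil) 68853698568 49 16 (.node .nil 68853698624 36 16 .nil)) 68853699072 16 16 (.node (.node .nil 68853727233 121 16 .nil) 68853727240 50 16 (.node .nil 68853727296 76 16 .nil))) 68853727744 20 16 (.node (.node (.node .nil 68853956609 140 16 .nil) 68853956616 130 16 (.node .nil 68853956672 131 16 .nil)) 68853957120 24 16 (.node (.node .nil 68855791617 235 16 .nil) 68855791624 129 16 (.node .nil 68855791680 4 16 .nil))))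

private def t2 : Tri :=
  (.node t0 68738351616 126 16 t1)

private def t3 : Tri :=
  (.node (.node (.node (.node .nil 69793222657 48 16 .nil) 69793222664 60 16 (.node .nil 69793222720 40 16 .nil)) 69793223168 63 16 (.node (.node .nil 69793251329 73 16 .nil) 69793251336 67 16 (.node .nil 69793251392 69 16 .nil))) 69793251840 66 16 (.node (.node (.node .nil 69793480705 96 16 .nil) 69793480712 135 16 (.node .nil 69793480768 136 16 .nil)) 69793481216 132 16 (.node (.node .nil 69795315713 100 16 .nil) 69795315720 133 16 (.node .nil 69795315776 8 16 .nil))))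

private def t4 : Tri :=
  (.node (.node (.node (.node .nil 77309415432 118 16 .nil) 77309415488 44 16 (.node .nil 77309415936 217 16 .nil)) 77309444097 74 16 (.node (.node .nil 77309444104 123 16 .nil) 77309444160 122 16 (.node .nil 77309444608 152 16 .nil))) 77309673473 97 16 (.node (.node (.node .nil 77309673480 142 16 .nil) 77309673536 141 16 (.node .nil 77309673984 204 16 .nil)) 77311508488 143 16 (.node (.node .nil 77311508544 12 16 .nil) 77311508992 227 16 .nil)))

private def t5 : Tri :=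
  (.node t3 69795316224 134 16 t4)

private def t6 : Tri :=
  (.node t2 68855792128 28 16 t5)

private def t7 : Tri :=
  (.node (.node (.node (.node .nil 549772595208 205 16 .nil) 549772595264 33 16 (.node .nil 549772595712 177 16 .nil)) 549772623873 147 16 (.node (.node .nil 549772623880 144 16 .nil) 549772623936 145 16 (.node .nil 549772624384 146 16 .nil))) 549772853249 184 4 (.node (.node (.node .nil 549772853256 187 16 .nil) 549772853312 198 16 (.node .nil 549772853760 92 16 .nil)) 549774688257 185 16 (.node (.node .nil 549774688264 186 16 .nil) 549774688320 1 16 (.node .nil 549774688768 181 16 .nil))))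

private def t8 : Tri :=
  (.node (.node (.node (.node .nil 549890035720 52 16 .nil) 549890035776 37 16 (.node .nil 549890036224 17 16 .nil)) 549890064385 78 16 (.node (.node .nil 549890064392 51 16 .nil) 549890064448 77 16 (.node .nil 549890064896 21 16 .nil))) 549890293761 139 16 (.node (.node (.node .nil 549890293768 138 16 .nil) 549890294272 25 16 (.node .nil 549892128769 81 16 .nil)) 549892128776 137 16 (.node (.node .nil 549892128832 5 16 .nil) 549892129280 29 16 .nil)))

private def t9 : Tri :=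
  (.node t7 549890035713 53 16 t8)

private def t10 : Tri :=
  (.node (.node (.node (.node .nil 550829559816 176 0x16005 .nil) 550829559872 41 16 (.node .nil 550829560320 176 40986 .nil)) 550829588481 72 16 (.node (.node .nil 550829588488 68 16 .nil) 550829588544 70 16 (.node .nil 550829588992 71 16 .nil))) 550829817857 89 16 (.node (.node (.node .nil 550829817864 191 16 .nil) 550829817920 201 16 (.node .nil 550831652865 83 16 .nil)) 550831652872 190 16 (.node (.node .nil 550831652928 9 16 .nil) 550831653376 182 16 (.node .nil 558345752577 54 16 .nil))))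

private def t11 : Tri :=
  (.node (.node (.node (.node .nil 558345752640 45 16 .nil) 558345753088 218 40986 (.node .nil 558345781249 75 16 .nil)) 558345781256 149 16 (.node (.node .nil 558345781312 150 16 .nil) 558345781760 151 4 (.node .nil 558346010632 196 0x16005 .nil))) 558346010688 193 16 (.node (.node (.node .nil 558346011136 196 40986 .nil) 558347845633 82 16 (.node .nil 558347845640 195 16 .nil)) 558347845696 13 16 (.node (.node .nil 558347846144 194 16 .nil) 4398063292417 104 26 .nil)))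

private def t12 : Tri :=
  (.node t10 558345752584 218 0x16005 t11)

private def t13 : Tri :=
  (.node t9 550829559809 55 16 t12)

private def t14 : Tri :=
  (.node t6 549772595201 236 16 t13)

private def t15 : Tri :=
  (.node (.node (.node (.node .nil 4398063292480 34 16 .nil) 4398063292928 103 16 (.node .nil 4398063321089 108 26 .nil)) 4398063321096 207 16 (.node (.node .nil 4398063321152 237 16 .nil) 4398063321600 107 16 (.node .nil 4398063550465 110 26 .nil))) 4398063550472 188 16 (.node (.node (.node .nil 4398063550528 199 16 .nil) 4398063550976 93 16 (.node .nil 4398065385473 115 26 .nil)) 4398065385480 206 16 (.node (.node .nil 4398065385536 2 16 .nil) 4398065385984 114 16 (.node .nil 4398180732929 56 26 .nil))))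

private def t16 : Tri :=
  (.node (.node (.node (.node .nil 4398180732992 38 16 .nil) 4398180733440 18 16 (.node .nil 4398180761601 79 26 .nil)) 4398180761608 210 16 (.node (.node .nil 4398180761664 232 16 .nil) 4398180762112 22 16 (.node .nil 4398180990977 111 26 .nil))) 4398180990984 189 16 (.node (.node (.node .nil 4398180991040 200 16 .nil) 4398180991488 26 16 (.node .nil 4398182825985 80 26 .nil)) 4398182825992 209 16 (.node (.node .nil 4398182826048 6 16 .nil) 4398182826496 30 16 .nil)))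

private def t17 : Tri :=
  (.node t15 4398180732936 211 16 t16)

private def t18 : Tri :=
  (.node (.node (.node (.node .nil 4399120257032 214 16 .nil) 4399120257088 42 16 (.node .nil 4399120257536 102 16 .nil)) 4399120285697 86 16 (.node (.node .nil 4399120285704 213 16 .nil) 4399120285760 238 16 (.node .nil 4399120286208 106 16 .nil))) 4399120515073 95 26 (.node (.node (.node .nil 4399120515080 192 16 .nil) 4399120515136 202 16 (.node .nil 4399120515584 94 16 .nil)) 4399122350081 85 16 (.node (.node .nil 4399122350088 212 16 .nil) 4399122350144 10 16 (.node .nil 4399122350592 113 16 .nil))))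

private def t19 : Tri :=
  (.node (.node (.node (.node .nil 4406636449800 221 16 .nil) 4406636449856 46 16 (.node .nil 4406636450304 105 16 .nil)) 4406636478465 87 16 (.node (.node .nil 4406636478472 220 16 .nil) 4406636478528 233 16 (.node .nil 4406636478976 109 16 .nil))) 4406636707841 98 16 (.node (.node (.node .nil 4406636707848 197 16 .nil) 4406636707904 203 16 (.node .nil 4406636708352 112 16 .nil)) 4406638542849 84 16 (.node (.node .nil 4406638542856 219 16 .nil) 4406638542912 14 16 .nil)))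

private def t20 : Tri :=
  (.node t18 4406636449793 57 16 t19)

private def t21 : Tri :=
  (.node t17 4399120257025 58 16 t20)

private def t22 : Tri :=
  (.node (.node (.node (.node .nil 35184388870145 154 16 .nil) 35184388870152 163 16 (.node .nil 35184388870208 35 16 .nil)) 35184388870656 61 16 (.node (.node .nil 35184388898817 155 16 .nil) 35184388898824 165 16 (.node .nil 35184388898880 171 16 .nil))) 35184388899328 64 16 (.node (.node (.node .nil 35184389128193 160 16 .nil) 35184389128200 167 16 (.node .nil 35184389128256 157 16 .nil)) 35184389128704 90 16 (.node (.node .nil 35184390963201 162 16 .nil) 35184390963208 169 16 (.node .nil 35184390963264 3 16 .nil))))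

private def t23 : Tri :=
  (.node (.node (.node (.node .nil 35184506310657 153 16 .nil) 35184506310664 164 16 (.node .nil 35184506310720 39 16 .nil)) 35184506311168 19 16 (.node (.node .nil 35184506339329 156 16 .nil) 35184506339336 166 16 (.node .nil 35184506339392 172 16 .nil))) 35184506339840 23 16 (.node (.node (.node .nil 35184506568705 159 16 .nil) 35184506568712 168 16 (.node .nil 35184506568768 158 16 .nil)) 35184506569216 27 16 (.node (.node .nil 35184508403713 161 16 .nil) 35184508403720 170 16 .nil)))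

private def t24 : Tri :=
  (.node t22 35184390963712 125 16 t23)

private def t25 : Tri :=
  (.node (.node (.node (.node .nil 35184508404224 31 16 .nil) 35185445834753 59 0x16005 (.node .nil 35185445834760 216 16 .nil)) 35185445834816 43 16 (.node (.node .nil 35185445835264 178 16 .nil) 35185445863425 88 0x16005 (.node .nil 35185445863432 215 16 .nil))) 35185445863488 239 16 (.node (.node (.node .nil 35185445863936 179 16 .nil) 35185446092801 99 0x16005 (.node .nil 35185446092808 226 16 .nil)) 35185446092864 240 16 (.node (.node .nil 35185446093312 180 16 .nil) 35185447927809 101 0x16005 (.node .nil 35185447927816 225 16 .nil))))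

private def t26 : Tri :=
  (.node (.node (.node (.node .nil 35185447928320 183 16 .nil) 35192962027521 59 40986 (.node .nil 35192962027528 222 4 .nil)) 35192962027584 47 16 (.node (.node .nil 35192962028032 223 4 .nil) 35192962056193 88 40986 (.node .nil 35192962056256 234 16 .nil))) 35192962056704 224 16 (.node (.node (.node .nil 35192962285569 99 40986 .nil) 35192962285576 228 4 (.node .nil 35192962286080 229 4 .nil)) 35192964120577 101 40986 (.node (.node .nil 35192964120640 15 16 .nil) 35192964121088 230 16 .nil)))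

private def t27 : Tri :=
  (.node t25 35185447927872 11 16 t26)

private def t28 : Tri :=
  (.node t24 35184508403776 7 16 t27)

private def t29 : Tri :=
  (.node t21 4406638543360 116 16 t28)

private def t30 : Tri :=
  (.node t14 4398063292424 208 16 t29)

private def N : Tri := t30

private def S : List (List (ℕ × ℕ × ℕ)) :=
  [[(0, 8, 12)], [(0, 8, 13)], [(0, 8, 14)], [(0, 8, 15)], [(0, 9, 12)], [(0, 9, 13)], [(0, 9, 14)], [(0, 9, 15)
  ], [(0, 10, 12)], [(0, 10, 13)], [(0, 10, 14)], [(0, 10, 15)], [(0, 11, 12)], [(0, 11, 13)], [(0, 11, 14)], [(0, 11, 15)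
  ], [(4, 4, 12)], [(4, 4, 13)], [(4, 4, 14)], [(4, 4, 15)], [(4, 5, 12)], [(4, 5, 13)], [(4, 5, 14)], [(4, 5, 15)
  ], [(4, 6, 12)], [(4, 6, 13)], [(4, 6, 14)], [(4, 6, 15)], [(4, 7, 12)], [(4, 7, 13)], [(4, 7, 14)], [(4, 7, 15)
  ], [(1, 8, 12)], [(1, 8, 13)], [(1, 8, 14)], [(1, 8, 15)], [(1, 9, 12)], [(1, 9, 13)], [(1, 9, 14)], [(1, 9, 15)
  ], [(1, 10, 12)], [(1, 10, 13)], [(1, 10, 14)], [(1, 10, 15)], [(1, 11, 12)], [(1, 11, 13)], [(1, 11, 14)], [(1, 11, 15)
  ], [(6, 4, 12)], [(9, 4, 9)], [(2, 9, 12)], [(12, 1, 9)], [(2, 9, 13)], [(10, 4, 9)], [(7, 4, 13)], [(6, 4, 13)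
  ], [(8, 4, 9)], [(7, 4, 14)], [(6, 4, 14)], [(14, 0, 4), (6, 4, 15)], [(9, 4, 10)], [(15, 3, 4)], [(16, 3, 4)
  ], [(5, 4, 12)], [(15, 3, 5)], [(16, 3, 5)], [(5, 5, 12)], [(2, 10, 12)], [(12, 1, 10)], [(9, 5, 10)], [(12, 2, 10)
  ], [(12, 3, 10)], [(10, 5, 10)], [(12, 0, 10)], [(6, 5, 12)], [(6, 5, 13)], [(9, 5, 9)], [(12, 2, 9)], [(10, 5, 9)
  ], [(8, 5, 9)], [(8, 7, 9)], [(13, 0, 9)], [(7, 7, 13)], [(6, 7, 13)], [(7, 7, 14)], [(6, 7, 14)], [(13, 0, 10)
  ], [(6, 5, 14)], [(14, 0, 5), (6, 5, 15)], [(6, 6, 13)], [(15, 3, 6)], [(16, 3, 6)], [(5, 6, 13)], [(11, 3, 8)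
  ], [(5, 6, 14)], [(8, 6, 10)], [(11, 0, 10)], [(6, 6, 12)], [(6, 6, 14)], [(14, 0, 6), (6, 6, 15)], [(6, 7, 12)
  ], [(14, 0, 7), (6, 7, 15)], [(8, 4, 10)], [(5, 4, 14)], [(8, 4, 8)], [(8, 4, 11)], [(8, 5, 10)], [(5, 5, 14)
  ], [(8, 5, 8)], [(8, 5, 11)], [(8, 6, 8)], [(8, 6, 9)], [(8, 6, 11)], [(8, 7, 10)], [(5, 7, 14)], [(8, 7, 8)
  ], [(8, 7, 11)], [(9, 4, 8)], [(9, 4, 11)], [(2, 8, 12)], [(9, 5, 8)], [(12, 0, 9)], [(7, 5, 12)], [(9, 5, 11)
  ], [(9, 7, 8)], [(15, 3, 7)], [(16, 3, 7)], [(3, 8, 12)], [(9, 6, 8)], [(9, 7, 9)], [(3, 9, 12)], [(9, 6, 9)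
  ], [(5, 6, 12)], [(9, 7, 10)], [(5, 7, 12)], [(3, 10, 12)], [(9, 6, 10)], [(10, 7, 9)], [(3, 9, 13)], [(10, 6, 9)
  ], [(11, 0, 9)], [(7, 6, 12)], [(9, 6, 11)], [(9, 7, 11)], [(12, 1, 8)], [(12, 2, 8)], [(12, 3, 8)], [(10, 5, 8)
  ], [(12, 0, 8)], [(12, 1, 11)], [(12, 2, 11)], [(10, 5, 11)], [(12, 3, 11)], [(7, 4, 15)], [(15, 0, 4)], [(16, 0, 5)
  ], [(15, 0, 5)], [(16, 2, 6)], [(15, 2, 6)], [(7, 6, 15)], [(15, 0, 6)], [(7, 7, 15)], [(15, 0, 7)], [(16, 1, 4)
  ], [(15, 1, 4)], [(16, 1, 5)], [(15, 1, 5)], [(16, 1, 6)], [(15, 1, 6)], [(16, 1, 7)], [(15, 1, 7)], [(16, 2, 5)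
  ], [(15, 2, 5)], [(16, 0, 4)], [(16, 0, 6)], [(16, 0, 7)], [(10, 4, 10), (2, 10, 13)], [(5, 4, 13)], [(5, 4, 15)
  ], [(5, 5, 15)], [(5, 6, 15)], [(13, 3, 8)], [(5, 7, 13)], [(5, 7, 15)], [(11, 0, 8)], [(13, 0, 8)], [(10, 7, 8)
  ], [(3, 8, 13)], [(11, 1, 8)], [(11, 1, 9)], [(10, 7, 10)], [(3, 10, 13)], [(11, 1, 10)], [(7, 6, 13)], [(13, 3, 11)
  ], [(10, 7, 11)], [(10, 6, 11), (3, 11, 13)], [(11, 1, 11)], [(10, 6, 8)], [(11, 2, 8)], [(11, 2, 9)], [(10, 6, 10)
  ], [(11, 2, 10)], [(11, 2, 11)], [(11, 3, 11)], [(2, 8, 13)], [(3, 8, 14)], [(13, 1, 8)], [(2, 8, 14)], [(3, 9, 14)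
  ], [(13, 1, 9)], [(2, 9, 14)], [(3, 10, 14)], [(13, 1, 10)], [(2, 10, 14)], [(14, 1, 5)], [(2, 10, 15)], [(2, 11, 12)
  ], [(10, 4, 11), (2, 11, 13)], [(3, 11, 14)], [(13, 1, 11)], [(2, 11, 14)], [(14, 1, 4)], [(14, 3, 4)], [(2, 11, 15)
  ], [(14, 1, 7)], [(3, 10, 15)], [(3, 11, 12)], [(14, 1, 6)], [(14, 3, 6)], [(3, 11, 15)], [(7, 4, 12)], [(13, 2, 9)
  ], [(7, 5, 14)], [(7, 5, 15)], [(7, 7, 12)], [(10, 4, 8)], [(13, 2, 8)], [(13, 2, 10)], [(14, 2, 5)], [(14, 2, 6)
  ]]

private theorem h0 : chk 13 5 8 31 N (okM 16 4) (rwS L1 L2) S = true := by decide +kernel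

theorem ok : (sm false 16 1 2 ∅ ∅).OK :=
  ok_of_chk _ 16 4 rfl rfl P1 P2 T F L1 L2 (r := 248) N S (by decide +kernel) (by decide +kernel)
    (by decide +kernel) (by decide +kernel) (by decide +kernel) h0 (by decide +kernel)
    (by decide +kernel) (by decide +kernel) (by decide +kernel) (by decide +kernel)

end Pool.Agent.KZ.AL.Ck.T433_1210_0
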