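import Pool.Agent.KZ.AL.OkC

/-! # KZ4, ALPHA: finite check T433_1210_P (generated) -/

set_option autoImplicit false
set_option maxRecDepth 100000

namespace Pool.Agent.KZ.AL.Ck.T433_1210_P

open Pool.Agent.KZ (Tri chk rwS)
open Finset (range)

/-- The positions of the T-points. -/
private def P1 : List ((ℕ × ℕ × ℕ) × List (ℕ × ℤ)) :=
  [((0, 1, 0), [(0, 1), (3, 1), (4, 1), (5, 1)]), ((0, 1, 1), [(1, 1), (6, 1)]),
   ((0, 1, 2), [(1, 1), (3, 1), (4, 1), (7, 1)]), ((0, 1, 3), [(1, 1), (4, 1)]),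
   ((0, 2, 0), [(0, -1), (3, -1), (11, 1)]), ((0, 2, 1), [(2, 1), (8, 1)]),
   ((0, 2, 2), [(2, 1), (8, 3), (10, 1)]), ((0, 2, 3), [(2, 1), (11, 1)]),
   ((0, 3, 0), [(3, 1), (13, 1)]), ((0, 3, 1), [(0, 1), (2, 1), (13, 3), (14, 1), (15, 1)]),
   ((0, 3, 2), [(0, 1), (12, 1), (14, 2)]), ((1, 3, 0), [(5, 1), (6, 1), (7, 1), (14, 1)]),
   ((1, 3, 1), [(5, 1), (7, 4), (12, 1)]), ((1, 3, 2), [(7, 1), (14, 1)]),
   ((2, 3, 0), [(9, 1), (10, 1), (12, 1), (14, 1), (15, 1)]), ((2, 3, 1), [(9, 1), (13, 1), (15, 1)]),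
   ((2, 3, 2), [(8, 1), (9, 1), (11, 2), (15, 1)])]

/-- The positions of the free items. -/
private def P2 : List ((ℕ × ℕ × ℕ) × List (ℕ × ℤ)) :=
  []

private def T : List (ℕ × ℕ × ℕ) :=
  [(0, 1, 0), (0, 1, 1), (0, 1, 2), (0, 1, 3), (0, 2, 0), (0, 2, 1), (0, 2, 2), (0, 2, 3),
   (0, 3, 0), (0, 3, 1), (0, 3, 2), (1, 3, 0), (1, 3, 1), (1, 3, 2), (2, 3, 0), (2, 3, 1),
   (2, 3, 2)]

private def F : List (ℕ × ℕ × ℕ) :=
  []

private def L1 : List (List (ℕ × ℕ)) :=
  [[(0, 1), (3, 1), (4, 1), (5, 1)], [(1, 1), (6, 1)], [(1, 1), (3, 1), (4, 1), (7, 1)],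
   [(1, 1), (4, 1)], [(0, 30), (3, 30), (11, 1)], [(2, 1), (8, 1)],
   [(2, 1), (8, 3), (10, 1)], [(2, 1), (11, 1)], [(3, 1), (13, 1)],
   [(0, 1), (2, 1), (13, 3), (14, 1), (15, 1)], [(0, 1), (12, 1), (14, 2)], [(5, 1), (6, 1), (7, 1), (14, 1)],
   [(5, 1), (7, 4), (12, 1)], [(7, 1), (14, 1)], [(9, 1), (10, 1), (12, 1), (14, 1), (15, 1)],
   [(9, 1), (13, 1), (15, 1)], [(8, 1), (9, 1), (11, 2), (15, 1)]]

private def L2 : List (List (ℕ × ℕ)) :=
  []

private def t0 : Tri :=
  (.node (.node (.node (.node .nil 68736258049 157 16 .nil) 68736258056 16 16 (.node .nil 68736258112 32 16 .nil)) 68736258560 175 16 (.node (.node .nil 68736286721 136 16 .nil) 68736286728 177 16 (.node .nil 68736286784 36 16 .nil))) 68736287232 174 16 (.node (.node (.node .nil 68736516097 169 16 .nil) 68736516104 0 16 (.node .nil 68736516160 40 16 .nil)) 68738351105 135 16 (.node (.node .nil 68738351112 176 16 .nil) 68738351168 44 16 (.node .nil 68853698561 167 0x3c0001 .nil))))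

private def t1 : Tri :=
  (.node (.node (.node (.node .nil 68853698624 237 16 .nil) 68853699072 182 16 (.node .nil 68853727233 141 16 .nil)) 68853727240 186 16 (.node (.node .nil 68853727296 145 16 .nil) 68853727744 183 16 (.node .nil 68853956609 171 16 .nil))) 68853956616 4 16 (.node (.node (.node .nil 68853956672 238 16 .nil) 68853957120 239 16 (.node .nil 68855791617 140 16 .nil)) 68855791624 185 16 (.node (.node .nil 68855791680 144 16 .nil) 68855792128 184 4 .nil)))

private def t2 : Tri :=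
  (.node t0 68853698568 20 16 t1)

private def t3 : Tri :=
  (.node (.node (.node (.node .nil 69793222664 24 16 .nil) 69793222720 120 16 (.node .nil 69793223168 179 16 .nil)) 69793251329 161 16 (.node (.node .nil 69793251336 188 16 .nil) 69793251392 124 16 (.node .nil 69793251840 178 16 .nil))) 69793480705 173 16 (.node (.node (.node .nil 69793480712 8 16 .nil) 69793480768 128 16 (.node .nil 69795315713 160 16 .nil)) 69795315720 187 16 (.node (.node .nil 69795315776 132 16 .nil) 77309415425 96 16 (.node .nil 77309415432 28 16 .nil))))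

private def t4 : Tri :=
  (.node (.node (.node (.node .nil 77309415936 97 15 .nil) 77309444097 102 16 (.node .nil 77309444104 190 16 .nil)) 77309444160 52 16 (.node (.node .nil 77309444608 103 15 .nil) 77309673473 110 16 (.node .nil 77309673480 12 16 .nil))) 77309673536 56 16 (.node (.node (.node .nil 77309673984 111 15 .nil) 77311508481 101 16 (.node .nil 77311508488 189 16 .nil)) 77311508544 60 16 (.node (.node .nil 77311508992 116 15 .nil) 549772595201 150 16 .nil)))

private def t5 : Tri :=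
  (.node t3 77309415488 48 16 t4)

private def t6 : Tri :=
  (.node t2 69793222657 158 16 t5)

private def t7 : Tri :=
  (.node (.node (.node (.node .nil 549772595264 33 16 .nil) 549772595712 64 16 (.node .nil 549772623873 149 26 .nil)) 549772623936 37 16 (.node (.node .nil 549772624384 68 16 .nil) 549772853249 230 26 (.node .nil 549772853256 1 16 .nil))) 549772853312 41 16 (.node (.node (.node .nil 549772853760 72 16 .nil) 549774688257 233 26 (.node .nil 549774688264 224 16 .nil)) 549774688320 45 16 (.node (.node .nil 549774688768 76 16 .nil) 549890035713 191 16 (.node .nil 549890035720 21 16 .nil))))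

private def t8 : Tri :=
  (.node (.node (.node (.node .nil 549890036224 65 16 .nil) 549890064385 147 0x5c0008 (.node .nil 549890064392 198 16 .nil)) 549890064448 139 16 (.node (.node .nil 549890064896 69 16 .nil) 549890293761 195 0x5c0008 (.node .nil 549890293768 5 16 .nil))) 549890293824 193 16 (.node (.node (.node .nil 549890294272 73 16 .nil) 549892128769 197 0x5c0008 (.node .nil 549892128776 199 16 .nil)) 549892128832 196 16 (.node (.node .nil 549892129280 77 16 .nil) 550829559809 165 16 .nil)))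

private def t9 : Tri :=
  (.node t7 549890035776 202 16 t8)

private def t10 : Tri :=
  (.node (.node (.node (.node .nil 550829559872 121 16 .nil) 550829560320 66 16 (.node .nil 550829588481 164 26 .nil)) 550829588544 125 16 (.node (.node .nil 550829588992 70 16 .nil) 550829817857 232 26 (.node .nil 550829817864 9 16 .nil))) 550829817920 129 16 (.node (.node (.node .nil 550829818368 74 16 .nil) 550831652865 235 26 (.node .nil 550831652872 225 16 .nil)) 550831652928 133 16 (.node (.node .nil 550831653376 78 16 .nil) 558345752577 98 15 .nil)))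

private def t11 : Tri :=
  (.node (.node (.node (.node .nil 558345752640 49 16 .nil) 558345753088 67 16 (.node .nil 558345781249 104 15 .nil)) 558345781312 53 16 (.node (.node .nil 558345781760 71 16 .nil) 558346010625 112 15 (.node .nil 558346010632 13 16 .nil))) 558346010688 57 16 (.node (.node (.node .nil 558346011136 75 16 .nil) 558347845633 117 15 (.node .nil 558347845640 228 16 .nil)) 558347845696 61 16 (.node (.node .nil 558347846144 79 16 .nil) 4398063292417 156 16 .nil)))

private def t12 : Tri :=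
  (.node t10 558345752584 29 16 t11)

private def t13 : Tri :=
  (.node t9 550829559816 25 16 t12)

private def t14 : Tri :=
  (.node t6 549772595208 17 16 t13)

private def t15 : Tri :=
  (.node (.node (.node (.node .nil 4398063292480 34 16 .nil) 4398063292928 209 16 (.node .nil 4398063321089 137 8 .nil)) 4398063321096 205 16 (.node (.node .nil 4398063321152 38 16 .nil) 4398063321600 210 16 (.node .nil 4398063550465 168 16 .nil))) 4398063550472 2 16 (.node (.node (.node .nil 4398063550528 42 16 .nil) 4398063550976 211 16 (.node .nil 4398065385473 80 16 .nil)) 4398065385480 84 16 (.node (.node .nil 4398065385536 46 16 .nil) 4398065385984 90 16 (.node .nil 4398180732929 167 0x40000f .nil))))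

private def t16 : Tri :=
  (.node (.node (.node (.node .nil 4398180732992 229 16 .nil) 4398180733440 180 16 (.node .nil 4398180761601 142 8 .nil)) 4398180761608 206 16 (.node (.node .nil 4398180761664 146 16 .nil) 4398180762112 212 16 (.node .nil 4398180990977 170 16 .nil))) 4398180990984 6 16 (.node (.node (.node .nil 4398180991040 194 16 .nil) 4398180991488 213 16 (.node .nil 4398182825985 81 16 .nil)) 4398182825992 85 16 (.node (.node .nil 4398182826048 88 16 .nil) 4398182826496 91 16 .nil)))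

private def t17 : Tri :=
  (.node t15 4398180732936 22 16 t16)

private def t18 : Tri :=
  (.node (.node (.node (.node .nil 4399120257088 122 16 .nil) 4399120257536 181 16 (.node .nil 4399120285697 162 8 .nil)) 4399120285704 207 16 (.node (.node .nil 4399120285760 126 16 .nil) 4399120286208 214 16 (.node .nil 4399120515073 172 16 .nil))) 4399120515080 10 16 (.node (.node (.node .nil 4399120515136 130 16 .nil) 4399120515584 215 16 (.node .nil 4399122350081 82 16 .nil)) 4399122350088 86 16 (.node (.node .nil 4399122350144 89 16 .nil) 4399122350592 92 16 .nil)))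

private def t19 : Tri :=
  (.node (.node (.node (.node .nil 4406636449800 30 16 .nil) 4406636449856 50 16 (.node .nil 4406636450304 94 16 .nil)) 4406636478465 105 8 (.node (.node .nil 4406636478472 208 16 .nil) 4406636478528 54 16 (.node .nil 4406636478976 106 15 .nil))) 4406636707841 109 16 (.node (.node (.node .nil 4406636707848 14 16 .nil) 4406636707904 58 16 (.node .nil 4406636708352 113 15 .nil)) 4406638542849 83 16 (.node (.node .nil 4406638542856 87 16 .nil) 4406638542912 62 16 .nil)))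

private def t20 : Tri :=
  (.node t18 4406636449793 95 15 t19)

private def t21 : Tri :=
  (.node t17 4399120257032 26 16 t20)

private def t22 : Tri :=
  (.node (.node (.node (.node .nil 35184388870145 155 16 .nil) 35184388870152 19 16 (.node .nil 35184388870208 35 16 .nil)) 35184388870656 152 16 (.node (.node .nil 35184388898817 148 16 .nil) 35184388898824 218 16 (.node .nil 35184388898880 39 16 .nil))) 35184388899328 154 16 (.node (.node (.node .nil 35184389128193 216 16 .nil) 35184389128200 3 16 (.node .nil 35184389128256 43 16 .nil)) 35184389128704 222 16 (.node (.node .nil 35184390963201 217 16 .nil) 35184390963208 220 16 (.node .nil 35184390963264 47 16 .nil))))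

private def t23 : Tri :=
  (.node (.node (.node (.node .nil 35184506310657 159 16 .nil) 35184506310664 23 16 (.node .nil 35184506310720 201 16 .nil)) 35184506311168 151 16 (.node (.node .nil 35184506339329 147 0x600017 .nil) 35184506339392 138 16 (.node .nil 35184506339840 153 16 .nil))) 35184506568705 195 0x600017 (.node (.node (.node .nil 35184506568712 7 16 .nil) 35184506568768 192 16 (.node .nil 35184506569216 203 16 .nil)) 35184508403713 197 0x600017 (.node (.node .nil 35184508403720 200 16 .nil) 35184508403776 143 16 .nil)))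

private def t24 : Tri :=
  (.node t22 35184390963712 219 16 t23)

private def t25 : Tri :=
  (.node (.node (.node (.node .nil 35185445834753 166 16 .nil) 35185445834760 27 16 (.node .nil 35185445834816 123 16 .nil)) 35185445863425 163 16 (.node (.node .nil 35185445863432 236 16 .nil) 35185445863488 127 16 (.node .nil 35185445863936 223 16 .nil))) 35185446092801 231 16 (.node (.node (.node .nil 35185446092808 11 16 .nil) 35185446092864 131 16 (.node .nil 35185447927809 234 16 .nil)) 35185447927816 226 16 (.node (.node .nil 35185447927872 134 16 .nil) 35185447928320 227 16 .nil)))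

private def t26 : Tri :=
  (.node (.node (.node (.node .nil 35192962027528 31 16 .nil) 35192962027584 51 16 (.node .nil 35192962028032 100 15 .nil)) 35192962056193 107 16 (.node (.node .nil 35192962056256 55 16 .nil) 35192962056704 108 15 (.node .nil 35192962285569 114 16 .nil))) 35192962285576 15 16 (.node (.node (.node .nil 35192962285632 59 16 .nil) 35192962286080 115 15 (.node .nil 35192964120577 118 16 .nil)) 35192964120584 221 8 (.node (.node .nil 35192964120640 63 16 .nil) 35192964121088 119 15 .nil)))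

private def t27 : Tri :=
  (.node t25 35192962027521 99 16 t26)

private def t28 : Tri :=
  (.node t24 35184508404224 204 16 t27)

private def t29 : Tri :=
  (.node t21 4406638543360 93 16 t28)

private def t30 : Tri :=
  (.node t14 4398063292424 18 16 t29)

private def N : Tri := t30

private def S : List (List (ℕ × ℕ × ℕ)) :=
  [[(1, 8, 12)], [(1, 8, 13)], [(1, 8, 14)], [(1, 8, 15)], [(1, 9, 12)], [(1, 9, 13)], [(1, 9, 14)], [(1, 9, 15)
  ], [(1, 10, 12)], [(1, 10, 13)], [(1, 10, 14)], [(1, 10, 15)], [(1, 11, 12)], [(1, 11, 13)], [(1, 11, 14)], [(1, 11, 15)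
  ], [(3, 8, 12)], [(3, 8, 13)], [(3, 8, 14)], [(3, 8, 15)], [(3, 9, 12)], [(3, 9, 13)], [(3, 9, 14)], [(3, 9, 15)
  ], [(3, 10, 12)], [(3, 10, 13)], [(3, 10, 14)], [(3, 10, 15)], [(3, 11, 12)], [(3, 11, 13)], [(3, 11, 14)], [(3, 11, 15)
  ], [(5, 4, 12)], [(5, 4, 13)], [(5, 4, 14)], [(5, 4, 15)], [(5, 5, 12)], [(5, 5, 13)], [(5, 5, 14)], [(5, 5, 15)
  ], [(5, 6, 12)], [(5, 6, 13)], [(5, 6, 14)], [(5, 6, 15)], [(5, 7, 12)], [(5, 7, 13)], [(5, 7, 14)], [(5, 7, 15)
  ], [(7, 4, 12)], [(7, 4, 13)], [(7, 4, 14)], [(7, 4, 15)], [(7, 5, 12)], [(7, 5, 13)], [(7, 5, 14)], [(7, 5, 15)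
  ], [(7, 6, 12)], [(7, 6, 13)], [(7, 6, 14)], [(7, 6, 15)], [(7, 7, 12)], [(7, 7, 13)], [(7, 7, 14)], [(7, 7, 15)
  ], [(8, 4, 8)], [(8, 4, 9)], [(8, 4, 10)], [(8, 4, 11)], [(8, 5, 8)], [(8, 5, 9)], [(8, 5, 10)], [(8, 5, 11)
  ], [(8, 6, 8)], [(8, 6, 9)], [(8, 6, 10)], [(8, 6, 11)], [(8, 7, 8)], [(8, 7, 9)], [(8, 7, 10)], [(8, 7, 11)
  ], [(13, 0, 8)], [(13, 0, 9)], [(13, 0, 10)], [(13, 0, 11)], [(13, 1, 8)], [(13, 1, 9)], [(13, 1, 10)], [(13, 1, 11)
  ], [(13, 2, 9)], [(13, 2, 10)], [(13, 3, 8)], [(13, 3, 9)], [(13, 3, 10)], [(13, 3, 11)], [(2, 11, 14)], [(4, 4, 14)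
  ], [(10, 4, 11)], [(4, 4, 12)], [(4, 4, 13)], [(9, 4, 11)], [(4, 4, 15)], [(10, 7, 11)], [(12, 0, 11)], [(4, 5, 12)
  ], [(4, 5, 13)], [(10, 5, 11)], [(4, 5, 14)], [(9, 5, 11)], [(4, 5, 15)], [(11, 0, 11)], [(10, 6, 11)], [(4, 6, 12)
  ], [(4, 6, 13)], [(4, 6, 14)], [(9, 6, 11)], [(4, 6, 15)], [(4, 7, 12)], [(4, 7, 13)], [(9, 7, 11)], [(4, 7, 15)
  ], [(6, 4, 12)], [(6, 4, 13)], [(6, 4, 14)], [(6, 4, 15)], [(6, 5, 12)], [(6, 5, 13)], [(6, 5, 14)], [(6, 5, 15)
  ], [(6, 6, 12)], [(6, 6, 13)], [(6, 6, 14)], [(6, 6, 15)], [(6, 7, 12)], [(6, 7, 13)], [(6, 7, 15)], [(10, 7, 8)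
  ], [(12, 0, 8)], [(10, 5, 8)], [(16, 2, 5)], [(15, 2, 5)], [(10, 7, 9)], [(12, 0, 9)], [(10, 5, 9)], [(16, 2, 7)
  ], [(14, 2, 7)], [(12, 2, 9)], [(14, 2, 5)], [(9, 5, 9), (15, 0, 5)], [(16, 0, 5)], [(9, 5, 8)], [(0, 8, 13)
  ], [(15, 3, 4)], [(16, 3, 4)], [(15, 3, 5)], [(16, 3, 5)], [(0, 8, 15)], [(9, 4, 8)], [(10, 4, 8)], [(10, 4, 10)
  ], [(16, 0, 4)], [(10, 7, 10)], [(12, 0, 10)], [(10, 5, 10)], [(14, 0, 5)], [(9, 5, 10)], [(0, 10, 13)], [(9, 4, 10)
  ], [(14, 0, 4), (10, 4, 9)], [(11, 0, 8)], [(10, 6, 8)], [(11, 0, 9)], [(10, 6, 9)], [(11, 0, 10)], [(10, 6, 10)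
  ], [(12, 3, 8)], [(0, 8, 12)], [(2, 8, 12)], [(12, 1, 8)], [(12, 3, 10)], [(0, 10, 12)], [(2, 9, 14)], [(2, 10, 14)
  ], [(14, 3, 4)], [(0, 9, 12)], [(12, 3, 9)], [(2, 9, 12)], [(12, 1, 9)], [(2, 10, 12)], [(12, 1, 10)], [(2, 11, 12)
  ], [(12, 1, 11)], [(15, 0, 4)], [(16, 2, 6)], [(15, 2, 6)], [(11, 2, 9)], [(9, 6, 9), (15, 0, 6)], [(15, 2, 7)
  ], [(9, 7, 9), (15, 0, 7)], [(15, 1, 5)], [(2, 9, 13)], [(15, 1, 7)], [(16, 2, 4)], [(15, 2, 4)], [(15, 3, 6)
  ], [(15, 3, 7)], [(11, 1, 8)], [(11, 1, 9)], [(11, 1, 10)], [(11, 1, 11)], [(2, 8, 14)], [(0, 8, 14)], [(11, 3, 8)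
  ], [(0, 9, 14)], [(11, 3, 9)], [(0, 10, 14)], [(11, 3, 10)], [(16, 0, 6)], [(16, 0, 7)], [(16, 1, 5)], [(16, 3, 7)
  ], [(2, 8, 15)], [(16, 1, 7)], [(16, 3, 6)], [(0, 10, 15)], [(2, 8, 13)], [(2, 10, 13)], [(14, 1, 7)], [(2, 10, 15)
  ], [(2, 11, 13)], [(9, 4, 9)], [(9, 6, 8)], [(14, 0, 6)], [(9, 6, 10)], [(9, 7, 8)], [(14, 0, 7)], [(9, 7, 10)
  ], [(14, 1, 5)], [(14, 2, 4)], [(14, 2, 6)], [(14, 3, 6)]]

private theorem h0 : chk 18 5 13 31 N (okM 16 4) (rwS L1 L2) S = true := by decide +kernel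

theorem ok : (sm false 16 1 2 {(0, {1, 2}, 0)} ∅).OK :=
  ok_of_chk _ 16 4 rfl rfl P1 P2 T F L1 L2 (r := 244) N S (by decide +kernel) (by decide +kernel)
    (by decide +kernel) (by decide +kernel) (by decide +kernel) h0 (by decide +kernel)
    (by decide +kernel) (by decide +kernel) (by decide +kernel) (by decide +kernel)

end Pool.Agent.KZ.AL.Ck.T433_1210_P
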