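import Pool.Agent.KZ.AL.OkC

/-! # KZ4, ALPHA: finite check T433_1300_0 (generated) -/

set_option autoImplicit false
set_option maxRecDepth 100000

namespace Pool.Agent.KZ.AL.Ck.T433_1300_0

open Pool.Agent.KZ (Tri chk rwS)
open Finset (range)

/-- The positions of the T-points. -/
private def P1 : List ((ℕ × ℕ × ℕ) × List (ℕ × ℤ)) :=
  [((0, 1, 0), [(2, 1), (4, 1), (7, 4)]), ((0, 1, 1), [(1, 4), (3, 1), (4, 1), (6, 4)]),
   ((0, 1, 2), [(0, 2), (3, 1), (5, 1)]), ((0, 1, 3), [(2, 1), (4, 1)]),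
   ((0, 2, 0), [(2, 1), (3, 1), (10, 3), (11, 2)]), ((0, 2, 1), [(2, 4), (3, 1), (8, 4), (11, 1)]),
   ((0, 2, 2), [(0, 1), (1, 1), (2, 3), (8, 1), (9, 1), (10, 1)]), ((0, 2, 3), [(0, 1), (1, 3), (2, 4), (11, 1)]),
   ((0, 3, 0), [(1, 1), (12, 1)]), ((0, 3, 1), [(1, 1), (14, 1)]),
   ((0, 3, 2), [(1, 1), (13, 2), (14, 1), (15, 1)]), ((0, 3, 3), [(0, 1), (12, 1), (13, 1)])]

/-- The positions of the free items. -/
private def P2 : List ((ℕ × ℕ × ℕ) × List (ℕ × ℤ)) :=
  []

private def T : List (ℕ × ℕ × ℕ) :=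
  [(0, 1, 0), (0, 1, 1), (0, 1, 2), (0, 1, 3), (0, 2, 0), (0, 2, 1), (0, 2, 2), (0, 2, 3),
   (0, 3, 0), (0, 3, 1), (0, 3, 2), (0, 3, 3)]

private def F : List (ℕ × ℕ × ℕ) :=
  []

private def L1 : List (List (ℕ × ℕ)) :=
  [[(2, 1), (4, 1), (7, 4)], [(1, 4), (3, 1), (4, 1), (6, 4)], [(0, 2), (3, 1), (5, 1)],
   [(2, 1), (4, 1)], [(2, 1), (3, 1), (10, 3), (11, 2)], [(2, 4), (3, 1), (8, 4), (11, 1)],
   [(0, 1), (1, 1), (2, 3), (8, 1), (9, 1), (10, 1)], [(0, 1), (1, 3), (2, 4), (11, 1)], [(1, 1), (12, 1)],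
   [(1, 1), (14, 1)], [(1, 1), (13, 2), (14, 1), (15, 1)], [(0, 1), (12, 1), (13, 1)]]

private def L2 : List (List (ℕ × ℕ)) :=
  []

private def t0 : Tri :=
  (.node (.node (.node (.node .nil 68736258049 86 16 .nil) 68736258056 16 16 (.node .nil 68736258112 0 16 .nil)) 68736258560 133 4 (.node (.node .nil 68736286721 64 16 .nil) 68736286728 20 16 .nil)) 68736286784 168 1 (.node (.node (.node .nil 68736287232 65 16 .nil) 68736516097 90 16 .nil) 68736516104 24 16 (.node (.node .nil 68736516160 172 1 .nil) 68736516608 134 4 .nil)))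

private def t1 : Tri :=
  (.node t0 68738351105 98 16 (.node (.node (.node (.node .nil 68738351112 28 16 .nil) 68738351168 48 4 .nil) 68738351616 176 4 (.node (.node .nil 68853698561 84 16 .nil) 68853698568 17 16 .nil)) 68853698624 4 16 (.node (.node (.node .nil 68853699072 144 16 .nil) 68853727233 69 16 .nil) 68853727240 21 16 (.node (.node .nil 68853727296 182 26 .nil) 68853727744 70 16 .nil))))

private def t2 : Tri :=
  (.node (.node (.node (.node (.node .nil 68853956616 25 16 .nil) 68853956672 186 26 .nil) 68855791617 96 16 (.node (.node .nil 68855791624 29 16 .nil) 68855791680 52 4 .nil)) 69793222657 85 16 (.node (.node (.node .nil 69793222664 18 16 .nil) 69793222720 8 16 .nil) 69793223168 148 26 (.node (.node .nil 69793251329 74 16 .nil) 69793251336 22 16 .nil))) 69793251392 156 26 (.node (.node (.node (.node .nil 69793251840 75 16 .nil) 69793480705 92 16 .nil) 69793480712 26 16 (.node (.node .nil 69793480768 160 26 .nil) 69793481216 149 4 .nil)) 69795315713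 97 16 (.node (.node (.node .nil 69795315720 30 16 .nil) 69795315776 56 4 .nil) 69795316224 164 26 (.node (.node .nil 77309415425 88 16 .nil) 77309415432 19 16 .nil))))

private def t3 : Tri :=
  (.node t1 68853956609 91 16 t2)

private def t4 : Tri :=
  (.node (.node (.node (.node (.node .nil 77309415936 132 16 .nil) 77309444097 80 16 .nil) 77309444104 23 16 (.node (.node .nil 77309444160 106 4 .nil) 77309444608 81 16 .nil)) 77309673473 95 16 (.node (.node (.node .nil 77309673480 27 16 .nil) 77309673536 111 4 .nil) 77311508481 100 16 (.node (.node .nil 77311508488 31 16 .nil) 77311508544 60 4 .nil))) 549772595201 87 16 (.node (.node (.node (.node .nil 549772595208 120 16 .nil) 549772595264 1 16 .nil) 549772595712 136 4 (.node (.node .nil 549772623880 122 8 .nil) 549772623936 169 1 .nil)) 549772624384 66 16 (.node (.node (.node .nil 549772853256 125 8 .nil) 549772853312 173 1 .nil) 549772853760 137 4 (.node (.node .nil 549774688257 99 16 .nil) 549774688264 130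 16 .nil))))

private def t5 : Tri :=
  (.node (.node (.node (.node (.node .nil 549774688768 177 4 .nil) 549890035720 118 8 .nil) 549890035776 5 16 (.node (.node .nil 549890036224 145 16 .nil) 549890064392 123 8 .nil)) 549890064448 183 26 (.node (.node (.node .nil 549890064896 71 16 .nil) 549890293768 126 8 .nil) 549890293824 187 26 (.node (.node .nil 549892128776 128 8 .nil) 549892128832 53 4 .nil))) 550829559816 119 8 (.node (.node (.node (.node .nil 550829559872 9 16 .nil) 550829560320 150 26 .nil) 550829588488 124 8 (.node (.node .nil 550829588544 157 26 .nil) 550829588992 76 16 .nil)) 550829817864 127 8 (.node (.node (.node .nil 550829817920 161 26 .nil) 550829818368 151 4 .nil) 550831652872 129 8 (.node (.node .nil 550831652928 57 4 .nil) 550831653376 165 26 .nil))))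

private def t6 : Tri :=
  (.node t4 549774688320 49 4 t5)

private def t7 : Tri :=
  (.node t3 77309415488 12 16 t6)

private def t8 : Tri :=
  (.node (.node (.node (.node (.node .nil 558345752584 102 26 .nil) 558345752640 13 16 .nil) 558345753088 135 16 (.node (.node .nil 558345781249 79 8 .nil) 558345781256 108 8 .nil)) 558345781312 109 4 (.node (.node (.node .nil 558346010625 94 16 .nil) 558346010632 93 8 .nil) 558347845633 101 16 (.node (.node .nil 558347845640 114 26 .nil) 558347845696 61 4 .nil))) 4398063292417 180 16 (.node (.node (.node (.node .nil 4398063292424 32 16 .nil) 4398063292480 2 16 .nil) 4398063292928 139 4 (.node (.node .nil 4398063321089 67 8 .nil) 4398063321096 36 16 .nil)) 4398063321152 170 1 (.node (.node (.node .nil 4398063550465 188 16 .nil) 4398063550472 40 16 .nil) 4398063550528 174 1 (.node (.node .nil 4398063550976 140 4 .nil) 4398065385473 190 16 .nil))))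

private def t9 : Tri :=
  (.node (.node (.node (.node (.node .nil 4398065385536 50 4 .nil) 4398065385984 178 4 .nil) 4398180732936 33 16 (.node (.node .nil 4398180732992 6 16 .nil) 4398180733440 146 16 .nil)) 4398180761608 37 16 (.node (.node (.node .nil 4398180761664 184 26 .nil) 4398180762112 72 16 .nil) 4398180990984 41 16 (.node (.node .nil 4398182825992 45 16 .nil) 4398182826048 54 4 .nil))) 4399120257032 34 16 (.node (.node (.node (.node .nil 4399120257088 10 16 .nil) 4399120257536 152 26 .nil) 4399120285697 77 8 (.node (.node .nil 4399120285704 38 16 .nil) 4399120285760 158 26 .nil)) 4399120515080 42 16 (.node (.node (.node .nil 4399120515136 162 26 .nil) 4399120515584 153 4 .nil) 4399122350088 46 16 (.node (.node .nil 4399122350144 58 4 .nil) 4399122350592 166 26 .nil))))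

private def t10 : Tri :=
  (.node t8 4398065385480 44 16 t9)

private def t11 : Tri :=
  (.node (.node (.node (.node (.node .nil 4406636449800 35 16 .nil) 4406636449856 14 16 .nil) 4406636450304 138 16 (.node (.node .nil 4406636478465 82 8 .nil) 4406636478472 39 16 .nil)) 4406636478528 110 4 (.node (.node (.node .nil 4406636707841 112 16 .nil) 4406636707848 43 16 .nil) 4406638542849 115 16 (.node (.node .nil 4406638542856 47 16 .nil) 4406638542912 62 4 .nil))) 35184388870145 181 16 (.node (.node (.node (.node .nil 35184388870152 121 16 .nil) 35184388870208 3 16 .nil) 35184388870656 142 4 (.node (.node .nil 35184388898817 68 8 .nil) 35184388898880 171 1 .nil)) 35184389128193 189 16 (.node (.node (.node .nil 35184389128256 175 1 .nil) 35184389128704 143 4 .nil) 35184390963201 191 16 (.node (.node .nil 35184390963208 131 16 .nil) 35184390963264 51 4 .nil))))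

private def t12 : Tri :=
  (.node (.node (.node (.node (.node .nil 35184506310720 7 16 .nil) 35184506311168 147 16 .nil) 35184506339392 185 26 (.node (.node .nil 35184506339840 73 16 .nil) 35184508403776 55 4 .nil)) 35185445834816 11 16 (.node (.node (.node .nil 35185445835264 154 26 .nil) 35185445863425 78 8 .nil) 35185445863488 159 26 (.node (.node .nil 35185446092864 163 26 .nil) 35185446093312 155 4 .nil))) 35185447927872 59 4 (.node (.node (.node (.node .nil 35185447928320 167 26 .nil) 35192962027521 105 16 .nil) 35192962027528 104 16 (.node (.node .nil 35192962027584 15 16 .nil) 35192962028032 141 16 .nil)) 35192962056193 83 8 (.node (.node (.node .nil 35192962056200 107 26 .nil) 35192962285569 113 16 .nil) 35192964120577 117 16 (.node (.node .nil 35192964120584 116 16 .nil) 35192964120640 63 4 .nil))))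

private def t13 : Tri :=
  (.node t11 35184390963712 179 4 t12)

private def t14 : Tri :=
  (.node t10 4406636449793 103 16 t13)

private def t15 : Tri :=
  (.node t7 558345752577 89 16 t14)

private def N : Tri := t15

private def S : List (List (ℕ × ℕ × ℕ)) :=
  [[(3, 8, 12)], [(3, 8, 13)], [(3, 8, 14)], [(3, 8, 15)], [(3, 9, 12)], [(3, 9, 13)], [(3, 9, 14)], [(3, 9, 15)
  ], [(3, 10, 12)], [(3, 10, 13)], [(3, 10, 14)], [(3, 10, 15)], [(3, 11, 12)], [(3, 11, 13)], [(3, 11, 14)], [(3, 11, 15)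
  ], [(8, 4, 8)], [(8, 4, 9)], [(8, 4, 10)], [(8, 4, 11)], [(8, 5, 8)], [(8, 5, 9)], [(8, 5, 10)], [(8, 5, 11)
  ], [(8, 6, 8)], [(8, 6, 9)], [(8, 6, 10)], [(8, 6, 11)], [(8, 7, 8)], [(8, 7, 9)], [(8, 7, 10)], [(8, 7, 11)
  ], [(9, 4, 8)], [(9, 4, 9)], [(9, 4, 10)], [(9, 4, 11)], [(9, 5, 8)], [(9, 5, 9)], [(9, 5, 10)], [(9, 5, 11)
  ], [(9, 6, 8)], [(9, 6, 9)], [(9, 6, 10)], [(9, 6, 11)], [(9, 7, 8)], [(9, 7, 9)], [(9, 7, 10)], [(9, 7, 11)
  ], [(0, 8, 12)], [(0, 8, 13)], [(0, 8, 14)], [(0, 8, 15)], [(0, 9, 12)], [(0, 9, 13)], [(0, 9, 14)], [(0, 9, 15)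
  ], [(0, 10, 12)], [(0, 10, 13)], [(0, 10, 14)], [(0, 10, 15)], [(0, 11, 12)], [(0, 11, 13)], [(0, 11, 14)], [(0, 11, 15)
  ], [(11, 5, 8)], [(2, 8, 12)], [(2, 8, 13)], [(2, 8, 14)], [(2, 8, 15)], [(11, 5, 9)], [(2, 9, 12)], [(2, 9, 13)
  ], [(2, 9, 14)], [(2, 9, 15)], [(11, 5, 10)], [(2, 10, 12)], [(2, 10, 13)], [(2, 10, 14)], [(2, 10, 15)], [(2, 11, 13)
  ], [(11, 5, 11)], [(2, 11, 12)], [(2, 11, 14)], [(2, 11, 15)], [(11, 4, 9)], [(11, 4, 10)], [(6, 4, 12)], [(11, 4, 8)
  ], [(7, 4, 12)], [(11, 4, 11)], [(11, 6, 8)], [(11, 6, 9)], [(11, 6, 10)], [(10, 6, 11)], [(7, 6, 13)], [(11, 6, 11)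
  ], [(11, 7, 9)], [(11, 7, 10)], [(6, 7, 12)], [(11, 7, 8)], [(7, 7, 12)], [(11, 7, 11)], [(7, 4, 13)], [(7, 4, 14)
  ], [(10, 4, 11)], [(7, 4, 15)], [(7, 5, 12)], [(7, 5, 15)], [(10, 5, 11)], [(7, 5, 13)], [(7, 5, 14)], [(7, 6, 12)
  ], [(7, 6, 14)], [(7, 6, 15)], [(7, 7, 13)], [(7, 7, 14)], [(10, 7, 11)], [(7, 7, 15)], [(10, 4, 9)], [(10, 4, 10)
  ], [(6, 4, 13)], [(10, 4, 8)], [(10, 5, 8)], [(10, 5, 9)], [(10, 5, 10)], [(10, 6, 8)], [(10, 6, 9)], [(10, 6, 10)
  ], [(10, 7, 9)], [(10, 7, 10)], [(6, 7, 13)], [(10, 7, 8)], [(1, 11, 12)], [(5, 4, 12)], [(1, 8, 12)], [(1, 11, 13)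
  ], [(5, 4, 13)], [(1, 8, 13)], [(1, 11, 14)], [(5, 4, 14)], [(1, 8, 14)], [(1, 11, 15)], [(5, 4, 15)], [(1, 8, 15)
  ], [(1, 9, 12)], [(1, 9, 13)], [(1, 9, 14)], [(1, 9, 15)], [(4, 4, 12)], [(1, 10, 12)], [(4, 4, 13)], [(1, 10, 13)
  ], [(4, 4, 14)], [(1, 10, 14)], [(4, 4, 15)], [(1, 10, 15)], [(4, 5, 12)], [(4, 5, 13)], [(4, 5, 14)], [(4, 5, 15)
  ], [(4, 6, 12)], [(4, 6, 13)], [(4, 6, 14)], [(4, 6, 15)], [(4, 7, 12)], [(4, 7, 13)], [(4, 7, 14)], [(4, 7, 15)
  ], [(5, 5, 12)], [(5, 5, 13)], [(5, 5, 14)], [(5, 5, 15)], [(5, 6, 12)], [(5, 6, 13)], [(5, 6, 14)], [(5, 6, 15)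
  ], [(5, 7, 12)], [(5, 7, 13)], [(5, 7, 14)], [(5, 7, 15)], [(6, 4, 14)], [(6, 4, 15)], [(6, 5, 12)], [(6, 5, 13)
  ], [(6, 5, 14)], [(6, 5, 15)], [(6, 6, 12)], [(6, 6, 13)], [(6, 6, 14)], [(6, 6, 15)], [(6, 7, 14)], [(6, 7, 15)
  ]]

private theorem h0 : chk 13 5 8 31 N (okM 16 4) (rwS L1 L2) S = true := by decide +kernel

theorem ok : (sm false 16 1 3 ∅ ∅).OK :=
  ok_of_chk _ 16 4 rfl rfl P1 P2 T F L1 L2 (r := 192) N S (by decide +kernel) (by decide +kernel)
    (by decide +kernel) (by decide +kernel) (by decide +kernel) h0 (by decide +kernel)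
    (by decide +kernel) (by decide +kernel) (by decide +kernel) (by decide +kernel)

end Pool.Agent.KZ.AL.Ck.T433_1300_0
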