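import Pool.Agent.KZ.AL.OkC

/-! # KZ4, ALPHA: finite check T433_1300_P12 (generated) -/

set_option autoImplicit false
set_option maxRecDepth 100000

namespace Pool.Agent.KZ.AL.Ck.T433_1300_P12

open Pool.Agent.KZ (Tri chk rwS)
open Finset (range)

/-- The positions of the T-points. -/
private def P1 : List ((ℕ × ℕ × ℕ) × List (ℕ × ℤ)) :=
  [((0, 1, 0), [(2, 1), (3, 1), (5, 1)]), ((0, 1, 1), [(0, 1), (1, 1), (4, 2), (5, 1)]),
   ((0, 1, 2), [(0, 1), (7, 1)]), ((0, 1, 3), [(0, 1), (1, 1), (3, 3), (4, 4), (7, 4)]),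
   ((0, 2, 0), [(2, -1), (3, -1), (8, 1)]), ((0, 2, 1), [(1, 2), (3, 4), (11, 1)]),
   ((0, 2, 2), [(0, 1), (2, 1), (10, 3)]), ((0, 2, 3), [(1, 1), (8, 1), (10, 3)]),
   ((0, 3, 0), [(3, 1), (15, 2)]), ((0, 3, 1), [(3, 1), (13, 2), (15, 1)]),
   ((0, 3, 2), [(3, 1), (14, 1)]), ((0, 3, 3), [(3, 1), (12, 1), (15, 3)])]

/-- The positions of the free items. -/
private def P2 : List ((ℕ × ℕ × ℕ) × List (ℕ × ℤ)) :=
  []

private def T : List (ℕ × ℕ × ℕ) :=
  [(0, 1, 0), (0, 1, 1), (0, 1, 2), (0, 1, 3), (0, 2, 0), (0, 2, 1), (0, 2, 2), (0, 2, 3),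
   (0, 3, 0), (0, 3, 1), (0, 3, 2), (0, 3, 3)]

private def F : List (ℕ × ℕ × ℕ) :=
  []

private def L1 : List (List (ℕ × ℕ)) :=
  [[(2, 1), (3, 1), (5, 1)], [(0, 1), (1, 1), (4, 2), (5, 1)], [(0, 1), (7, 1)],
   [(0, 1), (1, 1), (3, 3), (4, 4), (7, 4)], [(2, 30), (3, 30), (8, 1)], [(1, 2), (3, 4), (11, 1)],
   [(0, 1), (2, 1), (10, 3)], [(1, 1), (8, 1), (10, 3)], [(3, 1), (15, 2)],
   [(3, 1), (13, 2), (15, 1)], [(3, 1), (14, 1)], [(3, 1), (12, 1), (15, 3)]]

private def L2 : List (List (ℕ × ℕ)) :=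
  []

private def t0 : Tri :=
  (.node (.node (.node (.node (.node .nil 68736258049 164 4 .nil) 68736258056 128 16 .nil) 68736258112 73 15 (.node (.node .nil 68736258560 72 16 .nil) 68736286721 165 16 .nil)) 68736286728 133 16 (.node (.node (.node .nil 68736286784 49 16 .nil) 68736287232 48 16 .nil) 68736516104 140 16 (.node (.node .nil 68736516160 79 15 .nil) 68736516608 78 16 .nil))) 68738351105 0 16 (.node (.node (.node (.node .nil 68738351112 147 16 .nil) 68738351168 85 15 .nil) 68738351616 84 16 (.node (.node .nil 68853699072 160 16 .nil) 68853727233 172 16 .nil)) 68853727296 55 16 (.node (.node (.node .nil 68853727744 54 16 .nil) 68853957120 161 16 .nil) 68855791617 4 16 (.node (.node .nil 68855791624 184 4 .nil) 68855792128 163 16 .nil))))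

private def t1 : Tri :=
  (.node (.node (.node (.node (.node .nil 69793223168 144 16 .nil) 69793251329 116 26 .nil) 69793251336 132 16 (.node (.node .nil 69793251392 61 16 .nil) 69793251840 60 16 .nil)) 69793480705 120 26 (.node (.node (.node .nil 69793481216 162 16 .nil) 69795315713 8 16 .nil) 69795315720 146 4 (.node (.node .nil 69795315776 124 26 .nil) 69795316224 145 16 .nil))) 77309415425 176 4 (.node (.node (.node (.node .nil 77309415432 91 8 .nil) 77309415936 90 16 .nil) 77309444097 177 16 (.node (.node .nil 77309444104 96 8 .nil) 77309444160 67 16 .nil)) 77309444608 66 16 (.node (.node (.node .nil 77309673480 101 8 .nil) 77309673984 100 16 .nil) 77311508481 12 16 (.node (.node .nil 77311508488 107 8 .nil) 77311508992 106 16 .nil))))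

private def t2 : Tri :=
  (.node t0 69793222720 112 26 t1)

private def t3 : Tri :=
  (.node (.node (.node (.node (.node .nil 549772595208 129 16 .nil) 549772595264 75 15 .nil) 549772595712 74 8 (.node (.node .nil 549772623873 167 16 .nil) 549772623880 135 16 .nil)) 549772623936 51 16 (.node (.node (.node .nil 549772624384 50 8 .nil) 549772853256 141 16 .nil) 549772853312 81 15 (.node (.node .nil 549772853760 80 8 .nil) 549774688257 1 16 .nil))) 549774688264 151 16 (.node (.node (.node (.node .nil 549774688320 87 15 .nil) 549774688768 86 8 .nil) 549890036224 156 8 (.node (.node .nil 549890064385 173 16 .nil) 549890064448 57 16 .nil)) 549890064896 56 8 (.node (.node (.node .nil 549890294272 157 8 .nil) 549892128769 5 16 .nil) 549892128776 185 4 (.node (.node .nil 549892129280 159 8 .nil) 550829559872 113 26 .nil))))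

private def t4 : Tri :=
  (.node (.node (.node (.node (.node .nil 550829588481 117 26 .nil) 550829588488 134 16 .nil) 550829588544 63 16 (.node (.node .nil 550829588992 62 8 .nil) 550829817857 121 26 .nil)) 550829818368 158 8 (.node (.node (.node .nil 550831652865 9 16 .nil) 550831652872 150 4 .nil) 550831652928 125 26 (.node (.node .nil 550831653376 149 8 .nil) 558345752577 178 4 .nil))) 558345752584 93 8 (.node (.node (.node (.node .nil 558345753088 92 8 .nil) 558345781249 179 16 .nil) 558345781256 97 8 (.node (.node .nil 558345781312 69 16 .nil) 558345781760 68 8 .nil)) 558346010632 103 8 (.node (.node (.node .nil 558346011136 102 8 .nil) 558347845633 13 16 .nil) 558347845640 109 8 (.node .nil 558347846144 108 8 .nil))))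

private def t5 : Tri :=
  (.node t3 550829560320 148 8 t4)

private def t6 : Tri :=
  (.node t2 549772595201 166 4 t5)

private def t7 : Tri :=
  (.node (.node (.node (.node (.node .nil 4398063292424 130 16 .nil) 4398063292480 76 15 .nil) 4398063292928 32 16 (.node (.node .nil 4398063321089 169 16 .nil) 4398063321096 137 16 .nil)) 4398063321152 52 16 (.node (.node (.node .nil 4398063321600 36 16 .nil) 4398063550472 142 16 .nil) 4398063550528 82 15 (.node (.node .nil 4398063550976 40 16 .nil) 4398065385473 2 16 .nil))) 4398065385480 153 16 (.node (.node (.node (.node .nil 4398065385536 88 15 .nil) 4398065385984 44 16 .nil) 4398180733440 33 16 (.node (.node .nil 4398180761601 174 16 .nil) 4398180761664 58 16 .nil)) 4398180762112 37 16 (.node (.node (.node .nil 4398180991488 41 16 .nil) 4398182825985 6 16 .nil) 4398182825992 186 4 (.node (.node .nil 4398182826496 45 16 .nil) 4399120257088 114 26 .nil))))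

private def t8 : Tri :=
  (.node (.node (.node (.node (.node .nil 4399120285697 118 26 .nil) 4399120285704 136 16 .nil) 4399120285760 64 16 (.node (.node .nil 4399120286208 38 16 .nil) 4399120515073 122 26 .nil)) 4399120515584 42 16 (.node (.node (.node .nil 4399122350081 10 16 .nil) 4399122350088 152 4 .nil) 4399122350144 126 26 (.node (.node .nil 4399122350592 46 16 .nil) 4406636449793 180 4 .nil))) 4406636449800 94 8 (.node (.node (.node (.node .nil 4406636450304 35 16 .nil) 4406636478465 181 16 .nil) 4406636478472 98 8 (.node (.node .nil 4406636478528 70 16 .nil) 4406636478976 39 16 .nil)) 4406636707848 104 8 (.node (.node (.node .nil 4406636708352 43 16 .nil) 4406638542849 14 16 .nil) 4406638542856 110 8 (.node .nil 4406638543360 47 16 .nil))))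

private def t9 : Tri :=
  (.node t7 4399120257536 34 16 t8)

private def t10 : Tri :=
  (.node (.node (.node (.node (.node .nil 35184388870152 131 16 .nil) 35184388870208 77 15 .nil) 35184388870656 16 8 (.node (.node .nil 35184388898817 171 16 .nil) 35184388898824 139 16 .nil)) 35184388898880 53 16 (.node (.node (.node .nil 35184388899328 20 8 .nil) 35184389128200 143 16 .nil) 35184389128256 83 15 (.node (.node .nil 35184389128704 24 8 .nil) 35184390963201 3 16 .nil))) 35184390963208 155 16 (.node (.node (.node (.node .nil 35184390963264 89 15 .nil) 35184390963712 28 8 .nil) 35184506311168 17 8 (.node (.node .nil 35184506339329 175 16 .nil) 35184506339392 59 16 .nil)) 35184506339840 21 8 (.node (.node (.node .nil 35184506569216 25 8 .nil) 35184508403713 7 16 .nil) 35184508403720 187 4 (.node (.node .nil 35184508404224 29 8 .nil) 35185445834816 115 26 .nil))))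

private def t11 : Tri :=
  (.node (.node (.node (.node (.node .nil 35185445863425 119 26 .nil) 35185445863432 138 16 .nil) 35185445863488 65 16 (.node (.node .nil 35185445863936 22 8 .nil) 35185446092801 123 26 .nil)) 35185446093312 26 8 (.node (.node (.node .nil 35185447927809 11 16 .nil) 35185447927816 154 4 .nil) 35185447927872 127 26 (.node (.node .nil 35185447928320 30 8 .nil) 35192962027521 182 4 .nil))) 35192962027528 95 8 (.node (.node (.node (.node .nil 35192962028032 19 8 .nil) 35192962056193 183 16 .nil) 35192962056200 99 8 (.node (.node .nil 35192962056256 71 16 .nil) 35192962056704 23 8 .nil)) 35192962285576 105 8 (.node (.node (.node .nil 35192962286080 27 8 .nil) 35192964120577 15 16 .nil) 35192964120584 111 8 (.node .nil 35192964121088 31 8 .nil))))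

private def t12 : Tri :=
  (.node t10 35185445835264 18 8 t11)

private def t13 : Tri :=
  (.node t9 35184388870145 170 4 t12)

private def t14 : Tri :=
  (.node t6 4398063292417 168 4 t13)

private def N : Tri := t14

private def S : List (List (ℕ × ℕ × ℕ)) :=
  [[(2, 8, 12)], [(2, 8, 13)], [(2, 8, 14)], [(2, 8, 15)], [(2, 9, 12)], [(2, 9, 13)], [(2, 9, 14)], [(2, 9, 15)
  ], [(2, 10, 12)], [(2, 10, 13)], [(2, 10, 14)], [(2, 10, 15)], [(2, 11, 12)], [(2, 11, 13)], [(2, 11, 14)], [(2, 11, 15)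
  ], [(8, 4, 8)], [(8, 4, 9)], [(8, 4, 10)], [(8, 4, 11)], [(8, 5, 8)], [(8, 5, 9)], [(8, 5, 10)], [(8, 5, 11)
  ], [(8, 6, 8)], [(8, 6, 9)], [(8, 6, 10)], [(8, 6, 11)], [(8, 7, 8)], [(8, 7, 9)], [(8, 7, 10)], [(8, 7, 11)
  ], [(10, 4, 8)], [(10, 4, 9)], [(10, 4, 10)], [(10, 4, 11)], [(10, 5, 8)], [(10, 5, 9)], [(10, 5, 10)], [(10, 5, 11)
  ], [(10, 6, 8)], [(10, 6, 9)], [(10, 6, 10)], [(10, 6, 11)], [(10, 7, 8)], [(10, 7, 9)], [(10, 7, 10)], [(10, 7, 11)
  ], [(11, 5, 8)], [(0, 8, 12)], [(9, 5, 8)], [(0, 8, 13)], [(0, 8, 14)], [(0, 8, 15)], [(11, 5, 9)], [(0, 9, 12)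
  ], [(9, 5, 9)], [(0, 9, 13)], [(0, 9, 14)], [(0, 9, 15)], [(11, 5, 10)], [(0, 10, 12)], [(9, 5, 10)], [(0, 10, 13)
  ], [(0, 10, 14)], [(0, 10, 15)], [(11, 5, 11)], [(0, 11, 12)], [(9, 5, 11)], [(0, 11, 13)], [(0, 11, 14)], [(0, 11, 15)
  ], [(11, 4, 8)], [(4, 4, 12)], [(9, 4, 8)], [(4, 4, 13)], [(4, 4, 14)], [(4, 4, 15)], [(11, 6, 8)], [(4, 6, 12)
  ], [(9, 6, 8)], [(4, 6, 13)], [(4, 6, 14)], [(4, 6, 15)], [(11, 7, 8)], [(4, 7, 12)], [(9, 7, 8)], [(4, 7, 13)
  ], [(4, 7, 14)], [(4, 7, 15)], [(11, 4, 11)], [(5, 4, 12)], [(9, 4, 11)], [(5, 4, 13)], [(5, 4, 14)], [(5, 4, 15)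
  ], [(5, 5, 12)], [(5, 5, 13)], [(5, 5, 14)], [(5, 5, 15)], [(11, 6, 11)], [(5, 6, 12)], [(9, 6, 11)], [(5, 6, 13)
  ], [(5, 6, 14)], [(5, 6, 15)], [(11, 7, 11)], [(5, 7, 12)], [(9, 7, 11)], [(5, 7, 13)], [(5, 7, 14)], [(5, 7, 15)
  ], [(6, 4, 12)], [(6, 4, 13)], [(6, 4, 14)], [(6, 4, 15)], [(6, 5, 12)], [(6, 5, 13)], [(6, 5, 14)], [(6, 5, 15)
  ], [(6, 6, 12)], [(6, 6, 13)], [(6, 6, 14)], [(6, 6, 15)], [(6, 7, 12)], [(6, 7, 13)], [(6, 7, 14)], [(6, 7, 15)
  ], [(7, 4, 12)], [(7, 4, 13)], [(7, 4, 14)], [(7, 4, 15)], [(1, 10, 12)], [(7, 5, 12)], [(1, 10, 13)], [(7, 5, 13)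
  ], [(1, 10, 14)], [(7, 5, 14)], [(1, 10, 15)], [(7, 5, 15)], [(7, 6, 12)], [(7, 6, 13)], [(7, 6, 14)], [(7, 6, 15)
  ], [(11, 4, 10)], [(11, 7, 10)], [(3, 10, 12)], [(7, 7, 12)], [(9, 4, 10)], [(9, 7, 10)], [(3, 10, 13)], [(7, 7, 13)
  ], [(3, 10, 14)], [(7, 7, 14)], [(3, 10, 15)], [(7, 7, 15)], [(9, 4, 9)], [(9, 6, 9)], [(9, 6, 10)], [(9, 7, 9)
  ], [(11, 4, 9)], [(11, 6, 9)], [(11, 6, 10)], [(11, 7, 9)], [(3, 8, 12)], [(1, 8, 12)], [(3, 8, 13)], [(1, 8, 13)
  ], [(3, 8, 14)], [(1, 8, 14)], [(3, 8, 15)], [(1, 8, 15)], [(1, 9, 12)], [(1, 9, 13)], [(1, 9, 14)], [(1, 9, 15)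
  ], [(3, 11, 12)], [(1, 11, 12)], [(3, 11, 13)], [(1, 11, 13)], [(3, 11, 14)], [(1, 11, 14)], [(3, 11, 15)], [(1, 11, 15)
  ], [(3, 9, 12)], [(3, 9, 13)], [(3, 9, 14)], [(3, 9, 15)]]

private theorem h0 : chk 18 5 13 31 N (okM 16 4) (rwS L1 L2) S = true := by decide +kernel

theorem ok : (sm false 16 1 3 {(0, {1, 2}, 0)} ∅).OK :=
  ok_of_chk _ 16 4 rfl rfl P1 P2 T F L1 L2 (r := 188) N S (by decide +kernel) (by decide +kernel)
    (by decide +kernel) (by decide +kernel) (by decide +kernel) h0 (by decide +kernel)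
    (by decide +kernel) (by decide +kernel) (by decide +kernel) (by decide +kernel)

end Pool.Agent.KZ.AL.Ck.T433_1300_P12
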