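import Pool.Agent.KZ.AL.OkC

/-! # KZ4, ALPHA: finite check T433_1300_P23 (generated) -/

set_option autoImplicit false
set_option maxRecDepth 100000

namespace Pool.Agent.KZ.AL.Ck.T433_1300_P23

open Pool.Agent.KZ (Tri chk rwS)
open Finset (range)

/-- The positions of the T-points. -/
private def P1 : List ((ℕ × ℕ × ℕ) × List (ℕ × ℤ)) :=
  [((0, 1, 0), [(3, 1), (5, 1), (6, 2), (7, 4)]), ((0, 1, 1), [(3, 1), (5, 1)]),
   ((0, 1, 2), [(3, 1), (4, 1)]), ((0, 1, 3), [(2, 1), (4, 1)]),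
   ((0, 2, 0), [(0, 1), (1, 1), (9, 1), (11, 1)]), ((0, 2, 1), [(1, 1), (3, 1), (10, 1), (11, 1)]),
   ((0, 2, 2), [(1, 1), (10, 1)]), ((0, 2, 3), [(1, 1), (3, 3), (8, 2)]),
   ((0, 3, 0), [(0, -1), (1, -1), (12, 1)]), ((0, 3, 1), [(0, 1), (3, 1), (13, 1), (14, 1)]),
   ((0, 3, 2), [(0, 1), (2, 2), (15, 1)]), ((0, 3, 3), [(0, 1), (2, 2), (3, 1), (14, 1)])]

/-- The positions of the free items. -/
private def P2 : List ((ℕ × ℕ × ℕ) × List (ℕ × ℤ)) :=
  []

private def T : List (ℕ × ℕ × ℕ) :=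
  [(0, 1, 0), (0, 1, 1), (0, 1, 2), (0, 1, 3), (0, 2, 0), (0, 2, 1), (0, 2, 2), (0, 2, 3),
   (0, 3, 0), (0, 3, 1), (0, 3, 2), (0, 3, 3)]

private def F : List (ℕ × ℕ × ℕ) :=
  []

private def L1 : List (List (ℕ × ℕ)) :=
  [[(3, 1), (5, 1), (6, 2), (7, 4)], [(3, 1), (5, 1)], [(3, 1), (4, 1)],
   [(2, 1), (4, 1)], [(0, 1), (1, 1), (9, 1), (11, 1)], [(1, 1), (3, 1), (10, 1), (11, 1)],
   [(1, 1), (10, 1)], [(1, 1), (3, 3), (8, 2)], [(0, 30), (1, 30), (12, 1)],
   [(0, 1), (3, 1), (13, 1), (14, 1)], [(0, 1), (2, 2), (15, 1)], [(0, 1), (2, 2), (3, 1), (14, 1)]]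

private def L2 : List (List (ℕ × ℕ)) :=
  []

private def t0 : Tri :=
  (.node (.node (.node (.node (.node .nil 68736258049 84 15 .nil) 68736258056 64 8 .nil) 68736258112 32 16 (.node (.node .nil 68736258560 16 16 .nil) 68736286721 89 15 .nil)) 68736286728 68 8 (.node (.node (.node .nil 68736287232 0 16 .nil) 68736516097 94 15 .nil) 68736516104 73 8 (.node (.node .nil 68736516608 72 8 .nil) 68738351105 102 15 .nil))) 68738351112 80 8 (.node (.node (.node (.node .nil 68853698561 85 15 .nil) 68853698624 36 16 .nil) 68853699072 20 16 (.node (.node .nil 68853727233 90 15 .nil) 68853727744 4 16 .nil)) 68853956609 95 15 (.node (.node (.node .nil 68853957120 122 8 .nil) 68855791617 103 15 .nil) 69793222657 86 15 (.node (.node .nil 69793222664 48 16 .nil) 69793222720 40 16 .nil))))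

private def t1 : Tri :=
  (.node (.node (.node (.node (.node .nil 69793251329 91 15 .nil) 69793251336 52 16 .nil) 69793251840 8 16 (.node (.node .nil 69793480705 96 15 .nil) 69793480712 56 16 .nil)) 69793481216 98 8 (.node (.node (.node .nil 69795315713 104 15 .nil) 69795315720 60 16 .nil) 69795316224 97 16 (.node (.node .nil 77309415425 88 15 .nil) 77309415432 87 16 .nil))) 77309415488 44 16 (.node (.node (.node (.node .nil 77309415936 28 16 .nil) 77309444097 93 15 .nil) 77309444104 92 16 (.node (.node .nil 77309444608 12 16 .nil) 77309673473 101 15 .nil)) 77309673480 100 16 (.node (.node (.node .nil 77309673984 99 8 .nil) 77311508481 105 15 .nil) 549772595201 180 16 (.node (.node .nil 549772595208 65 8 .nil) 549772595264 33 16 .nil))))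

private def t2 : Tri :=
  (.node t0 69793223168 24 16 t1)

private def t3 : Tri :=
  (.node (.node (.node (.node (.node .nil 549772623873 182 16 .nil) 549772623880 69 8 .nil) 549772624384 1 16 (.node (.node .nil 549772853249 184 16 .nil) 549772853256 75 8 .nil)) 549772853760 74 8 (.node (.node (.node .nil 549774688257 186 16 .nil) 549774688264 81 8 .nil) 549890035713 149 16 (.node (.node .nil 549890035720 152 16 .nil) 549890035776 37 16 .nil))) 549890036224 21 16 (.node (.node (.node (.node .nil 549890064385 157 16 .nil) 549890064392 160 16 .nil) 549890064896 5 16 (.node (.node .nil 549890293761 165 16 .nil) 549890293768 168 16 .nil)) 549890294272 123 8 (.node (.node (.node .nil 549892128769 173 16 .nil) 549892128776 176 16 .nil) 550829559809 181 16 (.node (.node .nil 550829559816 49 16 .nil) 550829559872 41 16 .nil))))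

private def t4 : Tri :=
  (.node (.node (.node (.node (.node .nil 550829588481 183 16 .nil) 550829588488 53 16 .nil) 550829588992 9 16 (.node (.node .nil 550829817857 185 16 .nil) 550829817864 57 16 .nil)) 550829818368 126 8 (.node (.node (.node .nil 550831652865 187 16 .nil) 550831652872 61 16 .nil) 558345752577 150 16 (.node (.node .nil 558345752584 151 16 .nil) 558345752640 45 16 .nil))) 558345753088 29 16 (.node (.node (.node (.node .nil 558345781249 158 16 .nil) 558345781256 159 16 .nil) 558345781760 13 16 (.node (.node .nil 558346010625 166 16 .nil) 558346010632 167 16 .nil)) 558346011136 130 8 (.node (.node (.node .nil 558347845633 174 16 .nil) 558347845640 175 16 .nil) 4398063292417 133 16 (.node .nil 4398063292424 66 8 .nil))))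

private def t5 : Tri :=
  (.node t3 550829560320 25 16 t4)

private def t6 : Tri :=
  (.node t2 549772595712 17 16 t5)

private def t7 : Tri :=
  (.node (.node (.node (.node (.node .nil 4398063292928 18 16 .nil) 4398063321096 70 8 .nil) 4398063321152 137 8 (.node (.node .nil 4398063321600 2 16 .nil) 4398063550472 77 8 .nil)) 4398063550528 141 8 (.node (.node (.node .nil 4398063550976 76 8 .nil) 4398065385480 82 8 .nil) 4398065385536 145 8 (.node (.node .nil 4398180732929 134 16 .nil) 4398180732936 154 16 .nil))) 4398180732992 38 16 (.node (.node (.node (.node .nil 4398180733440 22 16 .nil) 4398180761608 162 16 .nil) 4398180761664 138 8 (.node (.node .nil 4398180762112 6 16 .nil) 4398180990984 170 16 .nil)) 4398180991040 142 8 (.node (.node (.node .nil 4398180991488 124 8 .nil) 4398182825992 178 16 .nil) 4398182826048 146 8 (.node (.node .nil 4399120257025 135 16 .nil) 4399120257032 50 16 .nil))))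

private def t8 : Tri :=
  (.node (.node (.node (.node (.node .nil 4399120257536 26 16 .nil) 4399120285704 54 16 .nil) 4399120285760 139 8 (.node (.node .nil 4399120286208 10 16 .nil) 4399120515080 58 16 .nil)) 4399120515136 143 8 (.node (.node (.node .nil 4399120515584 127 8 .nil) 4399122350088 62 16 .nil) 4399122350144 147 8 (.node (.node .nil 4406636449793 136 16 .nil) 4406636449800 153 16 .nil))) 4406636449856 46 16 (.node (.node (.node (.node .nil 4406636450304 30 16 .nil) 4406636478472 161 16 .nil) 4406636478528 140 8 (.node (.node .nil 4406636478976 14 16 .nil) 4406636707848 169 16 .nil)) 4406636707904 144 8 (.node (.node (.node .nil 4406636708352 131 8 .nil) 4406638542856 177 16 .nil) 4406638542912 148 8 (.node .nil 35184388870145 106 16 .nil))))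

private def t9 : Tri :=
  (.node t7 4399120257088 42 16 t8)

private def t10 : Tri :=
  (.node (.node (.node (.node (.node .nil 35184388870208 35 16 .nil) 35184388870656 19 16 .nil) 35184388898817 110 16 (.node (.node .nil 35184388898824 71 8 .nil) 35184388899328 3 16 .nil)) 35184389128193 114 16 (.node (.node (.node .nil 35184389128200 79 8 .nil) 35184389128704 78 8 .nil) 35184390963201 118 16 (.node (.node .nil 35184390963208 83 8 .nil) 35184506310657 107 16 .nil))) 35184506310664 156 16 (.node (.node (.node (.node .nil 35184506310720 39 16 .nil) 35184506311168 23 16 .nil) 35184506339336 164 16 (.node (.node .nil 35184506339392 111 8 .nil) 35184506339840 7 16 .nil)) 35184506568712 172 16 (.node (.node (.node .nil 35184506568768 115 8 .nil) 35184506569216 125 8 .nil) 35184508403720 179 16 (.node (.node .nil 35184508403776 119 8 .nil) 35185445834753 108 16 .nil))))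

private def t11 : Tri :=
  (.node (.node (.node (.node (.node .nil 35185445834816 43 16 .nil) 35185445835264 27 16 .nil) 35185445863425 112 16 (.node (.node .nil 35185445863432 55 16 .nil) 35185445863936 11 16 .nil)) 35185446092801 116 16 (.node (.node (.node .nil 35185446092808 59 16 .nil) 35185446093312 129 8 .nil) 35185447927809 120 16 (.node (.node .nil 35185447927816 63 16 .nil) 35185447928320 128 16 .nil))) 35192962027521 109 16 (.node (.node (.node (.node .nil 35192962027528 155 16 .nil) 35192962027584 47 16 .nil) 35192962028032 31 16 (.node (.node .nil 35192962056200 163 16 .nil) 35192962056256 113 8 .nil)) 35192962056704 15 16 (.node (.node (.node .nil 35192962285576 171 16 .nil) 35192962285632 117 8 .nil) 35192962286080 132 8 (.node .nil 35192964120640 121 8 .nil))))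

private def t12 : Tri :=
  (.node t10 35185445834760 51 16 t11)

private def t13 : Tri :=
  (.node t9 35184388870152 67 8 t12)

private def t14 : Tri :=
  (.node t6 4398063292480 34 16 t13)

private def N : Tri := t14

private def S : List (List (ℕ × ℕ × ℕ)) :=
  [[(1, 8, 12)], [(1, 8, 13)], [(1, 8, 14)], [(1, 8, 15)], [(1, 9, 12)], [(1, 9, 13)], [(1, 9, 14)], [(1, 9, 15)
  ], [(1, 10, 12)], [(1, 10, 13)], [(1, 10, 14)], [(1, 10, 15)], [(1, 11, 12)], [(1, 11, 13)], [(1, 11, 14)], [(1, 11, 15)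
  ], [(2, 8, 12)], [(2, 8, 13)], [(2, 8, 14)], [(2, 8, 15)], [(2, 9, 12)], [(2, 9, 13)], [(2, 9, 14)], [(2, 9, 15)
  ], [(2, 10, 12)], [(2, 10, 13)], [(2, 10, 14)], [(2, 10, 15)], [(2, 11, 12)], [(2, 11, 13)], [(2, 11, 14)], [(2, 11, 15)
  ], [(3, 8, 12)], [(3, 8, 13)], [(3, 8, 14)], [(3, 8, 15)], [(3, 9, 12)], [(3, 9, 13)], [(3, 9, 14)], [(3, 9, 15)
  ], [(3, 10, 12)], [(3, 10, 13)], [(3, 10, 14)], [(3, 10, 15)], [(3, 11, 12)], [(3, 11, 13)], [(3, 11, 14)], [(3, 11, 15)
  ], [(6, 4, 12)], [(6, 4, 13)], [(6, 4, 14)], [(6, 4, 15)], [(6, 5, 12)], [(6, 5, 13)], [(6, 5, 14)], [(6, 5, 15)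
  ], [(6, 6, 12)], [(6, 6, 13)], [(6, 6, 14)], [(6, 6, 15)], [(6, 7, 12)], [(6, 7, 13)], [(6, 7, 14)], [(6, 7, 15)
  ], [(7, 4, 12)], [(7, 4, 13)], [(7, 4, 14)], [(7, 4, 15)], [(7, 5, 12)], [(7, 5, 13)], [(7, 5, 14)], [(7, 5, 15)
  ], [(0, 8, 12)], [(7, 6, 12)], [(0, 8, 13)], [(7, 6, 13)], [(0, 8, 14)], [(7, 6, 14)], [(0, 8, 15)], [(7, 6, 15)
  ], [(7, 7, 12)], [(7, 7, 13)], [(7, 7, 14)], [(7, 7, 15)], [(8, 4, 8)], [(8, 4, 9)], [(8, 4, 10)], [(5, 4, 12)
  ], [(8, 4, 11)], [(8, 5, 8)], [(8, 5, 9)], [(8, 5, 10)], [(5, 5, 12)], [(8, 5, 11)], [(8, 6, 8)], [(8, 6, 9)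
  ], [(8, 6, 10)], [(5, 7, 12)], [(0, 10, 12)], [(0, 11, 12)], [(5, 6, 12)], [(8, 6, 11)], [(8, 7, 8)], [(8, 7, 9)
  ], [(8, 7, 10)], [(8, 7, 11)], [(10, 4, 8)], [(10, 4, 9)], [(10, 4, 10)], [(10, 4, 11)], [(10, 5, 8)], [(10, 5, 9)
  ], [(10, 5, 10)], [(10, 5, 11)], [(10, 6, 8)], [(10, 6, 9)], [(10, 6, 10)], [(10, 6, 11)], [(10, 7, 8)], [(10, 7, 9)
  ], [(10, 7, 10)], [(10, 7, 11)], [(0, 9, 12)], [(0, 9, 13)], [(0, 9, 14)], [(0, 9, 15)], [(0, 10, 13)], [(0, 10, 14)
  ], [(5, 7, 15)], [(0, 10, 15)], [(0, 11, 13)], [(0, 11, 14)], [(0, 11, 15)], [(11, 4, 8)], [(11, 4, 9)], [(11, 4, 10)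
  ], [(11, 4, 11)], [(11, 5, 8)], [(11, 5, 9)], [(11, 5, 10)], [(11, 5, 11)], [(11, 6, 8)], [(11, 6, 9)], [(11, 6, 10)
  ], [(11, 6, 11)], [(11, 7, 8)], [(11, 7, 9)], [(11, 7, 10)], [(11, 7, 11)], [(9, 4, 9)], [(9, 4, 11)], [(5, 4, 13)
  ], [(4, 4, 13)], [(5, 4, 14)], [(4, 4, 14)], [(5, 4, 15)], [(4, 4, 15)], [(9, 5, 9)], [(9, 5, 11)], [(5, 5, 13)
  ], [(4, 5, 13)], [(5, 5, 14)], [(4, 5, 14)], [(5, 5, 15)], [(4, 5, 15)], [(9, 6, 9)], [(9, 6, 11)], [(5, 6, 13)
  ], [(4, 6, 13)], [(5, 6, 14)], [(4, 6, 14)], [(5, 6, 15)], [(4, 6, 15)], [(9, 7, 9)], [(9, 7, 11)], [(5, 7, 13)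
  ], [(4, 7, 13)], [(5, 7, 14)], [(4, 7, 14)], [(4, 7, 15)], [(9, 4, 8)], [(9, 4, 10)], [(9, 5, 8)], [(9, 5, 10)
  ], [(9, 6, 8)], [(9, 6, 10)], [(9, 7, 8)], [(9, 7, 10)]]

private theorem h0 : chk 18 5 13 31 N (okM 16 4) (rwS L1 L2) S = true := by decide +kernel

theorem ok : (sm false 16 1 3 {(0, {2, 3}, 0)} ∅).OK :=
  ok_of_chk _ 16 4 rfl rfl P1 P2 T F L1 L2 (r := 188) N S (by decide +kernel) (by decide +kernel)
    (by decide +kernel) (by decide +kernel) (by decide +kernel) h0 (by decide +kernel)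
    (by decide +kernel) (by decide +kernel) (by decide +kernel) (by decide +kernel)

end Pool.Agent.KZ.AL.Ck.T433_1300_P23
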