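import Pool.Agent.KZ.AL.OkC

/-! # KZ4, ALPHA: finite check T433_1300_Q (generated) -/

set_option autoImplicit false
set_option maxRecDepth 100000

namespace Pool.Agent.KZ.AL.Ck.T433_1300_Q

open Pool.Agent.KZ (Tri chk rwS)
open Finset (range)

/-- The positions of the T-points. -/
private def P1 : List ((ℕ × ℕ × ℕ) × List (ℕ × ℤ)) :=
  [((0, 1, 0), [(0, 1), (2, 1), (5, 1), (6, 2), (7, 1)]), ((0, 1, 1), [(3, 1), (5, 1)]),
   ((0, 1, 2), [(0, 2), (2, 1), (3, 1), (6, 1)]), ((0, 1, 3), [(0, 4), (1, 1), (2, 1), (3, 2), (4, 1), (5, 1)]),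
   ((0, 2, 0), [(1, 1), (10, 1), (11, 1)]), ((0, 2, 1), [(0, 1), (1, 1), (8, 1)]),
   ((0, 2, 2), [(1, 3), (8, 1), (9, 1)]), ((0, 2, 3), [(1, 1), (8, 1), (11, 1)]),
   ((0, 3, 0), [(0, 1), (14, 1)]), ((0, 3, 1), [(0, -1), (1, -1), (3, -1), (13, 1), (15, 1)]),
   ((0, 3, 2), [(0, 1), (15, 1)]), ((0, 3, 3), [(2, 1), (12, 3), (14, 4), (15, 1)])]

/-- The positions of the free items. -/
private def P2 : List ((ℕ × ℕ × ℕ) × List (ℕ × ℤ)) :=
  []

private def T : List (ℕ × ℕ × ℕ) :=
  [(0, 1, 0), (0, 1, 1), (0, 1, 2), (0, 1, 3), (0, 2, 0), (0, 2, 1), (0, 2, 2), (0, 2, 3),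
   (0, 3, 0), (0, 3, 1), (0, 3, 2), (0, 3, 3)]

private def F : List (ℕ × ℕ × ℕ) :=
  []

private def L1 : List (List (ℕ × ℕ)) :=
  [[(0, 1), (2, 1), (5, 1), (6, 2), (7, 1)], [(3, 1), (5, 1)], [(0, 2), (2, 1), (3, 1), (6, 1)],
   [(0, 4), (1, 1), (2, 1), (3, 2), (4, 1), (5, 1)], [(1, 1), (10, 1), (11, 1)], [(0, 1), (1, 1), (8, 1)],
   [(1, 3), (8, 1), (9, 1)], [(1, 1), (8, 1), (11, 1)], [(0, 1), (14, 1)],
   [(0, 30), (1, 30), (3, 30), (13, 1), (15, 1)], [(0, 1), (15, 1)], [(2, 1), (12, 3), (14, 4), (15, 1)]]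

private def L2 : List (List (ℕ × ℕ)) :=
  []

private def t0 : Tri :=
  (.node (.node (.node (.node (.node .nil 68736258049 97 16 .nil) 68736258112 142 26 .nil) 68736258560 179 8 (.node (.node .nil 68736286721 68 16 .nil) 68736286784 69 26 .nil)) 68736287232 0 16 (.node (.node (.node .nil 68736516097 75 8 .nil) 68736516104 76 16 .nil) 68736516160 70 26 (.node (.node .nil 68736516608 118 16 .nil) 68738351105 71 16 .nil))) 68738351168 74 26 (.node (.node (.node (.node .nil 68853698561 182 4 .nil) 68853698568 102 26 .nil) 68853698624 144 26 (.node (.node .nil 68853727240 106 26 .nil) 68853727296 149 26 .nil)) 68853727744 4 16 (.node (.node (.node .nil 68853956616 110 26 .nil) 68853956672 123 26 .nil) 68853957120 124 16 (.node (.node .nil 68855791617 162 16 .nil) 68855791624 114 26 .nil))))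

private def t1 : Tri :=
  (.node (.node (.node (.node (.node .nil 69793222657 185 4 .nil) 69793222664 49 16 .nil) 69793222720 146 26 (.node (.node .nil 69793251336 59 16 .nil) 69793251392 150 26 .nil)) 69793251840 8 16 (.node (.node (.node .nil 69793480712 78 16 .nil) 69793480768 129 26 .nil) 69793481216 130 16 (.node (.node .nil 69795315713 165 16 .nil) 69795315720 88 16 .nil))) 69795315776 157 26 (.node (.node (.node (.node .nil 77309415425 188 4 .nil) 77309415432 48 16 .nil) 77309415488 148 26 (.node (.node .nil 77309444104 58 16 .nil) 77309444160 151 26 .nil)) 77309444608 12 16 (.node (.node (.node .nil 77309673480 77 16 .nil) 77309673536 135 26 .nil) 77309673984 136 16 (.node (.node .nil 77311508481 168 16 .nil) 77311508488 87 16 .nil))))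

private def t2 : Tri :=
  (.node t0 68855791680 154 26 t1)

private def t3 : Tri :=
  (.node (.node (.node (.node (.node .nil 549772595201 98 16 .nil) 549772595264 180 16 .nil) 549772595712 171 15 (.node (.node .nil 549772623873 99 16 .nil) 549772624384 1 16 .nil)) 549772853249 100 16 (.node (.node (.node .nil 549772853312 121 16 .nil) 549772853760 120 15 .nil) 549774688257 101 16 (.node (.node .nil 549774688320 161 16 .nil) 549774688768 175 15 .nil))) 549890035713 172 15 (.node (.node (.node (.node .nil 549890035720 103 26 .nil) 549890035776 183 16 .nil) 549890064385 163 15 (.node (.node .nil 549890064392 107 26 .nil) 549890064896 5 16 .nil)) 549890293768 111 26 (.node (.node (.node .nil 549890293824 127 16 .nil) 549890294272 126 15 .nil) 549892128776 115 26 (.node (.node .nil 549892128832 164 16 .nil) 549892129280 176 15 .nil))))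

private def t4 : Tri :=
  (.node (.node (.node (.node (.node .nil 550829559816 51 16 .nil) 550829559872 186 16 .nil) 550829588481 166 15 (.node (.node .nil 550829588488 61 16 .nil) 550829588992 9 16 .nil)) 550829817864 80 16 (.node (.node (.node .nil 550829817920 133 16 .nil) 550829818368 132 15 .nil) 550831652872 90 16 (.node (.node .nil 550831652928 167 16 .nil) 550831653376 177 15 .nil))) 558345752577 174 15 (.node (.node (.node (.node .nil 558345752584 50 16 .nil) 558345752640 189 16 .nil) 558345781249 169 15 (.node (.node .nil 558345781256 60 16 .nil) 558345781760 13 16 .nil)) 558346010632 79 16 (.node (.node (.node .nil 558346010688 139 16 .nil) 558346011136 138 15 .nil) 558347845640 89 16 (.node (.node .nil 558347845696 170 16 .nil) 558347846144 178 15 .nil))))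

private def t5 : Tri :=
  (.node t3 550829559809 173 15 t4)

private def t6 : Tri :=
  (.node t2 77311508544 160 26 t5)

private def t7 : Tri :=
  (.node (.node (.node (.node (.node .nil 4398063292424 52 16 .nil) 4398063292928 181 8 .nil) 4398063321089 20 16 (.node (.node .nil 4398063321096 62 16 .nil) 4398063321600 2 16 .nil)) 4398063550465 24 16 (.node (.node (.node .nil 4398063550472 81 16 .nil) 4398063550976 122 16 .nil) 4398065385473 28 16 (.node (.node .nil 4398065385480 91 16 .nil) 4398065385536 72 16 .nil))) 4398180732929 17 16 (.node (.node (.node (.node .nil 4398180732936 104 26 .nil) 4398180733440 184 8 .nil) 4398180761601 21 16 (.node (.node .nil 4398180761608 108 26 .nil) 4398180762112 6 16 .nil)) 4398180990977 25 16 (.node (.node (.node .nil 4398180990984 112 26 .nil) 4398180991488 128 16 .nil) 4398182825985 29 16 (.node (.node .nil 4398182825992 116 26 .nil) 4398182826048 152 16 .nil))))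

private def t8 : Tri :=
  (.node (.node (.node (.node (.node .nil 4399120257032 54 16 .nil) 4399120257536 187 8 .nil) 4399120285697 22 16 (.node (.node .nil 4399120285704 64 16 .nil) 4399120286208 10 16 .nil)) 4399120515073 26 16 (.node (.node (.node .nil 4399120515080 83 16 .nil) 4399120515584 134 16 .nil) 4399122350081 30 16 (.node (.node .nil 4399122350088 93 16 .nil) 4399122350144 155 16 .nil))) 4406636449793 19 16 (.node (.node (.node (.node .nil 4406636449800 53 16 .nil) 4406636450304 190 8 .nil) 4406636478465 23 16 (.node (.node .nil 4406636478472 63 16 .nil) 4406636478976 14 16 .nil)) 4406636707841 27 16 (.node (.node (.node .nil 4406636707848 82 16 .nil) 4406636708352 140 16 .nil) 4406638542849 31 16 (.node (.node .nil 4406638542856 92 16 .nil) 4406638542912 158 16 .nil))))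

private def t9 : Tri :=
  (.node t7 4399120257025 18 16 t8)

private def t10 : Tri :=
  (.node (.node (.node (.node (.node .nil 35184388870152 55 16 .nil) 35184388870208 141 16 .nil) 35184388898817 36 16 (.node (.node .nil 35184388898824 65 16 .nil) 35184388899328 3 16 .nil)) 35184389128193 40 16 (.node (.node (.node .nil 35184389128200 84 16 .nil) 35184389128704 119 16 .nil) 35184390963201 44 16 (.node (.node .nil 35184390963208 94 16 .nil) 35184390963264 73 16 .nil))) 35184506310657 33 16 (.node (.node (.node (.node .nil 35184506310664 105 26 .nil) 35184506310720 143 16 .nil) 35184506339329 37 16 (.node (.node .nil 35184506339336 109 26 .nil) 35184506339840 7 16 .nil)) 35184506568705 41 16 (.node (.node (.node .nil 35184506568712 113 26 .nil) 35184506569216 125 16 .nil) 35184508403713 45 16 (.node (.node .nil 35184508403720 117 26 .nil) 35184508403776 153 16 .nil))))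

private def t11 : Tri :=
  (.node (.node (.node (.node (.node .nil 35185445834760 57 16 .nil) 35185445834816 145 16 .nil) 35185445863425 38 16 (.node (.node .nil 35185445863432 67 16 .nil) 35185445863936 11 16 .nil)) 35185446092801 42 16 (.node (.node (.node .nil 35185446092808 86 16 .nil) 35185446093312 131 16 .nil) 35185447927809 46 16 (.node (.node .nil 35185447927816 96 16 .nil) 35185447927872 156 16 .nil))) 35192962027521 35 16 (.node (.node (.node (.node .nil 35192962027528 56 16 .nil) 35192962027584 147 16 .nil) 35192962056193 39 16 (.node (.node .nil 35192962056200 66 16 .nil) 35192962056704 15 16 .nil)) 35192962285569 43 16 (.node (.node (.node .nil 35192962285576 85 16 .nil) 35192962286080 137 16 .nil) 35192964120577 47 16 (.node (.node .nil 35192964120584 95 16 .nil) 35192964120640 159 16 .nil))))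

private def t12 : Tri :=
  (.node t10 35185445834753 34 16 t11)

private def t13 : Tri :=
  (.node t9 35184388870145 32 16 t12)

private def t14 : Tri :=
  (.node t6 4398063292417 16 16 t13)

private def N : Tri := t14

private def S : List (List (ℕ × ℕ × ℕ)) :=
  [[(1, 8, 12)], [(1, 8, 13)], [(1, 8, 14)], [(1, 8, 15)], [(1, 9, 12)], [(1, 9, 13)], [(1, 9, 14)], [(1, 9, 15)
  ], [(1, 10, 12)], [(1, 10, 13)], [(1, 10, 14)], [(1, 10, 15)], [(1, 11, 12)], [(1, 11, 13)], [(1, 11, 14)], [(1, 11, 15)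
  ], [(8, 4, 8)], [(8, 4, 9)], [(8, 4, 10)], [(8, 4, 11)], [(8, 5, 8)], [(8, 5, 9)], [(8, 5, 10)], [(8, 5, 11)
  ], [(8, 6, 8)], [(8, 6, 9)], [(8, 6, 10)], [(8, 6, 11)], [(8, 7, 8)], [(8, 7, 9)], [(8, 7, 10)], [(8, 7, 11)
  ], [(10, 4, 8)], [(10, 4, 9)], [(10, 4, 10)], [(10, 4, 11)], [(10, 5, 8)], [(10, 5, 9)], [(10, 5, 10)], [(10, 5, 11)
  ], [(10, 6, 8)], [(10, 6, 9)], [(10, 6, 10)], [(10, 6, 11)], [(10, 7, 8)], [(10, 7, 9)], [(10, 7, 10)], [(10, 7, 11)
  ], [(7, 4, 12)], [(4, 4, 12)], [(7, 4, 13)], [(4, 4, 13)], [(5, 4, 14)], [(7, 4, 14)], [(4, 4, 14)], [(5, 4, 15)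
  ], [(7, 4, 15)], [(4, 4, 15)], [(7, 5, 12)], [(4, 5, 12)], [(7, 5, 13)], [(4, 5, 13)], [(5, 5, 14)], [(7, 5, 14)
  ], [(4, 5, 14)], [(5, 5, 15)], [(7, 5, 15)], [(4, 5, 15)], [(5, 5, 12)], [(11, 5, 8)], [(11, 6, 8)], [(5, 7, 12)
  ], [(0, 8, 14)], [(0, 8, 15)], [(11, 7, 8)], [(0, 8, 12)], [(5, 6, 12)], [(7, 6, 12)], [(4, 6, 12)], [(7, 6, 13)
  ], [(4, 6, 13)], [(5, 6, 14)], [(7, 6, 14)], [(4, 6, 14)], [(5, 6, 15)], [(7, 6, 15)], [(4, 6, 15)], [(7, 7, 12)
  ], [(4, 7, 12)], [(7, 7, 13)], [(4, 7, 13)], [(5, 7, 14)], [(7, 7, 14)], [(4, 7, 14)], [(5, 7, 15)], [(7, 7, 15)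
  ], [(4, 7, 15)], [(5, 4, 12)], [(5, 4, 13)], [(5, 5, 13)], [(5, 6, 13)], [(5, 7, 13)], [(6, 4, 12)], [(6, 4, 13)
  ], [(6, 4, 14)], [(6, 4, 15)], [(6, 5, 12)], [(6, 5, 13)], [(6, 5, 14)], [(6, 5, 15)], [(6, 6, 12)], [(6, 6, 13)
  ], [(6, 6, 14)], [(6, 6, 15)], [(6, 7, 12)], [(6, 7, 13)], [(6, 7, 14)], [(6, 7, 15)], [(2, 8, 12)], [(2, 8, 15)
  ], [(9, 6, 8)], [(2, 8, 13)], [(2, 8, 14)], [(11, 6, 9)], [(2, 9, 12)], [(2, 9, 15)], [(9, 6, 9)], [(2, 9, 13)
  ], [(2, 9, 14)], [(11, 6, 10)], [(2, 10, 12)], [(2, 10, 15)], [(9, 6, 10)], [(2, 10, 13)], [(2, 10, 14)], [(11, 6, 11)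
  ], [(2, 11, 12)], [(2, 11, 15)], [(9, 6, 11)], [(2, 11, 13)], [(2, 11, 14)], [(3, 8, 15)], [(11, 4, 8)], [(3, 9, 15)
  ], [(11, 4, 9)], [(3, 10, 15)], [(11, 4, 10)], [(3, 11, 15)], [(11, 4, 11)], [(11, 5, 9)], [(11, 5, 10)], [(11, 5, 11)
  ], [(0, 9, 14)], [(0, 9, 15)], [(11, 7, 9)], [(0, 10, 14)], [(0, 10, 15)], [(11, 7, 10)], [(0, 11, 14)], [(0, 11, 15)
  ], [(11, 7, 11)], [(0, 8, 13)], [(0, 9, 12)], [(9, 5, 9)], [(0, 9, 13)], [(0, 10, 12)], [(9, 5, 10)], [(0, 10, 13)
  ], [(0, 11, 12)], [(9, 5, 11)], [(0, 11, 13)], [(9, 4, 8)], [(9, 4, 9)], [(9, 4, 10)], [(9, 4, 11)], [(9, 7, 8)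
  ], [(9, 7, 9)], [(9, 7, 10)], [(9, 7, 11)], [(3, 8, 12)], [(3, 8, 13)], [(3, 8, 14)], [(3, 9, 12)], [(3, 9, 13)
  ], [(3, 9, 14)], [(3, 10, 12)], [(3, 10, 13)], [(3, 10, 14)], [(3, 11, 12)], [(3, 11, 13)], [(3, 11, 14)]]

private theorem h0 : chk 20 5 15 31 N (okM 16 4) (rwS L1 L2) S = true := by decide +kernel

theorem ok : (sm false 16 1 3 {(0, {1, 2, 3}, 1)} ∅).OK :=
  ok_of_chk _ 16 4 rfl rfl P1 P2 T F L1 L2 (r := 191) N S (by decide +kernel) (by decide +kernel)
    (by decide +kernel) (by decide +kernel) (by decide +kernel) h0 (by decide +kernel)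
    (by decide +kernel) (by decide +kernel) (by decide +kernel) (by decide +kernel)

end Pool.Agent.KZ.AL.Ck.T433_1300_Q
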