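import Pool.Agent.KZ.AL.OkC

/-! # KZ4, ALPHA: finite check T433_2100_0 (generated) -/

set_option autoImplicit false
set_option maxRecDepth 100000

namespace Pool.Agent.KZ.AL.Ck.T433_2100_0

open Pool.Agent.KZ (Tri chk rwS)
open Finset (range)

/-- The positions of the T-points. -/
private def P1 : List ((ℕ × ℕ × ℕ) × List (ℕ × ℤ)) :=
  [((0, 2, 0), [(0, 1), (8, 1), (9, 1)]), ((0, 2, 1), [(1, 1), (9, 1)]),
   ((0, 2, 2), [(3, 1), (8, 1)]), ((0, 2, 3), [(2, 1), (8, 1), (11, 1)]),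
   ((1, 2, 0), [(4, 1), (6, 1), (9, 1), (10, 1), (11, 3)]), ((1, 2, 1), [(4, 1), (5, 1), (7, 1), (9, 1), (10, 1)]),
   ((1, 2, 2), [(7, 1), (9, 1), (10, 1), (11, 1)]), ((1, 2, 3), [(4, 1), (9, 1), (11, 1)])]

/-- The positions of the free items. -/
private def P2 : List ((ℕ × ℕ × ℕ) × List (ℕ × ℤ)) :=
  [((0, 2, 0), [(2, 1), (11, 1)]), ((1, 2, 0), [(4, 1), (7, 1), (11, 1)])]

private def T : List (ℕ × ℕ × ℕ) :=
  [(0, 2, 0), (0, 2, 1), (0, 2, 2), (0, 2, 3), (1, 2, 0), (1, 2, 1), (1, 2, 2), (1, 2, 3)]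

private def F : List (ℕ × ℕ × ℕ) :=
  [(0, 2, 0), (1, 2, 0)]

private def L1 : List (List (ℕ × ℕ)) :=
  [[(0, 1), (8, 1), (9, 1)], [(1, 1), (9, 1)], [(3, 1), (8, 1)],
   [(2, 1), (8, 1), (11, 1)], [(4, 1), (6, 1), (9, 1), (10, 1), (11, 3)], [(4, 1), (5, 1), (7, 1), (9, 1), (10, 1)],
   [(7, 1), (9, 1), (10, 1), (11, 1)], [(4, 1), (9, 1), (11, 1)]]

private def L2 : List (List (ℕ × ℕ)) :=
  [[(2, 1), (11, 1)], [(4, 1), (7, 1), (11, 1)]]

private def t0 : Tri :=
  (.node (.node (.node (.node (.node .nil 16781314 88 40971 .nil) 16781321 216 16 .nil) 16781328 72 1 (.node (.node .nil 16781377 177 0x17008008 .nil) 16781384 226 16 .nil)) 16781440 100 40971 (.node (.node (.node .nil 16781825 89 16 .nil) 16781832 96 16 .nil) 16781888 101 16 (.node .nil 16782336 114 45066 .nil))) 16785409 23 1 (.node (.node (.node (.node .nil 16785416 198 1 .nil) 16785472 61 1 .nil) 16785920 10 16 (.node .nil 16809986 90 40971 .nil)) 16809993 217 16 (.node (.node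 (.node .nil 16810000 76 1 .nil) 16810049 220 16 .nil) 16810056 227 16 (.node .nil 16810112 104 40971 .nil))))

private def t1 : Tri :=
  (.node (.node (.node (.node (.node .nil 16810504 97 16 .nil) 16810560 105 16 .nil) 16811008 115 45066 (.node (.node .nil 16814081 25 16 .nil) 16814088 287 16 .nil)) 16814144 135 16 (.node (.node (.node .nil 16814592 11 16 .nil) 16842753 38 1 .nil) 16842816 159 1 (.node .nil 16843264 14 16 .nil))) 17039362 92 40971 (.node (.node (.node (.node .nil 17039369 218 16 .nil) 17039376 81 1 .nil) 17039425 221 16 (.node .nil 17039432 228 16 .nil)) 17039488 108 40971 (.node (.node (.node .nil 17039873 93 16 .nil) 17039880 98 16 .nil) 17039936 109 16 (.node .nil 17040384 116 45066 .nil))))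

private def t2 : Tri :=
  (.node t0 16810497 91 16 t1)

private def t3 : Tri :=
  (.node (.node (.node (.node (.node .nil 17043464 253 16 .nil) 17043520 136 16 .nil) 17043968 12 16 (.node (.node .nil 17072129 40 16 .nil) 17072192 173 16 .nil)) 17072640 15 16 (.node (.node (.node .nil 17301505 45 1 .nil) 17301568 167 1 .nil) 17302016 17 16 (.node .nil 18874370 94 40971 .nil))) 18874377 219 16 (.node (.node (.node (.node .nil 18874384 85 1 .nil) 18874433 188 16 .nil) 18874440 229 16 (.node .nil 18874496 112 40971 .nil)) 18874881 95 16 (.node (.node (.node .nil 18874888 99 16 .nil) 18874944 113 16 .nil) 18875392 117 45066 (.node .nil 18878465 27 16 .nil))))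

private def t4 : Tri :=
  (.node (.node (.node (.node (.node .nil 18878976 13 16 .nil) 18907137 28 16 .nil) 18907200 154 16 (.node .nil 18907648 16 16 .nil)) 19136513 47 16 (.node (.node (.node .nil 19136576 174 16 .nil) 19137024 18 16 .nil) 20971521 33 1 (.node .nil 20971528 206 1 .nil))) 20971584 140 1 (.node (.node (.node (.node .nil 20972032 19 16 .nil) 33558529 88 45066 .nil) 33558592 100 45066 (.node .nil 33559040 114 40971 .nil)) 33587201 90 45066 (.node (.node (.node .nil 33587264 104 45066 .nil) 33587712 115 40971 .nil) 33816577 92 45066 (.node .nil 33816640 108 45066 .nil))))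

private def t5 : Tri :=
  (.node t3 18878528 143 16 t4)

private def t6 : Tri :=
  (.node t2 17043457 26 16 t5)

private def t7 : Tri :=
  (.node (.node (.node (.node (.node .nil 35651585 94 45066 .nil) 35651648 112 45066 .nil) 35652096 117 40971 (.node (.node .nil 134221826 20 1 .nil) 134221833 49 16 .nil)) 134221840 53 45066 (.node (.node (.node .nil 134221889 177 0x8017008 .nil) 134221896 64 16 .nil) 134221952 58 16 (.node .nil 134222337 178 16 .nil))) 134222344 68 16 (.node (.node (.node (.node .nil 134222400 185 16 .nil) 134222848 118 1 .nil) 134225921 24 16 (.node .nil 134225928 0 16 .nil)) 134225984 63 40971 (.node (.node (.node .nil 134226432 182 1 .nil) 134250498 34 1 .nil) 134250505 50 16 (.node .nil 134250512 54 45066 .nil))))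

private def t8 : Tri :=
  (.node (.node (.node (.node (.node .nil 134250624 155 1 .nil) 134251009 223 16 .nil) 134251016 69 16 (.node .nil 134251072 249 16 .nil)) 134251520 122 1 (.node (.node (.node .nil 134254600 1 16 .nil) 134283265 39 16 .nil) 134283272 4 16 (.node .nil 134283328 149 1 .nil))) 134283776 276 1 (.node (.node (.node (.node .nil 134479874 41 1 .nil) 134479881 51 16 .nil) 134479888 55 45066 (.node .nil 134479937 222 16 .nil)) 134479944 66 16 (.node (.node (.node .nil 134480000 164 1 .nil) 134480385 224 16 .nil) 134480392 70 16 (.node .nil 134480448 243 16 .nil))))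

private def t9 : Tri :=
  (.node t7 134250568 65 16 t8)

private def t10 : Tri :=
  (.node (.node (.node (.node (.node .nil 134483976 2 16 .nil) 134484032 161 16 .nil) 134512648 5 16 (.node (.node .nil 134512704 171 16 .nil) 134513152 279 16 .nil)) 134742017 46 16 (.node (.node (.node .nil 134742024 7 16 .nil) 134742080 163 1 .nil) 134742528 257 1 (.node .nil 136314882 29 1 .nil))) 136314889 52 16 (.node (.node (.node (.node .nil 136314896 56 45066 .nil) 136314952 67 16 .nil) 136315008 137 1 (.node .nil 136315393 191 16 .nil)) 136315400 71 16 (.node (.node (.node .nil 136315456 196 16 .nil) 136315904 123 1 .nil) 136318984 3 16 (.node .nil 136319040 144 16 .nil))))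

private def t11 : Tri :=
  (.node (.node (.node (.node (.node .nil 136347712 148 16 .nil) 136348160 275 16 .nil) 136577032 8 16 (.node .nil 136577088 170 0x17018 .nil)) 136577536 278 0x17018 (.node (.node (.node .nil 138412033 48 16 .nil) 138412040 9 16 .nil) 138412096 145 1 (.node .nil 138412544 211 1 .nil))) 150999104 59 16 (.node (.node (.node (.node .nil 268439560 53 40971 .nil) 268439616 63 45066 .nil) 268468232 54 40971 (.node .nil 268697608 55 40971 .nil)) 270532616 56 40971 (.node (.node (.node .nil 1073745922 35 1 .nil) 1073745936 73 1 .nil) 1073746048 156 1 (.node .nil 1073746944 119 1 .nil))))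

private def t12 : Tri :=
  (.node t10 136347656 6 16 t11)

private def t13 : Tri :=
  (.node t9 134480896 129 1 t12)

private def t14 : Tri :=
  (.node t6 33817088 116 40971 t13)

private def t15 : Tri :=
  (.node (.node (.node (.node (.node .nil 1073750024 199 1 .nil) 1073750080 150 1 .nil) 1073750528 201 1 (.node (.node .nil 1073774594 36 16 .nil) 1073774601 244 16 .nil)) 1073774608 78 16 (.node (.node (.node .nil 1073774657 245 16 .nil) 1073774664 247 16 .nil) 1073774720 157 16 (.node .nil 1073775105 246 16 .nil))) 1073775112 248 16 (.node (.node (.node (.node .nil 1073775616 126 16 .nil) 1073778689 262 16 .nil) 1073778696 268 16 (.node .nil 1073778752 151 16 .nil)) 1073779200 274 16 (.node (.node (.node .nil 1073807361 264 45066 .nil) 1073807368 270 45066 .nil) 1073807424 152 45066 (.node .nil 1073807872 277 45066 .nil))))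

private def t16 : Tri :=
  (.node (.node (.node (.node (.node .nil 1074003977 238 16 .nil) 1074003984 83 16 .nil) 1074004033 239 16 (.node .nil 1074004040 241 16 .nil)) 1074004096 165 16 (.node (.node (.node .nil 1074004481 240 16 .nil) 1074004488 242 16 .nil) 1074004992 131 16 (.node .nil 1074008065 250 16 .nil))) 1074008072 254 16 (.node (.node (.node (.node .nil 1074008128 162 16 .nil) 1074008576 258 16 .nil) 1074036737 266 16 (.node .nil 1074036744 272 16 .nil)) 1074266113 252 40971 (.node (.node (.node .nil 1074266120 256 40971 .nil) 1074266176 169 40971 .nil) 1074266624 260 40971 (.node .nil 1075838978 31 16 .nil))))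

private def t17 : Tri :=
  (.node t15 1074003970 43 16 t16)

private def t18 : Tri :=
  (.node (.node (.node (.node (.node .nil 1075839041 190 16 .nil) 1075839048 193 16 .nil) 1075839104 138 16 (.node (.node .nil 1075840000 125 16 .nil) 1075843073 261 16 .nil)) 1075843080 267 16 (.node (.node (.node .nil 1075843136 146 16 .nil) 1075843584 273 16 .nil) 1075871745 263 16 (.node .nil 1075871752 269 16 .nil))) 1076101121 265 0x17018 (.node (.node (.node (.node .nil 1076101128 271 0x17018 .nil) 1077936129 205 40971 .nil) 1077936136 210 40971 (.node .nil 1077936192 147 45066 .nil)) 1077936640 215 40971 (.node (.node (.node .nil 1090551809 37 16 .nil) 1090551872 158 16 .nil) 1090552320 127 16 (.node .nil 1090781185 44 16 .nil))))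

private def t19 : Tri :=
  (.node (.node (.node (.node (.node .nil 1090781696 132 16 .nil) 1092616193 32 16 .nil) 1092616256 139 16 (.node .nil 1092616704 133 16 .nil)) 1207992328 79 16 (.node (.node (.node .nil 1208221704 84 16 .nil) 2147516417 264 40971 .nil) 2147516424 270 40971 (.node .nil 2147516480 152 40971 .nil))) 2147516928 277 40971 (.node (.node (.node (.node .nil 2147745793 252 45066 .nil) 2147745800 256 45066 .nil) 2147745856 169 45066 (.node .nil 2147746304 260 45066 .nil)) 2149580801 205 45066 (.node (.node (.node .nil 2149580808 210 45066 .nil) 2149580864 147 40971 .nil) 2149581312 215 45066 (.node .nil 8589938690 21 16 .nil))))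

private def t20 : Tri :=
  (.node t18 1090781248 166 16 t19)

private def t21 : Tri :=
  (.node t17 1075838992 77 1 t20)

private def t22 : Tri :=
  (.node (.node (.node (.node (.node .nil 8589938704 74 16 .nil) 8589938753 177 0x8008017 .nil) 8589938760 180 16 (.node (.node .nil 8589938816 57 21 .nil) 8589939201 179 16 .nil)) 8589939208 181 16 (.node (.node (.node .nil 8589939264 184 16 .nil) 8589939712 120 16 .nil) 8589942785 176 40971 (.node .nil 8589942792 200 40971 .nil))) 8589942848 62 16 (.node (.node (.node (.node .nil 8589943296 183 40971 .nil) 8589967362 186 1 .nil) 8589967376 80 1 (.node .nil 8589967425 225 16 .nil)) 8589967488 102 21 (.node (.node (.node .nil 8589967936 230 16 .nil) 8589968384 128 1 .nil) 8589971457 232 16 (.node .nil 8589971464 234 16 .nil))))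

private def t23 : Tri :=
  (.node (.node (.node (.node (.node .nil 8589971968 236 16 .nil) 8590000129 286 1 .nil) 8590000136 288 1 (.node .nil 8590000192 160 16 .nil)) 8590000640 289 1 (.node (.node (.node .nil 8590196738 42 1 .nil) 8590196752 82 1 .nil) 8590196864 106 21 (.node .nil 8590197312 231 16 .nil))) 8590197760 130 1 (.node (.node (.node (.node .nil 8590200833 233 16 .nil) 8590200840 235 16 .nil) 8590201344 237 16 (.node .nil 8590229505 283 26 .nil)) 8590229512 284 26 (.node (.node (.node .nil 8590229568 172 26 .nil) 8590230016 285 26 .nil) 8590458881 251 1 (.node .nil 8590458888 255 1 .nil))))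

private def t24 : Tri :=
  (.node t22 8589971520 134 16 t23)

private def t25 : Tri :=
  (.node (.node (.node (.node (.node .nil 8590459392 259 1 .nil) 8592031746 30 1 .nil) 8592031753 187 16 (.node (.node .nil 8592031760 86 16 .nil) 8592031809 189 16 .nil)) 8592031872 110 21 (.node (.node (.node .nil 8592032257 192 16 .nil) 8592032264 194 16 .nil) 8592032320 195 16 (.node .nil 8592032768 124 1 .nil))) 8592035841 202 16 (.node (.node (.node (.node .nil 8592035848 207 16 .nil) 8592035904 142 26 .nil) 8592036352 212 16 (.node .nil 8592064513 280 16 .nil)) 8592064520 281 16 (.node (.node (.node .nil 8592064576 153 16 .nil) 8592065024 282 16 .nil) 8592293889 265 32791 (.node .nil 8592293896 271 32791 .nil))))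

private def t26 : Tri :=
  (.node (.node (.node (.node (.node .nil 8592294400 278 32791 .nil) 8594128897 203 21 .nil) 8594128904 208 21 (.node .nil 8594128960 141 16 .nil)) 8594129408 213 21 (.node (.node (.node .nil 8606715905 22 16 .nil) 8606715968 60 16 .nil) 8606716416 121 16 (.node .nil 8606744640 103 16 .nil))) 8606974016 107 16 (.node (.node (.node (.node .nil 8608809024 111 16 .nil) 8724156424 75 16 .nil) 8726249480 87 16 (.node .nil 9665773569 204 16 .nil)) 9665773576 209 16 (.node (.node (.node .nil 9665774080 214 16 .nil) 17179873281 176 45066 .nil) 17179873288 200 45066 (.node .nil 17179873792 183 45066 .nil))))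

private def t27 : Tri :=
  (.node t25 8592293952 170 32791 t26)

private def t28 : Tri :=
  (.node t24 8590458944 168 16 t27)

private def t29 : Tri :=
  (.node t21 8589938697 175 16 t28)

private def t30 : Tri :=
  (.node t14 1073750017 197 1 t29)

private def N : Tri := t30

private def S : List (List (ℕ × ℕ × ℕ)) :=
  [[(1, 4, 4)], [(1, 4, 5)], [(1, 4, 6)], [(1, 4, 7)], [(1, 5, 5)], [(1, 5, 6)], [(1, 5, 7)], [(1, 6, 6)
  ], [(1, 6, 7)], [(1, 7, 7)], [(2, 4, 4)], [(2, 4, 5)], [(2, 4, 6)], [(2, 4, 7)], [(2, 5, 5)], [(2, 5, 6)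
  ], [(2, 5, 7)], [(2, 6, 6)], [(2, 6, 7)], [(2, 7, 7)], [(0, 4, 9)], [(7, 0, 0)], [(0, 4, 11)], [(7, 0, 8)
  ], [(0, 4, 4)], [(0, 4, 5)], [(0, 4, 6)], [(0, 4, 7)], [(0, 5, 7)], [(0, 7, 9)], [(0, 7, 11)], [(6, 0, 0)
  ], [(0, 7, 10)], [(6, 0, 8)], [(0, 5, 9)], [(0, 4, 10)], [(5, 0, 0)], [(0, 5, 10)], [(5, 0, 8)], [(0, 5, 5)
  ], [(0, 5, 6)], [(0, 6, 9)], [(0, 6, 11)], [(4, 0, 0)], [(0, 6, 10)], [(4, 0, 8)], [(0, 6, 6)], [(0, 6, 7)
  ], [(0, 7, 7)], [(1, 0, 4)], [(1, 0, 5)], [(1, 0, 6)], [(1, 0, 7)], [(1, 4, 9), (1, 1, 4)], [(1, 5, 9)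
  , (1, 1, 5)], [(1, 6, 9), (1, 1, 6)], [(1, 7, 9), (1, 1, 7)], [(8, 4, 0)], [(7, 2, 2)], [(3, 4, 9)
  ], [(3, 4, 11)], [(7, 2, 8)], [(3, 4, 4)], [(7, 2, 4), (7, 2, 9)], [(1, 2, 4)], [(1, 2, 5)], [(1, 2, 6)
  ], [(1, 2, 7)], [(1, 3, 4)], [(1, 3, 5)], [(1, 3, 6)], [(1, 3, 7)], [(1, 4, 8)], [(1, 4, 10)], [(7, 1, 1)
  ], [(1, 4, 11)], [(1, 5, 8)], [(1, 7, 10)], [(5, 1, 1)], [(1, 5, 10)], [(1, 5, 11)], [(1, 6, 8)], [(1, 6, 11)
  ], [(4, 1, 1)], [(1, 6, 10)], [(1, 7, 8)], [(6, 1, 1)], [(1, 7, 11)], [(0, 0, 4), (0, 4, 8)], [(2, 0, 4)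
  ], [(0, 0, 5), (0, 5, 8)], [(2, 0, 5)], [(0, 0, 6), (0, 6, 8)], [(2, 0, 6)], [(0, 0, 7), (0, 7, 8)
  ], [(2, 0, 7)], [(2, 1, 4)], [(2, 1, 5)], [(2, 1, 6)], [(2, 1, 7)], [(3, 2, 4), (3, 4, 8)], [(2, 2, 4)
  ], [(8, 5, 0)], [(3, 5, 11)], [(3, 2, 5), (3, 5, 8)], [(2, 2, 5)], [(8, 6, 0)], [(3, 6, 11)], [(3, 2, 6)
  , (3, 6, 8)], [(2, 2, 6)], [(8, 7, 0)], [(3, 7, 11)], [(3, 2, 7), (3, 7, 8)], [(2, 2, 7)], [(2, 4, 8)
  , (2, 3, 4)], [(2, 5, 8), (2, 3, 5)], [(2, 6, 8), (2, 3, 6)], [(2, 7, 8), (2, 3, 7)], [(2, 4, 9)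
  ], [(2, 4, 10)], [(7, 3, 3)], [(2, 4, 11)], [(2, 5, 9)], [(2, 7, 9)], [(2, 7, 11)], [(6, 3, 3)], [(5, 3, 3)
  ], [(2, 5, 10)], [(2, 5, 11)], [(2, 6, 9)], [(2, 6, 11)], [(4, 3, 3)], [(2, 6, 10)], [(2, 7, 10)], [(7, 2, 5)
  ], [(3, 4, 5)], [(3, 4, 6)], [(3, 7, 9)], [(6, 2, 2)], [(3, 7, 10)], [(6, 2, 8)], [(3, 7, 7)], [(9, 2, 0)
  ], [(3, 4, 7)], [(7, 2, 7)], [(6, 2, 9)], [(6, 2, 4)], [(6, 2, 10), (6, 2, 7)], [(5, 2, 7)], [(5, 2, 9)
  ], [(7, 2, 10)], [(5, 2, 4)], [(5, 2, 10), (5, 2, 5)], [(6, 2, 5)], [(3, 5, 7)], [(3, 5, 9)], [(3, 4, 10)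
  ], [(5, 2, 2)], [(3, 5, 10)], [(5, 2, 8)], [(3, 5, 5)], [(7, 2, 6)], [(4, 2, 4)], [(4, 2, 9)], [(3, 6, 9)
  ], [(4, 2, 2)], [(3, 6, 10)], [(4, 2, 8)], [(3, 6, 6)], [(4, 2, 6), (4, 2, 10)], [(6, 2, 6), (4, 2, 7)
  ], [(5, 2, 6)], [(4, 2, 5)], [(3, 5, 6)], [(3, 6, 7)], [(7, 0, 1)], [(7, 0, 4), (7, 0, 11)], [(0, 2, 4)
  , (3, 0, 4), (7, 0, 2)], [(0, 3, 4)], [(7, 0, 3)], [(7, 1, 2)], [(7, 1, 3)], [(7, 3, 9)], [(7, 3, 4)
  , (7, 3, 11)], [(3, 3, 4)], [(7, 2, 3)], [(0, 5, 11)], [(6, 0, 1)], [(0, 2, 7)], [(3, 0, 7)], [(6, 0, 2)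
  ], [(0, 3, 7)], [(6, 0, 3)], [(6, 1, 2)], [(6, 1, 3)], [(3, 3, 7)], [(6, 2, 3)], [(7, 0, 10)], [(7, 1, 8)
  ], [(7, 1, 10)], [(7, 1, 4), (7, 1, 11)], [(7, 3, 10)], [(7, 0, 7)], [(9, 0, 0)], [(6, 0, 11)], [(6, 0, 7)
  , (6, 0, 10)], [(6, 1, 8)], [(7, 1, 7)], [(9, 1, 0)], [(6, 1, 11)], [(6, 1, 7), (6, 1, 10)], [(6, 3, 9)
  ], [(7, 3, 7)], [(9, 3, 0)], [(6, 3, 11)], [(6, 3, 7), (6, 3, 10)], [(0, 1, 4)], [(0, 1, 5)], [(0, 1, 6)
  ], [(0, 1, 7)], [(0, 2, 5)], [(3, 0, 6)], [(0, 2, 6)], [(0, 3, 5)], [(0, 3, 6)], [(3, 0, 5)], [(3, 1, 4)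
  ], [(3, 1, 5)], [(3, 1, 6)], [(3, 1, 7)], [(3, 3, 5)], [(3, 3, 6)], [(7, 0, 5)], [(7, 0, 6)], [(7, 1, 5)
  ], [(7, 1, 6)], [(7, 3, 5)], [(7, 3, 6)], [(4, 0, 1)], [(4, 0, 2)], [(4, 0, 3)], [(4, 1, 2)], [(4, 1, 3)
  ], [(4, 2, 3)], [(5, 0, 1)], [(5, 0, 2)], [(5, 0, 3)], [(5, 1, 2)], [(5, 1, 3)], [(5, 2, 3)], [(4, 0, 4)
  ], [(4, 0, 11)], [(4, 0, 6), (4, 0, 10)], [(4, 1, 8)], [(4, 1, 4)], [(4, 1, 11)], [(4, 1, 6), (4, 1, 10)
  ], [(4, 3, 9)], [(4, 3, 4)], [(4, 3, 11)], [(4, 3, 6), (4, 3, 10)], [(6, 0, 4)], [(5, 0, 4)], [(5, 0, 7)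
  ], [(5, 0, 10), (5, 0, 5)], [(6, 0, 6), (4, 0, 7)], [(5, 0, 6)], [(6, 1, 4)], [(5, 1, 4)], [(5, 1, 7)
  ], [(5, 1, 10), (5, 1, 5)], [(6, 1, 6), (4, 1, 7)], [(5, 1, 6)], [(6, 3, 4)], [(5, 3, 4)], [(5, 3, 7)
  ], [(5, 3, 9)], [(5, 3, 10), (5, 3, 5)], [(6, 3, 6), (4, 3, 7)], [(5, 3, 6)], [(6, 0, 5)], [(6, 1, 5)
  ], [(6, 3, 5)], [(4, 0, 5)], [(4, 1, 5)], [(4, 3, 5)], [(5, 0, 11)], [(5, 1, 8)], [(5, 1, 11)], [(5, 3, 11)
  ]]

private theorem h0 : chk 12 5 7 31 N (okM 12 3) (rwS L1 L2) S = true := by decide +kernel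

theorem ok : (sm false 12 2 1 ∅ {(0, 2, 0), (1, 2, 0)}).OK :=
  ok_of_chk _ 12 3 rfl rfl P1 P2 T F L1 L2 (r := 328) N S (by decide +kernel) (by decide +kernel)
    (by decide +kernel) (by decide +kernel) (by decide +kernel) h0 (by decide +kernel)
    (by decide +kernel) (by decide +kernel) (by decide +kernel) (by decide +kernel)

end Pool.Agent.KZ.AL.Ck.T433_2100_0
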