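import Pool.Agent.KZ.AL.OkC

/-! # KZ4, ALPHA: finite check T433_2101_0 (generated) -/

set_option autoImplicit false
set_option maxRecDepth 100000

namespace Pool.Agent.KZ.AL.Ck.T433_2101_0

open Pool.Agent.KZ (Tri chk rwS)
open Finset (range)

/-- The positions of the T-points. -/
private def P1 : List ((ℕ × ℕ × ℕ) × List (ℕ × ℤ)) :=
  [((0, 2, 0), [(2, 1), (10, 1), (11, 1)]), ((0, 2, 1), [(0, 1), (1, 4), (2, 4), (3, 4), (8, 1), (9, 1), (10, 3), (11, 1)]),
   ((0, 2, 2), [(3, 1), (11, 1)]), ((0, 2, 3), [(0, 1), (8, 1), (10, 4), (11, 1)]),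
   ((1, 2, 0), [(7, 1), (8, 1), (10, 1)]), ((1, 2, 1), [(6, 1), (9, 1), (10, 1)]),
   ((1, 2, 2), [(4, 1), (8, 2)]), ((1, 2, 3), [(4, 1), (9, 1), (10, 1)])]

/-- The positions of the free items. -/
private def P2 : List ((ℕ × ℕ × ℕ) × List (ℕ × ℤ)) :=
  []

private def T : List (ℕ × ℕ × ℕ) :=
  [(0, 2, 0), (0, 2, 1), (0, 2, 2), (0, 2, 3), (1, 2, 0), (1, 2, 1), (1, 2, 2), (1, 2, 3)]

private def F : List (ℕ × ℕ × ℕ) :=
  []

private def L1 : List (List (ℕ × ℕ)) :=
  [[(2, 1), (10, 1), (11, 1)], [(0, 1), (1, 4), (2, 4), (3, 4), (8, 1), (9, 1), (10, 3), (11, 1)], [(3, 1), (11, 1)],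
   [(0, 1), (8, 1), (10, 4), (11, 1)], [(7, 1), (8, 1), (10, 1)], [(6, 1), (9, 1), (10, 1)],
   [(4, 1), (8, 2)], [(4, 1), (9, 1), (10, 1)]]

private def L2 : List (List (ℕ × ℕ)) :=
  []

private def t0 : Tri :=
  (.node (.node (.node (.node (.node .nil 68736258049 4 8 .nil) 68736258056 5 8 .nil) 68736258112 6 8 (.node .nil 68736258560 7 8 .nil)) 68736286721 25 16 (.node (.node .nil 68736286728 29 4 .nil) 68736516097 26 16 (.node .nil 68736516104 30 4 .nil))) 68738351105 12 16 (.node (.node (.node .nil 68738351112 13 16 .nil) 68738351168 14 16 (.node .nil 68738351616 15 16 .nil)) 68853698561 20 16 (.node (.node .nil 68853698568 21 16 .nil) 68853698624 22 16 (.node .nil 68853699072 23 16 .nil))))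

private def t1 : Tri :=
  (.node (.node (.node (.node .nil 68853956616 17 16 .nil) 68853956672 18 16 (.node .nil 68853957120 19 16 .nil)) 68855791617 31 16 (.node (.node .nil 69793251392 9 16 .nil) 77309415425 24 16 (.node .nil 77309415432 28 4 .nil))) 77309415488 8 16 (.node (.node (.node .nil 77309415936 0 16 .nil) 77309444608 1 16 (.node .nil 77309673536 10 16 .nil)) 77309673984 2 16 (.node (.node .nil 77311508481 27 16 .nil) 77311508544 11 16 (.node .nil 77311508992 3 16 .nil))))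

private def t2 : Tri :=
  (.node t0 68853956609 16 16 t1)

private def N : Tri := t2

private def S : List (List (ℕ × ℕ × ℕ)) :=
  [[(2, 4, 12)], [(2, 5, 12)], [(2, 6, 12)], [(2, 7, 12)], [(6, 0, 12)], [(6, 1, 12)], [(6, 2, 12)], [(6, 3, 12)
  ], [(0, 4, 12)], [(0, 5, 12)], [(0, 6, 12)], [(0, 7, 12)], [(4, 0, 12)], [(4, 1, 12)], [(4, 2, 12)], [(4, 3, 12)
  ], [(5, 0, 12)], [(5, 1, 12)], [(5, 2, 12)], [(5, 3, 12)], [(7, 0, 12)], [(7, 1, 12)], [(7, 2, 12)], [(7, 3, 12)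
  ], [(3, 4, 12)], [(3, 5, 12)], [(3, 6, 12)], [(3, 7, 12)], [(1, 4, 12)], [(1, 5, 12)], [(1, 6, 12)], [(1, 7, 12)
  ]]

private theorem h0 : chk 15 5 10 31 N (okM 13 4) (rwS L1 L2) S = true := by decide +kernel

theorem ok : (sm false 13 2 1 ∅ ∅).OK :=
  ok_of_chk _ 13 4 rfl rfl P1 P2 T F L1 L2 (r := 32) N S (by decide +kernel) (by decide +kernel)
    (by decide +kernel) (by decide +kernel) (by decide +kernel) h0 (by decide +kernel)
    (by decide +kernel) (by decide +kernel) (by decide +kernel) (by decide +kernel)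

end Pool.Agent.KZ.AL.Ck.T433_2101_0
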