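import Pool.Agent.KZ.AL.OkC

/-! # KZ4, ALPHA: finite check T433_2110_0 (generated) -/

set_option autoImplicit false
set_option maxRecDepth 100000

namespace Pool.Agent.KZ.AL.Ck.T433_2110_0

open Pool.Agent.KZ (Tri chk rwS)
open Finset (range)

/-- The positions of the T-points. -/
private def P1 : List ((ℕ × ℕ × ℕ) × List (ℕ × ℤ)) :=
  [((0, 2, 0), [(3, 1), (8, 1), (9, 1)]), ((0, 2, 1), [(1, 1), (3, 1), (9, 4), (10, 1)]),
   ((0, 2, 2), [(2, 1), (9, 1)]), ((0, 2, 3), [(0, 1), (1, 1), (8, 1), (9, 1), (10, 1), (11, 1)]),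
   ((0, 3, 0), [(0, 1), (12, 1), (15, 1)]), ((0, 3, 1), [(1, 1), (13, 1)]),
   ((0, 3, 2), [(0, 1), (1, 1), (2, 4), (13, 1), (15, 1)]), ((1, 2, 0), [(7, 1), (10, 1)]),
   ((1, 2, 1), [(6, 1), (10, 1)]), ((1, 2, 2), [(4, 1), (8, 1)]),
   ((1, 2, 3), [(5, 1), (8, 1), (11, 1)]), ((1, 3, 0), [(4, 1), (7, 1), (15, 1)]),
   ((1, 3, 1), [(4, 1), (5, 1), (14, 1)]), ((1, 3, 2), [(5, 1), (6, 1), (7, 1), (12, 1), (13, 1)]),
   ((2, 3, 0), [(11, 1), (12, 1), (13, 4), (15, 1)]), ((2, 3, 1), [(8, 1), (10, 1), (12, 2), (14, 1)]),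
   ((2, 3, 2), [(10, 1), (11, 4), (12, 1), (14, 1)])]

/-- The positions of the free items. -/
private def P2 : List ((ℕ × ℕ × ℕ) × List (ℕ × ℤ)) :=
  []

private def T : List (ℕ × ℕ × ℕ) :=
  [(0, 2, 0), (0, 2, 1), (0, 2, 2), (0, 2, 3), (0, 3, 0), (0, 3, 1), (0, 3, 2), (1, 2, 0),
   (1, 2, 1), (1, 2, 2), (1, 2, 3), (1, 3, 0), (1, 3, 1), (1, 3, 2), (2, 3, 0), (2, 3, 1),
   (2, 3, 2)]

private def F : List (ℕ × ℕ × ℕ) :=
  []

private def L1 : List (List (ℕ × ℕ)) :=
  [[(3, 1), (8, 1), (9, 1)], [(1, 1), (3, 1), (9, 4), (10, 1)], [(2, 1), (9, 1)],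
   [(0, 1), (1, 1), (8, 1), (9, 1), (10, 1), (11, 1)], [(0, 1), (12, 1), (15, 1)], [(1, 1), (13, 1)],
   [(0, 1), (1, 1), (2, 4), (13, 1), (15, 1)], [(7, 1), (10, 1)], [(6, 1), (10, 1)],
   [(4, 1), (8, 1)], [(5, 1), (8, 1), (11, 1)], [(4, 1), (7, 1), (15, 1)],
   [(4, 1), (5, 1), (14, 1)], [(5, 1), (6, 1), (7, 1), (12, 1), (13, 1)], [(11, 1), (12, 1), (13, 4), (15, 1)],
   [(8, 1), (10, 1), (12, 2), (14, 1)], [(10, 1), (11, 4), (12, 1), (14, 1)]]

private def L2 : List (List (ℕ × ℕ)) :=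
  []

private def t0 : Tri :=
  (.node (.node (.node (.node .nil 68736258049 62 16 .nil) 68736258056 66 16 (.node .nil 68736258112 69 16 .nil)) 68736258560 73 16 (.node (.node .nil 68736286721 131 0xe003013 .nil) 68736286728 95 0x1201500d (.node .nil 68736286784 173 16 .nil))) 68736287232 109 0xe003013 (.node (.node (.node .nil 68736516104 142 16 .nil) 68736516160 216 16 (.node .nil 68736516608 115 16 .nil)) 68738351105 134 16 (.node (.node .nil 68738351112 141 16 .nil) 68738351616 116 16 (.node .nil 68853698561 102 16 .nil))))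

private def t1 : Tri :=
  (.node (.node (.node (.node .nil 68853698624 0 16 .nil) 68853699072 77 16 (.node .nil 68853727233 132 16 .nil)) 68853727240 111 4 (.node (.node .nil 68853727296 4 16 .nil) 68853727744 110 16 (.node .nil 68853956609 148 16 .nil))) 68853956616 113 16 (.node (.node (.node .nil 68853956672 8 16 .nil) 68853957120 114 4 (.node .nil 68855791617 136 16 .nil)) 68855791624 112 4 (.node (.node .nil 68855791680 12 16 .nil) 69793222657 85 16 (.node .nil 69793222664 97 8 .nil))))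

private def t2 : Tri :=
  (.node t0 68853698568 103 16 t1)

private def t3 : Tri :=
  (.node (.node (.node (.node .nil 69793223168 104 16 .nil) 69793251329 131 0x1901c00c (.node .nil 69793251336 92 16 .nil)) 69793251392 180 61456 (.node (.node .nil 69793251840 109 0x1901c00c .nil) 69793480705 47 16 (.node .nil 69793480712 51 16 .nil))) 69793480768 54 16 (.node (.node (.node .nil 69793481216 58 16 .nil) 69795315713 32 16 (.node .nil 69795315720 36 16 .nil)) 69795315776 39 16 (.node (.node .nil 69795316224 43 16 .nil) 77309415425 90 4 (.node .nil 77309415432 99 4 .nil))))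

private def t4 : Tri :=
  (.node (.node (.node (.node .nil 77309415936 197 4 .nil) 77309444097 131 0x1101c01c (.node .nil 77309444104 95 0xd01a012 .nil)) 77309444160 172 16 (.node (.node .nil 77309444608 109 0x1101c01c .nil) 77309673473 146 0x1001b004 (.node .nil 77309673480 147 16 .nil))) 77309673536 196 0x17018002 (.node (.node (.node .nil 77311508481 138 16 .nil) 77311508488 140 16 (.node .nil 77311508544 195 16 .nil)) 549772595201 63 16 (.node (.node .nil 549772595208 16 16 .nil) 549772595264 70 16 .nil)))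

private def t5 : Tri :=
  (.node t3 77309415488 184 4 t4)

private def t6 : Tri :=
  (.node t2 69793222720 182 8 t5)

private def t7 : Tri :=
  (.node (.node (.node (.node .nil 549772623873 149 16 .nil) 549772623880 20 16 (.node .nil 549772623936 169 16 .nil)) 549772624384 121 16 (.node (.node .nil 549772853249 213 16 .nil) 549772853256 24 16 (.node .nil 549772853760 118 16 .nil))) 549774688257 214 16 (.node (.node (.node .nil 549774688264 28 16 .nil) 549774688320 215 4 (.node .nil 549774688768 120 16 .nil)) 549890035713 227 16 (.node (.node .nil 549890035720 17 16 .nil) 549890035776 1 16 (.node .nil 549890036224 78 16 .nil))))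

private def t8 : Tri :=
  (.node (.node (.node (.node .nil 549890064392 21 16 .nil) 549890064448 5 16 (.node .nil 549890064896 122 16 .nil)) 549890293761 154 16 (.node (.node .nil 549890293768 25 16 .nil) 549890293824 9 16 (.node .nil 549890294272 117 4 .nil))) 549892128769 153 16 (.node (.node (.node .nil 549892128776 29 16 .nil) 549892128832 13 16 (.node .nil 549892129280 119 4 .nil)) 550829559809 228 16 (.node (.node .nil 550829559816 18 16 .nil) 550829559872 229 4 .nil)))

private def t9 : Tri :=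
  (.node t7 549890064385 151 16 t8)

private def t10 : Tri :=
  (.node (.node (.node (.node .nil 550829588481 150 16 .nil) 550829588488 22 16 (.node .nil 550829588544 230 16 .nil)) 550829588992 203 16 (.node (.node .nil 550829817857 48 16 .nil) 550829817864 26 16 (.node .nil 550829817920 55 16 .nil))) 550829818368 59 16 (.node (.node (.node .nil 550831652865 33 16 .nil) 550831652872 30 16 (.node .nil 550831652928 40 16 .nil)) 550831653376 44 16 (.node (.node .nil 558345752577 179 4 .nil) 558345752584 19 16 (.node .nil 558345752640 185 36890 .nil))))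

private def t11 : Tri :=
  (.node (.node (.node (.node .nil 558345781249 144 4 .nil) 558345781256 23 16 (.node .nil 558345781760 124 16 .nil)) 558346010625 146 16411 (.node (.node .nil 558346010632 27 16 .nil) 558346010688 196 0x801701d (.node .nil 558346011136 200 16 .nil))) 558347845633 145 4 (.node (.node (.node .nil 558347845640 31 16 .nil) 558347845696 194 4 (.node .nil 558347846144 199 4 .nil)) 4398063292417 64 16 (.node (.node .nil 4398063292424 67 16 .nil) 4398063292480 71 16 .nil)))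

private def t12 : Tri :=
  (.node t10 558345753088 198 4 t11)

private def t13 : Tri :=
  (.node t9 550829560320 202 16 t12)

private def t14 : Tri :=
  (.node t6 549772595712 74 16 t13)

private def t15 : Tri :=
  (.node (.node (.node (.node .nil 4398063321089 87 16 .nil) 4398063321096 93 16 (.node .nil 4398063321152 174 16 .nil)) 4398063321600 107 16 (.node (.node .nil 4398063550465 209 16 .nil) 4398063550472 211 16 (.node .nil 4398063550528 217 16 .nil))) 4398063550976 128 16 (.node (.node (.node .nil 4398065385473 210 16 .nil) 4398065385480 212 16 (.node .nil 4398065385536 218 16 .nil)) 4398065385984 159 16 (.node (.node .nil 4398180732929 189 16 .nil) 4398180732936 188 4 (.node .nil 4398180732992 2 16 .nil))))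

private def t16 : Tri :=
  (.node (.node (.node (.node .nil 4398180761601 190 16 .nil) 4398180761608 191 16 (.node .nil 4398180761664 6 16 .nil)) 4398180762112 123 16 (.node (.node .nil 4398180990977 234 16 .nil) 4398180990984 207 4 (.node .nil 4398180991040 10 16 .nil))) 4398180991488 129 16 (.node (.node (.node .nil 4398182825985 235 16 .nil) 4398182825992 208 4 (.node .nil 4398182826048 14 16 .nil)) 4398182826496 160 16 (.node (.node .nil 4399120257025 86 16 .nil) 4399120257032 96 16 .nil)))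

private def t17 : Tri :=
  (.node t15 4398180733440 79 16 t16)

private def t18 : Tri :=
  (.node (.node (.node (.node .nil 4399120257536 105 16 .nil) 4399120285697 130 16 (.node .nil 4399120285704 95 0x1a014015 .nil)) 4399120285760 180 4111 (.node (.node .nil 4399120286208 106 16 .nil) 4399120515073 49 16 (.node .nil 4399120515080 52 16 .nil))) 4399120515136 56 16 (.node (.node (.node .nil 4399120515584 60 16 .nil) 4399122350081 34 16 (.node .nil 4399122350088 37 16 .nil)) 4399122350144 41 16 (.node (.node .nil 4399122350592 45 16 .nil) 4406636449793 89 16 (.node .nil 4406636449800 98 16 .nil))))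

private def t19 : Tri :=
  (.node (.node (.node (.node .nil 4406636450304 192 16 .nil) 4406636478465 88 16 (.node .nil 4406636478472 94 16 .nil)) 4406636478528 175 16 (.node (.node .nil 4406636478976 108 16 .nil) 4406636707841 219 4 (.node .nil 4406636707848 221 4 .nil))) 4406636707904 223 4 (.node (.node (.node .nil 4406636708352 225 4 .nil) 4406638542849 220 4 (.node .nil 4406638542856 222 4 .nil)) 4406638542912 224 4 (.node (.node .nil 4406638543360 226 4 .nil) 35184388870145 65 16 .nil)))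

private def t20 : Tri :=
  (.node t18 4406636449856 183 16 t19)

private def t21 : Tri :=
  (.node t17 4399120257088 181 16 t20)

private def t22 : Tri :=
  (.node (.node (.node (.node .nil 35184388870208 72 16 .nil) 35184388870656 76 16 (.node .nil 35184388898817 163 16 .nil)) 35184388898824 168 16 (.node (.node .nil 35184388898880 170 4 .nil) 35184388899328 126 16 (.node .nil 35184389128193 166 16 .nil))) 35184389128200 232 16 (.node (.node (.node .nil 35184389128256 233 4 .nil) 35184389128704 158 16 (.node .nil 35184390963201 133 16 .nil)) 35184390963208 176 16 (.node (.node .nil 35184390963264 177 16 .nil) 35184390963712 161 16 (.node .nil 35184506310657 101 16 .nil))))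

private def t23 : Tri :=
  (.node (.node (.node (.node .nil 35184506310720 3 16 .nil) 35184506311168 80 16 (.node .nil 35184506339329 164 16 .nil)) 35184506339336 204 16 (.node (.node .nil 35184506339392 7 16 .nil) 35184506339840 127 16 (.node .nil 35184506568705 155 16 .nil))) 35184506568712 156 16 (.node (.node (.node .nil 35184506568768 11 16 .nil) 35184506569216 157 4 (.node .nil 35184508403713 135 16 .nil)) 35184508403720 152 16 (.node (.node .nil 35184508403776 15 16 .nil) 35184508404224 162 16 .nil)))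

private def t24 : Tri :=
  (.node t22 35184506310664 83 4 t23)

private def t25 : Tri :=
  (.node (.node (.node (.node .nil 35185445834760 81 16 .nil) 35185445834816 178 16 (.node .nil 35185445835264 82 16 .nil)) 35185445863425 165 16 (.node (.node .nil 35185445863432 205 16 .nil) 35185445863488 231 4 (.node .nil 35185445863936 206 16 .nil))) 35185446092801 50 16 (.node (.node (.node .nil 35185446092808 53 16 .nil) 35185446092864 57 16 (.node .nil 35185446093312 61 16 .nil)) 35185447927809 35 16 (.node (.node .nil 35185447927816 38 16 .nil) 35185447927872 42 16 (.node .nil 35185447928320 46 16 .nil))))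

private def t26 : Tri :=
  (.node (.node (.node (.node .nil 35192962027528 100 16 .nil) 35192962027584 185 0x1a005 (.node .nil 35192962028032 187 16 .nil)) 35192962056193 143 16 (.node (.node .nil 35192962056200 167 16 .nil) 35192962056256 171 16 (.node .nil 35192962056704 125 16 .nil))) 35192962285569 146 0xf00400c (.node (.node (.node .nil 35192962285576 193 16 .nil) 35192962285632 196 0x17008006 (.node .nil 35192962286080 201 16 .nil)) 35192964120577 137 16 (.node (.node .nil 35192964120584 139 16 .nil) 35192964120640 186 16 .nil)))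

private def t27 : Tri :=
  (.node t25 35192962027521 91 16 t26)

private def t28 : Tri :=
  (.node t24 35185445834753 84 16 t27)

private def t29 : Tri :=
  (.node t21 35184388870152 68 16 t28)

private def t30 : Tri :=
  (.node t14 4398063292928 75 16 t29)

private def N : Tri := t30

private def S : List (List (ℕ × ℕ × ℕ)) :=
  [[(2, 4, 12)], [(2, 4, 13)], [(2, 4, 14)], [(2, 4, 15)], [(2, 5, 12)], [(2, 5, 13)], [(2, 5, 14)], [(2, 5, 15)
  ], [(2, 6, 12)], [(2, 6, 13)], [(2, 6, 14)], [(2, 6, 15)], [(2, 7, 12)], [(2, 7, 13)], [(2, 7, 14)], [(2, 7, 15)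
  ], [(5, 4, 8)], [(5, 4, 9)], [(5, 4, 10)], [(5, 4, 11)], [(5, 5, 8)], [(5, 5, 9)], [(5, 5, 10)], [(5, 5, 11)
  ], [(5, 6, 8)], [(5, 6, 9)], [(5, 6, 10)], [(5, 6, 11)], [(5, 7, 8)], [(5, 7, 9)], [(5, 7, 10)], [(5, 7, 11)
  ], [(7, 0, 12)], [(7, 0, 13)], [(7, 0, 14)], [(7, 0, 15)], [(7, 1, 12)], [(7, 1, 14)], [(7, 1, 15)], [(7, 2, 12)
  ], [(7, 2, 13)], [(7, 2, 14)], [(7, 2, 15)], [(7, 3, 12)], [(7, 3, 13)], [(7, 3, 14)], [(7, 3, 15)], [(8, 0, 12)
  ], [(8, 0, 13)], [(8, 0, 14)], [(8, 0, 15)], [(8, 1, 12)], [(8, 1, 14)], [(8, 1, 15)], [(8, 2, 12)], [(8, 2, 13)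
  ], [(8, 2, 14)], [(8, 2, 15)], [(8, 3, 12)], [(8, 3, 13)], [(8, 3, 14)], [(8, 3, 15)], [(9, 0, 12)], [(9, 0, 13)
  ], [(9, 0, 14)], [(9, 0, 15)], [(9, 1, 12)], [(9, 1, 14)], [(9, 1, 15)], [(9, 2, 12)], [(9, 2, 13)], [(9, 2, 14)
  ], [(9, 2, 15)], [(9, 3, 12)], [(9, 3, 13)], [(9, 3, 14)], [(9, 3, 15)], [(0, 4, 12)], [(0, 4, 13)], [(0, 4, 14)
  ], [(0, 4, 15)], [(11, 1, 10)], [(11, 3, 10)], [(1, 4, 15)], [(11, 0, 10)], [(4, 4, 10)], [(15, 0, 4)], [(12, 0, 8)
  ], [(10, 0, 14)], [(12, 0, 11)], [(16, 0, 4)], [(4, 4, 11)], [(13, 1, 10)], [(12, 1, 8)], [(10, 1, 14)], [(15, 1, 5)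
  , (10, 1, 12), (16, 1, 5)], [(12, 1, 10)], [(15, 1, 4)], [(12, 1, 11)], [(16, 1, 4)], [(14, 1, 4)], [(3, 4, 15)
  ], [(4, 4, 9)], [(3, 4, 12)], [(1, 4, 12)], [(15, 3, 4)], [(12, 3, 10)], [(12, 3, 8)], [(10, 3, 14)], [(10, 3, 12)
  , (16, 3, 5), (15, 3, 5)], [(0, 5, 12)], [(1, 5, 12)], [(1, 7, 12)], [(13, 1, 9)], [(1, 6, 12)], [(0, 6, 12)
  ], [(0, 7, 12)], [(1, 6, 13)], [(0, 6, 13)], [(1, 7, 13)], [(0, 7, 13)], [(13, 3, 8)], [(0, 5, 13)], [(0, 5, 14)
  ], [(10, 3, 13)], [(14, 3, 5)], [(10, 3, 15)], [(0, 5, 15)], [(15, 3, 6)], [(0, 6, 14)], [(12, 0, 10)], [(10, 0, 12)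
  , (16, 0, 5), (15, 0, 5)], [(3, 5, 12)], [(11, 0, 8)], [(4, 7, 8)], [(11, 0, 9)], [(4, 7, 9)], [(11, 0, 11)
  ], [(4, 7, 11)], [(11, 1, 11)], [(14, 1, 7)], [(3, 7, 12)], [(13, 1, 8)], [(4, 5, 11)], [(14, 0, 5)], [(14, 0, 7)
  ], [(4, 6, 11), (14, 0, 6), (13, 0, 11)], [(13, 1, 11)], [(3, 6, 12)], [(10, 0, 13)], [(13, 0, 10)], [(3, 5, 13)
  ], [(11, 1, 9)], [(6, 7, 9)], [(13, 0, 9)], [(4, 6, 9)], [(6, 6, 9)], [(1, 6, 15)], [(0, 6, 15)], [(15, 3, 7)
  ], [(0, 7, 14)], [(11, 3, 8)], [(0, 7, 15)], [(4, 5, 8)], [(4, 5, 9)], [(4, 5, 10)], [(4, 6, 8)], [(14, 1, 5)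
  ], [(10, 1, 15)], [(10, 2, 13)], [(6, 5, 8)], [(10, 2, 15)], [(14, 2, 5)], [(10, 2, 12)], [(12, 2, 8)], [(10, 2, 14)
  ], [(11, 1, 8)], [(11, 2, 8)], [(11, 2, 10)], [(14, 0, 4)], [(15, 2, 5), (16, 2, 5)], [(12, 2, 10)], [(15, 2, 4)
  ], [(12, 2, 11)], [(16, 2, 4)], [(14, 2, 4), (6, 4, 11)], [(11, 2, 11)], [(11, 3, 11)], [(1, 4, 14)], [(3, 4, 14)
  ], [(12, 0, 9)], [(12, 1, 9)], [(12, 3, 11)], [(14, 1, 6)], [(6, 7, 11)], [(14, 2, 7)], [(6, 6, 11), (13, 2, 11)
  , (14, 2, 6)], [(16, 3, 4)], [(14, 3, 4)], [(14, 3, 7)], [(13, 3, 11)], [(14, 3, 6)], [(1, 4, 13)], [(1, 5, 13)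
  ], [(6, 5, 9)], [(3, 5, 15)], [(1, 5, 15)], [(1, 6, 14)], [(1, 7, 14)], [(15, 0, 6)], [(15, 0, 7)], [(15, 1, 6)
  ], [(15, 1, 7)], [(3, 6, 13)], [(13, 0, 8)], [(6, 7, 8)], [(13, 2, 8)], [(15, 2, 6)], [(15, 2, 7)], [(16, 0, 6)
  ], [(16, 0, 7)], [(16, 1, 6)], [(16, 1, 7)], [(16, 2, 6)], [(16, 2, 7)], [(16, 3, 6)], [(16, 3, 7)], [(6, 4, 9)
  ], [(3, 4, 13)], [(6, 4, 10)], [(13, 2, 10)], [(6, 5, 10)], [(3, 6, 15)], [(6, 6, 8)], [(3, 6, 14)], [(3, 7, 14)
  ]]

private theorem h0 : chk 12 5 7 31 N (okM 16 4) (rwS L1 L2) S = true := by decide +kernel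

theorem ok : (sm false 16 2 1 ∅ ∅).OK :=
  ok_of_chk _ 16 4 rfl rfl P1 P2 T F L1 L2 (r := 248) N S (by decide +kernel) (by decide +kernel)
    (by decide +kernel) (by decide +kernel) (by decide +kernel) h0 (by decide +kernel)
    (by decide +kernel) (by decide +kernel) (by decide +kernel) (by decide +kernel)

end Pool.Agent.KZ.AL.Ck.T433_2110_0
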