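import Pool.Agent.KZ.AL.OkC

/-! # KZ4, ALPHA: finite check T433_2200_0 (generated) -/

set_option autoImplicit false
set_option maxRecDepth 100000

namespace Pool.Agent.KZ.AL.Ck.T433_2200_0

open Pool.Agent.KZ (Tri chk rwS)
open Finset (range)

/-- The positions of the T-points. -/
private def P1 : List ((ℕ × ℕ × ℕ) × List (ℕ × ℤ)) :=
  [((0, 2, 0), [(2, 2), (9, 1), (10, 1)]), ((0, 2, 1), [(0, 1), (8, 1), (9, 1)]),
   ((0, 2, 2), [(0, 2), (2, 1), (8, 4), (10, 3)]), ((0, 2, 3), [(0, 1), (10, 1)]),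
   ((0, 3, 0), [(0, 1), (1, 1), (12, 1)]), ((0, 3, 1), [(3, 1), (14, 1)]),
   ((0, 3, 2), [(1, 1), (2, 2), (3, 1), (12, 1), (15, 1)]), ((0, 3, 3), [(0, 1), (1, 1), (14, 1)]),
   ((1, 2, 0), [(7, 2), (8, 2), (10, 1), (11, 1)]), ((1, 2, 1), [(5, 1), (7, 1), (9, 1)]),
   ((1, 2, 2), [(4, 1), (9, 1)]), ((1, 2, 3), [(4, 1), (11, 1)]),
   ((1, 3, 0), [(4, 1), (6, 1), (15, 1)]), ((1, 3, 1), [(4, 1), (5, 1), (15, 1)]),
   ((1, 3, 2), [(4, 1), (5, 1), (6, 1), (13, 1)]), ((1, 3, 3), [(5, 1), (12, 1), (13, 3), (14, 1)])]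

/-- The positions of the free items. -/
private def P2 : List ((ℕ × ℕ × ℕ) × List (ℕ × ℤ)) :=
  []

private def T : List (ℕ × ℕ × ℕ) :=
  [(0, 2, 0), (0, 2, 1), (0, 2, 2), (0, 2, 3), (0, 3, 0), (0, 3, 1), (0, 3, 2), (0, 3, 3),
   (1, 2, 0), (1, 2, 1), (1, 2, 2), (1, 2, 3), (1, 3, 0), (1, 3, 1), (1, 3, 2), (1, 3, 3)]

private def F : List (ℕ × ℕ × ℕ) :=
  []

private def L1 : List (List (ℕ × ℕ)) :=
  [[(2, 2), (9, 1), (10, 1)], [(0, 1), (8, 1), (9, 1)], [(0, 2), (2, 1), (8, 4), (10, 3)],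
   [(0, 1), (10, 1)], [(0, 1), (1, 1), (12, 1)], [(3, 1), (14, 1)],
   [(1, 1), (2, 2), (3, 1), (12, 1), (15, 1)], [(0, 1), (1, 1), (14, 1)], [(7, 2), (8, 2), (10, 1), (11, 1)],
   [(5, 1), (7, 1), (9, 1)], [(4, 1), (9, 1)], [(4, 1), (11, 1)],
   [(4, 1), (6, 1), (15, 1)], [(4, 1), (5, 1), (15, 1)], [(4, 1), (5, 1), (6, 1), (13, 1)],
   [(5, 1), (12, 1), (13, 3), (14, 1)]]

private def L2 : List (List (ℕ × ℕ)) :=
  []

private def t0 : Tri :=
  (.node (.node (.node (.node .nil 68736258049 86 16 .nil) 68736258056 110 16 (.node .nil 68736258112 214 4 .nil)) 68736258560 218 16 (.node (.node .nil 68736286721 92 16 .nil) 68736286728 112 16 (.node .nil 68736286784 201 4 .nil))) 68736287232 202 16 (.node (.node (.node .nil 68736516104 116 16 .nil) 68736516160 216 4 (.node .nil 68736516608 220 16 .nil)) 68738351105 103 16 (.node (.node .nil 68738351112 120 16 .nil) 68738351168 175 4 .nil)))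

private def t1 : Tri :=
  (.node (.node (.node (.node .nil 68853698561 32 16 .nil) 68853698568 36 16 (.node .nil 68853698624 40 16 .nil)) 68853699072 44 16 (.node (.node .nil 68853727233 93 16 .nil) 68853727240 113 16 .nil)) 68853727296 67 16 (.node (.node (.node .nil 68853727744 145 16 .nil) 68853956609 96 16 (.node .nil 68853956616 117 16 .nil)) 68853956672 74 8 (.node (.node .nil 68853957120 221 16 .nil) 68855791617 102 16 .nil)))

private def t2 : Tri :=
  (.node t0 68738351616 184 16 t1)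

private def t3 : Tri :=
  (.node (.node (.node (.node .nil 68855791680 66 8 .nil) 68855792128 146 16 (.node .nil 69793222657 0 16 .nil)) 69793222664 111 16 (.node (.node .nil 69793222720 62 8 .nil) 69793223168 219 16 .nil)) 69793251329 4 16 (.node (.node (.node .nil 69793251336 114 16 .nil) 69793251392 68 8 (.node .nil 69793251840 206 16 .nil)) 69793480705 8 16 (.node (.node .nil 69793480712 118 16 .nil) 69793481216 222 16 .nil)))

private def t4 : Tri :=
  (.node (.node (.node (.node .nil 69795315720 122 16 .nil) 69795316224 185 16 (.node .nil 77309415425 47 16 .nil)) 77309415432 51 16 (.node (.node .nil 77309415488 55 16 .nil) 77309415936 59 16 .nil)) 77309444097 115 16 (.node (.node (.node .nil 77309444160 212 8 .nil) 77309444608 211 16 (.node .nil 77309673473 119 16 .nil)) 77309673536 223 8 (.node (.node .nil 77311508481 123 8 .nil) 77311508488 124 16 .nil)))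

private def t5 : Tri :=
  (.node t3 69795315713 12 16 t4)

private def t6 : Tri :=
  (.node t2 68855791624 121 16 t5)

private def t7 : Tri :=
  (.node (.node (.node (.node .nil 77311508992 186 8 .nil) 549772595201 87 16 (.node .nil 549772595208 191 16 .nil)) 549772595264 197 4 (.node (.node .nil 549772595712 204 16 .nil) 549772623873 90 16 .nil)) 549772623880 190 26 (.node (.node (.node .nil 549772623936 198 4 .nil) 549772624384 203 26 (.node .nil 549772853249 97 16 .nil)) 549772853312 199 16 (.node (.node .nil 549774688257 105 16 .nil) 549774688264 173 4 .nil)))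

private def t8 : Tri :=
  (.node (.node (.node (.node .nil 549774688768 187 4 .nil) 549890035713 33 16 (.node .nil 549890035720 37 16 .nil)) 549890035776 41 16 (.node (.node .nil 549890036224 45 16 .nil) 549890064392 140 26 .nil)) 549890064448 69 8 (.node (.node (.node .nil 549890064896 147 26 .nil) 549890293761 98 16 (.node .nil 549890293768 192 16 .nil)) 549890293824 75 16 (.node (.node .nil 549890294272 205 16 .nil) 549892128769 104 16 .nil)))

private def t9 : Tri :=
  (.node t7 549774688320 177 4 t8)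

private def t10 : Tri :=
  (.node (.node (.node (.node .nil 549892128832 80 16 .nil) 549892129280 148 16 (.node .nil 550829559809 1 16 .nil)) 550829559816 194 16 (.node (.node .nil 550829559872 63 8 .nil) 550829560320 208 16 .nil)) 550829588481 5 16 (.node (.node (.node .nil 550829588488 193 26 .nil) 550829588992 207 26 (.node .nil 550829817857 9 16 .nil)) 550829817920 76 8 (.node (.node .nil 550831652865 13 16 .nil) 550831652928 81 8 .nil)))

private def t11 : Tri :=
  (.node (.node (.node (.node .nil 558345752584 52 16 .nil) 558345752640 56 16 (.node .nil 558345753088 60 16 .nil)) 558345781249 188 26 (.node (.node .nil 558345781256 195 26 .nil) 558346010625 189 16 .nil)) 558346010632 196 16 (.node (.node (.node .nil 558346010688 200 16 .nil) 558346011136 209 16 (.node .nil 558347845633 171 8 .nil)) 558347845696 178 8 (.node (.node .nil 4398063292417 88 16 .nil) 4398063292424 125 16 .nil)))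

private def t12 : Tri :=
  (.node t10 558345752577 48 16 t11)

private def t13 : Tri :=
  (.node t9 549892128776 141 16 t12)

private def t14 : Tri :=
  (.node t6 77311508544 176 8 t13)

private def t15 : Tri :=
  (.node (.node (.node (.node .nil 4398063292928 16 16 .nil) 4398063321089 91 16 (.node .nil 4398063321096 127 16 .nil)) 4398063321152 210 16 (.node (.node .nil 4398063321600 20 16 .nil) 4398063550472 131 16 .nil)) 4398063550528 217 4 (.node (.node (.node .nil 4398063550976 24 16 .nil) 4398065385473 107 16 (.node .nil 4398065385480 135 16 .nil)) 4398065385536 179 4 (.node (.node .nil 4398065385984 28 16 .nil) 4398180732929 34 16 .nil)))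

private def t16 : Tri :=
  (.node (.node (.node (.node .nil 4398180732992 42 16 .nil) 4398180733440 17 16 (.node .nil 4398180761608 128 16 .nil)) 4398180761664 70 16 (.node (.node .nil 4398180762112 21 16 .nil) 4398180990977 99 16 .nil)) 4398180990984 132 16 (.node (.node (.node .nil 4398180991040 77 8 .nil) 4398180991488 25 16 (.node .nil 4398182825985 106 16 .nil)) 4398182825992 136 16 (.node (.node .nil 4398182826048 82 16 .nil) 4398182826496 29 16 .nil)))

private def t17 : Tri :=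
  (.node t15 4398180732936 38 16 t16)

private def t18 : Tri :=
  (.node (.node (.node (.node .nil 4399120257032 126 16 .nil) 4399120257088 64 8 (.node .nil 4399120257536 18 16 .nil)) 4399120285697 6 16 (.node (.node .nil 4399120285704 129 16 .nil) 4399120285760 71 8 .nil)) 4399120286208 22 16 (.node (.node (.node .nil 4399120515073 10 16 .nil) 4399120515080 133 16 (.node .nil 4399120515584 26 16 .nil)) 4399122350081 14 16 (.node (.node .nil 4399122350088 137 16 .nil) 4399122350144 83 8 .nil)))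

private def t19 : Tri :=
  (.node (.node (.node (.node .nil 4406636449793 49 16 .nil) 4406636449800 53 16 (.node .nil 4406636449856 57 16 .nil)) 4406636450304 19 16 (.node (.node .nil 4406636478465 130 16 .nil) 4406636478528 213 16 .nil)) 4406636478976 23 16 (.node (.node (.node .nil 4406636707841 134 16 .nil) 4406636708352 27 16 (.node .nil 4406638542849 138 8 .nil)) 4406638542856 139 16 (.node (.node .nil 4406638542912 180 8 .nil) 4406638543360 31 16 .nil)))

private def t20 : Tri :=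
  (.node t18 4399122350592 30 16 t19)

private def t21 : Tri :=
  (.node t17 4399120257025 2 16 t20)

private def t22 : Tri :=
  (.node (.node (.node (.node .nil 35184388870208 155 4 .nil) 35184388898817 94 16 (.node .nil 35184388898824 163 16 .nil)) 35184388898880 166 16 (.node (.node .nil 35184388899328 168 16 .nil) 35184389128193 100 16 .nil)) 35184389128200 151 16 (.node (.node (.node .nil 35184389128256 156 16 .nil) 35184389128704 158 16 (.node .nil 35184390963201 109 16 .nil)) 35184390963208 174 4 (.node (.node .nil 35184390963264 181 4 .nil) 35184390963712 183 4 .nil)))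

private def t23 : Tri :=
  (.node (.node (.node (.node .nil 35184506310664 39 16 .nil) 35184506310720 43 16 (.node .nil 35184506311168 46 16 .nil)) 35184506339329 95 16 (.node (.node .nil 35184506339336 142 16 .nil) 35184506339392 72 16 .nil)) 35184506339840 144 16 (.node (.node (.node .nil 35184506568705 101 16 .nil) 35184506568712 152 16 (.node .nil 35184506568768 78 16 .nil)) 35184506569216 159 16 (.node (.node .nil 35184508403713 108 16 .nil) 35184508403720 143 16 .nil)))

private def t24 : Tri :=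
  (.node t22 35184506310657 35 16 t23)

private def t25 : Tri :=
  (.node (.node (.node (.node .nil 35184508404224 149 16 .nil) 35185445834753 3 16 (.node .nil 35185445834816 65 8 .nil)) 35185445863425 7 16 (.node (.node .nil 35185445863432 164 16 .nil) 35185445863488 73 8 .nil)) 35185445863936 169 16 (.node (.node (.node .nil 35185446092801 11 16 .nil) 35185446092808 153 16 (.node .nil 35185446092864 79 8 .nil)) 35185446093312 160 16 (.node (.node .nil 35185447927809 15 16 .nil) 35185447927872 85 8 .nil)))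

private def t26 : Tri :=
  (.node (.node (.node (.node .nil 35192962027528 54 16 .nil) 35192962027584 58 16 (.node .nil 35192962028032 61 16 .nil)) 35192962056193 162 16 (.node (.node .nil 35192962056200 165 16 .nil) 35192962056256 167 16 .nil)) 35192962056704 170 16 (.node (.node (.node .nil 35192962285569 150 16 .nil) 35192962285576 154 16 (.node .nil 35192962285632 157 16 .nil)) 35192962286080 161 16 (.node (.node .nil 35192964120577 172 8 .nil) 35192964120640 182 8 .nil)))

private def t27 : Tri :=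
  (.node t25 35192962027521 50 16 t26)

private def t28 : Tri :=
  (.node t24 35184508403776 84 16 t27)

private def t29 : Tri :=
  (.node t21 35184388870145 89 16 t28)

private def t30 : Tri :=
  (.node t14 4398063292480 215 4 t29)

private def N : Tri := t30

private def S : List (List (ℕ × ℕ × ℕ)) :=
  [[(3, 4, 12)], [(3, 4, 13)], [(3, 4, 14)], [(3, 4, 15)], [(3, 5, 12)], [(3, 5, 13)], [(3, 5, 14)], [(3, 5, 15)
  ], [(3, 6, 12)], [(3, 6, 13)], [(3, 6, 14)], [(3, 6, 15)], [(3, 7, 12)], [(3, 7, 13)], [(3, 7, 14)], [(3, 7, 15)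
  ], [(5, 4, 8)], [(5, 4, 9)], [(5, 4, 10)], [(5, 4, 11)], [(5, 5, 8)], [(5, 5, 9)], [(5, 5, 10)], [(5, 5, 11)
  ], [(5, 6, 8)], [(5, 6, 9)], [(5, 6, 10)], [(5, 6, 11)], [(5, 7, 8)], [(5, 7, 9)], [(5, 7, 10)], [(5, 7, 11)
  ], [(10, 0, 12)], [(10, 0, 13)], [(10, 0, 14)], [(10, 0, 15)], [(10, 1, 12)], [(10, 1, 13)], [(10, 1, 14)], [(10, 1, 15)
  ], [(10, 2, 12)], [(10, 2, 13)], [(10, 2, 14)], [(10, 2, 15)], [(10, 3, 12)], [(10, 3, 13)], [(10, 3, 15)], [(11, 0, 12)
  ], [(11, 0, 13)], [(11, 0, 14)], [(11, 0, 15)], [(11, 1, 12)], [(11, 1, 13)], [(11, 1, 14)], [(11, 1, 15)], [(11, 2, 12)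
  ], [(11, 2, 13)], [(11, 2, 14)], [(11, 2, 15)], [(11, 3, 12)], [(11, 3, 13)], [(11, 3, 15)], [(0, 4, 12)], [(0, 4, 13)
  ], [(0, 4, 14)], [(0, 4, 15)], [(0, 7, 12)], [(9, 2, 12)], [(0, 5, 12)], [(0, 5, 13)], [(15, 2, 9)], [(0, 5, 14)
  ], [(13, 2, 9)], [(0, 5, 15)], [(0, 6, 12)], [(14, 2, 9)], [(0, 6, 13)], [(0, 6, 14)], [(12, 2, 9)], [(0, 6, 15)
  ], [(9, 2, 13)], [(0, 7, 13)], [(9, 2, 14)], [(0, 7, 14)], [(9, 2, 15)], [(0, 7, 15)], [(1, 4, 12)], [(1, 4, 13)
  ], [(1, 4, 14)], [(1, 4, 15)], [(1, 5, 13)], [(1, 5, 14)], [(15, 0, 8)], [(1, 5, 12)], [(13, 0, 8)], [(1, 5, 15)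
  ], [(1, 6, 12)], [(14, 0, 8)], [(1, 6, 13)], [(1, 6, 14)], [(12, 0, 8)], [(1, 6, 15)], [(9, 0, 12)], [(1, 7, 12)
  ], [(9, 0, 13)], [(1, 7, 13)], [(9, 0, 14)], [(1, 7, 14)], [(9, 0, 15)], [(1, 7, 15)], [(4, 4, 8)], [(4, 4, 10)
  ], [(4, 5, 8)], [(4, 5, 9)], [(4, 5, 10)], [(4, 5, 11)], [(4, 6, 8)], [(4, 6, 9)], [(4, 6, 10)], [(4, 6, 11)
  ], [(4, 7, 8)], [(4, 7, 9)], [(4, 7, 10)], [(8, 0, 12)], [(4, 7, 11)], [(7, 4, 8)], [(7, 4, 10)], [(7, 5, 8)
  ], [(7, 5, 9)], [(7, 5, 10)], [(7, 5, 11)], [(7, 6, 8)], [(7, 6, 9)], [(7, 6, 10)], [(7, 6, 11)], [(7, 7, 8)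
  ], [(7, 7, 9)], [(7, 7, 10)], [(8, 0, 14)], [(7, 7, 11)], [(15, 1, 9)], [(9, 1, 13)], [(13, 1, 9)], [(9, 1, 15)
  ], [(13, 3, 9)], [(6, 5, 9)], [(9, 3, 12)], [(15, 3, 9)], [(9, 3, 13)], [(9, 3, 15)], [(12, 0, 11)], [(12, 1, 8)
  ], [(12, 1, 9)], [(12, 1, 10)], [(12, 1, 11)], [(2, 4, 15)], [(12, 2, 8)], [(12, 2, 11)], [(12, 3, 8)], [(12, 3, 9)
  ], [(12, 3, 10)], [(12, 3, 11)], [(13, 0, 11)], [(13, 1, 8)], [(13, 1, 10)], [(13, 1, 11)], [(13, 2, 8)], [(13, 2, 11)
  ], [(13, 3, 8)], [(13, 3, 10)], [(13, 3, 11)], [(8, 0, 13)], [(8, 0, 15)], [(8, 1, 13)], [(8, 1, 15)], [(2, 7, 12)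
  ], [(8, 2, 12)], [(2, 7, 13)], [(8, 2, 13)], [(2, 7, 14)], [(8, 2, 14)], [(2, 7, 15)], [(8, 2, 15)], [(8, 3, 15)
  ], [(6, 7, 8)], [(6, 7, 10)], [(8, 3, 12)], [(8, 3, 13)], [(15, 0, 11)], [(14, 0, 11)], [(15, 1, 8)], [(14, 1, 8)
  ], [(14, 1, 9)], [(15, 1, 10)], [(14, 1, 10)], [(15, 1, 11)], [(14, 1, 11)], [(2, 4, 13)], [(2, 5, 13)], [(14, 2, 8)
  ], [(14, 2, 11)], [(2, 5, 12)], [(6, 5, 8)], [(15, 3, 8)], [(14, 3, 8)], [(14, 3, 9)], [(6, 5, 10)], [(15, 3, 10)
  ], [(14, 3, 10)], [(14, 3, 11)], [(15, 2, 8)], [(15, 3, 11)], [(6, 5, 11)], [(15, 2, 11)], [(2, 4, 12)], [(2, 4, 14)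
  ], [(2, 6, 12)], [(2, 6, 14)], [(6, 4, 8)], [(6, 4, 10)], [(6, 6, 8)], [(6, 6, 9)], [(6, 6, 10)], [(6, 6, 11)
  ]]

private theorem h0 : chk 13 5 8 31 N (okM 16 4) (rwS L1 L2) S = true := by decide +kernel

theorem ok : (sm false 16 2 2 ∅ ∅).OK :=
  ok_of_chk _ 16 4 rfl rfl P1 P2 T F L1 L2 (r := 224) N S (by decide +kernel) (by decide +kernel)
    (by decide +kernel) (by decide +kernel) (by decide +kernel) h0 (by decide +kernel)
    (by decide +kernel) (by decide +kernel) (by decide +kernel) (by decide +kernel)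

end Pool.Agent.KZ.AL.Ck.T433_2200_0
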