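import Pool.Agent.KZ.AL.OkC

/-! # KZ4, ALPHA: finite check T433_2200_A (generated) -/

set_option autoImplicit false
set_option maxRecDepth 100000

namespace Pool.Agent.KZ.AL.Ck.T433_2200_A

open Pool.Agent.KZ (Tri chk rwS)
open Finset (range)

/-- The positions of the T-points. -/
private def P1 : List ((ℕ × ℕ × ℕ) × List (ℕ × ℤ)) :=
  [((0, 2, 0), [(3, 1), (11, 1)]), ((0, 2, 1), [(0, 1), (3, 1), (11, 1)]),
   ((0, 2, 2), [(0, 1), (8, 1), (9, 1), (11, 1)]), ((0, 2, 3), [(2, 2), (3, 3), (8, 1), (9, 1), (11, 4)]),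
   ((0, 3, 0), [(3, -1), (13, 1)]), ((0, 3, 1), [(1, 1), (12, 1), (14, 1)]),
   ((0, 3, 2), [(1, 1), (13, 1)]), ((0, 3, 3), [(0, 1), (2, 1), (12, 1), (13, 2), (14, 1)]),
   ((1, 2, 0), [(4, 1), (9, 1)]), ((1, 2, 1), [(4, 1), (7, 1), (8, 1), (11, 1)]),
   ((1, 2, 2), [(4, 1), (7, 4), (10, 1), (11, 1)]), ((1, 2, 3), [(4, 1), (8, 4), (9, 3), (10, 1)]),
   ((1, 3, 0), [(5, 2), (14, 3)]), ((1, 3, 1), [(4, 3), (5, 1), (6, 3), (7, 2), (15, 3)]),
   ((1, 3, 2), [(6, 1), (12, 3), (13, 2)]), ((1, 3, 3), [(4, 1), (5, 1), (14, 2), (15, 1)])]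

/-- The positions of the free items. -/
private def P2 : List ((ℕ × ℕ × ℕ) × List (ℕ × ℤ)) :=
  []

private def T : List (ℕ × ℕ × ℕ) :=
  [(0, 2, 0), (0, 2, 1), (0, 2, 2), (0, 2, 3), (0, 3, 0), (0, 3, 1), (0, 3, 2), (0, 3, 3),
   (1, 2, 0), (1, 2, 1), (1, 2, 2), (1, 2, 3), (1, 3, 0), (1, 3, 1), (1, 3, 2), (1, 3, 3)]

private def F : List (ℕ × ℕ × ℕ) :=
  []

private def L1 : List (List (ℕ × ℕ)) :=
  [[(3, 1), (11, 1)], [(0, 1), (3, 1), (11, 1)], [(0, 1), (8, 1), (9, 1), (11, 1)],
   [(2, 2), (3, 3), (8, 1), (9, 1), (11, 4)], [(3, 30), (13, 1)], [(1, 1), (12, 1), (14, 1)],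
   [(1, 1), (13, 1)], [(0, 1), (2, 1), (12, 1), (13, 2), (14, 1)], [(4, 1), (9, 1)],
   [(4, 1), (7, 1), (8, 1), (11, 1)], [(4, 1), (7, 4), (10, 1), (11, 1)], [(4, 1), (8, 4), (9, 3), (10, 1)],
   [(5, 2), (14, 3)], [(4, 3), (5, 1), (6, 3), (7, 2), (15, 3)], [(6, 1), (12, 3), (13, 2)],
   [(4, 1), (5, 1), (14, 2), (15, 1)]]

private def L2 : List (List (ℕ × ℕ)) :=
  []

private def t0 : Tri :=
  (.node (.node (.node (.node .nil 68736258049 122 16 .nil) 68736258056 89 4 (.node .nil 68736258112 149 16 .nil)) 68736258560 156 26 (.node (.node .nil 68736286721 127 16 .nil) 68736286728 92 16 .nil)) 68736286784 208 16 (.node (.node (.node .nil 68736287232 210 26 .nil) 68736516097 111 16 (.node .nil 68736516104 96 26 .nil)) 68736516160 118 8 (.node (.node .nil 68736516608 114 26 .nil) 68738351105 136 16 .nil)))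

private def t1 : Tri :=
  (.node (.node (.node (.node .nil 68738351168 164 16 .nil) 68738351616 167 16 (.node .nil 68853698561 44 16 .nil)) 68853698568 48 16 (.node (.node .nil 68853698624 51 16 .nil) 68853699072 55 16 .nil)) 68853727233 126 16 (.node (.node (.node .nil 68853727240 93 16 .nil) 68853956609 110 26 (.node .nil 68853956616 98 26 .nil)) 68853956672 115 26 (.node (.node .nil 68853957120 116 26 .nil) 68855791617 137 16 .nil)))

private def t2 : Tri :=
  (.node t0 68738351112 105 16 t1)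

private def t3 : Tri :=
  (.node (.node (.node (.node .nil 68855791680 215 16 .nil) 68855792128 216 26 (.node .nil 69793222657 143 16 .nil)) 69793222664 88 16 (.node (.node .nil 69793222720 150 16 .nil) 69793223168 157 16 .nil)) 69793251329 218 16 (.node (.node (.node .nil 69793251336 94 16 .nil) 69793480705 113 26 (.node .nil 69793480712 100 26 .nil)) 69793480768 120 26 (.node (.node .nil 69793481216 121 26 .nil) 69795315713 170 4 .nil)))

private def t4 : Tri :=
  (.node (.node (.node (.node .nil 69795315776 175 4 .nil) 69795316224 179 4 (.node .nil 77309415425 73 16 .nil)) 77309415432 91 16 (.node (.node .nil 77309415488 155 16 .nil) 77309415936 0 16 .nil)) 77309444097 77 16 (.node (.node (.node .nil 77309444104 95 16 .nil) 77309444160 209 16 (.node .nil 77309444608 4 16 .nil)) 77309673473 80 16 (.node (.node .nil 77309673480 102 26 .nil) 77309673536 117 26 .nil)))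

private def t5 : Tri :=
  (.node t3 69795315720 108 4 t4)

private def t6 : Tri :=
  (.node t2 68855791624 107 16 t5)

private def t7 : Tri :=
  (.node (.node (.node (.node .nil 77311508481 84 16 .nil) 77311508488 104 16 (.node .nil 77311508544 165 16 .nil)) 77311508992 12 16 (.node (.node .nil 549772595201 123 16 .nil) 549772595208 28 16 .nil)) 549772595264 148 8 (.node (.node (.node .nil 549772595712 16 15 .nil) 549772623873 128 16 (.node .nil 549772623880 32 16 .nil)) 549772623936 207 8 (.node (.node .nil 549772624384 19 15 .nil) 549772853249 112 8 .nil)))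

private def t8 : Tri :=
  (.node (.node (.node (.node .nil 549772853312 119 8 .nil) 549772853760 22 15 (.node .nil 549774688257 138 16 .nil)) 549774688264 40 16 (.node (.node .nil 549774688320 162 16 .nil) 549774688768 25 15 .nil)) 549890035713 45 16 (.node (.node (.node .nil 549890035720 29 16 .nil) 549890035776 52 16 (.node .nil 549890036224 17 15 .nil)) 549890064392 33 16 (.node (.node .nil 549890064896 20 15 .nil) 549890293768 37 16 .nil)))

private def t9 : Tri :=
  (.node t7 549772853256 36 16 t8)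

private def t10 : Tri :=
  (.node (.node (.node (.node .nil 549892128769 139 16 .nil) 549892128776 41 16 (.node .nil 549892128832 214 8 .nil)) 549892129280 26 15 (.node (.node .nil 550829559809 144 16 .nil) 550829559816 30 16 .nil)) 550829559872 151 16 (.node (.node (.node .nil 550829560320 18 15 .nil) 550829588488 34 16 (.node .nil 550829588992 21 15 .nil)) 550829817864 38 16 (.node (.node .nil 550829818368 24 15 .nil) 550831652865 171 4 .nil)))

private def t11 : Tri :=
  (.node (.node (.node (.node .nil 550831652928 176 4 .nil) 550831653376 27 15 (.node .nil 558345752577 74 16 .nil)) 558345752584 31 16 (.node (.node .nil 558345753088 1 16 .nil) 558345781249 78 16 .nil)) 558345781256 35 16 (.node (.node (.node .nil 558345781760 5 16 .nil) 558346010625 81 16 .nil) 558346010632 39 16 (.node (.node .nil 558346011136 9 16 .nil) 558347845633 85 16 .nil)))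

private def t12 : Tri :=
  (.node t10 550831652872 42 16 t11)

private def t13 : Tri :=
  (.node t9 549890294272 23 15 t12)

private def t14 : Tri :=
  (.node t6 77309673984 8 16 t13)

private def t15 : Tri :=
  (.node (.node (.node (.node .nil 558347846144 13 16 .nil) 4398063292417 124 16 (.node .nil 4398063292424 90 16 .nil)) 4398063292928 158 26 (.node (.node .nil 4398063321089 58 13 .nil) 4398063321096 62 13 .nil)) 4398063321152 66 13 (.node (.node (.node .nil 4398063321600 70 13 .nil) 4398063550465 132 16 (.node .nil 4398063550472 97 16 .nil)) 4398063550528 211 16 (.node (.node .nil 4398063550976 213 26 .nil) 4398065385473 140 16 .nil)))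

private def t16 : Tri :=
  (.node (.node (.node (.node .nil 4398065385536 163 16 .nil) 4398065385984 168 16 (.node .nil 4398180732929 46 16 .nil)) 4398180732936 49 16 (.node (.node .nil 4398180732992 53 16 .nil) 4398180733440 56 16 .nil)) 4398180761601 59 13 (.node (.node (.node .nil 4398180761608 63 13 .nil) 4398180761664 67 13 (.node .nil 4398180762112 71 13 .nil)) 4398180990977 131 16 (.node (.node .nil 4398180990984 99 16 .nil) 4398182825985 141 16 .nil)))

private def t17 : Tri :=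
  (.node t15 4398065385480 106 16 t16)

private def t18 : Tri :=
  (.node (.node (.node (.node .nil 4399120257025 145 16 .nil) 4399120257088 152 16 (.node .nil 4399120257536 159 16 .nil)) 4399120285697 60 13 (.node (.node .nil 4399120285704 64 13 .nil) 4399120285760 68 13 .nil)) 4399120286208 72 13 (.node (.node (.node .nil 4399120515073 219 16 .nil) 4399120515080 101 16 (.node .nil 4399122350081 172 4 .nil)) 4399122350088 109 16 (.node (.node .nil 4399122350144 177 4 .nil) 4399122350592 180 4 .nil)))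

private def t19 : Tri :=
  (.node (.node (.node (.node .nil 4406636450304 2 16 .nil) 4406636478465 61 13 (.node .nil 4406636478472 65 13 .nil)) 4406636478528 69 13 (.node (.node .nil 4406636478976 6 16 .nil) 4406636707841 82 16 .nil)) 4406636707848 103 16 (.node (.node (.node .nil 4406636707904 212 16 .nil) 4406636708352 10 16 .nil) 4406638542849 86 16 (.node (.node .nil 4406638543360 14 16 .nil) 35184388870145 125 16 .nil)))

private def t20 : Tri :=
  (.node t18 4406636449793 75 16 t19)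

private def t21 : Tri :=
  (.node t17 4398182826496 217 26 t20)

private def t22 : Tri :=
  (.node (.node (.node (.node .nil 35184388870208 153 8 .nil) 35184388898817 129 16 (.node .nil 35184388898824 184 16 .nil)) 35184388898880 192 16 (.node (.node .nil 35184388899328 195 16 .nil) 35184389128193 134 19 .nil)) 35184389128200 185 19 (.node (.node (.node .nil 35184389128256 193 19 .nil) 35184389128704 196 19 (.node .nil 35184390963201 133 16 .nil)) 35184390963208 161 16 (.node (.node .nil 35184390963264 166 16 .nil) 35184390963712 169 16 .nil)))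

private def t23 : Tri :=
  (.node (.node (.node (.node .nil 35184506310664 50 16 .nil) 35184506310720 54 16 (.node .nil 35184506311168 57 16 .nil)) 35184506339329 130 16 (.node (.node .nil 35184506339336 186 16 .nil) 35184506339392 194 16 .nil)) 35184506339840 197 16 (.node (.node (.node .nil 35184506568705 135 16 .nil) 35184506568712 187 19 (.node .nil 35184506568768 201 8 .nil)) 35184506569216 198 19 (.node (.node .nil 35184508403713 142 16 .nil) 35184508403776 202 13 .nil)))

private def t24 : Tri :=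
  (.node t22 35184506310657 47 16 t23)

private def t25 : Tri :=
  (.node (.node (.node (.node .nil 35185445834816 154 16 .nil) 35185445835264 160 16 (.node .nil 35185445863425 182 16 .nil)) 35185445863432 188 16 (.node (.node .nil 35185445863488 203 16 .nil) 35185445863936 205 16 .nil)) 35185446092801 183 19 (.node (.node (.node .nil 35185446092808 189 19 .nil) 35185446092864 204 19 (.node .nil 35185446093312 206 19 .nil)) 35185447927809 173 4 (.node (.node .nil 35185447927816 174 4 .nil) 35185447927872 178 4 .nil)))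

private def t26 : Tri :=
  (.node (.node (.node (.node .nil 35192962027521 76 16 .nil) 35192962028032 3 16 (.node .nil 35192962056193 79 16 .nil)) 35192962056200 190 16 (.node (.node .nil 35192962056256 199 16 .nil) 35192962056704 7 16 .nil)) 35192962285569 83 16 (.node (.node (.node .nil 35192962285576 191 19 .nil) 35192962285632 200 19 .nil) 35192962286080 11 16 (.node (.node .nil 35192964120577 87 16 .nil) 35192964121088 15 16 .nil)))

private def t27 : Tri :=
  (.node t25 35185447928320 181 4 t26)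

private def t28 : Tri :=
  (.node t24 35185445834753 146 16 t27)

private def t29 : Tri :=
  (.node t21 35184388870152 147 4 t28)

private def t30 : Tri :=
  (.node t14 558347845640 43 16 t29)

private def N : Tri := t30

private def S : List (List (ℕ × ℕ × ℕ)) :=
  [[(0, 4, 12)], [(0, 4, 13)], [(0, 4, 14)], [(0, 4, 15)], [(0, 5, 12)], [(0, 5, 13)], [(0, 5, 14)], [(0, 5, 15)
  ], [(0, 6, 12)], [(0, 6, 13)], [(0, 6, 14)], [(0, 6, 15)], [(0, 7, 12)], [(0, 7, 13)], [(0, 7, 14)], [(0, 7, 15)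
  ], [(4, 4, 8)], [(4, 4, 9)], [(4, 4, 10)], [(4, 5, 8)], [(4, 5, 9)], [(4, 5, 10)], [(4, 6, 8)], [(4, 6, 9)
  ], [(4, 6, 10)], [(4, 7, 8)], [(4, 7, 9)], [(4, 7, 10)], [(6, 4, 8)], [(6, 4, 9)], [(6, 4, 10)], [(6, 4, 11)
  ], [(6, 5, 8)], [(6, 5, 9)], [(6, 5, 10)], [(6, 5, 11)], [(6, 6, 8)], [(6, 6, 9)], [(6, 6, 10)], [(6, 6, 11)
  ], [(6, 7, 8)], [(6, 7, 9)], [(6, 7, 10)], [(6, 7, 11)], [(8, 0, 12)], [(8, 0, 13)], [(8, 0, 14)], [(8, 0, 15)
  ], [(8, 1, 12)], [(8, 1, 14)], [(8, 1, 15)], [(8, 2, 12)], [(8, 2, 13)], [(8, 2, 14)], [(8, 2, 15)], [(8, 3, 12)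
  ], [(8, 3, 14)], [(8, 3, 15)], [(12, 0, 8)], [(12, 0, 9)], [(12, 0, 10)], [(12, 0, 11)], [(12, 1, 8)], [(12, 1, 9)
  ], [(12, 1, 10)], [(12, 1, 11)], [(12, 2, 8)], [(12, 2, 9)], [(12, 2, 10)], [(12, 2, 11)], [(12, 3, 8)], [(12, 3, 9)
  ], [(12, 3, 10)], [(1, 4, 12)], [(1, 4, 13)], [(1, 4, 14)], [(1, 4, 15)], [(1, 5, 12)], [(1, 5, 13)], [(1, 5, 15)
  ], [(1, 6, 12)], [(1, 6, 13)], [(1, 6, 14)], [(1, 6, 15)], [(1, 7, 12)], [(1, 7, 13)], [(1, 7, 14)], [(1, 7, 15)
  ], [(5, 4, 10)], [(11, 1, 12)], [(5, 4, 8)], [(5, 4, 11)], [(5, 5, 8)], [(5, 5, 9)], [(5, 5, 10)], [(5, 5, 11)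
  ], [(14, 1, 8)], [(5, 6, 8)], [(14, 1, 9)], [(5, 6, 9)], [(14, 1, 10)], [(5, 6, 10)], [(14, 1, 11)], [(5, 6, 11)
  ], [(5, 7, 11)], [(9, 1, 12)], [(5, 7, 8)], [(5, 7, 9)], [(10, 1, 12)], [(5, 7, 10)], [(14, 0, 9)], [(2, 6, 12)
  ], [(14, 0, 8)], [(14, 0, 10)], [(14, 3, 8)], [(14, 2, 9)], [(14, 3, 9)], [(14, 2, 11)], [(3, 6, 12)], [(14, 2, 8)
  ], [(14, 2, 10)], [(14, 3, 10)], [(2, 4, 12)], [(2, 4, 13)], [(2, 4, 14)], [(2, 4, 15)], [(7, 5, 9)], [(2, 5, 12)
  ], [(2, 5, 13)], [(15, 0, 8)], [(2, 5, 15)], [(7, 6, 9)], [(2, 6, 14)], [(9, 0, 15)], [(13, 0, 8)], [(2, 6, 15)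
  ], [(9, 0, 12)], [(2, 7, 12)], [(9, 0, 13)], [(2, 7, 13)], [(9, 0, 14)], [(2, 7, 14)], [(2, 7, 15)], [(11, 0, 12)
  ], [(11, 0, 13)], [(11, 0, 14)], [(11, 0, 15)], [(11, 1, 15)], [(3, 4, 13)], [(7, 4, 8)], [(11, 2, 12)], [(11, 2, 13)
  ], [(11, 2, 14)], [(3, 4, 15)], [(11, 2, 15)], [(7, 4, 11)], [(3, 4, 12)], [(11, 3, 12)], [(3, 4, 14)], [(11, 3, 14)
  ], [(11, 3, 15)], [(9, 1, 15)], [(9, 2, 13)], [(9, 2, 14)], [(7, 7, 8)], [(9, 2, 12)], [(9, 2, 15)], [(9, 3, 12)
  ], [(9, 3, 14)], [(9, 3, 15)], [(10, 0, 12)], [(10, 0, 13)], [(10, 0, 14)], [(10, 0, 15)], [(10, 1, 15)], [(10, 2, 12)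
  ], [(10, 2, 13)], [(10, 2, 14)], [(10, 2, 15)], [(10, 3, 12)], [(10, 3, 14)], [(10, 3, 15)], [(15, 0, 10)], [(13, 0, 10)
  ], [(15, 1, 8)], [(13, 1, 8)], [(15, 1, 9)], [(13, 1, 9)], [(15, 1, 10)], [(13, 1, 10)], [(15, 1, 11)], [(13, 1, 11)
  ], [(15, 2, 8)], [(13, 2, 8)], [(15, 2, 9)], [(15, 3, 8)], [(13, 3, 8)], [(15, 3, 9)], [(13, 3, 9)], [(15, 2, 11)
  ], [(13, 2, 11)], [(3, 6, 15)], [(13, 2, 9)], [(15, 2, 10)], [(13, 2, 10)], [(15, 3, 10)], [(13, 3, 10)], [(3, 5, 13)
  ], [(7, 5, 8)], [(7, 5, 11)], [(3, 5, 12)], [(7, 6, 8)], [(7, 6, 11)], [(3, 6, 14)], [(3, 7, 13)], [(7, 7, 9)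
  ], [(3, 7, 12)], [(3, 7, 14)], [(7, 5, 10)], [(7, 6, 10)]]

private theorem h0 : chk 16 5 11 31 N (okM 16 4) (rwS L1 L2) S = true := by decide +kernel

theorem ok : (sm false 16 2 2 {(0, {2, 3}, 0)} ∅).OK :=
  ok_of_chk _ 16 4 rfl rfl P1 P2 T F L1 L2 (r := 220) N S (by decide +kernel) (by decide +kernel)
    (by decide +kernel) (by decide +kernel) (by decide +kernel) h0 (by decide +kernel)
    (by decide +kernel) (by decide +kernel) (by decide +kernel) (by decide +kernel)

end Pool.Agent.KZ.AL.Ck.T433_2200_A
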