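import Pool.Agent.KZ.AL.OkC

/-! # KZ4, ALPHA: finite check T433_2200_AB (generated) -/

set_option autoImplicit false
set_option maxRecDepth 100000

namespace Pool.Agent.KZ.AL.Ck.T433_2200_AB

open Pool.Agent.KZ (Tri chk rwS)
open Finset (range)

/-- The positions of the T-points. -/
private def P1 : List ((ℕ × ℕ × ℕ) × List (ℕ × ℤ)) :=
  [((0, 2, 0), [(1, 1), (3, 2), (8, 1), (10, 1), (11, 1)]), ((0, 2, 1), [(0, 1), (3, 1), (10, 1)]),
   ((0, 2, 2), [(0, 1), (1, 4), (8, 1), (10, 1)]), ((0, 2, 3), [(1, 1), (2, 1), (9, 1), (11, 1)]),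
   ((0, 3, 0), [(1, -1), (3, -2), (14, 1)]), ((0, 3, 1), [(2, 1), (13, 1)]),
   ((0, 3, 2), [(0, 1), (12, 1)]), ((0, 3, 3), [(0, 1), (2, 1), (12, 1), (14, 4)]),
   ((1, 2, 0), [(6, 1), (11, 1)]), ((1, 2, 1), [(4, 1), (5, 1), (7, 1), (11, 1)]),
   ((1, 2, 2), [(4, 1), (6, 4), (9, 1), (10, 1), (11, 1)]), ((1, 2, 3), [(5, 1), (6, 1), (9, 1), (10, 1)]),
   ((1, 3, 0), [(6, -1), (15, 1)]), ((1, 3, 1), [(5, 1), (7, 1), (13, 3), (14, 1)]),
   ((1, 3, 2), [(5, 1), (13, 1), (14, 1), (15, 1)]), ((1, 3, 3), [(7, 1), (15, 1)])]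

/-- The positions of the free items. -/
private def P2 : List ((ℕ × ℕ × ℕ) × List (ℕ × ℤ)) :=
  []

private def T : List (ℕ × ℕ × ℕ) :=
  [(0, 2, 0), (0, 2, 1), (0, 2, 2), (0, 2, 3), (0, 3, 0), (0, 3, 1), (0, 3, 2), (0, 3, 3),
   (1, 2, 0), (1, 2, 1), (1, 2, 2), (1, 2, 3), (1, 3, 0), (1, 3, 1), (1, 3, 2), (1, 3, 3)]

private def F : List (ℕ × ℕ × ℕ) :=
  []

private def L1 : List (List (ℕ × ℕ)) :=
  [[(1, 1), (3, 2), (8, 1), (10, 1), (11, 1)], [(0, 1), (3, 1), (10, 1)], [(0, 1), (1, 4), (8, 1), (10, 1)],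
   [(1, 1), (2, 1), (9, 1), (11, 1)], [(1, 30), (3, 29), (14, 1)], [(2, 1), (13, 1)],
   [(0, 1), (12, 1)], [(0, 1), (2, 1), (12, 1), (14, 4)], [(6, 1), (11, 1)],
   [(4, 1), (5, 1), (7, 1), (11, 1)], [(4, 1), (6, 4), (9, 1), (10, 1), (11, 1)], [(5, 1), (6, 1), (9, 1), (10, 1)],
   [(6, 30), (15, 1)], [(5, 1), (7, 1), (13, 3), (14, 1)], [(5, 1), (13, 1), (14, 1), (15, 1)],
   [(7, 1), (15, 1)]]

private def L2 : List (List (ℕ × ℕ)) :=
  []

private def t0 : Tri :=
  (.node (.node (.node (.node .nil 68736258049 16 16 .nil) 68736258056 161 4 (.node .nil 68736258112 185 16 .nil)) 68736258560 203 8 (.node (.node .nil 68736286721 20 16 .nil) 68736286728 172 4 .nil)) 68736286784 190 16 (.node (.node (.node .nil 68736287232 206 8 .nil) 68736516097 24 16 (.node .nil 68736516104 173 4 .nil)) 68736516160 191 16 (.node (.node .nil 68736516608 207 8 .nil) 68738351105 28 16 .nil)))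

private def t1 : Tri :=
  (.node (.node (.node (.node .nil 68738351168 194 16 .nil) 68738351616 209 8 (.node .nil 68853698561 17 16 .nil)) 68853698568 156 16 (.node (.node .nil 68853698624 155 16 .nil) 68853699072 213 16 .nil)) 68853727233 21 16 (.node (.node (.node .nil 68853727240 170 16 .nil) 68853727296 169 16 (.node .nil 68853727744 198 16 .nil)) 68853956609 25 16 (.node (.node .nil 68853956616 159 16 .nil) 68853956672 158 16 .nil)))

private def t2 : Tri :=
  (.node t0 68738351112 176 4 t1)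

private def t3 : Tri :=
  (.node (.node (.node (.node .nil 68855791624 184 16 .nil) 68855791680 183 16 (.node .nil 69793222657 18 16 .nil)) 69793222664 160 16 (.node (.node .nil 69793222720 188 16 .nil) 69793223168 74 16 .nil)) 69793251329 22 16 (.node (.node (.node .nil 69793251336 171 16 .nil) 69793251392 186 16 (.node .nil 69793251840 78 16 .nil)) 69793480705 26 16 (.node (.node .nil 69793480768 187 16 .nil) 69793481216 83 16 .nil)))

private def t4 : Tri :=
  (.node (.node (.node (.node .nil 69795315776 196 16 .nil) 69795316224 86 16 (.node .nil 77309415425 19 16 .nil)) 77309444097 23 16 (.node (.node .nil 77309444104 122 16 .nil) 77309444160 126 16 .nil)) 77309444608 130 16 (.node (.node (.node .nil 77309673473 27 16 .nil) 77309673480 35 16 .nil) 77309673536 39 16 (.node (.node .nil 77309673984 42 16 .nil) 77311508481 31 16 .nil)))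

private def t5 : Tri :=
  (.node t3 69795315713 30 16 t4)

private def t6 : Tri :=
  (.node t2 68855791617 29 16 t5)

private def t7 : Tri :=
  (.node (.node (.node (.node .nil 549772595201 166 16 .nil) 549772595264 0 16 (.node .nil 549772595712 204 8 .nil)) 549772623873 138 16 (.node (.node .nil 549772623936 4 16 .nil) 549772624384 148 8 .nil)) 549772853249 174 16 (.node (.node (.node .nil 549772853312 8 16 .nil) 549772853760 208 8 (.node .nil 549774688257 178 26 .nil)) 549774688264 179 26 (.node (.node .nil 549774688320 12 16 .nil) 549774688768 201 26 .nil)))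

private def t8 : Tri :=
  (.node (.node (.node (.node .nil 549890035720 162 16 .nil) 549890035776 1 16 (.node .nil 549890036224 214 16 .nil)) 549890064385 142 16 (.node (.node .nil 549890064392 106 16 .nil) 549890064448 5 16 .nil)) 549890064896 151 16 (.node (.node (.node .nil 549890293761 197 16 .nil) 549890293768 163 16 .nil) 549890293824 9 16 (.node (.node .nil 549890294272 199 16 .nil) 549892128769 200 26 .nil)))

private def t9 : Tri :=
  (.node t7 549890035713 210 16 t8)

private def t10 : Tri :=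
  (.node (.node (.node (.node .nil 549892128832 13 16 .nil) 549892129280 202 26 (.node .nil 550829559809 75 16 .nil)) 550829559816 165 16 (.node (.node .nil 550829559872 2 16 .nil) 550829588481 79 16 .nil)) 550829588488 137 16 (.node (.node (.node .nil 550829588544 6 16 .nil) 550829817857 84 16 (.node .nil 550829817864 164 16 .nil)) 550829817920 10 16 (.node (.node .nil 550831652865 88 26 .nil) 550831652872 180 4 .nil)))

private def t11 : Tri :=
  (.node (.node (.node (.node .nil 550831653376 89 16 .nil) 558345752577 119 16 (.node .nil 558345752584 123 16 .nil)) 558345752640 3 16 (.node (.node .nil 558345753088 132 16 .nil) 558345781312 7 16 .nil)) 558346010625 32 16 (.node (.node (.node .nil 558346010632 36 16 .nil) 558346010688 11 16 .nil) 558346011136 43 16 (.node (.node .nil 558347845633 118 26 .nil) 558347845640 107 26 .nil)))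

private def t12 : Tri :=
  (.node t10 550831652928 14 16 t11)

private def t13 : Tri :=
  (.node t9 549892128776 108 16 t12)

private def t14 : Tri :=
  (.node t6 77311508544 127 16 t13)

private def t15 : Tri :=
  (.node (.node (.node (.node .nil 558347846144 131 26 .nil) 4398063292417 167 16 (.node .nil 4398063292928 90 23 .nil)) 4398063321089 139 16 (.node (.node .nil 4398063321600 100 23 .nil) 4398063550465 175 16 .nil)) 4398063550976 103 23 (.node (.node (.node .nil 4398065385473 177 16 .nil) 4398065385536 193 16 (.node .nil 4398065385984 105 23 .nil)) 4398180732929 153 16 (.node (.node .nil 4398180732936 97 16 .nil) 4398180732992 154 16 .nil)))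

private def t16 : Tri :=
  (.node (.node (.node (.node .nil 4398180761608 91 16 .nil) 4398180762112 101 23 (.node .nil 4398180990977 152 16 .nil)) 4398180990984 94 16 (.node (.node .nil 4398180991040 157 16 .nil) 4398180991488 104 23 .nil)) 4398182825992 109 16 (.node (.node (.node .nil 4398182826048 113 16 .nil) 4398182826496 110 23 .nil) 4399120257025 76 16 (.node (.node .nil 4399120257032 95 15 .nil) 4399120257088 189 4 .nil)))

private def t17 : Tri :=
  (.node t15 4398180733440 98 23 t16)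

private def t18 : Tri :=
  (.node (.node (.node (.node .nil 4399120285704 92 15 .nil) 4399120285760 147 16 (.node .nil 4399120515073 85 16 .nil)) 4399120515080 93 15 (.node (.node .nil 4399120515136 192 4 .nil) 4399122350081 87 16 .nil)) 4399122350088 111 15 (.node (.node (.node .nil 4399122350144 195 16 .nil) 4406636449793 116 4 (.node .nil 4406636449800 96 16 .nil)) 4406636449856 115 16 (.node (.node .nil 4406636450304 99 23 .nil) 4406636478976 102 23 .nil)))

private def t19 : Tri :=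
  (.node (.node (.node (.node .nil 4406636707848 37 16 .nil) 4406636707904 40 16 (.node .nil 4406636708352 44 16 .nil)) 4406638542849 117 16 (.node (.node .nil 4406638542912 114 16 .nil) 4406638543360 112 23 .nil)) 35184388870145 168 16 (.node (.node (.node .nil 35184388870656 205 8 .nil) 35184388898817 140 16 .nil) 35184388898824 143 16 (.node (.node .nil 35184388898880 144 16 .nil) 35184388899328 149 16 .nil)))

private def t20 : Tri :=
  (.node t18 4406636707841 33 16 t19)

private def t21 : Tri :=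
  (.node t17 4399120285697 80 16 t20)

private def t22 : Tri :=
  (.node (.node (.node (.node .nil 35184389128200 49 15 .nil) 35184389128256 52 15 (.node .nil 35184389128704 55 15 .nil)) 35184390963201 58 16 (.node (.node .nil 35184390963208 62 16 .nil) 35184390963264 66 16 .nil)) 35184390963712 70 16 (.node (.node (.node .nil 35184506310657 211 16 .nil) 35184506310664 181 16 (.node .nil 35184506310720 182 16 .nil)) 35184506311168 215 16 (.node (.node .nil 35184506339329 141 16 .nil) 35184506339336 135 16 .nil)))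

private def t23 : Tri :=
  (.node (.node (.node (.node .nil 35184506339840 150 16 .nil) 35184506568705 47 15 (.node .nil 35184506568712 50 15 .nil)) 35184506568768 53 15 (.node (.node .nil 35184506569216 56 15 .nil) 35184508403713 59 16 .nil)) 35184508403720 63 16 (.node (.node (.node .nil 35184508403776 67 16 .nil) 35184508404224 71 16 .nil) 35185445834753 77 16 (.node (.node .nil 35185445834816 212 16 .nil) 35185445863425 81 16 .nil)))

private def t24 : Tri :=
  (.node t22 35184506339392 145 16 t23)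

private def t25 : Tri :=
  (.node (.node (.node (.node .nil 35185445863488 146 16 .nil) 35185445863936 82 16 (.node .nil 35185446092801 48 15 .nil)) 35185446092808 51 15 (.node (.node .nil 35185446092864 54 15 .nil) 35185446093312 57 15 .nil)) 35185447927809 60 16 (.node (.node (.node .nil 35185447927816 64 16 .nil) 35185447927872 68 16 (.node .nil 35185447928320 72 16 .nil)) 35192962027521 121 16 (.node (.node .nil 35192962027528 125 16 .nil) 35192962027584 129 16 .nil)))

private def t26 : Tri :=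
  (.node (.node (.node (.node .nil 35192962056193 120 16 .nil) 35192962056200 124 16 (.node .nil 35192962056256 128 16 .nil)) 35192962056704 133 16 (.node (.node .nil 35192962285569 34 16 .nil) 35192962285576 38 16 .nil)) 35192962285632 41 16 (.node (.node (.node .nil 35192962286080 45 16 .nil) 35192964120577 61 16 .nil) 35192964120584 65 16 (.node (.node .nil 35192964120640 69 16 .nil) 35192964121088 73 16 .nil)))

private def t27 : Tri :=
  (.node t25 35192962028032 134 16 t26)

private def t28 : Tri :=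
  (.node t24 35185445863432 136 16 t27)

private def t29 : Tri :=
  (.node t21 35184389128193 46 15 t28)

private def t30 : Tri :=
  (.node t14 558347845696 15 16 t29)

private def N : Tri := t30

private def S : List (List (ℕ × ℕ × ℕ)) :=
  [[(5, 4, 8)], [(5, 4, 9)], [(5, 4, 10)], [(5, 4, 11)], [(5, 5, 8)], [(5, 5, 9)], [(5, 5, 10)], [(5, 5, 11)
  ], [(5, 6, 8)], [(5, 6, 9)], [(5, 6, 10)], [(5, 6, 11)], [(5, 7, 8)], [(5, 7, 9)], [(5, 7, 10)], [(5, 7, 11)
  ], [(6, 4, 8)], [(6, 4, 9)], [(6, 4, 10)], [(6, 4, 11)], [(6, 5, 8)], [(6, 5, 9)], [(6, 5, 10)], [(6, 5, 11)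
  ], [(6, 6, 8)], [(6, 6, 9)], [(6, 6, 10)], [(6, 6, 11)], [(6, 7, 8)], [(6, 7, 9)], [(6, 7, 10)], [(6, 7, 11)
  ], [(8, 0, 13)], [(8, 0, 14)], [(8, 0, 15)], [(8, 1, 12)], [(8, 1, 13)], [(8, 1, 14)], [(8, 1, 15)], [(8, 2, 12)
  ], [(8, 2, 14)], [(8, 2, 15)], [(8, 3, 12)], [(8, 3, 13)], [(8, 3, 14)], [(8, 3, 15)], [(12, 0, 8)], [(12, 0, 9)
  ], [(12, 0, 10)], [(12, 1, 8)], [(12, 1, 9)], [(12, 1, 10)], [(12, 2, 8)], [(12, 2, 9)], [(12, 2, 10)], [(12, 3, 8)
  ], [(12, 3, 9)], [(12, 3, 10)], [(15, 0, 8)], [(15, 0, 9)], [(15, 0, 10)], [(15, 0, 11)], [(15, 1, 8)], [(15, 1, 9)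
  ], [(15, 1, 10)], [(15, 1, 11)], [(15, 2, 8)], [(15, 2, 9)], [(15, 2, 10)], [(15, 2, 11)], [(15, 3, 8)], [(15, 3, 9)
  ], [(15, 3, 10)], [(15, 3, 11)], [(1, 4, 12)], [(1, 4, 13)], [(1, 4, 14)], [(1, 4, 15)], [(1, 5, 12)], [(1, 5, 13)
  ], [(1, 5, 14)], [(14, 0, 10)], [(1, 5, 15)], [(1, 6, 12)], [(1, 6, 13)], [(1, 6, 14)], [(1, 7, 12)], [(1, 7, 14)
  ], [(13, 0, 10)], [(1, 7, 13)], [(4, 4, 8)], [(3, 5, 14)], [(4, 5, 10)], [(4, 6, 10)], [(11, 1, 14)], [(4, 4, 10)
  ], [(9, 1, 14)], [(10, 1, 14)], [(4, 4, 9)], [(4, 4, 11)], [(4, 5, 8)], [(4, 5, 9)], [(4, 5, 11)], [(4, 6, 8)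
  ], [(4, 6, 9)], [(4, 7, 8)], [(3, 5, 13)], [(13, 1, 11)], [(3, 7, 13)], [(13, 1, 9)], [(4, 7, 9)], [(4, 7, 10)
  ], [(4, 7, 11)], [(13, 2, 9)], [(3, 7, 14)], [(9, 2, 14)], [(7, 4, 11)], [(9, 0, 14)], [(13, 0, 11)], [(9, 0, 13)
  ], [(14, 0, 11)], [(9, 0, 15)], [(9, 1, 12)], [(9, 1, 13)], [(14, 1, 11)], [(9, 1, 15)], [(7, 5, 11)], [(9, 2, 12)
  ], [(14, 2, 11)], [(9, 2, 15)], [(9, 3, 12)], [(13, 3, 11)], [(9, 3, 13)], [(14, 3, 11)], [(9, 3, 15)], [(14, 1, 9)
  ], [(11, 1, 15)], [(14, 1, 10)], [(2, 5, 13)], [(2, 5, 14)], [(14, 0, 8)], [(11, 0, 15)], [(14, 0, 9)], [(14, 1, 8)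
  ], [(14, 2, 8)], [(14, 2, 9)], [(11, 2, 15)], [(14, 2, 10)], [(0, 5, 13)], [(14, 3, 8)], [(11, 3, 15)], [(14, 3, 9)
  ], [(11, 0, 14)], [(10, 0, 14)], [(3, 4, 14)], [(7, 4, 9)], [(3, 4, 12)], [(3, 6, 14)], [(7, 6, 9)], [(3, 6, 12)
  ], [(10, 1, 12)], [(2, 4, 12)], [(3, 4, 13)], [(3, 6, 13)], [(11, 1, 13)], [(10, 1, 13)], [(2, 4, 13)], [(2, 4, 14)
  ], [(2, 4, 15)], [(7, 5, 9)], [(3, 5, 12)], [(11, 1, 12)], [(2, 5, 12)], [(2, 6, 12)], [(2, 6, 13)], [(2, 6, 14)
  ], [(2, 7, 12)], [(2, 7, 14)], [(13, 0, 8)], [(13, 1, 8)], [(2, 7, 13)], [(10, 1, 15)], [(3, 4, 15)], [(7, 7, 9)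
  ], [(3, 7, 12)], [(7, 4, 8)], [(7, 5, 10)], [(11, 2, 12)], [(10, 2, 12)], [(7, 4, 10)], [(7, 5, 8)], [(7, 6, 8)
  ], [(7, 6, 10)], [(13, 2, 8)], [(7, 7, 8)], [(13, 2, 10)], [(7, 7, 10)], [(11, 0, 13)], [(11, 3, 12)], [(11, 3, 13)
  ], [(13, 0, 9)], [(13, 3, 8)], [(13, 3, 9)], [(0, 4, 12)], [(0, 4, 13)], [(0, 4, 15)], [(0, 5, 12)], [(0, 6, 12)
  ], [(0, 6, 13)], [(0, 7, 12)], [(10, 0, 13)], [(10, 0, 15)], [(10, 2, 15)], [(10, 3, 12)], [(10, 3, 13)], [(10, 3, 15)
  ]]

private theorem h0 : chk 18 5 13 31 N (okM 16 4) (rwS L1 L2) S = true := by decide +kernel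

theorem ok : (sm false 16 2 2 {(0, {2, 3}, 0), (1, {2, 3}, 0)} ∅).OK :=
  ok_of_chk _ 16 4 rfl rfl P1 P2 T F L1 L2 (r := 216) N S (by decide +kernel) (by decide +kernel)
    (by decide +kernel) (by decide +kernel) (by decide +kernel) h0 (by decide +kernel)
    (by decide +kernel) (by decide +kernel) (by decide +kernel) (by decide +kernel)

end Pool.Agent.KZ.AL.Ck.T433_2200_AB
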