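import Pool.Agent.KZ.AL.OkC

/-! # KZ4, ALPHA: finite check T433_2200_B (generated) -/

set_option autoImplicit false
set_option maxRecDepth 100000

namespace Pool.Agent.KZ.AL.Ck.T433_2200_B

open Pool.Agent.KZ (Tri chk rwS)
open Finset (range)

/-- The positions of the T-points. -/
private def P1 : List ((ℕ × ℕ × ℕ) × List (ℕ × ℤ)) :=
  [((0, 2, 0), [(0, 1), (1, 1), (2, 1), (8, 4), (10, 1)]), ((0, 2, 1), [(0, 1), (1, 2), (2, 3), (8, 1)]),
   ((0, 2, 2), [(1, 1), (10, 2)]), ((0, 2, 3), [(1, 2), (2, 4), (8, 1)]),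
   ((0, 3, 0), [(2, 1), (12, 4), (13, 3)]), ((0, 3, 1), [(3, 1), (15, 4)]),
   ((0, 3, 2), [(0, 1), (1, 1), (2, 1), (3, 1), (13, 1), (14, 1)]), ((0, 3, 3), [(2, 4), (15, 1)]),
   ((1, 2, 0), [(4, 1), (8, 1), (9, 1)]), ((1, 2, 1), [(4, 1), (6, 1), (10, 1), (11, 1)]),
   ((1, 2, 2), [(7, 1), (8, 4), (9, 1)]), ((1, 2, 3), [(6, 1), (9, 1), (10, 1), (11, 1)]),
   ((1, 3, 0), [(4, -1), (14, 1), (15, 4)]), ((1, 3, 1), [(6, 1), (7, 3), (12, 1)]),
   ((1, 3, 2), [(6, 2), (7, 2), (14, 4)]), ((1, 3, 3), [(5, 1), (6, 1), (14, 1)])]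

/-- The positions of the free items. -/
private def P2 : List ((ℕ × ℕ × ℕ) × List (ℕ × ℤ)) :=
  []

private def T : List (ℕ × ℕ × ℕ) :=
  [(0, 2, 0), (0, 2, 1), (0, 2, 2), (0, 2, 3), (0, 3, 0), (0, 3, 1), (0, 3, 2), (0, 3, 3),
   (1, 2, 0), (1, 2, 1), (1, 2, 2), (1, 2, 3), (1, 3, 0), (1, 3, 1), (1, 3, 2), (1, 3, 3)]

private def F : List (ℕ × ℕ × ℕ) :=
  []

private def L1 : List (List (ℕ × ℕ)) :=
  [[(0, 1), (1, 1), (2, 1), (8, 4), (10, 1)], [(0, 1), (1, 2), (2, 3), (8, 1)], [(1, 1), (10, 2)],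
   [(1, 2), (2, 4), (8, 1)], [(2, 1), (12, 4), (13, 3)], [(3, 1), (15, 4)],
   [(0, 1), (1, 1), (2, 1), (3, 1), (13, 1), (14, 1)], [(2, 4), (15, 1)], [(4, 1), (8, 1), (9, 1)],
   [(4, 1), (6, 1), (10, 1), (11, 1)], [(7, 1), (8, 4), (9, 1)], [(6, 1), (9, 1), (10, 1), (11, 1)],
   [(4, 30), (14, 1), (15, 4)], [(6, 1), (7, 3), (12, 1)], [(6, 2), (7, 2), (14, 4)],
   [(5, 1), (6, 1), (14, 1)]]

private def L2 : List (List (ℕ × ℕ)) :=
  []

private def t0 : Tri :=
  (.node (.node (.node (.node .nil 68736258049 97 16 .nil) 68736258056 49 8 (.node .nil 68736258112 48 4 .nil)) 68736258560 110 16 (.node (.node .nil 68736286721 183 16 .nil) 68736286728 55 8 .nil)) 68736286784 54 4 (.node (.node (.node .nil 68736516097 115 16 .nil) 68736516104 70 16 (.node .nil 68736516160 71 4 .nil)) 68736516608 162 16 (.node (.node .nil 68738351105 116 26 .nil) 68738351112 69 8 .nil)))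

private def t1 : Tri :=
  (.node (.node (.node (.node .nil 68738351616 132 4 .nil) 68853698561 98 16 (.node .nil 68853698568 105 16 .nil)) 68853698624 78 16 (.node (.node .nil 68853727296 87 4 .nil) 68853956609 154 16 .nil)) 68853956616 159 16 (.node (.node (.node .nil 68853956672 83 16 .nil) 68853957120 130 16 (.node .nil 68855791617 117 16 .nil)) 68855791624 126 16 (.node (.node .nil 68855791680 82 16 .nil) 68855792128 131 26 .nil)))

private def t2 : Tri :=
  (.node t0 68738351168 68 4 t1)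

private def t3 : Tri :=
  (.node (.node (.node (.node .nil 69793222664 0 8 .nil) 69793222720 80 4 (.node .nil 69793223168 207 16 .nil)) 69793251329 208 16 (.node (.node .nil 69793251336 4 8 .nil) 69793251392 88 4 .nil)) 69793480705 155 16 (.node (.node (.node .nil 69793480712 8 8 .nil) 69793480768 81 4 (.node .nil 69795315713 156 26 .nil)) 69795315720 12 8 (.node (.node .nil 69795315776 93 26 .nil) 69795316224 163 26 .nil)))

private def t4 : Tri :=
  (.node (.node (.node (.node .nil 77309415432 206 16 .nil) 77309415488 85 16 (.node .nil 77309444160 89 4 .nil)) 77309673473 157 16 (.node (.node .nil 77309673480 160 16 .nil) 77309673536 84 16 .nil)) 77311508481 158 26 (.node (.node (.node .nil 77311508488 161 26 .nil) 77311508544 95 26 (.node .nil 77311508992 164 26 .nil)) 549772595201 99 16 (.node (.node .nil 549772595208 50 8 .nil) 549772595712 112 16 .nil)))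

private def t5 : Tri :=
  (.node t3 77309415425 205 16 t4)

private def t6 : Tri :=
  (.node t2 69793222657 204 16 t5)

private def t7 : Tri :=
  (.node (.node (.node (.node .nil 549772623880 56 8 .nil) 549772624384 213 16 (.node .nil 549772853249 186 16 .nil)) 549772853256 73 8 (.node (.node .nil 549772853312 72 26 .nil) 549772853760 217 16 .nil)) 549774688257 118 16 (.node (.node (.node .nil 549774688264 76 8 .nil) 549774688768 139 16 (.node .nil 549890035713 100 16 .nil)) 549890035720 106 16 (.node (.node .nil 549890035776 79 26 .nil) 549890036224 113 16 .nil)))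

private def t8 : Tri :=
  (.node (.node (.node (.node .nil 549890293761 196 16 .nil) 549890293768 200 16 (.node .nil 549890293824 90 26 .nil)) 549890294272 203 16 (.node (.node .nil 549892128769 119 16 .nil) 549892128776 127 16 .nil)) 549892128832 92 26 (.node (.node (.node .nil 549892129280 140 16 .nil) 550829559809 189 16 (.node .nil 550829559816 1 8 .nil)) 550829560320 191 16 (.node (.node .nil 550829588481 209 16 .nil) 550829588488 5 8 .nil)))

private def t9 : Tri :=
  (.node t7 549890064385 214 16 t8)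

private def t10 : Tri :=
  (.node (.node (.node (.node .nil 550829817857 188 16 .nil) 550829817864 9 8 (.node .nil 550829818368 192 16 .nil)) 550831652865 211 16 (.node (.node .nil 550831652872 13 8 .nil) 550831652928 94 26 .nil)) 550831653376 218 16 (.node (.node (.node .nil 558345752577 194 16 .nil) 558345752584 190 16 (.node .nil 558345752640 86 26 .nil)) 558345753088 193 16 (.node (.node .nil 558345781249 216 16 .nil) 558346010625 195 16 .nil)))

private def t11 : Tri :=
  (.node (.node (.node (.node .nil 558347845633 219 16 .nil) 558347845696 96 26 (.node .nil 4398063292417 101 16 .nil)) 4398063292424 52 15 (.node (.node .nil 4398063292480 53 4 .nil) 4398063292928 111 15 .nil)) 4398063321089 120 16 (.node (.node (.node .nil 4398063321096 65 16 .nil) 4398063321152 66 4 .nil) 4398063321600 179 16 (.node (.node .nil 4398063550465 121 16 .nil) 4398063550472 64 2 .nil)))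

private def t12 : Tri :=
  (.node t10 558346010688 91 26 t11)

private def t13 : Tri :=
  (.node t9 550829588992 215 16 t12)

private def t14 : Tri :=
  (.node t6 549772623873 184 16 t13)

private def t15 : Tri :=
  (.node (.node (.node (.node .nil 4398063550976 170 2 .nil) 4398065385473 122 2 (.node .nil 4398065385480 63 8 .nil)) 4398065385536 62 4 (.node (.node .nil 4398065385984 138 4 .nil) 4398180732929 102 16 .nil)) 4398180732936 107 16 (.node (.node (.node .nil 4398180732992 109 16 .nil) 4398180733440 114 16 (.node .nil 4398180761601 173 16 .nil)) 4398180761608 175 16 (.node (.node .nil 4398180761664 177 16 .nil) 4398180762112 180 16 .nil)))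

private def t16 : Tri :=
  (.node (.node (.node (.node .nil 4398180990984 150 2 .nil) 4398180991040 60 16 (.node .nil 4398180991488 136 16 .nil)) 4398182825985 123 16 (.node (.node .nil 4398182825992 128 16 .nil) 4398182826048 61 2 .nil)) 4398182826496 137 2 (.node (.node (.node .nil 4399120257025 141 16 .nil) 4399120257032 2 8 (.node .nil 4399120257088 57 15 .nil)) 4399120257536 133 15 (.node (.node .nil 4399120285697 144 16 .nil) 4399120285704 6 8 .nil)))

private def t17 : Tri :=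
  (.node t15 4398180990977 146 2 t16)

private def t18 : Tri :=
  (.node (.node (.node (.node .nil 4399120286208 181 16 .nil) 4399120515073 145 16 (.node .nil 4399120515080 10 8 .nil)) 4399120515584 135 16 (.node (.node .nil 4399122350081 165 2 .nil) 4399122350088 14 8 .nil)) 4399122350144 168 2 (.node (.node (.node .nil 4399122350592 171 2 .nil) 4406636449793 148 16 (.node .nil 4406636449800 152 16 .nil)) 4406636449856 58 15 (.node (.node .nil 4406636450304 134 15 .nil) 4406636478465 174 16 .nil)))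

private def t19 : Tri :=
  (.node (.node (.node (.node .nil 4406636478528 178 16 .nil) 4406636478976 182 16 (.node .nil 4406636707841 147 16 .nil)) 4406636707848 151 16 (.node (.node .nil 4406636707904 59 16 .nil) 4406638542849 166 2 .nil)) 4406638542856 167 2 (.node (.node (.node .nil 4406638542912 169 2 .nil) 4406638543360 172 2 .nil) 35184388870145 103 27 (.node (.node .nil 35184388870152 51 8 .nil) 35184388870208 32 4 .nil)))

private def t20 : Tri :=
  (.node t18 4406636478472 176 16 t19)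

private def t21 : Tri :=
  (.node t17 4399120285760 143 16 t20)

private def t22 : Tri :=
  (.node (.node (.node (.node .nil 35184388898817 185 16 .nil) 35184388898824 67 8 (.node .nil 35184388898880 36 4 .nil)) 35184388899328 20 4 (.node (.node .nil 35184389128193 187 16 .nil) 35184389128200 75 8 .nil)) 35184389128256 40 4 (.node (.node (.node .nil 35184389128704 24 4 .nil) 35184390963201 124 16 (.node .nil 35184390963208 77 8 .nil)) 35184390963264 44 4 (.node (.node .nil 35184390963712 28 4 .nil) 35184506310657 104 16 .nil)))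

private def t23 : Tri :=
  (.node (.node (.node (.node .nil 35184506310720 33 4 .nil) 35184506311168 17 4 (.node .nil 35184506339392 37 4 .nil)) 35184506339840 21 4 (.node (.node .nil 35184506568705 199 16 .nil) 35184506568712 202 16 .nil)) 35184506568768 41 4 (.node (.node (.node .nil 35184506569216 25 4 .nil) 35184508403713 125 16 (.node .nil 35184508403720 129 16 .nil)) 35184508403776 45 4 (.node (.node .nil 35184508404224 29 4 .nil) 35185445834753 142 27 .nil)))

private def t24 : Tri :=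
  (.node t22 35184506310664 108 16 t23)

private def t25 : Tri :=
  (.node (.node (.node (.node .nil 35185445834816 34 4 .nil) 35185445835264 18 4 (.node .nil 35185445863425 210 16 .nil)) 35185445863432 7 8 (.node (.node .nil 35185445863488 38 4 .nil) 35185445863936 22 4 .nil)) 35185446092801 197 16 (.node (.node (.node .nil 35185446092808 11 8 .nil) 35185446092864 42 4 (.node .nil 35185446093312 26 4 .nil)) 35185447927809 212 16 (.node (.node .nil 35185447927816 15 8 .nil) 35185447927872 46 4 .nil)))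

private def t26 : Tri :=
  (.node (.node (.node (.node .nil 35192962027521 149 27 .nil) 35192962027528 153 27 (.node .nil 35192962027584 35 4 .nil)) 35192962028032 19 4 (.node (.node .nil 35192962056256 39 4 .nil) 35192962056704 23 4 .nil)) 35192962285569 198 16 (.node (.node (.node .nil 35192962285576 201 16 .nil) 35192962285632 43 4 .nil) 35192962286080 27 4 (.node (.node .nil 35192964120640 47 4 .nil) 35192964121088 31 4 .nil)))

private def t27 : Tri :=
  (.node t25 35185447928320 30 4 t26)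

private def t28 : Tri :=
  (.node t24 35185445834760 3 8 t27)

private def t29 : Tri :=
  (.node t21 35184388870656 16 4 t28)

private def t30 : Tri :=
  (.node t14 4398063550528 74 4 t29)

private def N : Tri := t30

private def S : List (List (ℕ × ℕ × ℕ)) :=
  [[(2, 4, 12)], [(2, 4, 13)], [(2, 4, 14)], [(2, 4, 15)], [(2, 5, 12)], [(2, 5, 13)], [(2, 5, 14)], [(2, 5, 15)
  ], [(2, 6, 12)], [(2, 6, 13)], [(2, 6, 14)], [(2, 6, 15)], [(2, 7, 12)], [(2, 7, 13)], [(2, 7, 14)], [(2, 7, 15)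
  ], [(5, 4, 8)], [(5, 4, 9)], [(5, 4, 10)], [(5, 4, 11)], [(5, 5, 8)], [(5, 5, 9)], [(5, 5, 10)], [(5, 5, 11)
  ], [(5, 6, 8)], [(5, 6, 9)], [(5, 6, 10)], [(5, 6, 11)], [(5, 7, 8)], [(5, 7, 9)], [(5, 7, 10)], [(5, 7, 11)
  ], [(7, 4, 8)], [(7, 4, 9)], [(7, 4, 10)], [(7, 4, 11)], [(7, 5, 8)], [(7, 5, 9)], [(7, 5, 10)], [(7, 5, 11)
  ], [(7, 6, 8)], [(7, 6, 9)], [(7, 6, 10)], [(7, 6, 11)], [(7, 7, 8)], [(7, 7, 9)], [(7, 7, 10)], [(7, 7, 11)
  ], [(4, 4, 8)], [(3, 4, 12)], [(3, 4, 13)], [(3, 4, 15)], [(12, 1, 8)], [(3, 4, 14)], [(4, 5, 8)], [(3, 5, 12)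
  ], [(3, 5, 13)], [(12, 2, 10)], [(12, 2, 11)], [(9, 2, 14)], [(11, 2, 14)], [(14, 2, 9)], [(10, 2, 14)], [(3, 7, 14)
  ], [(14, 1, 8)], [(15, 1, 8)], [(3, 5, 14)], [(3, 5, 15)], [(4, 7, 8)], [(3, 7, 12)], [(13, 1, 8)], [(3, 6, 12)
  ], [(4, 6, 8)], [(3, 6, 13)], [(3, 6, 14)], [(3, 6, 15)], [(3, 7, 13)], [(3, 7, 15)], [(8, 2, 12)], [(4, 4, 9)
  ], [(4, 4, 10)], [(4, 6, 10)], [(10, 2, 12)], [(13, 2, 9)], [(11, 2, 12)], [(9, 2, 12)], [(4, 4, 11)], [(4, 5, 9)
  ], [(4, 5, 10)], [(4, 5, 11)], [(4, 6, 9)], [(4, 6, 11)], [(4, 7, 9)], [(13, 2, 10)], [(4, 7, 10)], [(13, 2, 11)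
  ], [(4, 7, 11)], [(1, 4, 12)], [(8, 0, 12)], [(1, 4, 13)], [(8, 0, 13)], [(1, 4, 14)], [(8, 0, 14)], [(12, 0, 8)
  ], [(8, 0, 15)], [(8, 1, 12)], [(8, 1, 13)], [(8, 1, 14)], [(8, 1, 15)], [(8, 2, 14)], [(8, 3, 12)], [(12, 3, 8)
  ], [(6, 4, 8)], [(8, 3, 13)], [(8, 3, 14)], [(1, 6, 12)], [(13, 0, 8)], [(10, 0, 12)], [(1, 7, 13)], [(10, 0, 13)
  ], [(1, 5, 14)], [(15, 0, 8)], [(14, 0, 8)], [(10, 0, 14)], [(1, 7, 15)], [(10, 0, 15)], [(10, 1, 12)], [(10, 1, 13)
  ], [(10, 1, 14)], [(10, 1, 15)], [(11, 3, 12)], [(13, 3, 9)], [(10, 3, 12)], [(12, 3, 10)], [(12, 3, 11)], [(9, 3, 14)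
  ], [(11, 3, 14)], [(14, 3, 9)], [(10, 3, 14)], [(6, 7, 8)], [(10, 3, 13)], [(0, 4, 14)], [(12, 0, 10)], [(15, 2, 10)
  ], [(0, 5, 14)], [(15, 0, 10)], [(14, 0, 9)], [(11, 0, 14)], [(9, 0, 14)], [(12, 0, 11)], [(14, 1, 9)], [(11, 1, 14)
  ], [(9, 1, 14)], [(12, 1, 11)], [(13, 0, 9)], [(0, 6, 12)], [(13, 0, 10)], [(11, 0, 12)], [(13, 0, 11)], [(13, 1, 9)
  ], [(11, 1, 12)], [(13, 1, 11)], [(13, 3, 8)], [(13, 3, 10)], [(13, 3, 11)], [(14, 0, 10)], [(14, 0, 11)], [(14, 1, 11)
  ], [(14, 2, 10)], [(14, 2, 11)], [(14, 3, 8)], [(14, 3, 10)], [(14, 3, 11)], [(15, 0, 9)], [(15, 0, 11)], [(15, 1, 9)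
  ], [(15, 1, 11)], [(15, 2, 9)], [(15, 2, 11)], [(15, 3, 8)], [(15, 3, 9)], [(15, 3, 10)], [(15, 3, 11)], [(1, 5, 12)
  ], [(1, 5, 13)], [(1, 5, 15)], [(1, 6, 13)], [(1, 6, 15)], [(0, 6, 13)], [(0, 4, 13)], [(9, 1, 13)], [(6, 4, 10)
  ], [(6, 6, 10)], [(9, 3, 13)], [(6, 4, 11)], [(9, 0, 13)], [(11, 0, 13)], [(0, 6, 15)], [(9, 0, 15)], [(11, 0, 15)
  ], [(11, 1, 13)], [(9, 1, 15)], [(11, 1, 15)], [(11, 3, 13)], [(0, 4, 12)], [(9, 0, 12)], [(9, 1, 12)], [(9, 3, 12)
  ], [(0, 5, 12)], [(0, 5, 13)], [(0, 5, 15)], [(0, 7, 13)], [(0, 7, 15)], [(6, 5, 8)], [(6, 5, 9)], [(6, 5, 10)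
  ], [(6, 5, 11)], [(6, 6, 8)], [(6, 7, 10)], [(6, 7, 11)]]

private theorem h0 : chk 17 5 12 31 N (okM 16 4) (rwS L1 L2) S = true := by decide +kernel

theorem ok : (sm false 16 2 2 {(1, {2, 3}, 0)} ∅).OK :=
  ok_of_chk _ 16 4 rfl rfl P1 P2 T F L1 L2 (r := 220) N S (by decide +kernel) (by decide +kernel)
    (by decide +kernel) (by decide +kernel) (by decide +kernel) h0 (by decide +kernel)
    (by decide +kernel) (by decide +kernel) (by decide +kernel) (by decide +kernel)

end Pool.Agent.KZ.AL.Ck.T433_2200_B
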