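import Pool.Agent.KZ.AL.OkC

/-! # KZ4, ALPHA: finite check T433_3100_0 (generated) -/

set_option autoImplicit false
set_option maxRecDepth 100000

namespace Pool.Agent.KZ.AL.Ck.T433_3100_0

open Pool.Agent.KZ (Tri chk rwS)
open Finset (range)

/-- The positions of the T-points. -/
private def P1 : List ((ℕ × ℕ × ℕ) × List (ℕ × ℤ)) :=
  [((0, 3, 0), [(0, 1), (1, 1), (12, 1), (13, 3), (14, 4)]), ((0, 3, 1), [(0, 1), (2, 4), (12, 1)]),
   ((0, 3, 2), [(0, 3), (12, 1), (15, 3)]), ((0, 3, 3), [(2, 1), (3, 3), (12, 1), (14, 2), (15, 4)]),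
   ((1, 3, 0), [(4, 2), (5, 1), (7, 1), (13, 1)]), ((1, 3, 1), [(6, 1), (13, 1)]),
   ((1, 3, 2), [(4, 1), (6, 1), (13, 1)]), ((1, 3, 3), [(4, 1), (5, 3), (13, 2)]),
   ((2, 3, 0), [(10, 1), (14, 1), (15, 1)]), ((2, 3, 1), [(9, 1), (14, 1)]),
   ((2, 3, 2), [(10, 1), (14, 1)]), ((2, 3, 3), [(8, 1), (10, 2), (14, 1)])]

/-- The positions of the free items. -/
private def P2 : List ((ℕ × ℕ × ℕ) × List (ℕ × ℤ)) :=
  []

private def T : List (ℕ × ℕ × ℕ) :=
  [(0, 3, 0), (0, 3, 1), (0, 3, 2), (0, 3, 3), (1, 3, 0), (1, 3, 1), (1, 3, 2), (1, 3, 3),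
   (2, 3, 0), (2, 3, 1), (2, 3, 2), (2, 3, 3)]

private def F : List (ℕ × ℕ × ℕ) :=
  []

private def L1 : List (List (ℕ × ℕ)) :=
  [[(0, 1), (1, 1), (12, 1), (13, 3), (14, 4)], [(0, 1), (2, 4), (12, 1)], [(0, 3), (12, 1), (15, 3)],
   [(2, 1), (3, 3), (12, 1), (14, 2), (15, 4)], [(4, 2), (5, 1), (7, 1), (13, 1)], [(6, 1), (13, 1)],
   [(4, 1), (6, 1), (13, 1)], [(4, 1), (5, 3), (13, 2)], [(10, 1), (14, 1), (15, 1)],
   [(9, 1), (14, 1)], [(10, 1), (14, 1)], [(8, 1), (10, 2), (14, 1)]]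

private def L2 : List (List (ℕ × ℕ)) :=
  []

private def t0 : Tri :=
  (.node (.node (.node (.node .nil 68736258056 160 16 .nil) 68736258112 48 4 (.node .nil 68736258560 176 26 .nil)) 68736286728 164 16 (.node (.node .nil 68736286784 54 4 .nil) 68736287232 180 26 .nil)) 68736516104 168 16 (.node (.node (.node .nil 68736516160 60 4 .nil) 68736516608 184 26 .nil) 68738351112 172 16 (.node (.node .nil 68738351168 66 4 .nil) 68738351616 188 26 .nil)))

private def t1 : Tri :=
  (.node t0 68853698568 161 16 (.node (.node (.node (.node .nil 68853698624 49 4 .nil) 68853699072 177 26 .nil) 68853727240 165 16 (.node (.node .nil 68853727296 55 4 .nil) 68853727744 181 26 .nil)) 68853956616 169 16 (.node (.node (.node .nil 68853956672 61 4 .nil) 68853957120 185 26 .nil) 68855791624 173 16 (.node (.node .nil 68855791680 67 4 .nil) 68855792128 189 26 .nil))))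

private def t2 : Tri :=
  (.node (.node (.node (.node (.node .nil 69793222664 162 16 .nil) 69793222720 52 4 .nil) 69793223168 178 26 (.node (.node .nil 69793251329 57 26 .nil) 69793251336 166 16 .nil)) 69793251392 58 4 (.node (.node (.node .nil 69793251840 182 26 .nil) 69793480705 63 26 .nil) 69793480712 170 16 (.node (.node .nil 69793480768 64 4 .nil) 69793481216 186 26 .nil))) 69795315713 69 26 (.node (.node (.node (.node .nil 69795315720 174 16 .nil) 69795315776 70 4 .nil) 69795316224 190 26 (.node (.node .nil 77309415432 163 16 .nil) 77309415488 53 4 .nil)) 77309415936 179 26 (.node (.node (.node .nil 77309444104 167 16 .nil) 77309444160 59 4 .nil) 77309444608 183 26 (.node (.node .nil 77309673480 171 16 .nil) 77309673536 65 4 .nil))))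

private def t3 : Tri :=
  (.node t1 69793222657 51 26 t2)

private def t4 : Tri :=
  (.node (.node (.node (.node (.node .nil 77311508488 175 16 .nil) 77311508544 71 4 .nil) 77311508992 191 26 (.node (.node .nil 549772595201 84 16 .nil) 549772595208 88 16 .nil)) 549772595264 92 16 (.node (.node (.node .nil 549772595712 96 16 .nil) 549772623873 100 13 .nil) 549772623880 104 13 (.node (.node .nil 549772623936 108 13 .nil) 549772624384 112 13 .nil))) 549772853249 0 16 (.node (.node (.node (.node .nil 549772853256 4 16 .nil) 549772853312 8 16 .nil) 549772853760 12 16 (.node (.node .nil 549774688257 144 16 .nil) 549774688264 148 16 .nil)) 549774688320 152 16 (.node (.node (.node .nil 549774688768 156 16 .nil) 549890035713 85 16 .nil) 549890035720 89 16 (.node (.node .nil 549890035776 93 16 .nil) 549890036224 97 16 .nil))))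

private def t5 : Tri :=
  (.node (.node (.node (.node (.node .nil 549890064392 105 13 .nil) 549890064448 109 13 .nil) 549890064896 113 13 (.node (.node .nil 549890293761 1 16 .nil) 549890293768 5 16 .nil)) 549890293824 9 16 (.node (.node (.node .nil 549890294272 13 16 .nil) 549892128769 145 16 .nil) 549892128776 149 16 (.node (.node .nil 549892128832 153 16 .nil) 549892129280 157 16 .nil))) 550829559809 86 16 (.node (.node (.node (.node .nil 550829559816 90 16 .nil) 550829559872 94 16 .nil) 550829560320 98 16 (.node (.node .nil 550829588481 102 13 .nil) 550829588488 106 13 .nil)) 550829588544 110 13 (.node (.node (.node .nil 550829588992 114 13 .nil) 550829817857 2 16 .nil) 550829817864 6 16 (.node (.node .nil 550829817920 10 16 .nil) 550829818368 14 16 .nil))))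

private def t6 : Tri :=
  (.node t4 549890064385 101 13 t5)

private def t7 : Tri :=
  (.node t3 77309673984 187 26 t6)

private def t8 : Tri :=
  (.node (.node (.node (.node (.node .nil 550831652872 150 16 .nil) 550831652928 154 16 .nil) 550831653376 158 16 (.node (.node .nil 558345752577 87 16 .nil) 558345752584 91 16 .nil)) 558345752640 95 16 (.node (.node (.node .nil 558345753088 99 16 .nil) 558345781249 103 13 .nil) 558345781256 107 13 (.node (.node .nil 558345781312 111 13 .nil) 558345781760 115 13 .nil))) 558346010625 3 16 (.node (.node (.node (.node .nil 558346010632 7 16 .nil) 558346010688 11 16 .nil) 558346011136 15 16 (.node (.node .nil 558347845633 147 16 .nil) 558347845640 151 16 .nil)) 558347845696 155 16 (.node (.node (.node .nil 558347846144 159 16 .nil) 4398063292417 128 16 .nil) 4398063292424 132 16 (.node (.node .nil 4398063292480 136 16 .nil) 4398063292928 140 16 .nil))))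

private def t9 : Tri :=
  (.node (.node (.node (.node (.node .nil 4398063321096 133 16 .nil) 4398063321152 137 16 .nil) 4398063321600 141 16 (.node (.node .nil 4398063550465 130 16 .nil) 4398063550472 134 16 .nil)) 4398063550528 138 16 (.node (.node (.node .nil 4398063550976 142 16 .nil) 4398065385473 131 16 .nil) 4398065385480 135 16 (.node (.node .nil 4398065385536 139 16 .nil) 4398065385984 143 16 .nil))) 4398180732929 16 16 (.node (.node (.node (.node .nil 4398180732936 20 16 .nil) 4398180732992 24 16 .nil) 4398180733440 28 16 (.node (.node .nil 4398180761601 17 16 .nil) 4398180761608 21 16 .nil)) 4398180761664 25 16 (.node (.node (.node .nil 4398180762112 29 16 .nil) 4398180990977 18 16 .nil) 4398180990984 22 16 (.node (.node .nil 4398180991040 26 16 .nil) 4398180991488 30 16 .nil))))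

private def t10 : Tri :=
  (.node t8 4398063321089 129 16 t9)

private def t11 : Tri :=
  (.node (.node (.node (.node (.node .nil 4398182825992 23 16 .nil) 4398182826048 27 16 .nil) 4398182826496 31 16 (.node (.node .nil 4399120257025 32 16 .nil) 4399120257032 36 16 .nil)) 4399120257088 40 16 (.node (.node (.node .nil 4399120257536 44 16 .nil) 4399120285697 33 16 .nil) 4399120285704 37 16 (.node (.node .nil 4399120285760 41 16 .nil) 4399120286208 45 16 .nil))) 4399120515073 34 16 (.node (.node (.node (.node .nil 4399120515080 38 16 .nil) 4399120515136 42 16 .nil) 4399120515584 46 16 (.node (.node .nil 4399122350081 35 16 .nil) 4399122350088 39 16 .nil)) 4399122350144 43 16 (.node (.node (.node .nil 4399122350592 47 16 .nil) 35184388870145 72 19 .nil) 35184388898817 75 19 (.node (.node .nil 35184389128193 78 19 .nil) 35184390963201 81 19 .nil))))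

private def t12 : Tri :=
  (.node (.node (.node (.node (.node .nil 35184506339329 76 19 .nil) 35184506568705 79 19 .nil) 35184508403713 82 19 (.node (.node .nil 35185445834753 50 16 .nil) 35185445834760 116 16 .nil)) 35185445834816 120 16 (.node (.node (.node .nil 35185445835264 124 16 .nil) 35185445863425 56 16 .nil) 35185445863432 117 16 (.node (.node .nil 35185445863488 121 16 .nil) 35185445863936 125 16 .nil))) 35185446092801 62 16 (.node (.node (.node (.node .nil 35185446092808 118 16 .nil) 35185446092864 122 16 .nil) 35185446093312 126 16 (.node (.node .nil 35185447927809 68 16 .nil) 35185447927816 119 16 .nil)) 35185447927872 123 16 (.node (.node (.node .nil 35185447928320 127 16 .nil) 35192962027521 74 19 .nil) 35192962056193 77 19 (.node (.node .nil 35192962285569 80 19 .nil) 35192964120577 83 19 .nil))))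

private def t13 : Tri :=
  (.node t11 35184506310657 73 19 t12)

private def t14 : Tri :=
  (.node t10 4398182825985 19 16 t13)

private def t15 : Tri :=
  (.node t7 550831652865 146 16 t14)

private def N : Tri := t15

private def S : List (List (ℕ × ℕ × ℕ)) :=
  [[(5, 0, 8)], [(5, 0, 9)], [(5, 0, 10)], [(5, 0, 11)], [(5, 1, 8)], [(5, 1, 9)], [(5, 1, 10)], [(5, 1, 11)
  ], [(5, 2, 8)], [(5, 2, 9)], [(5, 2, 10)], [(5, 2, 11)], [(5, 3, 8)], [(5, 3, 9)], [(5, 3, 10)], [(5, 3, 11)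
  ], [(9, 0, 4)], [(9, 0, 5)], [(9, 0, 6)], [(9, 0, 7)], [(9, 1, 4)], [(9, 1, 5)], [(9, 1, 6)], [(9, 1, 7)
  ], [(9, 2, 4)], [(9, 2, 5)], [(9, 2, 6)], [(9, 2, 7)], [(9, 3, 4)], [(9, 3, 5)], [(9, 3, 6)], [(9, 3, 7)
  ], [(10, 0, 4)], [(10, 0, 5)], [(10, 0, 6)], [(10, 0, 7)], [(10, 1, 4)], [(10, 1, 5)], [(10, 1, 6)], [(10, 1, 7)
  ], [(10, 2, 4)], [(10, 2, 5)], [(10, 2, 6)], [(10, 2, 7)], [(10, 3, 4)], [(10, 3, 5)], [(10, 3, 6)], [(10, 3, 7)
  ], [(1, 4, 8)], [(1, 4, 9)], [(8, 0, 4)], [(2, 4, 10)], [(1, 4, 10)], [(1, 4, 11)], [(1, 5, 8)], [(1, 5, 9)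
  ], [(8, 0, 5)], [(2, 5, 10)], [(1, 5, 10)], [(1, 5, 11)], [(1, 6, 8)], [(1, 6, 9)], [(8, 0, 6)], [(2, 6, 10)
  ], [(1, 6, 10)], [(1, 6, 11)], [(1, 7, 8)], [(1, 7, 9)], [(8, 0, 7)], [(2, 7, 10)], [(1, 7, 10)], [(1, 7, 11)
  ], [(2, 4, 8)], [(2, 4, 9)], [(2, 4, 11)], [(2, 5, 8)], [(2, 5, 9)], [(2, 5, 11)], [(2, 6, 8)], [(2, 6, 9)
  ], [(2, 6, 11)], [(2, 7, 8)], [(2, 7, 9)], [(2, 7, 11)], [(6, 0, 8)], [(6, 0, 9)], [(6, 0, 10)], [(6, 0, 11)
  ], [(6, 1, 8)], [(6, 1, 9)], [(6, 1, 10)], [(6, 1, 11)], [(6, 2, 8)], [(6, 2, 9)], [(6, 2, 10)], [(6, 2, 11)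
  ], [(6, 3, 8)], [(6, 3, 9)], [(6, 3, 10)], [(6, 3, 11)], [(7, 0, 8)], [(7, 0, 9)], [(7, 0, 10)], [(7, 0, 11)
  ], [(7, 1, 8)], [(7, 1, 9)], [(7, 1, 10)], [(7, 1, 11)], [(7, 2, 8)], [(7, 2, 9)], [(7, 2, 10)], [(7, 2, 11)
  ], [(7, 3, 8)], [(7, 3, 9)], [(7, 3, 10)], [(7, 3, 11)], [(8, 1, 4)], [(8, 1, 5)], [(8, 1, 6)], [(8, 1, 7)
  ], [(8, 2, 4)], [(8, 2, 5)], [(8, 2, 6)], [(8, 2, 7)], [(8, 3, 4)], [(8, 3, 5)], [(8, 3, 6)], [(8, 3, 7)
  ], [(11, 0, 4)], [(11, 0, 5)], [(11, 0, 6)], [(11, 0, 7)], [(11, 1, 4)], [(11, 1, 5)], [(11, 1, 6)], [(11, 1, 7)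
  ], [(11, 2, 4)], [(11, 2, 5)], [(11, 2, 6)], [(11, 2, 7)], [(11, 3, 4)], [(11, 3, 5)], [(11, 3, 6)], [(11, 3, 7)
  ], [(4, 0, 8)], [(4, 0, 9)], [(4, 0, 10)], [(4, 0, 11)], [(4, 1, 8)], [(4, 1, 9)], [(4, 1, 10)], [(4, 1, 11)
  ], [(4, 2, 8)], [(4, 2, 9)], [(4, 2, 10)], [(4, 2, 11)], [(4, 3, 8)], [(4, 3, 9)], [(4, 3, 10)], [(4, 3, 11)
  ], [(0, 4, 8)], [(0, 4, 9)], [(0, 4, 10)], [(0, 4, 11)], [(0, 5, 8)], [(0, 5, 9)], [(0, 5, 10)], [(0, 5, 11)
  ], [(0, 6, 8)], [(0, 6, 9)], [(0, 6, 10)], [(0, 6, 11)], [(0, 7, 8)], [(0, 7, 9)], [(0, 7, 10)], [(0, 7, 11)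
  ], [(3, 4, 8)], [(3, 4, 9)], [(3, 4, 10)], [(3, 4, 11)], [(3, 5, 8)], [(3, 5, 9)], [(3, 5, 10)], [(3, 5, 11)
  ], [(3, 6, 8)], [(3, 6, 9)], [(3, 6, 10)], [(3, 6, 11)], [(3, 7, 8)], [(3, 7, 9)], [(3, 7, 10)], [(3, 7, 11)
  ]]

private theorem h0 : chk 13 5 8 31 N (okM 16 4) (rwS L1 L2) S = true := by decide +kernel

theorem ok : (sm false 16 3 1 ∅ ∅).OK :=
  ok_of_chk _ 16 4 rfl rfl P1 P2 T F L1 L2 (r := 192) N S (by decide +kernel) (by decide +kernel)
    (by decide +kernel) (by decide +kernel) (by decide +kernel) h0 (by decide +kernel)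
    (by decide +kernel) (by decide +kernel) (by decide +kernel) (by decide +kernel)

end Pool.Agent.KZ.AL.Ck.T433_3100_0
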