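import Pool.Agent.KZ.AL.OkC

/-! # KZ4, ALPHA: finite check T433_3100_R (generated) -/

set_option autoImplicit false
set_option maxRecDepth 100000

namespace Pool.Agent.KZ.AL.Ck.T433_3100_R

open Pool.Agent.KZ (Tri chk rwS)
open Finset (range)

/-- The positions of the T-points. -/
private def P1 : List ((ℕ × ℕ × ℕ) × List (ℕ × ℤ)) :=
  [((0, 3, 0), [(0, 1), (1, 1), (14, 1)]), ((0, 3, 1), [(0, 2), (1, 1), (3, 1), (14, 1)]),
   ((0, 3, 2), [(2, 1), (12, 1)]), ((0, 3, 3), [(0, 3), (12, 1), (13, 1), (14, 1), (15, 1)]),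
   ((1, 3, 0), [(4, 1), (6, 1), (13, 1)]), ((1, 3, 1), [(5, 1), (13, 1)]),
   ((1, 3, 2), [(4, 1), (13, 1), (14, 1)]), ((1, 3, 3), [(4, 1), (7, 2), (13, 1)]),
   ((2, 3, 0), [(8, 1), (9, 1), (10, 2), (14, 1), (15, 1)]), ((2, 3, 1), [(10, 3), (12, 1), (14, 2)]),
   ((2, 3, 2), [(8, 1), (12, -1), (13, -1), (14, -1)]), ((2, 3, 3), [(9, 1), (10, 4), (11, 2), (14, 2), (15, 1)])]

/-- The positions of the free items. -/
private def P2 : List ((ℕ × ℕ × ℕ) × List (ℕ × ℤ)) :=
  []

private def T : List (ℕ × ℕ × ℕ) :=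
  [(0, 3, 0), (0, 3, 1), (0, 3, 2), (0, 3, 3), (1, 3, 0), (1, 3, 1), (1, 3, 2), (1, 3, 3),
   (2, 3, 0), (2, 3, 1), (2, 3, 2), (2, 3, 3)]

private def F : List (ℕ × ℕ × ℕ) :=
  []

private def L1 : List (List (ℕ × ℕ)) :=
  [[(0, 1), (1, 1), (14, 1)], [(0, 2), (1, 1), (3, 1), (14, 1)], [(2, 1), (12, 1)],
   [(0, 3), (12, 1), (13, 1), (14, 1), (15, 1)], [(4, 1), (6, 1), (13, 1)], [(5, 1), (13, 1)],
   [(4, 1), (13, 1), (14, 1)], [(4, 1), (7, 2), (13, 1)], [(8, 1), (9, 1), (10, 2), (14, 1), (15, 1)],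
   [(10, 3), (12, 1), (14, 2)], [(8, 1), (12, 30), (13, 30), (14, 30)], [(9, 1), (10, 4), (11, 2), (14, 2), (15, 1)]]

private def L2 : List (List (ℕ × ℕ)) :=
  []

private def t0 : Tri :=
  (.node (.node (.node (.node (.node .nil 68736258049 128 15 .nil) 68736258056 132 15 .nil) 68736258112 0 16 (.node (.node .nil 68736258560 139 15 .nil) 68736286721 129 15 .nil)) 68736286728 133 15 (.node (.node (.node .nil 68736286784 4 16 .nil) 68736287232 140 15 .nil) 68736516097 130 15 (.node (.node .nil 68736516104 134 15 .nil) 68736516160 8 16 .nil))) 68736516608 141 15 (.node (.node (.node (.node .nil 68738351105 131 15 .nil) 68738351112 135 15 .nil) 68738351168 12 16 (.node (.node .nil 68738351616 142 15 .nil) 68853698561 146 26 .nil)) 68853698624 1 16 (.node (.node (.node .nil 68853727233 152 26 .nil) 68853727296 5 16 .nil) 68853956609 158 26 (.node (.node .nil 68853956672 9 16 .nil) 68855791617 164 26 .nil))))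

private def t1 : Tri :=
  (.node (.node (.node (.node (.node .nil 69793222657 101 26 .nil) 69793222664 105 26 .nil) 69793222720 2 16 (.node (.node .nil 69793223168 112 26 .nil) 69793251329 102 26 .nil)) 69793251336 106 26 (.node (.node (.node .nil 69793251392 6 16 .nil) 69793251840 114 26 .nil) 69793480705 103 26 (.node (.node .nil 69793480712 107 26 .nil) 69793480768 10 16 .nil))) 69793481216 116 26 (.node (.node (.node (.node .nil 69795315713 104 26 .nil) 69795315720 108 26 .nil) 69795315776 14 16 (.node (.node .nil 69795316224 118 26 .nil) 77309415425 148 26 .nil)) 77309415488 3 16 (.node (.node (.node .nil 77309444097 154 26 .nil) 77309444160 7 16 .nil) 77309673473 160 26 (.node (.node .nil 77309673536 11 16 .nil) 77311508481 166 26 .nil))))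

private def t2 : Tri :=
  (.node t0 68855791680 13 16 t1)

private def t3 : Tri :=
  (.node (.node (.node (.node (.node .nil 549772595201 48 16 .nil) 549772595208 56 16 .nil) 549772595712 72 16 (.node (.node .nil 549772623873 16 16 .nil) 549772623880 20 16 .nil)) 549772623936 24 16 (.node (.node (.node .nil 549772624384 28 16 .nil) 549772853249 49 16 .nil) 549772853256 57 16 (.node (.node .nil 549772853312 64 16 .nil) 549772853760 73 16 .nil))) 549774688257 85 8 (.node (.node (.node (.node .nil 549774688264 89 8 .nil) 549774688320 93 8 .nil) 549774688768 97 8 (.node (.node .nil 549890035713 50 16 .nil) 549890035720 58 16 .nil)) 549890035776 65 16 (.node (.node (.node .nil 549890036224 75 16 .nil) 549890064385 17 16 .nil) 549890064392 21 16 (.node (.node .nil 549890064448 25 16 .nil) 549890064896 29 16 .nil))))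

private def t4 : Tri :=
  (.node (.node (.node (.node (.node .nil 549890293768 59 16 .nil) 549890293824 66 16 .nil) 549890294272 76 16 (.node (.node .nil 549892128769 86 8 .nil) 549892128776 90 8 .nil)) 549892128832 94 8 (.node (.node (.node .nil 549892129280 98 8 .nil) 550829559809 52 16 .nil) 550829559816 60 16 (.node (.node .nil 550829559872 68 16 .nil) 550829560320 78 16 .nil))) 550829588481 18 16 (.node (.node (.node (.node .nil 550829588488 22 16 .nil) 550829588544 26 16 .nil) 550829588992 30 16 (.node (.node .nil 550829817857 53 16 .nil) 550829817864 61 16 .nil)) 550829817920 69 16 (.node (.node (.node .nil 550829818368 79 16 .nil) 550831652865 87 8 .nil) 550831652872 91 8 (.node (.node .nil 550831652928 95 8 .nil) 550831653376 99 8 .nil))))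

private def t5 : Tri :=
  (.node t3 549890293761 51 16 t4)

private def t6 : Tri :=
  (.node t2 77311508544 15 16 t5)

private def t7 : Tri :=
  (.node (.node (.node (.node (.node .nil 558345752584 62 16 .nil) 558345753088 81 16 .nil) 558345781249 19 16 (.node (.node .nil 558345781256 23 16 .nil) 558345781312 27 16 .nil)) 558345781760 31 16 (.node (.node (.node .nil 558346010625 55 16 .nil) 558346010632 63 16 .nil) 558346010688 70 16 (.node (.node .nil 558346011136 82 16 .nil) 558347845633 88 8 .nil))) 558347845640 92 8 (.node (.node (.node (.node .nil 558347845696 96 8 .nil) 558347846144 100 8 .nil) 4398063292424 32 16 (.node (.node .nil 4398063292480 83 16 .nil) 4398063292928 71 16 .nil)) 4398063321096 36 16 (.node (.node (.node .nil 4398063321152 136 15 .nil) 4398063321600 119 16 .nil) 4398063550472 40 16 (.node (.node .nil 4398063550528 137 15 .nil) 4398063550976 122 16 .nil))))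

private def t8 : Tri :=
  (.node (.node (.node (.node (.node .nil 4398065385536 138 15 .nil) 4398065385984 125 16 .nil) 4398180732936 33 16 (.node (.node .nil 4398180733440 74 16 .nil) 4398180761608 37 16 .nil)) 4398180762112 120 16 (.node (.node (.node .nil 4398180990984 41 16 .nil) 4398180991488 123 16 .nil) 4398182825992 45 16 (.node (.node .nil 4398182826496 126 16 .nil) 4399120257032 34 16 .nil))) 4399120257088 67 13 (.node (.node (.node (.node .nil 4399120257536 77 16 .nil) 4399120285704 38 16 .nil) 4399120285760 109 13 (.node (.node .nil 4399120286208 113 16 .nil) 4399120515080 42 16 .nil)) 4399120515136 110 13 (.node (.node (.node .nil 4399120515584 115 16 .nil) 4399122350088 46 16 .nil) 4399122350144 111 13 (.node (.node .nil 4399122350592 117 16 .nil) 4406636449800 35 16 .nil))))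

private def t9 : Tri :=
  (.node t7 4398065385480 44 16 t8)

private def t10 : Tri :=
  (.node (.node (.node (.node (.node .nil 4406636450304 80 16 .nil) 4406636478472 39 16 .nil) 4406636478528 184 4 (.node (.node .nil 4406636478976 121 16 .nil) 4406636707848 43 16 .nil)) 4406636707904 185 4 (.node (.node (.node .nil 4406636708352 124 16 .nil) 4406638542856 47 16 .nil) 4406638542912 186 4 (.node (.node .nil 4406638543360 127 16 .nil) 35184388870145 143 26 .nil))) 35184388870152 167 16 (.node (.node (.node (.node .nil 35184388870208 171 16 .nil) 35184388870656 175 16 .nil) 35184388898817 149 26 (.node (.node .nil 35184388898824 168 16 .nil) 35184388898880 172 16 .nil)) 35184388899328 176 16 (.node (.node (.node .nil 35184389128193 155 26 .nil) 35184389128200 169 16 .nil) 35184389128256 173 16 (.node (.node .nil 35184389128704 177 16 .nil) 35184390963201 161 26 .nil))))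

private def t11 : Tri :=
  (.node (.node (.node (.node (.node .nil 35184390963264 174 16 .nil) 35184390963712 178 16 .nil) 35184506310657 145 16 (.node (.node .nil 35184506339329 151 16 .nil) 35184506568705 157 16 .nil)) 35184508403713 163 16 (.node (.node (.node .nil 35185445834753 144 26 .nil) 35185445863425 150 26 .nil) 35185446092801 156 26 (.node (.node .nil 35185447927809 162 26 .nil) 35192962027521 147 8 .nil))) 35192962027528 179 8 (.node (.node (.node (.node .nil 35192962027584 183 8 .nil) 35192962028032 187 8 .nil) 35192962056193 153 8 (.node (.node .nil 35192962056200 180 8 .nil) 35192962056704 188 8 .nil)) 35192962285569 159 8 (.node (.node (.node .nil 35192962285576 181 8 .nil) 35192962286080 189 8 .nil) 35192964120577 165 8 (.node (.node .nil 35192964120584 182 8 .nil) 35192964121088 190 8 .nil))))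

private def t12 : Tri :=
  (.node t10 35184390963208 170 16 t11)

private def t13 : Tri :=
  (.node t9 4406636449856 84 16 t12)

private def t14 : Tri :=
  (.node t6 558345752577 54 16 t13)

private def N : Tri := t14

private def S : List (List (ℕ × ℕ × ℕ)) :=
  [[(2, 4, 8)], [(2, 4, 9)], [(2, 4, 10)], [(2, 4, 11)], [(2, 5, 8)], [(2, 5, 9)], [(2, 5, 10)], [(2, 5, 11)
  ], [(2, 6, 8)], [(2, 6, 9)], [(2, 6, 10)], [(2, 6, 11)], [(2, 7, 8)], [(2, 7, 9)], [(2, 7, 10)], [(2, 7, 11)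
  ], [(5, 0, 8)], [(5, 0, 9)], [(5, 0, 10)], [(5, 0, 11)], [(5, 1, 8)], [(5, 1, 9)], [(5, 1, 10)], [(5, 1, 11)
  ], [(5, 2, 8)], [(5, 2, 9)], [(5, 2, 10)], [(5, 2, 11)], [(5, 3, 8)], [(5, 3, 9)], [(5, 3, 10)], [(5, 3, 11)
  ], [(0, 4, 8)], [(0, 4, 9)], [(0, 4, 10)], [(0, 4, 11)], [(0, 5, 8)], [(0, 5, 9)], [(0, 5, 10)], [(0, 5, 11)
  ], [(0, 6, 8)], [(0, 6, 9)], [(0, 6, 10)], [(0, 6, 11)], [(0, 7, 8)], [(0, 7, 9)], [(0, 7, 10)], [(0, 7, 11)
  ], [(6, 0, 8)], [(4, 0, 8)], [(6, 0, 9)], [(4, 0, 9)], [(6, 0, 10)], [(4, 0, 10)], [(6, 0, 11)], [(4, 0, 11)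
  ], [(6, 1, 8)], [(4, 1, 8)], [(6, 1, 9)], [(4, 1, 9)], [(6, 1, 10)], [(4, 1, 10)], [(6, 1, 11)], [(4, 1, 11)
  ], [(4, 2, 8)], [(6, 2, 9)], [(4, 2, 9)], [(9, 2, 4)], [(6, 2, 10)], [(4, 2, 10)], [(4, 2, 11)], [(1, 4, 8)
  ], [(6, 3, 8)], [(4, 3, 8)], [(1, 4, 9)], [(6, 3, 9)], [(4, 3, 9)], [(1, 4, 10)], [(6, 3, 10)], [(4, 3, 10)
  ], [(1, 4, 11)], [(6, 3, 11)], [(4, 3, 11)], [(6, 2, 8)], [(6, 2, 11)], [(7, 0, 8)], [(7, 0, 9)], [(7, 0, 10)
  ], [(7, 0, 11)], [(7, 1, 8)], [(7, 1, 9)], [(7, 1, 10)], [(7, 1, 11)], [(7, 2, 8)], [(7, 2, 9)], [(7, 2, 10)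
  ], [(7, 2, 11)], [(7, 3, 8)], [(7, 3, 9)], [(7, 3, 10)], [(7, 3, 11)], [(9, 0, 4)], [(9, 0, 5)], [(9, 0, 6)
  ], [(9, 0, 7)], [(9, 1, 4)], [(9, 1, 5)], [(9, 1, 6)], [(9, 1, 7)], [(9, 2, 5)], [(9, 2, 6)], [(9, 2, 7)
  ], [(9, 3, 4)], [(1, 5, 10)], [(9, 3, 5)], [(1, 6, 10)], [(9, 3, 6)], [(1, 7, 10)], [(9, 3, 7)], [(1, 5, 8)
  ], [(1, 5, 9)], [(1, 5, 11)], [(1, 6, 8)], [(1, 6, 9)], [(1, 6, 11)], [(1, 7, 8)], [(1, 7, 9)], [(1, 7, 11)
  ], [(10, 0, 4)], [(10, 0, 5)], [(10, 0, 6)], [(10, 0, 7)], [(10, 1, 4)], [(10, 1, 5)], [(10, 1, 6)], [(10, 1, 7)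
  ], [(10, 2, 5)], [(10, 2, 6)], [(10, 2, 7)], [(10, 3, 4)], [(10, 3, 5)], [(10, 3, 6)], [(10, 3, 7)], [(3, 4, 8)
  ], [(3, 4, 10)], [(8, 0, 4)], [(3, 4, 9)], [(11, 0, 4)], [(3, 4, 11)], [(3, 5, 8)], [(3, 5, 10)], [(8, 0, 5)
  ], [(3, 5, 9)], [(11, 0, 5)], [(3, 5, 11)], [(3, 6, 8)], [(3, 6, 10)], [(8, 0, 6)], [(3, 6, 9)], [(11, 0, 6)
  ], [(3, 6, 11)], [(3, 7, 8)], [(3, 7, 10)], [(8, 0, 7)], [(3, 7, 9)], [(11, 0, 7)], [(3, 7, 11)], [(8, 1, 4)
  ], [(8, 1, 5)], [(8, 1, 6)], [(8, 1, 7)], [(8, 2, 4)], [(8, 2, 5)], [(8, 2, 6)], [(8, 2, 7)], [(8, 3, 4)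
  ], [(8, 3, 5)], [(8, 3, 6)], [(8, 3, 7)], [(11, 1, 4)], [(11, 1, 5)], [(11, 1, 6)], [(11, 1, 7)], [(11, 2, 4)
  ], [(11, 2, 5)], [(11, 2, 6)], [(11, 2, 7)], [(11, 3, 4)], [(11, 3, 5)], [(11, 3, 6)], [(11, 3, 7)]]

private theorem h0 : chk 20 5 15 31 N (okM 16 4) (rwS L1 L2) S = true := by decide +kernel

theorem ok : (sm false 16 3 1 {(3, {0, 1, 2}, 2)} ∅).OK :=
  ok_of_chk _ 16 4 rfl rfl P1 P2 T F L1 L2 (r := 191) N S (by decide +kernel) (by decide +kernel)
    (by decide +kernel) (by decide +kernel) (by decide +kernel) h0 (by decide +kernel)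
    (by decide +kernel) (by decide +kernel) (by decide +kernel) (by decide +kernel)

end Pool.Agent.KZ.AL.Ck.T433_3100_R
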